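import Mathlib

set_option autoImplicit false

namespace Pool.Agent.H19.ACRel

open Function
open scoped commutatorElement

variable {G : Type} (Ω : Type) [Group G] [Group Ω] [MulDistribMulAction Ω G] {k : ℕ}

def Move (a b : Fin k → G) : Prop :=
  (∃ i j : Fin k, i ≠ j ∧
    (b = Function.update a i (a i * a j) ∨
     b = Function.update a i (a i * (a j)⁻¹) ∨
     b = Function.update a i (a j * a i) ∨
     b = Function.update a i ((a j)⁻¹ * a i))) ∨
  (∃ i : Fin k, b = Function.update a i (a i)⁻¹) ∨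
  (∃ (i : Fin k) (g : G), b = Function.update a i (g⁻¹ * a i * g)) ∨
  (∃ (i : Fin k) (ω : Ω), b = Function.update a i (ω • a i))

abbrev Reach (a b : Fin k → G) : Prop := Relation.ReflTransGen (Move Ω) a b

def Inv (H : Subgroup G) : Prop := H.Normal ∧ ∀ ω : Ω, ∀ h ∈ H, ω • h ∈ H

def Gen (u : Fin k → G) : Prop :=
  ∀ H : Subgroup G, H.Normal → (∀ ω : Ω, ∀ h ∈ H, ω • h ∈ H) → (∀ i, u i ∈ H) → H = ⊤

def cl (x : G) : Subgroup G :=
  Subgroup.closure {y | ∃ (ω : Ω) (g : G), y = g⁻¹ * (ω • x) * g}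

variable {Ω}

theorem move_symm {a b : Fin k → G} (h : Move Ω a b) : Move Ω b a := by
  rcases h with ⟨i, j, hij, h | h | h | h⟩ | ⟨i, h⟩ | ⟨i, g, h⟩ | ⟨i, ω, h⟩
  · refine Or.inl ⟨i, j, hij, Or.inr (Or.inl ?_)⟩
    subst h; simp [update_of_ne hij.symm]
  · refine Or.inl ⟨i, j, hij, Or.inl ?_⟩
    subst h; simp [update_of_ne hij.symm]
  · refine Or.inl ⟨i, j, hij, Or.inr (Or.inr (Or.inr ?_))⟩
    subst h; simp [update_of_ne hij.symm]
  · refine Or.inl ⟨i, j, hij, Or.inr (Or.inr (Or.inl ?_))⟩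
    subst h; simp [update_of_ne hij.symm]
  · refine Or.inr (Or.inl ⟨i, ?_⟩)
    subst h; simp
  · refine Or.inr (Or.inr (Or.inl ⟨i, g⁻¹, ?_⟩))
    subst h; simp [mul_assoc]
  · refine Or.inr (Or.inr (Or.inr ⟨i, ω⁻¹, ?_⟩))
    subst h; simp

theorem reach_symm {a b : Fin k → G} (h : Reach Ω a b) : Reach Ω b a := by
  induction h with
  | refl => exact Relation.ReflTransGen.refl
  | tail _ h2 ih => exact Relation.ReflTransGen.head (move_symm h2) ih

theorem move_mem {a b : Fin k → G} (h : Move Ω a b) {H : Subgroup G} (hH : Inv Ω H)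
    (ha : ∀ i, a i ∈ H) : ∀ i, b i ∈ H := by
  have key : ∀ (i : Fin k) (x : G), x ∈ H → ∀ l, update a i x l ∈ H := by
    intro i x hx l
    by_cases hl : l = i
    · subst hl; simpa using hx
    · rw [update_of_ne hl]; exact ha l
  rcases h with ⟨i, j, -, h | h | h | h⟩ | ⟨i, h⟩ | ⟨i, g, h⟩ | ⟨i, ω, h⟩ <;> subst h <;>
    apply key
  · exact H.mul_mem (ha _) (ha _)
  · exact H.mul_mem (ha _) (H.inv_mem (ha _))
  · exact H.mul_mem (ha _) (ha _)
  · exact H.mul_mem (H.inv_mem (ha _)) (ha _)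
  · exact H.inv_mem (ha _)
  · simpa using hH.1.conj_mem _ (ha i) g⁻¹
  · exact hH.2 _ _ (ha _)

theorem reach_gen {a b : Fin k → G} (h : Reach Ω a b) (ha : Gen Ω a) : Gen Ω b := by
  induction h with
  | refl => exact ha
  | tail _ h2 ih =>
    intro H h1 h3 h4
    exact ih H h1 h3 (move_mem (move_symm h2) ⟨h1, h3⟩ h4)

theorem cl_inv (x : G) : Inv Ω (cl Ω x) := by
  constructor
  · constructor
    intro n hn g
    induction hn using Subgroup.closure_induction with
    | mem y hy =>
      obtain ⟨ω, h, rfl⟩ := hy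
      exact Subgroup.subset_closure ⟨ω, h * g⁻¹, by group⟩
    | one => simpa using Subgroup.one_mem _
    | mul a b _ _ iha ihb =>
      have : g * (a * b) * g⁻¹ = (g * a * g⁻¹) * (g * b * g⁻¹) := by group
      rw [this]; exact Subgroup.mul_mem _ iha ihb
    | inv a _ iha =>
      have : g * a⁻¹ * g⁻¹ = (g * a * g⁻¹)⁻¹ := by group
      rw [this]; exact Subgroup.inv_mem _ iha
  · intro τ n hn
    induction hn using Subgroup.closure_induction with
    | mem y hy =>
      obtain ⟨ω, h, rfl⟩ := hy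
      exact Subgroup.subset_closure ⟨τ * ω, τ • h, by simp [smul_mul', smul_inv', mul_smul]⟩
    | one => simpa using Subgroup.one_mem _
    | mul a b _ _ iha ihb => rw [smul_mul']; exact Subgroup.mul_mem _ iha ihb
    | inv a _ iha => rw [smul_inv']; exact Subgroup.inv_mem _ iha

theorem mem_cl (x : G) : x ∈ cl Ω x := Subgroup.subset_closure ⟨1, 1, by simp⟩

theorem cl_le {x : G} {H : Subgroup G} (hH : Inv Ω H) (hx : x ∈ H) : cl Ω x ≤ H := by
  rw [cl, Subgroup.closure_le]
  rintro y ⟨ω, g, rfl⟩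
  simpa using hH.1.conj_mem _ (hH.2 ω _ hx) g⁻¹

theorem reach_mul (u : Fin k → G) {i j : Fin k} (hij : i ≠ j) {w : G} (hw : w ∈ cl Ω (u j))
    (x : G) : Reach Ω (update u i x) (update u i (x * w)) := by
  induction hw using Subgroup.closure_induction generalizing x with
  | mem y hy =>
    obtain ⟨ω, g, rfl⟩ := hy
    have h1 : ∀ z : G, Reach Ω (update u i z)
        (update (update u i z) j (g⁻¹ * (ω • u j) * g)) := by
      intro z
      have a1 : Move Ω (update u i z) (update (update u i z) j (ω • u j)) :=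
        Or.inr (Or.inr (Or.inr ⟨j, ω, by rw [update_of_ne hij.symm]⟩))
      have a2 : Move Ω (update (update u i z) j (ω • u j))
          (update (update u i z) j (g⁻¹ * (ω • u j) * g)) :=
        Or.inr (Or.inr (Or.inl ⟨j, g, by simp⟩))
      exact (Relation.ReflTransGen.single a1).tail a2
    have a3 : Move Ω (update (update u i x) j (g⁻¹ * (ω • u j) * g))
        (update (update u i (x * (g⁻¹ * (ω • u j) * g))) j (g⁻¹ * (ω • u j) * g)) := by
      refine Or.inl ⟨i, j, hij, Or.inl ?_⟩
      rw [update_of_ne hij, update_self, update_self, update_comm hij.symm, update_idem,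
        update_comm hij]
    exact ((h1 x).tail a3).trans (reach_symm (h1 _))
  | one => simpa using Relation.ReflTransGen.refl
  | mul a b _ _ iha ihb => rw [← mul_assoc]; exact (iha x).trans (ihb _)
  | inv a _ iha =>
    have := reach_symm (iha (x * a⁻¹))
    simpa using this

theorem reach_of_big {M : Subgroup G} (u w : Fin k → G) (a : Fin k) (hM : M ≤ cl Ω (u a))
    (ha : w a = u a) (h : ∀ l, (u l)⁻¹ * w l ∈ M) : Reach Ω u w := by
  have key : ∀ s : Finset (Fin k), Reach Ω u (fun l => if l ∈ s then w l else u l) := by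
    intro s
    induction s using Finset.induction_on with
    | empty => simpa using Relation.ReflTransGen.refl
    | insert l s hl ih =>
      by_cases hla : l = a
      · subst hla
        convert ih using 2 with t
        by_cases ht : t = l
        · subst ht; simp [hl, ha]
        · simp [ht]
      · refine ih.trans ?_
        have hv : (fun t => if t ∈ s then w t else u t) a = u a := by
          by_cases h' : a ∈ s <;> simp [h', ha]
        have := reach_mul (Ω := Ω) (fun t => if t ∈ s then w t else u t) hla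
          (w := (u l)⁻¹ * w l) (by rw [show (if a ∈ s then w a else u a) = u a from hv]; exact hM (h l)) (u l)
        convert this using 1
        · funext t
          by_cases ht : t = l
          · subst ht; simp [hl]
          · simp [update_of_ne ht]
        · funext t
          by_cases ht : t = l
          · subst ht; simp
          · simp [update_of_ne ht, ht]
  simpa using key Finset.univ

theorem reach_of_two {M : Subgroup G} (u v : Fin k → G) {i j : Fin k} (hij : i ≠ j)
    (hi : M ≤ cl Ω (u i)) (hj : M ≤ cl Ω (v j)) (h : ∀ l, (u l)⁻¹ * v l ∈ M) :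
    Reach Ω u v := by
  have h1 : Reach Ω u (update v i (u i)) := by
    refine reach_of_big u _ i hi (by simp) fun l => ?_
    by_cases hl : l = i
    · subst hl; simpa using M.one_mem
    · rw [update_of_ne hl]; exact h l
  refine h1.trans (reach_of_big (M := M) _ _ j (by rwa [update_of_ne hij.symm])
    (by rw [update_of_ne hij.symm]) fun l => ?_)
  by_cases hl : l = i
  · subst hl; simpa using h l
  · rw [update_of_ne hl]; simpa using M.one_mem

theorem inv_commutator {A B : Subgroup G} (hA : Inv Ω A) (hB : Inv Ω B) : Inv Ω ⁅A, B⁆ := by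
  have := hA.1; have := hB.1
  refine ⟨inferInstance, fun ω h hh => ?_⟩
  have : ⁅A, B⁆ ≤ (⁅A, B⁆).comap (MulDistribMulAction.toMonoidHom G ω) := by
    rw [Subgroup.commutator_le]
    intro a ha b hb
    rw [Subgroup.mem_comap, map_commutatorElement]
    exact Subgroup.commutator_mem_commutator (hA.2 ω a ha) (hB.2 ω b hb)
  exact this hh

theorem inv_inf {A B : Subgroup G} (hA : Inv Ω A) (hB : Inv Ω B) : Inv Ω (A ⊓ B) := by
  have := hA.1; have := hB.1
  exact ⟨inferInstance, fun ω h hh => ⟨hA.2 ω h hh.1, hB.2 ω h hh.2⟩⟩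

theorem inv_top : Inv Ω (⊤ : Subgroup G) := ⟨inferInstance, fun _ _ _ => trivial⟩

theorem inv_centralizer {A : Subgroup G} (hA : Inv Ω A) :
    Inv Ω (Subgroup.centralizer (A : Set G)) := by
  have := hA.1
  refine ⟨inferInstance, fun ω h hh => ?_⟩
  rw [Subgroup.mem_centralizer_iff] at hh ⊢
  intro a ha
  have := congrArg (fun t => ω • t) (hh (ω⁻¹ • a) (hA.2 _ _ ha))
  simpa [smul_mul'] using this

/-- Elements `y` whose commutators with everything lie in an invariant subgroup `X`. -/
def cmod (X : Subgroup G) [X.Normal] : Subgroup G :=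
  (Subgroup.center (G ⧸ X)).comap (QuotientGroup.mk' X)

theorem mem_cmod {X : Subgroup G} [X.Normal] {y : G} :
    y ∈ cmod X ↔ ∀ g : G, ⁅y, g⁆ ∈ X := by
  rw [cmod, Subgroup.mem_comap, Subgroup.mem_center_iff]
  constructor
  · intro h g
    rw [← QuotientGroup.eq_one_iff]
    have := h (g : G ⧸ X)
    have h2 : ((⁅y, g⁆ : G) : G ⧸ X) = ⁅(y : G ⧸ X), (g : G ⧸ X)⁆ :=
      map_commutatorElement (QuotientGroup.mk' X) y g
    rw [h2, commutatorElement_eq_one_iff_mul_comm]
    exact this.symm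
  · intro h g
    obtain ⟨g, rfl⟩ := QuotientGroup.mk_surjective g
    have := (QuotientGroup.eq_one_iff _).2 (h g)
    have h2 : ((⁅y, g⁆ : G) : G ⧸ X) = ⁅(y : G ⧸ X), (g : G ⧸ X)⁆ :=
      map_commutatorElement (QuotientGroup.mk' X) y g
    rw [h2, commutatorElement_eq_one_iff_mul_comm] at this
    exact this.symm

theorem central_le {x y : G} (h : x⁻¹ * y ∈ Subgroup.center G) :
    ⁅cl Ω y, (⊤ : Subgroup G)⁆ ≤ cl Ω x := by
  have hN := (cl_inv (Ω := Ω) x).1
  have hinv : Inv Ω (cmod (cl Ω x)) := by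
    refine ⟨by unfold cmod; infer_instance, fun ω t ht => ?_⟩
    rw [mem_cmod] at ht ⊢
    intro g
    have := (cl_inv (Ω := Ω) x).2 ω _ (ht (ω⁻¹ • g))
    have h2 : ω • ⁅t, ω⁻¹ • g⁆ = ⁅ω • t, g⁆ := by
      simp [commutatorElement_def, smul_mul', smul_inv']
    rwa [h2] at this
  have hy : y ∈ cmod (cl Ω x) := by
    rw [mem_cmod]
    intro g
    have hc := Subgroup.mem_center_iff.1 h
    have e : ⁅y, g⁆ = x * (g * x⁻¹ * g⁻¹) := by
      have h1 : y = x * (x⁻¹ * y) := by group
      generalize x⁻¹ * y = z at *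
      subst h1
      rw [commutatorElement_def]
      calc x * z * g * (x * z)⁻¹ * g⁻¹ = x * (z * g) * z⁻¹ * x⁻¹ * g⁻¹ := by group
        _ = x * (g * z) * z⁻¹ * x⁻¹ * g⁻¹ := by rw [hc g]
        _ = _ := by group
    rw [e]
    exact Subgroup.mul_mem _ (mem_cl x) (hN.conj_mem _ (Subgroup.inv_mem _ (mem_cl x)) g)
  rw [Subgroup.commutator_le]
  intro a ha b _
  exact mem_cmod.1 (cl_le hinv hy ha) b

theorem step {M : Subgroup G} (hM : Inv Ω M)
    (hmin : ∀ L : Subgroup G, Inv Ω L → L ≤ M → L = ⊥ ∨ L = M)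
    (u v : Fin k → G) (hu : Gen Ω u) (hv : Gen Ω v) {i j : Fin k} (hij : i ≠ j)
    (hle : M ≤ ⁅cl Ω (v i), cl Ω (v j)⁆) (h : ∀ l, (u l)⁻¹ * v l ∈ M) : Reach Ω u v := by
  have hMn := hM.1
  set C := Subgroup.centralizer (M : Set G) with hC
  have hCinv : Inv Ω C := inv_centralizer hM
  by_cases hc : C = ⊤
  · have hz : M ≤ Subgroup.center G := by
      intro m hm
      rw [Subgroup.mem_center_iff]
      intro g
      have : g ∈ C := by rw [hc]; trivial
      exact ((Subgroup.mem_centralizer_iff.1 this) m hm).symm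
    refine reach_of_two u v hij ?_ ?_ h
    · exact hle.trans ((Subgroup.commutator_mono le_rfl le_top).trans (central_le (hz (h i))))
    · have := (cl_inv (Ω := Ω) (v j)).1
      exact hle.trans (Subgroup.commutator_le_right _ _)
  · have big : ∀ x, x ∉ C → M ≤ cl Ω x := by
      intro x hx
      have := (cl_inv (Ω := Ω) x).1
      rcases hmin ⁅M, cl Ω x⁆ (inv_commutator hM (cl_inv x))
        (Subgroup.commutator_le_left _ _) with h0 | h0
      · exfalso
        apply hx
        rw [Subgroup.mem_centralizer_iff]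
        intro m hm
        have : ⁅m, x⁆ ∈ ⁅M, cl Ω x⁆ := Subgroup.commutator_mem_commutator hm (mem_cl x)
        rw [h0, Subgroup.mem_bot, commutatorElement_eq_one_iff_mul_comm] at this
        exact this
      · rw [← h0]; exact Subgroup.commutator_le_right _ _
    have hex : ∃ a, u a ∉ C := by
      by_contra hh
      push Not at hh
      exact hc (hu C hCinv.1 hCinv.2 hh)
    obtain ⟨a, ha⟩ := hex
    have h1 := (cl_inv (Ω := Ω) (v i)).1
    have h2 := (cl_inv (Ω := Ω) (v j)).1
    by_cases hai : a = i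
    · subst hai
      exact reach_of_two u v hij (big _ ha) (hle.trans (Subgroup.commutator_le_right _ _)) h
    · exact reach_of_two u v hai (big _ ha) (hle.trans (Subgroup.commutator_le_left _ _)) h

/-- The action on a quotient by an invariant normal subgroup. -/
@[reducible] def quotAct (M : Subgroup G) [M.Normal] (hM : ∀ ω : Ω, ∀ h ∈ M, ω • h ∈ M) :
    MulDistribMulAction Ω (G ⧸ M) where
  smul ω := QuotientGroup.map M M (MulDistribMulAction.toMonoidHom G ω) (fun h hh => hM ω h hh)
  one_smul x := by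
    obtain ⟨x, rfl⟩ := QuotientGroup.mk_surjective x
    change ((((1 : Ω) • x : G)) : G ⧸ M) = x
    rw [one_smul]
  mul_smul a b x := by
    obtain ⟨x, rfl⟩ := QuotientGroup.mk_surjective x
    change ((((a * b) • x : G)) : G ⧸ M) = ((a • b • x : G) : G ⧸ M)
    rw [mul_smul]
  smul_mul a x y := map_mul _ x y
  smul_one a := map_one _

theorem lift_move {Q : Type} [Group Q] [MulDistribMulAction Ω Q] (π : G →* Q)
    (hs : Surjective π) (he : ∀ (ω : Ω) (g : G), π (ω • g) = ω • π g) {u : Fin k → G}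
    {w : Fin k → Q} (h : Move Ω (fun i => π (u i)) w) :
    ∃ u', Move Ω u u' ∧ (fun i => π (u' i)) = w := by
  have key : ∀ (i : Fin k) (x : G),
      (fun l => π (update u i x l)) = update (fun i => π (u i)) i (π x) := by
    intro i x
    funext l
    by_cases hl : l = i
    · subst hl; simp
    · simp [update_of_ne hl]
  rcases h with ⟨i, j, hij, h | h | h | h⟩ | ⟨i, h⟩ | ⟨i, g, h⟩ | ⟨i, ω, h⟩
  · exact ⟨_, Or.inl ⟨i, j, hij, Or.inl rfl⟩, by rw [key, h]; simp⟩
  · exact ⟨_, Or.inl ⟨i, j, hij, Or.inr (Or.inl rfl)⟩, by rw [key, h]; simp⟩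
  · exact ⟨_, Or.inl ⟨i, j, hij, Or.inr (Or.inr (Or.inl rfl))⟩, by rw [key, h]; simp⟩
  · exact ⟨_, Or.inl ⟨i, j, hij, Or.inr (Or.inr (Or.inr rfl))⟩, by rw [key, h]; simp⟩
  · exact ⟨_, Or.inr (Or.inl ⟨i, rfl⟩), by rw [key, h]; simp⟩
  · obtain ⟨g, rfl⟩ := hs g
    exact ⟨_, Or.inr (Or.inr (Or.inl ⟨i, g, rfl⟩)), by rw [key, h]; simp⟩
  · exact ⟨_, Or.inr (Or.inr (Or.inr ⟨i, ω, rfl⟩)), by rw [key, h, he]⟩

theorem lift_reach {Q : Type} [Group Q] [MulDistribMulAction Ω Q] (π : G →* Q)
    (hs : Surjective π) (he : ∀ (ω : Ω) (g : G), π (ω • g) = ω • π g) {u : Fin k → G}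
    {w : Fin k → Q} (h : Reach Ω (fun i => π (u i)) w) :
    ∃ u', Reach Ω u u' ∧ (fun i => π (u' i)) = w := by
  induction h with
  | refl => exact ⟨u, Relation.ReflTransGen.refl, rfl⟩
  | tail _ h2 ih =>
    obtain ⟨u', h3, rfl⟩ := ih
    obtain ⟨u'', h4, h5⟩ := lift_move π hs he h2
    exact ⟨u'', h3.tail h4, h5⟩

theorem gen_map {Q : Type} [Group Q] [MulDistribMulAction Ω Q] (π : G →* Q)
    (hs : Surjective π) (he : ∀ (ω : Ω) (g : G), π (ω • g) = ω • π g) {u : Fin k → G}
    (hu : Gen Ω u) : Gen Ω (fun i => π (u i)) := by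
  intro H h1 h2 h3
  have := hu (H.comap π) inferInstance
    (fun ω h hh => by rw [Subgroup.mem_comap, he]; exact h2 ω _ hh) h3
  rw [eq_top_iff]
  intro q _
  obtain ⟨g, rfl⟩ := hs q
  have hg : g ∈ H.comap π := by rw [this]; trivial
  exact hg

theorem main (hk : 2 ≤ k) (n : ℕ) : ∀ (G : Type) [Group G] [Finite G] [MulDistribMulAction Ω G],
    Nat.card G = n → ∀ u v : Fin k → G, Gen Ω u → Gen Ω v →
      (∀ l, (u l)⁻¹ * v l ∈ commutator G) → Reach Ω u v := by
  induction n using Nat.strong_induction_on with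
  | _ n ih =>
  intro G _ _ _ hn
  have core : ∀ u v : Fin k → G, Gen Ω u → Gen Ω v → (∀ l, (u l)⁻¹ * v l ∈ commutator G) →
      ∀ i j, i ≠ j → ⁅cl Ω (v i), cl Ω (v j)⁆ ≠ ⊥ → Reach Ω u v := by
    intro u v hu hv h i j hij hne
    have hfin : Finite (Subgroup G) := inferInstance
    obtain ⟨M, ⟨hM, hle, hM0⟩, hmin⟩ := (wellFounded_lt (α := Subgroup G)).has_min
      {L | Inv Ω L ∧ L ≤ ⁅cl Ω (v i), cl Ω (v j)⁆ ∧ L ≠ ⊥}
      ⟨_, inv_commutator (cl_inv _) (cl_inv _), le_rfl, hne⟩
    have hMn := hM.1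
    letI := quotAct M hM.2
    have he : ∀ (ω : Ω) (g : G), QuotientGroup.mk' M (ω • g) = ω • QuotientGroup.mk' M g :=
      fun _ _ => rfl
    have hs := QuotientGroup.mk'_surjective M
    have hlt : Nat.card (G ⧸ M) < n := by
      rw [← hn, Subgroup.card_eq_card_quotient_mul_card_subgroup M]
      have h1 : 1 < Nat.card M := (Subgroup.one_lt_card_iff_ne_bot M).2 hM0
      have h2 : 0 < Nat.card (G ⧸ M) := Nat.card_pos
      nlinarith
    have hr := ih _ hlt (G ⧸ M) rfl _ _ (gen_map _ hs he hu) (gen_map _ hs he hv) (by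
      intro l
      rw [← map_inv, ← map_mul]
      have : (commutator G).map (QuotientGroup.mk' M) ≤ commutator (G ⧸ M) := by
        rw [commutator, Subgroup.map_commutator]
        exact Subgroup.commutator_mono le_top le_top
      exact this (Subgroup.mem_map_of_mem _ (h l)))
    obtain ⟨u', h1, h2⟩ := lift_reach _ hs he hr
    refine h1.trans (step hM ?_ u' v (reach_gen h1 hu) hv hij hle fun l => ?_)
    · intro L hL hLM
      by_contra hh
      push Not at hh
      exact hmin L ⟨hL, hLM.trans hle, hh.1⟩ (lt_of_le_of_ne hLM hh.2)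
    · exact QuotientGroup.eq.1 (congrFun h2 l)
  intro u v hu hv h
  by_cases h1 : ∃ i j, i ≠ j ∧ ⁅cl Ω (v i), cl Ω (v j)⁆ ≠ ⊥
  · obtain ⟨i, j, hij, hne⟩ := h1
    exact core u v hu hv h i j hij hne
  by_cases h2 : ∃ i j, i ≠ j ∧ ⁅cl Ω (v i), cl Ω (v i * v j)⁆ ≠ ⊥
  · obtain ⟨i, j, hij, hne⟩ := h2
    have mv : ∀ w : Fin k → G, Reach Ω w (update w j (w i * w j)) := fun w =>
      Relation.ReflTransGen.single (Or.inl ⟨j, i, hij.symm, Or.inr (Or.inr (Or.inl rfl))⟩)
    refine ((mv u).trans (core _ _ (reach_gen (mv u) hu) (reach_gen (mv v) hv) ?_ i j hij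
      ?_)).trans (reach_symm (mv v))
    · intro l
      by_cases hl : l = j
      · subst hl
        simp only [update_self]
        have e : (u i * u l)⁻¹ * (v i * v l) =
            ((u l)⁻¹ * ((u i)⁻¹ * v i) * (u l)⁻¹⁻¹) * ((u l)⁻¹ * v l) := by group
        rw [e]
        exact Subgroup.mul_mem _ (Subgroup.Normal.conj_mem inferInstance _ (h i) _) (h l)
      · simp only [update_of_ne hl]; exact h l
    · rwa [update_of_ne hij, update_self]
  push Not at h1 h2
  have hall : ∀ i j, ⁅cl Ω (v i), cl Ω (v j)⁆ = ⊥ := by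
    intro i j
    by_cases hij : i = j
    · subst hij
      haveI : Nontrivial (Fin k) := Fin.nontrivial_iff_two_le.2 hk
      obtain ⟨j, hj⟩ := exists_ne i
      have a1 := h1 i j hj.symm
      have a2 := h2 i j hj.symm
      rw [Subgroup.commutator_comm, Subgroup.commutator_eq_bot_iff_le_centralizer] at a1 a2 ⊢
      apply cl_le (inv_centralizer (cl_inv _))
      have : v i = (v i * v j) * (v j)⁻¹ := by group
      have h3 := Subgroup.mul_mem _ (a2 (mem_cl _)) (Subgroup.inv_mem _ (a1 (mem_cl _)))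
      rwa [← this] at h3
    · exact h1 i j hij
  have hc : ∀ i, v i ∈ Subgroup.center G := by
    intro i
    have := hv _ (inv_centralizer (cl_inv (Ω := Ω) (v i))).1
      (inv_centralizer (cl_inv (Ω := Ω) (v i))).2 (fun j => by
        have a1 := hall j i
        rw [Subgroup.commutator_eq_bot_iff_le_centralizer] at a1
        exact a1 (mem_cl _))
    rw [Subgroup.mem_center_iff]
    intro g
    have hg : g ∈ Subgroup.centralizer (cl Ω (v i) : Set G) := by rw [this]; trivial
    exact (Subgroup.mem_centralizer_iff.1 hg _ (mem_cl _)).symm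
  have hz : Subgroup.center G = ⊤ := by
    have hi := inv_centralizer (inv_top (Ω := Ω) (G := G))
    rw [Subgroup.coe_top, Subgroup.centralizer_univ] at hi
    exact hv _ hi.1 hi.2 hc
  have hb : commutator G = ⊥ := by
    rw [commutator, Subgroup.commutator_eq_bot_iff_le_centralizer, Subgroup.coe_top,
      Subgroup.centralizer_univ, hz]
  have : u = v := by
    funext l
    have := h l
    rw [hb, Subgroup.mem_bot, inv_mul_eq_one] at this
    exact this
  rw [this]

end Pool.Agent.H19.ACRel
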