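import Mathlib

set_option autoImplicit false

namespace Pool.Agent.H19.AutFree

open FreeGroup hiding map_one map_inv map_mul
open Cardinal Function

variable {α : Type}

/-- The subgroup generated by a set of letters. -/
def Gn (S : Set α) : Subgroup (FreeGroup α) := Subgroup.closure (of '' S)

lemma of_mem {S : Set α} {x : α} (h : x ∈ S) : of x ∈ Gn S :=
  Subgroup.subset_closure ⟨x, h, rfl⟩

lemma Gn_mono {S T : Set α} (h : S ⊆ T) : Gn S ≤ Gn T :=
  Subgroup.closure_mono (Set.image_mono h)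

lemma ex_supp (w : FreeGroup α) : ∃ S : Set α, S.Finite ∧ w ∈ Gn S := by
  induction w using FreeGroup.induction_on with
  | C1 => exact ⟨∅, Set.finite_empty, one_mem _⟩
  | of x => exact ⟨{x}, Set.finite_singleton x, of_mem rfl⟩
  | inv_of x h => obtain ⟨S, hS, h⟩ := h; exact ⟨S, hS, inv_mem h⟩
  | mul x y hx hy =>
    obtain ⟨S, hS, h⟩ := hx
    obtain ⟨T, hT, h'⟩ := hy
    exact ⟨S ∪ T, hS.union hT, mul_mem (Gn_mono Set.subset_union_left h)
      (Gn_mono Set.subset_union_right h')⟩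

def supp (w : FreeGroup α) : Set α := (ex_supp w).choose
lemma supp_fin (w : FreeGroup α) : (supp w).Finite := (ex_supp w).choose_spec.1
lemma mem_supp (w : FreeGroup α) : w ∈ Gn (supp w) := (ex_supp w).choose_spec.2

lemma agree {G : Type} [Group G] {f g : FreeGroup α →* G} {S : Set α}
    (h : ∀ x ∈ S, f (of x) = g (of x)) {w : FreeGroup α} (hw : w ∈ Gn S) : f w = g w := by
  have : Gn S ≤ f.eqLocus g := by
    rw [Gn, Subgroup.closure_le]
    rintro _ ⟨x, hx, rfl⟩
    exact h x hx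
  exact this hw

lemma map_mem {G : Type} [Group G] {f : FreeGroup α →* G} {S : Set α} {K : Subgroup G}
    (h : ∀ x ∈ S, f (of x) ∈ K) {w : FreeGroup α} (hw : w ∈ Gn S) : f w ∈ K := by
  have : Gn S ≤ K.comap f := by
    rw [Gn, Subgroup.closure_le]
    rintro _ ⟨x, hx, rfl⟩
    exact h x hx
  exact this hw

lemma inj_of (f : FreeGroup α →* FreeGroup α)
    (h : ∀ S : Set α, S.Finite → ∃ g : MulAut (FreeGroup α), ∀ x ∈ S, f (of x) = g (of x)) :
    Injective f := by
  rw [injective_iff_map_eq_one]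
  intro w hw
  obtain ⟨g, hg⟩ := h _ (supp_fin w)
  have : f w = g.toMonoidHom w := agree hg (mem_supp w)
  rw [hw] at this
  exact g.injective (by rw [map_one]; exact this.symm)

lemma surj_of (f : FreeGroup α →* FreeGroup α) (h : ∀ x, of x ∈ f.range) : Surjective f := by
  intro w
  exact map_mem (f := MonoidHom.id _) (S := supp w) (fun x _ => h x) (mem_supp w)

lemma aut_ext {f g : MulAut (FreeGroup α)} (h : ∀ x, f (of x) = g (of x)) : f = g :=
  MulEquiv.toMonoidHom_injective (FreeGroup.ext_hom _ _ h)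

/-- Permutations of the letters. -/
def pm : Equiv.Perm α →* MulAut (FreeGroup α) where
  toFun s := freeGroupCongr s
  map_one' := aut_ext fun _ => rfl
  map_mul' _ _ := aut_ext fun _ => rfl

lemma pm_of (s : Equiv.Perm α) (x : α) : pm s (of x) = of (s x) := rfl
lemma pm_inv_of (s : Equiv.Perm α) (x : α) : (pm s)⁻¹ (of x) = of (s⁻¹ x) := by
  rw [← map_inv]; rfl

section swindle
variable (ρ : MulAut (FreeGroup α)) (s : Equiv.Perm α)

def PP : ℕ → MulAut (FreeGroup α)
  | 0 => 1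
  | n + 1 => ρ * pm s * PP n * (pm s)⁻¹

theorem swindle (lv : α → ℤ) (hlv : ∀ x, lv (s x) = lv x + 1) {β : Type} (r : β → β → Prop)
    (wf : WellFounded r) (rk : α → β) (hrk : ∀ x, rk (s x) = rk x)
    (hfix : ∀ x, lv x ≠ 0 → ρ (of x) = of x)
    (hdep : ∀ x, lv x = 0 → ρ⁻¹ (of x) ∈ Gn {z | lv z ≤ 0 ∨ r (rk z) (rk x)}) :
    ∃ R : MulAut (FreeGroup α), ρ = R * pm s * R⁻¹ * (pm s)⁻¹ := by
  have hlv' : ∀ x, lv (s⁻¹ x) = lv x - 1 := fun x => by
    have := hlv (s⁻¹ x); rw [show s (s⁻¹ x) = x by simp] at this; omega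
  have hrk' : ∀ x, rk (s⁻¹ x) = rk x := fun x => by
    have := hrk (s⁻¹ x); simpa using this.symm
  have ap : ∀ n x, PP ρ s (n + 1) (of x) = ρ (pm s (PP ρ s n (of (s⁻¹ x)))) := fun n x => by
    rw [← pm_inv_of]; rfl
  have stab : ∀ (n : ℕ) x, lv x < n → PP ρ s (n + 1) (of x) = PP ρ s n (of x) := by
    intro n
    induction n with
    | zero =>
      intro x hx
      rw [ap]
      show ρ (of (s (s⁻¹ x))) = of x
      simp only [Equiv.Perm.coe_inv, Equiv.apply_symm_apply]
      exact hfix x (by omega)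
    | succ n ih =>
      intro x hx
      rw [ap (n + 1), ap n x, ih _ (by rw [hlv']; push_cast at hx; omega)]
  let R0 : FreeGroup α →* FreeGroup α := lift fun x => PP ρ s (lv x + 1).toNat (of x)
  have stab' : ∀ (n : ℕ) x, lv x < n → R0 (of x) = PP ρ s n (of x) := by
    intro n x hx
    obtain ⟨k, rfl⟩ : ∃ k, n = (lv x + 1).toNat + k := ⟨n - (lv x + 1).toNat, by omega⟩
    clear hx
    induction k with
    | zero => simp [R0]
    | succ k ih => rw [ih, ← add_assoc, stab _ _ (by push_cast; omega)]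
  have inj : Injective R0 := inj_of _ fun S hS => by
    obtain ⟨N, hN⟩ := (hS.image lv).bddAbove
    exact ⟨PP ρ s (N + 1).toNat, fun x hx => stab' _ _ (by
      have := hN ⟨x, hx, rfl⟩; omega)⟩
  have hrec : ∀ w, R0 w = ρ (pm s (R0 ((pm s)⁻¹ w))) := by
    intro w
    refine DFunLike.congr_fun (FreeGroup.ext_hom R0 (ρ.toMonoidHom.comp
      ((pm s).toMonoidHom.comp (R0.comp (pm s)⁻¹.toMonoidHom))) fun x => ?_) w
    show R0 (of x) = ρ (pm s (R0 ((pm s)⁻¹ (of x))))
    rw [stab' ((lv x + 1).toNat + 1) x (by push_cast; omega), ap, pm_inv_of,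
      stab' (lv x + 1).toNat _ (by rw [hlv']; omega)]
  have key : ∀ w, (pm s)⁻¹ (ρ⁻¹ w) ∈ R0.range → w ∈ R0.range := by
    rintro w ⟨u, hu⟩
    refine ⟨pm s u, ?_⟩
    rw [hrec]
    simp [hu]
  have neg : ∀ x, lv x < 0 → of x ∈ R0.range := fun x hx => ⟨of x, stab' 0 x hx⟩
  have surj : ∀ b x, rk x = b → of x ∈ R0.range := by
    intro b
    induction b using wf.induction with
    | _ b ih =>
      have : ∀ (n : ℕ) x, rk x = b → lv x < n → of x ∈ R0.range := by
        intro n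
        induction n with
        | zero => exact fun x _ hx => neg x hx
        | succ n ih2 =>
          intro x hb hx
          apply key
          by_cases h0 : lv x = 0
          · refine map_mem (f := (pm s)⁻¹.toMonoidHom) ?_ (hdep x h0)
            rintro z (hz | hz)
            · exact (pm_inv_of s z).symm ▸ neg (s⁻¹ z) (by rw [hlv']; omega)
            · exact (pm_inv_of s z).symm ▸ ih _ (hb ▸ hz) (s⁻¹ z) (hrk' z)
          · have : ρ⁻¹ (of x) = of x := by
              rw [MulAut.inv_def, MulEquiv.symm_apply_eq, hfix x h0]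
            rw [this, pm_inv_of]
            exact ih2 _ (by rw [hrk', hb]) (by rw [hlv']; push_cast at hx; omega)
      exact fun x hx => this (lv x + 1).toNat x hx (by omega)
  let R : MulAut (FreeGroup α) := MulEquiv.ofBijective R0 ⟨inj, surj_of _ fun x => surj _ x rfl⟩
  have : R = ρ * pm s * R * (pm s)⁻¹ := MulEquiv.ext hrec
  refine ⟨R, ?_⟩
  calc ρ = (ρ * pm s * R * (pm s)⁻¹) * pm s * R⁻¹ * (pm s)⁻¹ := by group
    _ = _ := by rw [← this]

end swindle

lemma ex_ord (P : Type) (h : #P ≤ #α) :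
    ∃ j : P → (#α).ord.ToType, Injective j := by
  rw [← mk_ord_toType #α] at h
  obtain ⟨j⟩ := (Cardinal.le_def _ _).1 h
  exact ⟨j, j.injective⟩

lemma small_Iio {P : Type} {j : P → (#α).ord.ToType} (hj : Injective j) (i : (#α).ord.ToType) :
    #{q | j q < i} < #α :=
  (mk_preimage_of_injective j (Set.Iio i) hj).trans_lt (mk_Iio_toType_ord_lt i)

lemma select [Infinite α] {P : Type} (h : #P ≤ #α) (D : P → Set α) (hD : ∀ p, #(D p) < #α) :
    ∃ c : P → α, Injective c ∧ ∀ p, c p ∉ D p := by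
  obtain ⟨j, hj⟩ := ex_ord P h
  have wf : WellFounded fun q p : P => j q < j p := InvImage.wf j wellFounded_lt
  let F : ∀ p : P, (∀ q, j q < j p → α) → α := fun p g =>
    Classical.epsilon fun a => a ∉ D p ∧ ∀ q h, g q h ≠ a
  let c : P → α := wf.fix F
  have hc : ∀ p, c p ∉ D p ∧ ∀ q, j q < j p → c q ≠ c p := by
    intro p
    have e : c p = F p fun q _ => c q := wf.fix_eq F p
    rw [e]
    refine Classical.epsilon_spec (p := fun a => a ∉ D p ∧ ∀ q, j q < j p → c q ≠ a) ?_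
    have : #(D p ∪ c '' {q | j q < j p} : Set α) < #α :=
      (mk_union_le _ _).trans_lt (add_lt_of_lt (aleph0_le_mk α) (hD p)
        (mk_image_le.trans_lt (small_Iio hj _)))
    have hne : (D p ∪ c '' {q | j q < j p} : Set α) ≠ Set.univ := by
      intro h; rw [h, mk_univ] at this; exact lt_irrefl _ this
    obtain ⟨a, ha⟩ := (Set.ne_univ_iff_exists_notMem _).1 hne
    exact ⟨a, fun h => ha (Or.inl h), fun q hq h => ha (Or.inr ⟨q, hq, h⟩)⟩
  refine ⟨c, fun p q hpq => ?_, fun p => (hc p).1⟩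
  rcases lt_trichotomy (j p) (j q) with h | h | h
  · exact absurd hpq ((hc q).2 p h)
  · exact hj h
  · exact absurd hpq.symm ((hc p).2 q h)

lemma small_union [Infinite α] {P : Type} (I : Set P) (hI : #I < #α) (A : P → Set α)
    (hA : ∀ p, (A p).Finite) : #(⋃ p ∈ I, A p : Set α) < #α := by
  by_cases h : I.Finite
  · exact (h.biUnion fun p _ => hA p).lt_aleph0.trans_le (aleph0_le_mk α)
  · have h1 : ℵ₀ ≤ #I := infinite_iff.1 (Set.infinite_coe_iff.2 h)
    refine (mk_biUnion_le A I).trans_lt (lt_of_le_of_lt ?_ hI)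
    have : ⨆ x : I, #(A x.1) ≤ #I := ciSup_le' fun x => (hA x).lt_aleph0.le.trans h1
    exact (mul_le_mul_right this _).trans (mul_eq_self h1).le

/-- The shift along the second coordinate of a product decomposition. -/
def sh {W : Type} (e : α ≃ W × ℤ) : Equiv.Perm α :=
  e.trans ((Equiv.prodCongr (Equiv.refl W) (Equiv.addRight 1)).trans e.symm)

lemma e_sh {W : Type} (e : α ≃ W × ℤ) (x : α) : e (sh e x) = ((e x).1, (e x).2 + 1) := by
  simp [sh]; rfl

theorem lemS [Infinite α] (N : Subgroup (MulAut (FreeGroup α))) [hN : N.Normal]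
    (hs : ∀ (W : Type) (e : α ≃ W × ℤ), #W = #α → pm (sh e) ∈ N)
    (ρ : MulAut (FreeGroup α)) (Z : Set α) (hZ : #Z = #α) (hρ : ∀ z ∈ Z, ρ (of z) = of z) :
    ρ ∈ N := by
  classical
  have ha := aleph0_le_mk α
  obtain ⟨i0⟩ : Nonempty (α × Fin 3 ≃ Z) := Cardinal.eq.1 (by
    rw [hZ]; simp [mul_eq_left ha (by simpa using (nat_lt_aleph0 (n := 3)).le.trans ha)])
  let ι : α × Fin 3 → α := fun p => i0 p
  have hι : Injective ι := Subtype.val_injective.comp i0.injective
  let Y : Set α := {x | ∀ a, x ≠ ι (a, 1) ∧ x ≠ ι (a, 2)}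
  have hY : #Y = #α := le_antisymm (mk_set_le _) (mk_le_of_injective
    (f := fun a => (⟨ι (a, 0), fun b => ⟨fun h => by simpa using hι h, fun h => by
      simpa using hι h⟩⟩ : Y)) fun a b h => by
        have h' : ι (a, 0) = ι (b, 0) := congrArg (Subtype.val : Y → α) h
        simpa using hι h')
  have hYN : #(Y × ℕ) = #α := by simp [hY]
  obtain ⟨j, hj⟩ := ex_ord (α := α) Y hY.le
  obtain ⟨c, hc, hcD⟩ := select (α := α) hYN.le
    (fun p => (fun a => ι (a, 1)) ⁻¹' (⋃ y ∈ {y : Y | j y ≤ j p.1}, supp (ρ⁻¹ (of y.1))))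
    fun p => by
      refine (mk_preimage_of_injective _ _ fun a b h => by simpa using hι h).trans_lt
        (small_union _ ?_ _ fun y => supp_fin _)
      have : {y : Y | j y ≤ j p.1} ⊆ insert p.1 {y : Y | j y < j p.1} := fun y hy =>
        (eq_or_lt_of_le hy).imp (fun h => hj h) id
      exact (mk_le_mk_of_subset this).trans_lt (mk_insert_le.trans_lt
        (add_one_lt_of_lt ha (small_Iio hj _)))
  let Rs : Set α := {x | x ∉ Y ∧ ∀ p, x ≠ ι (c p, 1)}
  have nY : ∀ a, ι (a, 1) ∉ Y := fun a h => (h a).1 rfl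
  have hR : #Rs = #α := le_antisymm (mk_set_le _) (mk_le_of_injective
    (f := fun a => (⟨ι (a, 2), fun h => (h a).2 rfl, fun p h => by
      simpa using hι h⟩ : Rs)) fun a b h => by
        have h' : ι (a, 2) = ι (b, 2) := congrArg (Subtype.val : Rs → α) h
        simpa using hι h')
  obtain ⟨d⟩ : Nonempty (Y × ℕ ≃ Rs) := Cardinal.eq.1 (hYN.trans hR.symm)
  let g : Y × ℤ → α := fun p => match p with
    | (y, Int.ofNat 0) => y.1
    | (y, Int.ofNat (k + 1)) => ι (c (y, k), 1)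
    | (y, Int.negSucc k) => (d (y, k)).1
  have hg : Bijective g := by
    constructor
    · rintro ⟨y, (_ | k) | k⟩ ⟨y', (_ | k') | k'⟩ h
      · rw [Subtype.val_injective h]
      · exact absurd ((show y.1 = ι (c (y', k'), 1) from h) ▸ y.2) (nY _)
      · exact absurd ((show y.1 = (d (y', k')).1 from h) ▸ y.2) (d (y', k')).2.1
      · exact absurd ((show y'.1 = ι (c (y, k), 1) from h.symm) ▸ y'.2) (nY _)
      · have := hc (congrArg Prod.fst (hι h))
        rw [Prod.mk.injEq] at this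
        rw [this.1, this.2]
      · exact absurd h.symm ((d (y', k')).2.2 _)
      · exact absurd ((show y'.1 = (d (y, k)).1 from h.symm) ▸ y'.2) (d (y, k)).2.1
      · exact absurd h ((d (y, k)).2.2 _)
      · have := d.injective (Subtype.val_injective h)
        rw [Prod.mk.injEq] at this
        rw [this.1, this.2]
    · intro x
      by_cases h1 : x ∈ Y
      · exact ⟨(⟨x, h1⟩, Int.ofNat 0), rfl⟩
      by_cases h2 : ∀ p, x ≠ ι (c p, 1)
      · obtain ⟨⟨y, k⟩, hk⟩ := d.surjective ⟨x, h1, h2⟩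
        exact ⟨(y, Int.negSucc k), congrArg Subtype.val hk⟩
      · push Not at h2
        obtain ⟨⟨y, k⟩, hk⟩ := h2
        exact ⟨(y, Int.ofNat (k + 1)), hk.symm⟩
  let e : α ≃ Y × ℤ := (Equiv.ofBijective g hg).symm
  have ge : ∀ p, e (g p) = p := fun p => (Equiv.ofBijective g hg).symm_apply_apply p
  have nYZ : ∀ x, x ∉ Y → x ∈ Z := by
    intro x hx
    by_contra hz
    exact hx fun a => ⟨fun h => hz (h ▸ (i0 _).2), fun h => hz (h ▸ (i0 _).2)⟩
  obtain ⟨R, hR⟩ := swindle ρ (sh e) (fun x => (e x).2) (fun x => by rw [e_sh])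
    (· < ·) wellFounded_lt (fun x => j (e x).1) (fun x => by rw [e_sh])
    (fun x hx => hρ x (nYZ x fun h => hx (congrArg Prod.snd (ge (⟨x, h⟩, Int.ofNat 0)))))
    (fun x hx => by
      refine Gn_mono (fun z hz => ?_) (mem_supp _)
      obtain ⟨⟨y, m⟩, rfl⟩ := hg.2 x
      rw [ge] at hx
      obtain rfl : m = Int.ofNat 0 := hx
      obtain ⟨⟨y', (_ | k') | k'⟩, rfl⟩ := hg.2 z
      · exact Or.inl (congrArg Prod.snd (ge (y', Int.ofNat 0))).le
      · right
        show j (e (g (y', Int.ofNat (k' + 1)))).1 < j (e (g (y, Int.ofNat 0))).1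
        rw [ge (y', Int.ofNat (k' + 1)), ge (y, Int.ofNat 0)]
        by_contra hlt
        exact hcD (y', k') (Set.mem_biUnion (not_lt.1 hlt) hz)
      · exact Or.inl ((congrArg Prod.snd (ge (y', Int.negSucc k'))).le.trans
          (Int.negSucc_lt_zero k').le))
  rw [hR]
  exact N.mul_mem (hN.conj_mem _ (hs _ e hY) R) (N.inv_mem (hs _ e hY))

lemma hotel [Infinite α] (θ : MulAut (FreeGroup α)) (W : Set α) (hW : W.Finite) :
    ∃ (γ : MulAut (FreeGroup α)) (t : α), t ∉ W ∧ γ (of t) = of t ∧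
      ∀ x ∈ W, γ (of x) = θ (of x) := by
  classical
  have hV : (W ∪ ⋃ x ∈ W, supp (θ (of x))).Finite := hW.union (hW.biUnion fun _ _ => supp_fin _)
  set V := W ∪ ⋃ x ∈ W, supp (θ (of x)) with hVd
  let a0 := Set.Infinite.natEmbedding _ hV.infinite_compl
  let a : ℕ → α := fun n => a0 n
  have ha : Injective a := Subtype.val_injective.comp a0.injective
  have haV : ∀ n, a n ∉ V := fun n => (a0 n).2
  have ha' : Injective fun n => a (n + 1) := ha.comp (add_left_injective 1)
  let j : α → α := Function.extend a (fun n => a (n + 1)) id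
  let k : α → α := Function.extend (fun n => a (n + 1)) a id
  have j1 : ∀ n, j (a n) = a (n + 1) := fun n => ha.extend_apply _ _ n
  have j2 : ∀ x, (¬ ∃ n, a n = x) → j x = x := fun x h => extend_apply' _ _ x h
  have k1 : ∀ n, k (a (n + 1)) = a n := fun n => ha'.extend_apply _ _ n
  have k2 : ∀ x, (¬ ∃ n, a (n + 1) = x) → k x = x := fun x h => extend_apply' _ _ x h
  have kj : ∀ x, k (j x) = x ∧ j x ≠ a 0 := by
    intro x
    by_cases h : ∃ n, a n = x
    · obtain ⟨n, rfl⟩ := h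
      rw [j1, k1]
      exact ⟨rfl, fun h => by simpa using ha h⟩
    · rw [j2 x h, k2 x fun ⟨n, hn⟩ => h ⟨_, hn⟩]
      exact ⟨rfl, fun h' => h ⟨0, h'.symm⟩⟩
  have jk : ∀ x, x ≠ a 0 → j (k x) = x := by
    intro x hx
    by_cases h : ∃ n, a (n + 1) = x
    · obtain ⟨n, rfl⟩ := h
      rw [k1, j1]
    · rw [k2 x h, j2 x]
      rintro ⟨_ | n, hn⟩
      · exact hx hn.symm
      · exact h ⟨n, hn⟩
  let G : MulAut (FreeGroup α) → FreeGroup α →* FreeGroup α := fun η =>
    lift fun x => if x = a 0 then of x else FreeGroup.map j (η (of (k x)))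
  have G0 : ∀ η, G η (of (a 0)) = of (a 0) := fun η => by simp [G]
  have G1 : ∀ η w, G η (FreeGroup.map j w) = FreeGroup.map j (η w) := by
    intro η w
    refine DFunLike.congr_fun (FreeGroup.ext_hom ((G η).comp (FreeGroup.map j))
      ((FreeGroup.map j).comp η.toMonoidHom) fun x => ?_) w
    simp [G, (kj x).1, (kj x).2]
  have G2 : ∀ η : MulAut (FreeGroup α), (G η).comp (G η⁻¹) = MonoidHom.id _ := by
    intro η
    refine FreeGroup.ext_hom _ _ fun x => ?_
    by_cases h : x = a 0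
    · simp [h, G0]
    · have : of x = FreeGroup.map j (of (k x)) := by rw [FreeGroup.map.of, jk x h]
      rw [this, MonoidHom.comp_apply, G1, G1]
      simp
  have jV : ∀ w ∈ Gn V, FreeGroup.map j w = w := fun w hw =>
    agree (g := MonoidHom.id _) (fun x hx => by
      rw [FreeGroup.map.of, j2 x fun ⟨n, hn⟩ => haV n (hn ▸ hx)]; rfl) hw
  refine ⟨MonoidHom.toMulEquiv (G θ) (G θ⁻¹) (by simpa using G2 θ⁻¹) (G2 θ), a 0,
    fun h => haV 0 (Or.inl h), G0 θ, fun x hx => ?_⟩
  show G θ (of x) = _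
  rw [← jV (of x) (of_mem (Or.inl hx)), G1, jV (of x) (of_mem (Or.inl hx))]
  exact jV _ (Gn_mono (fun z hz => Or.inr (Set.mem_biUnion hx hz)) (mem_supp _))

lemma bf_step [Infinite α] (φ : MulAut (FreeGroup α)) (x : α)
    (p : MulAut (FreeGroup α) × {W : Set α // W.Finite}) :
    ∃ q : MulAut (FreeGroup α) × {W : Set α // W.Finite}, p.2.1 ⊆ q.2.1 ∧
      (∀ y ∈ p.2.1, q.1 (of y) = p.1 (of y)) ∧ x ∈ q.2.1 ∧ q.1⁻¹ (of x) ∈ Gn q.2.1 ∧
      (∃ t ∈ q.2.1, t ∉ p.2.1 ∧ q.1 (of t) = of t) ∧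
      (∃ t ∈ q.2.1, t ∉ p.2.1 ∧ q.1 (of t) = φ (of t)) := by
  obtain ⟨ψ, W, hW⟩ := p
  obtain ⟨γ, t, ht, h1, h2⟩ := hotel ψ W hW
  obtain ⟨γ', t', ht', h1', h2'⟩ := hotel (φ⁻¹ * γ) (insert t W) (hW.insert t)
  have h3 : ∀ y ∈ insert t W, (φ * γ') (of y) = γ (of y) := fun y hy => by
    rw [MulAut.mul_apply, h2' y hy]; simp
  refine ⟨(φ * γ', ⟨insert x (insert t' (insert t W)) ∪ supp ((φ * γ')⁻¹ (of x)),
    (((hW.insert t).insert t').insert x).union (supp_fin _)⟩),
    fun y hy => by simp [hy], fun y hy => (h3 y (Or.inr hy)).trans (h2 y hy), by simp,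
    Gn_mono Set.subset_union_right (mem_supp _), ⟨t, by simp, ht, (h3 t (Or.inl rfl)).trans h1⟩,
    ⟨t', by simp, fun h => ht' (Or.inr h), ?_⟩⟩
  show φ (γ' (of t')) = _
  rw [h1']

theorem split_count [Infinite α] [Countable α] (φ : MulAut (FreeGroup α)) :
    ∃ ψ : MulAut (FreeGroup α), #{x | ψ (of x) = of x} = #α ∧ #{x | ψ (of x) = φ (of x)} = #α := by
  obtain ⟨x, hx⟩ := exists_surjective_nat α
  choose F h1 h2 h3 h4 h5 h6 using bf_step φ
  let p : ℕ → MulAut (FreeGroup α) × {W : Set α // W.Finite} := fun n =>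
    Nat.rec (1, ⟨∅, Set.finite_empty⟩) (fun n q => F (x n) q) n
  have ps : ∀ n, p (n + 1) = F (x n) (p n) := fun n => rfl
  have mono : Monotone fun n => (p n).2.1 := monotone_nat_of_le_succ fun n => h1 _ _
  have ag : ∀ m n, m ≤ n → ∀ y ∈ (p m).2.1, (p n).1 (of y) = (p m).1 (of y) := by
    intro m n h y hy
    induction n, h using Nat.le_induction with
    | base => rfl
    | succ k hk ih => rw [ps, h2 _ _ y (mono hk hy), ih]
  have ex : ∀ y, ∃ n, y ∈ (p n).2.1 := fun y => by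
    obtain ⟨n, rfl⟩ := hx y
    exact ⟨n + 1, h3 _ _⟩
  choose nn hnn using ex
  let f : FreeGroup α →* FreeGroup α := lift fun y => (p (nn y)).1 (of y)
  have hf : ∀ n, ∀ y ∈ (p n).2.1, f (of y) = (p n).1 (of y) := fun n y hy => by
    rw [← ag n (max n (nn y)) (le_max_left _ _) y hy, ag _ _ (le_max_right _ _) y (hnn y)]
    simp [f]
  have fin : ∀ S : Set α, S.Finite → ∃ n, S ⊆ (p n).2.1 := fun S hS => by
    obtain ⟨N, hN⟩ := (hS.image nn).bddAbove
    exact ⟨N, fun y hy => mono (hN ⟨y, hy, rfl⟩) (hnn y)⟩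
  have inj : Injective f := inj_of f fun S hS => by
    obtain ⟨n, hn⟩ := fin S hS
    exact ⟨(p n).1, fun y hy => hf n y (hn hy)⟩
  have surj : Surjective f := surj_of f fun y => by
    obtain ⟨n, rfl⟩ := hx y
    refine ⟨(p (n + 1)).1⁻¹ (of (x n)), ?_⟩
    exact (agree (g := (p (n + 1)).1.toMonoidHom) (hf (n + 1)) (h4 _ _)).trans
      ((p (n + 1)).1.apply_symm_apply _)
  have big : ∀ S : Set α, (∀ n, ∃ t ∈ S, t ∉ (p n).2.1) → #S = #α := by
    intro S hS
    have : S.Infinite := fun h => by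
      obtain ⟨n, hn⟩ := fin S h
      obtain ⟨t, h1, h2⟩ := hS n
      exact h2 (hn h1)
    have := this.to_subtype
    rw [mk_eq_aleph0, mk_eq_aleph0]
  refine ⟨MulEquiv.ofBijective f ⟨inj, surj⟩, big _ fun n => ?_, big _ fun n => ?_⟩
  · obtain ⟨t, a, b, c⟩ := h5 (x n) (p n)
    exact ⟨t, (hf (n + 1) t a).trans c, b⟩
  · obtain ⟨t, a, b, c⟩ := h6 (x n) (p n)
    exact ⟨t, (hf (n + 1) t a).trans c, b⟩

theorem tri (φ : MulAut (FreeGroup α)) {β : Type} [LinearOrder β] [WellFoundedLT β] (rk : α → β)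
    (h1 : ∀ x, φ (of x) ∈ Gn {z | rk z ≤ rk x}) (h2 : ∀ x, φ⁻¹ (of x) ∈ Gn {z | rk z ≤ rk x})
    (E : Set β) : ∃ ψ : MulAut (FreeGroup α), (∀ x, rk x ∈ E → ψ (of x) = of x) ∧
      ∀ x, rk x ∉ E → ψ (of x) = φ (of x) := by
  classical
  let f : FreeGroup α →* FreeGroup α := lift fun x => if rk x ∈ E then of x else φ (of x)
  have f1 : ∀ x, rk x ∈ E → f (of x) = of x := fun x h => by simp [f, h]
  have f2 : ∀ x, rk x ∉ E → f (of x) = φ (of x) := fun x h => by simp [f, h]
  have surj : ∀ b x, rk x = b → of x ∈ f.range := by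
    intro b
    induction b using WellFoundedLT.induction with
    | _ b ih =>
      intro x hx
      by_cases h : rk x ∈ E
      · exact ⟨_, f1 x h⟩
      · have : φ.toMonoidHom (φ⁻¹ (of x)) ∈ f.range := by
          refine map_mem (fun z hz => ?_) (h2 x)
          rcases eq_or_lt_of_le (show rk z ≤ rk x from hz) with hz | hz
          · exact ⟨_, f2 z (hz ▸ h)⟩
          · exact map_mem (f := MonoidHom.id _)
              (fun u hu => ih _ (hx ▸ lt_of_le_of_lt hu hz) u rfl) (h1 z)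
        simpa using this
  have wf : WellFounded fun u y : α => rk u < rk y := InvImage.wf rk wellFounded_lt
  let F : ∀ y : α, (∀ u, rk u < rk y → FreeGroup α) → FreeGroup α := fun y g =>
    if rk y ∈ E then of y else lift (fun z => if rk z < rk y then
      lift (fun u => if h : rk u < rk y then g u h else 1) (φ (of z)) else of z) (φ⁻¹ (of y))
  let g : α → FreeGroup α := wf.fix F
  let χ : FreeGroup α →* FreeGroup α := lift g
  let H : β → FreeGroup α →* FreeGroup α := fun b =>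
    lift fun z => if rk z < b then χ (φ (of z)) else of z
  have g1 : ∀ y, rk y ∈ E → χ (of y) = of y := fun y h => by
    have e : g y = F y fun u _ => g u := wf.fix_eq F y
    simp [χ, e, F, h]
  have g2 : ∀ y, rk y ∉ E → χ (of y) = H (rk y) (φ⁻¹ (of y)) := fun y h => by
    have e : g y = F y fun u _ => g u := wf.fix_eq F y
    simp only [χ, lift_apply_of, e, F, if_neg h, H]
    congr 2
    funext z
    split_ifs with hz
    · refine agree (fun u hu => ?_) (h1 z)
      have : rk u < rk y := lt_of_le_of_lt hu hz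
      simp [this]
    · rfl
  have left : χ.comp f = MonoidHom.id _ := by
    refine FreeGroup.ext_hom _ _ fun y => ?_
    by_cases h : rk y ∈ E
    · rw [MonoidHom.comp_apply, f1 y h, g1 y h]; rfl
    · rw [MonoidHom.comp_apply, f2 y h, agree (g := (H (rk y)).comp φ⁻¹.toMonoidHom) ?_ (h1 y)]
      · simp [H]
      · intro u hu
        rcases eq_or_lt_of_le (show rk u ≤ rk y from hu) with hu | hu
        · rw [g2 u (hu ▸ h), hu]; rfl
        · have : H (rk y) (φ⁻¹ (of u)) = (χ.comp φ.toMonoidHom) (φ⁻¹ (of u)) :=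
            agree (fun z hz => by
              have : rk z < rk y := lt_of_le_of_lt hz hu
              simp [H, this]) (h2 u)
          refine Eq.trans ?_ this.symm
          simp
  have inj : Injective f := LeftInverse.injective (g := χ) fun w => DFunLike.congr_fun left w
  exact ⟨MulEquiv.ofBijective f ⟨inj, surj_of f fun x => surj _ x rfl⟩, f1, f2⟩

theorem split_unc [Uncountable α] (φ : MulAut (FreeGroup α)) :
    ∃ ψ : MulAut (FreeGroup α), #{x | ψ (of x) = of x} = #α ∧ #{x | ψ (of x) = φ (of x)} = #α := by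
  classical
  let nb : α → Set α := fun y => supp (φ (of y)) ∪ supp (φ⁻¹ (of y))
  let cn : α → ℕ → Set α := fun x n => Nat.rec {x} (fun _ S => ⋃ y ∈ S, nb y) n
  have cf : ∀ x n, (cn x n).Finite := by
    intro x n
    induction n with
    | zero => exact Set.finite_singleton x
    | succ n ih => exact ih.biUnion fun y _ => (supp_fin _).union (supp_fin _)
  obtain ⟨j, hj⟩ := ex_ord (α := α) α le_rfl
  have ne : ∀ y, {b | ∃ x n, j x = b ∧ y ∈ cn x n}.Nonempty := fun y => ⟨j y, y, 0, rfl, rfl⟩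
  let rk : α → (#α).ord.ToType := fun y => wellFounded_lt.min _ (ne y)
  have r1 : ∀ y, ∃ x n, j x = rk y ∧ y ∈ cn x n := fun y => wellFounded_lt.min_mem _ (ne y)
  have r2 : ∀ y z, z ∈ nb y → rk z ≤ rk y := by
    intro y z hz
    obtain ⟨x, n, h1, h2⟩ := r1 y
    exact not_lt.1 (wellFounded_lt.not_lt_min {b | ∃ x n, j x = b ∧ z ∈ cn x n}
      ⟨x, n + 1, h1, Set.mem_biUnion h2 hz⟩)
  have hI : #(Set.range rk) = #α := by
    apply le_antisymm mk_range_le
    have cov : (Set.univ : Set α) ⊆ ⋃ b ∈ Set.range rk, rk ⁻¹' {b} := fun y _ =>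
      Set.mem_biUnion ⟨y, rfl⟩ rfl
    have lc : ∀ y, (rk ⁻¹' {rk y}).Countable := by
      intro y
      obtain ⟨x, n, h1, -⟩ := r1 y
      refine (Set.countable_iUnion fun n => (cf x n).countable).mono fun z hz => ?_
      obtain ⟨x', n', h1', h2'⟩ := r1 z
      obtain rfl : x' = x := hj (h1'.trans (Eq.trans hz h1.symm))
      exact Set.mem_iUnion.2 ⟨n', h2'⟩
    have h1 := (mk_le_mk_of_subset cov).trans (mk_biUnion_le _ _)
    rw [mk_univ] at h1
    have h2 : ⨆ b : Set.range rk, #(rk ⁻¹' {b.1}) ≤ ℵ₀ := ciSup_le' fun ⟨_, y, rfl⟩ =>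
      le_aleph0_iff_set_countable.2 (lc y)
    by_contra hlt
    exact absurd (h1.trans (mul_le_mul_right h2 _)) (not_le.2 (mul_lt_of_lt (aleph0_le_mk α)
      (not_le.1 hlt) aleph0_lt_mk))
  obtain ⟨i0⟩ : Nonempty (α × Bool ≃ Set.range rk) := Cardinal.eq.1 (by
    rw [hI]; simp [mul_two])
  choose sec hsec using fun p => (i0 p).2
  obtain ⟨ψ, f1, f2⟩ := tri φ rk
    (fun x => Gn_mono (fun z hz => r2 x z (Or.inl hz)) (mem_supp _))
    (fun x => Gn_mono (fun z hz => r2 x z (Or.inr hz)) (mem_supp _))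
    (Set.range fun a => (i0 (a, true)).1)
  have si : Injective sec := fun p q h =>
    i0.injective (Subtype.ext ((hsec p).symm.trans (h ▸ hsec q)))
  refine ⟨ψ, le_antisymm (mk_set_le _) (mk_le_of_injective
    (f := fun a => ⟨sec (a, true), f1 _ ⟨a, (hsec _).symm⟩⟩) fun a b h => ?_),
    le_antisymm (mk_set_le _) (mk_le_of_injective
    (f := fun a => ⟨sec (a, false), f2 _ ?_⟩) fun a b h => ?_)⟩
  · simpa using si (congrArg Subtype.val h)
  · rintro ⟨b, hb⟩
    have := i0.injective (Subtype.ext (hb.trans (hsec (a, false))))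
    simp at this
  · simpa using si (congrArg Subtype.val h)

def vv (W : Type) : Equiv.Perm ((W × Bool) × ℤ) :=
  Function.Involutive.toPerm (fun p => (p.1, if p.1.2 then 1 - p.2 else - p.2)) fun p => by
    obtain ⟨⟨w, _ | _⟩, n⟩ := p <;> simp

def tt (W : Type) : Equiv.Perm ((W × Bool) × ℤ) where
  toFun p := ((p.1.1, !p.1.2), if p.1.2 then p.2 else p.2 + 1)
  invFun p := ((p.1.1, !p.1.2), if p.1.2 then p.2 - 1 else p.2)
  left_inv p := by obtain ⟨⟨w, _ | _⟩, n⟩ := p <;> simp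
  right_inv p := by obtain ⟨⟨w, _ | _⟩, n⟩ := p <;> simp

lemma tv (W : Type) (p : (W × Bool) × ℤ) : (tt W * vv W * (tt W)⁻¹ * vv W) p = (p.1, p.2 + 1) := by
  obtain ⟨⟨w, _ | _⟩, n⟩ := p
  · show ((w, false), 1 - - n) = _
    congr 1; ring
  · show ((w, true), - (1 - n - 1) + 1) = _
    congr 1; ring

theorem main (α : Type) [Infinite α] :
    ∃ σ : MulAut (FreeGroup α), σ ≠ 1 ∧ σ * σ = 1 ∧
      Subgroup.normalClosure ({σ} : Set (MulAut (FreeGroup α))) = ⊤ := by
  have hb : #(α × Bool) = #α := by simp [mul_two]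
  obtain ⟨e0⟩ : Nonempty (α ≃ (α × Bool) × ℤ) := Cardinal.eq.1 (by rw [mk_prod, hb]; simp)
  let c : Equiv.Perm ((α × Bool) × ℤ) →* MulAut (FreeGroup α) :=
    pm.comp e0.symm.permCongrHom.toMonoidHom
  have hc : ∀ s x, c s (of x) = of (e0.symm (s (e0 x))) := fun _ _ => rfl
  refine ⟨c (vv α), fun h => ?_, ?_, ?_⟩
  · have := hc (vv α) (e0.symm ((Classical.arbitrary α, true), 0))
    rw [h, MulAut.one_apply, e0.apply_symm_apply] at this
    have h2 := e0.symm.injective (of_injective this)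
    have h3 : (0 : ℤ) = 1 - 0 := congrArg Prod.snd h2
    omega
  · rw [← map_mul]
    have : vv α * vv α = 1 := Equiv.ext fun p => (vv α).left_inv p
    rw [this, map_one]
  set N := Subgroup.normalClosure ({c (vv α)} : Set (MulAut (FreeGroup α)))
  have hN : N.Normal := Subgroup.normalClosure_normal
  have h0 : c (vv α) ∈ N := Subgroup.subset_normalClosure rfl
  have h1 : pm (sh e0) ∈ N := by
    have : pm (sh e0) = c (tt α) * c (vv α) * (c (tt α))⁻¹ * c (vv α) := by
      rw [← map_inv, ← map_mul, ← map_mul, ← map_mul]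
      refine aut_ext fun x => ?_
      rw [hc, tv, ← e_sh, e0.symm_apply_apply, pm_of]
    rw [this]
    exact N.mul_mem (hN.conj_mem _ h0 _) h0
  have hs : ∀ (W : Type) (e : α ≃ W × ℤ), #W = #α → pm (sh e) ∈ N := by
    intro W e hW
    obtain ⟨i⟩ : Nonempty (α × Bool ≃ W) := Cardinal.eq.1 (hb.trans hW.symm)
    let u : Equiv.Perm α := e0.trans ((Equiv.prodCongr i (Equiv.refl ℤ)).trans e.symm)
    have : sh e = u * sh e0 * u⁻¹ := by
      rw [eq_mul_inv_iff_mul_eq]
      refine Equiv.ext fun x => e.injective ?_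
      simp [u, e_sh]
    rw [this, map_mul, map_mul, map_inv]
    exact hN.conj_mem _ h1 _
  rw [eq_top_iff]
  intro φ _
  obtain ⟨ψ, a, b⟩ : ∃ ψ : MulAut (FreeGroup α), #{x | ψ (of x) = of x} = #α ∧
      #{x | ψ (of x) = φ (of x)} = #α := by
    by_cases h : Countable α
    · exact split_count φ
    · have : Uncountable α := ⟨h⟩
      exact split_unc φ
  have m1 : ψ ∈ N := lemS N hs ψ _ a fun _ h => h
  have m2 : φ⁻¹ * ψ ∈ N := lemS N hs _ _ b fun z h => by
    rw [MulAut.mul_apply, show ψ (of z) = φ (of z) from h]; simp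
  have : φ = ψ * (φ⁻¹ * ψ)⁻¹ := by group
  rw [this]
  exact N.mul_mem m1 (N.inv_mem m2)

end Pool.Agent.H19.AutFree
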