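import Mathlib

set_option autoImplicit false

/-! Products of functionally bounded balleans: the combinatorial core. -/

namespace Pool.Agent.H19.BallProd

open Set

/-- An ideal of subsets. -/
structure IsIdeal {X : Type*} (B : Set X → Prop) : Prop where
  mono : ∀ {s t}, s ⊆ t → B t → B s
  union : ∀ {s t}, B s → B t → B (s ∪ t)

section Discrete

variable {I J : Type*} {𝓘 : Set I → Prop} {𝓙 : Set J → Prop}

lemma sigma (hJ : IsIdeal 𝓙) (PJ : ∀ g : J → ℕ, ∃ N, 𝓙 {j | N < g j}) (T : ℕ → Set J)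
    (hT : ∀ n, 𝓙 (T n)) : 𝓙 (⋃ n, T n) := by
  classical
  obtain ⟨N, hN⟩ := PJ fun j => if h : ∃ n, j ∈ T n then Nat.find h else 0
  have h1 : ∀ N : ℕ, 𝓙 {j | ∃ n ≤ N, j ∈ T n} := by
    intro N
    induction N with
    | zero => exact hJ.mono (by rintro j ⟨n, hn, h⟩; obtain rfl := Nat.le_zero.mp hn; exact h) (hT 0)
    | succ N ih =>
      refine hJ.mono ?_ (hJ.union ih (hT (N + 1)))
      rintro j ⟨n, hn, h⟩
      rcases hn.eq_or_lt with rfl | hn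
      exacts [Or.inr h, Or.inl ⟨n, Nat.lt_succ_iff.mp hn, h⟩]
  refine hJ.mono (fun j hj => ?_) (hJ.union hN (h1 N))
  have h := mem_iUnion.mp hj
  by_cases h2 : N < Nat.find h
  · exact Or.inl (by simpa [h] using h2)
  · exact Or.inr ⟨_, not_lt.mp h2, Nat.find_spec h⟩

lemma coloring (R : I → I → Prop) (hs : ∀ i i', R i i' → R i' i)
    (hR : ∀ i, {i' | R i i'}.Countable) :
    ∃ c : I → ℕ, ∀ i i', R i i' → c i = c i' → i = i' := by
  let s : Setoid I := ⟨Relation.ReflTransGen R, fun _ => .refl,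
    fun h => by
      induction h with
      | refl => exact .refl
      | tail _ h ih => exact .head (hs _ _ h) ih,
    fun h1 h2 => h1.trans h2⟩
  have hc : ∀ i, {i' | s i i'}.Countable := by
    intro i
    let S : ℕ → Set I := fun n => Nat.rec {i} (fun _ T => ⋃ a ∈ T, {b | R a b}) n
    have h1 : ∀ n, (S n).Countable := fun n => by
      induction n with
      | zero => exact countable_singleton i
      | succ n ih => exact ih.biUnion fun a _ => hR a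
    refine (countable_iUnion h1).mono fun b hb => ?_
    change Relation.ReflTransGen R i b at hb
    induction hb with
    | refl => exact mem_iUnion.mpr ⟨0, rfl⟩
    | tail _ h ih =>
      obtain ⟨n, hn⟩ := mem_iUnion.mp ih
      exact mem_iUnion.mpr ⟨n + 1, mem_biUnion hn h⟩
  have h2 : ∀ q : Quotient s, ∃ e : I → ℕ, InjOn e {i | s q.out i} := fun q =>
    Set.countable_iff_exists_injOn.mp (hc _)
  choose e he using h2
  refine ⟨fun i => e (Quotient.mk s i) i, fun i i' h h3 => ?_⟩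
  have h4 : Quotient.mk s i' = Quotient.mk s i :=
    Quotient.sound (s.symm (Relation.ReflTransGen.single h))
  simp only [h4] at h3
  exact he _ (Quotient.mk_out (s := s) i) (h4 ▸ Quotient.mk_out (s := s) i') h3

lemma discrete (hJ : IsIdeal 𝓙) (PI : ∀ g : I → ℕ, ∃ N, 𝓘 {i | N < g i})
    (PJ : ∀ g : J → ℕ, ∃ N, 𝓙 {j | N < g j}) (F : I → J → ℕ)
    (ha : ∀ S, 𝓘 S → ∃ M, 𝓙 {j | ∃ i ∈ S, M < F i j})
    (hb : ∀ T, 𝓙 T → ∃ M, 𝓘 {i | ∃ j ∈ T, M < F i j}) :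
    ∃ M, 𝓙 {j | ∃ i, M < F i j} := by
  classical
  let A₀ : Set J := {j | ∀ k, ∃ i, k < F i j}
  suffices h0 : 𝓙 A₀ by
    obtain ⟨N, hN⟩ := PJ fun j => if h : ∃ k, ∀ i, F i j ≤ k then h.choose else 0
    refine ⟨N, hJ.mono ?_ (hJ.union h0 hN)⟩
    rintro j ⟨i, hi⟩
    by_cases h : ∃ k, ∀ i, F i j ≤ k
    · exact Or.inr (by simpa [h] using hi.trans_le (h.choose_spec i))
    · exact Or.inl (by simpa [A₀] using h)
  by_contra h0
  have hne : Nonempty I := by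
    by_contra h
    obtain ⟨N, hN⟩ := PJ 0
    exact h0 (hJ.mono (fun j hj => (h ⟨(hj 0).choose⟩).elim) hN)
  choose! σ hσ using fun (j : J) (hj : j ∈ A₀) => hj
  have step : ∀ (N : ℕ) (A : Set J), A ⊆ A₀ ∧ ¬ 𝓙 A →
      ∃ k ≥ N, ∃ A' ⊆ A, ¬ 𝓙 A' ∧ InjOn (σ · k) A' := by
    rintro N A ⟨hA, hA'⟩
    by_contra! h
    choose T hT1 hT2 hT3 using fun k => exists_subset_bijOn A (σ · k)
    obtain ⟨M, hM⟩ := hb _ (sigma hJ PJ (fun k => T (k + N)) fun k => by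
      by_contra h1
      exact h _ (Nat.le_add_left _ _) _ (hT1 _) h1 (hT3 _).1)
    obtain ⟨M', hM'⟩ := ha _ hM
    refine hA' (hJ.mono (fun j hj => ?_) hM')
    refine ⟨σ j (M + M' + N), ?_, ?_⟩
    · obtain ⟨j', h1, h2⟩ := (hT3 _).2 (mem_image_of_mem (σ · (M + M' + N)) hj)
      have := hσ j' (hA (hT1 _ h1)) (M + M' + N)
      exact ⟨j', mem_iUnion.mpr ⟨_, h1⟩, by simp only at h2; rw [← h2]; omega⟩
    · have := hσ j (hA hj) (M + M' + N)
      omega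
  choose! k hk nx hn1 hn2 hn3 using step
  let A : ℕ → Set J := fun n => Nat.rec A₀ (fun n B => nx n B) n
  have hA : ∀ n, A n ⊆ A₀ ∧ ¬ 𝓙 (A n) := fun n => by
    induction n with
    | zero => exact ⟨subset_rfl, h0⟩
    | succ n ih => exact ⟨(hn1 n _ ih).trans ih.1, hn2 n _ ih⟩
  have hanti : Antitone A := antitone_nat_of_succ_le fun n => hn1 n _ (hA n)
  have hpos : ¬ 𝓙 (⋂ n, A n) := by
    intro h
    obtain ⟨N, hN⟩ := PJ fun j => sInf {n | j ∉ A n}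
    refine (hA N).2 (hJ.mono (fun j hj => ?_) (hJ.union h hN))
    rcases em (∃ n, j ∉ A n) with h1 | h1
    · refine Or.inr ?_
      by_contra h2
      exact Nat.sInf_mem (s := {n | j ∉ A n}) h1 (hanti (not_lt.mp h2) hj)
    · exact Or.inl (by simpa using h1)
  let τ : ℕ → J → I := fun n j => σ j (k n (A n))
  have hτ : ∀ n, InjOn (τ n) (⋂ n, A n) := fun n =>
    (hn3 n _ (hA n)).mono (iInter_subset A (n + 1))
  have hF : ∀ n, ∀ j ∈ ⋂ n, A n, n < F (τ n j) j := fun n j hj =>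
    (hk n _ (hA n)).trans_lt (hσ j (iInter_subset A 0 hj) _)
  obtain ⟨c, hc⟩ := coloring (fun i i' => ∃ j ∈ ⋂ n, A n, ∃ n m, τ n j = i ∧ τ m j = i')
    (fun _ _ ⟨j, hj, n, m, h1, h2⟩ => ⟨j, hj, m, n, h2, h1⟩) (fun i => by
      refine (countable_iUnion fun n => countable_iUnion fun m =>
        (Set.Subsingleton.countable (s := {j ∈ ⋂ n, A n | τ n j = i})
          fun a ha b hb => hτ n ha.1 hb.1 (ha.2.trans hb.2.symm)).image (τ m)).mono ?_
      rintro _ ⟨j, hj, n, m, h1, rfl⟩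
      exact mem_iUnion₂.mpr ⟨n, m, j, ⟨hj, h1⟩, rfl⟩)
  obtain ⟨N, hN⟩ := PI c
  obtain ⟨M, hM⟩ := ha _ hN
  refine hpos (hJ.mono (fun j hj => ?_) hM)
  by_contra h1
  have h2 : {i ∈ range (τ · j) | c i ≤ N}.Finite :=
    Finite.of_finite_image (f := c) ((finite_Iic N).subset (by rintro _ ⟨i, hi, rfl⟩; exact hi.2))
      (by rintro _ ⟨⟨n, rfl⟩, _⟩ _ ⟨⟨m, rfl⟩, _⟩ h; exact hc _ _ ⟨j, hj, n, m, rfl, rfl⟩ h)
  obtain ⟨K, hK⟩ := (h2.image (F · j)).bddAbove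
  have h3 := hF (M + K) j hj
  by_cases h4 : c (τ (M + K) j) ≤ N
  · have := hK ⟨_, ⟨⟨M + K, rfl⟩, h4⟩, rfl⟩
    simp only at this
    omega
  · exact h1 ⟨_, not_le.mp h4, by omega⟩

end Discrete

/-- `g` is 1-Lipschitz for the sup-distance between the sections `f (·, y)`. -/
def Lip {X Y : Type*} (f : X → Y → ℝ) (g : Y → ℝ) : Prop :=
  ∀ y y' c, (∀ x, |f x y - f x y'| ≤ c) → |g y - g y'| ≤ c

section Side

variable {X Y : Type*} [Nonempty X] {BY : Set Y → Prop} (f : X → Y → ℝ)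

def st : Setoid Y := ⟨fun y y' => ∃ c, ∀ x, |f x y - f x y'| ≤ c,
  fun y => ⟨0, by simp⟩, fun ⟨c, h⟩ => ⟨c, fun x => abs_sub_comm (f x _) _ ▸ h x⟩,
  fun ⟨c, h⟩ ⟨d, h'⟩ => ⟨c + d, fun x => (abs_sub_le _ _ _).trans (add_le_add (h x) (h' x))⟩⟩

lemma side (hY : IsIdeal BY) (H : ∀ g, Lip f g → ∃ M, BY {y | M < |g y|}) :
    (∀ g : Quotient (st f) → ℕ, ∃ N, BY {y | N < g (Quotient.mk _ y)}) ∧
    ∃ M, BY {y | ∃ x, M < |f x y - f x (Quotient.mk (st f) y).out|} := by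
  constructor
  · intro g
    obtain ⟨M, hM⟩ := H (fun y => g (Quotient.mk _ y)) fun y y' c h => by
      simp only [show Quotient.mk (st f) y = Quotient.mk _ y' from Quotient.sound ⟨c, h⟩, sub_self,
        abs_zero]
      exact (abs_nonneg _).trans (h (Classical.arbitrary X))
    refine ⟨⌈M⌉₊, hY.mono (fun y hy => ?_) hM⟩
    simpa using Nat.lt_of_ceil_lt hy
  · have hb : ∀ y, BddAbove (range fun x => |f x y - f x (Quotient.mk (st f) y).out|) := by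
      intro y
      obtain ⟨c, hc⟩ := (st f).symm (Quotient.mk_out (s := st f) y)
      exact ⟨c, by rintro _ ⟨x, rfl⟩; exact hc x⟩
    obtain ⟨M, hM⟩ := H (fun y => ⨆ x, |f x y - f x (Quotient.mk (st f) y).out|) (by
      have : ∀ y y' c, (∀ x, |f x y - f x y'| ≤ c) →
          ⨆ x, |f x y - f x (Quotient.mk (st f) y).out| ≤
            c + ⨆ x, |f x y' - f x (Quotient.mk (st f) y').out| := by
        intro y y' c h
        rw [show Quotient.mk (st f) y = Quotient.mk _ y' from Quotient.sound ⟨c, h⟩]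
        exact ciSup_le fun x => (abs_sub_le _ _ _).trans (add_le_add (h x) (le_ciSup (hb y') x))
      intro y y' c h
      have h1 := this y y' c h
      have h2 := this y' y c fun x => abs_sub_comm (f x _) _ ▸ h x
      rw [abs_le]
      constructor <;> linarith)
    refine ⟨M, hY.mono ?_ hM⟩
    rintro y ⟨x, hx⟩
    exact (hx.trans_le (le_ciSup (hb y) x)).trans_le (le_abs_self _)

lemma strip (hY : IsIdeal BY) (H : ∀ g, Lip f g → ∃ M, BY {y | M < |g y|}) (B : Set X)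
    (h : ∃ C, BY {y | ∃ x ∈ B, ∃ x' ∈ B, C < |f x y - f x' y|}) :
    ∃ M, BY {y | ∃ x ∈ B, M < |f x y|} := by
  obtain ⟨C, hC⟩ := h
  rcases B.eq_empty_or_nonempty with rfl | ⟨x₀, h₀⟩
  · exact ⟨0, hY.mono (by simp) hC⟩
  obtain ⟨M, hM⟩ := H (f x₀) fun _ _ _ h => h x₀
  refine ⟨C + M, hY.mono ?_ (hY.union hC hM)⟩
  rintro y ⟨x, hx, h⟩
  by_contra h1
  simp only [mem_union, mem_ofPred_eq, not_or, not_exists, not_and, not_lt] at h1
  have := h1.1 x hx x₀ h₀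
  have := abs_sub_abs_le_abs_sub (f x y) (f x₀ y)
  linarith [h1.2]

end Side

/-- The product theorem. -/
theorem main {X Y : Type*} [Nonempty X] [Nonempty Y] {BX : Set X → Prop} {BY : Set Y → Prop}
    (hX : IsIdeal BX) (hY : IsIdeal BY) (f : X → Y → ℝ)
    (HX : ∀ g, Lip (fun y x => f x y) g → ∃ M, BX {x | M < |g x|})
    (HY : ∀ g, Lip f g → ∃ M, BY {y | M < |g y|})
    (OX : ∀ D, BY D → ∃ C, BX {x | ∃ y ∈ D, ∃ y' ∈ D, C < |f x y - f x y'|})
    (OY : ∀ B, BX B → ∃ C, BY {y | ∃ x ∈ B, ∃ x' ∈ B, C < |f x y - f x' y|}) :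
    ∃ B D M, BX B ∧ BY D ∧ ∀ x y, ¬ (x ∈ B ∧ y ∈ D) → |f x y| ≤ M := by
  obtain ⟨PX, M₁, h₁⟩ := side (fun y x => f x y) hX HX
  obtain ⟨PY, M₂, h₂⟩ := side f hY HY
  have sX := fun D hD => strip (fun y x => f x y) hX HX D (OX D hD)
  have sY := fun B hB => strip f hY HY B (OY B hB)
  obtain ⟨M, hM⟩ := discrete
    (𝓘 := fun S : Set (Quotient (st fun y x => f x y)) => BX (Quotient.mk _ ⁻¹' S))
    (𝓙 := fun S : Set (Quotient (st f)) => BY (Quotient.mk _ ⁻¹' S))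
    ⟨fun h => hY.mono (preimage_mono h), hY.union⟩ PX PY (fun i j => ⌈|f i.out j.out|⌉₊)
    (fun S hS => by
      obtain ⟨M, hM⟩ := sY _ hS
      refine ⟨⌈M + M₂⌉₊, hY.mono ?_ (hY.union hM h₂)⟩
      rintro y ⟨i, hi, h⟩
      have h := lt_of_not_ge fun h' => h.not_ge (Nat.ceil_mono h')
      by_contra h1
      simp only [mem_union, mem_ofPred_eq, not_or, not_exists, not_and, not_lt] at h1
      have := h1.1 i.out (by simpa using hi)
      have := h1.2 i.out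
      have := abs_sub_abs_le_abs_sub (f i.out (Quotient.mk (st f) y).out) (f i.out y)
      rw [abs_sub_comm] at this
      linarith)
    (fun S hS => by
      obtain ⟨M, hM⟩ := sX _ hS
      refine ⟨⌈M + M₁⌉₊, hX.mono ?_ (hX.union hM h₁)⟩
      rintro x ⟨j, hj, h⟩
      have h := lt_of_not_ge fun h' => h.not_ge (Nat.ceil_mono h')
      by_contra h1
      simp only [mem_union, mem_ofPred_eq, not_or, not_exists, not_and, not_lt] at h1
      have := h1.1 j.out (by simpa using hj)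
      have := h1.2 j.out
      have := abs_sub_abs_le_abs_sub (f (Quotient.mk (st fun y x => f x y) x).out j.out)
        (f x j.out)
      rw [abs_sub_comm] at this
      linarith)
  obtain ⟨M₃, h₃⟩ := sY _ h₁
  have hD := hY.union (hY.union hM h₂) h₃
  obtain ⟨M₄, h₄⟩ := sX _ hD
  refine ⟨_, _, max (M + M₁ + M₂) (max M₃ M₄), h₄, hD, fun x y h => ?_⟩
  by_contra! h5
  simp only [max_lt_iff] at h5
  refine h ⟨⟨y, ?_, h5.2.2⟩, ?_⟩ <;>
  · by_contra h1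
    simp only [mem_union, mem_preimage, mem_ofPred_eq, not_or, not_exists, not_and, not_lt] at h1
    obtain ⟨⟨a1, a2⟩, a3⟩ := h1
    have a4 : |f x y - f (Quotient.mk (st fun y x => f x y) x).out y| ≤ M₁ := by
      by_contra! a4
      exact (a3 x ⟨y, a4⟩).not_gt h5.2.1
    have a5 := Nat.ceil_le.mp (a1 (Quotient.mk _ x))
    have a6 := a2 (Quotient.mk (st fun y x => f x y) x).out
    have := abs_sub_abs_le_abs_sub (f x y) (f (Quotient.mk (st fun y x => f x y) x).out y)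
    have := abs_sub_abs_le_abs_sub (f (Quotient.mk (st fun y x => f x y) x).out y)
      (f (Quotient.mk (st fun y x => f x y) x).out (Quotient.mk (st f) y).out)
    linarith [h5.1]

/-- Bounded sets of a family of entourages. -/
def Bdd {X : Type*} (𝓔 : Set (Set (X × X))) (B : Set X) : Prop :=
  ∃ E ∈ 𝓔, ∃ x, B ⊆ {y | (x, y) ∈ E}

theorem main' {X Y : Type*} [Nonempty X] [Nonempty Y] {𝓔 : Set (Set (X × X))}
    {𝓕 : Set (Set (Y × Y))} (hX : IsIdeal (Bdd 𝓔)) (hY : IsIdeal (Bdd 𝓕))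
    (dX : ∃ E ∈ 𝓔, ∀ x, (x, x) ∈ E) (dY : ∃ F ∈ 𝓕, ∀ y, (y, y) ∈ F) (f : X × Y → ℝ)
    (HX : ∀ g, Lip (fun y x => f (x, y)) g → ∃ M, Bdd 𝓔 {x | M < |g x|})
    (HY : ∀ g, Lip (fun x y => f (x, y)) g → ∃ M, Bdd 𝓕 {y | M < |g y|})
    (hf : ∀ E ∈ 𝓔, ∀ F ∈ 𝓕, ∃ C B D, Bdd 𝓔 B ∧ Bdd 𝓕 D ∧ ∀ x y, ¬ (x ∈ B ∧ y ∈ D) →
      ∀ p q : X × Y, (x, p.1) ∈ E → (y, p.2) ∈ F → (x, q.1) ∈ E → (y, q.2) ∈ F →
        |f p - f q| ≤ C) :
    ∃ E ∈ 𝓔, ∃ F ∈ 𝓕, ∃ (a : X × Y) (M : ℝ), ∀ p : X × Y,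
      ¬ ((a.1, p.1) ∈ E ∧ (a.2, p.2) ∈ F) → |f p| ≤ M := by
  obtain ⟨E₀, hE₀, dX⟩ := dX
  obtain ⟨F₀, hF₀, dY⟩ := dY
  obtain ⟨B, D, M, ⟨E, hE, x, hB⟩, ⟨F, hF, y, hD⟩, h⟩ := main hX hY (fun x y => f (x, y)) HX HY
    (by
      rintro D ⟨F, hF, y₀, hD⟩
      obtain ⟨C, B, D', hB, -, h⟩ := hf E₀ hE₀ F hF
      refine ⟨C, hX.mono ?_ hB⟩
      rintro x ⟨y, hy, y', hy', hc⟩
      by_contra hx
      exact hc.not_ge (h x y₀ (fun h => hx h.1) (x, y) (x, y') (dX x) (hD hy) (dX x) (hD hy')))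
    (by
      rintro B ⟨E, hE, x₀, hB⟩
      obtain ⟨C, B', D, -, hD, h⟩ := hf E hE F₀ hF₀
      refine ⟨C, hY.mono ?_ hD⟩
      rintro y ⟨x, hx, x', hx', hc⟩
      by_contra hy
      exact hc.not_ge (h x₀ y (fun h => hy h.2) (x, y) (x', y) (hB hx) (dY y) (hB hx') (dY y)))
  exact ⟨E, hE, F, hF, (x, y), M, fun p hp => h p.1 p.2 fun h => hp ⟨hB h.1, hD h.2⟩⟩

lemma le_of_ediam {X : Type*} {f : X → ℝ} {S : Set X} {C : ℝ} (hC : 0 ≤ C)
    (h : Metric.ediam (f '' S) ≤ ENNReal.ofReal C) {a b : X} (ha : a ∈ S) (hb : b ∈ S) :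
    |f a - f b| ≤ C := by
  have := (Metric.edist_le_ediam_of_mem (mem_image_of_mem f ha) (mem_image_of_mem f hb)).trans h
  rwa [edist_le_ofReal hC, Real.dist_eq] at this

lemma ediam_le {X : Type*} {f : X → ℝ} {S : Set X} {C : ℝ}
    (h : ∀ a ∈ S, ∀ b ∈ S, |f a - f b| ≤ C) : Metric.ediam (f '' S) ≤ ENNReal.ofReal C := by
  refine Metric.ediam_le ?_
  rintro _ ⟨a, ha, rfl⟩ _ ⟨b, hb, rfl⟩
  rw [edist_dist, Real.dist_eq]
  exact ENNReal.ofReal_le_ofReal (h a ha b hb)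

end Pool.Agent.H19.BallProd
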