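import Mathlib

set_option autoImplicit false

namespace Pool.Agent.H19.ResSol

open FreeGroup hiding map_one map_inv map_mul

variable {ι : Type} [DecidableEq ι]

lemma norm_mk {w : List (ι × Bool)} (h : IsReduced w) : (mk w).norm = w.length := by
  simp only [FreeGroup.norm, toWord_mk, h.reduce_eq]

lemma red_mid {u v w : List (ι × Bool)} (h : IsReduced (u ++ v ++ w)) : IsReduced v := by
  unfold FreeGroup.IsReduced at *
  rw [List.isChain_append, List.isChain_append] at h
  exact h.1.2.1

/-- the permutation of `Q × ℤ` attached to `x : Q` and a weight -/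
def sk {Q : Type} [Group Q] (x : Q) (c : Q → ℤ) : Equiv.Perm (Q × ℤ) where
  toFun p := (x * p.1, p.2 + c p.1)
  invFun p := (x⁻¹ * p.1, p.2 - c (x⁻¹ * p.1))
  left_inv p := by simp
  right_inv p := by simp

theorem shorter (N : Subgroup (FreeGroup ι)) [hN : N.Normal] {g : FreeGroup ι}
    (hg : g ∈ ⁅N, N⁆) (h1 : g ≠ 1) : ∃ h ∈ N, h ≠ 1 ∧ h.norm < g.norm := by
  classical
  by_contra hcon
  push Not at hcon
  have hgN : g ∈ N := Subgroup.commutator_le_left N N hg
  obtain ⟨l, w, hw⟩ : ∃ l w, g.toWord = l :: w := by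
    cases hh : g.toWord with
    | nil => exact absurd (toWord_eq_nil_iff.mp hh) h1
    | cons l w => exact ⟨l, w, rfl⟩
  have hred : IsReduced (l :: w) := hw ▸ isReduced_toWord
  have hgm : g = mk (l :: w) := by rw [← hw, mk_toWord]
  let π := QuotientGroup.mk' N
  let wt : ι → (FreeGroup ι ⧸ N) → ℤ := fun j q =>
    if j = l.1 then (if l.2 then (if π (of j) * q = 1 then 1 else 0) else (if q = 1 then -1 else 0))
    else 0
  let φ : FreeGroup ι →* Equiv.Perm ((FreeGroup ι ⧸ N) × ℤ) := lift fun j => sk (π (of j)) (wt j)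
  have hφ : ∀ x, ∃ c : (FreeGroup ι ⧸ N) → ℤ, ∀ q n, φ x (q, n) = (π x * q, n + c q) := by
    intro x
    induction x using FreeGroup.induction_on with
    | C1 => exact ⟨0, by simp⟩
    | of j => exact ⟨wt j, fun q n => by simp [φ, sk]⟩
    | inv_of j _ =>
      refine ⟨fun q => - wt j ((π (of j))⁻¹ * q), fun q n => ?_⟩
      rw [map_inv, map_inv]
      simp only [φ, lift_apply_of]
      rfl
    | mul x y hx hy =>
      obtain ⟨c, hc⟩ := hx
      obtain ⟨d, hd⟩ := hy
      refine ⟨fun q => d q + c (π y * q), fun q n => ?_⟩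
      rw [map_mul, map_mul, Equiv.Perm.mul_apply, hd, hc, mul_assoc, add_assoc]
  have hker : ⁅N, N⁆ ≤ φ.ker := by
    rw [Subgroup.commutator_le]
    intro x hx y hy
    rw [MonoidHom.mem_ker, map_commutatorElement, commutatorElement_eq_one_iff_mul_comm]
    obtain ⟨c, hc⟩ := hφ x
    obtain ⟨d, hd⟩ := hφ y
    have hx' : π x = 1 := (QuotientGroup.eq_one_iff x).mpr hx
    have hy' : π y = 1 := (QuotientGroup.eq_one_iff y).mpr hy
    ext1 ⟨q, n⟩
    simp only [Equiv.Perm.mul_apply, hc, hd, hx', hy', one_mul]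
    rw [add_right_comm]
  have hlet : ∀ (l' : ι × Bool) q n, φ (mk [l']) (q, n) = (π (mk [l']) * q,
      n + if l'.2 then wt l'.1 q else - wt l'.1 ((π (of l'.1))⁻¹ * q)) := by
    rintro ⟨j, b⟩ q n
    cases b
    · have : (mk [(j, false)] : FreeGroup ι) = (of j)⁻¹ := rfl
      rw [this, map_inv, map_inv]
      simp only [φ, lift_apply_of]
      rfl
    · have : (mk [(j, true)] : FreeGroup ι) = of j := rfl
      rw [this]
      simp [φ, sk]
  have hmain : ∀ s u, w = u ++ s → ∃ n : ℤ, 0 ≤ n ∧ φ (mk s) (1, 0) = (π (mk s), n) := by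
    intro s
    induction s with
    | nil => intro u _; exact ⟨0, le_rfl, by rw [← one_eq_mk]; simp⟩
    | cons l' s ih =>
      intro u hu
      obtain ⟨n, hn, he⟩ := ih (u ++ [l']) (by simp [hu])
      have hm : mk (l' :: s) = mk [l'] * mk s := by rw [mul_mk]; rfl
      rw [hm, map_mul, map_mul, Equiv.Perm.mul_apply, he, hlet]
      refine ⟨_, ?_, rfl⟩
      have hnot : ¬ (l' = (l.1, !l.2) ∧ π (mk s) = 1) := by
        rintro ⟨hl, hs⟩
        have hsN : mk s ∈ N := (QuotientGroup.eq_one_iff _).mp hs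
        have hinv : mk [l'] = (mk [l])⁻¹ := by rw [hl, inv_mk]; rfl
        have hdec : g = mk [l] * mk u * (mk [l])⁻¹ * mk s := by
          rw [← hinv, hgm, hu, mul_mk, mul_mk, mul_mk]; simp
        have huN : mk u ∈ N := by
          have h2 : mk [l] * mk u * (mk [l])⁻¹ ∈ N := by
            have := N.mul_mem hgN (N.inv_mem hsN)
            rwa [hdec, mul_inv_cancel_right] at this
          have h3 := hN.conj_mem _ h2 (mk [l])⁻¹
          have h4 : ∀ x y : FreeGroup ι, x⁻¹ * (x * y * x⁻¹) * x⁻¹⁻¹ = y := by intros; group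
          rwa [h4] at h3
        have hur : IsReduced u := red_mid (u := [l]) (w := l' :: s) (by simpa [hu] using hred)
        have hlen : (mk u).norm < g.norm := by
          rw [norm_mk hur, hgm, norm_mk hred, hu]; simp
        have hu1 : mk u = 1 := by
          by_contra hne
          exact absurd hlen (not_lt.mpr (hcon _ huN hne))
        have hu0 : u = [] := by
          have := norm_mk hur
          rw [hu1, FreeGroup.norm_one] at this
          exact List.length_eq_zero_iff.mp this.symm
        rw [hu, hu0, hl] at hred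
        have := (isReduced_cons_cons.mp hred).1 rfl
        simp at this
      obtain ⟨j, b⟩ := l'
      obtain ⟨i, c⟩ := l
      simp only [wt]
      cases b <;> cases c <;> simp at hnot ⊢ <;> split_ifs <;> simp_all <;> omega
  obtain ⟨n, hn, he⟩ := hmain w [] rfl
  have hm : g = mk [l] * mk w := by rw [hgm, mul_mk]; rfl
  have h0 : φ g = 1 := hker hg
  have hπ : π (mk [l]) * π (mk w) = 1 := by
    rw [← map_mul, ← hm]; exact (QuotientGroup.eq_one_iff _).mpr hgN
  have h2 : φ g (1, 0) = (1, 0) := by rw [h0]; rfl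
  rw [hm, map_mul, Equiv.Perm.mul_apply, he, hlet] at h2
  have h3 := congrArg Prod.snd h2
  obtain ⟨i, c⟩ := l
  cases c
  · have : (mk [(i, false)] : FreeGroup ι) = (of i)⁻¹ := rfl
    rw [this, map_inv] at hπ
    simp only [wt, hπ] at h3
    simp at h3
    omega
  · have : (mk [(i, true)] : FreeGroup ι) = of i := rfl
    rw [this] at hπ
    simp only [wt, hπ] at h3
    simp at h3
    omega

theorem le_norm (j : ℕ) : ∀ g : FreeGroup ι, g ∈ derivedSeries (FreeGroup ι) j → g ≠ 1 →
    j ≤ g.norm := by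
  induction j with
  | zero => intros; omega
  | succ j ih =>
    intro g hg h1
    have := derivedSeries_normal (FreeGroup ι) j
    obtain ⟨h, hh, hne, hlt⟩ := shorter _ (derivedSeries_succ (FreeGroup ι) j ▸ hg) h1
    have := ih h hh hne
    omega

theorem resSol {g : FreeGroup ι} (h1 : g ≠ 1) (n : ℕ) :
    ∃ j, n ≤ j ∧ g ∉ derivedSeries (FreeGroup ι) j :=
  ⟨n + g.norm + 1, by omega, fun h => by have := le_norm _ g h h1; omega⟩

end Pool.Agent.H19.ResSol
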