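import Mathlib
import Pool.Agent.H19.ResSol

set_option autoImplicit false
set_option linter.unusedSectionVars false

namespace Pool.Agent.H19.ResP

open FreeGroup hiding map_one map_inv map_mul
open Pool.Agent.H19.ResSol

variable {ι : Type} [DecidableEq ι] {p : ℕ} [hp : Fact p.Prime]

def sk {Q A : Type} [Group Q] [AddCommGroup A] (x : Q) (c : Q → A) : Equiv.Perm (Q × A) where
  toFun p := (x * p.1, p.2 + c p.1)
  invFun p := (x⁻¹ * p.1, p.2 - c (x⁻¹ * p.1))
  left_inv p := by simp
  right_inv p := by simp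

def Sep (p : ℕ) (T : Set (FreeGroup ι)) : Prop :=
  ∃ (S : Type) (_ : Group S) (_ : Finite S), IsPGroup p S ∧
    ∃ θ : FreeGroup ι →* S, ∀ g ∈ T, θ g ≠ 1

lemma Sep.of_finite {T : Set (FreeGroup ι)} (hT : T.Finite) (h : ∀ g ∈ T, Sep p {g}) :
    Sep p T := by
  induction T, hT using Set.Finite.induction_on with
  | empty => exact ⟨PUnit, inferInstance, inferInstance, fun g => ⟨0, rfl⟩, 1, by simp⟩
  | @insert g T _ _ ih =>
    obtain ⟨S, _, _, hS, θ, hθ⟩ := ih fun g hg => h g (Or.inr hg)
    obtain ⟨S', _, _, hS', θ', hθ'⟩ := h g (Or.inl rfl)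
    refine ⟨S × S', inferInstance, inferInstance, ?_, θ.prod θ', ?_⟩
    · rintro ⟨x, y⟩
      obtain ⟨k, hk⟩ := hS x
      obtain ⟨l, hl⟩ := hS' y
      refine ⟨k + l, Prod.ext ?_ ?_⟩
      · simp [pow_add, pow_mul, hk]
      · simp [pow_add, mul_comm (p ^ k), pow_mul, hl]
    · rintro x (rfl | hx) h1
      · exact hθ' x rfl (congrArg Prod.snd h1)
      · exact hθ x hx (congrArg Prod.fst h1)

theorem step {S : Type} [Group S] [Finite S] (hS : IsPGroup p S) (π : FreeGroup ι →* S)
    (l : ι × Bool) (w : List (ι × Bool)) (hred : IsReduced (l :: w))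
    (hcon : ∀ u v s, w = u ++ v ++ s → π (mk v) = 1 → v = []) : Sep p {mk (l :: w)} := by
  classical
  by_cases hgN : π (mk (l :: w)) = 1
  swap
  · exact ⟨S, inferInstance, inferInstance, hS, π, by simpa using hgN⟩
  let wt : ι → S → ZMod p := fun j q =>
    if j = l.1 then (if l.2 then (if π (of j) * q = 1 then 1 else 0) else (if q = 1 then -1 else 0))
    else 0
  let φ : FreeGroup ι →* Equiv.Perm (S × ZMod p) := lift fun j => sk (π (of j)) (wt j)
  have hφ : ∀ x, ∃ c : S → ZMod p, ∀ q n, φ x (q, n) = (π x * q, n + c q) := by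
    intro x
    induction x using FreeGroup.induction_on with
    | C1 => exact ⟨0, by simp⟩
    | of j => exact ⟨wt j, fun q n => by simp [φ, sk]⟩
    | inv_of j _ =>
      refine ⟨fun q => - wt j ((π (of j))⁻¹ * q), fun q n => ?_⟩
      rw [map_inv, map_inv]
      simp only [φ, lift_apply_of, ← sub_eq_add_neg]
      rfl
    | mul x y hx hy =>
      obtain ⟨c, hc⟩ := hx
      obtain ⟨d, hd⟩ := hy
      refine ⟨fun q => d q + c (π y * q), fun q n => ?_⟩
      rw [map_mul, map_mul, Equiv.Perm.mul_apply, hd, hc, mul_assoc, add_assoc]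
  have hP : IsPGroup p φ.range := by
    rintro ⟨_, x, rfl⟩
    obtain ⟨k, hk⟩ := hS (π x)
    obtain ⟨c, hc⟩ := hφ (x ^ p ^ k)
    rw [map_pow π, hk] at hc
    have : ∀ (j : ℕ) q n, (φ (x ^ p ^ k) ^ j) (q, n) = (q, n + j * c q) := by
      intro j
      induction j with
      | zero => simp
      | succ j ih =>
        intro q n
        rw [pow_succ', Equiv.Perm.mul_apply, ih, hc]
        simp [add_mul, add_assoc]
    refine ⟨k + 1, Subtype.ext ?_⟩
    change φ x ^ p ^ (k + 1) = 1
    rw [pow_succ, pow_mul, ← map_pow]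
    ext1 ⟨q, n⟩
    rw [this]
    simp
  have hlet : ∀ (l' : ι × Bool) q n, φ (mk [l']) (q, n) = (π (mk [l']) * q,
      n + if l'.2 then wt l'.1 q else - wt l'.1 ((π (of l'.1))⁻¹ * q)) := by
    rintro ⟨j, b⟩ q n
    cases b
    · have : (mk [(j, false)] : FreeGroup ι) = (of j)⁻¹ := rfl
      rw [this, map_inv, map_inv]
      simp only [φ, lift_apply_of, Bool.false_eq_true, if_false, ← sub_eq_add_neg]
      rfl
    · have : (mk [(j, true)] : FreeGroup ι) = of j := rfl
      rw [this]
      simp [φ, sk]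
  have hmain : ∀ s u, w = u ++ s → φ (mk s) (1, 0) = (π (mk s), 0) := by
    intro s
    induction s with
    | nil => intro u _; rw [← one_eq_mk]; simp
    | cons l' s ih =>
      intro u hu
      have he := ih (u ++ [l']) (by simp [hu])
      have hm : mk (l' :: s) = mk [l'] * mk s := by rw [mul_mk]; rfl
      have hnot' : ¬ (π (mk [l']) * π (mk s) = 1) := by
        rw [← map_mul, ← hm]
        intro h
        simpa using hcon u (l' :: s) [] (by simp [hu]) h
      rw [hm, map_mul, map_mul, Equiv.Perm.mul_apply, he, hlet]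
      congr 1
      have hnot : ¬ (l' = (l.1, !l.2) ∧ π (mk s) = 1) := by
        rintro ⟨hl, hs⟩
        have hinv : mk [l'] = (mk [l])⁻¹ := by rw [hl, inv_mk]; rfl
        have hdec : mk (l :: w) = mk [l] * mk u * (mk [l])⁻¹ * mk s := by
          rw [← hinv, hu, mul_mk, mul_mk, mul_mk]; simp
        have huN : π (mk u) = 1 := by
          rw [hdec, map_mul, hs, mul_one, map_mul, map_mul, map_inv] at hgN
          simpa using hgN
        have hu0 : u = [] := hcon [] u (l' :: s) (by simp [hu]) huN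
        rw [hu, hu0, hl] at hred
        have := (isReduced_cons_cons.mp hred).1 rfl
        simp at this
      obtain ⟨j, b⟩ := l'
      obtain ⟨i, c⟩ := l
      have e1 : (mk [(j, false)] : FreeGroup ι) = (of j)⁻¹ := rfl
      have e2 : (mk [(j, true)] : FreeGroup ι) = of j := rfl
      simp only [wt]
      cases b <;> cases c <;> simp only [e1, e2, map_inv] at hnot' <;> simp [hnot'] at hnot ⊢ <;>
        exact hnot
  have he := hmain w [] rfl
  have hm : mk (l :: w) = mk [l] * mk w := by rw [mul_mk]; rfl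
  have hπ : π (mk [l]) * π (mk w) = 1 := by rw [← map_mul, ← hm]; exact hgN
  refine ⟨φ.range, inferInstance, inferInstance, hP, φ.rangeRestrict, ?_⟩
  rintro _ rfl h0
  have h0 : φ (mk (l :: w)) = 1 := congrArg Subtype.val h0
  have h2 : φ (mk (l :: w)) (1, 0) = (1, 0) := by rw [h0]; rfl
  rw [hm, map_mul, Equiv.Perm.mul_apply, he, hlet] at h2
  have h3 := congrArg Prod.snd h2
  obtain ⟨i, c⟩ := l
  cases c
  · have : (mk [(i, false)] : FreeGroup ι) = (of i)⁻¹ := rfl
    rw [this, map_inv] at hπ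
    simp only [wt, hπ] at h3
    simp at h3
  · have : (mk [(i, true)] : FreeGroup ι) = of i := rfl
    rw [this] at hπ
    simp only [wt, hπ] at h3
    simp at h3

theorem sep_word (n : ℕ) : ∀ w : List (ι × Bool), w.length ≤ n → IsReduced w → w ≠ [] →
    Sep p {mk w} := by
  induction n with
  | zero => intro w h _ h1; exact absurd (List.length_eq_zero_iff.mp (by omega)) h1
  | succ n ih =>
    intro w hlen hred hne
    obtain ⟨l, w, rfl⟩ := List.exists_cons_of_ne_nil hne
    let T : Set (FreeGroup ι) := mk '' {v | v ∈ w.sublists ∧ IsReduced v ∧ v ≠ []}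
    have hT : T.Finite := ((List.finite_toSet w.sublists).subset fun v hv => hv.1).image _
    obtain ⟨S, _, _, hS, π, hπ⟩ := Sep.of_finite (p := p) hT (by
      rintro _ ⟨v, ⟨h1, h2, h3⟩, rfl⟩
      have := (List.mem_sublists.mp h1).length_le
      exact ih v (by simp at hlen; omega) h2 h3)
    refine step hS π l w hred fun u v s hw h1 => ?_
    by_contra hv
    refine hπ (mk v) ⟨v, ⟨?_, ?_, hv⟩, rfl⟩ h1
    · rw [List.mem_sublists, hw]
      exact (List.sublist_append_right u v).trans (List.sublist_append_left _ s)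
    · exact red_mid (u := l :: u) (w := s) (by simpa [hw] using hred)

theorem resP (p : ℕ) [Fact p.Prime] {g : FreeGroup ι} (h1 : g ≠ 1) :
    ∃ (S : Type) (_ : Group S) (_ : Finite S), IsPGroup p S ∧
      ∃ θ : FreeGroup ι →* S, θ g ≠ 1 := by
  obtain ⟨S, _, _, hS, θ, hθ⟩ := sep_word (p := p) _ g.toWord le_rfl isReduced_toWord
    (by simpa using h1)
  exact ⟨S, inferInstance, inferInstance, hS, θ, hθ g mk_toWord.symm⟩

end Pool.Agent.H19.ResP
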