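import Mathlib
import Pool.Agent.H19.ResP

set_option autoImplicit false
set_option linter.unusedSectionVars false

namespace Pool.Agent.H19.Baum

open scoped commutatorElement

def rel : FreeGroup (Fin 3) := FreeGroup.of 0 ^ 2 * FreeGroup.of 1 ^ 3 * FreeGroup.of 2 ^ 3

abbrev G := PresentedGroup ({rel} : Set (FreeGroup (Fin 3)))

def a : G := PresentedGroup.of 0
def b : G := PresentedGroup.of 1
def c : G := PresentedGroup.of 2

lemma hrel : a ^ 2 * b ^ 3 * c ^ 3 = 1 := by
  have := PresentedGroup.one_of_mem (rels := ({rel} : Set (FreeGroup (Fin 3)))) (x := rel) rfl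
  rw [rel] at this
  simp only [map_mul, map_pow] at this
  exact this

lemma exists_hom {W : Type} [Group W] (x y z : W) (h : x ^ 2 * y ^ 3 * z ^ 3 = 1) :
    ∃ f : G →* W, f a = x ∧ f b = y ∧ f c = z := by
  have : ∀ r ∈ ({rel} : Set (FreeGroup (Fin 3))), FreeGroup.lift ![x, y, z] r = 1 := by
    rintro r rfl
    simpa [rel] using h
  exact ⟨PresentedGroup.toGroup this, PresentedGroup.toGroup.of this,
    PresentedGroup.toGroup.of this, PresentedGroup.toGroup.of this⟩

lemma hom_ext {W : Type} [Group W] {f g : G →* W} (h1 : f a = g a) (h2 : f b = g b)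
    (h3 : f c = g c) : f = g := by
  apply PresentedGroup.ext
  intro i
  fin_cases i
  exacts [h1, h2, h3]

lemma gen (H : Subgroup G) (h1 : a ∈ H) (h2 : b ∈ H) (h3 : c ∈ H) (g : G) : g ∈ H := by
  apply PresentedGroup.generated_by
  intro i
  fin_cases i
  exacts [h1, h2, h3]

/-! ### residual nilpotence -/

def gi : ℕ → G
  | 0 => b * c
  | 1 => c * (b * c) * c⁻¹
  | i + 2 => c ^ (i + 2) * a * (c ^ (i + 2))⁻¹

def io : FreeGroup ℕ →* G := FreeGroup.lift gi

def D : ℕ → FreeGroup ℕ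
  | 0 => .of 0
  | 1 => .of 1
  | i + 2 => (FreeGroup.of (i + 2) ^ 2)⁻¹ * (D (i + 1) * D i)⁻¹

lemma conj_mem {y : G} (hy : y ∈ io.range) : c * y * c⁻¹ ∈ io.range := by
  obtain ⟨w, rfl⟩ := hy
  let σ : FreeGroup ℕ →* FreeGroup ℕ := FreeGroup.lift fun i =>
    match i with
    | 0 => .of 1
    | 1 => D 2
    | i + 2 => .of (i + 3)
  have : io.comp σ = (MulAut.conj c).toMonoidHom.comp io := by
    apply FreeGroup.ext_hom
    intro i
    match i with
    | 0 => simp [σ, io, gi]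
    | 1 =>
      have h : a ^ 2 = (b ^ 3 * c ^ 3)⁻¹ := by
        rw [eq_inv_iff_mul_eq_one, ← mul_assoc, hrel]
      have h2 : (c ^ 2 * a * (c ^ 2)⁻¹) ^ 2 = c ^ 2 * a ^ 2 * (c ^ 2)⁻¹ := conj_pow
      simp only [σ, io, D, gi, MonoidHom.comp_apply, FreeGroup.lift_apply_of, map_mul, map_inv,
        map_pow, zero_add, h2, h]
      simp only [MulEquiv.coe_toMonoidHom, MulAut.conj_apply, pow_succ, pow_zero]
      simp [mul_assoc]
    | i + 2 =>
      simp only [σ, io, gi, MonoidHom.comp_apply, FreeGroup.lift_apply_of,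
        MulEquiv.coe_toMonoidHom, MulAut.conj_apply]
      group
  exact ⟨σ w, DFunLike.congr_fun this w⟩

def K : Subgroup G where
  carrier := {g | ∃ m : ℤ, ∀ j, m ≤ j → c ^ j * g * (c ^ j)⁻¹ ∈ io.range}
  one_mem' := ⟨0, fun j _ => by simp⟩
  mul_mem' := by
    rintro g h ⟨m, hm⟩ ⟨n, hn⟩
    refine ⟨max m n, fun j hj => ?_⟩
    have := mul_mem (hm j (le_of_max_le_left hj)) (hn j (le_of_max_le_right hj))
    convert this using 1
    group
  inv_mem' := by
    rintro g ⟨m, hm⟩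
    refine ⟨m, fun j hj => ?_⟩
    have := inv_mem (hm j hj)
    convert this using 1
    group

lemma K_conj {g : G} (h : g ∈ K) (k : ℤ) : c ^ k * g * (c ^ k)⁻¹ ∈ K := by
  obtain ⟨m, hm⟩ := h
  refine ⟨m - k, fun j hj => ?_⟩
  convert hm (j + k) (by omega) using 1
  group

lemma mem_K {y : G} (hy : y ∈ io.range) : y ∈ K := by
  refine ⟨0, fun j hj => ?_⟩
  obtain ⟨n, rfl⟩ := Int.eq_ofNat_of_zero_le hj
  clear hj
  induction n with
  | zero => simpa using hy
  | succ n ih =>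
    convert conj_mem ih using 1
    push_cast
    group

lemma nf (g : G) : ∃ (k j : ℤ) (w : FreeGroup ℕ), g = (c ^ j)⁻¹ * io w * c ^ j * c ^ k := by
  let U : Subgroup G :=
    { carrier := {g | ∃ k : ℤ, g * c ^ k ∈ K}
      one_mem' := ⟨0, by simp⟩
      mul_mem' := by
        rintro g h ⟨k, hk⟩ ⟨l, hl⟩
        refine ⟨l + k, ?_⟩
        convert mul_mem hk (K_conj hl (-k)) using 1
        group
      inv_mem' := by
        rintro g ⟨k, hk⟩
        refine ⟨-k, ?_⟩
        convert K_conj (inv_mem hk) k using 1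
        group }
  have : g ∈ U := by
    apply gen
    · refine ⟨0, ?_⟩
      convert K_conj (mem_K ⟨.of 2, rfl⟩) (-2) using 1
      simp only [io, gi, FreeGroup.lift_apply_of]
      group
    · refine ⟨1, ?_⟩
      convert mem_K ⟨.of 0, rfl⟩ using 1
      simp [io, gi]
    · exact ⟨-1, by simp⟩
  obtain ⟨k, m, hm⟩ := this
  obtain ⟨w, hw⟩ := hm m le_rfl
  refine ⟨-k, m, w, ?_⟩
  rw [hw]
  group

lemma supp (w : FreeGroup ℕ) : ∃ L, ∀ {S : Type} [Group S] (f g : FreeGroup ℕ →* S),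
    (∀ i < L, f (.of i) = g (.of i)) → f w = g w := by
  induction w using FreeGroup.induction_on with
  | C1 => exact ⟨0, by simp⟩
  | of j => exact ⟨j + 1, fun f g h => h j (by omega)⟩
  | inv_of j _ => exact ⟨j + 1, fun f g h => by rw [map_inv, map_inv, h j (by omega)]⟩
  | mul x y hx hy =>
    obtain ⟨L, hL⟩ := hx
    obtain ⟨M, hM⟩ := hy
    refine ⟨max L M, fun f g h => ?_⟩
    rw [map_mul, map_mul, hL f g fun i hi => h i (by omega), hM f g fun i hi => h i (by omega)]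

def inb {S Q : Type} [Group S] [Group Q] : (Q → S) →* S ≀ᵣ Q where
  toFun f := ⟨f, 1⟩
  map_one' := rfl
  map_mul' f g := by ext <;> simp

lemma inl_conj {S Q : Type} [Group S] [Group Q] (t : Q) (f : Q → S) :
    RegularWreathProduct.inl t * inb f * (RegularWreathProduct.inl t)⁻¹ =
      inb fun x => f (t⁻¹ * x) := by
  ext <;> simp [inb]

def Th {S Q : Type} [Group S] [Group Q] (t : Q) (s fa : Q → S) : FreeGroup ℕ →* (Q → S) :=
  FreeGroup.lift fun i =>
    match i with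
    | 0 => s
    | 1 => fun x => s (t * x)
    | i + 2 => fun x => fa (t ^ (i + 2) * x)

lemma wr {S Q : Type} [Group S] [Group Q] (t : Q) (s fa : Q → S)
    (h : ∀ x, fa x ^ 2 = (s x * s (t⁻¹ * x) * s (t⁻¹ * (t⁻¹ * x)))⁻¹) :
    ∃ Ψ : G →* S ≀ᵣ Q, Ψ.comp io = inb.comp (Th t s fa) := by
  obtain ⟨Ψ, ha, hb, hc⟩ := exists_hom (inb fa)
    (inb s * RegularWreathProduct.inl t) (RegularWreathProduct.inl t⁻¹) (by
      rw [← map_pow]
      ext x
      · have := h x
        rw [eq_inv_iff_mul_eq_one, sq] at this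
        simpa [inb, pow_succ, mul_assoc] using this
      · simp [inb, pow_succ, mul_assoc])
  refine ⟨Ψ, ?_⟩
  apply FreeGroup.ext_hom
  intro i
  match i with
  | 0 => simp [io, gi, Th, hb, hc]
  | 1 =>
    have := inl_conj t⁻¹ s
    simpa [io, gi, Th, hb, hc] using this
  | i + 2 =>
    have := inl_conj (t⁻¹ ^ (i + 2)) fa
    simpa [io, gi, Th, ha, hc] using this

lemma sep_io {w : FreeGroup ℕ} (hw : w ≠ 1) :
    ∃ (S : Type) (_ : Group S), Group.IsNilpotent S ∧ ∃ f : G →* S, f (io w) ≠ 1 := by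
  have h3 : Fact (Nat.Prime 3) := ⟨Nat.prime_three⟩
  obtain ⟨S, _, _, hS, θ, hθ⟩ := ResP.resP 3 hw
  obtain ⟨L, hL⟩ := supp w
  have hLk : L < 3 ^ L := Nat.lt_pow_self (by norm_num)
  obtain ⟨Q, _, _, hQ, t, s, hs⟩ : ∃ (Q : Type) (_ : Group Q) (_ : Finite Q),
      Nat.card Q = 3 ^ L ∧ ∃ (t : Q) (s : Q → S), ∀ i < L, s (t ^ i) = θ (D i) := by
    refine ⟨Multiplicative (ZMod (3 ^ L)), inferInstance, inferInstance, by simp,
      Multiplicative.ofAdd 1, fun x => θ (D x.toAdd.val), fun i hi => ?_⟩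
    simp only [toAdd_pow, toAdd_ofAdd, nsmul_one]
    rw [ZMod.val_natCast, Nat.mod_eq_of_lt (by omega)]
  let sq := hS.powEquiv (n := 2) (by norm_num)
  have hsq : ∀ x, sq x = x ^ 2 := fun _ => rfl
  let fa : Q → S := fun x => sq.symm (s x * s (t⁻¹ * x) * s (t⁻¹ * (t⁻¹ * x)))⁻¹
  have hfa : ∀ x, fa x ^ 2 = (s x * s (t⁻¹ * x) * s (t⁻¹ * (t⁻¹ * x)))⁻¹ := fun x => by
    rw [← hsq]; exact sq.apply_symm_apply _
  obtain ⟨Ψ, h1⟩ := wr t s fa hfa
  have h2 : (Pi.evalMonoidHom (fun _ : Q => S) 1).comp (Th t s fa) w = θ w := by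
    apply hL
    intro i hi
    match i with
    | 0 => simpa [Th, D] using hs 0 hi
    | 1 => simpa [Th, D] using hs 1 hi
    | i + 2 =>
      apply sq.injective
      rw [hsq, hsq]
      simp only [Th, MonoidHom.comp_apply, FreeGroup.lift_apply_of, Pi.evalMonoidHom_apply, hfa,
        mul_one]
      have e1 : t⁻¹ * t ^ (i + 2) = t ^ (i + 1) := by group
      have e2 : t⁻¹ * t ^ (i + 1) = t ^ i := by group
      rw [e1, e2, hs _ hi, hs _ (by omega), hs _ (by omega), D]
      simp only [map_mul, map_inv, map_pow]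
      group
  have hP : IsPGroup 3 (S ≀ᵣ Q) := by
    obtain ⟨n, hn⟩ := hS.exists_card_eq
    apply IsPGroup.of_card (n := n * 3 ^ L + L)
    rw [RegularWreathProduct.card, hn, hQ, pow_add, pow_mul]
  refine ⟨S ≀ᵣ Q, inferInstance, hP.isNilpotent, Ψ, fun h => hθ ?_⟩
  have h4 : inb (Th t s fa w) = 1 := (DFunLike.congr_fun h1 w).symm.trans h
  rw [← h2]
  exact congrFun (congrArg RegularWreathProduct.left h4) 1

theorem sep {g : G} (hg : g ≠ 1) :
    ∃ (S : Type) (_ : Group S), Group.IsNilpotent S ∧ ∃ f : G →* S, f g ≠ 1 := by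
  obtain ⟨k, j, w, rfl⟩ := nf g
  by_cases hk : k = 0
  · subst hk
    have hw : w ≠ 1 := by
      rintro rfl
      simp at hg
    obtain ⟨S, _, hS, f, hf⟩ := sep_io hw
    refine ⟨S, inferInstance, hS, f, fun h => hf ?_⟩
    simp only [zpow_zero, mul_one, map_mul, map_inv] at h
    rwa [mul_assoc, inv_mul_eq_one, right_eq_mul] at h
  · obtain ⟨f, ha, hb, hc⟩ := exists_hom (W := Multiplicative ℤ) 1 (Multiplicative.ofAdd (-1))
      (Multiplicative.ofAdd 1) (by decide)
    have : f.comp io = 1 := by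
      apply FreeGroup.ext_hom
      intro i
      match i with
      | 0 => simp [io, gi, hb, hc]
      | 1 => simp [io, gi, hb, hc]
      | i + 2 => simp [io, gi, ha, hc]
    have h1 : f (io w) = 1 := DFunLike.congr_fun this w
    refine ⟨_, inferInstance, inferInstance, f, ?_⟩
    simp [h1, hc, ← ofAdd_zsmul, hk]

theorem resNil : ⨅ n, (⊤ : Subgroup G).lowerCentralSeries n = ⊥ := by
  rw [eq_bot_iff]
  intro g hg
  rw [Subgroup.mem_bot]
  by_contra h
  obtain ⟨S, _, hS, f, hf⟩ := sep h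
  obtain ⟨n, hn⟩ := Subgroup.nilpotent_iff_lowerCentralSeries.mp hS
  have h1 : f g ∈ ((⊤ : Subgroup G).lowerCentralSeries n).map f :=
    ⟨g, Subgroup.mem_iInf.mp hg n, rfl⟩
  rw [Subgroup.map_lowerCentralSeries] at h1
  have := Subgroup.lowerCentralSeries_mono n (le_top (a := (⊤ : Subgroup G).map f)) h1
  exact hf (hn.le this)

end Pool.Agent.H19.Baum
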