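import Mathlib
import Pool.Agent.H19.Baum

set_option autoImplicit false
set_option linter.unusedSectionVars false

namespace Pool.Agent.H19.Baum

open scoped commutatorElement

section para
variable {W V : Type} [Group W] [Group V]

def ww (x y A : W) : W := A ^ 2 * (A⁻¹ * x * y⁻¹) ^ 3 * y ^ 3

def Tt (x y A : W) : W := A * ww x y A

def sq' (x y : W) : ℕ → W
  | 0 => 1
  | k + 1 => Tt x y (sq' x y k)

lemma Tt_map (f : W →* V) (x y A : W) : f (Tt x y A) = Tt (f x) (f y) (f A) := by simp [Tt, ww]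

lemma sq_map (f : W →* V) (x y : W) (k : ℕ) : f (sq' x y k) = sq' (f x) (f y) k := by
  induction k with
  | zero => exact map_one f
  | succ k ih => rw [sq', Tt_map, ih, sq']

lemma Tt_central (x y A z : W) (hz : ∀ g, Commute z g) : Tt x y (A * z) = Tt x y A := by
  have h1 : (A * z)⁻¹ * x * y⁻¹ = z⁻¹ * (A⁻¹ * x * y⁻¹) := by group
  unfold Tt ww
  rw [h1, (hz _).inv_left.mul_pow, (hz A).symm.mul_pow]
  generalize A⁻¹ * x * y⁻¹ = B
  calc _ = A * (z * A ^ 2) * z⁻¹ * B ^ 3 * y ^ 3 := by group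
    _ = _ := by rw [(hz _).eq]; group

abbrev lcs (W : Type) [Group W] (n : ℕ) : Subgroup W := (⊤ : Subgroup W).lowerCentralSeries n

lemma Tt_congr (x y : W) {A A' : W} {k : ℕ} (h : A⁻¹ * A' ∈ lcs W k) :
    (Tt x y A)⁻¹ * Tt x y A' ∈ lcs W (k + 1) := by
  let π := QuotientGroup.mk' (lcs W (k + 1))
  have : π (Tt x y A) = π (Tt x y A') := by
    have e : π A' = π A * π (A⁻¹ * A') := by rw [← map_mul]; simp
    rw [Tt_map, Tt_map, e, Tt_central]
    intro g
    obtain ⟨g, rfl⟩ := QuotientGroup.mk'_surjective _ g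
    rw [← commutatorElement_eq_one_iff_commute, ← map_commutatorElement]
    exact (QuotientGroup.eq_one_iff _).mpr
      (Subgroup.commutator_mem_commutator h (Subgroup.mem_top g))
  exact QuotientGroup.eq.mp this

lemma sq_fix (x y A : W) (h : Tt x y A = A) (k : ℕ) : (sq' x y k)⁻¹ * A ∈ lcs W k := by
  induction k with
  | zero => exact Subgroup.mem_top _
  | succ k ih => exact h ▸ Tt_congr x y ih

lemma sq_ww (x y : W) (k : ℕ) : ww x y (sq' x y k) ∈ lcs W k := by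
  have : (sq' x y k)⁻¹ * sq' x y (k + 1) ∈ lcs W k := by
    induction k with
    | zero => exact Subgroup.mem_top _
    | succ k ih => exact Tt_congr x y ih
  simpa [sq', Tt] using this

lemma lcs_map (f : W →* V) (n : ℕ) {x : W} (h : x ∈ lcs W n) : f x ∈ lcs V n := by
  have h1 : f x ∈ (lcs W n).map f := ⟨x, h, rfl⟩
  rw [Subgroup.map_lowerCentralSeries] at h1
  exact Subgroup.lowerCentralSeries_mono n le_top h1

lemma lcs_quot (n : ℕ) : lcs (W ⧸ lcs W n) n = ⊥ := by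
  have := (⊤ : Subgroup W).map_lowerCentralSeries (QuotientGroup.mk' (lcs W n)) n
  rw [Subgroup.map_top_of_surjective _ (QuotientGroup.mk'_surjective _)] at this
  refine this.symm.trans ?_
  rw [Subgroup.map_eq_bot_iff, QuotientGroup.ker_mk']

end para

theorem parafree (n : ℕ) :
    Nonempty (G ⧸ lcs G n ≃* FreeGroup (Fin 2) ⧸ lcs (FreeGroup (Fin 2)) n) := by
  let j : FreeGroup (Fin 2) →* G := FreeGroup.lift ![a * b * c, c]
  have j0 : j (.of 0) = a * b * c := by simp [j]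
  have j1 : j (.of 1) = c := by simp [j]
  let φ := QuotientGroup.map (lcs _ n) (lcs G n) j fun x hx => lcs_map j n hx
  let π := QuotientGroup.mk' (lcs (FreeGroup (Fin 2)) n)
  let π' := QuotientGroup.mk' (lcs G n)
  have hφ : ∀ x, φ (π x) = π' (j x) := fun _ => rfl
  let A : FreeGroup (Fin 2) := sq' (.of 0) (.of 1) n
  obtain ⟨ρ, ha, hb, hc⟩ := exists_hom (π A) (π (A⁻¹ * .of 0 * (FreeGroup.of 1)⁻¹)) (π (.of 1)) (by
    rw [← map_pow, ← map_pow, ← map_pow, ← map_mul, ← map_mul]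
    exact (QuotientGroup.eq_one_iff _).mpr (sq_ww _ _ n))
  have hρ : ρ.comp j = π := by
    apply FreeGroup.ext_hom
    intro i
    fin_cases i
    · change ρ (j (.of 0)) = π (.of 0)
      rw [j0, map_mul, map_mul, ha, hb, hc, ← map_mul, ← map_mul]
      congr 1
      group
    · change ρ (j (.of 1)) = π (.of 1)
      rw [j1, hc]
  refine ⟨(MulEquiv.ofBijective φ ⟨?_, ?_⟩).symm⟩
  · rw [injective_iff_map_eq_one]
    intro x hx
    obtain ⟨x, rfl⟩ := QuotientGroup.mk'_surjective _ x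
    have h1 := lcs_map ρ n ((QuotientGroup.eq_one_iff _).mp ((hφ x).symm.trans hx))
    rw [lcs_quot, Subgroup.mem_bot] at h1
    exact (DFunLike.congr_fun hρ x).symm.trans h1
  · have hA : π' (j A) = π' a := by
      apply QuotientGroup.eq.mpr
      rw [sq_map, j0, j1]
      apply sq_fix
      have : a⁻¹ * (a * b * c) * c⁻¹ = b := by group
      rw [Tt, ww, this, hrel, mul_one]
    have h1 : a ∈ φ.range.comap π' := ⟨π A, (hφ A).trans hA⟩
    have h3 : c ∈ φ.range.comap π' := ⟨π (.of 1), by rw [hφ, j1]⟩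
    have h4 : a * b * c ∈ φ.range.comap π' := ⟨π (.of 0), by rw [hφ, j0]⟩
    have h2 : b ∈ φ.range.comap π' := by
      convert mul_mem (mul_mem (inv_mem h1) h4) (inv_mem h3) using 1
      group
    intro y
    obtain ⟨g, rfl⟩ := QuotientGroup.mk'_surjective _ y
    exact gen _ h1 h2 h3 g

/-! ### the Kaloujnine–Krasner map -/

section KK
variable {Γ Q : Type} [Group Γ] [Group Q]

lemma of_eq_one {N : Subgroup Γ} (n : N) : Abelianization.of n = 1 ↔ (n : Γ) ∈ ⁅N, N⁆ := by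
  rw [← Subgroup.map_subtype_commutator]
  constructor
  · intro h
    exact ⟨n, (QuotientGroup.eq_one_iff _).mp h, rfl⟩
  · rintro ⟨m, hm, h⟩
    obtain rfl : m = n := Subtype.ext h
    exact (QuotientGroup.eq_one_iff _).mpr hm

lemma exists_kappa (χ : Γ →* Q) (hχ : Function.Surjective χ) :
    ∃ κ : Γ →* Abelianization χ.ker ≀ᵣ Q, (∀ g, (κ g).right = χ g) ∧
      ∀ n : χ.ker, (κ n).left 1 = Abelianization.of n := by
  obtain ⟨s, hs, h1⟩ : ∃ s : Q → Γ, (∀ x, χ (s x) = x) ∧ s 1 = 1 := by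
    choose s hs using hχ
    exact ⟨fun x => s x * (s 1)⁻¹, fun x => by simp [hs], by simp⟩
  have hm : ∀ g x, (s x)⁻¹ * g * s ((χ g)⁻¹ * x) ∈ χ.ker := fun g x => by
    simp [MonoidHom.mem_ker, hs]
  refine ⟨MonoidHom.mk' (fun g => ⟨fun x => Abelianization.of ⟨_, hm g x⟩, χ g⟩) ?_,
    fun _ => rfl, ?_⟩
  · intro g h
    ext x
    · simp only [RegularWreathProduct.mul_left, Pi.mul_apply, ← map_mul]
      congr 1
      ext
      simp [mul_assoc]
    · simp
  · intro n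
    change Abelianization.of _ = _
    congr 1
    ext
    have : χ n = 1 := n.2
    simp [this, h1]

lemma kill {D : Type} [CommGroup D] (δ : Γ →* D ≀ᵣ Q) (N : Subgroup Γ)
    (h : ∀ n ∈ N, (δ n).right = 1) : ⁅N, N⁆ ≤ δ.ker := by
  rw [Subgroup.commutator_le]
  intro x hx y hy
  rw [MonoidHom.mem_ker, map_commutatorElement, commutatorElement_eq_one_iff_mul_comm]
  ext z
  · simp [h x hx, h y hy, mul_comm]
  · simp [h x hx, h y hy]

lemma mem_comm {χ : Γ →* Q} {κ : Γ →* Abelianization χ.ker ≀ᵣ Q} (h1 : ∀ g, (κ g).right = χ g)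
    (h2 : ∀ n : χ.ker, (κ n).left 1 = Abelianization.of n) {g : Γ} (hg : κ g = 1) :
    g ∈ ⁅χ.ker, χ.ker⁆ := by
  have hN : g ∈ χ.ker := by rw [MonoidHom.mem_ker, ← h1, hg]; rfl
  refine (of_eq_one ⟨g, hN⟩).mp ?_
  rw [← h2]
  simp [hg]

def mapW {D E : Type} [Group D] [Group E] (μ : D →* E) : D ≀ᵣ Q →* E ≀ᵣ Q :=
  MonoidHom.mk' (fun x => ⟨fun q => μ (x.left q), x.right⟩) fun x y => by ext <;> simp

def S3 {D : Type} [Group D] (q : Q) (β : Q → D) (y : Q) : D :=
  β y * β (q⁻¹ * y) * β (q⁻¹ * (q⁻¹ * y))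

def Rel {D : Type} [Group D] (p q r : Q) (α β γ : Q → D) : Prop :=
  ∀ x, α x * α (p⁻¹ * x) * S3 q β (p⁻¹ * (p⁻¹ * x)) *
    S3 r γ (q⁻¹ * (q⁻¹ * (q⁻¹ * (p⁻¹ * (p⁻¹ * x))))) = 1

lemma rel_iff {D : Type} [Group D] {p q r : Q} (h : p ^ 2 * q ^ 3 * r ^ 3 = 1) (α β γ : Q → D) :
    (⟨α, p⟩ : D ≀ᵣ Q) ^ 2 * ⟨β, q⟩ ^ 3 * ⟨γ, r⟩ ^ 3 = 1 ↔ Rel p q r α β γ := by
  rw [RegularWreathProduct.ext_iff, funext_iff]
  simp only [pow_succ, pow_zero, one_mul] at h
  simp [Rel, S3, pow_succ, h]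
  simp [mul_assoc]

lemma free_cover (A : Type) [CommGroup A] : ∃ (L : Type) (_ : CommGroup L) (μ : L →* A),
    Function.Surjective μ ∧ ∀ x : L, IsOfFinOrder x → x = 1 := by
  refine ⟨Multiplicative (FreeAbelianGroup A), inferInstance,
    AddMonoidHom.toMultiplicativeLeft (FreeAbelianGroup.lift Additive.ofMul), fun x =>
      ⟨Multiplicative.ofAdd (FreeAbelianGroup.of x), by simp⟩, fun x hx => ?_⟩
  obtain ⟨n, hn, h⟩ := isOfFinOrder_iff_pow_eq_one.mp hx
  have h1 : (n : ℤ) • x.toAdd = 0 := by simpa using congrArg Multiplicative.toAdd h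
  have := (smul_eq_zero.mp h1).resolve_left (by omega)
  simpa using this

end KK

theorem TF {Q : Type} [Group Q] (χ : G →* Q) (hχ : Function.Surjective χ)
    (hl : ∀ (A L : Type) [CommGroup A] [CommGroup L] (μ : L →* A), Function.Surjective μ →
      ∀ α β γ : Q → A, Rel (χ a) (χ b) (χ c) α β γ → ∃ α' β' γ' : Q → L,
        Rel (χ a) (χ b) (χ c) α' β' γ' ∧ (∀ x, μ (α' x) = α x) ∧ (∀ x, μ (β' x) = β x) ∧
          ∀ x, μ (γ' x) = γ x) (x : Abelianization χ.ker) (hx : IsOfFinOrder x) : x = 1 := by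
  obtain ⟨κ, h1, h2⟩ := exists_kappa χ hχ
  obtain ⟨L, _, μ, hμ, hL⟩ := free_cover (Abelianization χ.ker)
  have hq : χ a ^ 2 * χ b ^ 3 * χ c ^ 3 = 1 := by simpa using congrArg χ hrel
  have e : ∀ g, κ g = ⟨(κ g).left, χ g⟩ := fun g => by rw [← h1]
  obtain ⟨α, β, γ, hr, ha, hb, hc⟩ := hl _ L μ hμ (κ a).left (κ b).left (κ c).left (by
    rw [← rel_iff hq, ← e, ← e, ← e]
    simpa using congrArg κ hrel)
  obtain ⟨δ, da, db, dc⟩ := exists_hom _ _ _ ((rel_iff hq α β γ).mpr hr)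
  have hδ : (mapW μ).comp δ = κ := by
    apply hom_ext
    · rw [e, MonoidHom.comp_apply, da]; ext <;> simp [mapW, ha]
    · rw [e, MonoidHom.comp_apply, db]; ext <;> simp [mapW, hb]
    · rw [e, MonoidHom.comp_apply, dc]; ext <;> simp [mapW, hc]
  have hright : ∀ g, (δ g).right = χ g := fun g => by rw [← h1, ← hδ]; rfl
  obtain ⟨n, rfl⟩ : ∃ n, Abelianization.of n = x := QuotientGroup.mk_surjective x
  obtain ⟨k, hk, h⟩ := isOfFinOrder_iff_pow_eq_one.mp hx
  rw [← map_pow, of_eq_one] at h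
  have h3 : δ n ^ k = 1 := by
    have := kill δ χ.ker (fun n hn => (hright n).trans hn) h
    rwa [MonoidHom.mem_ker, Subgroup.coe_pow, map_pow] at this
  have h4 : δ n = inb (δ n).left := RegularWreathProduct.ext rfl ((hright n).trans n.2)
  rw [h4, ← map_pow] at h3
  have h5 : (δ n).left 1 = 1 := hL _ (isOfFinOrder_iff_pow_eq_one.mpr
    ⟨k, hk, congrFun (congrArg RegularWreathProduct.left h3) 1⟩)
  rw [← h2, ← hδ]
  change μ ((δ n).left 1) = 1
  rw [h5, map_one]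

end Pool.Agent.H19.Baum
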