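import Mathlib
import Pool.Agent.H19.Baum2

set_option autoImplicit false
set_option linter.unusedSectionVars false

namespace Pool.Agent.H19.Baum

open DihedralGroup Multiplicative

lemma cube {D Q : Type} [CommGroup D] [Group Q] (x y : D ≀ᵣ Q) (h : x.right = y.right)
    (h3 : y.right ^ 3 = 1) : (x * y) ^ 3 = x ^ 3 * y ^ 3 := by
  obtain ⟨f, p⟩ := x
  obtain ⟨g, q⟩ := y
  obtain rfl : p = q := h
  have h4 : ∀ z, p⁻¹ * (p⁻¹ * (p⁻¹ * z)) = z := fun z => by
    have : p⁻¹ ^ 3 = 1 := by rw [inv_pow]; exact inv_eq_one.mpr h3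
    rw [← mul_assoc, ← mul_assoc, ← pow_three', this, one_mul]
  ext z
  · simp only [pow_succ, pow_zero, one_mul, RegularWreathProduct.mul_left,
      RegularWreathProduct.mul_right, Pi.mul_apply, mul_inv_rev, mul_assoc, h4]
    simp only [mul_comm, mul_left_comm]
  · simp [pow_succ, mul_assoc]

lemma lift1 (A L : Type) [CommGroup A] [CommGroup L] (μ : L →* A) (hμ : Function.Surjective μ)
    (α β γ : DihedralGroup 3 → A) (h : Rel (sr 0) (r 1) (r 1) α β γ) :
    ∃ α' β' γ' : DihedralGroup 3 → L, Rel (sr 0) (r 1) (r 1) α' β' γ' ∧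
      (∀ x, μ (α' x) = α x) ∧ (∀ x, μ (β' x) = β x) ∧ ∀ x, μ (γ' x) = γ x := by
  have key : ∀ {D : Type} [CommGroup D] (α β γ : DihedralGroup 3 → D),
      Rel (sr 0) (r 1) (r 1) α β γ ↔
      (∀ i, α (r i) * α (sr i) * (β (r 0) * β (r 1) * β (r 2)) *
        (γ (r 0) * γ (r 1) * γ (r 2)) = 1) ∧
      (∀ i, α (r i) * α (sr i) * (β (sr 0) * β (sr 1) * β (sr 2)) *
        (γ (sr 0) * γ (sr 1) * γ (sr 2)) = 1) := by
    intro D _ α β γ
    have e1 : ∀ x : DihedralGroup 3, (sr 0)⁻¹ * ((sr 0)⁻¹ * x) = x := by decide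
    have e2 : ∀ x : DihedralGroup 3, (r 1)⁻¹ * ((r 1)⁻¹ * ((r 1)⁻¹ * x)) = x := by decide
    have e3 : ∀ i : ZMod 3, i = 0 ∨ i = 1 ∨ i = 2 := by decide
    have e4 : ∀ (f : DihedralGroup 3 → D) i, S3 (r 1) f (r i) = f (r 0) * f (r 1) * f (r 2) := by
      intro f i
      rcases e3 i with rfl | rfl | rfl
      · change f (r 0) * f (r 2) * f (r 1) = _; ac_rfl
      · change f (r 1) * f (r 0) * f (r 2) = _; ac_rfl
      · change f (r 2) * f (r 1) * f (r 0) = _; ac_rfl
    have e5 : ∀ (f : DihedralGroup 3 → D) i,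
        S3 (r 1) f (sr i) = f (sr 0) * f (sr 1) * f (sr 2) := by
      intro f i
      rcases e3 i with rfl | rfl | rfl
      · rfl
      · change f (sr 1) * f (sr 2) * f (sr 0) = _; ac_rfl
      · change f (sr 2) * f (sr 0) * f (sr 1) = _; ac_rfl
    have e6 : ∀ i : ZMod 3, (sr 0 : DihedralGroup 3)⁻¹ * r i = sr i := by decide
    have e7 : ∀ i : ZMod 3, (sr 0 : DihedralGroup 3)⁻¹ * sr i = r i := by decide
    simp only [Rel, e1, e2]
    constructor
    · intro h
      exact ⟨fun i => by rw [← h (r i), e4, e4, e6],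
        fun i => by rw [← h (sr i), e5, e5, e7, mul_comm (α (r i))]⟩
    · rintro ⟨h1, h2⟩ (i | i)
      · rw [e4, e4, e6, h1]
      · rw [e5, e5, e7, mul_comm (α (sr i)), h2]
  obtain ⟨h1, h2⟩ := (key α β γ).mp h
  choose s hs using hμ
  let S := (s (β (r 0)) * s (β (r 1)) * s (β (r 2))) * (s (γ (r 0)) * s (γ (r 1)) * s (γ (r 2)))
  let T := (s (β (sr 0)) * s (β (sr 1)) * s (β (sr 2))) * (s (γ (sr 1)) * s (γ (sr 2)))
  refine ⟨fun x => match x with
      | r i => s (α (r i))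
      | sr i => (s (α (r i)) * S)⁻¹, fun x => s (β x),
    fun x => if x = sr 0 then S * T⁻¹ else s (γ x), ?_, ?_, fun x => hs _, ?_⟩
  · rw [key]
    have : ((1 : ZMod 3) ≠ 0) ∧ ((2 : ZMod 3) ≠ 0) := by decide
    simp only [reduceCtorEq, if_false, if_true, sr.injEq, this]
    constructor
    · intro i
      rw [mul_assoc (_ * _)]
      change _ * S = 1
      simp
    · intro i
      have : ∀ x y z w : L, x * (x * S)⁻¹ * y * (S * (y * (z * w))⁻¹ * z * w) = 1 := by
        intros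
        apply Additive.ofMul.injective
        simp only [ofMul_mul, ofMul_inv, ofMul_one]
        abel
      exact this _ _ _ _
  · rintro (i | i)
    · exact hs _
    · simp only [S, map_inv, map_mul, hs]
      rw [inv_eq_iff_mul_eq_one, ← h1 i]
      ac_rfl
  · intro x
    dsimp only
    split_ifs with hx
    · simp only [S, T, map_inv, map_mul, hs, hx]
      rw [mul_inv_eq_iff_eq_mul]
      apply mul_left_cancel (a := α (r 0) * α (sr 0))
      rw [← mul_assoc, h1, ← h2 0]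
      ac_rfl
    · exact hs _

theorem Q1 : ∃ (N : Subgroup G) (_ : N.Normal),
    (∀ x : Abelianization N, IsOfFinOrder x → x = 1) ∧
      ∃ g : G ⧸ ⁅N, N⁆, g ≠ 1 ∧ IsOfFinOrder g := by
  obtain ⟨χ, ha, hb, hc⟩ := exists_hom (W := DihedralGroup 3) (sr 0) (r 1) (r 1) (by decide)
  have hχ : Function.Surjective χ := by
    have : ∀ q : DihedralGroup 3, q = 1 ∨ q = r 1 ∨ q = r 1 * r 1 ∨ q = sr 0 ∨ q = sr 0 * r 1 ∨
      q = sr 0 * r 1 * r 1 := by decide
    intro q
    rcases this q with rfl | rfl | rfl | rfl | rfl | rfl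
    exacts [⟨1, map_one χ⟩, ⟨b, hb⟩, ⟨b * b, by rw [map_mul, hb]⟩, ⟨a, ha⟩,
      ⟨a * b, by rw [map_mul, ha, hb]⟩, ⟨a * b * b, by rw [map_mul, map_mul, ha, hb]⟩]
  refine ⟨χ.ker, inferInstance, TF χ hχ (by rw [ha, hb, hc]; exact lift1), ?_⟩
  obtain ⟨κ, h1, h2⟩ := exists_kappa χ hχ
  refine ⟨QuotientGroup.mk (b * c * (a * (b * c)⁻¹ * a⁻¹)), fun h => ?_,
    isOfFinOrder_iff_pow_eq_one.mpr ⟨3, by norm_num, ?_⟩⟩
  · have := Subgroup.commutator_le_left _ _ ((QuotientGroup.eq_one_iff _).mp h)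
    rw [MonoidHom.mem_ker] at this
    simp only [map_mul, map_inv, ha, hb, hc] at this
    revert this
    decide
  · rw [← QuotientGroup.mk_pow, QuotientGroup.eq_one_iff]
    apply mem_comm h1 h2
    have e1 : κ (b * c) ^ 3 = (κ a ^ 2)⁻¹ := by
      rw [map_mul, cube _ _ (by rw [h1, h1, hb, hc]) (by rw [h1, hc]; decide),
        eq_comm, inv_eq_iff_mul_eq_one, ← mul_assoc]
      simpa using congrArg κ hrel
    rw [map_pow, map_mul, cube]
    · generalize b * c = g at e1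
      rw [map_mul, map_mul, map_inv, map_inv, conj_pow, inv_pow, e1]
      group
    · rw [h1, h1]; simp only [map_mul, map_inv, ha, hb, hc]; decide
    · rw [h1]; simp only [map_mul, map_inv, ha, hb, hc]; decide

lemma solve {K : Type} [CommGroup K] (d : ℤ → K) : ∃ e : ℤ → K, ∀ x, e x * e (x - 3) = d x := by
  let f : Equiv.Perm (ℤ × K) :=
    { toFun := fun p => (p.1 + 3, d (p.1 + 3) * p.2⁻¹)
      invFun := fun p => (p.1 - 3, p.2⁻¹ * d p.1)
      left_inv := fun p => by simp [mul_comm]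
      right_inv := fun p => by simp }
  have h1 : ∀ (k : ℤ) (p : ℤ × K), ((f ^ k) p).1 = p.1 + 3 * k := by
    intro k p
    induction k using Int.induction_on with
    | zero => simp
    | succ k ih =>
      rw [add_comm (k : ℤ), zpow_one_add, Equiv.Perm.mul_apply]
      change ((f ^ (k : ℤ)) p).1 + 3 = _
      rw [ih]; ring
    | pred k ih =>
      rw [sub_eq_neg_add, zpow_add, zpow_neg_one, Equiv.Perm.mul_apply]
      change ((f ^ (-k : ℤ)) p).1 - 3 = _
      rw [ih]; ring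
  refine ⟨fun x => ((f ^ (x / 3)) (x % 3, 1)).2, fun x => ?_⟩
  have e1 : x / 3 = 1 + (x - 3) / 3 := by omega
  have e2 : (x - 3) % 3 = x % 3 := by omega
  simp only [e2]
  rw [e1, zpow_one_add, Equiv.Perm.mul_apply]
  change d (((f ^ ((x - 3) / 3)) (x % 3, 1)).1 + 3) * _⁻¹ * _ = _
  rw [h1, inv_mul_cancel_right]
  congr 1
  simp only
  omega

lemma lift2 (q r : Multiplicative ℤ) (A L : Type) [CommGroup A] [CommGroup L] (μ : L →* A)
    (hμ : Function.Surjective μ)
    (α β γ : Multiplicative ℤ → A) (h : Rel (ofAdd 3) q r α β γ) :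
    ∃ α' β' γ' : Multiplicative ℤ → L, Rel (ofAdd 3) q r α' β' γ' ∧
      (∀ x, μ (α' x) = α x) ∧ (∀ x, μ (β' x) = β x) ∧ ∀ x, μ (γ' x) = γ x := by
  choose s hs using hμ
  let p : Multiplicative ℤ := ofAdd 3
  let d : Multiplicative ℤ → L := fun x => s (α x) * s (α (p⁻¹ * x)) *
    S3 q (fun x => s (β x)) (p⁻¹ * (p⁻¹ * x)) *
    S3 r (fun x => s (γ x)) (q⁻¹ * (q⁻¹ * (q⁻¹ * (p⁻¹ * (p⁻¹ * x)))))
  have hd : ∀ x, d x ∈ μ.ker := fun x => by
    rw [MonoidHom.mem_ker, ← h x]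
    simp only [d, S3, map_mul, hs, p]
  obtain ⟨e, he⟩ := solve (K := μ.ker) fun x => ⟨d (ofAdd x), hd _⟩
  refine ⟨fun x => s (α x) * (e x.toAdd : L)⁻¹, fun x => s (β x), fun x => s (γ x), fun x => ?_,
    fun x => ?_, fun x => hs _, fun x => hs _⟩
  · have h1 : (e x.toAdd : L) * e (p⁻¹ * x).toAdd = d x := by
      have := congrArg Subtype.val (he x.toAdd)
      rwa [show x.toAdd - 3 = (p⁻¹ * x).toAdd by simp [p]; ring] at this
    have : ∀ x y z w u v : L, x * u⁻¹ * (y * v⁻¹) * z * w = (x * y * z * w) * (u * v)⁻¹ := by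
      intros
      apply Additive.ofMul.injective
      simp only [ofMul_mul, ofMul_inv]
      abel
    rw [this, h1]
    exact mul_inv_cancel _
  · have : μ (e x.toAdd) = 1 := (e x.toAdd).2
    simp [hs, this]

lemma cube2 {D : Type} [CommGroup D] (x y : D ≀ᵣ Multiplicative ℤ) (hx : x.right = ofAdd 2)
    (hy : y.right = ofAdd (-4)) : (y⁻¹ * x * y * y) ^ 3 = x ^ 3 * y ^ 3 := by
  obtain ⟨f, p⟩ := x
  obtain ⟨g, q⟩ := y
  obtain rfl : p = _ := hx
  obtain rfl : q = _ := hy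
  ext z
  · obtain ⟨z, rfl⟩ := ofAdd.surjective z
    simp only [pow_succ, pow_zero, one_mul, RegularWreathProduct.mul_left,
      RegularWreathProduct.mul_right, RegularWreathProduct.inv_left,
      RegularWreathProduct.inv_right, Pi.mul_apply, Pi.inv_apply, ← ofAdd_neg, ← ofAdd_add]
    ring_nf
    apply Additive.ofMul.injective
    simp only [ofMul_mul, ofMul_inv]
    abel
  · simp only [pow_succ, pow_zero, one_mul, RegularWreathProduct.mul_right,
      RegularWreathProduct.inv_right]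
    rfl

theorem Q2 : ∃ (N : Subgroup G) (_ : N.Normal),
    (∀ x : Abelianization N, IsOfFinOrder x → x = 1) ∧
      (∀ x : G ⧸ N, IsOfFinOrder x → x = 1) ∧
      ∃ (x y : G ⧸ ⁅N, N⁆) (n : ℕ), 1 ≤ n ∧ x ^ n = y ^ n ∧ x ≠ y := by
  obtain ⟨χ, ha, hb, hc⟩ := exists_hom (W := Multiplicative ℤ) (ofAdd 3) (ofAdd 2) (ofAdd (-4))
    (by decide)
  have hχ : Function.Surjective χ := fun q => ⟨(a * b⁻¹) ^ q.toAdd, by
    rw [map_zpow, map_mul, map_inv, ha, hb, ← ofAdd_neg, ← ofAdd_add, ← ofAdd_zsmul]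
    simp⟩
  refine ⟨χ.ker, inferInstance, TF χ hχ (by rw [ha]; exact lift2 _ _), fun x hx => ?_, ?_⟩
  · apply QuotientGroup.kerLift_injective χ
    rw [map_one]
    exact ((QuotientGroup.kerLift χ).isOfFinOrder hx).eq_one'
  obtain ⟨κ, h1, h2⟩ := exists_kappa χ hχ
  refine ⟨QuotientGroup.mk ((c⁻¹ * b * c * c) * a * (c⁻¹ * b * c * c)⁻¹), QuotientGroup.mk a, 2,
    by norm_num, ?_, fun h => ?_⟩
  · rw [← QuotientGroup.mk_pow, ← QuotientGroup.mk_pow, QuotientGroup.eq]
    apply mem_comm h1 h2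
    have e1 : κ a ^ 2 = (κ (c⁻¹ * b * c * c) ^ 3)⁻¹ := by
      simp only [map_mul, map_inv]
      rw [cube2 _ _ (by rw [h1, hb]) (by rw [h1, hc]), eq_inv_iff_mul_eq_one, ← mul_assoc]
      simpa using congrArg κ hrel
    generalize c⁻¹ * b * c * c = g at e1
    rw [conj_pow]
    simp only [map_mul, map_inv, map_pow, e1]
    group
  · obtain ⟨δ, da, db, dc⟩ := exists_hom (W := ℤˣ ≀ᵣ Multiplicative ℤ)
      ⟨fun x => if x.toAdd % 3 = 0 then -1 else 1, ofAdd 3⟩ ⟨1, ofAdd 2⟩ ⟨1, ofAdd (-4)⟩ (by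
        rw [rel_iff (by decide)]
        intro x
        have : (-3 + x.toAdd) % 3 = x.toAdd % 3 := by omega
        simp only [S3, Pi.one_apply, mul_one, toAdd_mul, toAdd_inv, toAdd_ofAdd, this]
        split_ifs <;> rfl)
    have h3 : RegularWreathProduct.rightHom.comp δ = χ := by
      apply hom_ext
      · rw [MonoidHom.comp_apply, da, ha]; rfl
      · rw [MonoidHom.comp_apply, db, hb]; rfl
      · rw [MonoidHom.comp_apply, dc, hc]; rfl
    have h4 := kill δ χ.ker (fun n hn => (DFunLike.congr_fun h3 n).trans hn)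
      (QuotientGroup.eq.mp h)
    rw [MonoidHom.mem_ker, map_mul, map_inv, inv_mul_eq_one] at h4
    simp only [map_mul, map_inv, da, db, dc] at h4
    have h5 := congrFun (congrArg RegularWreathProduct.left h4) 1
    revert h5
    decide

end Pool.Agent.H19.Baum
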