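import Mathlib

set_option autoImplicit false
set_option linter.unusedSectionVars false

namespace Pool.Agent.H19.Bdry

open MeasureTheory Filter Topology Set

variable {α : Type} [Fintype α] [DecidableEq α] [TopologicalSpace α] [DiscreteTopology α]

def inv (t : α × Bool) : α × Bool := (t.1, !t.2)

@[simp] theorem inv_inv (t : α × Bool) : inv (inv t) = t := by simp [inv]
theorem inv_ne (t : α × Bool) : t ≠ inv t := by
  intro h; have := congrArg Prod.snd h; simp [inv] at this

def Bd (α : Type) : Type := {x : ℕ → α × Bool // ∀ n, x (n + 1) ≠ inv (x n)}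

instance : TopologicalSpace (Bd α) := instTopologicalSpaceSubtype
instance : T2Space (Bd α) := inferInstanceAs (T2Space (Subtype _))
instance : SecondCountableTopology (Bd α) :=
  TopologicalSpace.Subtype.secondCountableTopology {x : ℕ → α × Bool | ∀ n, x (n + 1) ≠ inv (x n)}

theorem cont_coord (n : ℕ) : Continuous fun x : Bd α => x.1 n :=
  (continuous_apply n).comp continuous_subtype_val

instance : CompactSpace (Bd α) := by
  refine isCompact_iff_compactSpace.1 (IsClosed.isCompact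
    (s := {x : ℕ → α × Bool | ∀ n, x (n + 1) ≠ inv (x n)}) ?_)
  have : {x : ℕ → α × Bool | ∀ n, x (n + 1) ≠ inv (x n)} =
      ⋂ n, (fun x : ℕ → α × Bool => (x (n + 1), x n)) ⁻¹' {p | p.1 ≠ inv p.2} := by
    ext x; simp
  exact this ▸ isClosed_iInter fun n => (isClosed_discrete _).preimage (by fun_prop)

def const (t : α × Bool) : Bd α := ⟨fun _ => t, fun _ => inv_ne t⟩

def actF (t : α × Bool) (x : Bd α) : Bd α :=
  ⟨fun n => if x.1 0 = inv t then x.1 (n + 1) else Nat.casesOn n t x.1, by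
    intro n
    split_ifs with h
    · exact x.2 _
    · cases n with
      | zero => exact h
      | succ n => exact x.2 n⟩

theorem actF_inv (t : α × Bool) (x : Bd α) : actF (inv t) (actF t x) = x := by
  refine Subtype.ext (funext fun n => ?_)
  by_cases h : x.1 0 = inv t
  · have h1 : x.1 1 ≠ t := by have := x.2 0; rwa [h, inv_inv] at this
    simp only [actF, h, if_true, inv_inv, zero_add, h1, if_false]
    cases n with
    | zero => exact h.symm
    | succ n => rfl
  · simp [actF, h]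

theorem actF_cont (t : α × Bool) : Continuous (actF t) := by
  refine Continuous.subtype_mk (continuous_pi fun n => ?_) _
  refine Continuous.if ?_ (cont_coord _) ?_
  · intro x hx
    have : IsClopen {x : Bd α | x.1 0 = inv t} :=
      (isClopen_discrete {inv t}).preimage (cont_coord 0)
    rw [this.frontier_eq] at hx; exact hx.elim
  · cases n with
    | zero => exact continuous_const
    | succ n => exact cont_coord n

def act (t : α × Bool) : Bd α ≃ₜ Bd α where
  toFun := actF t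
  invFun := actF (inv t)
  left_inv := actF_inv t
  right_inv x := by have := actF_inv (inv t) x; rwa [inv_inv] at this
  continuous_toFun := actF_cont t
  continuous_invFun := actF_cont _

theorem act_inv (t : α × Bool) : act (inv t) = (act t)⁻¹ := Homeomorph.ext fun _ => rfl

theorem act_zero {t : α × Bool} {x : Bd α} (h : x.1 0 ≠ inv t) : (act t x).1 0 = t := by
  simp [act, actF, h]

theorem act_succ {t : α × Bool} {x : Bd α} (h : x.1 0 ≠ inv t) (n : ℕ) :
    (act t x).1 (n + 1) = x.1 n := by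
  simp [act, actF, h]

theorem act_back {t : α × Bool} {x : Bd α} (h : x.1 0 = t) : (act (inv t) x).1 0 ≠ inv t := by
  have := x.2 0
  simpa [act, actF, h] using this

def ρ : FreeGroup α →* (Bd α ≃ₜ Bd α) := FreeGroup.lift fun a => act (a, true)

theorem ρ_mk (t : α × Bool) : ρ (FreeGroup.mk [t]) = act t := by
  obtain ⟨a, b⟩ := t
  cases b
  · rw [show (a, false) = inv (a, true) from rfl, act_inv]; simp [ρ, inv]
  · simp [ρ]

theorem basis_aux (n : ℕ) : ∀ x : Bd α, ∃ g : FreeGroup α, ∀ y : Bd α, y.1 0 = x.1 n →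
    ∀ i ≤ n, (ρ g y).1 i = x.1 i := by
  induction n with
  | zero => exact fun x => ⟨1, fun y h i hi => by obtain rfl : i = 0 := by omega
                                                  simpa using h⟩
  | succ n ih =>
    intro x
    obtain ⟨g, hg⟩ := ih ⟨fun i => x.1 (i + 1), fun i => x.2 _⟩
    refine ⟨FreeGroup.mk [x.1 0] * g, fun y h i hi => ?_⟩
    have h0 : (ρ g y).1 0 ≠ inv (x.1 0) := by rw [hg y h 0 (by omega)]; exact x.2 0
    rw [map_mul, ρ_mk, Homeomorph.mul_apply]
    cases i with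
    | zero => exact act_zero h0
    | succ i => rw [act_succ h0, hg y h i (by omega)]

theorem basis {x : Bd α} {O : Set (Bd α)} (hO : O ∈ 𝓝 x) :
    ∃ (g : FreeGroup α) (t : α × Bool), ∀ y : Bd α, y.1 0 = t → ρ g y ∈ O := by
  obtain ⟨O', h1, h2⟩ := (mem_nhds_subtype _ _ _).1 hO
  rw [nhds_pi, Filter.mem_pi] at h1
  obtain ⟨I, hI, s, hs, h3⟩ := h1
  obtain ⟨n, hn⟩ := hI.bddAbove
  obtain ⟨g, hg⟩ := basis_aux n x
  refine ⟨g, x.1 n, fun y h => h2 (h3 fun i hi => ?_)⟩
  rw [hg y h i (hn hi)]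
  exact mem_of_mem_nhds (hs i)

theorem epow (e : α × Bool) (m : ℕ) {x : Bd α} (h : x.1 0 ≠ inv e) :
    (ρ (FreeGroup.mk [e] ^ (m + 1)) x).1 0 = e := by
  induction m with
  | zero => rw [zero_add, pow_one, ρ_mk]; exact act_zero h
  | succ m ih =>
    rw [pow_succ', map_mul, ρ_mk, Homeomorph.mul_apply]
    exact act_zero (by rw [ih]; exact inv_ne e)

theorem contract {a c : α} (hac : a ≠ c) {Ω : Type} [TopologicalSpace Ω] [MeasurableSpace Ω]
    [OpensMeasurableSpace Ω] (μ : Measure Ω) [IsFiniteMeasure μ] {f : Ω → Bd α}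
    (hf : Continuous f) {x : Bd α} {O : Set (Bd α)} (hO : O ∈ 𝓝 x) {ε : ENNReal} (hε : 0 < ε) :
    ∃ p : FreeGroup α, μ {z | ρ (p * FreeGroup.of c * p⁻¹) (f z) ∉ O} < ε := by
  obtain ⟨g, t, hg⟩ := basis hO
  obtain ⟨e, he, het⟩ : ∃ e : α × Bool, e.1 = a ∧ e ≠ inv t := by
    by_cases h : (a, true) = inv t
    · exact ⟨(a, false), rfl, fun h' => by simpa using h.trans h'.symm⟩
    · exact ⟨(a, true), rfl, h⟩
  have hc : ∀ b, (c, b) ≠ inv e := fun b h => hac (he.symm.trans (congrArg Prod.fst h).symm)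
  let p : ℕ → FreeGroup α := fun j => g * FreeGroup.mk [t] * FreeGroup.mk [e] ^ (j + 1)
  let Z : ℕ → Set Ω := fun j => {z | (ρ (p j)⁻¹ (f z)).1 0 = (c, false)}
  have hZ : ∀ j, MeasurableSet (Z j) := fun j => ((isOpen_discrete {(c, false)}).preimage
    ((cont_coord 0).comp ((ρ (p j)⁻¹).continuous.comp hf))).measurableSet
  have hd : Pairwise (Function.onFun Disjoint Z) := by
    refine (pairwise_disjoint_on Z).2 fun j k hjk => ?_
    refine Set.disjoint_left.2 fun z h1 h2 => ?_
    obtain ⟨m, rfl⟩ := Nat.exists_eq_add_of_lt hjk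
    have h2' : (ρ (p (j + m + 1))⁻¹ (f z)).1 0 = (c, false) := h2
    have h3 := epow e m (x := ρ (p (j + m + 1))⁻¹ (f z)) (by rw [h2']; exact hc _)
    rw [← Homeomorph.mul_apply, ← map_mul,
      show FreeGroup.mk [e] ^ (m + 1) * (p (j + m + 1))⁻¹ = (p j)⁻¹ by simp only [p]; group] at h3
    exact hac (he.symm.trans (congrArg Prod.fst (h3.symm.trans h1)))
  have ht : Tendsto (fun j => μ (Z j)) atTop (𝓝 0) :=
    ENNReal.tendsto_atTop_zero_of_tsum_ne_top (by
      rw [← measure_iUnion hd hZ]; exact measure_ne_top _ _)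
  obtain ⟨j, hj⟩ := (ht.eventually (gt_mem_nhds hε)).exists
  refine ⟨p j, lt_of_le_of_lt (measure_mono fun z hz => ?_) hj⟩
  by_contra h
  apply hz
  have h1 : (act (c, true) (ρ (p j)⁻¹ (f z))).1 0 = (c, true) := act_zero h
  have h2 := epow e j (x := act (c, true) (ρ (p j)⁻¹ (f z))) (by rw [h1]; exact hc _)
  have h3 := hg _ (act_zero (t := t) (x := ρ (FreeGroup.mk [e] ^ (j + 1))
    (act (c, true) (ρ (p j)⁻¹ (f z)))) (by rw [h2]; exact het))
  rw [← ρ_mk, ← ρ_mk] at h3
  simpa only [map_mul, Homeomorph.mul_apply, p, FreeGroup.of] using h3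

theorem exists_swap {X ι : Type} [TopologicalSpace X] [Finite ι] (D : ι → Set X)
    (φ : ι → X ≃ₜ X) (hD : ∀ j, IsClopen (D j)) (h1 : ∀ i j x, x ∈ D i → x ∈ D j → i = j)
    (h2 : ∀ i j x y, x ∈ D i → y ∈ D j → φ i x = φ j y → i = j)
    (h3 : ∀ i j x, x ∈ D i → φ i x ∉ D j) :
    ∃ κ : X ≃ₜ X, κ⁻¹ = κ ∧ (∀ j, ∀ x ∈ D j, κ x = φ j x) ∧
      ∀ x, (∀ j, x ∉ D j ∧ (φ j).symm x ∉ D j) → κ x = x := by
  classical
  let f : X → X := fun x => if h : ∃ j, x ∈ D j then φ h.choose x else
    if h : ∃ j, (φ j).symm x ∈ D j then (φ h.choose).symm x else x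
  have a1 : ∀ j, ∀ x ∈ D j, f x = φ j x := fun j x hx => by
    have h : ∃ j, x ∈ D j := ⟨j, hx⟩
    simp only [f, dif_pos h]; rw [h1 _ _ x h.choose_spec hx]
  have a2 : ∀ j x, (φ j).symm x ∈ D j → f x = (φ j).symm x := fun j x hx => by
    have h : ∃ j, (φ j).symm x ∈ D j := ⟨j, hx⟩
    have h' : ¬ ∃ j, x ∈ D j := fun ⟨i, hi⟩ => h3 j i _ hx (by simpa using hi)
    simp only [f, dif_pos h, dif_neg h']
    rw [h2 _ _ _ _ h.choose_spec hx (by simp)]
  have a3 : ∀ x, (∀ j, x ∉ D j ∧ (φ j).symm x ∉ D j) → f x = x := fun x hx => by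
    simp only [f]
    rw [dif_neg fun ⟨j, h⟩ => (hx j).1 h, dif_neg fun ⟨j, h⟩ => (hx j).2 h]
  have tri : ∀ x, (∃ j, x ∈ D j) ∨ (∃ j, (φ j).symm x ∈ D j) ∨
      ∀ j, x ∉ D j ∧ (φ j).symm x ∉ D j := fun x => by
    by_contra h; push Not at h
    obtain ⟨j, hj⟩ := h.2.2; exact h.2.1 j (hj (h.1 j))
  have hinv : ∀ x, f (f x) = x := fun x => by
    rcases tri x with ⟨j, h⟩ | ⟨j, h⟩ | h
    · rw [a1 j x h, a2 j _ (by simpa using h)]; simp
    · rw [a2 j x h, a1 j _ h]; simp
    · rw [a3 x h, a3 x h]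
  have hc : Continuous f := continuous_iff_continuousAt.2 fun x => by
    rcases tri x with ⟨j, h⟩ | ⟨j, h⟩ | h
    · exact (φ j).continuous.continuousAt.congr
        (mem_of_superset ((hD j).2.mem_nhds h) fun y hy => (a1 j y hy).symm)
    · exact (φ j).symm.continuous.continuousAt.congr (mem_of_superset
        (((hD j).2.preimage (φ j).symm.continuous).mem_nhds h) fun y hy => (a2 j y hy).symm)
    · refine continuousAt_id.congr ?_
      have : ∀ᶠ y in 𝓝 x, ∀ j, y ∉ D j ∧ (φ j).symm y ∉ D j :=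
        eventually_all.2 fun j => Eventually.and ((hD j).1.isOpen_compl.mem_nhds (h j).1)
          ((((hD j).1.preimage (φ j).symm.continuous).isOpen_compl).mem_nhds (h j).2)
      exact this.mono fun y hy => (a3 y hy).symm
  exact ⟨⟨⟨f, f, hinv, hinv⟩, hc, hc⟩, Homeomorph.ext fun _ => rfl, a1, a3⟩

end Pool.Agent.H19.Bdry
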