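import Pool.Agent.H19.Bdry

set_option autoImplicit false
set_option linter.unusedSectionVars false

namespace Pool.Agent.H19.Bdry

open MeasureTheory Filter Topology Set

variable {α : Type} [Fintype α] [DecidableEq α] [TopologicalSpace α] [DiscreteTopology α]

abbrev X (α : Type) : Type := Bd α × Bd (Fin 2)

def Pre (e : Fin 3 → α) (b : Fin 3 → Fin 2 × Bool) (S : Set (X α)) : Prop :=
  ∃ (i : Fin 3) (y : Bd (Fin 2)), y.1 0 ≠ b i ∧ ∀ x : Bd α, x.1 0 = (e i, true) → (x, y) ∈ S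

def Fresh (r : α → Fin 3) (b : Fin 3 → Fin 2 × Bool) (S : Set (X α)) : Prop :=
  ∀ s : α × Bool, ∃ y : Bd (Fin 2), y.1 0 = b (r s.1) ∧ ∀ x : Bd α, x.1 0 = s → (x, y) ∈ S

theorem exists_kappa (e : Fin 3 → α) (r : α → Fin 3) (hr : ∀ i, r (e i) = i)
    (b : Fin 3 → Fin 2 × Bool) (hb : Function.Injective b) :
    ∃ κ : X α ≃ₜ X α, κ⁻¹ = κ ∧ (∀ S, Pre e b S → Fresh r b (κ '' S)) ∧
      ∀ z : X α, z.1.1 0 = (e 0, true) → z.1.1 1 = (e 0, true) → z.2.1 0 ≠ b 0 → κ z = z := by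
  have he : ∀ i j, e i = e j → i = j := fun i j h => by rw [← hr i, h, hr]
  have hu : ∀ i j : Fin 3, ∃ k, k ≠ i ∧ k ≠ j := by decide
  choose u hu1 hu2 using hu
  have hw : ∀ p q : Fin 2 × Bool, ∃ w, w ≠ p ∧ w ≠ inv q := by decide
  choose w hw1 hw2 using hw
  let g : Fin 3 × (α × Bool) → Bd α ≃ₜ Bd α := fun j =>
    act (e j.1, true) * act (e (u j.1 (r j.2.1)), true)
  let h : Fin 3 × (α × Bool) → Bd (Fin 2) ≃ₜ Bd (Fin 2) := fun j =>
    act (b (r j.2.1)) * act (w (b j.1) (b (r j.2.1))) * act (inv (b j.1))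
  have hg : ∀ j (x : Bd α), x.1 0 = j.2 → (g j x).1 0 = (e j.1, true) ∧
      (g j x).1 1 = (e (u j.1 (r j.2.1)), true) ∧ (g j x).1 2 = j.2 := by
    intro j x hx
    have a1 : x.1 0 ≠ inv (e (u j.1 (r j.2.1)), true) := fun h' => hu2 j.1 (r j.2.1) (by
      have := congrArg (fun t => r t.1) (hx.symm.trans h'); simpa [inv, hr] using this.symm)
    have a2 : (act (e (u j.1 (r j.2.1)), true) x).1 0 ≠ inv (e j.1, true) := by
      rw [act_zero a1]; simp [inv]
    refine ⟨act_zero a2, (act_succ a2 0).trans (act_zero a1), (act_succ a2 1).trans ?_⟩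
    rw [act_succ a1, hx]
  have hh : ∀ j (y : Bd (Fin 2)), y.1 0 ≠ b j.1 → (h j y).1 0 = b (r j.2.1) ∧
      (h j y).1 2 = inv (b j.1) := by
    intro j y hy
    have a1 : y.1 0 ≠ inv (inv (b j.1)) := by rwa [inv_inv]
    have a2 : (act (inv (b j.1)) y).1 0 ≠ inv (w (b j.1) (b (r j.2.1))) := by
      rw [act_zero a1]; intro h'
      exact hw1 _ _ (by simpa using (congrArg inv h').symm)
    have a3 : (act (w (b j.1) (b (r j.2.1))) (act (inv (b j.1)) y)).1 0 ≠ inv (b (r j.2.1)) := by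
      rw [act_zero a2]; exact hw2 _ _
    exact ⟨act_zero a3, (act_succ a3 1).trans ((act_succ a2 0).trans (act_zero a1))⟩
  let D : Fin 3 × (α × Bool) → Set (X α) := fun j =>
    {z | ((g j).symm z.1).1 0 = j.2 ∧ z.2.1 0 ≠ b j.1}
  let φ : Fin 3 × (α × Bool) → X α ≃ₜ X α := fun j => (g j).symm.prodCongr (h j)
  have hD : ∀ j, ∀ z ∈ D j, z.1.1 0 = (e j.1, true) ∧
      z.1.1 1 = (e (u j.1 (r j.2.1)), true) ∧ z.1.1 2 = j.2 := fun j z hz => by
    simpa using hg j _ hz.1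
  have hI : ∀ j, ∀ z ∈ D j, (φ j z).1.1 0 = j.2 ∧ (φ j z).2.1 0 = b (r j.2.1) ∧
      (φ j z).2.1 2 = inv (b j.1) := fun j z hz => ⟨hz.1, hh j _ hz.2⟩
  obtain ⟨κ, k1, k2, k3⟩ := exists_swap D φ
    (fun j => ((isClopen_discrete {j.2}).preimage ((cont_coord 0).comp
      ((g j).symm.continuous.comp continuous_fst))).inter ((isClopen_discrete {b j.1}ᶜ).preimage
      ((cont_coord 0).comp continuous_snd)))
    (fun i j z hi hj => Prod.ext
      (he _ _ (congrArg Prod.fst ((hD i z hi).1.symm.trans (hD j z hj).1)))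
      ((hD i z hi).2.2.symm.trans (hD j z hj).2.2))
    (fun i j z z' hi hj hz => by
      have a := hI i z hi
      have a' := hI j z' hj
      rw [hz] at a
      exact Prod.ext (hb (by simpa using congrArg inv (a.2.2.symm.trans a'.2.2)))
        (a.1.symm.trans a'.1))
    (fun i j z hi hj => by
      have a := hI i z hi
      have a' := (hD j _ hj).1
      apply hj.2
      rw [a.2.1, ← a.1, a', hr])
  refine ⟨κ, k1, ?_, fun z h0 h1 h2 => k3 z fun j => ⟨fun hz => ?_, fun hz => ?_⟩⟩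
  · rintro S ⟨i, y, hy, hS⟩ s
    refine ⟨h (i, s) y, (hh (i, s) y hy).1, fun x hx => ⟨(g (i, s) x, y),
      hS _ (hg (i, s) x hx).1, ?_⟩⟩
    rw [k2 (i, s) _ ⟨by simpa using hx, hy⟩]
    simp [φ]
  · have a := hD j z hz
    exact hu1 _ _ (he _ _ (congrArg Prod.fst (a.2.1.symm.trans (h1.trans (h0.symm.trans a.1)))))
  · have a := hI j _ hz
    rw [Homeomorph.apply_symm_apply] at a
    apply h2
    rw [a.2.1, ← a.1, h0, hr]

def π (r : α → Fin 3) : FreeGroup α →* FreeGroup (Fin 2) :=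
  FreeGroup.lift fun a => ![FreeGroup.of 0, FreeGroup.of 1, 1] (r a)

def Γ (r : α → Fin 3) : FreeGroup α →* (X α ≃ₜ X α) where
  toFun g := (ρ g).prodCongr (ρ (π r g))
  map_one' := by ext <;> simp
  map_mul' g h := by ext <;> simp

theorem Γ_contract (e : Fin 3 → α) (r : α → Fin 3) (hr : ∀ i, r (e i) = i)
    [MeasurableSpace (X α)] [OpensMeasurableSpace (X α)] (μ : Measure (X α)) [IsFiniteMeasure μ]
    {p : X α} {U : Set (X α)} (hU : U ∈ 𝓝 p) {ε : ENNReal} (hε : 0 < ε) :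
    ∃ γ, μ {z | Γ r γ z ∉ U} < ε := by
  obtain ⟨O1, h1, O2, h2, h3⟩ := mem_nhds_prod_iff.1 hU
  have hε2 := ENNReal.half_pos hε.ne'
  obtain ⟨q, hq⟩ := contract (a := (0 : Fin 2)) (c := 1) (by decide) μ continuous_snd h2 hε2
  have hs : ∀ q, π r (FreeGroup.map (fun i => e i.castSucc) q) = q := by
    intro q
    have : (π r).comp (FreeGroup.map fun i => e i.castSucc) = MonoidHom.id _ :=
      FreeGroup.ext_hom _ _ fun i => by fin_cases i <;> simp [π, hr]
    exact DFunLike.congr_fun this q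
  let γ0 := FreeGroup.map (fun i : Fin 2 => e i.castSucc) (q * FreeGroup.of 1 * q⁻¹)
  obtain ⟨q', hq'⟩ := contract (a := e 0) (c := e 2)
    (fun h => by have := congrArg r h; rw [hr, hr] at this; exact absurd this (by decide)) μ
    ((ρ γ0).continuous.comp continuous_fst) h1 hε2
  refine ⟨q' * FreeGroup.of (e 2) * q'⁻¹ * γ0, lt_of_le_of_lt (le_trans (measure_mono ?_)
    (measure_union_le _ _)) ((ENNReal.add_lt_add hq' hq).trans_eq (ENNReal.add_halves ε))⟩
  intro z hz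
  by_contra hc
  simp only [mem_union, mem_setOf_eq, not_or, not_not] at hc
  refine hz (h3 ⟨?_, ?_⟩)
  · show ρ _ z.1 ∈ O1
    rw [map_mul]; exact hc.1
  · show ρ (π r _) z.2 ∈ O2
    have : π r (FreeGroup.of (e 2)) = 1 := by simp [π, hr]
    rw [map_mul, hs, map_mul (π r), map_mul (π r), this, mul_one, map_inv, mul_inv_cancel, one_mul]
    exact hc.2

theorem im_mul {Y : Type} [TopologicalSpace Y] (f g : Y ≃ₜ Y) (S : Set Y) :
    (f * g) '' S = f '' (g '' S) := by rw [Set.image_image]; rfl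

def b1 : Fin 3 → Fin 2 × Bool := ![(0, true), (0, false), (1, true)]
def b2 : Fin 3 → Fin 2 × Bool := ![(0, false), (0, true), (1, true)]

def St (r : α → Fin 3) : Option α × Bool → Set (X α) → Prop
  | (some a, c), S => ∃ y, ∀ x : Bd α, x.1 0 ≠ (a, c) → (x, y) ∈ S
  | (none, true), S => Fresh r b1 S
  | (none, false), S => Fresh r b2 S

def PS (e : Fin 3 → α) : Option α × Bool → Set (X α) → Prop
  | (some a, c), S => ∃ y, ∀ x : Bd α, x.1 0 = inv (a, c) → (x, y) ∈ S
  | (none, true), S => Pre e b2 S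
  | (none, false), S => Pre e b1 S

theorem main (e : Fin 3 → α) (r : α → Fin 3) (hr : ∀ i, r (e i) = i) :
    ∃ Φ : FreeGroup (Option α) →* (X α ≃ₜ X α), Function.Injective Φ ∧
      (∀ γ, ∃ g, Φ g = Γ r γ) ∧ ∃ U : Set (X α), IsOpen U ∧ U.Nonempty ∧
      ∀ z ∈ U, Φ (FreeGroup.of none) z = z := by
  have he : ∀ i j, e i = e j → i = j := fun i j h => by rw [← hr i, h, hr]
  obtain ⟨κ1, a1, a2, a3⟩ := exists_kappa e r hr b1 (by decide)
  obtain ⟨κ2, c1, c2, c3⟩ := exists_kappa e r hr b2 (by decide)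
  let Φ : FreeGroup (Option α) →* (X α ≃ₜ X α) :=
    FreeGroup.lift fun o => o.elim (κ1 * κ2) fun a => Γ r (FreeGroup.of a)
  have hΓ : ∀ γ, Φ (FreeGroup.map some γ) = Γ r γ := by
    intro γ
    have : Φ.comp (FreeGroup.map some) = Γ r := FreeGroup.ext_hom _ _ fun i => by simp [Φ]
    exact DFunLike.congr_fun this γ
  have fp : ∀ (b b' : Fin 3 → Fin 2 × Bool) (i : Fin 3), b i ≠ b' i → ∀ S, Fresh r b S →
      Pre e b' S := by
    intro b b' i hi S hS
    obtain ⟨y, h1, h2⟩ := hS (e i, true)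
    exact ⟨i, y, by rwa [h1, hr], h2⟩
  have mp : ∀ (b : Fin 3 → Fin 2 × Bool), Function.Injective b → ∀ (t : α × Bool) (S : Set (X α)),
      (∃ y, ∀ x : Bd α, x.1 0 ≠ t → (x, y) ∈ S) → Pre e b S := by
    rintro b hb t S ⟨y, hy⟩
    have : ∀ j k : Fin 3, ∃ i, i ≠ j ∧ i ≠ k := by decide
    obtain ⟨i, h1, h2⟩ := this (r t.1) (Function.invFun b (y.1 0))
    refine ⟨i, y, fun h => h2 ?_, fun x hx => hy x fun h => h1 ?_⟩
    · rw [h, Function.leftInverse_invFun hb]
    · rw [← h, hx, hr]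
  have step : ∀ t S, PS e t S → St r t (Φ (FreeGroup.mk [t]) '' S) := by
    rintro ⟨_ | a, c⟩ S h
    · cases c
      · have : Φ (FreeGroup.mk [(none, false)]) = κ2 * κ1 := by simp [Φ, a1, c1]
        rw [this, im_mul]
        exact c2 _ (fp b1 b2 0 (by decide) _ (a2 _ h))
      · have : Φ (FreeGroup.mk [(none, true)]) = κ1 * κ2 := by simp [Φ]
        rw [this, im_mul]
        exact a2 _ (fp b2 b1 0 (by decide) _ (c2 _ h))
    · obtain ⟨y, hy⟩ := h
      have : Φ (FreeGroup.mk [(some a, c)]) = Γ r (FreeGroup.mk [(a, c)]) := hΓ (FreeGroup.mk [(a, c)])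
      refine ⟨ρ (π r (FreeGroup.mk [(a, c)])) y, fun x hx => ⟨(act (inv (a, c)) x, y),
        hy _ (act_zero (by rwa [inv_inv])), ?_⟩⟩
      rw [this]
      refine Prod.ext ?_ rfl
      show ρ _ _ = x
      rw [ρ_mk, act_inv]; simp
  have link : ∀ t t' : Option α × Bool, (t.1 = t'.1 → t.2 = t'.2) → ∀ S, St r t' S → PS e t S := by
    have fm : ∀ b (s : α × Bool) S, Fresh r b S → ∃ y, ∀ x : Bd α, x.1 0 = s → (x, y) ∈ S :=
      fun b s S h => (h s).imp fun _ h => h.2
    rintro ⟨_ | a, c⟩ ⟨_ | a', c'⟩ h S hS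
    · obtain rfl : c = c' := h rfl
      cases c
      · exact fp b2 b1 0 (by decide) _ hS
      · exact fp b1 b2 0 (by decide) _ hS
    · cases c
      · exact mp b1 (by decide) _ _ hS
      · exact mp b2 (by decide) _ _ hS
    · cases c' <;> exact fm _ _ _ hS
    · obtain ⟨y, hy⟩ := hS
      refine ⟨y, fun x hx => hy x fun h' => ?_⟩
      have h2 := hx.symm.trans h'
      simp only [inv, Prod.mk.injEq] at h2
      have := h (by simp [h2.1])
      simp only at this
      rw [← h2.2] at this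
      simp at this
  have init : ∀ t, ∃ (l : α × Bool) (y : Bd (Fin 2)), PS e t {z | z.1.1 0 = l ∧ z.2 = y} := by
    rintro ⟨_ | a, c⟩
    · refine ⟨(e 0, true), const (1, false), ?_⟩
      cases c <;> exact ⟨0, const (1, false), by decide, fun x hx => ⟨hx, rfl⟩⟩
    · exact ⟨inv (a, c), const (1, false), _, fun x hx => ⟨hx, rfl⟩⟩
  have fin : ∀ t (l : α × Bool) (y : Bd (Fin 2)), ¬ St r t {z | z.1.1 0 = l ∧ z.2 = y} := by
    have fm : ∀ b (l : α × Bool) (y : Bd (Fin 2)), ¬ Fresh r b {z | z.1.1 0 = l ∧ z.2 = y} :=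
      fun b l y h => by
        obtain ⟨y', -, h'⟩ := h (inv l)
        exact inv_ne l (h' (const (inv l)) rfl).1.symm
    rintro ⟨_ | a, c⟩ l y h
    · cases c <;> exact fm _ _ _ h
    · obtain ⟨y', hy⟩ := h
      have : ∀ j k : Fin 3, ∃ i, i ≠ j ∧ i ≠ k := by decide
      obtain ⟨i, h1, h2⟩ := this (r a) (r l.1)
      have := (hy (const (e i, true)) fun h => h1 (by
        rw [← hr i]; exact congrArg (fun t => r t.1) h)).1
      exact h2 (by rw [← hr i]; exact congrArg (fun t => r t.1) this)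
  have key : ∀ (L : List (Option α × Bool)) t, FreeGroup.IsReduced (t :: L) →
      ∃ (l : α × Bool) (y : Bd (Fin 2)),
        St r t (Φ (FreeGroup.mk (t :: L)) '' {z | z.1.1 0 = l ∧ z.2 = y}) := by
    intro L
    induction L with
    | nil => exact fun t _ => (init t).imp fun l h => h.imp fun y h => step _ _ h
    | cons t' L ih =>
      intro t ht
      rw [FreeGroup.isReduced_cons_cons] at ht
      obtain ⟨l, y, h⟩ := ih t' ht.2
      refine ⟨l, y, ?_⟩
      rw [show FreeGroup.mk (t :: t' :: L) = FreeGroup.mk [t] * FreeGroup.mk (t' :: L) from rfl,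
        map_mul, im_mul]
      exact step _ _ (link _ _ ht.1 _ h)
  refine ⟨Φ, (injective_iff_map_eq_one _).2 fun g hg => ?_, fun γ => ⟨_, hΓ γ⟩,
    {z | z.1.1 0 = (e 0, true) ∧ z.1.1 1 = (e 0, true) ∧ z.2.1 0 = (1, false)}, ?_,
    ⟨(const (e 0, true), const (1, false)), rfl, rfl, rfl⟩, fun z hz => ?_⟩
  · by_contra h
    obtain ⟨t, L, hL⟩ := List.exists_cons_of_ne_nil (mt FreeGroup.toWord_eq_nil_iff.1 h)
    obtain ⟨l, y, h⟩ := key L t (hL ▸ FreeGroup.isReduced_toWord)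
    rw [← hL, FreeGroup.mk_toWord, hg] at h
    exact fin t l y (by simpa using h)
  · exact ((isOpen_discrete {(e 0, true)}).preimage ((cont_coord 0).comp continuous_fst)).inter
      (((isOpen_discrete {(e 0, true)}).preimage ((cont_coord 1).comp continuous_fst)).inter
      ((isOpen_discrete {((1 : Fin 2), false)}).preimage ((cont_coord 0).comp continuous_snd)))
  · have : Φ (FreeGroup.of none) = κ1 * κ2 := by simp [Φ]
    rw [this, Homeomorph.mul_apply, c3 z hz.1 hz.2.1 (by rw [hz.2.2]; decide),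
      a3 z hz.1 hz.2.1 (by rw [hz.2.2]; decide)]

end Pool.Agent.H19.Bdry
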