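import Mathlib

set_option autoImplicit false

namespace Pool.Agent.H19.BigCell

open Equiv

/-- A finite descending filtration of an abelian group. -/
structure Flag (X : Type) [AddCommGroup X] where
  F : ℕ → AddSubgroup X
  anti : Antitone F
  top : ∀ x, x ∈ F 0
  bot : ∃ N, ∀ x ∈ F N, x = 0

section uni
variable {X : Type} [AddCommGroup X] (Φ : Flag X)

def IsU (r : ℕ) (g : X → X) : Prop :=
  (∀ x y, g (x + y) = g x + g y) ∧ ∀ k, ∀ x ∈ Φ.F k, g x - x ∈ Φ.F (k + r)

variable {Φ}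

lemma map_sub' {Y : Type} [AddCommGroup Y] {g : X → Y} (h : ∀ x y, g (x + y) = g x + g y)
    (x y : X) : g (x - y) = g x - g y :=
  (AddMonoidHom.mk' g h).map_sub x y

lemma map_zero' {Y : Type} [AddCommGroup Y] {g : X → Y} (h : ∀ x y, g (x + y) = g x + g y) :
    g 0 = 0 :=
  (AddMonoidHom.mk' g h).map_zero

lemma IsU.mem {r : ℕ} {g : X → X} (h : IsU Φ r g) {k : ℕ} {x : X} (hx : x ∈ Φ.F k) :
    g x ∈ Φ.F k := by
  have := (Φ.F k).add_mem (Φ.anti (Nat.le_add_right k r) (h.2 k x hx)) hx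
  simpa using this

lemma IsU.comp {r : ℕ} {g h : X → X} (hg : IsU Φ r g) (hh : IsU Φ r h) :
    IsU Φ r (fun x => g (h x)) := by
  refine ⟨fun x y => by simp only [hh.1, hg.1], fun k x hx => ?_⟩
  have := (Φ.F (k + r)).add_mem (hg.2 k _ (hh.mem hx)) (hh.2 k x hx)
  simpa using this

lemma IsU.cube (h3 : ∀ x : X, x + x + x = 0) {r : ℕ} {g : X → X} (hg : IsU Φ (r + 1) g) :
    IsU Φ (r + 2) (fun x => g (g (g x))) := by
  refine ⟨fun x y => by simp only [hg.1], fun k x hx => ?_⟩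
  have h1 := hg.2 _ _ (hg.2 _ _ (hg.2 k x hx))
  have h2 := Φ.anti (show k + (r + 2) ≤ k + (r + 1) + (r + 1) + (r + 1) by omega) h1
  simp only [map_sub' hg.1] at h2
  convert h2 using 1
  have a := h3 (g (g x))
  have b := h3 (g x)
  have : g (g (g x)) - x = g (g (g x)) - x - (g (g x) + g (g x) + g (g x)) + (g x + g x + g x) := by
    rw [a, b]; simp
  rw [this]; abel

lemma IsU.pow (h3 : ∀ x : X, x + x + x = 0) {g : Perm X} (hg : IsU Φ 1 g) (n : ℕ) :
    IsU Φ (n + 1) (g ^ 3 ^ n : Perm X) := by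
  induction n with
  | zero => simpa using hg
  | succ n ih =>
    have := ih.cube h3
    rw [pow_succ, pow_mul]
    exact this

lemma IsU.pow_eq (h3 : ∀ x : X, x + x + x = 0) {g : Perm X} (hg : IsU Φ 1 g) :
    ∃ n, g ^ 3 ^ n = 1 := by
  obtain ⟨N, hN⟩ := Φ.bot
  refine ⟨N, Equiv.ext fun x => ?_⟩
  have := hN _ (Φ.anti (show N ≤ 0 + (N + 1) by omega) ((hg.pow h3 N).2 0 x (Φ.top x)))
  exact sub_eq_zero.1 this

lemma IsU.inj {g : X → X} (hg : IsU Φ 1 g) : Function.Injective g := by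
  intro x y hxy
  have h0 : g (x - y) = 0 := by rw [map_sub' hg.1, hxy, sub_self]
  have : ∀ k, x - y ∈ Φ.F k := by
    intro k
    induction k with
    | zero => exact Φ.top _
    | succ k ih =>
      have := hg.2 k _ ih
      rw [h0, zero_sub] at this
      exact neg_mem_iff.1 this
  obtain ⟨N, hN⟩ := Φ.bot
  exact sub_eq_zero.1 (hN _ (this N))

noncomputable def IsU.perm [Finite X] {g : X → X} (hg : IsU Φ 1 g) : Perm X :=
  Equiv.ofBijective g (Finite.injective_iff_bijective.1 hg.inj)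

lemma IsU.perm_apply [Finite X] {g : X → X} (hg : IsU Φ 1 g) (x : X) : hg.perm x = g x := rfl

def UniM (Φ : Flag X) : Submonoid (Perm X) where
  carrier := {g | IsU Φ 1 g}
  one_mem' := ⟨fun _ _ => rfl, fun k x _ => by simp⟩
  mul_mem' := fun hg hh => hg.comp hh

def Uni (Φ : Flag X) (h3 : ∀ x : X, x + x + x = 0) : Subgroup (Perm X) where
  toSubmonoid := UniM Φ
  inv_mem' := by
    intro g hg
    obtain ⟨n, hn⟩ := IsU.pow_eq h3 hg
    have : g⁻¹ = g ^ (3 ^ n - 1) := by
      rw [inv_eq_iff_mul_eq_one, ← pow_succ', Nat.sub_add_cancel (Nat.one_le_pow _ _ (by norm_num)),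
        hn]
    rw [this]
    exact (UniM Φ).pow_mem hg _

lemma mem_Uni {h3 : ∀ x : X, x + x + x = 0} {g : Perm X} : g ∈ Uni Φ h3 ↔ IsU Φ 1 g := Iff.rfl

lemma Uni_p (h3 : ∀ x : X, x + x + x = 0) : IsPGroup 3 (Uni Φ h3) := by
  intro g
  obtain ⟨n, hn⟩ := IsU.pow_eq h3 g.2
  exact ⟨n, Subtype.ext hn⟩

lemma inv_add {g : Perm X} (h : ∀ x y, g (x + y) = g x + g y) (x y : X) :
    g⁻¹ (x + y) = g⁻¹ x + g⁻¹ y := by
  apply g.injective
  simp [h]

lemma conj_mem {h3 : ∀ x : X, x + x + x = 0} {D g : Perm X} (hD : ∀ x y, D (x + y) = D x + D y)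
    (h1 : ∀ k, ∀ x ∈ Φ.F k, D x ∈ Φ.F k) (h2 : ∀ k, ∀ x ∈ Φ.F k, D⁻¹ x ∈ Φ.F k)
    (hg : g ∈ Uni Φ h3) : D * g * D⁻¹ ∈ Uni Φ h3 := by
  refine ⟨fun x y => ?_, fun k x hx => ?_⟩
  · simp only [Perm.mul_apply, inv_add hD, hg.1, hD]
  · have := h1 _ _ (hg.2 k _ (h2 k x hx))
    rw [map_sub' hD] at this
    simpa using this

def Flag.prod {Y : Type} [AddCommGroup Y] (Φ : Flag X) (Ψ : Flag Y) : Flag (X × Y) where
  F k := (Φ.F k).prod (Ψ.F k)
  anti := fun _ _ h => AddSubgroup.prod_mono (Φ.anti h) (Ψ.anti h)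
  top x := ⟨Φ.top _, Ψ.top _⟩
  bot := by
    obtain ⟨N, hN⟩ := Φ.bot
    obtain ⟨M, hM⟩ := Ψ.bot
    exact ⟨max N M, fun x hx => Prod.ext (hN _ (Φ.anti (le_max_left _ _) hx.1))
      (hM _ (Ψ.anti (le_max_right _ _) hx.2))⟩

lemma IsU.prod {Y : Type} [AddCommGroup Y] {Ψ : Flag Y} {p : Perm X} {q : Perm Y}
    (hp : IsU Φ 1 p) (hq : IsU Ψ 1 q) : IsU (Φ.prod Ψ) 1 (prodCongr p q) :=
  ⟨fun x y => Prod.ext (hp.1 _ _) (hq.1 _ _), fun k x hx => ⟨hp.2 k _ hx.1, hq.2 k _ hx.2⟩⟩

def Flag.pi {I : Type} [Finite I] (f : I → ℕ) : Flag (I → X) where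
  F k :=
    { carrier := {u | ∀ i, f i < k → u i = 0}
      zero_mem' := fun _ _ => rfl
      add_mem' := fun ha hb i hi => by simp [ha i hi, hb i hi]
      neg_mem' := fun ha i hi => by simp [ha i hi] }
  anti := fun _ _ h _ hu i hi => hu i (lt_of_lt_of_le hi h)
  top := fun _ _ hi => absurd hi (Nat.not_lt_zero _)
  bot := by
    obtain ⟨N, hN⟩ := (Set.finite_range f).bddAbove
    exact ⟨N + 1, fun x hx => funext fun i => hx i (Nat.lt_succ_of_le (hN ⟨i, rfl⟩))⟩

lemma mem_pi {I : Type} [Finite I] {f : I → ℕ} {k : ℕ} {u : I → X} :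
    u ∈ (Flag.pi (X := X) f).F k ↔ ∀ i, f i < k → u i = 0 := Iff.rfl

end uni

section tri
variable {I V : Type} [AddCommGroup V] [DecidableEq I] [Finite I]

def sg (e : I) (p : I → I) (u : I → V) : I → V := fun i => if i = e then - u (p i) else u (p i)
def el (e : I) (p : I → I) (u : I → V) : I → V := fun i => if i = e then u i else u i - u (p i)
def up (e : I) (u : I → V) : I → V := fun i => if i = e then u i else u i + u e
def dl (e : I) : Perm (I → V) :=
  Function.Involutive.toPerm (fun u i => if i = e then - u i else u i) fun u => by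
    funext i; by_cases h : i = e <;> simp [h]

omit [Finite I] in
lemma dl_apply (e : I) (u : I → V) (i : I) : dl e u i = if i = e then - u i else u i := rfl

omit [Finite I] in
lemma dl_inv (e : I) : (dl e : Perm (I → V))⁻¹ = dl e := rfl

lemma el_U (e : I) (p : I → I) (f : I → ℕ) (hf : ∀ i, i ≠ e → f (p i) < f i) :
    IsU (Flag.pi (X := V) f) 1 (el e p) := by
  refine ⟨fun x y => funext fun i => ?_, fun k x hx i hi => ?_⟩
  · by_cases h : i = e <;> simp [el, h]; abel
  · by_cases h : i = e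
    · simp [el, h]
    · have := hf i h
      simp [el, h, hx (p i) (by omega)]

lemma up_U (e : I) (f : I → ℕ) (hf : ∀ i, i ≠ e → f e < f i) :
    IsU (Flag.pi (X := V) f) 1 (up e) := by
  refine ⟨fun x y => funext fun i => ?_, fun k x hx i hi => ?_⟩
  · by_cases h : i = e <;> simp [up, h]; abel
  · by_cases h : i = e
    · simp [up, h]
    · have := hf i h
      simp [up, h, hx e (by omega)]

omit [Finite I] in
lemma ldu (h3 : ∀ x : V, x + x + x = 0) (e : I) (p : I → I) (u : I → V) :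
    el e p (dl (p e) (up (p e) u)) = u - sg e p u := by
  have : dl (p e) (up (p e) u) = fun i => u i + u (p e) := by
    funext i
    by_cases h : i = p e
    · simp only [dl_apply, up, h, if_true]
      rw [neg_eq_iff_add_eq_zero, ← add_assoc, h3]
    · simp [dl_apply, up, h]
  rw [this]
  funext i
  by_cases h : i = e <;> simp [el, sg, h]

omit [Finite I] in
lemma sg_add (e : I) (p : I → I) (u v : I → V) : sg e p (u + v) = sg e p u + sg e p v := by
  funext i; by_cases h : i = e <;> simp [sg, h]; abel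

omit [Finite I] in
lemma sg_sub (e : I) (p : I → I) (u v : I → V) : sg e p (u - v) = sg e p u - sg e p v :=
  map_sub' (sg_add e p) u v

end tri

section shear
variable {X : Type} [AddCommGroup X]

def shL (c : X → X) : Perm (X × X) where
  toFun x := (x.1, x.2 + c x.1)
  invFun x := (x.1, x.2 - c x.1)
  left_inv x := by simp
  right_inv x := by simp

def shU (c : X → X) : Perm (X × X) where
  toFun x := (x.1 + c x.2, x.2)
  invFun x := (x.1 - c x.2, x.2)
  left_inv x := by simp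
  right_inv x := by simp

lemma shL_U {I : Type} [Finite I] {c : (I → X) → (I → X)} (hc : ∀ x y, c (x + y) = c x + c y)
    (f g : I → ℕ) (h : ∀ i j, f i < g j) :
    IsU ((Flag.pi (X := X) f).prod (Flag.pi g)) 1 (shL c) := by
  refine ⟨fun x y => Prod.ext rfl ?_, fun k x hx => ⟨fun i _ => ?_, fun j hj => ?_⟩⟩
  · show x.2 + y.2 + c (x.1 + y.1) = x.2 + c x.1 + (y.2 + c y.1)
    rw [hc]; abel
  · show x.1 i - x.1 i = 0
    simp
  · have : x.1 = 0 := funext fun i => hx.1 i (by have := h i j; omega)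
    show x.2 j + c x.1 j - x.2 j = 0
    rw [this, map_zero' hc]; simp

lemma shU_U {I : Type} [Finite I] {c : (I → X) → (I → X)} (hc : ∀ x y, c (x + y) = c x + c y)
    (f g : I → ℕ) (h : ∀ i j, g j < f i) :
    IsU ((Flag.pi (X := X) f).prod (Flag.pi g)) 1 (shU c) := by
  refine ⟨fun x y => Prod.ext ?_ rfl, fun k x hx => ⟨fun i hi => ?_, fun j _ => ?_⟩⟩
  · show x.1 + y.1 + c (x.2 + y.2) = x.1 + c x.2 + (y.1 + c y.2)
    rw [hc]; abel
  · have : x.2 = 0 := funext fun j => hx.2 j (by have := h i j; omega)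
    show x.1 i + c x.2 i - x.1 i = 0
    rw [this, map_zero' hc]; simp
  · show x.2 j - x.2 j = 0
    simp

end shear

section star
variable {H V : Type} [Group H] [AddCommGroup V] [DistribMulAction H V] (n : ℕ)

def th : H →* Perm ((Fin (n + 1) → V) × (Fin (n + 1) → V)) where
  toFun d :=
    { toFun := fun x => (d • (x.1 - x.2) + x.2, x.2)
      invFun := fun x => (d⁻¹ • (x.1 - x.2) + x.2, x.2)
      left_inv := fun x => by simp
      right_inv := fun x => by simp }
  map_one' := Equiv.ext fun x => by simp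
  map_mul' a b := Equiv.ext fun x => by simp [mul_smul]

lemma th_apply (d : H) (x : (Fin (n + 1) → V) × (Fin (n + 1) → V)) :
    th n d x = (d • (x.1 - x.2) + x.2, x.2) := rfl

def Dg (d : H) : Perm (Fin (n + 1) → V) where
  toFun u i := d ^ i.val • u i
  invFun u i := (d ^ i.val)⁻¹ • u i
  left_inv u := by simp
  right_inv u := by simp

lemma Dg_apply (d : H) (u : Fin (n + 1) → V) (i : Fin (n + 1)) : Dg n d u i = d ^ i.val • u i := rfl
lemma Dg_inv (d : H) (u : Fin (n + 1) → V) (i : Fin (n + 1)) :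
    (Dg n d)⁻¹ u i = (d ^ i.val)⁻¹ • u i := rfl

lemma Dg_add (d : H) (u v : Fin (n + 1) → V) : Dg n d (u + v) = Dg n d u + Dg n d v := by
  funext i; simp [Dg_apply]

lemma Dg_sg (d : H) (hd : d ^ (n + 1) = 1) (u : Fin (n + 1) → V) :
    Dg n d (sg 0 (· - 1) u) = d • sg 0 (· - 1) (Dg n d u) := by
  funext i
  by_cases h : i = 0
  · subst h
    have : ((0 : Fin (n + 1)) - 1).val = n := by rw [Fin.coe_sub_one]; simp
    simp only [Dg_apply, sg, if_true, Pi.smul_apply, this, smul_neg, ← mul_smul, ← pow_succ', hd]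
    simp
  · have : (i - 1).val + 1 = i.val := by
      rw [Fin.coe_sub_one, if_neg h]
      have : i.val ≠ 0 := fun h' => h (Fin.ext h')
      omega
    simp only [Dg_apply, sg, if_neg h, Pi.smul_apply, ← mul_smul, ← pow_succ', this]

lemma conj_D (h3 : ∀ x : (Fin (n + 1) → V) × (Fin (n + 1) → V), x + x + x = 0) (d : H)
    (f g : Fin (n + 1) → ℕ) {L : Perm ((Fin (n + 1) → V) × (Fin (n + 1) → V))}
    (hL : L ∈ Uni ((Flag.pi (X := V) f).prod (Flag.pi g)) h3) :
    (prodCongr (Dg n d) (Dg n d) : Perm _) * L * (prodCongr (Dg n d) (Dg n d) : Perm _)⁻¹ ∈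
      Uni ((Flag.pi (X := V) f).prod (Flag.pi g)) h3 := by
  refine conj_mem (fun x y => Prod.ext (Dg_add n d _ _) (Dg_add n d _ _)) ?_ ?_ hL
  · intro k x hx
    refine ⟨fun i hi => ?_, fun i hi => ?_⟩
    · show d ^ i.val • x.1 i = 0
      rw [hx.1 i hi, smul_zero]
    · show d ^ i.val • x.2 i = 0
      rw [hx.2 i hi, smul_zero]
  · intro k x hx
    refine ⟨fun i hi => ?_, fun i hi => ?_⟩
    · show (d ^ i.val)⁻¹ • x.1 i = 0
      rw [hx.1 i hi, smul_zero]
    · show (d ^ i.val)⁻¹ • x.2 i = 0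
      rw [hx.2 i hi, smul_zero]

lemma sg_sg (u : Fin (n + 1) → V) : sg 0 (· - 1) (sg (Fin.last n) (· + 1) u) = u := by
  funext i
  have h0 : (0 : Fin (n + 1)) - 1 = Fin.last n := by
    rw [sub_eq_iff_eq_add]; simp
  by_cases h : i = 0
  · subst h
    simp only [sg, if_true, h0]
    simp
  · have : i - 1 ≠ Fin.last n := by
      rw [← h0]; intro h'; exact h (sub_left_inj.1 h')
    simp [sg, h, this]

lemma sg_sg' (u : Fin (n + 1) → V) : sg (Fin.last n) (· + 1) (sg 0 (· - 1) u) = u := by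
  funext i
  have h0 : Fin.last n + 1 = 0 := by simp
  by_cases h : i = Fin.last n
  · subst h
    have h1 : (0 : Fin (n + 1)) - 1 = Fin.last n := by
      rw [sub_eq_iff_eq_add]; simp
    simp only [sg, if_true, h0, h1, neg_neg]
  · have : i + 1 ≠ 0 := by
      rw [← h0]; intro h'; exact h (add_left_inj 1 |>.1 h')
    simp [sg, h, this]

theorem star_aux [Finite V] (h3 : ∀ x : V, x + x + x = 0) (hn : ∀ d : H, d ^ (n + 1) = 1) :
    ∃ P1 P2 : Subgroup (Perm ((Fin (n + 1) → V) × (Fin (n + 1) → V))),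
      IsPGroup 3 P1 ∧ IsPGroup 3 P2 ∧ ∀ d : H, ∃ a ∈ P1, ∃ b ∈ P2, th n d = a * b := by
  have h3W : ∀ x : Fin (n + 1) → V, x + x + x = 0 := fun x => funext fun i => h3 (x i)
  have h3X : ∀ x : (Fin (n + 1) → V) × (Fin (n + 1) → V), x + x + x = 0 :=
    fun x => Prod.ext (h3W _) (h3W _)
  have h0 : (0 : Fin (n + 1)) - 1 = Fin.last n := by
    rw [sub_eq_iff_eq_add]; simp
  have h0' : Fin.last n + 1 = 0 := by simp
  have hl : IsU (Flag.pi (X := V) (fun i : Fin (n + 1) => i.val)) 1 (el 0 (· - 1)) :=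
    el_U _ _ _ fun i h => by
      show (i - 1).val < i.val
      rw [Fin.coe_sub_one, if_neg h]
      have : i.val ≠ 0 := fun h' => h (Fin.ext h')
      omega
  have hu : IsU (Flag.pi (X := V) (fun i : Fin (n + 1) => 2 * n + 1 - i.val)) 1 (up (Fin.last n)) :=
    up_U _ _ fun i h => by
      have : i.val ≠ n := fun h' => h (Fin.ext h')
      have := i.2
      simp only [Fin.val_last]; omega
  have hl' : IsU (Flag.pi (X := V) (fun i : Fin (n + 1) => n - i.val)) 1 (el (Fin.last n) (· + 1)) :=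
    el_U _ _ _ fun i h => by
      show n - (i + 1).val < n - i.val
      rw [Fin.val_add_one, if_neg h]
      have : i.val ≠ n := fun h' => h (Fin.ext h')
      have := i.2
      omega
  have hu' : IsU (Flag.pi (X := V) (fun i : Fin (n + 1) => n + 1 + i.val)) 1 (up 0) :=
    up_U _ _ fun i h => by
      have : i.val ≠ 0 := fun h' => h (Fin.ext h')
      simp only [Fin.val_zero]; omega
  set m : Perm (Fin (n + 1) → V) := hl.perm * dl (Fin.last n) * hu.perm with hm
  set m' : Perm (Fin (n + 1) → V) := hl'.perm * dl 0 * hu'.perm with hm'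
  have em : ∀ u, m u = u - sg 0 (· - 1) u := fun u => by
    rw [← ldu h3 0 (· - 1) u]; simp only [h0]; rfl
  have em' : ∀ u, m' u = u - sg (Fin.last n) (· + 1) u := fun u => by
    rw [← ldu h3 (Fin.last n) (· + 1) u]; simp only [h0']; rfl
  have am : ∀ u v, m (u + v) = m u + m v := fun u v => by simp only [em, sg_add]; abel
  have am' : ∀ u v, m' (u + v) = m' u + m' v := fun u v => by simp only [em', sg_add]; abel
  have key : ∀ w, m'⁻¹ w + m⁻¹ w = w := by
    intro w
    obtain ⟨z, rfl⟩ := (m * m').surjective w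
    have e1 : m (m' z) = m' (m z) := by
      simp only [em, em', sg_sub, sg_sg, sg_sg']; abel
    have e2 : m'⁻¹ ((m * m') z) = m z := by rw [Perm.mul_apply, e1]; simp
    have e3 : m⁻¹ ((m * m') z) = m' z := by simp
    rw [e2, e3, Perm.mul_apply m m']
    simp only [em, em', sg_sub, sg_sg]; abel
  set L : Perm ((Fin (n + 1) → V) × (Fin (n + 1) → V)) :=
    shL (m⁻¹ : Perm _) * (prodCongr hl.perm (hu'.perm⁻¹ : Perm _) : Perm _) with hL
  set U : Perm ((Fin (n + 1) → V) × (Fin (n + 1) → V)) :=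
    (prodCongr hu.perm (hl'.perm⁻¹ : Perm _) : Perm _) * shU (m⁻¹ : Perm _) with hU
  set Δ : Perm ((Fin (n + 1) → V) × (Fin (n + 1) → V)) := prodCongr (dl (Fin.last n)) (dl 0) with hΔ
  have mL : L ∈ Uni ((Flag.pi (X := V) (fun i : Fin (n + 1) => i.val)).prod
      (Flag.pi (fun i : Fin (n + 1) => n + 1 + i.val))) h3X :=
    Subgroup.mul_mem _ (shL_U (inv_add am) _ _ fun i j => by have := i.2; omega)
      (IsU.prod hl ((Uni _ h3W).inv_mem (x := hu'.perm) hu'))
  have mU : U ∈ Uni ((Flag.pi (X := V) (fun i : Fin (n + 1) => 2 * n + 1 - i.val)).prod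
      (Flag.pi (fun i : Fin (n + 1) => n - i.val))) h3X :=
    Subgroup.mul_mem _ (IsU.prod hu ((Uni _ h3W).inv_mem (x := hl'.perm) hl'))
      (shU_U (inv_add am) _ _ fun i j => by have := i.2; omega)
  have eM : ∀ x, (L * Δ * U) x = (x.1 - sg 0 (· - 1) x.1 + x.2, x.1 + x.2) := by
    intro x
    have : (L * Δ * U) x = (m (x.1 + m⁻¹ x.2), m'⁻¹ x.2 + m⁻¹ (m (x.1 + m⁻¹ x.2))) := by
      rw [hm', mul_inv_rev, mul_inv_rev, dl_inv]; rfl
    rw [this, am, ← em]
    have i1 : ∀ y, m (m⁻¹ y) = y := fun y => by simp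
    have i2 : ∀ y, m⁻¹ (m y) = y := fun y => by simp
    simp only [i1, i2, inv_add am]
    refine Prod.ext rfl ?_
    show m'⁻¹ x.2 + (x.1 + m⁻¹ x.2) = x.1 + x.2
    rw [add_left_comm, key]
  refine ⟨Uni ((Flag.pi (X := V) (fun i : Fin (n + 1) => i.val)).prod
      (Flag.pi (fun i : Fin (n + 1) => n + 1 + i.val))) h3X,
    (Uni ((Flag.pi (X := V) (fun i : Fin (n + 1) => 2 * n + 1 - i.val)).prod
      (Flag.pi (fun i : Fin (n + 1) => n - i.val))) h3X).map
      (MulAut.conj (L * Δ * U)).toMonoidHom, Uni_p h3X, (Uni_p h3X).map _, fun d => ?_⟩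
  set D : Perm ((Fin (n + 1) → V) × (Fin (n + 1) → V)) := prodCongr (Dg n d) (Dg n d) with hD
  have c1 : D * (L * Δ * U) = th n d * (L * Δ * U) * D := by
    refine Equiv.ext fun x => ?_
    show D ((L * Δ * U) x) = th n d ((L * Δ * U) (D x))
    rw [eM, eM, th_apply]
    show (Dg n d _, Dg n d _) = (d • ((Dg n d x.1 - sg 0 (· - 1) (Dg n d x.1) + Dg n d x.2) -
      (Dg n d x.1 + Dg n d x.2)) + (Dg n d x.1 + Dg n d x.2), Dg n d x.1 + Dg n d x.2)
    simp only [Dg_add, map_sub' (Dg_add (V := V) n d), Dg_sg n d (hn d), smul_sub, smul_add]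
    refine Prod.ext ?_ rfl
    simp only; abel
  have c2 : D * Δ = Δ * D := by
    refine Equiv.ext fun x => Prod.ext (funext fun i => ?_) (funext fun i => ?_)
    · show d ^ i.val • dl (Fin.last n) x.1 i = dl (Fin.last n) (Dg n d x.1) i
      by_cases h : i = Fin.last n <;> simp [dl_apply, Dg_apply, h]
    · show d ^ i.val • dl 0 x.2 i = dl 0 (Dg n d x.2) i
      by_cases h : i = 0 <;> simp [dl_apply, Dg_apply, h]
  refine ⟨D * L * D⁻¹ * L⁻¹, Subgroup.mul_mem _ (conj_D n h3X d _ _ mL) (Subgroup.inv_mem _ mL),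
    _, ⟨U⁻¹ * (D * U * D⁻¹), Subgroup.mul_mem _ (Subgroup.inv_mem _ mU) (conj_D n h3X d _ _ mU),
      rfl⟩, ?_⟩
  have c3 : th n d = D * (L * Δ * U) * D⁻¹ * (L * Δ * U)⁻¹ := by rw [c1]; group
  have c4 : Δ = D⁻¹ * Δ * D := by rw [mul_assoc, ← c2]; group
  rw [c3]
  show _ = D * L * D⁻¹ * L⁻¹ * (L * Δ * U * (U⁻¹ * (D * U * D⁻¹)) * (L * Δ * U)⁻¹)
  have c5 : D * (L * Δ * U) * D⁻¹ = D * (L * (D⁻¹ * Δ * D) * U) * D⁻¹ := by rw [← c4]
  rw [c5]; group

end star

def VV (H : Type) : Type := H → ZMod 3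
instance (H : Type) : AddCommGroup (VV H) := Pi.addCommGroup
instance (H : Type) [Finite H] : Finite (VV H) := Pi.finite
instance (H : Type) [Group H] : DistribMulAction H (VV H) where
  smul d v := fun x => v (x * d)
  one_smul v := funext fun x => congrArg v (mul_one x)
  mul_smul a b v := funext fun x => congrArg v (mul_assoc x a b).symm
  smul_zero _ := rfl
  smul_add _ _ _ := rfl

/-- Every finite group embeds in a finite group inside the product of two `3`-subgroups. -/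
theorem star (H : Type) [Group H] [Finite H] :
    ∃ (K : Type) (_ : Group K) (_ : Finite K) (θ : H →* K) (P1 P2 : Subgroup K),
      Function.Injective θ ∧ IsPGroup 3 P1 ∧ IsPGroup 3 P2 ∧
      ∀ h, ∃ a ∈ P1, ∃ b ∈ P2, θ h = a * b := by
  classical
  obtain ⟨n, hn⟩ : ∃ n, Nat.card H = n + 1 := ⟨_, (Nat.succ_pred_eq_of_pos Nat.card_pos).symm⟩
  obtain ⟨P1, P2, h1, h2, h⟩ := star_aux (H := H) (V := VV H) n
    (fun x => funext fun i => (by decide : ∀ a : ZMod 3, a + a + a = 0) (x i))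
    (fun d => by rw [← hn, pow_card_eq_one'])
  refine ⟨_, inferInstance, inferInstance, th (V := VV H) n, P1, P2, ?_, h1, h2, h⟩
  rw [injective_iff_map_eq_one]
  intro d hd
  let v : VV H := fun x => if x = 1 then 1 else 0
  have h1 := congrArg (fun g : Perm ((Fin (n + 1) → VV H) × (Fin (n + 1) → VV H)) =>
    (g (fun _ => v, 0)).1 0 1) hd
  simp only [th_apply, sub_zero, add_zero, Perm.one_apply] at h1
  have h2 : v (1 * d) = v 1 := h1
  by_contra hne
  simp [v, hne] at h2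

end Pool.Agent.H19.BigCell
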