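import Pool.Agent.H19.ButlerDefs

set_option autoImplicit false

namespace Pool.Agent.H19.Butler

abbrev V : Type := Fin 5 → ℚ

def L (i : Fin 7) : V →ₗ[ℚ] V where
  toFun x := ![![0, 0, 0, 0, x 4], ![x 0, x 1 + 2 * x 3, x 2, 0, x 4], ![x 0, x 1, x 2, 0, x 4],
    ![x 0, x 1, x 2 + 2 * x 3, 0, x 4], ![x 0, x 1, x 2, x 3, 0],
    ![x 0 - 2 * x 4, x 1, x 2 - x 4, x 3, 0], ![x 0, x 1, x 2, x 3, x 4]] i
  map_add' x y := by fin_cases i <;> ext j <;> fin_cases j <;> simp <;> ring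
  map_smul' c x := by fin_cases i <;> ext j <;> fin_cases j <;> simp <;> ring

theorem L_def (i : Fin 7) (x : V) : L i x =
    ![![0, 0, 0, 0, x 4], ![x 0, x 1 + 2 * x 3, x 2, 0, x 4], ![x 0, x 1, x 2, 0, x 4],
    ![x 0, x 1, x 2 + 2 * x 3, 0, x 4], ![x 0, x 1, x 2, x 3, 0],
    ![x 0 - 2 * x 4, x 1, x 2 - x 4, x 3, 0], ![x 0, x 1, x 2, x 3, x 4]] i := rfl

def idx (p : ℕ) : Fin 7 :=
  if p = 3 then 0 else if p = 5 then 1 else if p = 7 then 2 else if p = 11 then 3 else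
  if p = 13 then 4 else if p = 17 then 5 else 6

theorem idx_big {p : ℕ} (h : 17 < p) : idx p = 6 := by
  unfold idx; split_ifs <;> first | rfl | omega

theorem idx_surj (i : Fin 7) : ∃ p : Nat.Primes, idx p.1 = i := by
  fin_cases i
  exacts [⟨⟨3, by norm_num⟩, rfl⟩, ⟨⟨5, by norm_num⟩, rfl⟩, ⟨⟨7, by norm_num⟩, rfl⟩,
    ⟨⟨11, by norm_num⟩, rfl⟩, ⟨⟨13, by norm_num⟩, rfl⟩, ⟨⟨17, by norm_num⟩, rfl⟩,
    ⟨⟨2, by norm_num⟩, rfl⟩]

def two : Nat.Primes := ⟨2, Nat.prime_two⟩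

theorem V_ext {x : V} : x = 0 ↔ x 0 = 0 ∧ x 1 = 0 ∧ x 2 = 0 ∧ x 3 = 0 ∧ x 4 = 0 := by
  simp [funext_iff, Fin.forall_fin_succ]

theorem L6 (x : V) : L 6 x = x := by ext j; fin_cases j <;> rfl

theorem L_idem (i : Fin 7) (x : V) : L i (x - L i x) = 0 := by
  fin_cases i <;> simp [V_ext, L_def, Matrix.vecHead, Matrix.vecTail]

def C : Fin 7 → Finset (Fin 7) := ![{0}, {0, 1}, {0, 2}, {0, 3}, {4}, {5}, {6}]

theorem L_C {j i : Fin 7} {x : V} (h : L j x = 0) (hi : i ∈ C j) : L i x = 0 := by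
  fin_cases j <;> fin_cases i <;> simp [C] at hi <;> simp_all [V_ext, L_def]

theorem L_nC {j i : Fin 7} {x : V} (h : L j x = 0) (h' : L i x = 0) (hi : i ∉ C j) :
    x = 0 ∨ (j = 0 ∧ x 0 = 0) := by
  fin_cases j <;> fin_cases i <;> simp [C] at hi <;> simp only [V_ext, L_def] at h h' ⊢ <;>
    simp at h h' ⊢ <;> simp_all

theorem cls {x : V} (hx : x ≠ 0) : (∀ i, L i x ≠ 0) ∨ ∃ j, j ≠ 6 ∧ ∀ i, L i x = 0 ↔ i ∈ C j := by
  by_cases h : ∃ j, j ≠ 0 ∧ L j x = 0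
  · obtain ⟨j, h0, h⟩ := h
    refine Or.inr ⟨j, by rintro rfl; exact hx (L6 x ▸ h), fun i => ⟨fun h' => ?_, L_C h⟩⟩
    by_contra hi
    exact (L_nC h h' hi).elim hx fun h => h0 h.1
  · push Not at h
    by_cases h0 : L 0 x = 0
    · refine Or.inr ⟨0, by decide, fun i => ⟨fun h' => ?_, L_C h0⟩⟩
      by_contra hi
      exact h i (by rintro rfl; exact hi (by decide)) h'
    · exact Or.inl fun i => by by_cases hi : i = 0; exacts [hi ▸ h0, h i hi]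

def G0 : AddSubgroup V where
  carrier := {x | ∀ p : Nat.Primes, ∀ j, L (idx p.1) x j ∈ Zp p}
  zero_mem' p j := by simp
  add_mem' ha hb p j := by rw [map_add]; exact add_mem (ha p j) (hb p j)
  neg_mem' ha p j := by rw [map_neg]; exact neg_mem (ha p j)

theorem G0_int {x : V} {m : Fin 5 → ℤ} (h : ∀ j, x j = m j) : x ∈ G0 := by
  intro p j
  generalize idx p.1 = i
  have : ∃ m : ℤ, L i x j = m := by
    fin_cases i <;> fin_cases j <;> simp only [L_def, h] <;> simp <;> norm_cast <;> simp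
  obtain ⟨m, e⟩ := this
  rw [e]; exact Zp_int p m

theorem G0_L {x : V} (hx : x ∈ G0) (p : Nat.Primes) :
    ∃ n : ℕ, ¬ p.1 ∣ n ∧ ∃ m : Fin 5 → ℤ, ∀ j, (n • L (idx p.1) x) j = m j := clear_den (hx p)

structure Hyp (K : AddSubgroup V) : Prop where
  le : K ≤ G0
  two : ∀ x ∈ G0, 2 • x ∈ K

variable {K : AddSubgroup V}

theorem Hyp.top_iff (hK : Hyp K) {x : V} (hx : x ∈ K) (p : Nat.Primes) :
    ht K x p = ⊤ ↔ L (idx p.1) x = 0 := by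
  rw [ht_top_iff]
  have hp : ∀ k, ((p.1 ^ k : ℕ) : ℚ) ≠ 0 := fun k => by exact_mod_cast pow_ne_zero _ p.2.ne_zero
  constructor
  · intro h
    ext j
    by_contra hj
    obtain ⟨y, hy, e⟩ := h (L (idx p.1) x j).num.natAbs
    have h1 := hK.le hy p j
    have : L (idx p.1) y j = ((p.1 ^ (L (idx p.1) x j).num.natAbs : ℕ) : ℚ)⁻¹ *
        L (idx p.1) x j := by
      generalize (L (idx p.1) x j).num.natAbs = k at e ⊢
      rw [← e, map_nsmul, Pi.smul_apply, nsmul_eq_mul, inv_mul_cancel_left₀ (hp _)]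
    rw [this] at h1
    exact absurd (Nat.le_of_dvd (Int.natAbs_pos.2 (Rat.num_ne_zero.2 hj)) (Zp_pow_dvd h1))
      (not_le.2 (Nat.lt_pow_self p.2.one_lt))
  · intro h k
    by_cases h2 : p.1 = 2
    · rw [h2] at h
      exact ⟨0, zero_mem _, by rw [smul_zero]; exact ((L6 x).symm.trans h).symm⟩
    have e : p.1 ^ k • ((p.1 ^ k : ℕ) : ℚ)⁻¹ • x = x := by
      rw [← Nat.cast_smul_eq_nsmul ℚ, smul_inv_smul₀ (hp k)]
    refine ⟨_, local_global K _ fun q => ?_, e⟩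
    by_cases hq : q.1 = 2
    · refine ⟨p.1 ^ k, fun h => h2 ?_, by rwa [e]⟩
      rw [← hq]
      exact ((Nat.prime_dvd_prime_iff_eq q.2 p.2).1 (q.2.dvd_of_dvd_pow h)).symm
    · refine ⟨2, fun h => hq ((Nat.prime_dvd_prime_iff_eq q.2 Nat.prime_two).1 h),
        hK.two _ fun r j => ?_⟩
      rw [map_smul, Pi.smul_apply, smul_eq_mul]
      by_cases hr : r = p
      · rw [hr, h]; simp
      · exact Zp_div (fun h => hr (Subtype.ext ((Nat.prime_dvd_prime_iff_eq r.2 p.2).1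
          (r.2.dvd_of_dvd_pow h)))) (hK.le hx r j)

def AE (τ : Nat.Primes → ℕ∞) : Prop := {p | τ p ≠ 0}.Finite

theorem fin_le (N : ℕ) : {p : Nat.Primes | p.1 ≤ N}.Finite :=
  (Set.finite_le_nat N).preimage Subtype.val_injective.injOn

theorem Hyp.ae (hK : Hyp K) {x : V} (h0 : x ≠ 0) : AE (ht K x) := by
  obtain ⟨j, hj⟩ := Function.ne_iff.1 h0
  refine (fin_le (17 + (x j).num.natAbs)).subset fun p hp => ?_
  by_contra hlt
  simp only [Set.mem_setOf_eq, not_le] at hlt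
  obtain ⟨y, hy, e⟩ := ht_ne_zero hp
  have h1 := hK.le hy p j
  rw [idx_big (by omega), L6] at h1
  have hp : ((p.1 ^ 1 : ℕ) : ℚ) ≠ 0 := by exact_mod_cast pow_ne_zero _ p.2.ne_zero
  have : y j = ((p.1 ^ 1 : ℕ) : ℚ)⁻¹ * x j := by
    rw [← e, Pi.smul_apply, nsmul_eq_mul, inv_mul_cancel_left₀ hp]
  rw [this] at h1
  have := Nat.le_of_dvd (Int.natAbs_pos.2 (Rat.num_ne_zero.2 hj)) (Zp_pow_dvd h1)
  rw [pow_one] at this
  omega

theorem TLe.ae {τ σ : Nat.Primes → ℕ∞} (h : TLe τ σ) (hσ : AE σ) : AE τ :=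
  (h.1.union hσ).subset fun p hp => by
    by_contra hc
    simp only [Set.mem_union, Set.mem_setOf_eq, not_or, not_lt, not_not] at hc hp
    exact hp (le_antisymm (hc.2 ▸ hc.1) zero_le)

theorem AE.tle {τ σ : Nat.Primes → ℕ∞} (h : AE τ) (h' : ∀ p, τ p = ⊤ → σ p = ⊤) : TLe τ σ :=
  ⟨h.subset fun _ hp => (lt_of_le_of_lt zero_le hp).ne', h'⟩

def W (τ : Nat.Primes → ℕ∞) : Submodule ℚ V where
  carrier := {x | (AE τ ∨ x = 0) ∧ ∀ p, τ p = ⊤ → L (idx p.1) x = 0}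
  zero_mem' := ⟨Or.inr rfl, fun _ _ => map_zero _⟩
  add_mem' ha hb := ⟨by rcases ha.1 with h | h <;> rcases hb.1 with h' | h' <;> simp [*],
    fun p h => by rw [map_add, ha.2 p h, hb.2 p h, add_zero]⟩
  smul_mem' c x hx := ⟨hx.1.imp id fun h => by simp [h],
    fun p h => by rw [map_smul, hx.2 p h, smul_zero]⟩

theorem Hyp.tle_iff (hK : Hyp K) {x : V} (hx : x ∈ K) (τ : Nat.Primes → ℕ∞) :
    TLe τ (ht K x) ↔ x ∈ W τ := by
  by_cases h0 : x = 0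
  · subst h0
    have : ∀ p, ht K 0 p = ⊤ := fun p => (hK.top_iff hx p).2 (map_zero _)
    exact ⟨fun _ => zero_mem _, fun _ => ⟨by simp [this], fun p _ => this p⟩⟩
  · exact ⟨fun h => ⟨Or.inl (h.ae (hK.ae h0)), fun p hp => (hK.top_iff hx p).1 (h.2 p hp)⟩,
      fun h => (h.1.resolve_right h0).tle fun p hp => (hK.top_iff hx p).2 (h.2 p hp)⟩

theorem Hyp.gt (hK : Hyp K) (τ : Nat.Primes → ℕ∞) : Gt K τ = K ⊓ (W τ).toAddSubgroup := by
  rw [Gt, ← AddSubgroup.closure_eq (K ⊓ (W τ).toAddSubgroup)]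
  congr 1; ext x
  exact ⟨fun h => ⟨h.1, (hK.tle_iff h.1 τ).1 h.2⟩, fun h => ⟨h.1, (hK.tle_iff h.1 τ).2 h.2⟩⟩

def Ws (τ : Nat.Primes → ℕ∞) : Submodule ℚ V := ⨆ σ : {σ // TLe τ σ ∧ ¬ TLe σ τ}, W σ.1

theorem Hyp.full (hK : Hyp K) (x : V) : ∃ n : ℕ, n ≠ 0 ∧ n • x ∈ K := by
  obtain ⟨⟨b, hb⟩, h⟩ := IsLocalization.exist_integer_multiples_of_finite
    (nonZeroDivisors ℤ) x
  choose m hm using h
  have h1 : b • x ∈ G0 := G0_int (m := m) fun j => (hm j).symm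
  refine ⟨2 * b.natAbs, by have := nonZeroDivisors.ne_zero hb; omega, ?_⟩
  rw [mul_smul]
  refine hK.two _ ?_
  rw [← natCast_zsmul, Int.natCast_natAbs]
  exact (abs_choice b).elim (fun h => by rwa [h]) fun h => by rw [h, neg_smul]; exact neg_mem h1

theorem Hyp.sharp (hK : Hyp K) (τ : Nat.Primes → ℕ∞) :
    Gsharp K τ = K ⊓ (Ws τ).toAddSubgroup := by
  rw [Gsharp, ← AddSubgroup.closure_eq (K ⊓ (Ws τ).toAddSubgroup)]
  congr 1; ext x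
  refine ⟨fun ⟨h, n, hn, h2⟩ => ⟨h, ?_⟩, fun h => ⟨h.1, ?_⟩⟩
  · have : Gstar K τ ≤ (Ws τ).toAddSubgroup := iSup₂_le fun σ hσ => by
      rw [hK.gt]
      exact inf_le_right.trans (le_iSup (fun σ : {σ // TLe τ σ ∧ ¬ TLe σ τ} => W σ.1) ⟨σ, hσ⟩)
    have h3 : n • x ∈ Ws τ := this h2
    rw [← Nat.cast_smul_eq_nsmul ℚ] at h3
    exact ((Ws τ).smul_mem_iff (Nat.cast_ne_zero.2 hn)).1 h3
  · refine Submodule.iSup_induction _ (motive := fun x => ∃ n : ℕ, n ≠ 0 ∧ n • x ∈ Gstar K τ)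
      h.2 (fun σ y hy => ?_) ⟨1, one_ne_zero, by simp⟩ ?_
    · obtain ⟨n, hn, h⟩ := hK.full y
      refine ⟨n, hn, le_iSup₂ (f := fun σ (_ : σ ∈ {σ | TLe τ σ ∧ ¬ TLe σ τ}) => Gt K σ) σ.1 σ.2 ?_⟩
      rw [hK.gt]; exact ⟨h, nsmul_mem hy n⟩
    · rintro y z ⟨n, hn, h⟩ ⟨m, hm, h'⟩
      refine ⟨n * m, mul_ne_zero hn hm, ?_⟩
      rw [smul_add, mul_comm n, mul_smul, mul_comm m, mul_smul]
      exact add_mem (nsmul_mem h _) (nsmul_mem h' _)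

theorem W_anti {τ σ : Nat.Primes → ℕ∞} (h : TLe τ σ) : W σ ≤ W τ := fun _ hx =>
  ⟨hx.1.imp h.ae id, fun p hp => hx.2 p (h.2 p hp)⟩

theorem Ws_le (τ : Nat.Primes → ℕ∞) : Ws τ ≤ W τ := iSup_le fun σ => W_anti σ.2.1

theorem le_Ws {τ σ : Nat.Primes → ℕ∞} (h : TLe τ σ) (h' : ¬ TLe σ τ) : W σ ≤ Ws τ :=
  le_iSup (fun σ : {σ // TLe τ σ ∧ ¬ TLe σ τ} => W σ.1) ⟨σ, h, h'⟩

theorem Ws_congr {τ σ : Nat.Primes → ℕ∞} (h : TLe τ σ) (h' : TLe σ τ) : Ws τ ≤ Ws σ :=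
  iSup_le fun ρ => le_Ws (h'.trans ρ.2.1) fun h2 => ρ.2.2 (h2.trans h')

noncomputable def crit (j : Fin 7) (p : Nat.Primes) : ℕ∞ := if idx p.1 ∈ C j then ⊤ else 0

theorem crit_top {j : Fin 7} {p : Nat.Primes} : crit j p = ⊤ ↔ idx p.1 ∈ C j := by
  unfold crit; split_ifs with h <;> simp [h]

theorem crit_ae {j : Fin 7} (hj : j ≠ 6) : AE (crit j) :=
  (fin_le 17).subset fun p hp => by
    by_contra h
    apply hp
    rw [crit, idx_big (not_le.1 h), if_neg]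
    clear hp; revert j; decide

theorem mem_W_crit {j : Fin 7} (hj : j ≠ 6) {x : V} : x ∈ W (crit j) ↔ L j x = 0 := by
  refine ⟨fun h => ?_, fun h => ⟨Or.inl (crit_ae hj), fun p hp => L_C h (crit_top.1 hp)⟩⟩
  obtain ⟨p, rfl⟩ := idx_surj j
  refine h.2 p (crit_top.2 ?_)
  generalize idx p.1 = i; revert i; decide

theorem crit_le {i j : Fin 7} (hi : i ≠ 6) : TLe (crit i) (crit j) ↔ C i ⊆ C j := by
  refine ⟨fun h k hk => ?_, fun h => (crit_ae hi).tle fun p hp => crit_top.2 (h (crit_top.1 hp))⟩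
  obtain ⟨p, rfl⟩ := idx_surj k
  exact crit_top.1 (h.2 p (crit_top.2 hk))

theorem Ws_crit {j : Fin 7} (hj : j ≠ 6) {x : V} (hx : x ∈ Ws (crit j)) :
    x = 0 ∨ (j = 0 ∧ x 0 = 0) := by
  refine Submodule.iSup_induction _ (motive := fun x => x = 0 ∨ (j = 0 ∧ x 0 = 0)) hx
    (fun σ y hy => ?_) (Or.inl rfl) ?_
  · rcases hy.1 with h | h
    · obtain ⟨p, h1, h2⟩ : ∃ p, σ.1 p = ⊤ ∧ crit j p ≠ ⊤ := by
        by_contra hc; push Not at hc; exact σ.2.2 (h.tle hc)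
      exact L_nC ((mem_W_crit hj).1 (W_anti σ.2.1 hy)) (hy.2 p h1) (mt crit_top.2 h2)
    · exact Or.inl h
  · rintro y z (rfl | h) (rfl | h') <;> simp [*]

theorem mem_Ws0 {x : V} (h0 : x 0 = 0) (h4 : x 4 = 0) : x ∈ Ws (crit 0) := by
  have key : ∀ j : Fin 7, j ≠ 6 → C 0 ⊆ C j → ¬ C j ⊆ C 0 → ∀ y, L j y = 0 → y ∈ Ws (crit 0) :=
    fun j h1 h2 h3 y hy => le_Ws ((crit_le (by decide)).2 h2) (mt (crit_le h1).1 h3)
      ((mem_W_crit h1).2 hy)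
  have : x = ![0, x 1, 0, -x 1 / 2, 0] + ![0, 0, 0, x 3 + x 1 / 2 + x 2 / 2, 0] +
      ![0, 0, x 2, -x 2 / 2, 0] := by
    ext j; fin_cases j <;> simp [h0, h4]; ring
  rw [this]
  refine add_mem (add_mem (key 1 ?_ ?_ ?_ _ ?_) (key 2 ?_ ?_ ?_ _ ?_)) (key 3 ?_ ?_ ?_ _ ?_) <;>
    first | decide | (simp [V_ext, L_def]; try ring)

theorem noncrit {τ : Nat.Primes → ℕ∞} (h : ∀ j, j ≠ 6 → ¬ (TLe τ (crit j) ∧ TLe (crit j) τ)) :
    W τ ≤ Ws τ := by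
  intro x hx
  by_cases h0 : x = 0
  · rw [h0]; exact zero_mem _
  have hτ := hx.1.resolve_right h0
  rcases cls h0 with hc | ⟨j, hj, hc⟩
  · have key : ∀ j, j ≠ 6 → ∀ y, L j y = 0 → y ∈ Ws τ := fun j hj y hy =>
      have h1 : TLe τ (crit j) := hτ.tle fun p hp => (hc _ (hx.2 p hp)).elim
      le_Ws h1 (fun h2 => h j hj ⟨h1, h2⟩) ((mem_W_crit hj).2 hy)
    have : x = (x - L 0 x) + L 0 x := by simp
    rw [this]
    exact add_mem (key 0 (by decide) _ (L_idem _ _)) (key 4 (by decide) _ (by simp [V_ext, L_def]))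
  · have h1 : TLe τ (crit j) := hτ.tle fun p hp => crit_top.2 ((hc _).1 (hx.2 p hp))
    refine le_Ws h1 (fun h2 => h j hj ⟨h1, h2⟩) ((mem_W_crit hj).2 ((hc j).2 ?_))
    clear hc h1; revert j; decide

end Pool.Agent.H19.Butler
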