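import Mathlib

set_option autoImplicit false

namespace Pool.Agent.H19.Butler

variable {V : Type} [AddCommGroup V] [Module ℚ V]

/-- The height sequence of `x` in `G`. -/
noncomputable def ht (G : AddSubgroup V) (x : V) (p : Nat.Primes) : ℕ∞ :=
  ⨆ k ∈ {k : ℕ | ∃ y ∈ G, p.1 ^ k • y = x}, (k : ℕ∞)

/-- The type of the height sequence `χ` is at most the type of `ψ`. -/
def TLe (χ ψ : Nat.Primes → ℕ∞) : Prop := {p | ψ p < χ p}.Finite ∧ ∀ p, χ p = ⊤ → ψ p = ⊤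

/-- `G(τ)`. -/
def Gt (G : AddSubgroup V) (τ : Nat.Primes → ℕ∞) : AddSubgroup V :=
  AddSubgroup.closure {x | x ∈ G ∧ TLe τ (ht G x)}

/-- `G*(τ)`. -/
def Gstar (G : AddSubgroup V) (τ : Nat.Primes → ℕ∞) : AddSubgroup V :=
  ⨆ σ ∈ {σ | TLe τ σ ∧ ¬ TLe σ τ}, Gt G σ

/-- `G#(τ)`, the purification of `G*(τ)` in `G`. -/
def Gsharp (G : AddSubgroup V) (τ : Nat.Primes → ℕ∞) : AddSubgroup V :=
  AddSubgroup.closure {x | x ∈ G ∧ ∃ n : ℕ, n ≠ 0 ∧ n • x ∈ Gstar G τ}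

/-- Rank one: nonzero and contained in a line. -/
def Rank1 (D : AddSubgroup V) : Prop := D ≠ ⊥ ∧ ∃ v : V, ∀ x ∈ D, ∃ q : ℚ, x = q • v

/-- Homogeneous completely decomposable of type `τ` (finite rank, possibly zero). -/
def HCD (D : AddSubgroup V) (τ : Nat.Primes → ℕ∞) : Prop :=
  ∃ (n : ℕ) (E : Fin n → AddSubgroup V), iSupIndep E ∧ ⨆ i, E i = D ∧ ∀ i, Rank1 (E i) ∧
    ∀ x ∈ E i, x ≠ 0 → TLe τ (ht (E i) x) ∧ TLe (ht (E i) x) τ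

/-- `C` is the sum of one choice of complements `G_τ`, one for each type. -/
def Regulating (G C : AddSubgroup V) : Prop :=
  ∃ F : (Nat.Primes → ℕ∞) → AddSubgroup V, (∀ τ σ, TLe τ σ → TLe σ τ → F τ = F σ) ∧
    (∀ τ, HCD (F τ) τ ∧ Disjoint (F τ) (Gsharp G τ) ∧ F τ ⊔ Gsharp G τ = Gt G τ) ∧ C = ⨆ τ, F τ

/-- The regulator. -/
def Reg (G : AddSubgroup V) : AddSubgroup V := sInf {C | Regulating G C}

/-- A finite sum of rank-one subgroups. -/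
def IsButler (G : AddSubgroup V) : Prop :=
  ∃ (n : ℕ) (E : Fin n → AddSubgroup V), (∀ i, Rank1 (E i)) ∧ ⨆ i, E i = G

theorem TLe.refl (χ : Nat.Primes → ℕ∞) : TLe χ χ := ⟨by simp, fun _ h => h⟩

theorem TLe.trans {a b c : Nat.Primes → ℕ∞} (h : TLe a b) (h' : TLe b c) : TLe a c :=
  ⟨(h.1.union h'.1).subset fun p hp => by
    by_contra hc
    simp only [Set.mem_union, Set.mem_setOf_eq, not_or, not_lt] at hc hp
    exact (hc.1.trans hc.2).not_gt hp, fun p hp => h'.2 p (h.2 p hp)⟩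

/-- `p`-integral rationals. -/
def Zp (p : Nat.Primes) : AddSubgroup ℚ where
  carrier := {r | ∃ n : ℕ, ¬ p.1 ∣ n ∧ ∃ m : ℤ, (n : ℚ) * r = m}
  zero_mem' := ⟨1, p.2.not_dvd_one, 0, by simp⟩
  add_mem' := by
    rintro a b ⟨n, hn, m, e⟩ ⟨n', hn', m', e'⟩
    refine ⟨n * n', fun h => ((Nat.Prime.dvd_mul p.2).1 h).elim hn hn', n' * m + n * m', ?_⟩
    push_cast; rw [← e, ← e']; ring
  neg_mem' := by
    rintro a ⟨n, hn, m, e⟩
    exact ⟨n, hn, -m, by push_cast; rw [← e]; ring⟩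

theorem Zp_int (p : Nat.Primes) (m : ℤ) : (m : ℚ) ∈ Zp p := ⟨1, p.2.not_dvd_one, m, by simp⟩

theorem lin {p : Nat.Primes} (c : ℤ) {a r : ℚ} (h : a ∈ Zp p) (e : r = c * a) : r ∈ Zp p := by
  rw [e, ← zsmul_eq_mul]; exact zsmul_mem h c

theorem Zp_div {p : Nat.Primes} {r : ℚ} {n : ℕ} (hn : ¬ p.1 ∣ n) (h : r ∈ Zp p) :
    (n : ℚ)⁻¹ * r ∈ Zp p := by
  obtain ⟨n', hn', m, e⟩ := h
  have : (n : ℚ) ≠ 0 := by rintro h; exact hn (by rw [Nat.cast_eq_zero.1 h]; simp)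
  refine ⟨n' * n, fun h => ((Nat.Prime.dvd_mul p.2).1 h).elim hn' hn, m, ?_⟩
  rw [← e]; push_cast; field_simp

theorem Zp_pow_dvd {p : Nat.Primes} {r : ℚ} {k : ℕ} (h : ((p.1 ^ k : ℕ) : ℚ)⁻¹ * r ∈ Zp p) :
    p.1 ^ k ∣ r.num.natAbs := by
  obtain ⟨n, hn, m, e⟩ := h
  have hp : ((p.1 ^ k : ℕ) : ℚ) ≠ 0 := by exact_mod_cast pow_ne_zero _ p.2.ne_zero
  have : (n : ℤ) * r.num = (p.1 ^ k : ℕ) * (m * r.den) := by
    have h2 : (n : ℚ) * r.num = (p.1 ^ k : ℕ) * (m * r.den) := by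
      rw [← e, ← Rat.mul_den_eq_num]; field_simp
    exact_mod_cast h2
  have h3 := congrArg Int.natAbs this
  simp only [Int.natAbs_mul, Int.natAbs_natCast] at h3
  exact (Nat.Coprime.pow_left k ((Nat.Prime.coprime_iff_not_dvd p.2).2 hn)).dvd_of_dvd_mul_left
    ⟨_, h3⟩

theorem local_global {A : Type} [AddCommGroup A] (C : AddSubgroup A) (x : A)
    (h : ∀ p : Nat.Primes, ∃ n : ℕ, ¬ p.1 ∣ n ∧ n • x ∈ C) : x ∈ C := by
  obtain ⟨d, hd⟩ := Int.subgroup_cyclic (C.comap (zmultiplesHom A x))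
  have key : ∀ n : ℤ, n • x ∈ C ↔ d ∣ n := fun n => by
    rw [← Int.mem_zmultiples_iff, AddSubgroup.zmultiples_eq_closure, ← hd]; rfl
  by_cases h1 : d.natAbs = 1
  · simpa using (key 1).2 (Int.isUnit_iff_natAbs_eq.2 h1).dvd
  · obtain ⟨p, hp, hpd⟩ := Nat.exists_prime_and_dvd h1
    obtain ⟨n, hn, h2⟩ := h ⟨p, hp⟩
    exact (hn (hpd.trans (Int.natAbs_dvd_natAbs.2 ((key n).1 (by simpa using h2))))).elim

theorem clear_den {p : Nat.Primes} {x : Fin 5 → ℚ} (h : ∀ j, x j ∈ Zp p) :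
    ∃ n : ℕ, ¬ p.1 ∣ n ∧ ∃ m : Fin 5 → ℤ, ∀ j, (n • x) j = m j := by
  choose n hn m e using h
  refine ⟨∏ j, n j, fun h => ?_, fun j => (∏ i ∈ Finset.univ.erase j, n i : ℕ) * m j, fun j => ?_⟩
  · obtain ⟨j, -, hj⟩ := (Prime.dvd_finset_prod_iff p.2.prime _).1 h
    exact hn j hj
  · rw [← Finset.prod_erase_mul _ _ (Finset.mem_univ j), Pi.smul_apply, nsmul_eq_mul]
    push_cast; rw [← e, mul_assoc]

theorem ht_top_iff {G : AddSubgroup V} {x : V} {p : Nat.Primes} :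
    ht G x p = ⊤ ↔ ∀ k : ℕ, ∃ y ∈ G, p.1 ^ k • y = x := by
  constructor
  · intro h k
    by_contra hk
    have : ht G x p ≤ k := iSup₂_le fun k' ⟨y, hy, e⟩ => Nat.cast_le.2 (by
      by_contra hlt
      obtain ⟨j, rfl⟩ := Nat.exists_eq_add_of_le (not_le.1 hlt).le
      exact hk ⟨p.1 ^ j • y, nsmul_mem hy _, by rw [smul_smul, ← pow_add, e]⟩)
    rw [h] at this; simp at this
  · intro h
    exact ENat.eq_top_iff_forall_ge.2 fun k => le_iSup₂_of_le (f := fun k' (_ : k' ∈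
      {k : ℕ | ∃ y ∈ G, p.1 ^ k • y = x}) => (k' : ℕ∞)) k (h k) le_rfl

theorem ht_ne_zero {G : AddSubgroup V} {x : V} {p : Nat.Primes} (h : ht G x p ≠ 0) :
    ∃ y ∈ G, p.1 ^ 1 • y = x := by
  by_contra hk
  refine h (le_antisymm (iSup₂_le fun k' ⟨y, hy, e⟩ => ?_) zero_le)
  cases k' with
  | zero => simp
  | succ j => exact (hk ⟨p.1 ^ j • y, nsmul_mem hy _, by
      rw [smul_smul, ← pow_add, add_comm, e]⟩).elim

theorem ht_inf (G : AddSubgroup V) (W : Submodule ℚ V) {x : V} (hx : x ∈ W) :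
    ht (G ⊓ W.toAddSubgroup) x = ht G x := by
  funext p
  have : ∀ k : ℕ, (∃ y ∈ G ⊓ W.toAddSubgroup, p.1 ^ k • y = x) ↔ ∃ y ∈ G, p.1 ^ k • y = x :=
    fun k => ⟨fun ⟨y, hy, e⟩ => ⟨y, hy.1, e⟩, fun ⟨y, hy, e⟩ => ⟨y, ⟨hy, by
      rw [← e, ← Nat.cast_smul_eq_nsmul ℚ] at hx
      exact (W.smul_mem_iff (Nat.cast_ne_zero.2 (pow_ne_zero _ p.2.ne_zero))).1 hx⟩, e⟩⟩
  simp only [ht, this]

end Pool.Agent.H19.Butler
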