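import Mathlib

set_option autoImplicit false
set_option linter.unusedSectionVars false
set_option linter.unusedVariables false

namespace Pool.Agent.H19.Real

open scoped TensorProduct

variable {A : Type} [Ring A] [Algebra ℚ A] (R : Subring A)

/-- localisation of `R` at `p` inside `A` -/
def Loc (p : ℕ) : AddSubgroup A where
  carrier := {v | ∃ s : ℕ, p.Coprime s ∧ s • v ∈ R}
  zero_mem' := ⟨1, by simp, by simp⟩
  add_mem' := by
    rintro a b ⟨s, hs, ha⟩ ⟨t, ht, hb⟩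
    refine ⟨s * t, hs.mul_right ht, ?_⟩
    rw [smul_add, mul_smul s t b, mul_comm s t, mul_smul t s a, smul_comm s t b, smul_comm t s b]
    exact add_mem (nsmul_mem ha t) (nsmul_mem hb s)
  neg_mem' := by
    rintro a ⟨s, hs, ha⟩
    exact ⟨s, hs, by rw [smul_neg]; exact neg_mem ha⟩

variable {R}

lemma loc_mul {p : ℕ} {v r : A} (hv : v ∈ Loc R p) (hr : r ∈ R) : v * r ∈ Loc R p := by
  obtain ⟨s, hs, h⟩ := hv
  exact ⟨s, hs, by rw [← smul_mul_assoc]; exact mul_mem h hr⟩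

lemma mul_loc {p : ℕ} {v r : A} (hr : r ∈ R) (hv : v ∈ Loc R p) : r * v ∈ Loc R p := by
  obtain ⟨s, hs, h⟩ := hv
  exact ⟨s, hs, by rw [← mul_smul_comm]; exact mul_mem hr h⟩

lemma loc_of_mem (p : ℕ) {r : A} (hr : r ∈ R) : r ∈ Loc R p := ⟨1, by simp, by simpa⟩

lemma pow_inv_smul {V : Type} [AddCommGroup V] [Module ℚ V] {q : ℕ} (hq : q ≠ 0) (k : ℕ) (x : V) :
    q ^ k • ((q : ℚ)⁻¹ ^ k • x) = x := by
  have : (q : ℚ) ≠ 0 := by exact_mod_cast hq
  rw [← Nat.cast_smul_eq_nsmul ℚ, smul_smul]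
  simp [this]

lemma nsmul_inj {V : Type} [AddCommGroup V] [Module ℚ V] {N : ℕ} (hN : N ≠ 0) {x y : V}
    (h : N • x = N • y) : x = y := by
  rw [← Nat.cast_smul_eq_nsmul ℚ, ← Nat.cast_smul_eq_nsmul ℚ] at h
  exact smul_right_injective V (by exact_mod_cast hN) h

lemma loc_inv {p q : ℕ} (h : p.Coprime q) (hq : q ≠ 0) (k : ℕ) {x : A} (hx : x ∈ R) :
    (q : ℚ)⁻¹ ^ k • x ∈ Loc R p :=
  ⟨q ^ k, h.pow_right k, by rwa [pow_inv_smul hq]⟩

lemma mem_of_loc (hsp : ∀ a : A, ∃ N : ℕ, N ≠ 0 ∧ N • a ∈ R) {v : A}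
    (h : ∀ p : ℕ, p.Prime → v ∈ Loc R p) : v ∈ R := by
  classical
  have h1 := Nat.find_spec (hsp v)
  by_cases h2 : Nat.find (hsp v) = 1
  · rw [h2, one_smul] at h1
    exact h1.2
  obtain ⟨s, hs, h3⟩ := h _ (Nat.minFac_prime h2)
  set N := Nat.find (hsp v)
  have h4 : N.gcd s • v ∈ R := by
    rw [← natCast_zsmul, Nat.gcd_eq_gcd_ab, add_smul, mul_comm, mul_smul, mul_comm, mul_smul,
      natCast_zsmul, natCast_zsmul]
    exact add_mem (zsmul_mem h1.2 _) (zsmul_mem h3 _)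
  have h5 : N ≤ N.gcd s := Nat.find_min' _ ⟨Nat.gcd_ne_zero_left h1.1, h4⟩
  have h6 : N.gcd s = N := le_antisymm (Nat.gcd_le_left _ (Nat.pos_of_ne_zero h1.1)) h5
  exact absurd ((Nat.minFac_dvd N).trans (h6 ▸ Nat.gcd_dvd_right N s))
    ((Nat.minFac_prime h2).coprime_iff_not_dvd.mp hs)

lemma bound (hsp : ∀ a : A, ∃ N : ℕ, N ≠ 0 ∧ N • a ∈ R)
    (hsep : ∀ x : R, x ≠ 0 → ∃ ψ : R →+ ℤ, ψ x ≠ 0) {v : A} (hv : v ≠ 0) :
    ∃ D : ℕ, ∀ p k : ℕ, ∀ w ∈ Loc R p, p ^ k • w = v → p ^ k ≤ D := by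
  obtain ⟨N, hN, h⟩ := hsp v
  obtain ⟨ψ, hψ⟩ := hsep ⟨_, h⟩ fun h0 => hv (nsmul_inj hN
    ((congrArg Subtype.val h0).trans (smul_zero N).symm))
  refine ⟨(ψ ⟨_, h⟩).natAbs, ?_⟩
  rintro p k w ⟨s, hs, hw⟩ rfl
  have h1 : s • (⟨_, h⟩ : R) = p ^ k • N • ⟨_, hw⟩ := by
    apply Subtype.ext
    change s • N • p ^ k • w = p ^ k • N • s • w
    simp only [smul_smul]
    congr 1
    ring
  have h2 := congrArg (fun x => (ψ x).natAbs) h1
  simp only [map_nsmul] at h2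
  simp only [nsmul_eq_mul _ (ψ _), nsmul_eq_mul (p ^ k) (_ * ψ _), Int.natAbs_mul,
    Int.natAbs_natCast] at h2
  exact Nat.le_of_dvd (Int.natAbs_pos.mpr hψ)
    ((hs.pow_left k).dvd_of_dvd_mul_left ⟨_, h2⟩)

section act
variable {V : Type} [AddCommGroup V] [Module A V] {G : AddSubgroup V}

/-- the action of `R` on an `R`-stable subgroup -/
def act (hG : ∀ r ∈ R, ∀ g ∈ G, r • g ∈ G) : R →+* AddMonoid.End G where
  toFun c := ((DistribSMul.toAddMonoidHom V c.1).comp G.subtype).codRestrict G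
    fun g => hG _ c.2 _ g.2
  map_one' := AddMonoidHom.ext fun g => Subtype.ext (one_smul _ _)
  map_mul' a b := AddMonoidHom.ext fun g => Subtype.ext (mul_smul _ _ _)
  map_zero' := AddMonoidHom.ext fun g => Subtype.ext (zero_smul _ _)
  map_add' a b := AddMonoidHom.ext fun g => Subtype.ext (add_smul _ _ _)

lemma act_bij (hG : ∀ r ∈ R, ∀ g ∈ G, r • g ∈ G) (inj : ∀ c : A, (∀ g ∈ G, c • g = 0) → c = 0)
    (surj : ∀ φ : G →+ G, ∃ c ∈ R, ∀ g, (φ g).1 = c • g.1) : Function.Bijective (act hG) := by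
  constructor
  · rw [injective_iff_map_eq_zero]
    exact fun c hc => Subtype.ext (inj _ fun g hg =>
      congrArg (fun φ : G →+ G => (φ ⟨g, hg⟩).1) hc)
  · intro φ
    obtain ⟨c, hc, h⟩ := surj φ
    exact ⟨⟨c, hc⟩, AddMonoidHom.ext fun g => Subtype.ext (h g).symm⟩

end act

theorem real2 (hsp : ∀ a : A, ∃ N : ℕ, N ≠ 0 ∧ N • a ∈ R)
    (hsep : ∀ x : R, x ≠ 0 → ∃ ψ : R →+ ℤ, ψ x ≠ 0) [Countable R] :
    ∃ G : AddSubgroup (A × A), Nonempty (R ≃+* AddMonoid.End G) := by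
  obtain ⟨f, hf⟩ := exists_surjective_nat R
  let ρ : ℕ → A := fun q => f (Nat.count Nat.Prime q - 1)
  have hρ : ∀ r ∈ R, ∃ q : ℕ, q.Prime ∧ q ≠ 2 ∧ ρ q = r := by
    intro r hr
    obtain ⟨n, hn⟩ := hf ⟨r, hr⟩
    refine ⟨Nat.nth Nat.Prime (n + 1), Nat.prime_nth_prime _, fun h => ?_, ?_⟩
    · rw [← Nat.nth_prime_zero_eq_two] at h
      exact absurd (Nat.nth_injective Nat.infinite_setOfPred_prime h) (by omega)
    · simp [ρ, Nat.count_nth_of_infinite Nat.infinite_setOfPred_prime, hn]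
  let j : ℕ → A → A × A := fun q x => if q = 2 then (0, x) else (x, x * ρ q)
  let L : ℕ → A × A →ₗ[ℚ] A := fun q => if q = 2 then LinearMap.fst ℚ A A else
    LinearMap.snd ℚ A A - LinearMap.mulRight ℚ (ρ q) ∘ₗ LinearMap.fst ℚ A A
  let G : AddSubgroup (A × A) := AddSubgroup.closure
    {g | ∃ q : ℕ, q.Prime ∧ ∃ k : ℕ, ∃ x ∈ R, g = (q : ℚ)⁻¹ ^ k • j q x}
  have hj : ∀ q : ℕ, q.Prime → ∀ (k : ℕ), ∀ x ∈ R, (q : ℚ)⁻¹ ^ k • j q x ∈ G :=
    fun q hq k x hx => AddSubgroup.subset_closure ⟨q, hq, k, x, hx, rfl⟩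
  have hL : ∀ p : ℕ, p.Prime → ∀ g ∈ G, L p g ∈ Loc R p := by
    intro p hp g hg
    refine (AddSubgroup.closure_le ((Loc R p).comap (L p).toAddMonoidHom)).mpr ?_ hg
    rintro _ ⟨q, hq, k, x, hx, rfl⟩
    change L p _ ∈ Loc R p
    rw [map_smul]
    by_cases h : p = q
    · subst h
      have : L p (j p x) = 0 := by
        simp only [L, j]
        split_ifs <;> simp
      rw [this, smul_zero]
      exact zero_mem _
    · refine loc_inv ((Nat.coprime_primes hp hq).mpr h) hq.ne_zero k ?_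
      have h1 : (j q x).1 ∈ R ∧ (j q x).2 ∈ R := by
        simp only [j]
        split_ifs
        exacts [⟨zero_mem _, hx⟩, ⟨hx, mul_mem hx (f _).2⟩]
      simp only [L]
      split_ifs
      exacts [h1.1, sub_mem h1.2 (mul_mem h1.1 (f _).2)]
  have hG : ∀ r ∈ R, ∀ g ∈ G, r • g ∈ G := by
    intro r hr g hg
    refine (AddSubgroup.closure_le (G.comap (DistribSMul.toAddMonoidHom _ r))).mpr ?_ hg
    rintro _ ⟨q, hq, k, x, hx, rfl⟩
    change r • _ ∈ G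
    have : r • j q x = j q (r * x) := by
      simp only [j]
      split_ifs <;> simp [mul_assoc]
    rw [smul_comm, this]
    exact hj q hq k _ (mul_mem hr hx)
  have h1 : ∀ x ∈ R, (x, (0 : A)) ∈ G := by
    intro x hx
    obtain ⟨q, hq, h2, h⟩ := hρ 0 (zero_mem _)
    simpa [j, h2, h] using hj q hq 0 x hx
  have h2 : ∀ x ∈ R, ((0 : A), x) ∈ G := fun x hx => by simpa [j] using hj 2 Nat.prime_two 0 x hx
  refine ⟨G, ⟨RingEquiv.ofBijective _ (act_bij hG (fun c hc => ?_) fun φ => ?_)⟩⟩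
  · simpa using hc _ (h1 1 (one_mem _))
  have pres : ∀ q : ℕ, q.Prime → ∀ x ∈ R, ∀ g : G, g.1 = j q x → L q (φ g) = 0 := by
    intro q hq x hx g hg
    by_contra h0
    obtain ⟨D, hD⟩ := bound hsp hsep h0
    refine absurd (hD q D _ (hL q hq _ (φ ⟨_, hj q hq D x hx⟩).2) ?_)
      (Nat.lt_pow_self hq.one_lt).not_ge
    rw [← map_nsmul, ← AddSubgroup.coe_nsmul, ← map_nsmul]
    congr 3
    exact Subtype.ext ((pow_inv_smul hq.ne_zero _ _).trans hg.symm)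
  have a1 : ∀ x (hx : x ∈ R), (φ ⟨_, h1 x hx⟩).1.2 = 0 := by
    intro x hx
    obtain ⟨q, hq, h2, h⟩ := hρ 0 (zero_mem _)
    simpa [L, h2, h] using pres q hq x hx ⟨_, h1 x hx⟩ (by simp [j, h2, h])
  have a2 : ∀ x (hx : x ∈ R), (φ ⟨_, h2 x hx⟩).1.1 = 0 := fun x hx => by
    simpa [L] using pres 2 Nat.prime_two x hx ⟨_, h2 x hx⟩ (by simp [j])
  have a3 : ∀ x (hx : x ∈ R) r (hr : r ∈ R) (h : x * r ∈ R),
      (φ ⟨_, h2 _ h⟩).1.2 = (φ ⟨_, h1 x hx⟩).1.1 * r := by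
    intro x hx r hr h
    obtain ⟨q, hq, h3, h4⟩ := hρ r hr
    have := pres q hq x hx (⟨_, h1 x hx⟩ + ⟨_, h2 _ h⟩) (by simp [j, h3, h4])
    rw [map_add, AddSubgroup.coe_add] at this
    simpa [L, h3, h4, a1 x hx, a2 _ h, sub_eq_zero] using this
  set c := (φ ⟨_, h1 1 (one_mem _)⟩).1.1 with hc
  have b2 : ∀ x (hx : x ∈ R), (φ ⟨_, h2 x hx⟩).1 = (0, c * x) := fun x hx =>
    Prod.ext (a2 x hx) (by simpa using a3 1 (one_mem _) x hx (by simpa))
  have b1 : ∀ x (hx : x ∈ R), (φ ⟨_, h1 x hx⟩).1 = (c * x, 0) := fun x hx =>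
    Prod.ext (by simpa [b2 x hx] using (a3 x hx 1 (one_mem _) (by simpa)).symm) (a1 x hx)
  refine ⟨c, mem_of_loc hsp fun p hp => ?_, fun g => ?_⟩
  · by_cases h : p = 2
    · simpa [L, h, b1] using hL p hp _ (φ ⟨_, h1 1 (one_mem _)⟩).2
    · simpa [L, h, b2] using hL p hp _ (φ ⟨_, h2 1 (one_mem _)⟩).2
  · obtain ⟨N, hN, e1⟩ := hsp g.1.1
    obtain ⟨M, hM, e2⟩ := hsp g.1.2
    have e3 : (M * N) • g = ⟨_, h1 _ (nsmul_mem e1 M)⟩ + ⟨_, h2 _ (nsmul_mem e2 N)⟩ := by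
      apply Subtype.ext
      ext1
      · simp [mul_smul]
      · simp [mul_comm M N, mul_smul]
    apply nsmul_inj (mul_ne_zero hM hN)
    rw [← AddSubgroup.coe_nsmul, ← map_nsmul, smul_comm, ← AddSubgroup.coe_nsmul, e3, map_add,
      AddSubgroup.coe_add, b1 _ (nsmul_mem e1 M), b2 _ (nsmul_mem e2 N)]
    simp

/-- Every countable ring whose additive group is separated by homomorphisms to `ℤ` is the
endomorphism ring of an abelian group. -/
theorem realize (R : Type) [Ring R] [Countable R]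
    (hsep : ∀ x : R, x ≠ 0 → ∃ ψ : R →+ ℤ, ψ x ≠ 0) :
    ∃ (G : Type) (_ : AddCommGroup G), Nonempty (R ≃+* AddMonoid.End G) := by
  let ι : R →+* ℚ ⊗[ℤ] R := (Algebra.TensorProduct.includeRight (R := ℤ) (A := ℚ)).toRingHom
  have hι : Function.Injective ι := by
    rw [injective_iff_map_eq_zero]
    intro x hx
    by_contra h0
    obtain ⟨ψ, hψ⟩ := hsep x h0
    have := congrArg (fun y => TensorProduct.rid ℤ ℚ (ψ.toIntLinearMap.lTensor ℚ y)) hx
    simp [ι, hψ] at this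
  let e : R ≃+* ι.range := RingEquiv.ofBijective ι.rangeRestrict
    ⟨fun a b h => hι (congrArg Subtype.val h), ι.rangeRestrict_surjective⟩
  haveI : Countable ι.range := e.symm.injective.countable
  refine (real2 (R := ι.range) (fun a => ?_) fun x hx => ?_).elim
    fun G ⟨e'⟩ => ⟨G, inferInstance, ⟨e.trans e'⟩⟩
  · induction a using TensorProduct.induction_on with
    | zero => exact ⟨1, one_ne_zero, by simp⟩
    | tmul q r =>
      refine ⟨q.den, q.den_nz, q.num • r, ?_⟩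
      change (1 : ℚ) ⊗ₜ[ℤ] (q.num • r) = _
      rw [TensorProduct.smul_tmul', ← TensorProduct.smul_tmul]
      simp [Rat.den_mul_eq_num]
    | add a b ha hb =>
      obtain ⟨N, hN, ha⟩ := ha
      obtain ⟨M, hM, hb⟩ := hb
      refine ⟨M * N, mul_ne_zero hM hN, ?_⟩
      rw [smul_add, mul_smul M N a, mul_comm, mul_smul]
      exact add_mem (nsmul_mem ha _) (nsmul_mem hb _)
  · obtain ⟨ψ, hψ⟩ := hsep (e.symm x) (by simpa using hx)
    exact ⟨ψ.comp e.symm.toAddMonoidHom, hψ⟩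

end Pool.Agent.H19.Real
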