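import Mathlib
import Pool.Agent.H19.Real

set_option autoImplicit false
set_option linter.unusedSectionVars false
set_option linter.unusedVariables false

namespace Pool.Agent.H19.CE

open MonoidAlgebra

def CE (R : Type) [Ring R] : Prop :=
  ∀ a : R, a ≠ 0 → ∃ x ∈ Subring.center R, a * x ∈ Subring.center R ∧ a * x ≠ 0

def Sep (R : Type) [Ring R] : Prop := ∀ x : R, x ≠ 0 → ∃ ψ : R →+ ℤ, ψ x ≠ 0

lemma center_equiv {R S : Type} [Ring R] [Ring S] (e : R ≃+* S) {x : R}
    (h : x ∈ Subring.center R) : e x ∈ Subring.center S :=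
  Subring.mem_center_iff.mpr fun g => by
    obtain ⟨g, rfl⟩ := e.surjective g
    rw [← map_mul, ← map_mul, Subring.mem_center_iff.mp h]

lemma CE.equiv {R S : Type} [Ring R] [Ring S] (e : R ≃+* S) (h : CE R) : CE S := by
  intro a ha
  obtain ⟨a, rfl⟩ := e.surjective a
  obtain ⟨x, hx, h1, h2⟩ := h a (by simpa using ha)
  refine ⟨e x, center_equiv e hx, ?_, ?_⟩ <;> rw [← map_mul]
  exacts [center_equiv e h1, fun h => h2 (e.injective (h.trans (map_zero e).symm))]

lemma CE.out {R : Type} [Ring R] (h : CE R) (a : R) (ha : a ≠ 0) :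
    ∃ x ∈ Subring.center R, ∃ y ∈ Subring.center R, x ≠ 0 ∧ y ≠ 0 ∧ a * x = y := by
  obtain ⟨x, hx, h1, h2⟩ := h a ha
  exact ⟨x, hx, _, h1, fun h => h2 (by rw [h, mul_zero]), h2, rfl⟩

section pi
variable {ι : Type} {B : ι → Type} [∀ i, Ring (B i)] (S : Subring (∀ i, B i))

lemma sep_pi (h : ∀ i, Sep (B i)) : Sep S := by
  intro x hx
  obtain ⟨i, hi⟩ := Function.ne_iff.mp (fun h => hx (Subtype.ext h) : x.1 ≠ 0)
  obtain ⟨ψ, hψ⟩ := h i _ hi
  exact ⟨ψ.comp ((Pi.evalRingHom B i).comp S.subtype).toAddMonoidHom, hψ⟩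

lemma center_pi {x : S} (h : ∀ i, x.1 i ∈ Subring.center (B i)) : x ∈ Subring.center S :=
  Subring.mem_center_iff.mpr fun g => Subtype.ext (funext fun i =>
    Subring.mem_center_iff.mp (h i) (g.1 i))

end pi

lemma countable_adjoin {A : Type} [Ring A] (s : Set A) (hs : s.Countable) :
    Countable (Algebra.adjoin ℤ s).toSubring := by
  rw [← Cardinal.mk_le_aleph0_iff]
  refine (Algebra.cardinalMk_adjoin_le ℤ s).trans ?_
  simpa [Cardinal.mk_le_aleph0_iff] using hs.to_subtype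

abbrev M := FreeMonoid ℕ × Multiplicative ℕ

def deg (m : M) : ℕ := m.1.length + m.2.toAdd

lemma deg_mul (a b : M) : deg (a * b) = deg a + deg b := by
  simp only [deg, Prod.fst_mul, Prod.snd_mul, FreeMonoid.length_mul, toAdd_mul]
  omega

lemma deg_eq_zero {a : M} (h : deg a = 0) : a = 1 := by
  simp only [deg, Nat.add_eq_zero_iff, FreeMonoid.length_eq_zero] at h
  exact Prod.ext h.1 h.2

abbrev D := MonoidAlgebra ℤ M

lemma J_aux {k l : ℕ} {f g : D} (hf : ∀ m, deg m < k → f.coeff m = 0)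
    (hg : ∀ m, deg m < l → g.coeff m = 0) : ∀ m, deg m < k + l → (f * g).coeff m = 0 := by
  classical
  intro m hm
  by_contra h
  obtain ⟨a, ha, b, hb, rfl⟩ := Finset.mem_mul.mp
    (support_coeff_mul_subset f g (Finsupp.mem_support_iff.mpr h))
  have h1 := mt (hf a) (Finsupp.mem_support_iff.mp ha)
  have h2 := mt (hg b) (Finsupp.mem_support_iff.mp hb)
  rw [deg_mul] at hm
  omega

noncomputable def J (k : ℕ) : TwoSidedIdeal D := TwoSidedIdeal.mk' {f | ∀ m, deg m < k → f.coeff m = 0}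
  (fun _ _ => rfl) (fun h1 h2 m hm => by simp [h1 m hm, h2 m hm])
  (fun h1 m hm => by simp [h1 m hm])
  (fun h m hm => J_aux (k := 0) (by simp) h m (by omega))
  (fun h m hm => J_aux (l := 0) h (by simp) m hm)

lemma mem_J {k : ℕ} {f : D} : f ∈ J k ↔ ∀ m, deg m < k → f.coeff m = 0 :=
  TwoSidedIdeal.mem_mk' ..

abbrev B (n : ℕ) := (J (n + 1)).ringCon.Quotient

noncomputable def mk (n : ℕ) : D →+* B n := RingCon.mk' _

lemma mk_surj (n : ℕ) : Function.Surjective (mk n) := RingCon.mk'_surjective _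

lemma mk_eq_zero {n : ℕ} {f : D} : mk n f = 0 ↔ ∀ m, deg m < n + 1 → f.coeff m = 0 := by
  rw [← mem_J, TwoSidedIdeal.mem_iff, ← RingCon.eq]
  rfl

instance : Countable D := coeff_injective.countable

instance (n : ℕ) : Countable (B n) := (mk_surj n).countable

lemma sep_B (n : ℕ) : Sep (B n) := by
  intro x hx
  obtain ⟨f, rfl⟩ := mk_surj n x
  obtain ⟨m, hm⟩ := not_forall.mp (mt mk_eq_zero.mpr hx)
  push Not at hm
  let g : D →+ ℤ := (Finsupp.applyAddHom m).comp coeffAddEquiv.toAddMonoidHom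
  refine ⟨(mk n).toAddMonoidHom.liftOfSurjective (mk_surj n)
    ⟨g, fun f hf => mk_eq_zero.mp hf m hm.1⟩, ?_⟩
  erw [AddMonoidHom.liftOfRightInverse_comp_apply]
  exact hm.2

lemma ce_B (n : ℕ) : CE (B n) := by
  classical
  intro a ha
  obtain ⟨f, rfl⟩ := mk_surj n a
  have hex : ∃ d, ∃ m, deg m = d ∧ f.coeff m ≠ 0 ∧ d < n + 1 := by
    obtain ⟨m, hm⟩ := not_forall.mp (mt mk_eq_zero.mpr ha)
    push Not at hm
    exact ⟨_, m, rfl, hm.2, hm.1⟩
  obtain ⟨m, h1, h2, h3⟩ := Nat.find_spec hex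
  have h4 : ∀ m, deg m < Nat.find hex → f.coeff m = 0 := fun m hm => by
    by_contra h
    exact Nat.find_min hex hm ⟨m, rfl, h, by omega⟩
  set d := Nat.find hex
  let u : M := (1, Multiplicative.ofAdd (n - d))
  have hu : deg u = n - d := by simp [deg, u]
  have h5 : ∀ m, deg m < n → (f * single u 1).coeff m = 0 := fun m hm =>
    J_aux (l := n - d) h4 (fun m hm => by
      rw [coeff_single, Finsupp.single_apply, if_neg]
      rintro rfl
      omega) m (by omega)
  refine ⟨mk n (single u 1), Subring.mem_center_iff.mpr fun g => ?_,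
    Subring.mem_center_iff.mpr fun g => ?_, ?_⟩
  · obtain ⟨g, rfl⟩ := mk_surj n g
    rw [← map_mul, ← map_mul, (single_commute _ (fun r => Commute.one_left r) g).eq]
    intro m'
    exact Prod.ext (by simp [u]) (mul_comm _ _)
  · obtain ⟨g, rfl⟩ := mk_surj n g
    have h6 : ∀ m, deg m < 1 → (g.erase 1).coeff m = 0 := fun m hm => by
      rw [deg_eq_zero (by omega : deg m = 0)]
      simp
    rw [← map_mul, ← single_add_erase 1 g, map_add, add_mul, mul_add, ← map_mul, ← map_mul,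
      ← map_mul, ← map_mul, mk_eq_zero.mpr (J_aux h5 h6),
      mk_eq_zero.mpr (fun m hm => J_aux h6 h5 m (by omega)),
      (single_commute (fun r => Commute.one_left r) (fun r => Commute.all _ r) _).eq]
  · rw [← map_mul]
    intro h
    have := mk_eq_zero.mp h (m * u) (by rw [deg_mul]; omega)
    rw [coeff_mul_single_mul, mul_one] at this
    exact h2 this

/-- the centrally essential ring without polynomial identities -/
noncomputable def R1 : Subring (∀ n, B n) :=
  (Algebra.adjoin ℤ (⋃ n, Set.range (Pi.single (M := B) n))).toSubring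

instance : Countable R1 :=
  countable_adjoin _ (Set.countable_iUnion fun _ => Set.countable_range _)

lemma single_mem (n : ℕ) (x : B n) : Pi.single n x ∈ R1 :=
  Algebra.subset_adjoin (Set.mem_iUnion.mpr ⟨n, x, rfl⟩)

lemma ce_R1 : CE R1 := by
  intro a ha
  obtain ⟨n, hn⟩ := Function.ne_iff.mp (fun h => ha (Subtype.ext h) : a.1 ≠ 0)
  obtain ⟨x, hx, h1, h2⟩ := ce_B n _ hn
  refine ⟨⟨_, single_mem n x⟩, center_pi _ fun i => ?_, center_pi _ fun i => ?_, fun h => h2 ?_⟩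
  · by_cases h : i = n
    · subst h; simpa using hx
    · simp [h]
  · by_cases h : i = n
    · subst h; simpa using h1
    · simp [h]
  · simpa using congrArg (fun y : R1 => y.1 n) h

lemma nonPI_R1 (f : FreeAlgebra ℤ ℕ) (h : ∀ r : ℕ → R1, FreeAlgebra.lift ℤ r f = 0) : f = 0 := by
  by_contra h0
  let e := FreeAlgebra.equivMonoidAlgebraFreeMonoid (R := ℤ) (X := ℕ)
  obtain ⟨w, hw⟩ := Finsupp.ne_iff.mp
    (fun h => h0 (e.injective (by simpa using h)) : (e f).coeff ≠ 0)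
  let n := w.length
  let φ : R1 →ₐ[ℤ] B n := ((Pi.evalRingHom B n).comp R1.subtype).toIntAlgHom
  let r : ℕ → R1 := fun i => ⟨_, single_mem n (mk n (single (FreeMonoid.of i, 1) 1))⟩
  have h1 : φ.comp (FreeAlgebra.lift ℤ r) = ((mk n).toIntAlgHom.comp
      (mapDomainAlgHom ℤ ℤ (MonoidHom.inl _ _))).comp e.toAlgHom := by
    ext i
    have : e (FreeAlgebra.ι ℤ i) = single (FreeMonoid.of i) 1 := by
      simp [e, FreeAlgebra.equivMonoidAlgebraFreeMonoid]
    change φ (FreeAlgebra.lift ℤ r (FreeAlgebra.ι ℤ i)) =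
      mk n (mapDomain (MonoidHom.inl _ _) (e (FreeAlgebra.ι ℤ i)))
    rw [this, FreeAlgebra.lift_ι_apply, mapDomain_single]
    exact Pi.single_eq_same ..
  have h2 := DFunLike.congr_fun h1 f
  rw [AlgHom.comp_apply, h, map_zero] at h2
  have h3 := mk_eq_zero.mp h2.symm (w, 1) (by simp [deg, n])
  exact hw ((Finsupp.mapDomain_apply (Prod.mk_left_injective 1) _ w).symm.trans h3)

/-- indicator of a residue class times a constant -/
noncomputable def ind (m i : ℤ) (x : B 2) : ℤ → B 2 := fun j => if m ∣ j - i then x else 0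

/-- periodic functions -/
noncomputable def R2 : Subring (ℤ → B 2) :=
  (Algebra.adjoin ℤ (Set.range fun t : ℕ × ℤ × B 2 => ind (t.1 + 1) t.2.1 t.2.2)).toSubring

instance : Countable R2 := countable_adjoin _ (Set.countable_range _)

lemma ind_mem {m : ℤ} (hm : 0 < m) (i : ℤ) (x : B 2) : ind m i x ∈ R2 :=
  Algebra.subset_adjoin ⟨((m - 1).toNat, i, x), by
    have : (((m - 1).toNat : ℕ) : ℤ) + 1 = m := by omega
    simp only [this]⟩

lemma per {a : ℤ → B 2} (ha : a ∈ R2) : ∃ m : ℤ, 0 < m ∧ ∀ i j, m ∣ j - i → a j = a i := by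
  have key : ∀ (F : B 2 → B 2 → B 2) (a b : ℤ → B 2),
      (∃ m : ℤ, 0 < m ∧ ∀ i j, m ∣ j - i → a j = a i) →
      (∃ m : ℤ, 0 < m ∧ ∀ i j, m ∣ j - i → b j = b i) →
      ∃ m : ℤ, 0 < m ∧ ∀ i j, m ∣ j - i → F (a j) (b j) = F (a i) (b i) := by
    rintro F a b ⟨m, hm, h1⟩ ⟨l, hl, h2⟩
    exact ⟨m * l, mul_pos hm hl, fun i j h => by
      rw [h1 i j ((dvd_mul_right _ _).trans h), h2 i j ((dvd_mul_left _ _).trans h)]⟩
  induction ha using Algebra.adjoin_induction with
  | mem x hx =>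
    obtain ⟨⟨m, i, x⟩, rfl⟩ := hx
    refine ⟨m + 1, by omega, fun k j h => ?_⟩
    have : j - i = (j - k) + (k - i) := by ring
    simp only [ind, this, dvd_add_right h]
  | algebraMap r => exact ⟨1, one_pos, fun _ _ _ => rfl⟩
  | add x y _ _ h1 h2 => exact key (· + ·) _ _ h1 h2
  | mul x y _ _ h1 h2 => exact key (· * ·) _ _ h1 h2

lemma ce_R2 : CE R2 := by
  intro a ha
  obtain ⟨n, hn⟩ := Function.ne_iff.mp (fun h => ha (Subtype.ext h) : a.1 ≠ 0)
  obtain ⟨x, hx, h1, h2⟩ := ce_B 2 _ hn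
  obtain ⟨m, hm, hp⟩ := per a.2
  refine ⟨⟨_, ind_mem hm n x⟩, center_pi _ fun i => ?_, center_pi _ fun i => ?_, fun h => h2 ?_⟩
  · by_cases h : m ∣ i - n <;> simp [ind, h, hx]
  · by_cases h : m ∣ i - n
    · simpa [ind, h, hp n i h] using h1
    · simp [ind, h]
  · simpa [ind] using congrArg (fun y : R2 => y.1 n) h

lemma split_R2 (a : R2) (ha : a ≠ 0) :
    ∃ c ∈ Subring.center R2, c * c = c ∧ a * c ≠ 0 ∧ a * (1 - c) ≠ 0 := by
  obtain ⟨n, hn⟩ := Function.ne_iff.mp (fun h => ha (Subtype.ext h) : a.1 ≠ 0)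
  obtain ⟨m, hm, hp⟩ := per a.2
  refine ⟨⟨_, ind_mem (by omega : 0 < 2 * m) n 1⟩, center_pi _ fun i => ?_,
    Subtype.ext (funext fun i => ?_), fun h => hn ?_, fun h => hn ?_⟩
  · by_cases h : 2 * m ∣ i - n <;> simp [ind, h]
  · by_cases h : 2 * m ∣ i - n <;> simp [ind, h]
  · simpa [ind] using congrArg (fun y : R2 => y.1 n) h
  · have h1 : ¬ 2 * m ∣ m := fun h => by have := Int.le_of_dvd hm h; omega
    simpa [ind, h1, hp n (n + m) (by simp)] using congrArg (fun y : R2 => y.1 (n + m)) h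

lemma noncomm_R2 : ∃ a b : R2, a * b ≠ b * a := by
  refine ⟨⟨_, ind_mem one_pos 0 (mk 2 (single (FreeMonoid.of 0, 1) 1))⟩,
    ⟨_, ind_mem one_pos 0 (mk 2 (single (FreeMonoid.of 1, 1) 1))⟩, fun h => ?_⟩
  have h1 := congrArg (fun y : R2 => y.1 0) h
  simp only [Subring.coe_mul, Pi.mul_apply, ind, one_dvd, if_true] at h1
  rw [← map_mul, ← map_mul, ← sub_eq_zero, ← map_sub, single_mul_single, single_mul_single] at h1
  have h2 := mk_eq_zero.mp h1 (FreeMonoid.of 0 * FreeMonoid.of 1, 1) (by simp [deg])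
  have h3 : FreeMonoid.of 1 * FreeMonoid.of 0 ≠ FreeMonoid.of 0 * FreeMonoid.of 1 := by
    intro h
    simpa using congrArg FreeMonoid.toList h
  simp [h3] at h2

end Pool.Agent.H19.CE
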