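import Mathlib

set_option autoImplicit false

namespace Pool.Agent.H19.Chain

open Cardinal Ordinal

variable {G : Type} [Group G]

lemma card_closure_le (s : Set G) : #(Subgroup.closure s) ≤ max ℵ₀ #s := by
  rw [FreeGroup.closure_eq_range]
  have h1 : #(FreeGroup.lift ((↑) : s → G)).range ≤ #(FreeGroup s) := mk_range_le
  refine h1.trans ?_
  rcases isEmpty_or_nonempty s with h | h
  · exact mk_le_aleph0.trans (le_max_left _ _)
  · rw [mk_freeGroup, max_comm]

variable (K : Set G) (τ : G → Ordinal.{0})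

/-- The chain of subgroups. -/
def H (α : Ordinal.{0}) : Subgroup G := Subgroup.closure (K ∪ {g | τ g < α})

lemma H_mono {α β : Ordinal.{0}} (h : α ≤ β) : H K τ α ≤ H K τ β :=
  Subgroup.closure_mono (Set.union_subset_union_right _ fun _ hg => lt_of_lt_of_le hg h)

lemma mem_H_of_lt {α : Ordinal.{0}} {g : G} (h : τ g < α) : g ∈ H K τ α :=
  Subgroup.subset_closure (Or.inr h)

lemma H_cont {α : Ordinal.{0}} {g : G} (h : g ∈ H K τ α) :
    g ∈ H K τ 0 ∨ ∃ β < α, g ∈ H K τ (β + 1) := by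
  induction h using Subgroup.closure_induction with
  | mem x hx =>
    rcases hx with hx | hx
    · exact Or.inl (Subgroup.subset_closure (Or.inl hx))
    · exact Or.inr ⟨τ x, hx, mem_H_of_lt K τ (Order.lt_add_one_iff.mpr le_rfl)⟩
  | one => exact Or.inl (one_mem _)
  | mul x y _ _ hx hy =>
    rcases hx with hx | ⟨β, hβ, hx⟩ <;> rcases hy with hy | ⟨γ, hγ, hy⟩
    · exact Or.inl (mul_mem hx hy)
    · exact Or.inr ⟨γ, hγ, mul_mem (H_mono K τ (zero_le) hx) hy⟩
    · exact Or.inr ⟨β, hβ, mul_mem hx (H_mono K τ (zero_le) hy)⟩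
    · exact Or.inr ⟨max β γ, max_lt hβ hγ,
        mul_mem (H_mono K τ (by gcongr; exact le_max_left _ _) hx)
          (H_mono K τ (by gcongr; exact le_max_right _ _) hy)⟩
  | inv x _ hx =>
    rcases hx with hx | ⟨β, hβ, hx⟩
    · exact Or.inl (inv_mem hx)
    · exact Or.inr ⟨β, hβ, inv_mem hx⟩

noncomputable def lev (g : G) : Ordinal.{0} := sInf {α | g ∈ H K τ (α + 1)}

lemma mem_lev (g : G) : g ∈ H K τ (lev K τ g + 1) :=
  csInf_mem (s := {α | g ∈ H K τ (α + 1)})
    ⟨τ g, mem_H_of_lt K τ (Order.lt_add_one_iff.mpr le_rfl)⟩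

lemma lev_le {g : G} {α : Ordinal.{0}} (h : g ∈ H K τ (α + 1)) : lev K τ g ≤ α :=
  csInf_le' h

lemma le_lev {g : G} {α : Ordinal.{0}} (h : g ∉ H K τ α) : α ≤ lev K τ g := by
  by_contra hc
  exact h (H_mono K τ (Order.add_one_le_iff.mpr (not_le.mp hc)) (mem_lev K τ g))

lemma not_mem_lev {g : G} (h : g ∉ H K τ 0) : g ∉ H K τ (lev K τ g) := by
  intro hg
  rcases H_cont K τ hg with h0 | ⟨β, hβ, h1⟩
  · exact h h0
  · exact absurd (lev_le K τ h1) (not_le.mpr hβ)

lemma lev_eq {g : G} {α : Ordinal.{0}} (h1 : g ∈ H K τ (α + 1)) (h2 : g ∉ H K τ α) :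
    lev K τ g = α := le_antisymm (lev_le K τ h1) (le_lev K τ h2)

noncomputable def strip (g : G) : G :=
  (Quotient.out (QuotientGroup.mk g : G ⧸ H K τ (lev K τ g)))⁻¹ * g

lemma strip_mem (g : G) : strip K τ g ∈ H K τ (lev K τ g) := by
  unfold strip
  rw [← QuotientGroup.eq]
  simp

lemma strip_mul {f h : G} {β : Ordinal.{0}} (hf : f ∉ H K τ β) (hh : h ∈ H K τ β) :
    f * h ∉ H K τ 0 ∧ lev K τ (f * h) = lev K τ f ∧ strip K τ (f * h) = strip K τ f * h := by
  have h0 : f ∉ H K τ 0 := fun h => hf (H_mono K τ zero_le h)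
  have hh' : h ∈ H K τ (lev K τ f) := H_mono K τ (le_lev K τ hf) hh
  have hn : f * h ∉ H K τ (lev K τ f) := fun hc =>
    not_mem_lev K τ h0 (by simpa using mul_mem hc (inv_mem hh'))
  have hl : lev K τ (f * h) = lev K τ f :=
    lev_eq K τ (mul_mem (mem_lev K τ f) (H_mono K τ le_self_add hh')) hn
  refine ⟨fun hc => hn (H_mono K τ zero_le hc), hl, ?_⟩
  unfold strip
  rw [hl, QuotientGroup.mk_mul_of_mem f hh', mul_assoc]

noncomputable def mu (g : G) : Ordinal.{0} := sInf {α | g ∈ H K τ α}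

lemma mu_strip {g : G} (h : g ∉ H K τ 0) : mu K τ (strip K τ g) < mu K τ g := by
  have h1 : mu K τ (strip K τ g) ≤ lev K τ g := csInf_le' (strip_mem K τ g)
  have h2 : g ∈ H K τ (mu K τ g) := csInf_mem (s := {α | g ∈ H K τ α}) ⟨_, mem_lev K τ g⟩
  refine h1.trans_lt (not_le.mp fun hc => not_mem_lev K τ h (H_mono K τ hc h2))

lemma strip_induction {P : G → Prop}
    (h : ∀ g, (g ∉ H K τ 0 → P (strip K τ g)) → P g) (g : G) : P g := by
  induction hm : mu K τ g using WellFoundedLT.induction generalizing g with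
  | _ α ih => exact h g fun h0 => ih _ (hm ▸ mu_strip K τ h0) _ rfl

open Classical in
/-- Length of the coset normal form. -/
noncomputable def len (g : G) : ℕ :=
  if _h : g ∈ H K τ 0 then 0 else len (strip K τ g) + 1
termination_by mu K τ g
decreasing_by exact mu_strip K τ _h

lemma len_mul {f h : G} {β : Ordinal.{0}} (hf : f ∉ H K τ β) (hh : h ∈ H K τ β) :
    len K τ (f * h) = len K τ (strip K τ f * h) + 1 := by
  obtain ⟨h1, -, h3⟩ := strip_mul K τ hf hh
  rw [len, dif_neg h1, h3]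

open Classical in
/-- Least level of the coset normal form. -/
noncomputable def col (g : G) : Ordinal.{0} :=
  if _h : g ∈ H K τ 0 then 0 else
    if strip K τ g ∈ H K τ 0 then lev K τ g else col (strip K τ g)
termination_by mu K τ g
decreasing_by exact mu_strip K τ _h

lemma col_mul {k : G} (hk : k ∈ H K τ 0) (g : G) : col K τ (g * k) = col K τ g := by
  induction g using strip_induction K τ with
  | h g ih =>
    by_cases h0 : g ∈ H K τ 0
    · rw [col, dif_pos (mul_mem h0 hk), col, dif_pos h0]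
    · obtain ⟨h1, h2, h3⟩ := strip_mul K τ h0 hk
      rw [col, dif_neg h1, h2, h3, ih h0]
      conv_rhs => rw [col, dif_neg h0]
      by_cases h4 : strip K τ g ∈ H K τ 0
      · rw [if_pos h4, if_pos (mul_mem h4 hk)]
      · rw [if_neg h4, if_neg (fun h => h4 (((H K τ 0).mul_mem_cancel_right hk).mp h))]

lemma col_large {α : Ordinal.{0}} {z : G} (hz1 : z ∈ H K τ (α + 1)) (hz2 : z ∉ H K τ α) (g : G) :
    ∃ u ∈ H K τ (α + 1), g * u ∉ H K τ 0 ∧ col K τ (g * u) = α := by
  induction g using strip_induction K τ with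
  | h g ih =>
    by_cases hg : g ∈ H K τ (α + 1)
    · have hl := lev_eq K τ hz1 hz2
      have hs : (strip K τ z)⁻¹ ∈ H K τ α := inv_mem (hl ▸ strip_mem K τ z)
      obtain ⟨h1, h2, h3⟩ := strip_mul K τ hz2 hs
      refine ⟨g⁻¹ * (z * (strip K τ z)⁻¹),
        mul_mem (inv_mem hg) (mul_mem hz1 (H_mono K τ le_self_add hs)), ?_⟩
      rw [mul_inv_cancel_left]
      refine ⟨h1, ?_⟩
      rw [col, dif_neg h1, h3, mul_inv_cancel, if_pos (one_mem _), h2, hl]
    · obtain ⟨u, hu, h4, h5⟩ := ih fun h => hg (H_mono K τ zero_le h)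
      obtain ⟨h1, h2, h3⟩ := strip_mul K τ hg hu
      refine ⟨u, hu, h1, ?_⟩
      rw [col, dif_neg h1, h3, if_neg h4, h5]

omit [Group G] in
lemma exists_tau (G : Type) : ∃ τ : G → Ordinal.{0}, Function.Injective τ ∧
    (∀ g, τ g < (#G).ord) ∧ ∀ α ≤ (#G).ord, #{g | τ g < α} = α.card := by
  obtain ⟨r, wo, hr⟩ := Cardinal.exists_ord_eq G
  refine ⟨typein r, typein_injective r, fun g => hr ▸ typein_lt_type r g, fun α hα => ?_⟩
  rcases hα.lt_or_eq with h | h
  · obtain ⟨a, rfl⟩ := typein_surj r (hr ▸ h)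
    rw [card_typein]
    simp only [typein_lt_typein]
    rfl
  · have : {g | typein r g < α} = Set.univ :=
      Set.eq_univ_of_forall fun g => by rw [h, hr]; exact typein_lt_type r g
    rw [this, h, card_ord, mk_univ]

lemma card_H_le (α : Ordinal.{0}) : #(H K τ α) ≤ max ℵ₀ (#K + #{g | τ g < α}) :=
  (card_closure_le _).trans (max_le_max le_rfl (mk_union_le _ _))

end Pool.Agent.H19.Chain
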