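import Mathlib

set_option autoImplicit false

namespace Pool.Agent.H19.Chains

open Finset

section Poset
variable {α : Type*} [PartialOrder α] [Fintype α]

open Classical in
/-- Signed count of chains all of whose members satisfy `P`. -/
noncomputable def eu (P : α → Prop) : ℤ :=
  ∑ C ∈ ({C | IsChain (· ≤ ·) (C : Set α) ∧ ∀ V ∈ C, P V} : Finset (Finset α)), (-1) ^ #C

open Classical in
lemma eu_rec (P : α → Prop) :
    eu P = 1 - ∑ Z, if P Z then eu (fun V => Z < V ∧ P V) else 0 := by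
  rw [eu, ← add_sum_erase _ _ (a := ∅) (by simp), ← sum_filter, sub_eq_add_neg, ← sum_neg_distrib]
  simp only [eu, ← sum_neg_distrib]
  rw [sum_sigma']
  congr 1
  symm
  refine sum_bij (fun x _ => insert x.1 x.2) (fun x hx => ?_) (fun x hx y hy e => ?_)
    (fun C hC => ?_) fun x hx => ?_
  · simp only [mem_sigma, mem_filter, mem_univ, true_and] at hx
    simp only [mem_erase, mem_filter, mem_univ, true_and, coe_insert, forall_mem_insert]
    exact ⟨insert_ne_empty _ _, hx.2.1.insert fun b hb _ => .inl (hx.2.2 b hb).1.le, hx.1,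
      fun V hV => (hx.2.2 V hV).2⟩
  · obtain ⟨Z, C⟩ := x
    obtain ⟨W, B⟩ := y
    simp only [mem_sigma, mem_filter, mem_univ, true_and] at hx hy e
    have h1 : W ≤ Z := by
      rcases mem_insert.mp (e ▸ mem_insert_self Z C) with h | h
      exacts [h.ge, (hy.2.2 _ h).1.le]
    have h2 : Z ≤ W := by
      rcases mem_insert.mp (e.symm ▸ mem_insert_self W B) with h | h
      exacts [h.ge, (hx.2.2 _ h).1.le]
    obtain rfl := h1.antisymm h2
    rw [← erase_insert (s := C) fun h => (hx.2.2 _ h).1.false, e,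
      erase_insert fun h => (hy.2.2 _ h).1.false]
  · simp only [mem_erase, mem_filter, mem_univ, true_and] at hC
    obtain ⟨Z, hZ⟩ := C.exists_minimal (nonempty_iff_ne_empty.mpr hC.1)
    refine ⟨⟨Z, C.erase Z⟩, ?_, insert_erase hZ.1⟩
    simp only [mem_sigma, mem_filter, mem_univ, true_and, mem_erase]
    refine ⟨hC.2.2 Z hZ.1, hC.2.1.mono (by simp), fun V hV => ⟨?_, hC.2.2 V hV.2⟩⟩
    rcases hC.2.1 hZ.1 hV.2 hV.1.symm with h | h
    exacts [h.lt_of_ne hV.1.symm, (hZ.2 hV.2 h).lt_of_ne hV.1.symm]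
  simp only [mem_sigma, mem_filter, mem_univ, true_and] at hx
  rw [card_insert_of_notMem fun h => (hx.2.2 _ h).1.false, pow_succ]
  simp

lemma eu_iso (e : α ≃o α) (P : α → Prop) : eu (fun V => P (e V)) = eu P := by
  classical
  refine sum_equiv (Equiv.finsetCongr e.toEquiv) (fun C => ?_) (by simp)
  simp only [mem_filter, mem_univ, true_and, Equiv.finsetCongr_apply, coe_map, forall_mem_map]
  exact and_congr (IsChain.image_relIso_iff (φ := e)).symm Iff.rfl

/-- Signed count of chains strictly above `Y` and below `X`. -/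
noncomputable def M (P : α → Prop) (X Y : α) : ℤ := eu fun V => Y < V ∧ V ≤ X ∧ P V

open Classical in
lemma M_rec (P : α → Prop) (X Y : α) :
    M P X Y = 1 - ∑ Z, if Y < Z ∧ Z ≤ X ∧ P Z then M P X Z else 0 := by
  rw [M, eu_rec]
  congr 1
  refine sum_congr rfl fun Z _ => ?_
  split_ifs with h
  · exact congrArg eu (funext fun V => propext
      ⟨fun h => ⟨h.1, h.2.2⟩, fun h' => ⟨h'.1, h.1.trans h'.1, h'.2⟩⟩)
  rfl

lemma M_iso (e : α ≃o α) {P : α → Prop} (h : ∀ V, P (e V) ↔ P V) (X Y : α) :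
    M P (e X) (e Y) = M P X Y := by
  rw [M, ← eu_iso e, M]
  simp [h]

open Classical in
lemma M_or {P R : α → Prop} (h : ∀ V, P V → ¬ R V) (X Y : α) :
    M P X Y = M (fun V => P V ∨ R V) X Y + ∑ Z, if Y < Z ∧ Z ≤ X ∧ R Z then
      M P Z Y * M (fun V => P V ∨ R V) X Z else 0 := by
  induction Y using WellFoundedGT.induction with
  | ind Y ih =>
    have h1 : (∑ W, if Y < W ∧ W ≤ X ∧ P W then M P X W else 0) =
        (∑ W, if Y < W ∧ W ≤ X ∧ P W then M (fun V => P V ∨ R V) X W else 0) +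
        ∑ Z, ∑ W, if Y < Z ∧ Z ≤ X ∧ R Z then (if Y < W ∧ W ≤ Z ∧ P W then M P Z W else 0) *
          M (fun V => P V ∨ R V) X Z else 0 := by
      rw [sum_comm, ← sum_add_distrib]
      refine sum_congr rfl fun W _ => ?_
      split_ifs with hW
      · rw [ih W hW.1]
        congr 1
        refine sum_congr rfl fun Z _ => ?_
        by_cases hZ : W < Z ∧ Z ≤ X ∧ R Z
        · rw [if_pos hZ, if_pos ⟨hW.1.trans hZ.1, hZ.2⟩, if_pos ⟨hW.1, hZ.1.le, hW.2.2⟩]
        rw [if_neg hZ]
        split_ifs with h2 h3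
        · exact absurd ⟨h3.2.1.lt_of_ne fun e => h W hW.2.2 (e ▸ h2.2.2), h2.2⟩ hZ
        all_goals simp
      rw [zero_add, sum_eq_zero fun Z _ => ?_]
      split_ifs with h2 h3
      · exact absurd ⟨h3.1, h3.2.1.trans h2.2.1, h3.2.2⟩ hW
      all_goals simp
    rw [M_rec P, M_rec (fun V => P V ∨ R V) X Y, h1, sub_add, ← sum_add_distrib,
      ← sum_sub_distrib]
    congr 1
    refine sum_congr rfl fun Z _ => ?_
    rw [M_rec P Z Y]
    by_cases h1 : Y < Z ∧ Z ≤ X
    · by_cases h2 : R Z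
      · have : ¬ P Z := fun e => h Z e h2
        simp [h1, h2, this, sub_mul, sum_mul]
      by_cases h3 : P Z <;> simp [h1, h2, h3]
    simp [← and_assoc, h1]

end Poset

lemma dvd_sum_orbit {Q α : Type*} [Group Q] [MulAction Q α] [Fintype α] (f : α → ℤ)
    (hf : ∀ (q : Q) a, f (q • a) = f a) {n : ℤ}
    (h : ∀ a, n ∣ (MulAction.stabilizer Q a).index * f a) : n ∣ ∑ a, f a := by
  classical
  rw [← sum_fiberwise univ (Quotient.mk (MulAction.orbitRel Q α))]
  refine dvd_sum fun ω _ => ?_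
  induction ω using Quotient.inductionOn with
  | h a =>
    rw [sum_congr rfl (g := fun _ => f a) fun b hb => ?_, sum_const, nsmul_eq_mul]
    · refine (h a).trans (dvd_of_eq ?_)
      rw [MulAction.index_stabilizer, ← Set.ncard_coe_finset]
      congr 3
      ext b
      simp [Quotient.eq, MulAction.orbitRel_apply]
    obtain ⟨q, rfl⟩ := Quotient.exact (mem_filter.mp hb).2
    exact hf q a

end Pool.Agent.H19.Chains
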