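import Mathlib
import Pool.Agent.H19.Chains

set_option autoImplicit false

namespace Pool.Agent.H19.Chains

open Finset Subgroup

variable {G : Type*} [Group G]

/-- Conjugation of subgroups. -/
def cj (g : G) : Subgroup G ≃o Subgroup G := (MulAut.conj g).mapSubgroup

lemma cj_card (g : G) (Z : Subgroup G) : Nat.card (cj g Z) = Nat.card Z := card_mapSubgroup _ _

lemma cj_eq {g : G} {Z : Subgroup G} : cj g Z = Z ↔ g ∈ normalizer (Z : Set G) :=
  mem_normalizer_iff_map_conj_eq.symm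

lemma cj_mem {g : G} {Z : Subgroup G} (h : g ∈ Z) : cj g Z = Z := cj_eq.mpr (le_normalizer h)

lemma card_eq (H K : Subgroup G) : Nat.card K = H.relIndex K * Nat.card (H ⊓ K :) := by
  rw [← relIndex_bot_left, ← relIndex_bot_left, ← inf_relIndex_right H, mul_comm,
    relIndex_mul_relIndex _ _ _ bot_le inf_le_right]

lemma dvd_sum_cj [Fintype (Subgroup G)] (Q : Subgroup G) (f : Subgroup G → ℤ)
    (hf : ∀ q ∈ Q, ∀ Z, f (cj q Z) = f Z) {n : ℤ}
    (h : ∀ Z : Subgroup G, n ∣ (normalizer (Z : Set G)).relIndex Q * f Z) : n ∣ ∑ Z, f Z := by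
  let : MulAction Q (Subgroup G) :=
    { smul q Z := cj (q : G) Z
      one_smul Z := cj_mem Z.one_mem
      mul_smul a b Z := by
        change Z.map _ = (Z.map _).map _
        rw [Subgroup.map_map]; congr 1; ext; simp [mul_assoc] }
  refine dvd_sum_orbit (Q := Q) f (fun q => hf q q.2) fun Z => ?_
  rw [show MulAction.stabilizer Q Z = (normalizer (Z : Set G)).subgroupOf Q from
    Subgroup.ext fun q => cj_eq]
  exact h Z

variable [Finite G] {p : ℕ} [hp : Fact p.Prime]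

lemma pg_iff {Z : Subgroup G} (g : G) : IsPGroup p (cj g Z) ↔ IsPGroup p Z := by
  simp only [IsPGroup.iff_card, cj_card]

omit [Finite G] hp in
lemma pg_zpowers {Q : Subgroup G} (hQ : IsPGroup p Q) (q : Q) : IsPGroup p (zpowers (q : G)) :=
  hQ.to_le (zpowers_le.mpr q.2)

open Classical in
lemma dress [Fintype (Subgroup G)] {X : Subgroup G} {T : Subgroup G → Prop} {a : Subgroup G → ℤ}
    (hT : ∀ q ∈ X, ∀ Z, T (cj q Z) ↔ T Z) (ha : ∀ q ∈ X, ∀ Z, a (cj q Z) = a Z)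
    (H : ∀ Y, T Y → ∀ Q ≤ X ⊓ normalizer (Y : Set G), IsPGroup p Q → (Nat.card Q : ℤ) ∣
      ∑ᶠ q : Q, ∑ Z, if T Z ∧ Y ⊔ zpowers (q : G) ≤ Z then a Z else 0) (Y : Subgroup G) :
    T Y → ∀ Q ≤ X ⊓ normalizer (Y : Set G), IsPGroup p Q → (Y.relIndex Q : ℤ) ∣ a Y := by
  induction Y using WellFoundedGT.induction with
  | ind Y ih =>
    intro hY Q hQ hQp
    have := Fintype.ofFinite Q
    have h1 := H Y hY Q hQ hQp
    rw [finsum_eq_sum_of_fintype, sum_comm, sum_congr rfl (g := fun Z =>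
      (if Z = Y then a Y * Nat.card (Y ⊓ Q :) else 0) +
        if T Z ∧ Y < Z then a Z * Nat.card (Z ⊓ Q :) else 0) fun Z _ => ?_, sum_add_distrib,
      sum_ite_eq', if_pos (mem_univ _)] at h1
    · have h2 := (dvd_add_left (dvd_sum_cj Q _ (fun q hq Z => ?_) fun Z => ?_)).mp h1
      · rw [card_eq Y Q, Nat.cast_mul] at h2
        exact Int.dvd_of_mul_dvd_mul_right (by exact_mod_cast Nat.card_pos.ne') h2
      · rw [ha q (hQ hq).1, ← cj_card q (Z ⊓ Q), (cj q).map_inf, cj_mem hq]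
        have : Y < cj q Z ↔ Y < Z := by
          conv_lhs => rw [← cj_eq.mpr (hQ hq).2, (cj q).lt_iff_lt]
        simp only [hT q (hQ hq).1, this]
      split_ifs with h
      · have h3 := ih Z h.2 h.1 (normalizer (Z : Set G) ⊓ Q)
          (le_inf (inf_le_right.trans (hQ.trans inf_le_left)) inf_le_left) hQp.to_inf_right
        rw [card_eq (normalizer (Z : Set G)) Q, card_eq Z (_ ⊓ Q), ← inf_assoc,
          inf_of_le_left le_normalizer]
        push_cast
        gcongr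
      simp
    have h2 : (∑ q : Q, if (q : G) ∈ Z then a Z else 0) = a Z * Nat.card (Z ⊓ Q :) := by
      rw [← sum_filter, sum_const, nsmul_eq_mul, mul_comm, ← Fintype.card_subtype,
        ← Nat.card_eq_fintype_card,
        ← Nat.card_congr (subgroupOfEquivOfLe (inf_le_right : Z ⊓ Q ≤ Q)).toEquiv,
        inf_subgroupOf_right]
      rfl
    simp only [sup_le_iff, zpowers_le]
    by_cases h : T Z ∧ Y ≤ Z
    · rcases h.2.eq_or_lt with rfl | h3
      · simp [h.1, h2]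
      simp [h.1, h.2, h3, h3.ne', h2]
    rw [if_neg (by rintro rfl; exact h ⟨hY, le_rfl⟩), if_neg fun h' => h ⟨h'.1, h'.2.le⟩]
    simp [← and_assoc, h]

lemma mem_sup_zpowers {Y : Subgroup G} {g x : G} (hg : g ∈ normalizer (Y : Set G))
    (h : x ∈ Y ⊔ zpowers g) : ∃ i : ℕ, (g ^ i)⁻¹ * x ∈ Y := by
  rw [sup_comm, ← SetLike.mem_coe, coe_mul_of_left_le_normalizer_right _ _ (zpowers_le.mpr hg)] at h
  obtain ⟨_, hu, y, hy, rfl⟩ := h
  obtain ⟨i, rfl⟩ := mem_powers_iff_mem_zpowers.mpr hu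
  exact ⟨i, by simpa using hy⟩

lemma mem_of_zpow {H : Subgroup G} {g : G} (hg : IsPGroup p (zpowers g)) {k : ℤ}
    (hk : ¬ (p : ℤ) ∣ k) (h : g ^ k ∈ H) : g ∈ H := by
  obtain ⟨n, hn⟩ := IsPGroup.iff_card.mp hg
  refine zpowers_le.mpr h (mem_zpowers_zpow_iff.mpr ?_)
  rw [← Nat.card_zpowers, hn, ← Int.isCoprime_iff_gcd_eq_one, Nat.cast_pow]
  exact ((Nat.prime_iff_prime_int.mp hp.out).irreducible.coprime_iff_not_dvd.mpr
    hk).symm.pow_right

open Classical in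
lemma gamma {X Y Q : Subgroup G} (hQ : Q ≤ X ⊓ normalizer (Y : Set G)) (hY : Y ≤ X)
    (hQp : IsPGroup p Q) :
    (Nat.card Q : ℤ) ∣ ∑ᶠ q : Q, if Y ⊔ zpowers (q : G) ≠ X then (p : ℤ) else 0 := by
  have := Fintype.ofFinite Q
  rw [finsum_eq_sum_of_fintype]
  by_cases! h : ∀ q : Q, Y ⊔ zpowers (q : G) ≠ X
  · simp [h]
  obtain ⟨g, hg⟩ := h
  have hle (q : Q) : Y ⊔ zpowers (q : G) ≤ X := sup_le hY (zpowers_le.mpr (hQ q.2).1)
  by_cases e : Y = X
  · simp [fun q => (hle q).antisymm (e.ge.trans le_sup_left)]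
  have hgn := (hQ g.2).2
  let W := Y ⊔ zpowers ((g : G) ^ p)
  have h1 (q : Q) : ∃ i : ℕ, ((g : G) ^ i)⁻¹ * q ∈ Y := mem_sup_zpowers hgn (hg ▸ (hQ q.2).1)
  have h2 (k : ℕ) : (g : G) ^ (p * k) ∈ W := mem_sup_right (pow_mul (g : G) p k ▸ npow_mem_zpowers _ _)
  have h3 (q : Q) : Y ⊔ zpowers (q : G) ≠ X ↔ q ∈ W.subgroupOf Q := by
    refine ⟨fun h => by_contra fun hq => h ((hle q).antisymm (hg.ge.trans (sup_le le_sup_left
      (zpowers_le.mpr ?_)))), fun hq h => e (hY.antisymm (hg.ge.trans (sup_le le_rfl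
        (zpowers_le.mpr ?_))))⟩
    · obtain ⟨i, hi⟩ := h1 q
      refine mem_of_zpow (pg_zpowers hQp g) (k := i) (fun hd => hq ?_) ?_
      · obtain ⟨k, rfl⟩ := Int.natCast_dvd_natCast.mp hd
        simpa [mem_subgroupOf] using W.mul_mem (h2 k) (mem_sup_left hi)
      simpa using mul_mem (mem_sup_right (mem_zpowers (q : G))) (inv_mem (mem_sup_left hi))
    obtain ⟨i, hi⟩ := mem_sup_zpowers (pow_mem hgn p) (sup_le le_sup_left (zpowers_le.mpr hq)
      (h.ge (hQ g.2).1) : (g : G) ∈ W)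
    refine mem_of_zpow (pg_zpowers hQp g) (k := -(p * i) + 1) (fun hd => ?_) ?_
    · exact (Nat.prime_iff_prime_int.mp hp.out).not_dvd_one ((dvd_add_right (by simp)).mp hd)
    simpa [zpow_add, zpow_mul] using hi
  have h4 : W.relIndex Q ≤ p := by
    refine (Nat.card_le_card_of_surjective (fun j : Fin p => ((g ^ j.1 : Q) : Q ⧸ W.subgroupOf Q))
      fun c => ?_).trans (by simp)
    obtain ⟨q, rfl⟩ := QuotientGroup.mk_surjective c
    obtain ⟨i, hi⟩ := h1 q
    refine ⟨⟨i % p, Nat.mod_lt _ hp.out.pos⟩, QuotientGroup.eq.mpr ?_⟩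
    rw [← Nat.mod_add_div i p, pow_add] at hi
    have := W.mul_mem (h2 (i / p)) (mem_sup_left hi)
    simpa [mem_subgroupOf, mul_assoc] using this
  obtain ⟨n, hn⟩ := hQp.index (W.subgroupOf Q)
  simp only [h3]
  rw [← sum_filter, sum_const, nsmul_eq_mul, ← Fintype.card_subtype, ← Nat.card_eq_fintype_card,
    ← (W.subgroupOf Q).card_mul_index, Nat.cast_mul]
  refine mul_dvd_mul_left _ (Int.natCast_dvd_natCast.mpr ?_)
  rw [relIndex, hn, ← pow_one p, ← pow_mul, one_mul, Nat.pow_le_pow_iff_right hp.out.one_lt] at h4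
  exact hn ▸ (pow_dvd_pow p h4).trans (by simp)

lemma to_index {X Y : Subgroup G} {t u : ℕ} (hX : p ^ t ∣ Nat.card X) (hY : Nat.card Y = p ^ u)
    {b : ℤ} (h : ∀ Q ≤ X ⊓ normalizer (Y : Set G), IsPGroup p Q → (Y.relIndex Q : ℤ) ∣ b) :
    (p : ℤ) ^ (t - u) ∣ (normalizer (Y : Set G)).relIndex X * b := by
  let N := normalizer (Y : Set G) ⊓ X
  obtain ⟨P⟩ : Nonempty (Sylow p N) := inferInstance
  have h1 := h (P.1.map N.subtype) ((map_subtype_le _).trans (inf_comm _ X).le) (P.2.map _)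
  refine dvd_trans ?_ (mul_dvd_mul_left _ h1)
  have h2 : Nat.card (Y ⊓ P.1.map N.subtype :) ∣ p ^ u := hY ▸ card_dvd_of_le inf_le_left
  rw [card_eq (normalizer (Y : Set G)) X, ← P.1.index_mul_card, ← Subgroup.card_subtype,
    card_eq Y (P.1.map _), mul_left_comm] at hX
  have h3 := (hp.out.coprime_pow_of_not_dvd P.not_dvd_index).symm.dvd_of_dvd_mul_left hX
  rcases le_total t u with c | c
  · simp [Nat.sub_eq_zero_of_le c]
  obtain ⟨d, rfl⟩ := Nat.exists_eq_add_of_le' c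
  rw [← mul_assoc, pow_add] at h3
  rw [Nat.add_sub_cancel]
  exact_mod_cast Nat.dvd_of_mul_dvd_mul_right (pow_pos hp.out.pos u)
    (h3.trans (mul_dvd_mul_left _ h2))

end Pool.Agent.H19.Chains
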