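import Mathlib

set_option autoImplicit false
set_option linter.unusedSectionVars false

namespace Pool.Agent.H19.CoFin

abbrev V := ℕ →₀ ℚ

noncomputable def e (n : ℕ) : V := Finsupp.single n 1

/-- weighted backward shift -/
noncomputable def sg : V →ₗ[ℚ] V := Finsupp.linearCombination ℚ fun n =>
  match n with
  | 0 => 0
  | 1 => (2 : ℚ) • e 0
  | n + 2 => e (n + 1)

lemma sg0 : sg (e 0) = 0 := by simp [sg, e]
lemma sg1 : sg (e 1) = (2 : ℚ) • e 0 := by simp [sg, e]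
lemma sg2 (n : ℕ) : sg (e (n + 2)) = e (n + 1) := by simp [sg, e]

lemma single_eq (n : ℕ) (r : ℚ) : Finsupp.single n r = r • e n := by simp [e]

lemma sg_apply (v : V) (n : ℕ) : sg v n = (if n = 0 then 2 else 1) * v (n + 1) := by
  induction v using Finsupp.induction_linear with
  | zero => simp
  | add f g hf hg => simp [hf, hg, mul_add]
  | single m r =>
    rw [single_eq, map_smul]
    match m with
    | 0 => rw [sg0]; simp [e]
    | 1 => rw [sg1]; cases n <;> simp [e, mul_comm]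
    | m + 2 =>
      rw [sg2]
      cases n with
      | zero => simp [e]
      | succ n => simp [e, Finsupp.single_apply]

def Zi (q : ℕ) : Subring ℚ := Subring.closure {(q : ℚ)⁻¹}

noncomputable def Zl (p : ℕ) [Fact p.Prime] : Subring ℚ :=
  (PadicInt.subring p).comap (Rat.castHom ℚ_[p])

lemma Zi_le {p q : ℕ} [Fact p.Prime] (h : p.Coprime q) : Zi q ≤ Zl p := by
  apply Subring.closure_le.mpr
  rintro _ rfl
  change ‖((((q : ℚ)⁻¹ : ℚ)) : ℚ_[p])‖ ≤ 1
  simp [Padic.norm_natCast_eq_one_iff.mpr h]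

lemma Zl_div {p : ℕ} [hp : Fact p.Prime] {r : ℚ} (h : ∀ k : ℕ, ∃ s ∈ Zl p, (p : ℚ) ^ k * s = r) :
    r = 0 := by
  by_contra h0
  have h1 : 0 < ‖(r : ℚ_[p])‖ := norm_pos_iff.mpr (by exact_mod_cast h0)
  obtain ⟨k, hk⟩ := exists_pow_lt_of_lt_one h1 (Padic.norm_p_lt_one (p := p))
  obtain ⟨s, hs, rfl⟩ := h k
  have hs' : ‖(s : ℚ_[p])‖ ≤ 1 := hs
  push_cast at hk
  rw [norm_mul, norm_pow] at hk
  have : 0 ≤ ‖(p : ℚ_[p])‖ ^ k := by positivity
  nlinarith

lemma half_not : (1 / 2 : ℚ) ∉ Zl 2 := by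
  intro h
  have h1 : ‖((1 / 2 : ℚ) : ℚ_[2])‖ ≤ 1 := h
  have h2 := Padic.norm_p (p := 2)
  push_cast at h1 h2
  rw [norm_div, h2] at h1
  norm_num at h1

lemma Zi_par {q : ℕ} (hq : Odd q) {r : ℚ} (hr : r ∈ Zi q) :
    ∃ ε : Fin 2, ∃ s ∈ Zi q, r = (ε : ℕ) + 2 * s := by
  have : ∃ z : ℤ, ∃ s ∈ Zi q, r = z + 2 * s := by
    induction hr using Subring.closure_induction with
    | mem x hx =>
      obtain ⟨k, rfl⟩ := hq
      obtain rfl : x = _ := hx
      refine ⟨1, -(k : ℚ) * ((2 * k + 1 : ℕ) : ℚ)⁻¹,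
        mul_mem (neg_mem (natCast_mem _ _)) (Subring.subset_closure rfl), ?_⟩
      push_cast
      field_simp
      ring
    | zero => exact ⟨0, 0, zero_mem _, by simp⟩
    | one => exact ⟨1, 0, zero_mem _, by simp⟩
    | add x y _ _ hx hy =>
      obtain ⟨z, s, hs, rfl⟩ := hx
      obtain ⟨w, t, ht, rfl⟩ := hy
      exact ⟨z + w, s + t, add_mem hs ht, by push_cast; ring⟩
    | neg x _ hx =>
      obtain ⟨z, s, hs, rfl⟩ := hx
      exact ⟨-z, -s, neg_mem hs, by push_cast; ring⟩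
    | mul x y _ _ hx hy =>
      obtain ⟨z, s, hs, rfl⟩ := hx
      obtain ⟨w, t, ht, rfl⟩ := hy
      exact ⟨z * w, z * t + w * s + 2 * s * t, add_mem (add_mem (mul_mem (intCast_mem _ _) ht)
        (mul_mem (intCast_mem _ _) hs)) (mul_mem (mul_mem (ofNat_mem _ _) hs) ht),
        by push_cast; ring⟩
  obtain ⟨z, s, hs, rfl⟩ := this
  rcases Int.even_or_odd' z with ⟨w, rfl | rfl⟩
  · exact ⟨0, w + s, add_mem (intCast_mem _ _) hs, by push_cast; simp; ring⟩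
  · exact ⟨1, w + s, add_mem (intCast_mem _ _) hs, by push_cast; simp; ring⟩

def M (S : Subring ℚ) : AddSubgroup V where
  carrier := {v | ∀ n, v n ∈ S}
  zero_mem' := fun _ => zero_mem _
  add_mem' := fun h1 h2 n => add_mem (h1 n) (h2 n)
  neg_mem' := fun h n => neg_mem (h n)

lemma M_mono {S T : Subring ℚ} (h : S ≤ T) {v : V} (hv : v ∈ M S) : v ∈ M T := fun n => h (hv n)

lemma M_sg {S : Subring ℚ} {v : V} (hv : v ∈ M S) : sg v ∈ M S := fun n => by
  rw [sg_apply]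
  refine mul_mem ?_ (hv _)
  split_ifs
  exacts [ofNat_mem _ _, one_mem _]

lemma M_e {S : Subring ℚ} {r : ℚ} (hr : r ∈ S) (n : ℕ) : r • e n ∈ M S := fun m => by
  simp only [e, Finsupp.smul_single, smul_eq_mul, mul_one, Finsupp.single_apply]
  split_ifs
  exacts [hr, zero_mem _]

lemma M_par {q : ℕ} (hq : Odd q) {v : V} (hv : v ∈ M (Zi q)) :
    ∃ ε : Fin 2, ∃ w ∈ M (Zi q), v = ((ε : ℕ) : ℚ) • e 0 + sg w := by
  obtain ⟨ε, s, hs, h⟩ := Zi_par hq (hv 0)
  have h1 : ∀ n, (v.update 0 s).mapDomain Nat.succ (n + 1) = v.update 0 s n := fun n =>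
    Finsupp.mapDomain_apply Nat.succ_injective _ _
  refine ⟨ε, (v.update 0 s).mapDomain Nat.succ, fun n => ?_, ?_⟩
  · cases n with
    | zero => rw [Finsupp.mapDomain_of_notMem_range _ _ (by simp)]; exact zero_mem _
    | succ n =>
      rw [h1, Finsupp.update_apply]
      split_ifs
      exacts [hs, hv _]
  · ext n
    rw [Finsupp.add_apply, sg_apply, h1]
    cases n with
    | zero => simp [e, h]
    | succ n => simp [e]

def G : AddSubgroup (V × V) where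
  carrier := {g | ∃ a ∈ M (Zi 3), ∃ b ∈ M (Zi 5), ∃ c ∈ M (Zi 7), ∃ d ∈ M (Zi 11),
    g = (a + c + d, b + c + sg d)}
  zero_mem' := ⟨0, zero_mem _, 0, zero_mem _, 0, zero_mem _, 0, zero_mem _, by simp; rfl⟩
  add_mem' := by
    rintro _ _ ⟨a, ha, b, hb, c, hc, d, hd, rfl⟩ ⟨a', ha', b', hb', c', hc', d', hd', rfl⟩
    refine ⟨_, add_mem ha ha', _, add_mem hb hb', _, add_mem hc hc', _, add_mem hd hd', ?_⟩
    ext1 <;> simp <;> abel
  neg_mem' := by
    rintro _ ⟨a, ha, b, hb, c, hc, d, hd, rfl⟩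
    refine ⟨_, neg_mem ha, _, neg_mem hb, _, neg_mem hc, _, neg_mem hd, ?_⟩
    ext1 <;> simp <;> abel

instance : Fact (Nat.Prime 5) := ⟨by norm_num⟩
instance : Fact (Nat.Prime 7) := ⟨by norm_num⟩
instance : Fact (Nat.Prime 11) := ⟨by norm_num⟩

lemma loc2 {g : V × V} (hg : g ∈ G) : g.1 ∈ M (Zl 2) ∧ g.2 ∈ M (Zl 2) := by
  obtain ⟨a, ha, b, hb, c, hc, d, hd, rfl⟩ := hg
  have ha := M_mono (Zi_le (p := 2) (by norm_num)) ha
  have hb := M_mono (Zi_le (p := 2) (by norm_num)) hb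
  have hc := M_mono (Zi_le (p := 2) (by norm_num)) hc
  have hd := M_mono (Zi_le (p := 2) (by norm_num)) hd
  exact ⟨add_mem (add_mem ha hc) hd, add_mem (add_mem hb hc) (M_sg hd)⟩

lemma loc3 {g : V × V} (hg : g ∈ G) : LinearMap.snd ℚ V V g ∈ M (Zl 3) := by
  obtain ⟨a, ha, b, hb, c, hc, d, hd, rfl⟩ := hg
  exact add_mem (add_mem (M_mono (Zi_le (by norm_num)) hb) (M_mono (Zi_le (by norm_num)) hc))
    (M_sg (M_mono (Zi_le (by norm_num)) hd))

lemma loc5 {g : V × V} (hg : g ∈ G) : LinearMap.fst ℚ V V g ∈ M (Zl 5) := by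
  obtain ⟨a, ha, b, hb, c, hc, d, hd, rfl⟩ := hg
  exact add_mem (add_mem (M_mono (Zi_le (by norm_num)) ha) (M_mono (Zi_le (by norm_num)) hc))
    (M_mono (Zi_le (by norm_num)) hd)

lemma loc7 {g : V × V} (hg : g ∈ G) :
    (LinearMap.fst ℚ V V - LinearMap.snd ℚ V V) g ∈ M (Zl 7) := by
  obtain ⟨a, ha, b, hb, c, hc, d, hd, rfl⟩ := hg
  have hd := M_mono (Zi_le (p := 7) (by norm_num)) hd
  convert sub_mem (add_mem (M_mono (Zi_le (p := 7) (by norm_num)) ha) hd)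
    (add_mem (M_mono (Zi_le (by norm_num)) hb) (M_sg hd)) using 1
  change a + c + d - (b + c + sg d) = _
  abel

lemma loc11 {g : V × V} (hg : g ∈ G) :
    (LinearMap.snd ℚ V V - sg ∘ₗ LinearMap.fst ℚ V V) g ∈ M (Zl 11) := by
  obtain ⟨a, ha, b, hb, c, hc, d, hd, rfl⟩ := hg
  have hc := M_mono (Zi_le (p := 11) (by norm_num)) hc
  have h := sub_mem (add_mem (M_mono (Zi_le (p := 11) (by norm_num)) hb) hc)
    (M_sg (add_mem (M_mono (Zi_le (by norm_num)) ha) hc))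
  have h2 : b + c + sg d - sg (a + c + d) = b + c - sg (a + c) := by
    rw [map_add sg (a + c)]
    abel
  rw [← h2] at h
  exact h

lemma pres (θ : G →+ G) (q : ℕ) [hq : Fact q.Prime] (L : V × V →ₗ[ℚ] V)
    (hL : ∀ g ∈ G, L g ∈ M (Zl q)) (j : V →ₗ[ℚ] V × V) (hj : ∀ v ∈ M (Zi q), j v ∈ G) (n : ℕ)
    (x : G) (hx : x.1 = j (e n)) : L (θ x) = 0 := by
  ext m
  apply Zl_div (p := q)
  intro k
  have h1 : ((q : ℚ)⁻¹) ^ k • e n ∈ M (Zi q) :=
    M_e (pow_mem (Subring.subset_closure (Set.mem_singleton _)) k) n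
  have h2 : x = q ^ k • ⟨_, hj _ h1⟩ := by
    apply Subtype.ext
    have : (q : ℚ) ≠ 0 := by exact_mod_cast hq.out.ne_zero
    rw [hx, AddSubgroup.coe_nsmul, ← map_nsmul, ← Nat.cast_smul_eq_nsmul ℚ, smul_smul]
    simp [this]
  refine ⟨_, hL _ (θ ⟨_, hj _ h1⟩).2 m, ?_⟩
  conv_rhs => rw [h2, map_nsmul, AddSubgroup.coe_nsmul, map_nsmul]
  simp

lemma j3 : ∀ v ∈ M (Zi 3), LinearMap.inl ℚ V V v ∈ G := fun v hv =>
  ⟨v, hv, 0, zero_mem _, 0, zero_mem _, 0, zero_mem _, by simp⟩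
lemma j5 : ∀ v ∈ M (Zi 5), LinearMap.inr ℚ V V v ∈ G := fun v hv =>
  ⟨0, zero_mem _, v, hv, 0, zero_mem _, 0, zero_mem _, by simp⟩
lemma j7 : ∀ v ∈ M (Zi 7), (LinearMap.id.prod LinearMap.id : V →ₗ[ℚ] V × V) v ∈ G := fun v hv =>
  ⟨0, zero_mem _, 0, zero_mem _, v, hv, 0, zero_mem _, by simp⟩
lemma j11 : ∀ v ∈ M (Zi 11), (LinearMap.id.prod sg : V →ₗ[ℚ] V × V) v ∈ G := fun v hv =>
  ⟨0, zero_mem _, 0, zero_mem _, 0, zero_mem _, v, hv, by simp⟩

lemma e_mem (S : Subring ℚ) (n : ℕ) : e n ∈ M S := by simpa using M_e (one_mem S) n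

theorem endo (θ : G →+ G) : ∃ F : V →ₗ[ℚ] V, (∀ x : G, (θ x).1 = F.prodMap F x.1) ∧
    F ∘ₗ sg = sg ∘ₗ F := by
  let x1 : ℕ → G := fun n => ⟨_, j3 _ (e_mem _ n)⟩
  let x2 : ℕ → G := fun n => ⟨_, j5 _ (e_mem _ n)⟩
  let F : V →ₗ[ℚ] V := Finsupp.linearCombination ℚ fun n => (θ (x1 n)).1.1
  have hF : ∀ n, F (e n) = (θ (x1 n)).1.1 := fun n => by simp [F, e]
  have h3 : ∀ n, (θ (x1 n)).1.2 = 0 := fun n => pres θ 3 _ (@loc3) _ j3 n _ rfl
  have h5 : ∀ n, (θ (x2 n)).1.1 = 0 := fun n => pres θ 5 _ (@loc5) _ j5 n _ rfl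
  have h7 : ∀ n, (θ (x2 n)).1.2 = F (e n) := fun n => by
    have := pres θ 7 _ (@loc7) _ j7 n (x1 n + x2 n) (by simp [x1, x2])
    simp only [map_add, AddSubgroup.coe_add, LinearMap.sub_apply, LinearMap.fst_apply,
      LinearMap.snd_apply, h3, h5] at this
    rw [hF]
    rw [sub_zero, zero_sub, add_neg_eq_zero] at this
    exact this.symm
  have key : ∀ y : V × V, ∃ N : ℕ, N ≠ 0 ∧ ∃ x : G, x.1 = N • y ∧ (θ x).1 = F.prodMap F x.1 := by
    have hadd : ∀ y y' : V × V,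
        (∃ N : ℕ, N ≠ 0 ∧ ∃ x : G, x.1 = N • y ∧ (θ x).1 = F.prodMap F x.1) →
        (∃ N : ℕ, N ≠ 0 ∧ ∃ x : G, x.1 = N • y' ∧ (θ x).1 = F.prodMap F x.1) →
        ∃ N : ℕ, N ≠ 0 ∧ ∃ x : G, x.1 = N • (y + y') ∧ (θ x).1 = F.prodMap F x.1 := by
      rintro y y' ⟨N, hN, x, hx, h⟩ ⟨N', hN', x', hx', h'⟩
      refine ⟨N * N', mul_ne_zero hN hN', N' • x + N • x', ?_, ?_⟩
      · simp only [AddSubgroup.coe_add, AddSubgroup.coe_nsmul, hx, hx', smul_smul, smul_add,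
          mul_comm]
      · simp only [map_add, map_nsmul, AddSubgroup.coe_add, AddSubgroup.coe_nsmul, h, h']
    have hs : ∀ (x : G) (r : ℚ), (θ x).1 = F.prodMap F x.1 →
        ∃ N : ℕ, N ≠ 0 ∧ ∃ x' : G, x'.1 = N • (r • x.1) ∧ (θ x').1 = F.prodMap F x'.1 := by
      intro x r h
      refine ⟨r.den, r.den_nz, r.num • x, ?_, ?_⟩
      · rw [AddSubgroup.coe_zsmul, ← Nat.cast_smul_eq_nsmul ℚ, smul_smul, Rat.den_mul_eq_num,
          Int.cast_smul_eq_zsmul]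
      · simp only [map_zsmul, AddSubgroup.coe_zsmul, h]
    rintro ⟨a, b⟩
    rw [← Prod.fst_add_snd (a, b)]
    apply hadd
    · induction a using Finsupp.induction_linear with
      | zero => exact ⟨1, one_ne_zero, 0, by simp [Prod.ext_iff], by simp [Prod.ext_iff]⟩
      | add f g hf hg => simpa using hadd _ _ hf hg
      | single n r =>
        simpa [x1, single_eq] using hs (x1 n) r (Prod.ext (hF n).symm ((h3 n).trans (map_zero F).symm))
    · induction b using Finsupp.induction_linear with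
      | zero => exact ⟨1, one_ne_zero, 0, by simp [Prod.ext_iff], by simp [Prod.ext_iff]⟩
      | add f g hf hg => simpa using hadd _ _ hf hg
      | single n r =>
        simpa [x2, single_eq] using hs (x2 n) r (Prod.ext ((h5 n).trans (map_zero F).symm) (h7 n))
  have hθ : ∀ x : G, (θ x).1 = F.prodMap F x.1 := by
    intro x
    obtain ⟨N, hN, x', hx, h⟩ := key x.1
    obtain rfl : x' = N • x := Subtype.ext hx
    simp only [map_nsmul, AddSubgroup.coe_nsmul] at h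
    exact nsmul_right_injective hN h
  refine ⟨F, hθ, ?_⟩
  apply Finsupp.lhom_ext'
  intro n
  apply LinearMap.ext_ring
  have := pres θ 11 _ (@loc11) _ j11 n ⟨_, j11 _ (e_mem _ n)⟩ rfl
  rw [hθ] at this
  simpa [sub_eq_zero, e] using this

lemma ker_e0 {F : V →ₗ[ℚ] V} (hF : F ∘ₗ sg = sg ∘ₗ F) (k : ℕ) :
    ∀ v : V, (∀ n, k ≤ n → v n = 0) → F v = 0 → v ≠ 0 → F (e 0) = 0 := by
  induction k with
  | zero => exact fun v h _ h0 => absurd (Finsupp.ext fun n => h n (by omega)) h0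
  | succ k ih =>
    intro v h h1 h0
    by_cases h2 : sg v = 0
    · have h3 : v = v 0 • e 0 := by
        ext n
        cases n with
        | zero => simp [e]
        | succ n =>
          have := congrArg (fun w : V => w n) h2
          simp only [sg_apply] at this
          split_ifs at this <;> simpa [e] using this
      rw [h3, map_smul, smul_eq_zero] at h1
      exact h1.resolve_left fun h4 => h0 (by rw [h3, h4, zero_smul])
    · refine ih (sg v) (fun n hn => by rw [sg_apply, h _ (by omega), mul_zero]) ?_ h2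
      have := DFunLike.congr_fun hF v
      simpa [h1] using this

theorem hopf (θ : G →+ G) (hs : Function.Surjective θ) : Function.Injective θ := by
  obtain ⟨F, hθ, hF⟩ := endo θ
  rw [injective_iff_map_eq_zero]
  intro x hx
  by_contra h0
  have hx' := hθ x
  rw [hx] at hx'
  have h1 : F (e 0) = 0 := by
    have hb : ∀ v : V, ∃ k, ∀ n, k ≤ n → v n = 0 := fun v =>
      ⟨v.support.sup id + 1, fun n hn => by
        by_contra h
        have := Finset.le_sup (f := id) (Finsupp.mem_support_iff.mpr h)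
        simp at this
        omega⟩
    by_cases h2 : x.1.1 = 0
    · obtain ⟨k, hk⟩ := hb x.1.2
      exact ker_e0 hF k _ hk (congrArg Prod.snd hx').symm
        fun h3 => h0 (Subtype.ext (Prod.ext h2 h3))
    · obtain ⟨k, hk⟩ := hb x.1.1
      exact ker_e0 hF k _ hk (congrArg Prod.fst hx').symm h2
  have h2 : ∀ n, (1 / 2 : ℚ) * F (e n) 0 ∈ Zl 2 := by
    intro n
    cases n with
    | zero => simp [h1]
    | succ n =>
      have h3 := DFunLike.congr_fun hF (e (n + 2))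
      simp only [LinearMap.comp_apply, sg2] at h3
      have h4 := (loc2 (θ ⟨_, j3 _ (e_mem _ (n + 2))⟩).2).1 1
      rw [hθ] at h4
      rw [h3, sg_apply]
      simpa using h4
  have h3 : ∀ v ∈ M (Zl 2), (1 / 2 : ℚ) * F v 0 ∈ Zl 2 := by
    intro v hv
    conv => enter [2, 2, 1, 2]; rw [← Finsupp.sum_single v]
    rw [Finsupp.sum, map_sum, Finsupp.finsetSum_apply, Finset.mul_sum]
    refine Subring.sum_mem _ fun n _ => ?_
    rw [single_eq, map_smul, Finsupp.smul_apply, smul_eq_mul, mul_left_comm]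
    exact mul_mem (hv n) (h2 n)
  obtain ⟨y, hy⟩ := hs ⟨_, j3 _ (e_mem _ 0)⟩
  have h4 := congrArg Prod.fst (hθ y)
  rw [hy] at h4
  have h5 := h3 _ (loc2 y.2).1
  rw [← show e 0 = F y.1.1 from h4] at h5
  exact half_not (by simpa [e] using h5)

noncomputable def phi : G →+ G :=
  ((sg.prodMap sg).toAddMonoidHom.comp G.subtype).codRestrict G (by
    rintro ⟨_, a, ha, b, hb, c, hc, d, hd, rfl⟩
    exact ⟨_, M_sg ha, _, M_sg hb, _, M_sg hc, _, M_sg hd, by simp⟩)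

theorem phi_fin : Finite (G ⧸ phi.range) := by
  have hm : ∀ (ε : Fin 2) (q : ℕ), ((ε : ℕ) : ℚ) • e 0 ∈ M (Zi q) := fun ε q =>
    M_e (natCast_mem _ _) 0
  refine Finite.of_surjective (fun ε : Fin 2 × Fin 2 × Fin 2 × Fin 2 =>
    (QuotientAddGroup.mk ⟨_, _, hm ε.1 3, _, hm ε.2.1 5, _, hm ε.2.2.1 7, _, hm ε.2.2.2 11, rfl⟩ :
      G ⧸ phi.range)) ?_
  rintro ⟨_, a, ha, b, hb, c, hc, d, hd, rfl⟩
  obtain ⟨ε1, a, ha', rfl⟩ := M_par (by decide) ha
  obtain ⟨ε2, b, hb', rfl⟩ := M_par (by decide) hb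
  obtain ⟨ε3, c, hc', rfl⟩ := M_par (by decide) hc
  obtain ⟨ε4, d, hd', rfl⟩ := M_par (by decide) hd
  refine ⟨(ε1, ε2, ε3, ε4),
    QuotientAddGroup.eq.mpr ⟨⟨_, a, ha', b, hb', c, hc', d, hd', rfl⟩, ?_⟩⟩
  apply Subtype.ext
  ext1 <;> simp [phi] <;> abel

theorem phi_ker : phi.ker ≠ ⊥ := by
  intro h
  have h1 : (⟨_, j3 _ (e_mem _ 0)⟩ : G) ∈ phi.ker := Subtype.ext (by simp [phi, sg0])
  rw [h, AddSubgroup.mem_bot] at h1
  simpa [e] using congrArg (fun x : G => x.1.1) h1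

end Pool.Agent.H19.CoFin
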