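import Mathlib

set_option autoImplicit false

namespace Pool.Agent.H19.FactSimple

abbrev F : Type := ZMod 2
abbrev J : Type := ℕ × ℕ
abbrev W0 : Type := J → F
abbrev L : Type := W0 ≃ₗ[F] W0

lemma z2 (x : F) : x + x = 0 := by revert x; decide
lemma w2 (x : W0) : x + x = 0 := by funext j; exact z2 _

/-- The transvection `x ↦ x + x k • w`. -/
noncomputable def Tr (k : J) (w : W0) (h : w k = 0) : L :=
  LinearEquiv.ofInvolutive (LinearMap.id + (LinearMap.proj k : W0 →ₗ[F] F).smulRight w) (by
    intro x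
    simp only [LinearMap.add_apply, LinearMap.id_apply, LinearMap.smulRight_apply,
      LinearMap.proj_apply, Pi.add_apply, Pi.smul_apply, h, smul_zero, add_zero]
    rw [add_assoc, w2, add_zero])

@[simp] lemma Tr_apply (k : J) (w : W0) (h : w k = 0) (x : W0) : Tr k w h x = x + x k • w := rfl

lemma Tr_inv (k : J) (w : W0) (h : w k = 0) : (Tr k w h)⁻¹ = Tr k w h := rfl

lemma sing_ne {i j : J} (h : i ≠ j) : (Pi.single i 1 : W0) j = 0 := by
  simp [Pi.single_apply, h.symm]

noncomputable def E (i j : J) (h : i ≠ j) : L := Tr j (Pi.single i 1) (sing_ne h)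

def gens : Set L := {g | ∃ i j, ∃ h : i ≠ j, g = E i j h}

def A0 : Subgroup L := Subgroup.closure gens

lemma E_mem (i j : J) (h : i ≠ j) : E i j h ∈ A0 := Subgroup.subset_closure ⟨i, j, h, rfl⟩

lemma comm_eq (n : L) (k : J) (w : W0) (h : w k = 0) (hn : ∀ x, n x k = x k)
    (w' : W0) (h' : w' k = 0) (hw : w' = n w + w) :
    n * Tr k w h * n⁻¹ * (Tr k w h)⁻¹ = Tr k w' h' := by
  rw [Tr_inv]
  ext1 x
  have e : ∀ y, (n⁻¹ : L) y k = y k := fun y => by
    have := hn ((n⁻¹ : L) y)
    rw [← this]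
    exact congrFun (n.apply_symm_apply y) k
  have e2 : ∀ y, n ((n⁻¹ : L) y) = y := fun y => n.apply_symm_apply y
  have e3 : (x + x k • w) k = x k := by simp [h]
  simp only [LinearEquiv.mul_apply]
  rw [Tr_apply k w h x, Tr_apply k w h, e, e3, map_add, e2, map_smul, Tr_apply, hw, smul_add]
  abel

lemma finitary (g : L) (hg : g ∈ A0) : ∃ S : Finset J, (∀ x k, k ∉ S → g x k = x k) ∧
    (∀ x : W0, (∀ k ∈ S, x k = 0) → g x = x) := by
  classical
  induction hg using Subgroup.closure_induction'' with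
  | one => exact ⟨∅, by simp, by simp⟩
  | mem g hg =>
    obtain ⟨i, j, h, rfl⟩ := hg
    refine ⟨{i, j}, fun x k hk => ?_, fun x hx => ?_⟩
    · simp only [Finset.mem_insert, Finset.mem_singleton, not_or] at hk
      simp [E, Pi.single_apply, hk.1]
    · simp [E, hx j (by simp)]
  | inv_mem g hg =>
    obtain ⟨i, j, h, rfl⟩ := hg
    refine ⟨{i, j}, fun x k hk => ?_, fun x hx => ?_⟩
    · simp only [Finset.mem_insert, Finset.mem_singleton, not_or] at hk
      simp [E, Tr_inv, Pi.single_apply, hk.1]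
    · simp [E, Tr_inv, hx j (by simp)]
  | mul a b _ _ ha hb =>
    obtain ⟨S, h1, h2⟩ := ha
    obtain ⟨T, h3, h4⟩ := hb
    refine ⟨S ∪ T, fun x k hk => ?_, fun x hx => ?_⟩
    · simp only [Finset.mem_union, not_or] at hk
      rw [LinearEquiv.mul_apply, h1 _ _ hk.1, h3 _ _ hk.2]
    · rw [LinearEquiv.mul_apply, h4 x (fun k hk => hx k (by simp [hk])),
        h2 x (fun k hk => hx k (by simp [hk]))]

lemma all_E (N : Subgroup L) (hle : N ≤ A0) (hN : ∀ a ∈ A0, ∀ n ∈ N, a * n * a⁻¹ ∈ N)
    (g : L) (hg : g ∈ N) (hg1 : g ≠ 1) : A0 ≤ N := by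
  classical
  have c1 : ∀ n ∈ N, ∀ a ∈ A0, n * a * n⁻¹ * a⁻¹ ∈ N := by
    intro n hn a ha
    have := N.mul_mem hn (hN a ha _ (N.inv_mem hn))
    simpa [mul_assoc] using this
  have c2 : ∀ a ∈ A0, ∀ n ∈ N, a * n * a⁻¹ * n⁻¹ ∈ N := fun a ha n hn =>
    N.mul_mem (hN a ha n hn) (N.inv_mem hn)
  obtain ⟨S, h1, h2⟩ := finitary g (hle hg)
  obtain ⟨i, hi⟩ : ∃ i, g (Pi.single i 1) ≠ Pi.single i 1 := by
    by_contra hcon
    push Not at hcon
    apply hg1
    ext1 x
    have hx : x = (∑ k ∈ S, x k • (Pi.single k 1 : W0)) + fun k => if k ∈ S then 0 else x k := by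
      funext k
      simp only [Pi.add_apply, Finset.sum_apply, Pi.smul_apply, Pi.single_apply, smul_eq_mul,
        mul_ite, mul_one, mul_zero, Finset.sum_ite_eq]
      split_ifs <;> simp
    show g x = x
    rw [hx, map_add, map_sum, h2 _ (fun k hk => by simp [hk])]
    simp [hcon]
  obtain ⟨k, hk⟩ := Infinite.exists_notMem_finset (insert i S)
  simp only [Finset.mem_insert, not_or] at hk
  have hik : i ≠ k := fun h => hk.1 h.symm
  set w : W0 := g (Pi.single i 1) + Pi.single i 1 with hw
  have hwk : w k = 0 := by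
    rw [hw, Pi.add_apply, h1 _ _ hk.2, z2]
  have m1 : Tr k w hwk ∈ N := by
    rw [← comm_eq g k _ (sing_ne hik) (fun x => h1 x k hk.2) w hwk hw]
    exact c1 g hg _ (E_mem i k hik)
  obtain ⟨m, hm⟩ : ∃ m, w m = 1 := by
    by_contra hcon
    push Not at hcon
    apply hi
    have : w = 0 := by
      funext m
      have : ∀ y : F, y ≠ 1 → y = 0 := by decide
      exact this _ (hcon m)
    rw [hw] at this
    rw [eq_neg_of_add_eq_zero_left this]
    exact neg_eq_of_add_eq_zero_left (w2 _)
  obtain ⟨l, hl⟩ := Infinite.exists_notMem_finset ({k, m} : Finset J)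
  simp only [Finset.mem_insert, Finset.mem_singleton, not_or] at hl
  have key : ∀ (a b c : J) (hab : a ≠ b) (hac : a ≠ c) (u : W0) (hu : u c = 0), u b = 1 →
      E a b hab * Tr c u hu * (E a b hab)⁻¹ * (Tr c u hu)⁻¹ = E a c hac := by
    intro a b c hab hac u hu hub
    refine comm_eq _ c u hu (fun x => by simp [E, Pi.single_apply, hac.symm]) _ _ ?_
    simp only [E, Tr_apply, hub, one_smul]
    rw [add_comm u, add_assoc, w2, add_zero]
  have m2 : E l k hl.1 ∈ N := by
    rw [← key l m k hl.2 hl.1 w hwk hm]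
    exact c2 _ (E_mem _ _ _) _ m1
  have m3 : ∀ a (h : a ≠ k), E a k h ∈ N := by
    intro a h
    by_cases hal : a = l
    · subst hal; exact m2
    · rw [← key a l k hal h (Pi.single l 1) (sing_ne hl.1) (by simp)]
      exact c2 _ (E_mem _ _ _) _ m2
  have m4 : ∀ a b (h : a ≠ b), a ≠ k → E a b h ∈ N := by
    intro a b h hak
    by_cases hbk : b = k
    · subst hbk; exact m3 a h
    · have hkb : k ≠ b := fun h => hbk h.symm
      rw [← key a k b hak h (Pi.single k 1) (sing_ne hkb) (by simp)]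
      exact c1 _ (m3 a hak) _ (E_mem k b hkb)
  have m5 : ∀ a b (h : a ≠ b), E a b h ∈ N := by
    intro a b h
    by_cases hak : a = k
    · obtain ⟨c, hc⟩ := Infinite.exists_notMem_finset ({a, b} : Finset J)
      simp only [Finset.mem_insert, Finset.mem_singleton, not_or] at hc
      have hac : a ≠ c := fun h => hc.1 h.symm
      rw [← key a c b hac h (Pi.single c 1) (sing_ne hc.2) (by simp)]
      exact c2 _ (E_mem _ _ _) _ (m4 c b hc.2 (hak ▸ hc.1))
    · exact m4 a b h hak
  rw [A0, Subgroup.closure_le]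
  rintro _ ⟨a, b, h, rfl⟩
  exact m5 a b h

instance : Nontrivial A0 := by
  have h : ((0, 0) : J) ≠ (0, 1) := by decide
  refine ⟨⟨⟨E _ _ h, E_mem _ _ h⟩, 1, fun hh => ?_⟩⟩
  have h2 : E _ _ h = 1 := congrArg Subtype.val hh
  have h3 := congrFun (DFunLike.congr_fun h2 (Pi.single (0, 1) 1)) (0, 0)
  simp [E] at h3

instance simpleA0 : IsSimpleGroup A0 where
  eq_bot_or_eq_top_of_normal := by
    intro N hN
    by_cases hb : N = ⊥
    · exact Or.inl hb
    right
    obtain ⟨⟨g, hg⟩, hg1⟩ := Subgroup.ne_bot_iff_exists_ne_one.1 hb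
    have := all_E (N.map A0.subtype) (Subgroup.map_subtype_le N) (by
      rintro a ha _ ⟨n, hn, rfl⟩
      exact ⟨_, hN.conj_mem n hn ⟨a, ha⟩, rfl⟩) g.1 ⟨g, hg, rfl⟩
      (fun h => hg1 (Subtype.ext (Subtype.ext h)))
    rw [eq_top_iff]
    intro a _
    obtain ⟨n, hn, h⟩ := this a.2
    have : n = a := Subtype.ext h
    exact this ▸ hn

abbrev Om : Type := ℕ → W0

def act (a : L) (x : Om) : Om := fun s => a (x s)

def FinS (x : Om) : Prop := {p : ℕ × J | x p.1 p.2 ≠ 0}.Finite
def RowF (x : Om) : Prop := ∀ j, {s : ℕ | x s j ≠ 0}.Finite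

lemma FinS.add {x y : Om} (hx : FinS x) (hy : FinS y) : FinS (x + y) := by
  refine (hx.union hy).subset fun p hp => ?_
  by_contra h
  simp only [Set.mem_union, Set.mem_setOf_eq, not_or, not_not] at h
  exact hp (by simp [h.1, h.2])

lemma FinS.rowF {x : Om} (hx : FinS x) : RowF x := fun j =>
  (hx.image Prod.fst).subset fun s hs => ⟨(s, j), hs, rfl⟩

lemma RowF.add {x y : Om} (hx : RowF x) (hy : RowF y) : RowF (x + y) := by
  intro j
  refine ((hx j).union (hy j)).subset fun p hp => ?_
  by_contra h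
  simp only [Set.mem_union, Set.mem_setOf_eq, not_or, not_not] at h
  exact hp (by simp [h.1, h.2])

lemma o2 (x : Om) : x + x = 0 := by funext s; exact w2 _

lemma finS_delta (a : L) (ha : a ∈ A0) : ∀ x, RowF x → FinS (act a x + x) := by
  have hE : ∀ i j h x, RowF x → FinS (act (E i j h) x + x) := by
    intro i j h x hx
    refine ((hx j).image (fun s => (s, i))).subset fun p hp => ?_
    simp only [Set.mem_setOf_eq, act, E, Pi.add_apply, Tr_apply, Pi.smul_apply, smul_eq_mul] at hp
    rw [add_comm (x p.1 p.2), add_assoc, z2, add_zero] at hp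
    have h1 : x p.1 j ≠ 0 := left_ne_zero_of_mul hp
    have h2 : p.2 = i := by
      by_contra h2
      exact right_ne_zero_of_mul hp (sing_ne (fun h => h2 h.symm))
    exact ⟨p.1, h1, by rw [← h2]⟩
  induction ha using Subgroup.closure_induction'' with
  | one =>
    intro x _
    have : act 1 x + x = 0 := o2 x
    rw [this]; simp [FinS]
  | mem g hg => obtain ⟨i, j, h, rfl⟩ := hg; exact hE i j h
  | inv_mem g hg => obtain ⟨i, j, h, rfl⟩ := hg; exact hE i j h
  | mul a b _ _ ha hb =>
    intro x hx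
    have h1 := hb x hx
    have h2 : RowF (act b x) := by
      have := h1.rowF.add hx
      rwa [add_assoc, o2, add_zero] at this
    have h3 := (ha _ h2).add h1
    have : act a (act b x) + act b x + (act b x + x) = act (a * b) x + x := by
      rw [add_assoc, ← add_assoc (act b x), o2, zero_add]; rfl
    rwa [this] at h3

lemma finS_act (a : L) (ha : a ∈ A0) {x : Om} (hx : FinS x) : FinS (act a x) := by
  have := (finS_delta a ha x hx.rowF).add hx
  rwa [add_assoc, o2, add_zero] at this

def ee : Om := fun s j => if j.1 = s then 1 else 0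

lemma rowF_ee : RowF ee := fun j =>
  (Set.finite_singleton j.1).subset fun s hs => by
    by_contra h
    exact hs (by simp only [ee]; rw [if_neg (fun h' => h h'.symm)])

lemma trans_aux (P : Finset (ℕ × J)) : ∀ v : Om, (∀ p : ℕ × J, v p.1 p.2 ≠ 0 → p ∈ P) →
    ∃ b ∈ A0, act b ee + ee = v := by
  classical
  induction P using Finset.induction_on with
  | empty =>
    intro v hv
    refine ⟨1, A0.one_mem, ?_⟩
    have : act 1 ee + ee = 0 := o2 ee
    rw [this]; funext s j
    by_contra h
    simpa using hv (s, j) (fun h' => h h'.symm)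
  | insert p P hp ih =>
    intro v hv
    by_cases h0 : v p.1 p.2 = 0
    · refine ih v fun q hq => ?_
      rcases Finset.mem_insert.1 (hv q hq) with rfl | h
      · exact absurd h0 hq
      · exact h
    have h1 : v p.1 p.2 = 1 := by
      have : ∀ y : F, y ≠ 0 → y = 1 := by decide
      exact this _ h0
    set v' : Om := fun s j => if (s, j) = p then 0 else v s j with hv'
    obtain ⟨b, hb, hbv⟩ := ih v' (fun q hq => by
      simp only [hv'] at hq
      split_ifs at hq with h
      · exact absurd rfl hq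
      · rcases Finset.mem_insert.1 (hv q hq) with rfl | h'
        · exact absurd rfl h
        · exact h')
    obtain ⟨n, hn⟩ := Infinite.exists_notMem_finset ((insert p P).image (fun q => q.2.2))
    have hn' : ∀ q ∈ insert p P, q.2.2 ≠ n := fun q hq h =>
      hn (Finset.mem_image.2 ⟨q, hq, h⟩)
    have hij : p.2 ≠ (p.1, n) := fun h => hn' p (by simp) (by rw [h])
    refine ⟨E p.2 (p.1, n) hij * b, A0.mul_mem (E_mem _ _ _) hb, ?_⟩
    have hy : act b ee = v' + ee := by rw [← hbv, add_assoc, o2, add_zero]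
    have : act (E p.2 (p.1, n) hij * b) ee = act (E p.2 (p.1, n) hij) (act b ee) := rfl
    rw [this, hy]
    funext s j
    have hz : v' s (p.1, n) = 0 := by
      simp only [hv']
      split_ifs with h
      · rfl
      · by_contra h'
        exact hn' (s, (p.1, n)) (hv _ h') rfl
    simp only [act, E, Tr_apply, Pi.add_apply, Pi.smul_apply, hz, zero_add, smul_eq_mul]
    rw [add_right_comm, add_assoc (v' s j), z2, add_zero]
    simp only [hv', ee, Pi.single_apply]
    obtain ⟨p1, p2⟩ := p
    by_cases hs : p1 = s <;> by_cases hj : j = p2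
    · subst hs; subst hj; simp at h1 ⊢; exact h1.symm
    · subst hs; simp [hj]
    · have : s ≠ p1 := fun h => hs h.symm
      simp [hs, this]
    · simp [hj]

/-- The semidirect product of the finitely supported part of `Om` with `A0`. -/
@[ext] structure GG where
  v : Om
  a : L
  hv : FinS v
  ha : a ∈ A0

lemma act_add (a : L) (x y : Om) : act a (x + y) = act a x + act a y := by
  funext s; simp [act]
@[simp] lemma act_zero (a : L) : act a 0 = 0 := by funext s; simp [act]
@[simp] lemma act_one (x : Om) : act 1 x = x := rfl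
lemma act_mul (a b : L) (x : Om) : act (a * b) x = act a (act b x) := rfl

lemma finS_zero : FinS 0 := by simp [FinS]

instance : Mul GG := ⟨fun x y => ⟨x.v + act x.a y.v, x.a * y.a, x.hv.add (finS_act _ x.ha y.hv),
  A0.mul_mem x.ha y.ha⟩⟩
instance : One GG := ⟨⟨0, 1, finS_zero, A0.one_mem⟩⟩
noncomputable instance : Inv GG := ⟨fun x => ⟨act x.a⁻¹ x.v, x.a⁻¹,
  finS_act _ (A0.inv_mem x.ha) x.hv, A0.inv_mem x.ha⟩⟩

@[simp] lemma mul_v (x y : GG) : (x * y).v = x.v + act x.a y.v := rfl
@[simp] lemma mul_a (x y : GG) : (x * y).a = x.a * y.a := rfl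
@[simp] lemma one_v : (1 : GG).v = 0 := rfl
@[simp] lemma one_a : (1 : GG).a = 1 := rfl
@[simp] lemma inv_v (x : GG) : (x⁻¹).v = act x.a⁻¹ x.v := rfl
@[simp] lemma inv_a (x : GG) : (x⁻¹).a = x.a⁻¹ := rfl

noncomputable instance : Group GG := Group.ofLeftAxioms
  (fun x y z => GG.ext (by simp [act_add, act_mul, add_assoc]) (by simp [mul_assoc]))
  (fun x => GG.ext (by simp) (by simp))
  (fun x => GG.ext (by simp [o2]) (by simp))

def iA : A0 →* GG where
  toFun a := ⟨0, a.1, finS_zero, a.2⟩
  map_one' := rfl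
  map_mul' a b := GG.ext (by simp) rfl

def iB : A0 →* GG where
  toFun a := ⟨act a.1 ee + ee, a.1, finS_delta _ a.2 _ rowF_ee, a.2⟩
  map_one' := GG.ext (o2 ee) rfl
  map_mul' a b := GG.ext (by
    simp only [Subgroup.coe_mul, mul_v, act_mul, act_add]
    rw [add_comm (act a.1 ee + ee), add_assoc, ← add_assoc (act a.1 ee), o2, zero_add]) rfl

lemma iA_inj : Function.Injective iA := fun _ _ h => Subtype.ext (congrArg GG.a h)
lemma iB_inj : Function.Injective iB := fun _ _ h => Subtype.ext (congrArg GG.a h)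

lemma simpleA : IsSimpleGroup iA.range :=
  (MonoidHom.ofInjective iA_inj).symm.isSimpleGroup
lemma simpleB : IsSimpleGroup iB.range :=
  (MonoidHom.ofInjective iB_inj).symm.isSimpleGroup

lemma factor (g : GG) : ∃ a ∈ iB.range, ∃ b ∈ iA.range, g = a * b := by
  obtain ⟨b, hb, h⟩ := trans_aux g.hv.toFinset g.v (fun p hp => by simpa using hp)
  refine ⟨iB ⟨b, hb⟩, ⟨_, rfl⟩, iA ⟨b⁻¹ * g.a, A0.mul_mem (A0.inv_mem hb) g.ha⟩, ⟨_, rfl⟩, ?_⟩
  refine GG.ext ?_ ?_
  · simp [iA, iB, h]
  · simp [iA, iB]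

def U (k : ℕ) : Subgroup GG where
  carrier := {g | g.a = 1 ∧ ∀ s, k ≤ s → g.v s = 0}
  one_mem' := ⟨rfl, fun _ _ => rfl⟩
  mul_mem' := by
    rintro x y ⟨h1, h2⟩ ⟨h3, h4⟩
    exact ⟨by simp [h1, h3], fun s hs => by simp [h1, h2 s hs, h4 s hs]⟩
  inv_mem' := by
    rintro x ⟨h1, h2⟩
    exact ⟨by simp [h1], fun s hs => by simp [h1, h2 s hs]⟩

lemma U_normal (k : ℕ) : (U k).Normal := ⟨by
  rintro x ⟨h1, h2⟩ g
  refine ⟨by simp [h1], fun s hs => ?_⟩
  simp only [mul_v, mul_a, h1, mul_one, inv_v, ← act_mul, mul_inv_cancel, act_one, Pi.add_apply]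
  simp [act, h2 s hs, w2]⟩

lemma U_strict : StrictMono U := by
  refine strictMono_nat_of_lt_succ fun k => lt_of_le_of_ne ?_ fun h => ?_
  · rintro x ⟨h1, h2⟩
    exact ⟨h1, fun s hs => h2 s (by omega)⟩
  · have hf : FinS (Pi.single k (Pi.single (0, 0) 1)) := by
      refine (Set.finite_singleton (k, ((0, 0) : J))).subset fun p hp => ?_
      by_contra h
      apply hp
      by_cases h1 : p.1 = k
      · have h2 : p.2 ≠ (0, 0) := fun h2 => h (Prod.ext h1 h2)
        simp [h1, Pi.single_apply, h2]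
      · simp [Pi.single_apply, h1]
    have h1 : (⟨_, 1, hf, A0.one_mem⟩ : GG) ∈ U (k + 1) :=
      ⟨rfl, fun s hs => by
        have : s ≠ k := by omega
        simp [Pi.single_apply, this]⟩
    rw [← h] at h1
    have := congrFun (h1.2 k le_rfl) (0, 0)
    simp at this

/-- A finite chain which every normal subgroup covers or avoids stepwise bounds ascending chains
of normal subgroups. -/
lemma no_chain {G : Type} [Group G] (n : ℕ) (s : Fin (n + 1) → Subgroup G) (h0 : s 0 = ⊥)
    (h1 : s (Fin.last n) = ⊤) (V : ℕ → Subgroup G) (hV : StrictMono V)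
    (hle : ∀ i : Fin n, s i.castSucc ≤ s i.succ)
    (H : ∀ k, ∀ i : Fin n, V k ⊓ s i.succ ≤ s i.castSucc ∨
      ∀ x ∈ s i.succ, ∃ u ∈ V k, u⁻¹ * x ∈ s i.castSucc) : False := by
  let D : ℕ → Set (Fin n) := fun k => {i | ¬ V k ⊓ s i.succ ≤ s i.castSucc}
  have hD : StrictMono D := by
    refine strictMono_nat_of_lt_succ fun k => lt_of_le_of_ne ?_ fun h => ?_
    · intro i hi hi'
      exact hi (le_trans (inf_le_inf_right _ (hV.monotone (Nat.le_succ k))) hi')
    · have key : ∀ i : Fin (n + 1), V (k + 1) ⊓ s i ≤ V k := by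
        intro i
        induction i using Fin.induction with
        | zero => rw [h0]; simp
        | succ i ih =>
          intro x hx
          by_cases hi : i ∈ D (k + 1)
          · rw [← h] at hi
            obtain ⟨u, hu, hux⟩ := (H k i).resolve_left hi x hx.2
            have h3 : u⁻¹ * x ∈ V k := ih ⟨(V (k + 1)).mul_mem
              ((V (k + 1)).inv_mem (hV.monotone (Nat.le_succ k) hu)) hx.1, hux⟩
            simpa using (V k).mul_mem hu h3
          · simp only [D, Set.mem_setOf_eq, not_not] at hi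
            exact ih ⟨hx.1, hi hx⟩
      have := key (Fin.last n)
      rw [h1, inf_top_eq] at this
      exact absurd this (hV (Nat.lt_succ_self k)).not_ge
  exact not_injective_infinite_finite D hD.injective

end Pool.Agent.H19.FactSimple
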