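import Mathlib

set_option autoImplicit false

namespace Pool.Agent.H19.FreeBall

open FreeGroup hiding map_mul map_inv map_one

/-! ### Ping-pong with base point `1` -/

lemma pingpong {ι G : Type*} [Group G] (a : ι → G) (Z : ι × Bool → Set G)
    (hd : ∀ c d g, g ∈ Z c → g ∈ Z d → c = d) (h1 : ∀ c, (1 : G) ∉ Z c)
    (hX : ∀ i g, g ∉ Z (i, false) → a i * g ∈ Z (i, true))
    (hY : ∀ i g, g ∉ Z (i, true) → (a i)⁻¹ * g ∈ Z (i, false)) :
    Function.Injective (FreeGroup.lift a) := by
  classical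
  have key : ∀ (L : List (ι × Bool)) (c : ι × Bool), IsReduced (c :: L) →
      FreeGroup.lift a (mk (c :: L)) ∈ Z c := by
    intro L
    induction L with
    | nil =>
      rintro ⟨i, b⟩ _
      cases b
      · simpa using hY i 1 (h1 _)
      · simpa using hX i 1 (h1 _)
    | cons d L ih =>
      rintro ⟨i, b⟩ h
      rw [isReduced_cons_cons] at h
      have h2 := ih d h.2
      cases b
      · have := hY i _ fun hc => by have := hd _ _ _ h2 hc; subst this; simp at h
        simpa using this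
      · have := hX i _ fun hc => by have := hd _ _ _ h2 hc; subst this; simp at h
        simpa using this
  rw [injective_iff_map_eq_one]
  intro w hw
  by_contra hne
  obtain ⟨c, L, h⟩ := List.exists_cons_of_ne_nil (mt toWord_eq_nil_iff.mp hne)
  have := key L c (h ▸ isReduced_toWord)
  rw [← h, mk_toWord, hw] at this
  exact h1 _ this

lemma finset_of_family {ι G : Type*} [Fintype ι] [Group G] (a : ι → G)
    (h : Function.Injective (FreeGroup.lift a)) : ∃ X : Finset G, X.card = Fintype.card ι ∧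
      (∀ x ∈ X, ∃ i, a i = x) ∧ Function.Injective (FreeGroup.lift (fun x : X => (x : G))) := by
  classical
  have ha : Function.Injective a := fun i j hij => of_injective (h (by simpa using hij))
  refine ⟨Finset.univ.image a, by rw [Finset.card_image_of_injective _ ha, Finset.card_univ],
    fun x hx => by simpa using hx, ?_⟩
  let e : ι ≃ (Finset.univ.image a) := Equiv.ofBijective (fun i => ⟨a i, by simp⟩)
    ⟨fun i j hij => ha (congrArg Subtype.val hij), fun x => by
      obtain ⟨i, -, hi⟩ := Finset.mem_image.mp x.2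
      exact ⟨i, Subtype.ext hi⟩⟩
  have : (FreeGroup.lift (fun x : (Finset.univ.image a) => (x : G))).comp
      (freeGroupCongr e).toMonoidHom = FreeGroup.lift a := by
    ext i; simp [e]
  intro x y hxy
  obtain ⟨x, rfl⟩ := (freeGroupCongr e).surjective x
  obtain ⟨y, rfl⟩ := (freeGroupCongr e).surjective y
  congr 1
  apply h
  rw [← this]
  exact hxy

/-! ### Cochains on a forest -/

lemma coboundary {ι G : Type*} [Group G] (a : ι → G) (h : Function.Injective (FreeGroup.lift a))
    (c : ι → G → ℚ) : ∃ f : G → ℚ, ∀ i g, f (a i * g) - f g = c i g := by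
  let p : ι → Equiv.Perm (G × ℚ) := fun i =>
    { toFun := fun x => (a i * x.1, x.2 + c i x.1)
      invFun := fun x => ((a i)⁻¹ * x.1, x.2 - c i ((a i)⁻¹ * x.1))
      left_inv := fun x => by simp
      right_inv := fun x => by simp }
  have hp : ∀ w x, (FreeGroup.lift p w x).1 = FreeGroup.lift a w * x.1 := by
    intro w
    induction w using FreeGroup.induction_on with
    | C1 => simp
    | of i => simp [p]
    | inv_of i _ => simp [p, Equiv.Perm.inv_def]
    | mul x y hx hy => simp [hx, hy, mul_assoc]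
  let H := (FreeGroup.lift a).range
  let t : G → G := fun g => (Quotient.mk (QuotientGroup.rightRel H) g).out
  have ht : ∀ g, g * (t g)⁻¹ ∈ H := fun g =>
    QuotientGroup.rightRel_apply.mp (Quotient.mk_out (s := QuotientGroup.rightRel H) g)
  have ht2 : ∀ i g, t (a i * g) = t g := fun i g => by
    have : Quotient.mk (QuotientGroup.rightRel H) (a i * g) = Quotient.mk _ g :=
      Quotient.sound (QuotientGroup.rightRel_apply.mpr ⟨(of i)⁻¹, by simp⟩)
    simp only [t, this]
  choose w hw using ht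
  refine ⟨fun g => (FreeGroup.lift p (w g) (t g, 0)).2, fun i g => ?_⟩
  have h1 : w (a i * g) = of i * w g := h (by rw [map_mul, hw, hw, ht2]; simp [mul_assoc])
  have h2 := hp (w g) (t g, 0)
  rw [hw] at h2
  simp only [h1, ht2, map_mul, lift_apply_of, Equiv.Perm.mul_apply]
  simp only [p, Equiv.coe_fn_mk, h2]
  simp

lemma forest_bound {G : Type*} [Group G] (X : Finset G)
    (h : Function.Injective (FreeGroup.lift (fun x : X => (x : G)))) (B : Finset G) (c : ℕ)
    (hx : ∀ x ∈ X, ∃ S : Finset G, c ≤ S.card ∧ ∀ g ∈ S, g ∈ B ∧ x * g ∈ B) :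
    X.card * c ≤ B.card := by
  classical
  choose S h1 h2 using fun x : X => hx x x.2
  let D : (B → ℚ) →ₗ[ℚ] ((Σ x : X, S x) → ℚ) := LinearMap.pi fun e =>
    LinearMap.proj (R := ℚ) (φ := fun _ : B => ℚ) (⟨e.1.1 * e.2.1, (h2 e.1 e.2 e.2.2).2⟩ : B) -
      LinearMap.proj (R := ℚ) (φ := fun _ : B => ℚ) (⟨e.2.1, (h2 e.1 e.2 e.2.2).1⟩ : B)
  have hD : Function.Surjective D := fun c => by
    obtain ⟨f, hf⟩ := coboundary _ h fun x g => if hg : g ∈ S x then c ⟨x, g, hg⟩ else 0
    refine ⟨fun b => f b, funext fun e => ?_⟩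
    have := hf e.1 e.2
    simpa [D] using this
  have h3 := LinearMap.finrank_range_le D
  rw [LinearMap.range_eq_top.mpr hD] at h3
  simp only [finrank_top, Module.finrank_fintype_fun_eq_card, Fintype.card_sigma,
    Fintype.card_coe] at h3
  refine le_trans ?_ h3
  calc X.card * c = ∑ _x : X, c := by simp
    _ ≤ _ := Finset.sum_le_sum fun x _ => h1 x

/-! ### Counting reduced words -/

variable {r : ℕ}

abbrev Lt (r : ℕ) := Fin r × Bool

def iv (c : Lt r) : Lt r := (c.1, !c.2)

@[simp] lemma iv_iv (c : Lt r) : iv (iv c) = c := by simp [iv]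

lemma red_cons {c d : Lt r} {w : List (Lt r)} :
    IsReduced (c :: d :: w) ↔ d ≠ iv c ∧ IsReduced (d :: w) := by
  rw [isReduced_cons_cons]
  refine and_congr_left fun _ => ?_
  obtain ⟨a, b⟩ := c
  obtain ⟨a', b'⟩ := d
  cases b <;> cases b' <;> simp [iv, eq_comm]

def Tl : ℕ → Lt r → Finset (List (Lt r))
  | 0, _ => {[]}
  | k + 1, c => (Finset.univ.erase (iv c)).biUnion fun d => (Tl k d).image (d :: ·)

lemma mem_Tl {k : ℕ} {c : Lt r} {w : List (Lt r)} :
    w ∈ Tl k c ↔ w.length = k ∧ IsReduced (c :: w) := by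
  induction k generalizing c w with
  | zero => cases w <;> simp [Tl]
  | succ k ih =>
    cases w with
    | nil => simp [Tl]
    | cons d w => rw [red_cons]; simp [Tl, ih, -isReduced_cons_cons]; tauto

lemma card_Tl (k : ℕ) (c : Lt r) : (Tl k c).card = (2 * r - 1) ^ k := by
  induction k generalizing c with
  | zero => simp [Tl]
  | succ k ih =>
    rw [Tl, Finset.card_biUnion, Finset.sum_congr rfl (g := fun _ => (2 * r - 1) ^ k)]
    · simp [Finset.card_erase_of_mem, pow_succ, mul_comm]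
    · intro d _
      rw [Finset.card_image_of_injective _ List.cons_injective, ih]
    · intro d _ e _ hde
      simp only [Function.onFun, Finset.disjoint_left, Finset.mem_image]
      rintro _ ⟨x, -, rfl⟩ ⟨y, -, h⟩
      exact hde (List.cons.inj h).1.symm

def sg (r j : ℕ) : ℕ := ∑ i ∈ Finset.range j, (2 * r - 1) ^ i

lemma sg_add (m k : ℕ) : sg r (k + m) = sg r k + (2 * r - 1) ^ k * sg r m := by
  simp [sg, Finset.sum_range_add, pow_add, Finset.mul_sum]

lemma le_sg (hr : 1 ≤ r) (m : ℕ) : m ≤ sg r m := by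
  calc m = ∑ _i ∈ Finset.range m, 1 := by simp
    _ ≤ _ := Finset.sum_le_sum fun i _ => Nat.one_le_pow _ _ (by omega)

def Cn (j : ℕ) (c : Lt r) : Finset (List (Lt r)) := (Finset.range j).biUnion fun i => Tl i c

lemma mem_Cn {j : ℕ} {c : Lt r} {w : List (Lt r)} :
    w ∈ Cn j c ↔ w.length < j ∧ IsReduced (c :: w) := by
  simp [Cn, mem_Tl]

lemma card_Cn (j : ℕ) (c : Lt r) : (Cn j c).card = sg r j := by
  rw [Cn, Finset.card_biUnion]
  · simp [card_Tl, sg]
  · intro a _ b _ hab
    simp only [Function.onFun, Finset.disjoint_left, mem_Tl]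
    rintro w ⟨h1, -⟩ ⟨h2, -⟩
    exact hab (h1.symm.trans h2)

def NE (r j : ℕ) : Finset (List (Lt r)) := Finset.univ.biUnion fun c => (Cn j c).image (c :: ·)

lemma card_NE (j : ℕ) : (NE r j).card = 2 * r * sg r j := by
  rw [NE, Finset.card_biUnion, Finset.sum_congr rfl (g := fun _ => sg r j)]
  · simp [mul_comm]
  · intro d _
    rw [Finset.card_image_of_injective _ List.cons_injective, card_Cn]
  · intro d _ e _ hde
    simp only [Function.onFun, Finset.disjoint_left, Finset.mem_image]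
    rintro _ ⟨x, -, rfl⟩ ⟨y, -, h⟩
    exact hde (List.cons.inj h).1.symm

lemma mem_NE {j : ℕ} {w : List (Lt r)} : w ∈ NE r j ↔ w ≠ [] ∧ w.length ≤ j ∧ IsReduced w := by
  cases w with
  | nil => simp [NE]
  | cons c w => simp [NE, mem_Cn]

lemma card_image_mk (S : Finset (List (Lt r))) (h : ∀ w ∈ S, IsReduced w) :
    (S.image mk).card = S.card :=
  Finset.card_image_of_injOn fun a ha b hb hab => by
    have := congrArg toWord hab
    rwa [toWord_mk, toWord_mk, (h a ha).reduce_eq, (h b hb).reduce_eq] at this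

def Ball (r j : ℕ) : Finset (FreeGroup (Fin r)) := insert 1 ((NE r j).image mk)

lemma card_Ball (j : ℕ) : (Ball r j).card ≤ 2 * r * sg r j + 1 :=
  (Finset.card_insert_le _ _).trans (by rw [← card_NE]; gcongr; exact Finset.card_image_le)

lemma mem_Ball {j : ℕ} {g : FreeGroup (Fin r)} (h : g.norm ≤ j) : g ∈ Ball r j := by
  by_cases h1 : g = 1
  · simp [Ball, h1]
  · exact Finset.mem_insert_of_mem (Finset.mem_image.mpr ⟨g.toWord,
      mem_NE.mpr ⟨mt toWord_eq_nil_iff.mp h1, h, isReduced_toWord⟩, mk_toWord⟩)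

lemma shift_bound {x u v : FreeGroup (Fin r)} {k m c : ℕ} (hu : u.norm ≤ k) (hv : v.norm ≤ k)
    (a : FreeGroup (Fin r)) (hx : x = u * a * v) (E : Finset (FreeGroup (Fin r))) (hE : c ≤ E.card)
    (h : ∀ g ∈ E, g.norm ≤ m ∧ (a * g).norm ≤ m) :
    ∃ S : Finset (FreeGroup (Fin r)), c ≤ S.card ∧
      ∀ g ∈ S, g ∈ Ball r (k + m) ∧ x * g ∈ Ball r (k + m) := by
  refine ⟨E.image (v⁻¹ * ·), by rwa [Finset.card_image_of_injective _ (mul_right_injective _)], ?_⟩
  intro g' hg'
  obtain ⟨g, hg, rfl⟩ := Finset.mem_image.mp hg'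
  refine ⟨mem_Ball ((FreeGroup.norm_mul_le _ _).trans ?_), mem_Ball ?_⟩
  · rw [norm_inv_eq]; exact add_le_add hv (h g hg).1
  · rw [hx, mul_assoc, mul_inv_cancel_left, mul_assoc]
    exact (FreeGroup.norm_mul_le _ _).trans (add_le_add hu (h g hg).2)

lemma upper_even (hr : 1 ≤ r) (k : ℕ) (X : Finset (FreeGroup (Fin r)))
    (h : Function.Injective (FreeGroup.lift (fun x : X => (x : FreeGroup (Fin r)))))
    (hX : ∀ x ∈ X, x.norm ≤ 2 * k) : X.card ≤ (2 * r - 1) ^ k := by
  set m := 2 * r * sg r k + 2 with hm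
  have h1 := forest_bound X h (Ball r (k + m)) (2 * r * sg r m) fun x hx =>
    shift_bound (u := mk (x.toWord.take k)) (v := mk (x.toWord.drop k))
      (norm_mk_le.trans (by simp)) (norm_mk_le.trans (by
        have := hX x hx; simp only [FreeGroup.norm] at this; simp; omega)) 1 (by simp [mk_toWord])
      ((NE r m).image mk)
      (by rw [card_image_mk _ fun w hw => (mem_NE.mp hw).2.2, card_NE]) (by
        intro g hg
        obtain ⟨w, hw, rfl⟩ := Finset.mem_image.mp hg
        simpa using norm_mk_le.trans (mem_NE.mp hw).2.1)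
  have h2 := h1.trans (card_Ball _)
  rw [sg_add m k] at h2
  have h3 := le_sg hr m
  by_contra hc
  have h4 : ((2 * r - 1) ^ k + 1) * (2 * r * sg r m) ≤ X.card * (2 * r * sg r m) :=
    Nat.mul_le_mul_right _ (not_le.mp hc)
  have h5 : sg r m ≤ 2 * r * sg r m := Nat.le_mul_of_pos_left _ (by omega)
  nlinarith

lemma edge_ball (c : Lt r) (m : ℕ) : ∃ E : Finset (FreeGroup (Fin r)), 2 * sg r m ≤ E.card ∧
    ∀ g ∈ E, g.norm ≤ m ∧ (mk [c] * g).norm ≤ m := by
  refine ⟨(Cn m c ∪ (Cn m (iv c)).image (iv c :: ·)).image mk, ?_, ?_⟩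
  · rw [card_image_mk, Finset.card_union_of_disjoint, card_Cn,
      Finset.card_image_of_injective _ List.cons_injective, card_Cn, two_mul]
    · simp only [Finset.disjoint_left, Finset.mem_image, mem_Cn]
      rintro _ ⟨-, h1⟩ ⟨w, -, rfl⟩
      exact (red_cons.mp h1).1 rfl
    · intro w hw
      rcases Finset.mem_union.mp hw with hw | hw
      · exact (mem_Cn.mp hw).2.tail
      · obtain ⟨w', hw', rfl⟩ := Finset.mem_image.mp hw
        exact (mem_Cn.mp hw').2
  · intro g hg
    obtain ⟨w, hw, rfl⟩ := Finset.mem_image.mp hg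
    rcases Finset.mem_union.mp hw with hw | hw
    · have := (mem_Cn.mp hw).1
      exact ⟨norm_mk_le.trans this.le, by rw [mul_mk]; exact norm_mk_le.trans (by simpa using this)⟩
    · obtain ⟨w', hw', rfl⟩ := Finset.mem_image.mp hw
      have := (mem_Cn.mp hw').1
      refine ⟨norm_mk_le.trans (by simpa using this), ?_⟩
      have e : mk [c] * mk (iv c :: w') = mk w' := by
        rw [show mk (iv c :: w') = (mk [c])⁻¹ * mk w' by rw [inv_mk, mul_mk]; rfl,
          mul_inv_cancel_left]
      rw [e]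
      exact norm_mk_le.trans this.le

lemma upper_odd (hr : 1 ≤ r) (k : ℕ) (X : Finset (FreeGroup (Fin r)))
    (h : Function.Injective (FreeGroup.lift (fun x : X => (x : FreeGroup (Fin r)))))
    (hX : ∀ x ∈ X, x.norm ≤ 2 * k + 1) : X.card ≤ r * (2 * r - 1) ^ k := by
  set m := 2 * r * sg r k + 2 with hm
  have h1 := forest_bound X h (Ball r (k + m)) (2 * sg r m) fun x hx => by
    have h0 := hX x hx
    simp only [FreeGroup.norm] at h0
    cases hd : x.toWord.drop k with
    | nil =>
      obtain ⟨E, hE, h2⟩ := edge_ball (⟨0, hr⟩, true) m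
      exact shift_bound (u := x) (v := 1) (List.drop_eq_nil_iff.mp hd) (by simp) 1 (by simp) E hE
        fun g hg => by simpa using (h2 g hg).1
    | cons c w =>
      obtain ⟨E, hE, h2⟩ := edge_ball c m
      refine shift_bound (u := mk (x.toWord.take k)) (v := mk w) (norm_mk_le.trans (by simp))
        (norm_mk_le.trans ?_) (mk [c]) ?_ E hE h2
      · have := congrArg List.length hd
        simp at this
        omega
      · rw [mul_mk, mul_mk, List.append_assoc, List.singleton_append, ← hd, List.take_append_drop,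
          mk_toWord]
  have h2 := h1.trans (card_Ball _)
  rw [sg_add m k] at h2
  have h3 := le_sg hr m
  by_contra hc
  have h4 : (r * (2 * r - 1) ^ k + 1) * (2 * sg r m) ≤ X.card * (2 * sg r m) :=
    Nat.mul_le_mul_right _ (not_le.mp hc)
  nlinarith

/-! ### Constructions -/

lemma toWord_inv_mul {w : List (Lt r)} (hw : IsReduced w) {h : FreeGroup (Fin r)}
    (H : ∀ c ∈ w.head?, h ∉ startsWith c) : ((mk w)⁻¹ * h).toWord = invRev w ++ h.toWord := by
  have h1 : IsReduced (invRev w) := by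
    rw [isReduced_iff_reduce_eq, reduce_invRev, hw.reduce_eq]
  have h2 : IsReduced (invRev w ++ h.toWord) := by
    refine List.isChain_append.mpr ⟨h1, isReduced_toWord, fun x hx y hy => ?_⟩
    cases w with
    | nil => simp at hx
    | cons c w =>
      have e : x = iv c := by simpa [invRev, iv, eq_comm] using hx
      have : y ≠ c := fun hyc => H c rfl (by
        rw [startsWith, Set.mem_ofPred_eq, ← List.head?_eq_getElem?, ← hyc]; exact hy)
      subst e
      obtain ⟨a, b⟩ := c
      obtain ⟨a', b'⟩ := y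
      rintro (rfl : a = a')
      cases b <;> cases b' <;> simp_all [iv]
  rw [inv_mk, toWord_mul, toWord_mk, h1.reduce_eq, h2.reduce_eq]

lemma sw_cases (g : FreeGroup (Fin r)) : g = 1 ∨ ∃ c, g ∈ startsWith c := by
  cases h : g.toWord with
  | nil => exact Or.inl (toWord_eq_nil_iff.mp h)
  | cons c w => exact Or.inr ⟨c, by simp [startsWith, h]⟩

lemma sw_unique {g : FreeGroup (Fin r)} {c d : Lt r} (h : g ∈ startsWith c)
    (h' : g ∈ startsWith d) : c = d := Option.some.inj (h.symm.trans h')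

lemma sw_mk {c : Lt r} {w : List (Lt r)} (h : IsReduced (c :: w)) : mk (c :: w) ∈ startsWith c := by
  rw [startsWith, Set.mem_ofPred_eq, toWord_mk, h.reduce_eq]; rfl

lemma same_pref {w w' : List (Lt r)} {g : FreeGroup (Fin r)} (hw : IsReduced w)
    (hw' : IsReduced w') (hl : w.length = w'.length)
    (H : ∀ c ∈ w.head?, mk w * g ∉ startsWith c) (H' : ∀ c ∈ w'.head?, mk w' * g ∉ startsWith c) :
    w = w' := by
  have h1 := toWord_inv_mul hw H
  have h2 := toWord_inv_mul hw' H'
  rw [inv_mul_cancel_left] at h1 h2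
  exact invRev_injective (List.append_inj (h1.symm.trans h2) (by simpa using hl)).1

lemma lower_odd (k : ℕ) : ∃ X : Finset (FreeGroup (Fin r)), X.card = r * (2 * r - 1) ^ k ∧
    (∀ x ∈ X, x.norm = 2 * k + 1) ∧
    Function.Injective (FreeGroup.lift (fun x : X => (x : FreeGroup (Fin r)))) := by
  let β : ∀ c : Lt r, Fin ((2 * r - 1) ^ k) ≃ Tl k (iv c) := fun c =>
    (Finset.equivFinOfCardEq (card_Tl k (iv c))).symm
  have hβ : ∀ c i, (β c i).1.length = k ∧ IsReduced (iv c :: (β c i).1) := fun c i =>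
    mem_Tl.mp (β c i).2
  have hH : ∀ c i g, g ∈ startsWith c → ∀ d ∈ (β c i).1.head?, g ∉ startsWith d := by
    intro c i g hg d hd hc
    obtain rfl := sw_unique hg hc
    have := (hβ c i).2
    cases h : (β c i).1 with
    | nil => simp [h] at hd
    | cons e w =>
      rw [h] at this hd
      obtain rfl : e = c := by simpa using hd
      simpa using (red_cons.mp this).1
  let a : Fin r × Fin ((2 * r - 1) ^ k) → FreeGroup (Fin r) := fun x =>
    (mk (β (x.1, true) x.2).1)⁻¹ * mk ((x.1, true) :: (β (x.1, false) x.2).1)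
  obtain ⟨X, h1, h2, h3⟩ := finset_of_family a (pingpong a
    (fun c => {g | mk (β (c.1.1, c.2) c.1.2).1 * g ∈ startsWith (c.1.1, c.2)}) (by
      rintro ⟨⟨s, i⟩, b⟩ ⟨⟨s', i'⟩, b'⟩ g hg hg'
      simp only [Set.mem_ofPred_eq] at hg hg'
      have e := same_pref (hβ _ i).2.tail (hβ _ i').2.tail ((hβ _ i).1.trans (hβ _ i').1.symm)
        (hH _ _ _ hg) (hH _ _ _ hg')
      simp only [List.tail_cons] at e
      rw [e] at hg
      obtain ⟨rfl, rfl⟩ := Prod.mk.inj (sw_unique hg hg')
      rw [(β _).injective (Subtype.ext e)]) (by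
      rintro ⟨⟨s, i⟩, b⟩ hg
      simp only [Set.mem_ofPred_eq, mul_one] at hg
      have h4 := toWord_inv_mul (hβ _ i).2.tail (hH _ _ _ hg)
      simp only [List.tail_cons, inv_mul_cancel, toWord_one] at h4
      exact startsWith.ne_one _ hg (toWord_eq_nil_iff.mp (List.append_eq_nil_iff.mp h4.symm).2))
    (by
      rintro ⟨s, i⟩ g hg
      simp only [Set.mem_ofPred_eq, a] at hg ⊢
      have := startsWith_mk_mul (w := (s, true)) _ hg
      rwa [← mul_assoc, mul_inv_cancel_left, ← List.singleton_append, ← mul_mk, mul_assoc])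
    (by
      rintro ⟨s, i⟩ g hg
      simp only [Set.mem_ofPred_eq, a] at hg ⊢
      have := startsWith_mk_mul (w := (s, false)) _ hg
      have e : mk [(s, false)] = (mk [(s, true)])⁻¹ := rfl
      rw [← List.singleton_append, ← mul_mk]
      simpa only [e, mul_inv_rev, inv_inv, mul_assoc, mul_inv_cancel_left] using this))
  refine ⟨X, by simpa using h1, fun x hx => ?_, h3⟩
  obtain ⟨⟨s, i⟩, rfl⟩ := h2 x hx
  have h4 : IsReduced ((s, true) :: (β (s, false) i).1) := (hβ (s, false) i).2
  have h5 := toWord_inv_mul (hβ (s, true) i).2.tail (hH _ _ _ (sw_mk h4))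
  simp only [List.tail_cons] at h5
  simp only [FreeGroup.norm, a, h5, toWord_mk, h4.reduce_eq, List.length_append, invRev_length,
    List.length_cons, (hβ _ _).1]
  omega

lemma lower_even (hr : 1 ≤ r) (k : ℕ) : ∃ X : Finset (FreeGroup (Fin r)),
    X.card = (2 * r - 1) ^ (k + 1) ∧ (∀ x ∈ X, x.norm = 2 * (k + 1)) ∧
    Function.Injective (FreeGroup.lift (fun x : X => (x : FreeGroup (Fin r)))) := by
  let e : Fin (2 * r - 1 + 1) ≃ Lt r := (Fintype.equivFinOfCardEq (by simp; omega)).symm
  let β : ∀ c : Lt r, Fin ((2 * r - 1) ^ k) ≃ Tl k c := fun c =>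
    (Finset.equivFinOfCardEq (card_Tl k c)).symm
  let W : Fin (2 * r - 1 + 1) → Fin ((2 * r - 1) ^ k) → List (Lt r) := fun j i =>
    e j :: (β (e j) i).1
  have hW : ∀ j i, (W j i).length = k + 1 ∧ IsReduced (W j i) := fun j i =>
    ⟨by simp [W, (mem_Tl.mp (β (e j) i).2).1], (mem_Tl.mp (β (e j) i).2).2⟩
  have hWinj : ∀ j i j' i', W j i = W j' i' → j = j' ∧ i = i' := by
    intro j i j' i' h
    obtain ⟨h1, h2⟩ := List.cons.inj h
    obtain rfl := e.injective h1
    exact ⟨rfl, (β _).injective (Subtype.ext h2)⟩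
  let a : Fin (2 * r - 1) × Fin ((2 * r - 1) ^ k) → FreeGroup (Fin r) := fun x =>
    (mk (W x.1.castSucc x.2))⁻¹ * mk (W x.1.succ x.2)
  let Z : (Fin (2 * r - 1) × Fin ((2 * r - 1) ^ k)) × Bool → Set (FreeGroup (Fin r)) := fun c =>
    if c.2 then {g | ∀ j ≤ c.1.1.castSucc, mk (W c.1.1.castSucc c.1.2) * g ∉ startsWith (e j)}
    else {g | ∃ j ≤ c.1.1.castSucc, mk (W c.1.1.succ c.1.2) * g ∈ startsWith (e j)}
  have hT : ∀ j i g, g ∈ Z ((j, i), true) →
      ∀ c ∈ (W j.castSucc i).head?, mk (W j.castSucc i) * g ∉ startsWith c := by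
    intro j i g hg c hc
    obtain rfl : e j.castSucc = c := by simpa [W] using hc
    exact hg _ le_rfl
  have hF : ∀ j i g, g ∈ Z ((j, i), false) →
      ∀ c ∈ (W j.succ i).head?, mk (W j.succ i) * g ∉ startsWith c := by
    rintro j i g ⟨j', hj', hg⟩ c hc h
    obtain rfl : e j.succ = c := by simpa [W] using hc
    obtain rfl := e.injective (sw_unique hg h)
    exact absurd hj' (not_le.mpr Fin.castSucc_lt_succ)
  have hTF : ∀ j i j' i' g, g ∈ Z ((j, i), true) → g ∈ Z ((j', i'), false) → False := by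
    intro j i j' i' g hg hg'
    obtain ⟨h1, rfl⟩ := hWinj _ _ _ _ (same_pref (hW _ _).2 (hW _ _).2
      ((hW _ _).1.trans (hW _ _).1.symm) (hT _ _ _ hg) (hF _ _ _ hg'))
    obtain ⟨j'', h2, h3⟩ := hg'
    exact hg j'' (h2.trans (h1 ▸ Fin.castSucc_lt_succ.le)) (h1 ▸ h3)
  obtain ⟨X, h1, h2, h3⟩ := finset_of_family a (pingpong a Z (by
      rintro ⟨⟨j, i⟩, b⟩ ⟨⟨j', i'⟩, b'⟩ g hg hg'
      cases b <;> cases b'
      · obtain ⟨h1, rfl⟩ := hWinj _ _ _ _ (same_pref (hW _ _).2 (hW _ _).2
          ((hW _ _).1.trans (hW _ _).1.symm) (hF _ _ _ hg) (hF _ _ _ hg'))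
        rw [Fin.succ_injective _ h1]
      · exact (hTF _ _ _ _ _ hg' hg).elim
      · exact (hTF _ _ _ _ _ hg hg').elim
      · obtain ⟨h1, rfl⟩ := hWinj _ _ _ _ (same_pref (hW _ _).2 (hW _ _).2
          ((hW _ _).1.trans (hW _ _).1.symm) (hT _ _ _ hg) (hT _ _ _ hg'))
        rw [Fin.castSucc_injective _ h1]) (by
      rintro ⟨⟨j, i⟩, b⟩ hg
      cases b
      · exact hF _ _ _ hg _ rfl (by rw [mul_one]; exact sw_mk (hW _ _).2)
      · exact hT _ _ _ hg _ rfl (by rw [mul_one]; exact sw_mk (hW _ _).2))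
    (by
      rintro ⟨j, i⟩ g hg j' hj' h
      exact hg ⟨j', hj', by simpa only [a, mul_inv_rev, inv_inv, mul_assoc, mul_inv_cancel_left] using h⟩)
    (by
      rintro ⟨j, i⟩ g hg
      by_contra hc
      exact hg fun j' hj' h => hc ⟨j', hj', by simpa only [a, mul_inv_rev, inv_inv, mul_assoc, mul_inv_cancel_left] using h⟩))
  refine ⟨X, by simpa [pow_succ, mul_comm] using h1, fun x hx => ?_, h3⟩
  obtain ⟨⟨j, i⟩, rfl⟩ := h2 x hx
  have h5 := toWord_inv_mul (hW j.castSucc i).2 (h := mk (W j.succ i)) (by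
    intro c hc h
    obtain rfl : e j.castSucc = c := by simpa [W] using hc
    have := e.injective (sw_unique (sw_mk (hW j.succ i).2) h)
    exact absurd this Fin.castSucc_lt_succ.ne')
  simp only [FreeGroup.norm, a, h5, toWord_mk, (hW _ _).2.reduce_eq, List.length_append, invRev_length,
    (hW _ _).1]
  omega

end Pool.Agent.H19.FreeBall
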