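import Mathlib

set_option autoImplicit false

namespace Pool.Agent.H19.GS

universe u v

abbrev Wd := FreeMonoid (Fin 3)
abbrev T (F : Type u) [Field F] := MonoidAlgebra F Wd

variable {F : Type u} [Field F]

noncomputable def o (F : Type u) [Field F] : Wd →* T F := MonoidAlgebra.of F Wd

noncomputable def lin {N : Type v} [AddCommGroup N] [Module F N] (g : Wd → N) : T F →ₗ[F] N :=
  (MonoidAlgebra.basis Wd F).constr F g

@[simp] lemma lin_o {N : Type v} [AddCommGroup N] [Module F N] (g : Wd → N) (w : Wd) :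
    lin g (o F w) = g w :=
  (MonoidAlgebra.basis Wd F).constr_basis F g w

lemma ext_o {N : Type v} [AddCommGroup N] [Module F N] {a b : T F →ₗ[F] N}
    (h : ∀ w, a (o F w) = b (o F w)) : a = b :=
  (MonoidAlgebra.basis Wd F).ext h

noncomputable def Rg (F : Type u) [Field F] (a b : ℕ) : Submodule F (T F) :=
  Submodule.span F (o F '' {w | a ≤ w.length ∧ w.length ≤ b})

lemma o_mem {a b : ℕ} {w : Wd} (h1 : a ≤ w.length) (h2 : w.length ≤ b) : o F w ∈ Rg F a b :=
  Submodule.subset_span ⟨w, ⟨h1, h2⟩, rfl⟩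

lemma eq_on {N : Type v} [AddCommGroup N] [Module F N] {φ ψ : T F →ₗ[F] N} {a b : ℕ}
    (h : ∀ w : Wd, a ≤ w.length → w.length ≤ b → φ (o F w) = ψ (o F w)) {t : T F}
    (ht : t ∈ Rg F a b) : φ t = ψ t :=
  LinearMap.eqOn_span (by rintro _ ⟨w, hw, rfl⟩; exact h w hw.1 hw.2) ht

lemma vanish {N : Type v} [AddCommGroup N] [Module F N] {φ : T F →ₗ[F] N} {a b : ℕ}
    (h : ∀ w : Wd, a ≤ w.length → w.length ≤ b → φ (o F w) = 0) {t : T F}
    (ht : t ∈ Rg F a b) : φ t = 0 :=
  eq_on (ψ := 0) h ht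

lemma Rg_mul {a b c d : ℕ} {x y : T F} (hx : x ∈ Rg F a b) (hy : y ∈ Rg F c d) :
    x * y ∈ Rg F (a + c) (b + d) := by
  have := Submodule.mul_mem_mul hx hy
  rw [Rg, Rg, Submodule.span_mul_span] at this
  refine Submodule.span_mono ?_ this
  rintro _ ⟨_, ⟨p, hp, rfl⟩, _, ⟨q, hq, rfl⟩, rfl⟩
  refine ⟨p * q, ?_, map_mul _ _ _⟩
  simp only [Set.mem_ofPred_eq, FreeMonoid.length_mul] at hp hq ⊢
  omega

lemma Rg_mono {a b c d : ℕ} (h1 : c ≤ a) (h2 : b ≤ d) : Rg F a b ≤ Rg F c d :=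
  Submodule.span_mono (Set.image_mono fun _ hw => ⟨h1.trans hw.1, hw.2.trans h2⟩)

lemma Rg_pow {a b : ℕ} {x : T F} (hx : x ∈ Rg F a b) (n : ℕ) : x ^ n ∈ Rg F (n * a) (n * b) := by
  induction n with
  | zero => simpa using o_mem (F := F) (w := 1) (a := 0) (b := 0) le_rfl le_rfl
  | succ n ih => rw [pow_succ, Nat.succ_mul, Nat.succ_mul]; exact Rg_mul ih hx

def Good (f : ℕ → T F) {N : Type v} [AddCommGroup N] [Module F N] (φ : T F →ₗ[F] N) : Prop :=
  ∀ n, 2 ≤ n → ∀ p q, φ (p * f n * q) = 0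

lemma good_of_words {f : ℕ → T F} {N : Type v} [AddCommGroup N] [Module F N] {φ : T F →ₗ[F] N}
    (h : ∀ n, 2 ≤ n → ∀ p q : Wd, φ (o F p * f n * o F q) = 0) : Good f φ := by
  intro n hn p q
  have h1 : ∀ q : Wd, φ (p * f n * o F q) = 0 := fun q => by
    have : φ ∘ₗ LinearMap.mulRight F (f n * o F q) = 0 := ext_o fun w => by
      simpa [mul_assoc] using h n hn w q
    simpa [mul_assoc] using LinearMap.congr_fun this p
  have : φ ∘ₗ LinearMap.mulLeft F (p * f n) = 0 := ext_o fun w => h1 w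
  exact LinearMap.congr_fun this q

def V (f : ℕ → T F) (n : ℕ) : Submodule F (T F →ₗ[F] F) where
  carrier := {φ | Good f φ ∧ ∀ w : Wd, w.length ≠ n → φ (o F w) = 0}
  add_mem' := fun {a b} ha hb =>
    ⟨fun n hn p q => by simp [ha.1 n hn, hb.1 n hn], fun w hw => by simp [ha.2 w hw, hb.2 w hw]⟩
  zero_mem' := ⟨fun _ _ _ _ => rfl, fun _ _ => rfl⟩
  smul_mem' := fun c a ha =>
    ⟨fun n hn p q => by simp [ha.1 n hn], fun w hw => by simp [ha.2 w hw]⟩

instance (f : ℕ → T F) (n : ℕ) : FiniteDimensional F (V f n) := by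
  have : Finite {w : Wd // w.length = n} := List.finite_length_eq (Fin 3) n
  let e : V f n →ₗ[F] ({w : Wd // w.length = n} → F) :=
    { toFun := fun φ w => φ.1 (o F w.1)
      map_add' := fun _ _ => rfl
      map_smul' := fun _ _ => rfl }
  refine Module.Finite.of_injective e fun a b h => Subtype.ext (ext_o fun w => ?_)
  by_cases hw : w.length = n
  · exact congrFun h ⟨w, hw⟩
  · rw [a.2.2 w hw, b.2.2 w hw]

noncomputable def glue : (Fin 3 → (T F →ₗ[F] F)) →ₗ[F] (T F →ₗ[F] F) where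
  toFun φ := lin fun w => FreeMonoid.casesOn w 0 fun x l => φ x (o F l)
  map_add' a b := ext_o fun w => by
    induction w using FreeMonoid.casesOn <;> simp [-map_mul, -map_one]
  map_smul' c a := ext_o fun w => by
    induction w using FreeMonoid.casesOn <;> simp [-map_mul, -map_one]

lemma glue_one (φ : Fin 3 → (T F →ₗ[F] F)) : glue φ (o F 1) = 0 := by
  simp [glue, -map_one]

lemma glue_mul (φ : Fin 3 → (T F →ₗ[F] F)) (x : Fin 3) (t : T F) :
    glue φ (o F (FreeMonoid.of x) * t) = φ x t := by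
  have : glue φ ∘ₗ LinearMap.mulLeft F (o F (FreeMonoid.of x)) = φ x := ext_o fun w => by
    simp only [LinearMap.comp_apply, LinearMap.mulLeft_apply, ← map_mul]
    simp [glue, -map_mul]
  exact LinearMap.congr_fun this t

lemma glue_supp {f : ℕ → T F} {n : ℕ} (φ : Fin 3 → V f n) (w : Wd) (hw : w.length ≠ n + 1) :
    glue (fun x => (φ x).1) (o F w) = 0 := by
  induction w using FreeMonoid.casesOn with
  | one => exact glue_one _
  | of_mul x l =>
    rw [map_mul, glue_mul]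
    exact (φ x).2.2 l (by simp at hw; omega)

lemma glue_good {f : ℕ → T F} {n : ℕ} (φ : Fin 3 → V f n) {a b : ℕ} (ha : 1 ≤ a) {t : T F}
    (ht : t ∈ Rg F a b) (m : ℕ) (hm : 2 ≤ m) (p q : T F) :
    glue (fun x => (φ x).1) (t * (p * f m * q)) = 0 := by
  refine vanish (φ := glue (fun x => (φ x).1) ∘ₗ LinearMap.mulRight F (p * f m * q))
    (fun w h1 _ => ?_) ht
  induction w using FreeMonoid.casesOn with
  | one => simp at h1; omega
  | of_mul x l =>
    simp only [LinearMap.comp_apply, LinearMap.mulRight_apply, map_mul, mul_assoc, glue_mul]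
    simpa [mul_assoc] using (φ x).2.1 m hm (o F l * p) q

lemma mem_V {f : ℕ → T F} {n : ℕ} {φ : T F →ₗ[F] F} :
    φ ∈ V f n ↔ Good f φ ∧ ∀ w : Wd, w.length ≠ n → φ (o F w) = 0 := Iff.rfl

noncomputable def glueV (f : ℕ → T F) (n : ℕ) : (Fin 3 → V f n) →ₗ[F] (T F →ₗ[F] F) :=
  glue ∘ₗ LinearMap.compLeft (V f n).subtype (Fin 3)

lemma glueV_apply {f : ℕ → T F} {n : ℕ} (φ : Fin 3 → V f n) :
    glueV f n φ = glue (fun x => (φ x).1) := rfl

noncomputable def Psi {f : ℕ → T F} (hf : ∀ n, f n ∈ Rg F n n) (n : ℕ) :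
    (Fin 3 → V f n) →ₗ[F] (∀ j : Fin n, V f j) :=
  LinearMap.pi fun j => LinearMap.codRestrict (V f j)
    (LinearMap.lcomp F F (LinearMap.mulLeft F (f (n + 1 - j))) ∘ₗ glueV f n) fun φ => by
      refine mem_V.mpr ⟨fun m hm p q => ?_, fun w hw => ?_⟩
      · exact glue_good φ (a := n + 1 - j) (by omega) (hf _) m hm p q
      · refine vanish (φ := glue (fun x => (φ x).1)) (fun w' h1 h2 => glue_supp φ w' ?_)
          (Rg_mul (hf (n + 1 - j)) (o_mem (w := w) le_rfl le_rfl))
        omega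

lemma Psi_apply {f : ℕ → T F} (hf : ∀ n, f n ∈ Rg F n n) (n : ℕ) (φ : Fin 3 → V f n) (j : Fin n)
    (t : T F) : (Psi hf n φ j).1 t = glue (fun x => (φ x).1) (f (n + 1 - j) * t) := rfl

lemma glue_mem {f : ℕ → T F} (hf : ∀ n, f n ∈ Rg F n n) {n : ℕ} {φ : Fin 3 → V f n}
    (hφ : Psi hf n φ = 0) : glue (fun x => (φ x).1) ∈ V f (n + 1) := by
  refine mem_V.mpr ⟨good_of_words fun m hm p q => ?_, glue_supp φ⟩
  induction p using FreeMonoid.casesOn with
  | one =>
    rw [map_one, one_mul]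
    by_cases hm' : m ≤ n + 1
    · have h2 := Psi_apply hf n φ ⟨n + 1 - m, by omega⟩ (o F q)
      have h3 : n + 1 - (n + 1 - m) = m := by omega
      rw [hφ] at h2
      simp only [h3] at h2
      exact h2.symm
    · refine vanish (φ := glue (fun x => (φ x).1)) (fun w' h1 h2 => glue_supp _ w' ?_)
        (Rg_mul (hf m) (o_mem (w := q) le_rfl le_rfl))
      omega
  | of_mul x l =>
    have := glue_good φ le_rfl (o_mem (w := FreeMonoid.of x) le_rfl le_rfl) m hm
      (o F l) (o F q)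
    simpa [mul_assoc] using this

lemma gs_ineq {f : ℕ → T F} (hf : ∀ n, f n ∈ Rg F n n) (n : ℕ) :
    3 * Module.finrank F (V f n) ≤
      Module.finrank F (V f (n + 1)) + ∑ j : Fin n, Module.finrank F (V f j) := by
  let e : LinearMap.ker (Psi hf n) →ₗ[F] V f (n + 1) :=
    LinearMap.codRestrict (V f (n + 1)) (glueV f n ∘ₗ (LinearMap.ker (Psi hf n)).subtype)
      fun φ => glue_mem hf (LinearMap.mem_ker.mp φ.2)
  have he : Function.Injective e := fun a b h => by
    apply Subtype.ext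
    funext x
    apply Subtype.ext
    refine LinearMap.ext fun t => ?_
    have h1 : glue (fun x => (a.1 x).1) = glue (fun x => (b.1 x).1) := congrArg Subtype.val h
    have := LinearMap.congr_fun h1 (o F (FreeMonoid.of x) * t)
    rwa [glue_mul, glue_mul] at this
  have h1 := LinearMap.finrank_le_finrank_of_injective he
  have h2 := LinearMap.finrank_range_add_finrank_ker (K := F) (V := Fin 3 → V f n)
    (V₂ := ∀ j : Fin n, V f j) (Psi hf n)
  have h3 := Submodule.finrank_le (LinearMap.range (Psi hf n))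
  have : ∀ j, Module.Free F (V f j) := fun j => Module.Free.of_divisionRing F (V f j)
  rw [Module.finrank_pi_fintype] at h2 h3
  simp only [Finset.sum_const, Finset.card_univ, Fintype.card_fin, smul_eq_mul] at h2
  omega

lemma gs {f : ℕ → T F} (hf : ∀ n, f n ∈ Rg F n n) (n : ℕ) :
    ∃ φ ∈ V f n, ∃ w : Wd, w.length = n ∧ φ (o F w) = 1 := by
  have key : ∀ n, 1 ≤ Module.finrank F (V f n) ∧
      ∑ j : Fin n, Module.finrank F (V f j) ≤ Module.finrank F (V f n) := by
    intro n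
    induction n with
    | zero =>
      refine ⟨?_, by simp⟩
      classical
      let ε : T F →ₗ[F] F := lin fun w => if w.length = 0 then 1 else 0
      have hε : ε ∈ V f 0 := ⟨good_of_words fun m hm p q => by
        refine vanish (φ := ε) (fun w h1 _ => ?_) (Rg_mul (Rg_mul
          (o_mem (w := p) le_rfl le_rfl) (hf m)) (o_mem (w := q) le_rfl le_rfl))
        simp only [ε, lin_o]
        rw [if_neg (by omega)], fun w hw => by simp only [ε, lin_o]; rw [if_neg hw]⟩
      refine (Module.finrank_pos_iff_exists_ne_zero (R := F) (M := V f 0)).mpr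
        ⟨⟨ε, hε⟩, fun h => ?_⟩
      have := LinearMap.congr_fun (congrArg Subtype.val h) (o F 1)
      simp [ε, -map_one] at this
    | succ n ih =>
      have := gs_ineq hf n
      rw [Fin.sum_univ_castSucc]
      simp only [Fin.val_castSucc, Fin.val_last]
      omega
  obtain ⟨φ, hφ⟩ := (Module.finrank_pos_iff_exists_ne_zero (R := F) (M := V f n)).mp (key n).1
  obtain ⟨w, hw⟩ : ∃ w, φ.1 (o F w) ≠ 0 := by
    by_contra h
    push Not at h
    exact hφ (Subtype.ext (ext_o h))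
  refine ⟨(φ.1 (o F w))⁻¹ • φ.1, (V f n).smul_mem _ φ.2, w, ?_, by simp [hw]⟩
  by_contra h
  exact hw (φ.2.2 w h)

noncomputable def comp (m : ℕ) : T F →ₗ[F] T F := lin fun w => if w.length = m then o F w else 0

lemma comp_mem (m : ℕ) (t : T F) : comp m t ∈ Rg F m m := by
  have : (Rg F m m).mkQ ∘ₗ comp m = 0 := ext_o fun w => by
    simp only [comp, LinearMap.comp_apply, lin_o, LinearMap.zero_apply, Submodule.mkQ_apply,
      Submodule.Quotient.mk_eq_zero]
    split_ifs with h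
    · exact o_mem h.ge h.le
    · exact zero_mem _
  simpa using LinearMap.congr_fun this t

lemma sum_comp {a b : ℕ} {t : T F} (ht : t ∈ Rg F a b) :
    t = ∑ m ∈ Finset.Icc a b, comp m t := by
  have := eq_on (φ := LinearMap.id) (ψ := ∑ m ∈ Finset.Icc a b, comp m) (fun w h1 h2 => by
    simp only [LinearMap.id_apply, LinearMap.sum_apply, comp, lin_o, Finset.sum_ite_eq,
      Finset.mem_Icc]
    rw [if_pos ⟨h1, h2⟩]) ht
  simpa [LinearMap.sum_apply] using this

lemma exists_rel [Countable F] : ∃ f : ℕ → T F, (∀ n, f n ∈ Rg F n n) ∧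
    ∀ (D : ℕ) (t : T F), t ∈ Rg F 1 D → ∃ (N : ℕ) (s : Finset ℕ), (∀ m ∈ s, 2 ≤ m) ∧
      t ^ N = ∑ m ∈ s, f m := by
  have : Countable (T F) := (MonoidAlgebra.basis Wd F).repr.injective.countable
  have : Nonempty {x : ℕ × T F // x.2 ∈ Rg F 1 x.1} := ⟨⟨(0, 0), zero_mem _⟩⟩
  obtain ⟨e, he⟩ := exists_surjective_nat {x : ℕ × T F // x.2 ∈ Rg F 1 x.1}
  obtain ⟨N, hN0, hN⟩ : ∃ N : ℕ → ℕ, N 0 = 2 ∧ ∀ k, N (k + 1) = N k * ((e k).1.1 + 1) + 1 :=
    ⟨fun k => Nat.rec 2 (fun k n => n * ((e k).1.1 + 1) + 1) k, rfl, fun k => rfl⟩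
  have hmono : StrictMono N := strictMono_nat_of_lt_succ fun k => by rw [hN]; nlinarith
  let κ : ℕ → ℕ := fun m => @Nat.findGreatest (fun k => N k ≤ m) (fun _ => Nat.decLe _ _) m
  refine ⟨fun m => comp m ((e (κ m)).1.2 ^ N (κ m)), fun n => comp_mem _ _, fun D t ht => ?_⟩
  obtain ⟨k, hk⟩ := he ⟨(D, t), ht⟩
  have h2 : 2 ≤ N k := hN0 ▸ hmono.monotone (Nat.zero_le k)
  refine ⟨N k, Finset.Icc (N k * 1) (N k * D), fun m hm => ?_, ?_⟩
  · rw [Finset.mem_Icc] at hm; omega
  · rw [sum_comp (Rg_pow ht (N k))]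
    refine Finset.sum_congr rfl fun m hm => ?_
    rw [Finset.mem_Icc] at hm
    have : κ m = k := by
      refine Nat.findGreatest_eq_iff.mpr ⟨(hmono.le_apply (x := k)).trans (by omega), fun _ => by omega,
        fun n hn _ h => ?_⟩
      have h3 := hmono.monotone (Nat.succ_le_of_lt hn)
      rw [hN, hk] at h3
      simp only at h3
      nlinarith
    simp only [this, hk]

end Pool.Agent.H19.GS
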