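import Pool.Agent.H19.GSFilt

set_option autoImplicit false

namespace Pool.Agent.H19.GS

open Module Submodule Function

section sd
variable {k : Type} [Field k] {G : Type} [Group G] {W : Type} [AddCommGroup W] [Module k W]

/-- Semidirect product of a representation with its group. -/
@[ext] structure SD (ρ : Representation k G W) where
  m : W
  g : G

variable {ρ : Representation k G W}

instance : Mul (SD ρ) := ⟨fun a b => ⟨a.m + ρ a.g b.m, a.g * b.g⟩⟩
instance : One (SD ρ) := ⟨⟨0, 1⟩⟩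
instance : Inv (SD ρ) := ⟨fun a => ⟨-ρ a.g⁻¹ a.m, a.g⁻¹⟩⟩

@[simp] theorem mul_m (a b : SD ρ) : (a * b).m = a.m + ρ a.g b.m := rfl
@[simp] theorem mul_g (a b : SD ρ) : (a * b).g = a.g * b.g := rfl
@[simp] theorem one_m : (1 : SD ρ).m = 0 := rfl
@[simp] theorem one_g : (1 : SD ρ).g = 1 := rfl
@[simp] theorem inv_m (a : SD ρ) : (a⁻¹).m = -ρ a.g⁻¹ a.m := rfl
@[simp] theorem inv_g (a : SD ρ) : (a⁻¹).g = a.g⁻¹ := rfl

instance : Group (SD ρ) := Group.ofLeftAxioms
  (fun a b c => by ext <;> simp [mul_assoc, add_assoc])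
  (fun a => by ext <;> simp)
  (fun a => by ext <;> simp)

def SD.map {G' : Type} [Group G'] {W' : Type} [AddCommGroup W'] [Module k W']
    (ρ' : Representation k G' W') (f : W →ₗ[k] W') (π : G →* G')
    (h : ∀ g w, f (ρ g w) = ρ' (π g) (f w)) : SD ρ →* SD ρ' where
  toFun a := ⟨f a.m, π a.g⟩
  map_one' := by ext <;> simp
  map_mul' a b := by ext <;> simp [h]

def SD.proj (ρ : Representation k G W) : SD ρ →* G where
  toFun a := a.g
  map_one' := rfl
  map_mul' _ _ := rfl

end sd

/-- The Engel map. -/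
def engel {E : Type} [Group E] (Y U : E) : E := U⁻¹ * Y⁻¹ * U * Y

theorem map_engel {E E' : Type} [Group E] [Group E'] (φ : E →* E') (Y U : E) (a : ℕ) :
    φ ((engel Y)^[a] U) = (engel (φ Y))^[a] (φ U) := by
  induction a generalizing U with
  | zero => rfl
  | succ a ih => rw [iterate_succ_apply, iterate_succ_apply, ih]; simp [engel]

abbrev K2 := ZMod 2
abbrev H9 := Equiv.Perm (Fin 9)
abbrev V9 := Fin 9 → K2

def pv : Representation K2 H9 V9 where
  toFun g := LinearMap.funLeft K2 K2 (fun i => g⁻¹ i)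
  map_one' := by ext f h; simp
  map_mul' a b := by
    apply LinearMap.ext; intro f; funext h
    simp [LinearMap.funLeft_apply]

theorem pv_apply (g : H9) (f : V9) (i : Fin 9) : pv g f i = f (g⁻¹ i) := rfl

theorem sum_pv (g : H9) (f : V9) : ∑ i, pv g f i = ∑ i, f i :=
  Fintype.sum_equiv g⁻¹ _ _ fun _ => rfl

instance : Finite (SD pv) :=
  Finite.of_injective (fun a : SD pv => (a.m, a.g)) fun a b h => by
    ext1
    · exact congrArg Prod.fst h
    · exact congrArg Prod.snd h

noncomputable instance : Fintype (SD pv) := Fintype.ofFinite _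

/-- The common period. -/
noncomputable def per : ℕ := (Fintype.card (SD pv)).factorial

theorem per_pos : 0 < per := Nat.factorial_pos _

theorem periodic {x y : H9} (hx : x ∈ periodicPts (engel y))
    (hy : ∀ w : V9, pv y w = w → ∑ i, w i = 0 → w = 0) (w w' : V9) (hw : ∑ i, w i = 0) :
    IsPeriodicPt (engel (⟨w', y⟩ : SD pv)) per ⟨w, x⟩ := by
  apply isPeriodicPt_factorial_card_of_mem_periodicPts
  let S : Set (SD pv) := {U | U.g ∈ periodicPts (engel y) ∧ ∑ i, U.m i = 0}
  have hmaps : Set.MapsTo (engel (⟨w', y⟩ : SD pv)) S S := by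
    rintro U ⟨h1, h2⟩
    refine ⟨(bijOn_periodicPts (engel y)).mapsTo h1, ?_⟩
    simp only [engel, mul_m, inv_m, inv_g, mul_g, Pi.add_apply, Pi.neg_apply, map_neg,
      Finset.sum_add_distrib, Finset.sum_neg_distrib, sum_pv]
    ring
  have hinj : Injective (hmaps.restrict _ S S) := by
    rintro ⟨U, h1, h2⟩ ⟨U', h1', h2'⟩ h
    have h := congrArg Subtype.val h
    simp only [Set.MapsTo.val_restrict_apply] at h
    have hg : U.g = U'.g := (bijOn_periodicPts (engel y)).injOn h1 h1' (congrArg SD.g h)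
    have hm := congrArg SD.m h
    simp only [engel, mul_m, inv_m, inv_g, mul_g, hg, add_left_inj, map_mul,
      Module.End.mul_apply] at hm
    have h3 : pv U'.g⁻¹ (pv y⁻¹ (U.m - U'.m) - (U.m - U'.m)) = 0 := by
      simp only [map_sub]
      linear_combination (exp := 1) hm
    have h4 : pv y⁻¹ (U.m - U'.m) - (U.m - U'.m) = 0 := by
      have := congrArg (pv U'.g) h3
      rwa [← Module.End.mul_apply, ← map_mul, mul_inv_cancel, map_one, map_zero] at this
    have h5 : pv y (U.m - U'.m) = U.m - U'.m := by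
      have := congrArg (pv y) h4
      rw [map_sub, ← Module.End.mul_apply, ← map_mul, mul_inv_cancel, map_one, map_zero,
        sub_eq_zero] at this
      exact this.symm
    have h6 := hy _ h5 (by simp [Finset.sum_sub_distrib, h2, h2'])
    apply Subtype.ext
    ext1
    · exact sub_eq_zero.1 h6
    · exact hg
  obtain ⟨n, hn, h⟩ := hinj.mem_periodicPts ⟨⟨w, x⟩, hx, hw⟩
  refine ⟨n, hn, ?_⟩
  have := congrArg Subtype.val h
  rw [Set.MapsTo.coe_iterate_restrict] at this
  exact this

def xb : H9 := ⟨![3,2,0,5,8,4,7,1,6], ![2,7,1,0,5,3,8,6,4], by decide, by decide⟩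
def yb : H9 := ⟨![8,4,6,2,7,0,5,3,1], ![5,8,3,7,1,6,2,4,0], by decide, by decide⟩

/-- Engel map on pairs (function, inverse function). -/
def eng2 (y y' : Fin 9 → Fin 9) (u : List (Fin 9) × List (Fin 9)) : List (Fin 9) × List (Fin 9) :=
  (List.ofFn fun i : Fin 9 => u.2.getD (y' (u.1.getD (y i) 0)) 0,
   List.ofFn fun i : Fin 9 => y' (u.2.getD (y (u.1.getD i 0)) 0))

def enc (u : H9) : List (Fin 9) × List (Fin 9) := (List.ofFn u, List.ofFn fun i => u⁻¹ i)

theorem getD_ofFn (f : Fin 9 → Fin 9) (i : Fin 9) : (List.ofFn f).getD i 0 = f i := by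
  fin_cases i <;> rfl

theorem enc_engel (y u : H9) : enc (engel y u) = eng2 y (fun i => y⁻¹ i) (enc u) := by
  simp only [enc, eng2, getD_ofFn, engel]
  rfl

theorem enc_iter (y u : H9) (a : ℕ) :
    enc ((engel y)^[a] u) = (eng2 y (fun i => y⁻¹ i))^[a] (enc u) := by
  induction a generalizing u with
  | zero => rfl
  | succ a ih => rw [iterate_succ_apply, iterate_succ_apply, ih, enc_engel]

theorem enc_inj {u v : H9} (h : enc u = enc v) : u = v :=
  Equiv.ext (congrFun (List.ofFn_injective (congrArg Prod.fst h)))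

theorem xb_per : xb ∈ periodicPts (engel yb) :=
  ⟨18, by norm_num, enc_inj (by rw [enc_iter]; decide +kernel)⟩

theorem yb_per : yb ∈ periodicPts (engel xb) :=
  ⟨18, by norm_num, enc_inj (by rw [enc_iter]; decide +kernel)⟩

theorem xb_fix : ∀ w : V9, pv xb w = w → ∑ i, w i = 0 → w = 0 := by
  have : ∀ w : V9, (∀ i, w (xb⁻¹ i) = w i) → ∑ i, w i = 0 → w = 0 := by decide +kernel
  exact fun w h => this w fun i => congrFun h i

theorem yb_fix : ∀ w : V9, pv yb w = w → ∑ i, w i = 0 → w = 0 := by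
  have : ∀ w : V9, (∀ i, w (yb⁻¹ i) = w i) → ∑ i, w i = 0 → w = 0 := by decide +kernel
  exact fun w h => this w fun i => congrFun h i

theorem yb_bij : Bijective fun i : Fin 9 => (yb ^ (i : ℕ))⁻¹ 0 := by decide +kernel

end Pool.Agent.H19.GS
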