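import Mathlib

set_option autoImplicit false

namespace Pool.Agent.H19.GS

open Module Submodule

variable {k : Type} [Field k]

section count
variable {W : Type} [AddCommGroup W] [Module k W] [FiniteDimensional k W]
variable {B : Type} [AddCommGroup B] [Module k B] [FiniteDimensional k B]

theorem count_one (θ : B →ₗ[k] W) (K : Submodule k B) (L : Submodule k W) (h : K.map θ ≤ L) :
    finrank k ↥(L ⊔ LinearMap.range θ) + finrank k K ≤ finrank k L + finrank k B := by
  obtain ⟨K', hK'⟩ := K.exists_isCompl
  have h1 : L ⊔ LinearMap.range θ ≤ L ⊔ K'.map θ := by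
    refine sup_le le_sup_left ?_
    rw [LinearMap.range_eq_map, ← hK'.sup_eq_top, Submodule.map_sup]
    exact sup_le_sup_right h _
  have h2 := Submodule.finrank_mono h1
  have h3 := Submodule.finrank_add_le_finrank_add_finrank L (K'.map θ)
  have h4 := Submodule.finrank_map_le θ K'
  have h5 := Submodule.finrank_add_eq_of_isCompl hK'
  omega

theorem count_fam {ι : Type} (s : Finset ι) (θ : ι → B →ₗ[k] W) (K : Submodule k B)
    (L : Submodule k W) (h : ∀ i ∈ s, K.map (θ i) ≤ L) :
    finrank k ↥(L ⊔ s.sup fun i => LinearMap.range (θ i)) + s.card * finrank k K ≤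
      finrank k L + s.card * finrank k B := by
  classical
  induction s using Finset.induction_on with
  | empty => rw [Finset.sup_empty, sup_bot_eq]; simp
  | insert a s ha ih =>
    have ih := ih fun i hi => h i (Finset.mem_insert_of_mem hi)
    have h1 := count_one (θ a) K (L ⊔ s.sup fun i => LinearMap.range (θ i))
      ((h a (Finset.mem_insert_self _ _)).trans le_sup_left)
    rw [Finset.sup_insert, Finset.card_insert_of_notMem ha, sup_comm (LinearMap.range (θ a)),
      ← sup_assoc]
    nlinarith

theorem finrank_sup_le {ι : Type} (s : Finset ι) (θ : ι → B →ₗ[k] W) (K : Submodule k B) :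
    finrank k ↥(s.sup fun i => K.map (θ i)) ≤ s.card * finrank k K := by
  classical
  induction s using Finset.induction_on with
  | empty => simp
  | insert a s ha ih =>
    rw [Finset.sup_insert, Finset.card_insert_of_notMem ha]
    have h3 := Submodule.finrank_add_le_finrank_add_finrank (K.map (θ a))
      (s.sup fun i => K.map (θ i))
    have h4 := Submodule.finrank_map_le (θ a) K
    nlinarith
end count

section filt
variable {Γ : Type} [Group Γ]
variable {W : Type} [AddCommGroup W] [Module k W] {W' : Type} [AddCommGroup W'] [Module k W']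

/-- The augmentation filtration of a representation. -/
def F (ρ : Representation k Γ W) : ℕ → Submodule k W
  | 0 => ⊤
  | j + 1 => span k {v | ∃ n : Γ, ∃ w ∈ F ρ j, v = ρ n w - w}

theorem sub_mem_F (ρ : Representation k Γ W) {j : ℕ} (n : Γ) {w : W} (hw : w ∈ F ρ j) :
    ρ n w - w ∈ F ρ (j + 1) := subset_span ⟨n, w, hw, rfl⟩

theorem F_succ_le {ρ : Representation k Γ W} {j : ℕ} {L : Submodule k W}
    (h : ∀ n : Γ, ∀ w ∈ F ρ j, ρ n w - w ∈ L) : F ρ (j + 1) ≤ L := by
  rw [F, span_le]
  rintro v ⟨n, w, hw, rfl⟩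
  exact h n w hw

theorem F_inv (ρ : Representation k Γ W) (j : ℕ) (g : Γ) : F ρ j ≤ (F ρ j).comap (ρ g) := by
  induction j with
  | zero => intro w _; trivial
  | succ j ih =>
    apply F_succ_le
    intro n w hw
    rw [Submodule.mem_comap, map_sub]
    have : ρ g (ρ n w) = ρ (g * n * g⁻¹) (ρ g w) := by
      rw [← Module.End.mul_apply, ← Module.End.mul_apply, ← map_mul, ← map_mul]; simp
    rw [this]
    exact sub_mem_F ρ _ (ih hw)

theorem F_anti (ρ : Representation k Γ W) (j : ℕ) : F ρ (j + 1) ≤ F ρ j :=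
  F_succ_le fun n _ hw => Submodule.sub_mem _ (F_inv ρ j n hw) hw

theorem F_map_shift (ρ : Representation k Γ W) (ρ' : Representation k Γ W') (φ : W →ₗ[k] W')
    (i i' : ℕ) (he : ∀ n, ∀ w ∈ F ρ i, φ (ρ n w) = ρ' n (φ w)) (h0 : (F ρ i).map φ ≤ F ρ' i')
    (j : ℕ) : (F ρ (i + j)).map φ ≤ F ρ' (i' + j) := by
  have hle : ∀ j, F ρ (i + j) ≤ F ρ i := by
    intro j
    induction j with
    | zero => exact le_rfl
    | succ j ih => exact (F_anti ρ _).trans ih
  induction j with
  | zero => exact h0
  | succ j ih =>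
    rw [Submodule.map_le_iff_le_comap]
    apply F_succ_le
    intro n w hw
    rw [Submodule.mem_comap, map_sub, he n w (hle j hw)]
    exact sub_mem_F ρ' n (ih (Submodule.mem_map_of_mem hw))

theorem F_le_of (ρ' : Representation k Γ W') (P : ℕ → Submodule k W') (h0 : P 0 = ⊤)
    (hs : ∀ j n, ∀ w ∈ P j, ρ' n w - w ∈ P (j + 1)) (j : ℕ) : F ρ' j ≤ P j := by
  induction j with
  | zero => rw [h0]; exact le_top
  | succ j ih => exact F_succ_le fun n w hw => hs j n w (ih hw)

/-- Left regular representation on functions. -/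
def reg (k : Type) [Field k] (Γ : Type) [Group Γ] : Representation k Γ (Γ → k) where
  toFun g := LinearMap.funLeft k k (fun h => g⁻¹ * h)
  map_one' := by ext f h; simp
  map_mul' a b := by
    apply LinearMap.ext; intro f; funext h
    simp [LinearMap.funLeft_apply, mul_assoc]

theorem reg_apply (g : Γ) (f : Γ → k) (h : Γ) : reg k Γ g f h = f (g⁻¹ * h) := rfl

theorem reg_single [DecidableEq Γ] (g h : Γ) :
    reg k Γ g (Pi.single h 1) = Pi.single (g * h) 1 := by
  funext t
  rw [reg_apply, Pi.single_apply, Pi.single_apply]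
  congr 1
  exact propext inv_mul_eq_iff_eq_mul

variable [Fintype Γ]

/-- Orbit map. -/
def orb (ρ : Representation k Γ W) (w : W) : (Γ → k) →ₗ[k] W :=
  Fintype.linearCombination k fun n => ρ n w

theorem lc_reg (v : Γ → W) (g : Γ) (f : Γ → k) :
    Fintype.linearCombination k v (reg k Γ g f) = ∑ h, f h • v (g * h) := by
  rw [Fintype.linearCombination_apply]
  refine (Fintype.sum_equiv (Equiv.mulLeft g) _ _ fun h => ?_).symm
  simp [reg_apply]

theorem orb_reg (ρ : Representation k Γ W) (w : W) (g : Γ) (f : Γ → k) :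
    orb ρ w (reg k Γ g f) = ρ g (orb ρ w f) := by
  rw [orb, lc_reg, Fintype.linearCombination_apply, map_sum]
  simp

theorem mem_range_orb (ρ : Representation k Γ W) (w : W) (n : Γ) :
    ρ n w ∈ LinearMap.range (orb ρ w) := by
  rw [orb, Fintype.range_linearCombination]
  exact subset_span ⟨n, rfl⟩

theorem orb_F (ρ : Representation k Γ W) {i : ℕ} {w : W} (hw : w ∈ F ρ i) (j : ℕ) :
    (F (reg k Γ) j).map (orb ρ w) ≤ F ρ (i + j) := by
  have := F_map_shift (reg k Γ) ρ (orb ρ w) 0 i (fun n v _ => orb_reg ρ w n v) (by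
    rw [F, Submodule.map_top, orb, Fintype.range_linearCombination, span_le]
    rintro _ ⟨n, rfl⟩
    exact F_inv ρ i n hw) j
  rwa [zero_add] at this

theorem sum_eq_zero_of_mem_F {f : Γ → k} (hf : f ∈ F (reg k Γ) 1) : ∑ h, f h = 0 := by
  have : F (reg k Γ) 1 ≤ LinearMap.ker (Fintype.linearCombination k fun _ : Γ => (1 : k)) := by
    apply F_succ_le
    intro n w _
    rw [LinearMap.mem_ker, map_sub, lc_reg, Fintype.linearCombination_apply, sub_self]
  have h := this hf
  rw [LinearMap.mem_ker, Fintype.linearCombination_apply] at h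
  simpa using h

theorem der_F (ρ : Representation k Γ W) (δ : Γ → W) (hδ : ∀ g h, δ (g * h) = δ g + ρ g (δ h))
    (j : ℕ) : (F (reg k Γ) (1 + j)).map (Fintype.linearCombination k δ) ≤ F ρ j := by
  have := F_map_shift (reg k Γ) ρ (Fintype.linearCombination k δ) 1 0 (by
    intro n v hv
    rw [lc_reg, Fintype.linearCombination_apply, map_sum]
    simp only [hδ, smul_add, Finset.sum_add_distrib, ← Finset.sum_smul, sum_eq_zero_of_mem_F hv,
      map_smul, zero_smul, zero_add]) le_top j
  rwa [zero_add] at this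

theorem no_growth (h : ∀ j, finrank k (F (reg k Γ) (j + 2)) + 16 * finrank k (F (reg k Γ) j) ≤
    8 * finrank k (F (reg k Γ) (j + 1)) + 9 * Fintype.card Γ) : False := by
  classical
  have hD : finrank k (Γ → k) = Fintype.card Γ := Module.finrank_fintype_fun_eq_card k
  have h0 : finrank k (F (reg k Γ) 0) = Fintype.card Γ := by rw [F, finrank_top, hD]
  have h1 : finrank k (F (reg k Γ) 1) < Fintype.card Γ := by
    rw [← hD]
    apply Submodule.finrank_lt
    intro ht
    have : (Pi.single 1 1 : Γ → k) ∈ F (reg k Γ) 1 := by rw [ht]; trivial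
    have := sum_eq_zero_of_mem_F this
    simp at this
  generalize Fintype.card Γ = D at *
  have key : ∀ a : ℕ → ℕ, a 0 = D → a 1 < D → (∀ j, a (j + 2) + 16 * a j ≤ 8 * a (j + 1) + 9 * D) →
      False := by
    intro a h0 h1 h
    have ind : ∀ j, a (j + 1) + 3 * D ≤ 4 * a j ∧ a (j + 1) + j < D := by
      intro j
      induction j with
      | zero => simp only [zero_add]; omega
      | succ j ih =>
        have := h j
        rw [show j + 1 + 1 = j + 2 from rfl]
        omega
    have := (ind D).2
    omega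
  exact key (fun j => finrank k (F (reg k Γ) j)) h0 h1 h

end filt

end Pool.Agent.H19.GS
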