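import Pool.Agent.H19.GSEngel

set_option autoImplicit false

namespace Pool.Agent.H19.GS

open Module Submodule Function

theorem finrank_map_mkQ {k W : Type} [Field k] [AddCommGroup W] [Module k W]
    [FiniteDimensional k W] (L P : Submodule k W) :
    finrank k (P.map L.mkQ) + finrank k L ≤ finrank k ↥(P ⊔ L) := by
  have h1 := LinearMap.finrank_range_add_finrank_ker (L.mkQ.domRestrict (P ⊔ L))
  have h2 : P.map L.mkQ ≤ LinearMap.range (L.mkQ.domRestrict (P ⊔ L)) := by
    rw [LinearMap.range_domRestrict]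
    exact Submodule.map_mono le_sup_left
  have h3 : LinearMap.ker (L.mkQ.domRestrict (P ⊔ L)) = L.comap (P ⊔ L).subtype := by
    rw [LinearMap.ker_domRestrict, Submodule.ker_mkQ]
  have h4 := (Submodule.comapSubtypeEquivOfLe (le_sup_right : L ≤ P ⊔ L)).finrank_eq
  have h5 := Submodule.finrank_mono h2
  rw [h3] at h1
  omega

section
variable {G : Type} [Group G] [Fintype G] [DecidableEq G]

abbrev WW (G : Type) := (G → K2) × (G → K2)

noncomputable def rW (G : Type) [Group G] : Representation K2 G (WW G) :=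
  (reg K2 G).prod (reg K2 G)

omit [Fintype G] [DecidableEq G] in
theorem rW_apply (g : G) (w : WW G) : rW G g w = (reg K2 G g w.1, reg K2 G g w.2) := rfl

def ee (G : Type) [Group G] [DecidableEq G] : Bool → WW G
  | true => (Pi.single 1 1, 0)
  | false => (0, Pi.single 1 1)

theorem top_of_ee {P : Submodule K2 (WW G)} (h : ∀ g c, rW G g (ee G c) ∈ P) : P = ⊤ := by
  rw [eq_top_iff]
  rintro ⟨α, β⟩ -
  have : (α, β) = ∑ g, α g • rW G g (ee G true) + ∑ g, β g • rW G g (ee G false) := by
    simp only [rW_apply, ee, reg_single, mul_one, map_zero]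
    ext t
    · simp [Prod.fst_sum, Pi.single_apply]
    · simp [Prod.snd_sum, Pi.single_apply]
  rw [this]
  exact P.add_mem (P.sum_mem fun g _ => P.smul_mem _ (h g _))
    (P.sum_mem fun g _ => P.smul_mem _ (h g _))

/-- Stabiliser of the base point. -/
def stab (π : G →* H9) : Subgroup G := (MulAction.stabilizer H9 (0 : Fin 9)).comap π

omit [Fintype G] [DecidableEq G] in
theorem decomp (π : G →* H9) {y : G} (hy : π y = yb) :
    ∃ idx : Fin 9 → Fin 9, ∀ g : G, g * (y ^ (idx ((π g)⁻¹ 0) : ℕ))⁻¹ ∈ stab π := by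
  choose idx h using yb_bij.2
  refine ⟨idx, fun g => ?_⟩
  rw [stab, Subgroup.mem_comap, MulAction.mem_stabilizer_iff, map_mul, map_inv, map_pow, hy,
    Equiv.Perm.smul_def, Equiv.Perm.mul_apply]
  have := h ((π g)⁻¹ 0)
  simp only at this
  rw [this]; simp

omit [Fintype G] [DecidableEq G] in
theorem decomp' (π : G →* H9) {y : G} (hy : π y = yb) (g : G) :
    ∃ n : stab π, ∃ i : Fin 9, g = n * y ^ (i : ℕ) := by
  obtain ⟨idx, h⟩ := decomp π hy
  exact ⟨⟨_, h g⟩, idx ((π g)⁻¹ 0), by simp⟩

theorem card_le (π : G →* H9) {y : G} (hy : π y = yb) [Fintype (stab π)] :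
    9 * Fintype.card (stab π) ≤ Fintype.card G := by
  have : Injective fun p : Fin 9 × stab π => (p.2 : G) * y ^ (p.1 : ℕ) := by
    have key : ∀ (n : stab π) (i : Fin 9), (π (n * y ^ (i : ℕ)))⁻¹ 0 = (yb ^ (i : ℕ))⁻¹ 0 := by
      intro n i
      have hn : π n 0 = 0 := n.2
      have hn' : (π n)⁻¹ 0 = 0 := by
        rw [Equiv.Perm.inv_eq_iff_eq]; exact hn.symm
      rw [map_mul, map_pow, hy, mul_inv_rev, Equiv.Perm.mul_apply, hn']
    rintro ⟨i, n⟩ ⟨j, m⟩ h
    simp only at h
    have h1 : i = j := yb_bij.1 (by simp only; rw [← key n i, h, key])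
    subst h1
    have : n = m := Subtype.ext (mul_right_cancel h)
    rw [this]
  simpa using Fintype.card_le_of_injective _ this

theorem mem_F_one (π : G →* H9) {y : G} (hy : π y = yb) (α : G → K2)
    (h : ∀ w : V9, orb (pv.comp π) w α = 0) :
    α ∈ F ((reg K2 G).comp (stab π).subtype) 1 := by
  obtain ⟨idx, hidx⟩ := decomp π hy
  have h0 : ∑ g, α g • (Pi.single (y ^ (idx ((π g)⁻¹ 0) : ℕ)) 1 : G → K2) = 0 := by
    funext t
    have := congrFun (h fun ω => (Pi.single (y ^ (idx ω : ℕ)) 1 : G → K2) t) 0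
    rw [orb, Fintype.linearCombination_apply] at this
    rw [Finset.sum_apply] at this ⊢
    exact this
  have h1 : α = ∑ g, α g • ((Pi.single g 1 : G → K2) -
      (Pi.single (y ^ (idx ((π g)⁻¹ 0) : ℕ)) 1 : G → K2)) := by
    simp only [smul_sub, Finset.sum_sub_distrib, h0, sub_zero]
    funext t
    simp [Pi.single_apply]
  rw [h1]
  refine Submodule.sum_mem _ fun g _ => Submodule.smul_mem _ _ ?_
  have := sub_mem_F ((reg K2 G).comp (stab π).subtype) (j := 0) ⟨_, hidx g⟩
    (w := Pi.single (y ^ (idx ((π g)⁻¹ 0) : ℕ)) 1) trivial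
  rw [MonoidHom.comp_apply, reg_single] at this
  simpa using this

/-- Evaluation of a pair of group-ring elements on a pair of vectors. -/
def ev (π : G →* H9) (w w' : V9) : WW G →ₗ[K2] V9 :=
  (orb (pv.comp π) w).coprod (orb (pv.comp π) w')

omit [DecidableEq G] in
theorem ev_rW (π : G →* H9) (w w' : V9) (g : G) (t : WW G) :
    ev π w w' (rW G g t) = pv (π g) (ev π w w' t) := by
  simp [ev, rW_apply, orb_reg]

theorem mem_F_one' (π : G →* H9) {y : G} (hy : π y = yb) (t : WW G)
    (h : ∀ w w' : V9, ev π w w' t = 0) : t ∈ F ((rW G).comp (stab π).subtype) 1 := by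
  have z : ∀ α, orb (pv.comp π) 0 α = 0 := by
    intro α; simp [orb, Fintype.linearCombination_apply]
  have h1 := mem_F_one π hy t.1 fun w => by simpa [ev, z] using h w 0
  have h2 := mem_F_one π hy t.2 fun w => by simpa [ev, z] using h 0 w
  have a1 := F_map_shift ((reg K2 G).comp (stab π).subtype) ((rW G).comp (stab π).subtype)
    (LinearMap.inl K2 _ _) 0 0 (fun n w _ => by simp [rW_apply]) le_top 1
  have a2 := F_map_shift ((reg K2 G).comp (stab π).subtype) ((rW G).comp (stab π).subtype)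
    (LinearMap.inr K2 _ _) 0 0 (fun n w _ => by simp [rW_apply]) le_top 1
  have := Submodule.add_mem _ (a1 (Submodule.mem_map_of_mem h1))
    (a2 (Submodule.mem_map_of_mem h2))
  simpa using this

omit [DecidableEq G] in
theorem orb_split (π : G →* H9) (w : V9) : ∃ w0 : V9, ∑ i, w0 i = 0 ∧ ∀ α, ∃ c : K2,
    orb (pv.comp π) w α = orb (pv.comp π) w0 α + fun _ => c := by
  refine ⟨w - fun _ => ∑ i, w i, ?_, fun α => ⟨∑ g, α g * ∑ i, w i, ?_⟩⟩
  · simp only [Pi.sub_apply, Finset.sum_sub_distrib, Finset.sum_const, Finset.card_univ,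
      Fintype.card_fin]
    generalize ∑ i, w i = s
    revert s; decide
  · funext i
    simp [orb, Fintype.linearCombination_apply, pv_apply, mul_sub, Finset.sum_sub_distrib]

theorem gs_core (π : G →* H9) {y : G} (hy : π y = yb) (tt : Bool → WW G)
    (htt : ∀ g c, rW G g (tt c) - tt c ∈ F ((rW G).comp (stab π).subtype) 1)
    (L : Submodule K2 (WW G)) (hL : ∀ P : Submodule K2 (WW G), (∀ g c, rW G g (tt c) ∈ P) → L ≤ P)
    (hinv : ∀ g, L ≤ L.comap (rW G g)) (δ : G → WW G ⧸ L)
    (hδ : ∀ g h, δ (g * h) = δ g + (rW G).quotient L hinv g (δ h))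
    (hgen : ∀ c, ∃ z, δ z = L.mkQ (ee G c)) : False := by
  classical
  apply no_growth (k := K2) (Γ := stab π)
  intro j
  set N := stab π
  set ρ : Representation K2 N (WW G) := (rW G).comp N.subtype with hρ
  set μ : Representation K2 N (WW G ⧸ L) := ((rW G).quotient L hinv).comp N.subtype with hμ
  have hq : ∀ g w, (rW G).quotient L hinv g (L.mkQ w) = L.mkQ (rW G g w) := fun _ _ => rfl
  have hD : finrank K2 (N → K2) = Fintype.card N := Module.finrank_fintype_fun_eq_card K2
  have hmul : ∀ (n : N) g w, rW G (n * g) w = ρ n (rW G g w) := by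
    intro n g w; rw [map_mul]; rfl
  -- (f')
  have hf : ∀ j, finrank K2 (F ρ j) ≤ 18 * finrank K2 (F (reg K2 N) j) := by
    intro j
    have h1 := F_le_of ρ (fun j => (Finset.univ : Finset (Fin 9 × Bool)).sup fun p =>
      (F (reg K2 N) j).map (orb ρ (rW G (y ^ (p.1 : ℕ)) (ee G p.2)))) (by
        apply top_of_ee
        intro g c
        obtain ⟨n, i, rfl⟩ := decomp' π hy g
        rw [hmul]
        refine Finset.le_sup (f := fun p : Fin 9 × Bool =>
          (F (reg K2 N) 0).map (orb ρ (rW G (y ^ (p.1 : ℕ)) (ee G p.2)))) (b := (i, c))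
          (Finset.mem_univ _) ?_
        rw [F, Submodule.map_top]
        exact mem_range_orb _ _ _) (by
        intro j n
        have : ((Finset.univ : Finset (Fin 9 × Bool)).sup fun p =>
            (F (reg K2 N) j).map (orb ρ (rW G (y ^ (p.1 : ℕ)) (ee G p.2)))) ≤
            ((Finset.univ : Finset (Fin 9 × Bool)).sup fun p =>
            (F (reg K2 N) (j + 1)).map (orb ρ (rW G (y ^ (p.1 : ℕ)) (ee G p.2)))).comap
              (ρ n - LinearMap.id) := by
          refine Finset.sup_le fun p _ => ?_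
          rintro _ ⟨f, hf, rfl⟩
          rw [Submodule.mem_comap, LinearMap.sub_apply, LinearMap.id_apply, ← orb_reg, ← map_sub]
          exact Finset.le_sup (f := fun p : Fin 9 × Bool =>
            (F (reg K2 N) (j + 1)).map (orb ρ (rW G (y ^ (p.1 : ℕ)) (ee G p.2)))) (b := p)
            (Finset.mem_univ _) (Submodule.mem_map_of_mem (sub_mem_F _ n hf))
        intro w hw
        exact this hw) j
    have h2 := finrank_sup_le (Finset.univ : Finset (Fin 9 × Bool))
      (fun p => orb ρ (rW G (y ^ (p.1 : ℕ)) (ee G p.2))) (F (reg K2 N) j)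
    have h3 := Submodule.finrank_mono h1
    have h4 : (Finset.univ : Finset (Fin 9 × Bool)).card = 18 := rfl
    rw [h4] at h2
    exact h3.trans h2
  have hW : 18 * Fintype.card N ≤ finrank K2 (WW G) := by
    rw [Module.finrank_prod, Module.finrank_fintype_fun_eq_card]
    have : 9 * Fintype.card N ≤ Fintype.card G := by convert card_le π hy
    omega
  -- (g')
  have g1 := count_fam (Finset.univ : Finset Bool) (fun c => orb ρ (tt c)) (F (reg K2 N) (j + 1))
    (F ρ (j + 1)) fun c _ => by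
      have := orb_F ρ (i := 0) (w := tt c) trivial (j + 1)
      rwa [zero_add] at this
  have g2 := count_fam (((Finset.univ : Finset (Fin 9)).erase 0) ×ˢ (Finset.univ : Finset Bool))
    (fun p => orb ρ (rW G (y ^ (p.1 : ℕ)) (tt p.2) - tt p.2)) (F (reg K2 N) j)
    (F ρ (j + 1) ⊔ (Finset.univ : Finset Bool).sup fun c => LinearMap.range (orb ρ (tt c)))
    fun p _ => by
      have := orb_F ρ (htt (y ^ (p.1 : ℕ)) p.2) j
      rw [add_comm] at this
      exact this.trans le_sup_left
  have g3 : F ρ (j + 1) ⊔ L ≤ (F ρ (j + 1) ⊔ (Finset.univ : Finset Bool).sup fun c =>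
      LinearMap.range (orb ρ (tt c))) ⊔
      (((Finset.univ : Finset (Fin 9)).erase 0) ×ˢ (Finset.univ : Finset Bool)).sup fun p =>
        LinearMap.range (orb ρ (rW G (y ^ (p.1 : ℕ)) (tt p.2) - tt p.2)) := by
    refine sup_le (le_sup_left.trans le_sup_left) (hL _ fun g c => ?_)
    obtain ⟨n, i, rfl⟩ := decomp' π hy g
    have e : rW G (n * y ^ (i : ℕ)) (tt c) =
        ρ n (tt c) + ρ n (rW G (y ^ (i : ℕ)) (tt c) - tt c) := by
      rw [hmul, map_sub]; abel
    rw [e]
    refine Submodule.add_mem _ (Submodule.mem_sup_left (Submodule.mem_sup_right ?_))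
      (Submodule.mem_sup_right ?_)
    · exact Finset.le_sup (f := fun c => LinearMap.range (orb ρ (tt c))) (Finset.mem_univ c)
        (mem_range_orb _ _ _)
    · by_cases hi : i = 0
      · subst hi; simp
      · exact Finset.le_sup (f := fun p : Fin 9 × Bool =>
          LinearMap.range (orb ρ (rW G (y ^ (p.1 : ℕ)) (tt p.2) - tt p.2))) (b := (i, c))
          (by simp [hi]) (mem_range_orb _ _ _)
  have g4 := Submodule.finrank_mono g3
  have c1 : (Finset.univ : Finset Bool).card = 2 := rfl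
  have c2 : (((Finset.univ : Finset (Fin 9)).erase 0) ×ˢ (Finset.univ : Finset Bool)).card = 16 :=
    rfl
  have c3 : ((Finset.univ : Finset (Fin 9)).erase 0).card = 8 := rfl
  rw [c1, hD] at g1
  rw [c2, hD] at g2
  -- (d')
  have d1 : F μ (j + 1) ≤ (F ρ (j + 1)).map L.mkQ :=
    F_le_of μ (fun j => (F ρ j).map L.mkQ) (by rw [F, Submodule.map_top, Submodule.range_mkQ])
      (by
        rintro j n _ ⟨w, hw, rfl⟩
        exact ⟨_, sub_mem_F ρ n hw, by rw [map_sub]; rfl⟩) (j + 1)
  have d2 := Submodule.finrank_mono d1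
  have d3 := finrank_map_mkQ L (F ρ (j + 1))
  have d4 := Submodule.finrank_quotient_add_finrank L
  -- (e')
  have e1 := count_one (Fintype.linearCombination K2 fun n : N => δ n)
    (F (reg K2 N) (1 + (j + 1))) (F μ (j + 1)) (der_F μ _ (fun g h => hδ g h) (j + 1))
  have e2 := count_fam ((Finset.univ : Finset (Fin 9)).erase 0)
    (fun i => orb μ (δ (y ^ (i : ℕ)))) (F (reg K2 N) (j + 1))
    (F μ (j + 1) ⊔ LinearMap.range (Fintype.linearCombination K2 fun n : N => δ n))
    fun i _ => by
      have := orb_F μ (i := 0) (w := δ (y ^ (i : ℕ))) trivial (j + 1)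
      rw [zero_add] at this
      exact this.trans le_sup_left
  have e3 : (F μ (j + 1) ⊔ LinearMap.range (Fintype.linearCombination K2 fun n : N => δ n)) ⊔
      (((Finset.univ : Finset (Fin 9)).erase 0).sup fun i =>
        LinearMap.range (orb μ (δ (y ^ (i : ℕ))))) = ⊤ := by
    set P := (F μ (j + 1) ⊔ LinearMap.range (Fintype.linearCombination K2 fun n : N => δ n)) ⊔
      (((Finset.univ : Finset (Fin 9)).erase 0).sup fun i =>
        LinearMap.range (orb μ (δ (y ^ (i : ℕ)))))
    have hP : ∀ g, δ g ∈ P := by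
      intro g
      obtain ⟨n, i, rfl⟩ := decomp' π hy g
      have hn : δ n ∈ P := Submodule.mem_sup_left (Submodule.mem_sup_right (by
        rw [Fintype.range_linearCombination]; exact subset_span ⟨n, rfl⟩))
      by_cases hi : i = 0
      · subst hi; simpa using hn
      · rw [hδ]
        exact Submodule.add_mem _ hn (Submodule.mem_sup_right (Finset.le_sup
          (f := fun i : Fin 9 => LinearMap.range (orb μ (δ (y ^ (i : ℕ))))) (b := i)
          (by simp [hi]) (mem_range_orb μ _ n)))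
    have : P.comap L.mkQ = ⊤ := by
      apply top_of_ee
      intro g c
      obtain ⟨z, hz⟩ := hgen c
      rw [Submodule.mem_comap, ← hq, ← hz]
      have := Submodule.sub_mem _ (hP (g * z)) (hP g)
      rwa [hδ, add_sub_cancel_left] at this
    rw [eq_top_iff]
    intro m _
    obtain ⟨w, rfl⟩ := L.mkQ_surjective m
    have hw : w ∈ P.comap L.mkQ := by rw [this]; trivial
    exact hw
  rw [e3, finrank_top, c3, hD] at e2
  rw [hD, show 1 + (j + 1) = j + 2 by omega] at e1
  have := hf (j + 1)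
  omega

end

theorem main (G : Type) [Group G] (x y : G) (a b : ℕ) (ha : per ∣ a) (hb : per ∣ b)
    (huniv : ∀ (E : Type) [Group E] (X Y : E), (engel Y)^[a] X = X → (engel X)^[b] Y = Y →
      ∃ ψ : G →* E, ψ x = X ∧ ψ y = Y)
    (hext : ∀ φ : G →* G, φ x = x → φ y = y → ∀ g, φ g = g)
    (hx : (engel y)^[a] x = x) (hy : (engel x)^[b] y = y) : Infinite G := by
  classical
  by_contra hfin
  rw [not_infinite_iff_finite] at hfin
  letI := Fintype.ofFinite G
  have p1 : ∀ w w' : V9, ∑ i, w i = 0 →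
      (engel (⟨w', yb⟩ : SD pv))^[a] ⟨w, xb⟩ = ⟨w, xb⟩ := fun w w' h =>
    (periodic xb_per yb_fix w w' h).trans_dvd ha
  have p2 : ∀ w w' : V9, ∑ i, w i = 0 →
      (engel (⟨w', xb⟩ : SD pv))^[b] ⟨w, yb⟩ = ⟨w, yb⟩ := fun w w' h =>
    (periodic yb_per xb_fix w w' h).trans_dvd hb
  obtain ⟨π0, hx0, hy0⟩ := huniv (SD pv) ⟨0, xb⟩ ⟨0, yb⟩ (p1 0 0 (by simp)) (p2 0 0 (by simp))
  set π : G →* H9 := (SD.proj pv).comp π0
  have hπx : π x = xb := congrArg SD.g hx0
  have hπy : π y = yb := congrArg SD.g hy0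
  set X : SD (rW G) := ⟨ee G true, x⟩
  set Y : SD (rW G) := ⟨ee G false, y⟩
  let tt : Bool → WW G := fun c =>
    match c with
    | true => ((engel Y)^[a] X).m - X.m
    | false => ((engel X)^[b] Y).m - Y.m
  have evX : ∀ w w', SD.map pv (ev π w w') π (ev_rW π w w') X = ⟨w, xb⟩ := by
    intro w w'
    ext1
    · simp [SD.map, X, ev, ee, orb, Fintype.linearCombination_apply_single]
    · exact hπx
  have evY : ∀ w w', SD.map pv (ev π w w') π (ev_rW π w w') Y = ⟨w', yb⟩ := by
    intro w w'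
    ext1
    · simp [SD.map, Y, ev, ee, orb, Fintype.linearCombination_apply_single]
    · exact hπy
  have hev : ∀ w w', ∑ i, w i = 0 → ∑ i, w' i = 0 → ∀ c, ev π w w' (tt c) = 0 := by
    intro w w' hw hw' c
    cases c
    · have := map_engel (SD.map pv (ev π w w') π (ev_rW π w w')) X Y b
      rw [evX, evY, p2 _ _ hw', ← evY w w'] at this
      simp only [tt, map_sub]
      exact sub_eq_zero.2 (congrArg SD.m this)
    · have := map_engel (SD.map pv (ev π w w') π (ev_rW π w w')) Y X a
      rw [evX, evY, p1 _ _ hw, ← evX w w'] at this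
      simp only [tt, map_sub]
      exact sub_eq_zero.2 (congrArg SD.m this)
  have htt : ∀ g c, rW G g (tt c) - tt c ∈ F ((rW G).comp (stab π).subtype) 1 := by
    intro g c
    apply mem_F_one' π hπy
    intro w w'
    obtain ⟨w0, h0, h1⟩ := orb_split π w
    obtain ⟨w0', h0', h1'⟩ := orb_split π w'
    obtain ⟨c1, hc1⟩ := h1 (tt c).1
    obtain ⟨c2, hc2⟩ := h1' (tt c).2
    have h2 := hev w0 w0' h0 h0' c
    have : ev π w w' (tt c) = fun _ => c1 + c2 := by
      rw [ev, LinearMap.coprod_apply] at h2 ⊢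
      rw [hc1, hc2, add_add_add_comm, h2, zero_add]; rfl
    rw [map_sub, ev_rW, this]
    exact sub_self _
  let L : Submodule K2 (WW G) := span K2 {v | ∃ g c, v = rW G g (tt c)}
  have hinv : ∀ g, L ≤ L.comap (rW G g) := by
    intro g
    rw [span_le]
    rintro _ ⟨h, c, rfl⟩
    exact subset_span ⟨g * h, c, by rw [map_mul]; rfl⟩
  have hmem : ∀ c, tt c ∈ L := fun c => subset_span ⟨1, c, by simp⟩
  let q : SD (rW G) →* SD ((rW G).quotient L hinv) :=
    SD.map _ L.mkQ (MonoidHom.id G) fun _ _ => rfl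
  have gX : ((engel Y)^[a] X).g = x := (map_engel (SD.proj _) Y X a).trans hx
  have gY : ((engel X)^[b] Y).g = y := (map_engel (SD.proj _) X Y b).trans hy
  obtain ⟨ψ, hψx, hψy⟩ := huniv _ (q X) (q Y) (by
    rw [← map_engel]
    ext1
    · exact (Submodule.Quotient.eq L).2 (hmem true)
    · exact gX) (by
    rw [← map_engel]
    ext1
    · exact (Submodule.Quotient.eq L).2 (hmem false)
    · exact gY)
  have hg : ∀ g, (ψ g).g = g := hext ((SD.proj _).comp ψ) (congrArg SD.g hψx) (congrArg SD.g hψy)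
  refine gs_core π hπy tt htt L (fun P hP => ?_) hinv (fun g => (ψ g).m) (fun g h => ?_)
    fun c => ?_
  · rw [span_le]
    rintro _ ⟨h, c, rfl⟩
    exact hP h c
  · simp only [map_mul, mul_m, hg]
  · cases c
    · exact ⟨y, congrArg SD.m hψy⟩
    · exact ⟨x, congrArg SD.m hψx⟩

end Pool.Agent.H19.GS
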