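import Pool.Agent.H19.GSMain

set_option autoImplicit false

namespace Pool.Agent.H19.GS

theorem pres_infinite (rels : Set (FreeGroup (Fin 2))) (a b : ℕ) (ha : per ∣ a) (hb : per ∣ b)
    (h : ∀ (E : Type) [Group E] (φ : FreeGroup (Fin 2) →* E), (∀ r ∈ rels, φ r = 1) ↔
      (φ ((engel (FreeGroup.of 1))^[a] (FreeGroup.of 0)) = φ (FreeGroup.of 0) ∧
       φ ((engel (FreeGroup.of 0))^[b] (FreeGroup.of 1)) = φ (FreeGroup.of 1))) :
    Infinite (PresentedGroup rels) := by
  have h0 := (h _ (PresentedGroup.mk rels)).1 fun r hr => PresentedGroup.one_of_mem hr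
  rw [map_engel, map_engel] at h0
  refine main _ (PresentedGroup.of 0) (PresentedGroup.of 1) a b ha hb ?_ ?_ h0.1 h0.2
  · intro E _ X Y h1 h2
    have := (h E (FreeGroup.lift ![X, Y])).2 (by
      rw [map_engel, map_engel]; simpa using ⟨h1, h2⟩)
    exact ⟨PresentedGroup.toGroup this, by simp, by simp⟩
  · intro φ h1 h2 g
    have : φ = MonoidHom.id _ := by
      apply PresentedGroup.ext
      intro i
      fin_cases i
      · exact h1
      · exact h2
    rw [this]; rfl

end Pool.Agent.H19.GS
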