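import Mathlib

set_option autoImplicit false
set_option linter.unusedSectionVars false

namespace Pool.Agent.H19.Hall

open FreeGroup hiding map_one map_inv map_mul

variable {ι : Type}

lemma approx {X : Type} [MulAction (FreeGroup ι) X] (g : FreeGroup ι) : ∀ x : X,
    ∃ Y0 : Set X, Y0.Finite ∧ x ∈ Y0 ∧ ∀ Y : Set X, Y0 ⊆ Y → ∀ p : ι → Equiv.Perm Y,
      (∀ i (y : Y), of i • y.1 ∈ Y → (p i y).1 = of i • y.1) →
      ∀ y : Y, y.1 = x → (lift p g y).1 = g • x := by
  induction g using FreeGroup.induction_on with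
  | C1 => exact fun x => ⟨{x}, by simp, rfl, fun Y _ p _ y hy => by simpa using hy⟩
  | of i =>
    refine fun x => ⟨{x, of i • x}, by simp, by simp, fun Y hY p hp y hy => ?_⟩
    subst hy
    rw [lift_apply_of]
    exact hp i y (hY (by simp))
  | inv_of i _ =>
    refine fun x => ⟨{x, (of i)⁻¹ • x}, by simp, by simp, fun Y hY p hp y hy => ?_⟩
    subst hy
    have h1 : p i ⟨(of i)⁻¹ • y.1, hY (by simp)⟩ = y :=
      Subtype.ext ((hp i _ (by simp)).trans (by simp))
    rw [map_inv, lift_apply_of]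
    conv_lhs => rw [← h1]
    simp
  | mul g h hg hh =>
    intro x
    obtain ⟨Y1, f1, m1, h1⟩ := hh x
    obtain ⟨Y2, f2, -, h2⟩ := hg (h • x)
    refine ⟨Y1 ∪ Y2, f1.union f2, Or.inl m1, fun Y hY p hp y hy => ?_⟩
    rw [map_mul, Equiv.Perm.mul_apply, mul_smul]
    exact h2 Y (Set.subset_union_right.trans hY) p hp _
      (h1 Y (Set.subset_union_left.trans hY) p hp y hy)

/-- cyclic subgroups of free groups are separable -/
theorem hall {f h : FreeGroup ι} (hf : f ∉ Subgroup.zpowers h) :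
    ∃ (B : Type) (_ : Group B) (_ : Finite B) (θ : FreeGroup ι →* B),
      ∀ k : ℤ, θ h ^ k ≠ θ f := by
  let X := FreeGroup ι ⧸ Subgroup.zpowers h
  let x0 : X := QuotientGroup.mk 1
  obtain ⟨Y1, f1, m1, h1⟩ := approx f x0
  obtain ⟨Y2, f2, -, h2⟩ := approx h x0
  have hfin : Finite (Y1 ∪ Y2 : Set X) := f1.union f2
  have hp : ∀ i : ι, ∃ p : Equiv.Perm (Y1 ∪ Y2 : Set X),
      ∀ y : (Y1 ∪ Y2 : Set X), of i • y.1 ∈ Y1 ∪ Y2 → (p y).1 = of i • y.1 := by
    intro i
    obtain ⟨p, hp⟩ := Equiv.Perm.exists_extending_pair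
      (α := {y : (Y1 ∪ Y2 : Set X) // of i • y.1 ∈ Y1 ∪ Y2}) (β := (Y1 ∪ Y2 : Set X))
      (fun y => y.1) (fun y => ⟨_, y.2⟩) Subtype.val_injective
      (fun y z hyz => Subtype.ext (Subtype.ext
        (MulAction.injective (of i) (congrArg Subtype.val hyz))))
    exact ⟨p, fun y hy => congrArg Subtype.val (hp ⟨y, hy⟩)⟩
  choose p hp using hp
  let y0 : (Y1 ∪ Y2 : Set X) := ⟨x0, Or.inl m1⟩
  have e1 := h1 _ Set.subset_union_left p hp y0 rfl
  have e2 := h2 _ Set.subset_union_right p hp y0 rfl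
  have e3 : h ∈ MulAction.stabilizer (FreeGroup ι) x0 := by
    rw [MulAction.stabilizer_quotient]; exact Subgroup.mem_zpowers h
  have e4 : lift p h y0 = y0 := Subtype.ext (e2.trans e3)
  refine ⟨_, inferInstance, inferInstance, lift p, fun k hk => hf ?_⟩
  rw [← hk, Equiv.Perm.zpow_apply_eq_self_of_apply_eq_self e4] at e1
  rw [← MulAction.stabilizer_quotient (Subgroup.zpowers h)]
  exact e1.symm

def rmul (B : Type) [Group B] : B →* Equiv.Perm B :=
  MonoidHom.mk' (fun g => Equiv.mulRight g⁻¹) fun g h => by ext; simp [mul_assoc]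

lemma rmul_inj {B : Type} [Group B] : Function.Injective (rmul B) := fun g h e => by
  simpa [rmul] using congrArg (fun p : Equiv.Perm B => p 1) e

lemma cosetEquiv {B : Type} [Group B] (H : Subgroup B) :
    ∃ e : (B ⧸ H) × H ≃ B, ∀ q s, e (q, s) = q.out * s := by
  refine ⟨Equiv.ofBijective (fun p => p.1.out * p.2) ⟨?_, fun g => ?_⟩, fun _ _ => rfl⟩
  · rintro ⟨q, s⟩ ⟨q', s'⟩ h
    have h1 := congrArg (QuotientGroup.mk : B → B ⧸ H) h
    simp only [QuotientGroup.mk_mul_of_mem _ (Subtype.prop _), QuotientGroup.out_eq'] at h1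
    subst h1
    simpa using h
  · obtain ⟨s, hs⟩ := QuotientGroup.mk_out_eq_mul H g
    exact ⟨(QuotientGroup.mk g, s⁻¹), by simp [hs]⟩

lemma conj_of_order {B : Type} [Group B] [Finite B] {x y : B} (h : orderOf y = orderOf x) :
    ∃ τ : Equiv.Perm B, rmul B x * τ = τ * rmul B y := by
  obtain ⟨e, he⟩ := cosetEquiv (Subgroup.zpowers x)
  obtain ⟨e', he'⟩ := cosetEquiv (Subgroup.zpowers y)
  have hz : ∀ (z : B) (u : Subgroup.zpowers z),
      u ∈ Subgroup.zpowers (⟨z, Subgroup.mem_zpowers z⟩ : Subgroup.zpowers z) := by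
    rintro z ⟨_, k, rfl⟩
    exact ⟨k, rfl⟩
  let φ := mulEquivOfOrderOfEq (hz y) (hz x) (by simpa using h)
  have hφ : φ ⟨y, Subgroup.mem_zpowers y⟩ = ⟨x, Subgroup.mem_zpowers x⟩ :=
    mulEquivOfOrderOfEq_apply_gen _ _ _
  have hc : Nat.card (B ⧸ Subgroup.zpowers y) = Nat.card (B ⧸ Subgroup.zpowers x) := by
    have h1 := Subgroup.card_eq_card_quotient_mul_card_subgroup (Subgroup.zpowers x)
    have h2 := Subgroup.card_eq_card_quotient_mul_card_subgroup (Subgroup.zpowers y)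
    rw [Nat.card_zpowers] at h1 h2
    rw [h1, h] at h2
    exact (Nat.eq_of_mul_eq_mul_right (orderOf_pos x) h2).symm
  obtain ⟨σ⟩ := Finite.card_eq.mp hc
  refine ⟨e'.symm.trans ((σ.prodCongr φ.toEquiv).trans e), ?_⟩
  ext g
  obtain ⟨⟨q, s⟩, rfl⟩ := e'.surjective g
  have : rmul B y (e' (q, s)) = e' (q, s * ⟨y, Subgroup.mem_zpowers y⟩⁻¹) := by
    simp [rmul, he', mul_assoc]
  simp only [Equiv.Perm.mul_apply, this]
  simp [rmul, he, hφ, mul_assoc]

end Pool.Agent.H19.Hall
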