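import Mathlib
import Pool.Agent.H19.Hall
import Pool.Agent.H19.ResP

set_option autoImplicit false
set_option linter.unusedSectionVars false

namespace Pool.Agent.H19.HNNrf

open scoped commutatorElement
open Pool.Agent.H19.Hall
open Pool.Agent.H19.ResP (sk)

abbrev F := FreeGroup (Fin 2)

def vv {W : Type} [Group W] (a b : W) : W := ⁅a, b⁻¹ * a * b⁆

lemma vv_map {W W' : Type} [Group W] [Group W'] (f : W →* W') (a b : W) :
    f (vv a b) = vv (f a) (f b) := by simp [vv, map_commutatorElement]

def A : F := .of 0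
def V : F := vv (.of 0) (.of 1)

def rel : FreeGroup (Fin 3) :=
  (FreeGroup.of 2)⁻¹ * .of 0 * .of 2 * (vv (.of 0) (.of 1))⁻¹

abbrev G := PresentedGroup ({rel} : Set (FreeGroup (Fin 3)))

def io : F →* G := FreeGroup.lift ![PresentedGroup.of 0, PresentedGroup.of 1]
def t : G := PresentedGroup.of 2

lemma io0 : io (.of 0) = PresentedGroup.of 0 := by simp [io]
lemma io1 : io (.of 1) = PresentedGroup.of 1 := by simp [io]

lemma hrel : io A * t = t * io V := by
  have := PresentedGroup.one_of_mem (rels := ({rel} : Set (FreeGroup (Fin 3))))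
    (x := (FreeGroup.of 2)⁻¹ * .of 0 * .of 2 * (vv (.of 0) (.of 1))⁻¹) rfl
  have h : t⁻¹ * PresentedGroup.of 0 * t *
      (vv (PresentedGroup.of 0) (PresentedGroup.of 1))⁻¹ = (1 : G) := by
    rw [← this, map_mul, map_mul, map_mul, map_inv, map_inv, vv_map]
    rfl
  rw [mul_inv_eq_one, mul_assoc, inv_mul_eq_iff_eq_mul] at h
  rw [V, vv_map, A, io0, io1]
  exact h

lemma exists_hom {W : Type} [Group W] (θ : F →* W) (τ : W) (h : θ A * τ = τ * θ V) :
    ∃ π : G →* W, (∀ f, π (io f) = θ f) ∧ π t = τ := by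
  have : ∀ r ∈ ({rel} : Set (FreeGroup (Fin 3))),
      FreeGroup.lift ![θ (.of 0), θ (.of 1), τ] r = 1 := by
    rintro r rfl
    rw [V, vv_map, A] at h
    simp only [rel, vv_map, map_mul, map_inv, FreeGroup.lift_apply_of]
    change τ⁻¹ * θ (.of 0) * τ * (vv (θ (.of 0)) (θ (.of 1)))⁻¹ = 1
    rw [mul_assoc τ⁻¹, h]
    group
  refine ⟨PresentedGroup.toGroup this, fun f => ?_, PresentedGroup.toGroup.of this⟩
  have : (PresentedGroup.toGroup this).comp io = θ := by
    apply FreeGroup.ext_hom
    intro i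
    fin_cases i
    · exact (congrArg _ io0).trans (PresentedGroup.toGroup.of this)
    · exact (congrArg _ io1).trans (PresentedGroup.toGroup.of this)
  exact DFunLike.congr_fun this f

lemma base {B : Type} [Group B] [Finite B] (θ : F →* B) :
    ∃ (S : Type) (_ : Group S) (_ : Finite S) (π : G →* S),
      ∀ f g, π (io f) = π (io g) → θ f = θ g := by
  obtain ⟨n, hn⟩ : ∃ n, n = 2 * Nat.card B := ⟨_, rfl⟩
  have hpos : 0 < n := by have := Nat.card_pos (α := B); omega
  have : NeZero n := ⟨hpos.ne'⟩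
  have : NeZero (4 * n) := ⟨by omega⟩
  let c1 : F →* Multiplicative (ZMod n) := FreeGroup.lift ![Multiplicative.ofAdd 1, 1]
  let c2 : F →* DihedralGroup (4 * n) := FreeGroup.lift ![.sr 0, DihedralGroup.r 1]
  have hB : ∀ x : B, orderOf x ∣ n := fun x => hn ▸ (orderOf_dvd_natCard x).mul_left 2
  have a1 : orderOf (c1 A) = n := by simp [c1, A]
  have v1 : c1 V = 1 := by rw [V, vv_map, vv, commutatorElement_eq_one_iff_mul_comm, mul_comm]
  have a2 : orderOf (c2 A) ∣ n := by
    simp only [c2, A, FreeGroup.lift_apply_of, Matrix.cons_val_zero, DihedralGroup.orderOf_sr, hn]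
    exact dvd_mul_right _ _
  have v2 : orderOf (c2 V) = n := by
    have : c2 V = DihedralGroup.r 1 ^ 4 := by
      simp [c2, V, vv, commutatorElement_def]
      norm_num
    rw [this, orderOf_pow' _ (by norm_num), DihedralGroup.orderOf_r_one]
    simp
  let θ' := θ.prod (c1.prod c2)
  have ho : orderOf (θ' V) = orderOf (θ' A) := by
    simp only [θ', MonoidHom.prod_apply, Prod.orderOf_mk, a1, v1, v2, orderOf_one,
      Nat.lcm_one_left]
    rw [Nat.lcm_eq_right (hB _), Nat.lcm_eq_left a2, Nat.lcm_eq_right (hB _)]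
  obtain ⟨τ, hτ⟩ := conj_of_order ho
  obtain ⟨π, h1, -⟩ := exists_hom ((rmul _).comp θ') τ hτ
  refine ⟨_, inferInstance, inferInstance, π, fun f g h => ?_⟩
  rw [h1, h1] at h
  exact congrArg Prod.fst (rmul_inj h)

def Sep (T : Set (G × Set G)) : Prop :=
  ∃ (S : Type) (_ : Group S) (_ : Finite S) (π : G →* S), ∀ x ∈ T, ∀ k ∈ x.2, π k ≠ π x.1

lemma Sep.of_finite {T : Set (G × Set G)} (hT : T.Finite) (h : ∀ g ∈ T, Sep {g}) : Sep T := by
  induction T, hT using Set.Finite.induction_on with
  | empty => exact ⟨PUnit, inferInstance, inferInstance, 1, by simp⟩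
  | @insert g T _ _ ih =>
    obtain ⟨S, _, _, θ, hθ⟩ := ih fun g hg => h g (Or.inr hg)
    obtain ⟨S', _, _, θ', hθ'⟩ := h g (Or.inl rfl)
    refine ⟨S × S', inferInstance, inferInstance, θ.prod θ', ?_⟩
    rintro x (rfl | hx) k hk h1
    · exact hθ' x rfl k hk (congrArg Prod.snd h1)
    · exact hθ x hx k hk (congrArg Prod.fst h1)

lemma sep_cyc {f h : F} (hf : f ∉ Subgroup.zpowers h) :
    Sep {(io f, Set.range fun k : ℤ => io h ^ k)} := by
  obtain ⟨B, _, _, θ, hθ⟩ := hall hf
  obtain ⟨S, _, _, π, hπ⟩ := base θ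
  refine ⟨S, inferInstance, inferInstance, π, ?_⟩
  rintro _ rfl _ ⟨k, rfl⟩ h1
  apply hθ k
  rw [← map_zpow]
  apply hπ
  rwa [map_zpow]

def T (e : Bool) : G := if e then t else t⁻¹
def Hg (e : Bool) : F := if e then V else A
def val (L : List (Bool × F)) : G := (L.map fun x => T x.1 * io x.2).prod
def Red (L : List (Bool × F)) : Prop :=
  L.IsChain fun x y => x.1 ≠ y.1 → x.2 ∉ Subgroup.zpowers (Hg x.1)

lemma val_cons (x : Bool × F) (L : List (Bool × F)) : val (x :: L) = T x.1 * io x.2 * val L := by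
  simp [val]

lemma val_append (L M : List (Bool × F)) : val (L ++ M) = val L * val M := by simp [val]

lemma conjV (k : ℤ) : t * io V ^ k * t⁻¹ = io A ^ k := by
  rw [← conj_zpow, ← hrel, mul_inv_cancel_right]

lemma nf (g : G) : ∃ f L, Red L ∧ g = io f * val L := by
  have hT : ∀ e g, (∃ f L, Red L ∧ g = io f * val L) → ∃ f L, Red L ∧ T e * g = io f * val L := by
    rintro e _ ⟨f, L, hL, rfl⟩
    by_cases h : Red ((e, f) :: L)
    · exact ⟨1, _, h, by simp [val_cons, mul_assoc]⟩
    cases L with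
    | nil => exact absurd (List.isChain_singleton _) h
    | cons x L =>
      obtain ⟨e', f'⟩ := x
      rw [Red, List.isChain_cons_cons] at h
      have h1 : e ≠ e' ∧ f ∈ Subgroup.zpowers (Hg e) := by
        by_contra h2
        exact h ⟨fun h3 h4 => h2 ⟨h3, h4⟩, hL⟩
      obtain ⟨h2, k, rfl⟩ := h1
      refine ⟨Hg e' ^ k * f', L, hL.tail, ?_⟩
      have := conjV k
      cases e <;> cases e' <;> simp [T, Hg, val_cons] at h2 ⊢
      · rw [← this]; group
      · rw [← this]; group
  have hF : ∀ f0 g, (∃ f L, Red L ∧ g = io f * val L) →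
      ∃ f L, Red L ∧ io f0 * g = io f * val L := by
    rintro f0 _ ⟨f, L, hL, rfl⟩
    exact ⟨f0 * f, L, hL, by simp [mul_assoc]⟩
  have hg : g ∈ Subgroup.closure (Set.range (PresentedGroup.of : Fin 3 → G)) := by
    rw [PresentedGroup.closure_range_of]; trivial
  induction hg using Subgroup.closure_induction_left with
  | one => exact ⟨1, [], List.isChain_nil, by simp [val]⟩
  | mul_left x hx y _ ih =>
    obtain ⟨i, rfl⟩ := hx
    fin_cases i
    · exact io0 ▸ hF _ _ ih
    · exact io1 ▸ hF _ _ ih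
    · exact hT true _ ih
  | inv_mul_cancel x hx y _ ih =>
    obtain ⟨i, rfl⟩ := hx
    fin_cases i
    · have := hF (FreeGroup.of 0)⁻¹ _ ih
      rwa [map_inv, io0] at this
    · have := hF (FreeGroup.of 1)⁻¹ _ ih
      rwa [map_inv, io1] at this
    · exact hT false _ ih

theorem step {S : Type} [Group S] [Finite S] (π : G →* S) (e1 : Bool) (f1 : F)
    (L : List (Bool × F))
    (ha : ∀ u s, L = u ++ s → u ≠ [] → ∀ f, π (io f) ≠ π (val u))
    (hb : ∀ e f s, L = (e, f) :: s → e1 ≠ e → ∀ k : ℤ, π (io (Hg e1) ^ k) ≠ π (io f1)) :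
    Sep {(val ((e1, f1) :: L), Set.range io)} := by
  classical
  let E : Bool → S → S := fun e y => if e then y else (π t)⁻¹ * y
  let e0 := E e1 (π (io f1 * val L))
  let c : S → ZMod 2 := fun q => if q * e0⁻¹ ∈ Subgroup.zpowers (π (io V)) then 1 else 0
  let θ : F →* Equiv.Perm (S × ZMod 2) := MonoidHom.mk' (fun f => sk (π (io f)) 0) (by
    intro f g; ext <;> simp [sk, mul_assoc])
  obtain ⟨φ, h1, h2⟩ := exists_hom θ (sk (π t) c) (by
    ext ⟨q, n⟩
    · have := congrArg π hrel
      simp only [map_mul] at this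
      simp [θ, sk, ← mul_assoc, this]
    · simp [θ, sk, c, mul_assoc, mul_mem_cancel_left (Subgroup.mem_zpowers _)])
  have hf : ∀ f q n, φ (io f) (q, n) = (π (io f) * q, n) := by
    intro f q n; simp [h1, θ, sk]
  have hT : ∀ e q n, φ (T e) (q, n) = (π (T e) * q, n + c (E e q)) := by
    intro e q n
    cases e
    · simp only [T, E, Bool.false_eq_true, if_false, map_inv, h2]
      rw [← CharTwo.sub_eq_add]
      rfl
    · simp [T, E, h2, sk]
  have hmain : ∀ s u, L = u ++ s → φ (val s) (1, 0) = (π (val s), 0) := by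
    intro s
    induction s with
    | nil => intro u _; simp [val]
    | cons x s ih =>
      obtain ⟨e, f⟩ := x
      intro u hu
      rw [val_cons, map_mul, map_mul, Equiv.Perm.mul_apply, Equiv.Perm.mul_apply,
        ih (u ++ [(e, f)]) (by simp [hu]), hf, hT]
      refine Prod.ext (by simp [mul_assoc]) ?_
      simp only [zero_add, c, ite_eq_right_iff]
      rintro ⟨k, hk⟩
      exfalso
      have hc := congrArg π (conjV k)
      simp only [e0, hu, val_append, val_cons, map_mul, map_zpow, map_inv] at hk hc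
      by_cases he : e1 = e
      · subst he
        apply ha (u ++ [(e1, f)]) s (by simp [hu]) (by simp) (f1⁻¹ * (Hg e1 ^ k)⁻¹ * f)
        rw [val_append, val_cons]
        cases e1
        · simp only [E, T, Hg, Bool.false_eq_true, if_false, map_mul, map_inv, map_zpow, ← hc,
            hk, val, List.map_nil, List.prod_nil, map_one]
          group
        · simp only [E, T, Hg, if_true, map_mul, map_inv, map_zpow,
            hk, val, List.map_nil, List.prod_nil, map_one]
          group
      · have : π (io (Hg e1)) ^ (-k) = π (io f1) * π (val u) := by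
          rw [zpow_neg]
          cases e1 <;> cases e
          · exact absurd rfl he
          · simp only [E, T, Hg, Bool.false_eq_true, if_false, if_true, ← hc, hk]
            group
          · simp only [E, T, Hg, Bool.false_eq_true, if_false, if_true, hk, map_inv]
            group
          · exact absurd rfl he
        by_cases hu0 : u = []
        · subst hu0
          exact hb e f s hu he (-k) (by simpa [val] using this)
        · apply ha u _ hu hu0 (f1⁻¹ * Hg e1 ^ (-k))
          simp only [map_mul, map_inv, map_zpow, this]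
          group
  refine ⟨_, inferInstance, inferInstance, φ, ?_⟩
  rintro _ rfl _ ⟨f, rfl⟩ h
  have h3 := congrArg (fun p : Equiv.Perm (S × ZMod 2) => (p (1, 0)).2) h
  simp only [val_cons, map_mul, Equiv.Perm.mul_apply, hmain L [] rfl, hf, hT] at h3
  simp [c, e0] at h3

theorem sep_red (n : ℕ) : ∀ L : List (Bool × F), L.length ≤ n → Red L → L ≠ [] →
    Sep {(val L, Set.range io)} := by
  induction n with
  | zero => intro w h _ h1; exact absurd (List.length_eq_zero_iff.mp (by omega)) h1
  | succ n ih =>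
    intro L hlen hred hne
    obtain ⟨⟨e1, f1⟩, L, rfl⟩ := List.exists_cons_of_ne_nil hne
    let T1 : Set (G × Set G) := (fun u => (val u, Set.range io)) '' {u | u ∈ L.inits ∧ u ≠ []}
    let T2 : Set (G × Set G) := {x | x = (io f1, Set.range fun k : ℤ => io (Hg e1) ^ k) ∧
      f1 ∉ Subgroup.zpowers (Hg e1)}
    have hT1 : T1.Finite := ((List.finite_toSet L.inits).subset fun v hv => hv.1).image _
    have hT2 : T2.Finite := (Set.finite_singleton _).subset fun v hv => hv.1
    obtain ⟨S, _, _, π, hπ⟩ := Sep.of_finite (hT1.union hT2) (by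
      rintro _ (⟨u, ⟨h1, h2⟩, rfl⟩ | ⟨rfl, h⟩)
      · obtain ⟨s, rfl⟩ := (List.mem_inits _ _).mp h1
        exact ih u (by simp at hlen; omega) (List.isChain_append.mp hred.tail).1 h2
      · exact sep_cyc h)
    refine step π e1 f1 L (fun u s hu h0 f => ?_) (fun e f s hs he k => ?_)
    · exact hπ _ (Or.inl ⟨u, ⟨(List.mem_inits _ _).mpr ⟨s, hu.symm⟩, h0⟩, rfl⟩) _ ⟨f, rfl⟩
    · subst hs
      exact hπ _ (Or.inr ⟨rfl, (List.isChain_cons_cons.mp hred).1 he⟩) _ ⟨k, rfl⟩

lemma sep_free {f : F} (hf : f ≠ 1) :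
    ∃ (S : Type) (_ : Group S) (_ : Finite S) (π : G →* S), π (io f) ≠ 1 := by
  obtain ⟨S, _, _, π, hπ⟩ := sep_cyc (f := f) (h := 1) (by simpa using hf)
  exact ⟨S, inferInstance, inferInstance, π, by simpa using (hπ _ rfl 1 ⟨0, rfl⟩).symm⟩

theorem rf {g : G} (hg : g ≠ 1) :
    ∃ (S : Type) (_ : Group S) (_ : Finite S) (π : G →* S), π g ≠ 1 := by
  obtain ⟨f, L, hL, rfl⟩ := nf g
  by_cases h : L = []
  · subst h
    simp only [val, List.map_nil, List.prod_nil, mul_one] at hg ⊢
    exact sep_free fun h => hg (by rw [h, map_one])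
  · obtain ⟨S, _, _, π, hπ⟩ := sep_red _ L le_rfl hL h
    refine ⟨S, inferInstance, inferInstance, π, fun h1 => hπ _ rfl (io f⁻¹) ⟨_, rfl⟩ ?_⟩
    rw [map_mul, mul_eq_one_iff_inv_eq] at h1
    rw [map_inv, map_inv, h1]

theorem a_ne : io A ≠ 1 := by
  obtain ⟨S, _, _, π, hπ⟩ := sep_free (f := A) (FreeGroup.of_ne_one _)
  exact fun h => hπ (by rw [h, map_one])

theorem a_mem (k : ℕ) : io A ∈ derivedSeries G k := by
  induction k with
  | zero => trivial
  | succ k ih =>
    have h1 : io V ∈ derivedSeries G (k + 1) := by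
      rw [V, vv_map, derivedSeries_succ]
      refine Subgroup.commutator_mem_commutator ih ?_
      simpa [A] using (derivedSeries_normal G k).conj_mem _ ih (io (.of 1))⁻¹
    have := (derivedSeries_normal G (k + 1)).conj_mem _ h1 t
    rwa [← hrel, mul_inv_cancel_right] at this

end Pool.Agent.H19.HNNrf
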