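import Mathlib

set_option autoImplicit false

namespace Pool.Agent.H19.Hairy

open Complex Matrix

noncomputable def pt (p q : ℂ) : Fin 3 → ℝ :=
  ![2 * (p.re * q.re + p.im * q.im) / (normSq p + normSq q),
    2 * (p.im * q.re - p.re * q.im) / (normSq p + normSq q),
    (normSq p - normSq q) / (normSq p + normSq q)]

noncomputable def Ev (p q : ℂ) : Fin 3 → ℂ := ![q ^ 2 - p ^ 2, I * (q ^ 2 + p ^ 2), 2 * p * q]

lemma pt_sq {p q : ℂ} (h : normSq p + normSq q ≠ 0) : ∑ i, pt p q i * pt p q i = 1 := by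
  simp only [pt, Fin.sum_univ_three, cons_val_zero, cons_val_one, cons_val]
  field_simp
  simp only [normSq_apply]
  ring

lemma pt_Ev (p q : ℂ) : ∑ i, (pt p q i : ℂ) * Ev p q i = 0 := by
  have : ((2 * (p.re * q.re + p.im * q.im) : ℝ) : ℂ) * (q ^ 2 - p ^ 2) +
      ((2 * (p.im * q.re - p.re * q.im) : ℝ) : ℂ) * (I * (q ^ 2 + p ^ 2)) +
      ((normSq p - normSq q : ℝ) : ℂ) * (2 * p * q) = 0 := by
    apply Complex.ext <;> simp [normSq_apply, pow_two] <;> ring
  simp only [pt, Ev, Fin.sum_univ_three, cons_val_zero, cons_val_one, cons_val, ofReal_div]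
  linear_combination (((normSq p + normSq q : ℝ) : ℂ))⁻¹ * this

lemma ne_zero {p q : ℂ} (h : normSq p + normSq q ≠ 0) (G H : Matrix (Fin 3) (Fin 3) ℝ)
    (hGH : H * G = 1) (h0 : G 0 = pt p q) : ∑ i, (G 1 i : ℂ) * Ev p q i ≠ 0 := by
  intro h1
  have h2 := pt_Ev p q
  rw [← h0] at h2
  set c := ∑ i, (G 2 i : ℂ) * Ev p q i with hc
  have h3 : ∀ i, Ev p q i = H i 2 * c := by
    intro i
    have e : ∀ j, ((H * G) i j : ℂ) = if i = j then 1 else 0 := fun j => by
      rw [hGH, one_apply]; split_ifs <;> simp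
    have e0 := e 0
    have e1 := e 1
    have e2 := e 2
    simp only [mul_apply, Fin.sum_univ_three, ofReal_add, ofReal_mul] at e0 e1 e2 h1 h2 hc
    rw [hc]
    fin_cases i <;> simp at e0 e1 e2 ⊢
    · linear_combination -(Ev p q 0) * e0 - (Ev p q 1) * e1 - (Ev p q 2) * e2 +
        (H 0 0 : ℂ) * h2 + (H 0 1 : ℂ) * h1
    · linear_combination -(Ev p q 0) * e0 - (Ev p q 1) * e1 - (Ev p q 2) * e2 +
        (H 1 0 : ℂ) * h2 + (H 1 1 : ℂ) * h1
    · linear_combination -(Ev p q 0) * e0 - (Ev p q 1) * e1 - (Ev p q 2) * e2 +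
        (H 2 0 : ℂ) * h2 + (H 2 1 : ℂ) * h1
  have h4 : Ev p q 0 ^ 2 + Ev p q 1 ^ 2 + Ev p q 2 ^ 2 = 0 := by
    simp only [Ev, cons_val_zero, cons_val_one, cons_val]
    linear_combination (q ^ 2 + p ^ 2) ^ 2 * I_sq
  have h5 : ∀ i, Ev p q i = 0 := by
    by_cases hc0 : c = 0
    · intro i; rw [h3, hc0, mul_zero]
    · have h6 : ((H 0 2 ^ 2 + H 1 2 ^ 2 + H 2 2 ^ 2 : ℝ) : ℂ) * c ^ 2 = 0 := by
        rw [h3, h3, h3] at h4
        push_cast
        linear_combination h4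
      have h7 : H 0 2 ^ 2 + H 1 2 ^ 2 + H 2 2 ^ 2 = 0 := by
        exact_mod_cast (mul_eq_zero.mp h6).resolve_right (pow_ne_zero _ hc0)
      have a0 : H 0 2 = 0 := by nlinarith [sq_nonneg (H 0 2), sq_nonneg (H 1 2), sq_nonneg (H 2 2)]
      have a1 : H 1 2 = 0 := by nlinarith [sq_nonneg (H 0 2), sq_nonneg (H 1 2), sq_nonneg (H 2 2)]
      have a2 : H 2 2 = 0 := by nlinarith [sq_nonneg (H 0 2), sq_nonneg (H 1 2), sq_nonneg (H 2 2)]
      intro i
      fin_cases i <;> simp [h3, a0, a1, a2]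
  have b0 := h5 0
  have b1 := h5 1
  simp only [Ev, cons_val_zero, cons_val_one] at b0 b1
  have b2 : q ^ 2 + p ^ 2 = 0 := (mul_eq_zero.mp b1).resolve_left I_ne_zero
  have hp : p = 0 := pow_eq_zero_iff (n := 2) (by norm_num) |>.mp (by linear_combination (b2 - b0) / 2)
  have hq : q = 0 := pow_eq_zero_iff (n := 2) (by norm_num) |>.mp (by linear_combination (b2 + b0) / 2)
  simp [hp, hq] at h

lemma exists_log {g : ℂ → ℂ} (hg : Continuous g) (h0 : ∀ z, g z ≠ 0) :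
    ∃ f : ℂ → ℂ, Continuous f ∧ ∀ z, exp (f z) = g z := by
  obtain ⟨f, ⟨-, hf⟩, -⟩ := isCoveringMapOn_exp.existsUnique_continuousMap_lifts
    (⟨g, hg⟩ : C(ℂ, ℂ)) (a₀ := 0) (exp_log (h0 0)) h0
  exact ⟨f, f.continuous, fun z => congrFun hf z⟩

theorem hairy (v : (Fin 3 → ℝ) → Fin 3 → ℝ) (hv : Continuous v)
    (h : ∀ x : Fin 3 → ℝ, ∑ i, x i * x i = 1 →
      ∃ G H : Matrix (Fin 3) (Fin 3) ℝ, H * G = 1 ∧ G 0 = x ∧ G 1 = v x) : False := by
  have hF : ∀ p q : ℂ, normSq p + normSq q ≠ 0 → ∑ i, (v (pt p q) i : ℂ) * Ev p q i ≠ 0 := by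
    intro p q hpq
    obtain ⟨G, H, h1, h2, h3⟩ := h _ (pt_sq hpq)
    rw [← h3]
    exact ne_zero hpq G H h1 h2
  have n1 : ∀ z : ℂ, normSq z + normSq 1 ≠ 0 := fun z => by
    have := normSq_nonneg z; rw [map_one]; positivity
  have n2 : ∀ z : ℂ, normSq 1 + normSq z ≠ 0 := fun z => by rw [add_comm]; exact n1 z
  have c1 : Continuous fun z : ℂ => pt z 1 := by
    refine continuous_pi fun i => ?_
    fin_cases i <;> exact Continuous.div (by fun_prop) (by fun_prop) n1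
  have c2 : Continuous fun z : ℂ => pt 1 z := by
    refine continuous_pi fun i => ?_
    fin_cases i <;> exact Continuous.div (by fun_prop) (by fun_prop) n2
  obtain ⟨α, hα, hα'⟩ := exists_log (g := fun z => ∑ i, (v (pt z 1) i : ℂ) * Ev z 1 i) (by
    simp only [Fin.sum_univ_three, Ev, cons_val_zero, cons_val_one, cons_val]; fun_prop)
    fun z => hF _ _ (n1 z)
  obtain ⟨β, hβ, hβ'⟩ := exists_log (g := fun z => ∑ i, (v (pt 1 z) i : ℂ) * Ev 1 z i) (by
    simp only [Fin.sum_univ_three, Ev, cons_val_zero, cons_val_one, cons_val]; fun_prop)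
    fun z => hF _ _ (n2 z)
  have key : ∀ θ : ℝ, exp (α (exp (θ * I)) - β (exp (-(θ * I))) - 2 * (θ * I)) = 1 := by
    intro θ
    have e1 : pt (exp (θ * I)) 1 = pt 1 (exp (-(θ * I))) := by
      have e : exp (-(θ * I)) = exp ((-θ : ℝ) * I) := by simp
      have e' : ∀ t : ℝ, normSq (exp (t * I)) = 1 := fun t => by
        rw [normSq_eq_norm_sq, norm_exp_ofReal_mul_I]; simp
      rw [e]
      simp only [pt, e', exp_ofReal_mul_I_re, exp_ofReal_mul_I_im]
      simp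
    have e2 : exp (θ * I) * exp (-(θ * I)) = 1 := by rw [← exp_add]; simp
    rw [exp_sub, exp_sub, div_eq_one_iff_eq (exp_ne_zero _), div_eq_iff (exp_ne_zero _), hα', hβ',
      e1, two_mul, exp_add]
    simp only [Fin.sum_univ_three, Ev, cons_val_zero, cons_val_one, cons_val]
    set z := exp (θ * I)
    set w := exp (-(θ * I))
    linear_combination (-(v (pt 1 w) 0 : ℂ) * (z * w + 1) - (v (pt 1 w) 1 : ℂ) * I * (z * w + 1) -
      (v (pt 1 w) 2 : ℂ) * 2 * z) * e2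
  have := isCoveringMap_exp.const_of_comp
    (g := fun θ : ℝ => α (exp (θ * I)) - β (exp (-(θ * I))) - 2 * (θ * I)) (by fun_prop)
    (fun a b => Subtype.ext (by simp only [key])) 0 (2 * Real.pi)
  have e3 : exp (((2 * Real.pi : ℝ) : ℂ) * I) = 1 := by push_cast; exact exp_two_pi_mul_I
  simp only [exp_neg, e3] at this
  simp at this
  exact two_pi_I_ne_zero (by linear_combination this / 2)

end Pool.Agent.H19.Hairy
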