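import Mathlib
import Pool.Agent.H19.Baum2

set_option autoImplicit false
set_option linter.unusedSectionVars false

namespace Pool.Agent.H19.WeakPara

open scoped commutatorElement
open Pool.Agent.H19.Baum (lcs lcs_map)

universe u

lemma swindle {A B : Type} [AddCommGroup A] [AddCommGroup B] [Module.Free ℤ B]
    (π : A →+ (ℕ →₀ B)) (hπ : Function.Surjective π) : Nonempty (A × B ≃+ A) := by
  obtain ⟨s, hs⟩ := Module.projective_lifting_property π.toIntLinearMap LinearMap.id hπ
  have hs : ∀ y, π (s y) = y := fun y => DFunLike.congr_fun hs y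
  let e : ((ℕ →₀ B) × B) ≃ₗ[ℤ] (ℕ →₀ B) :=
    ((LinearEquiv.refl ℤ _).prodCongr (Finsupp.LinearEquiv.finsuppUnique ℤ B Unit).symm).trans
      ((Finsupp.sumFinsuppLEquivProdFinsupp ℤ).symm.trans
        (Finsupp.domLCongr Equiv.natSumPUnitEquivNat))
  refine ⟨⟨⟨fun p => p.1 - s (π p.1) + s (e (π p.1, p.2)),
    fun a => (a - s (π a) + s (e.symm (π a)).1, (e.symm (π a)).2), ?_, ?_⟩, ?_⟩⟩
  · rintro ⟨a, b⟩
    simp [hs]
  · intro a
    simp [hs]
  · rintro ⟨a, b⟩ ⟨a', b'⟩
    have : e (π a + π a', b + b') = e (π a, b) + e (π a', b') := by rw [← e.map_add]; rfl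
    simp only [Prod.fst_add, Prod.snd_add, map_add, this]
    abel

abbrev L (G : Type) [Group G] (i : ℕ) := lcs G i ⧸ (lcs G (i + 1)).subgroupOf (lcs G i)

section
variable {G H : Type} [Group G] [Group H]

instance (i : ℕ) : CommGroup (L G i) :=
  { (inferInstance : Group (L G i)) with
    mul_comm := by
      rintro ⟨x⟩ ⟨y⟩
      apply QuotientGroup.eq.mpr
      rw [Subgroup.mem_subgroupOf]
      have : (((x * y)⁻¹ * (y * x) : lcs G i) : G) = ⁅(y : G)⁻¹, (x : G)⁻¹⁆ := by
        simp [commutatorElement_def, mul_assoc]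
      rw [this]
      exact Subgroup.commutator_mem_commutator (inv_mem y.2) (Subgroup.mem_top _) }

def lmap (f : G →* H) (i : ℕ) : lcs G i →* lcs H i :=
  (f.comp (lcs G i).subtype).codRestrict _ fun x => lcs_map f i x.2

def Lmap (f : G →* H) (i : ℕ) : L G i →* L H i :=
  QuotientGroup.map _ _ (lmap f i) fun _ hx => lcs_map f (i + 1) hx

lemma Lmap_mk (f : G →* H) (i : ℕ) (x : lcs G i) :
    Lmap f i (QuotientGroup.mk x) = QuotientGroup.mk (lmap f i x) := rfl

lemma L_prod (i : ℕ) : Nonempty (L (G × H) i ≃* L G i × L H i) := by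
  refine ⟨MulEquiv.ofBijective ((Lmap (MonoidHom.fst G H) i).prod (Lmap (MonoidHom.snd G H) i))
    ⟨?_, ?_⟩⟩
  · rw [injective_iff_map_eq_one]
    rintro ⟨x⟩ hx
    have h1 := (QuotientGroup.eq_one_iff _).mp (congrArg Prod.fst hx)
    have h2 := (QuotientGroup.eq_one_iff _).mp (congrArg Prod.snd hx)
    apply (QuotientGroup.eq_one_iff _).mpr
    rw [Subgroup.mem_subgroupOf] at *
    rw [lcs, Subgroup.top_lowerCentralSeries_prod]
    exact ⟨h1, h2⟩
  · rintro ⟨⟨x⟩, ⟨y⟩⟩
    refine ⟨QuotientGroup.mk ⟨(x.1, y.1), ?_⟩, rfl⟩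
    rw [lcs, Subgroup.top_lowerCentralSeries_prod]
    exact ⟨x.2, y.2⟩

lemma L_free (i : ℕ) (φ : lcs G i →* Multiplicative (ℤ × ℤ × ℤ))
    (h : φ.ker = (lcs G (i + 1)).subgroupOf (lcs G i)) : Module.Free ℤ (Additive (L G i)) := by
  let ψ : L G i →* Multiplicative (ℤ × ℤ × ℤ) := QuotientGroup.lift _ φ h.ge
  have hψ : Function.Injective ψ := by
    rw [injective_iff_map_eq_one]
    rintro ⟨x⟩ hx
    exact (QuotientGroup.eq_one_iff _).mpr (h.le hx)
  let χ : Additive (L G i) →ₗ[ℤ] ℤ × ℤ × ℤ := (MonoidHom.toAdditiveLeft ψ).toIntLinearMap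
  have hχ : Function.Injective χ := fun x y hxy => hψ hxy
  have := Module.Finite.of_injective χ hχ
  have := hχ.moduleIsTorsionFree _ (map_smul χ)
  infer_instance

theorem absorb (i : ℕ) (hfree : Module.Free ℤ (Additive (L G i))) :
    Nonempty (L (FreeGroup (ℕ × G) × G) i ≃* L (FreeGroup (ℕ × G)) i) := by
  classical
  let p : ℕ → FreeGroup (ℕ × G) →* G := fun n =>
    FreeGroup.lift fun x => if x.1 = n then x.2 else 1
  have hfin : ∀ w, {n | p n w ≠ 1}.Finite := by
    intro w
    induction w using FreeGroup.induction_on with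
    | C1 => simp
    | of j =>
      refine (Set.finite_singleton j.1).subset fun n hn => ?_
      by_contra h
      exact hn (by simp [p, Ne.symm h])
    | inv_of j h => simpa using h
    | mul x y hx hy =>
      refine (hx.union hy).subset fun n hn => ?_
      by_contra h
      simp only [Set.mem_union, Set.mem_ofPred_eq, not_or, not_not] at h
      exact hn (by rw [map_mul, h.1, h.2, mul_one])
  have hfin' : ∀ x : Additive (L (FreeGroup (ℕ × G)) i),
      (Function.support fun n => Additive.ofMul (Lmap (p n) i x.toMul)).Finite := by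
    rintro ⟨x⟩
    refine (hfin x.1).subset fun n hn h => hn ?_
    have : lmap (p n) i x = 1 := Subtype.ext h
    change Additive.ofMul (QuotientGroup.mk (lmap (p n) i x) : L G i) = 0
    rw [this]
    rfl
  let π : Additive (L (FreeGroup (ℕ × G)) i) →+ (ℕ →₀ Additive (L G i)) :=
    AddMonoidHom.mk' (fun x => Finsupp.ofSupportFinite _ (hfin' x)) (by
      intro x y
      ext n
      simp [Finsupp.ofSupportFinite_coe])
  have hπ : Function.Surjective π := by
    intro y
    change y ∈ π.range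
    induction y using Finsupp.induction_linear with
    | zero => exact zero_mem _
    | add f g hf hg => exact add_mem hf hg
    | single n b =>
      obtain ⟨b⟩ := b
      let j : FreeGroup G →* FreeGroup (ℕ × G) := FreeGroup.map fun g => (n, g)
      let q : FreeGroup G →* G := FreeGroup.lift id
      have hq : Function.Surjective q := fun g => ⟨.of g, by simp [q]⟩
      have hb : b.1 ∈ (lcs (FreeGroup G) i).map q := by
        rw [Subgroup.map_lowerCentralSeries, Subgroup.map_top_of_surjective _ hq]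
        exact b.2
      obtain ⟨w, hw, hwb⟩ := hb
      refine ⟨Additive.ofMul (QuotientGroup.mk (lmap j i ⟨w, hw⟩)), ?_⟩
      ext m
      change (QuotientGroup.mk (lmap (p m) i (lmap j i ⟨w, hw⟩)) : L G i) = _
      by_cases hm : n = m
      · subst hm
        have : (p n).comp j = q := by ext g; simp [p, j, q]
        have h2 : lmap (p n) i (lmap j i ⟨w, hw⟩) = b :=
          Subtype.ext ((DFunLike.congr_fun this w).trans hwb)
        rw [h2, Finsupp.single_eq_same]
        rfl
      · have : (p m).comp j = 1 := by ext g; simp [p, j, hm]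
        have h2 : lmap (p m) i (lmap j i ⟨w, hw⟩) = 1 := Subtype.ext (DFunLike.congr_fun this w)
        rw [h2, Finsupp.single_eq_of_ne (Ne.symm hm)]
        rfl
  obtain ⟨e⟩ := swindle π hπ
  obtain ⟨e'⟩ := L_prod (G := FreeGroup (ℕ × G)) (H := G) i
  refine ⟨e'.trans ⟨⟨fun x => (e (Additive.ofMul x.1, Additive.ofMul x.2)).toMul,
    fun a => ((e.symm (Additive.ofMul a)).1.toMul, (e.symm (Additive.ofMul a)).2.toMul),
    fun x => by simp, fun a => by simp⟩, fun x y => ?_⟩⟩
  simp only [Prod.fst_mul, Prod.snd_mul, ofMul_mul, ← toMul_add, ← map_add, Prod.mk_add_mk]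

lemma free_resNil {ι : Type} {w : FreeGroup ι} (h : ∀ i, w ∈ lcs (FreeGroup ι) i) : w = 1 := by
  classical
  by_contra h1
  have : Fact (Nat.Prime 2) := ⟨Nat.prime_two⟩
  obtain ⟨S, _, _, hS, θ, hθ⟩ := ResP.resP 2 h1
  obtain ⟨n, hn⟩ := Subgroup.nilpotent_iff_lowerCentralSeries.mp hS.isNilpotent
  exact hθ (hn.le (lcs_map θ n (h n)))

theorem nonlinear (t : G) (u v : ℕ → G) (hv : ∀ m, v (m + 1) = t * v m * t⁻¹ * (v m)⁻¹)
    (h1 : ∀ n, ∀ m < n, u n * v m = v m * u n) (h2 : ∀ n, u n * v n ≠ v n * u n)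
    (R : Type u) [CommRing R] (n : ℕ) (ρ : G →* GL (Fin n) R) : ¬ Function.Injective ρ := by
  classical
  intro hρ
  let E : G → Set R := fun g => Set.range fun x : Fin n × Fin n => (ρ g).1 x.1 x.2
  let R0 := Algebra.adjoin ℤ (E t ∪ E t⁻¹ ∪ E (v 0) ∪ E (v 0)⁻¹)
  have hR0 : IsNoetherianRing R0 := by
    apply isNoetherianRing_of_fg
    refine Subalgebra.fg_def.mpr ⟨_, ?_, rfl⟩
    simp only [Set.finite_union, E, Set.finite_range, and_self]
  have hmul : ∀ g h, E g ⊆ R0 → E h ⊆ R0 → E (g * h) ⊆ R0 := by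
    rintro g h hg hh _ ⟨⟨i, j⟩, rfl⟩
    simp only [map_mul, Units.val_mul, Matrix.mul_apply]
    exact Subalgebra.sum_mem _ fun k _ => mul_mem (hg ⟨(i, k), rfl⟩) (hh ⟨(k, j), rfl⟩)
  have ht : E t ⊆ R0 := fun x hx => Algebra.subset_adjoin (by simp [hx])
  have ht' : E t⁻¹ ⊆ R0 := fun x hx => Algebra.subset_adjoin (by simp [hx])
  have hvm : ∀ m, E (v m) ⊆ R0 ∧ E (v m)⁻¹ ⊆ R0 := by
    intro m
    induction m with
    | zero => exact ⟨fun x hx => Algebra.subset_adjoin (by simp [hx]),
        fun x hx => Algebra.subset_adjoin (by simp [hx])⟩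
    | succ m ih =>
      rw [hv]
      refine ⟨hmul _ _ (hmul _ _ (hmul _ _ ht ih.1) ht') ih.2, ?_⟩
      rw [show (t * v m * t⁻¹ * (v m)⁻¹)⁻¹ = v m * t * (v m)⁻¹ * t⁻¹ by group]
      exact hmul _ _ (hmul _ _ (hmul _ _ ih.1 ht) ih.2) ht'
  let V : ℕ → Matrix (Fin n) (Fin n) R0 := fun m i j => ⟨(ρ (v m)).1 i j, (hvm m).1 ⟨(i, j), rfl⟩⟩
  let W : ℕ →o Submodule R0 (Matrix (Fin n) (Fin n) R0) :=
    ⟨fun k => Submodule.span R0 (V '' {m | m < k}), fun k l hkl =>
      Submodule.span_mono (Set.image_mono fun m hm => lt_of_lt_of_le hm hkl)⟩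
  obtain ⟨k, hk⟩ := monotone_stabilizes_iff_noetherian.mpr inferInstance W
  have hmem : V k ∈ W k := by
    rw [hk (k + 1) (by omega)]
    exact Submodule.subset_span ⟨k, by simp, rfl⟩
  have key : ∀ M ∈ W k, (ρ (u k)).1 * M.map R0.val = M.map R0.val * (ρ (u k)).1 := by
    intro M hM
    induction hM using Submodule.span_induction with
    | mem M hM =>
      obtain ⟨m, hm, rfl⟩ := hM
      have := congrArg (fun g => (ρ g).1) (h1 k m hm)
      simp only [map_mul, Units.val_mul] at this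
      exact this
    | zero => simp
    | add M M' _ _ h h' =>
      rw [Matrix.map_add _ (map_add _), mul_add, add_mul, h, h']
    | smul c M _ h =>
      have : (c • M).map R0.val = (c : R) • M.map R0.val := by ext i j; simp
      rw [this, mul_smul_comm, smul_mul_assoc, h]
  apply h2 k
  apply hρ
  apply Units.ext
  simp only [map_mul, Units.val_mul]
  exact key _ hmem

end

end Pool.Agent.H19.WeakPara
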