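import Mathlib
import Pool.Agent.H19.WeakPara

set_option autoImplicit false
set_option linter.unusedSectionVars false

namespace Pool.Agent.H19.WeakPara

open scoped commutatorElement
open Pool.Agent.H19.Baum (lcs lcs_map)
open PowerSeries

abbrev A := PowerSeries ℤ

def T : Set ℕ := Set.range fun k => 2 ^ k

noncomputable def lam : A →+ (T → ℤ) where
  toFun h n := coeff n.1 h
  map_zero' := by ext; simp
  map_add' f g := by ext; simp

lemma lam_apply (h : A) (n : T) : lam h n = coeff n.1 h := rfl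

noncomputable def tu : Aˣ :=
  ⟨1 + X, invOfUnit (1 + X) 1, mul_invOfUnit _ _ (by simp), invOfUnit_mul _ _ (by simp)⟩

noncomputable def tp (k : ℤ) : A := (tu ^ k : Aˣ)

lemma tp_add (k l : ℤ) : tp (k + l) = tp k * tp l := by simp [tp, zpow_add]
@[simp] lemma tp_zero : tp 0 = 1 := by simp [tp]
lemma tp_one : tp 1 = 1 + X := by simp [tp, tu]
lemma tp_neg (k : ℤ) : tp (-k) * tp k = 1 := by rw [← tp_add]; simp

lemma tp_const (k : ℤ) : constantCoeff (tp k) = 1 := by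
  have h : Units.map (constantCoeff (R := ℤ)).toMonoidHom tu = 1 := by
    ext; simp [tu]
  have := congrArg (fun x : ℤˣ => ((x ^ k : ℤˣ) : ℤ)) h
  simp only [← map_zpow, one_zpow] at this
  exact this

lemma X_dvd_tp (k : ℤ) : (X : A) ∣ tp k - 1 := by
  rw [X_dvd_iff]; simp [tp_const]

@[ext] structure N where
  k : ℤ
  f : A
  g : A
  z : T → ℤ

noncomputable instance : Mul N :=
  ⟨fun x y => ⟨x.k + y.k, y.f + x.f * tp y.k, x.g + tp x.k * y.g, x.z + y.z + lam (x.f * y.g)⟩⟩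
noncomputable instance : One N := ⟨⟨0, 0, 0, 0⟩⟩
noncomputable instance : Inv N :=
  ⟨fun x => ⟨-x.k, -(x.f * tp (-x.k)), -(tp (-x.k) * x.g), -x.z + lam (x.f * tp (-x.k) * x.g)⟩⟩

@[simp] lemma mul_k (x y : N) : (x * y).k = x.k + y.k := rfl
@[simp] lemma mul_f (x y : N) : (x * y).f = y.f + x.f * tp y.k := rfl
@[simp] lemma mul_g (x y : N) : (x * y).g = x.g + tp x.k * y.g := rfl
@[simp] lemma mul_z (x y : N) : (x * y).z = x.z + y.z + lam (x.f * y.g) := rfl
@[simp] lemma one_k : (1 : N).k = 0 := rfl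
@[simp] lemma one_f : (1 : N).f = 0 := rfl
@[simp] lemma one_g : (1 : N).g = 0 := rfl
@[simp] lemma one_z : (1 : N).z = 0 := rfl
@[simp] lemma inv_k (x : N) : x⁻¹.k = -x.k := rfl
@[simp] lemma inv_f (x : N) : x⁻¹.f = -(x.f * tp (-x.k)) := rfl
@[simp] lemma inv_g (x : N) : x⁻¹.g = -(tp (-x.k) * x.g) := rfl
@[simp] lemma inv_z (x : N) : x⁻¹.z = -x.z + lam (x.f * tp (-x.k) * x.g) := rfl

noncomputable instance : Group N := Group.ofLeftAxioms
  (fun x y w => by
    ext1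
    · simp [add_assoc]
    · simp only [mul_f, mul_k, tp_add]; ring
    · simp only [mul_g, mul_k, tp_add]; ring
    · simp only [mul_z, mul_f, mul_g, add_mul, mul_add, map_add, mul_assoc]; abel)
  (fun x => by ext1 <;> simp)
  (fun x => by
    ext1
    · simp
    · simp [mul_assoc, tp_neg]
    · simp
    · simp only [mul_z, inv_z, inv_f, one_z, neg_mul, map_neg, mul_assoc]
      rw [mul_left_comm x.f]
      abel)

def Lam (i : ℕ) : Subgroup N where
  carrier := {x | x.k = 0 ∧ X ^ (i + 1) ∣ x.f ∧ X ^ (i + 1) ∣ x.g ∧ ∀ n : T, n.1 < i → x.z n = 0}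
  one_mem' := by simp
  mul_mem' := by
    rintro x y ⟨h1, h2, h3, h4⟩ ⟨k1, k2, k3, k4⟩
    refine ⟨by simp [h1, k1], dvd_add k2 (h2.mul_right _), dvd_add h3 (k3.mul_left _), ?_⟩
    intro n hn
    simp [h4 n hn, k4 n hn, lam_apply, X_pow_dvd_iff.mp (h2.mul_right y.g) n (by omega)]
  inv_mem' := by
    rintro x ⟨h1, h2, h3, h4⟩
    refine ⟨by simp [h1], (h2.mul_right _).neg_right, (h3.mul_left _).neg_right, ?_⟩
    intro n hn
    simp [h4 n hn, lam_apply,
      X_pow_dvd_iff.mp ((h2.mul_right (tp (-x.k))).mul_right x.g) n (by omega)]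

noncomputable def ph0 : N →* Multiplicative (ℤ × ℤ × ℤ) :=
  MonoidHom.mk' (fun x => Multiplicative.ofAdd (x.k, constantCoeff x.f, constantCoeff x.g)) (by
    intro x y
    simp [← ofAdd_add, tp_const, add_comm])

lemma ph0_ker : ph0.ker = Lam 0 := by
  ext x
  simp [MonoidHom.mem_ker, ph0, Lam, X_dvd_iff, Prod.ext_iff]

open Classical in
noncomputable def ph (i : ℕ) : Lam i →* Multiplicative (ℤ × ℤ × ℤ) :=
  MonoidHom.mk' (fun x => Multiplicative.ofAdd (coeff (i + 1) x.1.f, coeff (i + 1) x.1.g,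
    if h : i ∈ T then x.1.z ⟨i, h⟩ else 0)) (by
    rintro ⟨x, h1, h2, h3, h4⟩ ⟨y, k1, k2, k3, k4⟩
    have := X_pow_dvd_iff.mp (h2.mul_right y.g) i (by omega)
    simp only [← ofAdd_add, Subgroup.coe_mul, mul_f, mul_g, mul_z, h1, k1, tp_zero, mul_one,
      one_mul, map_add, Prod.mk_add_mk, add_comm, Pi.add_apply, lam_apply, this]
    split_ifs <;> simp)

lemma ph_ker (i : ℕ) (x : Lam i) : ph i x = 1 ↔ x.1 ∈ Lam (i + 1) := by
  obtain ⟨x, h1, h2, h3, h4⟩ := x
  rw [X_pow_dvd_iff] at h2 h3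
  simp only [ph, MonoidHom.mk'_apply, ofAdd_eq_one, Prod.mk_eq_zero]
  constructor
  · rintro ⟨k1, k2, k3⟩
    refine ⟨h1, X_pow_dvd_iff.mpr fun m hm => ?_, X_pow_dvd_iff.mpr fun m hm => ?_, ?_⟩
    · rcases Nat.lt_succ_iff_lt_or_eq.mp hm with h | rfl
      exacts [h2 m h, k1]
    · rcases Nat.lt_succ_iff_lt_or_eq.mp hm with h | rfl
      exacts [h3 m h, k2]
    · rintro ⟨n, hn⟩ hm
      rcases Nat.lt_succ_iff_lt_or_eq.mp hm with h | rfl
      · exact h4 _ h
      · simpa [hn] using k3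
  · rintro ⟨-, k2, k3, k4⟩
    refine ⟨X_pow_dvd_iff.mp k2 _ (by omega), X_pow_dvd_iff.mp k3 _ (by omega), ?_⟩
    split_ifs with h
    · exact k4 _ (by simp)
    · rfl

lemma comm_eq {x : N} (h1 : x.k = 0) (y : N) : ⁅x, y⁆ =
    ⟨0, x.f * (1 - tp (-y.k)), (1 - tp y.k) * x.g,
      lam (x.f * y.g - y.f * x.g - x.f * (1 - tp (-y.k)) * (y.g + tp y.k * x.g))⟩ := by
  rw [commutatorElement_def, mul_inv_eq_iff_eq_mul, mul_inv_eq_iff_eq_mul]
  have h5 := tp_neg y.k
  ext1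
  · simp [h1]
  · simp only [mul_f, h1, tp_zero]
    linear_combination x.f * h5
  · simp only [mul_g, mul_k, h1, tp_zero, zero_add]
    ring
  · simp only [mul_z, mul_f]
    have : x.f * y.g = (x.f * y.g - y.f * x.g - x.f * (1 - tp (-y.k)) * (y.g + tp y.k * x.g)) +
      x.f * (1 - tp (-y.k)) * y.g + (y.f + x.f * (1 - tp (-y.k)) * tp y.k) * x.g := by ring
    conv_lhs => rw [this, map_add, map_add]
    abel

lemma comm_mem {i : ℕ} {x : N} (hx : x ∈ Lam i) (y : N) : ⁅x, y⁆ ∈ Lam (i + 1) := by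
  obtain ⟨h1, h2, h3, h4⟩ := hx
  rw [comm_eq h1]
  refine ⟨rfl, ?_, ?_, fun n hn => ?_⟩
  · rw [pow_succ]
    exact mul_dvd_mul h2 (dvd_sub_comm.mp (X_dvd_tp _))
  · rw [pow_succ']
    exact mul_dvd_mul (dvd_sub_comm.mp (X_dvd_tp _)) h3
  · exact X_pow_dvd_iff.mp (dvd_sub (dvd_sub (h2.mul_right _) (h3.mul_left _))
      ((h2.mul_right _).mul_right _)) n hn

def ea (h : A) : N := ⟨0, h, 0, 0⟩
def eb (h : A) : N := ⟨0, 0, h, 0⟩
def ec (z : T → ℤ) : N := ⟨0, 0, 0, z⟩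
def tau : N := ⟨1, 0, 0, 0⟩

lemma comm_a (h : A) : ⁅ea (h * tp 1), tau⁆ = ea (X * h) := by
  rw [comm_eq rfl]
  have := tp_neg 1
  have h2 := tp_one
  ext1
  · rfl
  · simp only [ea, tau]
    linear_combination (-h) * this + h * h2
  · simp [ea]
  · simp [ea, tau]

lemma comm_b (h : A) : ⁅eb (-h), tau⁆ = eb (X * h) := by
  rw [comm_eq rfl]
  ext1 <;> simp [eb, tau, tp_one]

lemma comm_c (f g : A) : ⁅ea f, eb g⁆ = ec (lam (f * g)) := by
  rw [comm_eq rfl]
  ext1 <;> simp [ea, eb, ec]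

lemma Lam_le (i : ℕ) (S : Subgroup N) (hS : ∀ h, X ^ i ∣ h → ea h ∈ S ∧ eb h ∈ S) :
    Lam i ≤ ⁅S, ⊤⁆ := by
  classical
  rintro x ⟨h1, ⟨f, h2⟩, ⟨g, h3⟩, h4⟩
  have hx : x = ea x.f * eb x.g * ec (x.z - lam (x.f * x.g)) := by
    ext1 <;> simp [ea, eb, ec, h1]
  rw [hx]
  refine mul_mem (mul_mem ?_ ?_) ?_
  · rw [h2, pow_succ', mul_assoc, ← comm_a]
    exact Subgroup.commutator_mem_commutator
      (hS _ ((dvd_mul_right _ _).mul_right _)).1 (Subgroup.mem_top _)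
  · rw [h3, pow_succ', mul_assoc, ← comm_b]
    exact Subgroup.commutator_mem_commutator
      (hS _ (dvd_mul_right _ _).neg_right).2 (Subgroup.mem_top _)
  · let h : A := PowerSeries.mk fun n => if hn : n ∈ T then (x.z - lam (x.f * x.g)) ⟨n, hn⟩ else 0
    have e : x.z - lam (x.f * x.g) = lam (h * 1) := by
      ext n
      simp [h, lam_apply]
    rw [e, ← comm_c]
    refine Subgroup.commutator_mem_commutator (hS _ (X_pow_dvd_iff.mpr fun m hm => ?_)).1
      (Subgroup.mem_top _)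
    simp only [h, coeff_mk]
    split_ifs with hm'
    · have : X ^ (i + 1) ∣ x.f * x.g := Dvd.dvd.mul_right ⟨f, h2⟩ _
      simp [h4 ⟨m, hm'⟩ hm, lam_apply, X_pow_dvd_iff.mp this m (by omega)]
    · rfl

theorem lcs_eq (i : ℕ) : lcs N (i + 1) = Lam i := by
  induction i with
  | zero =>
    apply le_antisymm
    · rw [← ph0_ker]
      exact Abelianization.commutator_subset_ker ph0
    · exact Lam_le 0 ⊤ fun _ _ => ⟨trivial, trivial⟩
  | succ i ih =>
    change ⁅lcs N (i + 1), ⊤⁆ = _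
    rw [ih]
    apply le_antisymm
    · rw [Subgroup.commutator_le]
      exact fun x hx y _ => comm_mem hx y
    · exact Lam_le (i + 1) _ fun h hh => ⟨⟨rfl, hh, dvd_zero _, fun _ _ => rfl⟩,
        ⟨rfl, dvd_zero _, hh, fun _ _ => rfl⟩⟩

theorem N_free (i : ℕ) : Module.Free ℤ (Additive (L N i)) := by
  cases i with
  | zero =>
    apply L_free 0 (ph0.comp (lcs N 0).subtype)
    ext x
    rw [Subgroup.mem_subgroupOf, lcs_eq, ← ph0_ker]
    rfl
  | succ i =>
    apply L_free (i + 1) ((ph i).comp (Subgroup.inclusion (lcs_eq i).le))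
    ext x
    rw [Subgroup.mem_subgroupOf, lcs_eq (i + 1), MonoidHom.mem_ker, MonoidHom.comp_apply, ph_ker]
    rfl

theorem N_resNil {x : N} (h : ∀ i, x ∈ lcs N i) : x = 1 := by
  have h' : ∀ i, x ∈ Lam i := fun i => lcs_eq i ▸ h (i + 1)
  ext1
  · exact (h' 0).1
  · ext m
    exact X_pow_dvd_iff.mp (h' m).2.1 m (by omega)
  · ext m
    exact X_pow_dvd_iff.mp (h' m).2.2.1 m (by omega)
  · ext n
    exact (h' (n + 1)).2.2.2 n (by omega)

lemma comm_iff (i j : ℕ) : ea (X ^ i) * eb (X ^ j) = eb (X ^ j) * ea (X ^ i) ↔ i + j ∉ T := by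
  rw [← commutatorElement_eq_one_iff_mul_comm, comm_c, ← pow_add]
  constructor
  · intro h hT
    have := congrFun (congrArg N.z h) ⟨_, hT⟩
    simp [ec, lam_apply] at this
  · intro h
    ext1
    · rfl
    · rfl
    · rfl
    · ext n
      have : n.1 ≠ i + j := fun e => h (e ▸ n.2)
      simp [ec, lam_apply, coeff_X_pow, this]

universe u

theorem G_nonlinear {F : Type} [Group F] (R : Type u) [CommRing R] (n : ℕ)
    (ρ : F × N →* GL (Fin n) R) : ¬ Function.Injective ρ := by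
  intro hρ
  refine nonlinear tau (fun n => ea (X ^ (2 ^ (n + 1) - n))) (fun m => eb (X ^ m)) ?_ ?_ ?_ R n
    (ρ.comp (MonoidHom.inr F N)) (hρ.comp fun x y h => congrArg Prod.snd h)
  · intro m
    rw [_root_.eq_mul_inv_iff_mul_eq, _root_.eq_mul_inv_iff_mul_eq]
    ext1 <;> simp [eb, tau, tp_one, pow_succ]
    ring
  · intro n m hm
    rw [comm_iff]
    rintro ⟨k, hk⟩
    have h1 : n < 2 ^ n := Nat.lt_two_pow_self
    have h2 : 2 ^ (n + 1) = 2 * 2 ^ n := by ring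
    have h3 : 2 ^ n < 2 ^ k := by simp only at hk; omega
    have h4 : 2 ^ k < 2 ^ (n + 1) := by simp only at hk; omega
    rw [Nat.pow_lt_pow_iff_right (by norm_num)] at h3 h4
    omega
  · intro n
    rw [Ne, comm_iff, not_not]
    have h1 : n < 2 ^ n := Nat.lt_two_pow_self
    have h2 : 2 ^ (n + 1) = 2 * 2 ^ n := by ring
    exact ⟨n + 1, by simp only; omega⟩

end Pool.Agent.H19.WeakPara
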