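import Mathlib

set_option autoImplicit false

namespace Pool.Agent.H19.IntK

open Polynomial TensorProduct

variable (D K A : Type*) [CommRing D] [Field K] [Algebra D K] [Ring A] [Algebra D A]

/-- `Int_K(A)`: the polynomials over `K` mapping `A` into `A`, inside `B = K ⊗_D A`. -/
noncomputable def IntK : Subring K[X] where
  carrier := {f | ∀ a : A, ∃ a' : A, aeval ((1 : K) ⊗ₜ[D] a) f = (1 : K) ⊗ₜ[D] a'}
  mul_mem' hf hg a := by
    obtain ⟨x, hx⟩ := hf a
    obtain ⟨y, hy⟩ := hg a
    exact ⟨x * y, by simp [hx, hy]⟩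
  one_mem' _ := ⟨1, by simp [Algebra.TensorProduct.one_def]⟩
  add_mem' hf hg a := by
    obtain ⟨x, hx⟩ := hf a
    obtain ⟨y, hy⟩ := hg a
    exact ⟨x + y, by simp [hx, hy, tmul_add]⟩
  zero_mem' _ := ⟨0, by simp⟩
  neg_mem' hf a := by
    obtain ⟨x, hx⟩ := hf a
    exact ⟨-x, by simp [hx, tmul_neg]⟩

/-- `Int_K(A, A')`: the polynomials over `K` mapping `A` to elements of `B` integral over `D`. -/
def IntK' : Set K[X] := {f | ∀ a : A, IsIntegral D (aeval ((1 : K) ⊗ₜ[D] a) f)}

variable {D K A}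

/-- the universal denominator -/
noncomputable def psi (m : ℕ) : ℤ[X] := ∏ i : Fin m, ∏ j ∈ Finset.Ioi i, (X ^ (j : ℕ) - X ^ (i : ℕ))

lemma psi_monic (m : ℕ) : (psi m).Monic :=
  monic_prod_of_monic _ _ fun i _ => monic_prod_of_monic _ _ fun j hj =>
    (monic_X_pow _).sub_of_left (by simpa using hj)

lemma den (f : K[X]) (v : Fin (f.natDegree + 1) → D)
    (h : ∀ x : D, ∃ y : D, f.eval (algebraMap D K x) = algebraMap D K y) :
    (Matrix.vandermonde v).det • f ∈ lifts (algebraMap D K) := by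
  choose w hw using h
  rw [lifts_iff_coeff_lifts]
  intro n
  rcases lt_or_ge f.natDegree n with hn | hn
  · exact ⟨0, by simp [coeff_eq_zero_of_natDegree_lt hn]⟩
  have h1 : ((Matrix.vandermonde v).map (algebraMap D K)).mulVec (fun j => f.coeff j) =
      fun i => algebraMap D K (w (v i)) := by
    ext i
    rw [← hw, eval_eq_sum_range, Finset.sum_range]
    simp [Matrix.mulVec, dotProduct, mul_comm]
  have h2 := congrFun (congrArg ((Matrix.vandermonde v).adjugate.map (algebraMap D K)).mulVec h1)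
    ⟨n, by omega⟩
  rw [Matrix.mulVec_mulVec, ← Matrix.map_mul, Matrix.adjugate_mul] at h2
  refine ⟨(Matrix.vandermonde v).adjugate.mulVec (fun i => w (v i)) ⟨n, by omega⟩, ?_⟩
  rw [RingHom.map_mulVec]
  refine h2.symm.trans ?_
  simp [Matrix.mulVec, dotProduct, Matrix.one_apply, Algebra.smul_def (R := D) (A := K), apply_ite]

lemma den_psi (f : K[X]) (h : ∀ x : D, ∃ y : D, f.eval (algebraMap D K x) = algebraMap D K y)
    (x : D) : aeval x (psi (f.natDegree + 1)) • f ∈ lifts (algebraMap D K) := by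
  convert den f (fun i => x ^ (i : ℕ)) h
  simp [Matrix.det_vandermonde, psi, map_prod]

variable [IsDomain D] [IsIntegrallyClosed D] [IsFractionRing D K]

omit [IsIntegrallyClosed D] in
lemma inj [Module.IsTorsionFree D A] {a a' : A} (h : (1 : K) ⊗ₜ[D] a = (1 : K) ⊗ₜ[D] a') :
    a = a' := by
  obtain ⟨c, hc⟩ := (IsLocalizedModule.eq_zero_iff (nonZeroDivisors D)
    (TensorProduct.mk D K A 1) (m := a - a')).mp (by simp [tmul_sub, h])
  exact sub_eq_zero.mp ((smul_eq_zero.mp hc).resolve_left (nonZeroDivisors.coe_ne_zero c))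

lemma val_mem [FaithfulSMul D A] [Module.IsTorsionFree D A] {f : K[X]} (hf : f ∈ IntK' D K A)
    (x : D) : ∃ y : D, f.eval (algebraMap D K x) = algebraMap D K y := by
  have h := hf (algebraMap D A x)
  have : Nontrivial A := (FaithfulSMul.algebraMap_injective D A).nontrivial
  have : Nontrivial (K ⊗[D] A) := ⟨_, _, fun h => one_ne_zero (inj (K := K) (D := D) (A := A) h)⟩
  rw [show (1 : K) ⊗ₜ[D] algebraMap D A x = algebraMap K _ (algebraMap D K x) by
    rw [← IsScalarTower.algebraMap_apply, Algebra.TensorProduct.algebraMap_apply']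
    , aeval_algebraMap_apply_eq_algebraMap_eval] at h
  obtain ⟨y, hy⟩ := IsIntegrallyClosed.isIntegral_iff.mp ((isIntegral_algHom_iff
    (IsScalarTower.toAlgHom D K (K ⊗[D] A)) (algebraMap K _).injective).mp h)
  exact ⟨y, hy.symm⟩

lemma exists_monic {B : Type*} [Ring B] [Algebra K B] [Algebra D B] [IsScalarTower D K B]
    [Module.Finite K B] {b : B} (hb : IsIntegral D b) :
    ∃ p : D[X], p.Monic ∧ p.natDegree = Module.finrank K B ∧ aeval b p = 0 := by
  obtain ⟨p, hp, h⟩ := hb
  have h0 := minpoly.monic (IsIntegral.of_finite K b)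
  obtain ⟨q, hq⟩ := IsIntegrallyClosed.eq_map_mul_C_of_dvd K hp (minpoly.dvd K b (by
    rw [aeval_map_algebraMap]; exact h))
  rw [h0.leadingCoeff, C_1, mul_one] at hq
  have hi := IsFractionRing.injective D K
  have h1 : q.Monic := monic_of_injective hi (hq ▸ h0)
  have h2 : q.natDegree ≤ Module.finrank K B := by
    rw [← natDegree_map_eq_of_injective hi, hq]; exact minpoly.natDegree_le b
  refine ⟨q * X ^ (Module.finrank K B - q.natDegree), h1.mul (monic_X_pow _), ?_, ?_⟩
  · rw [h1.natDegree_mul (monic_X_pow _), natDegree_X_pow]; omega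
  · rw [map_mul, ← aeval_map_algebraMap K, hq, minpoly.aeval, zero_mul]

lemma integral_of_rel {R E : Type*} [CommRing R] [CommRing E] [Algebra R E] (y : E) (n : ℕ)
    (c : ℕ → E) (hc : ∀ i, IsIntegral R (c i))
    (h : y ^ n + ∑ i ∈ Finset.range n, c i * y ^ i = 0) : IsIntegral R y := by
  refine isIntegral_trans (A := integralClosure R E) y ⟨X ^ n + ∑ i : Fin n,
    C (⟨c i, hc i⟩ : integralClosure R E) * X ^ (i : ℕ), monic_X_pow_add (degree_sum_fin_lt _), ?_⟩
  rw [Finset.sum_range] at h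
  simpa [eval₂_finset_sum] using h

lemma exists_poly [FaithfulSMul D A] [Module.IsTorsionFree D A] [Module.Finite D A] {f : K[X]}
    (hf : f ∈ IntK' D K A) : ∃ h : ℤ[X], h.Monic ∧ 0 < h.natDegree ∧ aeval f h ∈ IntK D K A := by
  choose p hp hn h0 using fun a => exists_monic (K := K) (hf a)
  set n := Module.finrank K (K ⊗[D] A)
  let J : Ideal D :=
    { carrier := {c | c • f ∈ lifts (algebraMap D K)}
      add_mem' := fun h h' => by simpa [add_smul] using add_mem h h'
      zero_mem' := by simp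
      smul_mem' := fun c d h => by simpa [mul_smul] using smul_mem_lifts c h }
  let I : Ideal (A → D[X]) := Ideal.pi fun a => J.map C ⊔ Ideal.span {p a}
  have ev : ∀ (z : A → D[X]) (q : ℤ[X]), aeval (Ideal.Quotient.mk I z) q = 0 ↔
      ∀ a, aeval (z a) q ∈ J.map C ⊔ Ideal.span {p a} := fun z q => by
    rw [show aeval (Ideal.Quotient.mk I z) q = Ideal.Quotient.mk I (aeval z q) from
      aeval_algHom_apply (Ideal.Quotient.mk I).toIntAlgHom z q, Ideal.Quotient.eq_zero_iff_mem,
      Ideal.mem_pi]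
    exact forall_congr' fun a => by
      rw [show aeval (z a) q = aeval z q a from
        aeval_algHom_apply (Pi.evalRingHom (fun _ => D[X]) a).toIntAlgHom z q]
  obtain ⟨q, hq, h1⟩ := integral_of_rel (R := ℤ) (Ideal.Quotient.mk I fun _ => X) n
    (fun i => Ideal.Quotient.mk I fun a => C ((p a).coeff i)) (fun i =>
      ⟨_, psi_monic (f.natDegree + 1), (ev _ _).mpr fun a => Ideal.mem_sup_left (by
        rw [show aeval (C ((p a).coeff i)) (psi _) = C (aeval ((p a).coeff i) (psi _)) from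
          aeval_algHom_apply (C : D →+* D[X]).toIntAlgHom _ _]
        exact Ideal.mem_map_of_mem _ (den_psi f (val_mem hf) _))⟩) (by
      simp only [← map_pow, ← map_mul, ← map_sum, ← map_add, Ideal.Quotient.eq_zero_iff_mem]
      refine (Ideal.mem_pi _ _).mpr fun a => Ideal.mem_sup_right (Ideal.mem_span_singleton.mpr ?_)
      simpa [hn] using dvd_of_eq (hp a).as_sum)
  obtain ⟨q, hq, hd, h1⟩ : ∃ q : ℤ[X], q.Monic ∧ 0 < q.natDegree ∧
      aeval (Ideal.Quotient.mk I fun _ => X) q = 0 :=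
    ⟨q * X, hq.mul monic_X, by simp [hq.natDegree_mul monic_X], by
      rw [map_mul, aeval_def, h1, zero_mul]⟩
  refine ⟨q ^ (n + 1), hq.pow _, by rw [natDegree_pow]; positivity, fun a => ?_⟩
  set b := aeval ((1 : K) ⊗ₜ[D] a) f with hb
  let S := (Algebra.TensorProduct.includeRight : A →ₐ[D] K ⊗[D] A).range
  have h2 : ∀ j, ∀ c ∈ J ^ j, c • b ^ j ∈ S := fun j => by
    induction j with
    | zero => exact fun c _ => S.smul_mem (by simp) c
    | succ j ih =>
      intro c hc
      rw [pow_succ] at hc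
      refine Submodule.mul_induction_on hc (fun c hc d ⟨g, hg⟩ => ?_) fun c d hc hd => by
        simpa [add_smul] using add_mem hc hd
      rw [pow_succ, ← smul_mul_smul_comm]
      refine mul_mem (ih c hc) ⟨aeval a g, ?_⟩
      rw [hb, ← LinearMapClass.map_smul_of_tower, ← hg, coe_mapRingHom, aeval_map_algebraMap]
      exact (aeval_algHom_apply (Algebra.TensorProduct.includeRight : A →ₐ[D] K ⊗[D] A) a g).symm
  have h3 : ∀ (g : D[X]), ∀ c ∈ J ^ (n + 1), c • aeval b g ∈ S := fun g c hc => by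
    rw [← aeval_modByMonic_eq_self_of_root (h0 a), aeval_eq_sum_range, Finset.smul_sum]
    refine sum_mem fun j hj => ?_
    rw [smul_comm]
    refine S.smul_mem (h2 j c (Ideal.pow_le_pow_right ?_ hc)) _
    have := natDegree_modByMonic_le g (hp a)
    have := Finset.mem_range.mp hj
    have := hn a
    omega
  obtain ⟨r, hr, s, hs, h4⟩ := Submodule.mem_sup.mp ((ev _ _).mp h1 a)
  obtain ⟨t, rfl⟩ := Ideal.mem_span_singleton'.mp hs
  have h5 := Ideal.pow_mem_pow hr (n + 1)
  rw [← Ideal.map_pow, Ideal.mem_map_C_iff] at h5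
  have h6 : aeval b (r ^ (n + 1)) ∈ S := by
    rw [aeval_eq_sum_range]
    exact sum_mem fun j _ => by simpa using h3 (X ^ j) _ (h5 j)
  obtain ⟨a', ha'⟩ := h6
  refine ⟨a', Eq.trans ?_ ha'.symm⟩
  have h7 := congrArg (aeval b) h4
  rw [map_add, map_mul, h0, mul_zero, add_zero] at h7
  rw [map_pow, map_pow, map_pow, h7]
  congr 1
  refine (aeval_algHom_apply (aeval ((1 : K) ⊗ₜ[D] a) : K[X] →ₐ[K] _).toRingHom.toIntAlgHom
    f q).symm.trans (Eq.trans ?_
      (aeval_algHom_apply (aeval b : D[X] →ₐ[D] _).toRingHom.toIntAlgHom X q))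
  simp [hb]

omit [IsDomain D] [IsIntegrallyClosed D] [IsFractionRing D K] in
lemma mem_of_integral [Module.Finite D A] {f : K[X]} (hf : IsIntegral (IntK D K A) f) :
    f ∈ IntK' D K A := fun a => by
  obtain ⟨p, hp, h⟩ := hf
  let φ := (aeval ((1 : K) ⊗ₜ[D] a) : K[X] →ₐ[K] K ⊗[D] A).restrictScalars D
  have key : ∀ g : K[X], IsIntegral D (Ideal.Quotient.mk (RingHom.ker φ) g) ↔ IsIntegral D (φ g) :=
    fun g => (isIntegral_algHom_iff (Ideal.kerLiftAlg φ) (Ideal.kerLiftAlg_injective φ)).symm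
  refine (key f).mp (integral_of_rel _ p.natDegree (fun i => Ideal.Quotient.mk _ (p.coeff i).1)
    (fun i => (key _).mpr ?_) ?_)
  · obtain ⟨a', ha'⟩ := (p.coeff i).2 a
    exact ha' ▸ (IsIntegral.of_finite D a').map
      (Algebra.TensorProduct.includeRight : A →ₐ[D] K ⊗[D] A)
  · rw [hp.as_sum] at h
    have := congrArg (Ideal.Quotient.mk (RingHom.ker φ)) h
    simp only [eval₂_finset_sum, eval₂_add, eval₂_mul, eval₂_C, eval₂_X_pow, map_add, map_sum,
      map_mul, map_pow, map_zero] at this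
    exact this

lemma integral_of_mem [FaithfulSMul D A] [Module.IsTorsionFree D A] [Module.Finite D A] {f : K[X]}
    (hf : f ∈ IntK' D K A) : IsIntegral (IntK D K A) f := by
  obtain ⟨h, hm, h0, h1⟩ := exists_poly hf
  refine ⟨h.map (Int.castRingHom _) - C ⟨_, h1⟩, (hm.map _).sub_of_left ?_, ?_⟩
  · rw [hm.degree_map]
    exact degree_C_le.trans_lt (natDegree_pos_iff_degree_pos.mp h0)
  · rw [eval₂_sub, eval₂_C, eval₂_map, sub_eq_zero]
    exact congrArg (fun g => eval₂ g f h) (RingHom.ext_int _ (algebraMap ℤ K[X]))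

end Pool.Agent.H19.IntK
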