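import Pool.Agent.H19.IntK

set_option autoImplicit false

namespace Pool.Agent.H19.IntK

open Polynomial TensorProduct

section
variable {D K A : Type*} [CommRing D] [Field K] [Algebra D K] [Ring A] [Algebra D A]

lemma map_mem (g : D[X]) : g.map (algebraMap D K) ∈ IntK D K A := fun a =>
  ⟨aeval a g, by
    rw [aeval_map_algebraMap]
    exact aeval_algHom_apply (Algebra.TensorProduct.includeRight : A →ₐ[D] K ⊗[D] A) a g⟩

lemma le_IntK' [Module.Finite D A] {f : K[X]} (hf : f ∈ IntK D K A) : f ∈ IntK' D K A :=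
  mem_of_integral (isIntegral_algebraMap (x := (⟨f, hf⟩ : IntK D K A)))

lemma mem_lifts [IsDomain D] [IsIntegrallyClosed D] [IsFractionRing D K] [Algebra ℚ D]
    [FaithfulSMul D A] [Module.IsTorsionFree D A] {f : K[X]} (hf : f ∈ IntK' D K A) :
    f ∈ lifts (algebraMap D K) := by
  have h := den f (fun i => algebraMap ℚ D (i : ℕ)) (val_mem hf)
  have h1 : (Matrix.vandermonde fun i : Fin (f.natDegree + 1) => ((i : ℕ) : ℚ)).det ≠ 0 :=
    Matrix.det_vandermonde_ne_zero_iff.mpr fun i j h => Fin.ext (Nat.cast_injective h)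
  obtain ⟨u, hu⟩ := ((Ne.isUnit h1).map (algebraMap ℚ D)).exists_left_inv
  have h2 := smul_mem_lifts u h
  simp only [Matrix.det_vandermonde, map_prod, map_sub] at hu h2
  rwa [smul_smul, hu, one_smul] at h2

end

/-- the algebra `ℚ[t][s]/(s² - t³)` -/
abbrev Cusp := QuadraticAlgebra ℚ[X] (X ^ 3) 0

instance : FaithfulSMul ℚ[X] Cusp :=
  (faithfulSMul_iff_algebraMap_injective _ _).mpr QuadraticAlgebra.algebraMap_injective

/-- the element `s / t` -/
noncomputable def beta : RatFunc ℚ ⊗[ℚ[X]] Cusp := (RatFunc.X⁻¹ : RatFunc ℚ) ⊗ₜ ⟨0, 1⟩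

lemma beta_smul : (X : ℚ[X]) • beta = 1 ⊗ₜ ⟨0, 1⟩ := by
  rw [beta, smul_tmul', Algebra.smul_def, RatFunc.algebraMap_X, mul_inv_cancel₀ RatFunc.X_ne_zero]

lemma beta_sq : beta ^ 2 = algebraMap ℚ[X] _ X := by
  rw [beta, Algebra.TensorProduct.tmul_pow, show (⟨0, 1⟩ : Cusp) ^ 2 = (X ^ 3 : ℚ[X]) • 1 by
    ext1 <;> simp [sq, QuadraticAlgebra.re_one, QuadraticAlgebra.im_one], ← smul_tmul, Algebra.smul_def, Algebra.TensorProduct.algebraMap_apply]
  have := RatFunc.X_ne_zero (K := ℚ)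
  congr 1
  simp only [map_pow, RatFunc.algebraMap_X]
  field_simp

lemma beta_int : IsIntegral ℚ[X] beta :=
  IsIntegral.of_pow two_pos (beta_sq ▸ isIntegral_algebraMap)

end Pool.Agent.H19.IntK
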