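import Mathlib
import Pool.Agent.H19.Real

set_option autoImplicit false
set_option linter.unusedSectionVars false
set_option linter.unusedVariables false

namespace Pool.Agent.H19.Kry

open Polynomial Pool.Agent.H19.Real

lemma schur (h : ℤ[X]) (hh : 0 < h.natDegree) (N : ℕ) :
    ∃ p : ℕ, p.Prime ∧ N < p ∧ ∃ a : ℤ, (p : ℤ) ∣ h.eval a := by
  by_cases hc : h.eval 0 = 0
  · obtain ⟨p, h1, h2⟩ := Nat.exists_infinite_primes (N + 1)
    exact ⟨p, h2, h1, 0, by simp [hc]⟩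
  have h0 : h ^ 2 - C (h.eval 0 ^ 2) ≠ 0 := by
    intro h1
    have := congrArg natDegree (sub_eq_zero.mp h1)
    rw [natDegree_pow, natDegree_C] at this
    omega
  obtain ⟨k, hk⟩ := ((finite_setOfPred_isRoot h0).preimage (f := (h.eval 0 * N.factorial * ·))
    (mul_right_injective₀ (mul_ne_zero hc (by exact_mod_cast N.factorial_ne_zero))).injOn
    ).exists_notMem
  obtain ⟨m, hm⟩ := sub_dvd_eval_sub (h.eval 0 * N.factorial * k) 0 h
  have h1 : h.eval (h.eval 0 * N.factorial * k) = h.eval 0 * (1 + N.factorial * (k * m)) := by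
    linear_combination hm
  have h2 : (1 + N.factorial * (k * m)).natAbs ≠ 1 := by
    intro h2
    apply hk
    simp only [Set.mem_preimage, Set.mem_setOf_eq, IsRoot, eval_sub, eval_pow, eval_C, h1]
    rw [mul_pow, ← Int.natAbs_sq (1 + _), h2]
    simp
  obtain ⟨p, hp, h3⟩ := Nat.exists_prime_and_dvd h2
  rw [← Int.natCast_dvd] at h3
  refine ⟨p, hp, ?_, _, h1 ▸ h3.mul_left _⟩
  by_contra h4
  have h5 : (p : ℤ) ∣ N.factorial := by exact_mod_cast hp.dvd_factorial.mpr (by omega)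
  exact hp.not_dvd_one (by exact_mod_cast (dvd_add_left (h5.mul_right _)).mp h3)

lemma ex_res : ∃ a : ℕ → ℤ, ∀ h : ℤ[X], 0 < h.natDegree → ∀ N : ℕ,
    ∃ p : ℕ, p.Prime ∧ N < p ∧ (p : ℤ) ∣ h.eval (a p) := by
  have : Nonempty {h : ℤ[X] // 0 < h.natDegree} := ⟨⟨X, by simp⟩⟩
  have : Countable ℤ[X] := Cardinal.mk_le_aleph0_iff.mp (by simp)
  obtain ⟨e, he⟩ := exists_surjective_nat ({h : ℤ[X] // 0 < h.natDegree} × ℕ)
  choose P h1 h2 A h3 using schur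
  let Q : ℕ → ℕ := fun n => Nat.rec 0 (fun n q => P _ (e n).1.2 (q + (e n).2)) n
  have hQ : StrictMono fun n => Q (n + 1) := strictMono_nat_of_lt_succ fun n =>
    lt_of_le_of_lt (Nat.le_add_right _ _) (h2 _ (e (n + 1)).1.2 (Q (n + 1) + (e (n + 1)).2))
  refine ⟨Function.extend (fun n => Q (n + 1)) (fun n => A _ (e n).1.2 (Q n + (e n).2)) 0,
    fun h hh N => ?_⟩
  obtain ⟨n, hn⟩ := he (⟨h, hh⟩, N)
  refine ⟨Q (n + 1), h1 _ _ _, ?_, ?_⟩
  · have := h2 _ (e n).1.2 (Q n + (e n).2)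
    rw [hn] at this
    exact lt_of_le_of_lt (Nat.le_add_left _ _) (by simpa [Q, hn] using this)
  · rw [hQ.injective.extend_apply]
    have := h3 _ (e n).1.2 (Q n + (e n).2)
    rwa [show h = (e n).1.1 by rw [hn]]

noncomputable def res : ℕ → ℤ := ex_res.choose

lemma ex_pi (p : ℕ) [Fact p.Prime] : ∃ x : ℚ_[p], Transcendental ℚ x ∧ ‖x - res p‖ < 1 := by
  obtain ⟨x, h1, h2⟩ := ((Algebraic.countable ℚ ℚ_[p]).dense_compl ℚ_[p]).exists_mem_open
    Metric.isOpen_ball (Metric.nonempty_ball (x := (res p : ℚ_[p])).mpr one_pos)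
  exact ⟨x, h1, mem_ball_iff_norm.mp h2⟩

noncomputable def pp (p : ℕ) [Fact p.Prime] : ℚ_[p] := (ex_pi p).choose

section
variable (p : ℕ) [hp : Fact p.Prime]

lemma ev_ne {f : ℚ[X]} (hf : f ≠ 0) : aeval (pp p) f ≠ 0 :=
  fun h => (ex_pi p).choose_spec.1 ⟨f, hf, h⟩

lemma pp_lt : ‖pp p - res p‖ < 1 := (ex_pi p).choose_spec.2

lemma pp_le : ‖pp p‖ ≤ 1 := by
  have := (PadicInt.subring p).add_mem (pp_lt p).le (intCast_mem _ (res p))
  rwa [sub_add_cancel] at this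

lemma ev_int (H : ℤ[X]) : ‖aeval (pp p) H‖ ≤ 1 ∧ ‖aeval (pp p) H - (H.eval (res p) : ℤ)‖ < 1 := by
  let x : ℤ_[p] := ⟨pp p, pp_le p⟩
  have h1 : aeval (pp p) H = (aeval x H : ℤ_[p]) :=
    aeval_algHom_apply (PadicInt.Coe.ringHom (p := p)).toIntAlgHom x H
  obtain ⟨m, hm⟩ := sub_dvd_eval_sub x (res p) (H.map (algebraMap ℤ _))
  rw [eval_map_algebraMap, eval_map_algebraMap, ← eq_intCast (algebraMap ℤ ℤ_[p]),
    aeval_algebraMap_apply_eq_algebraMap_eval] at hm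
  refine ⟨h1 ▸ (aeval x H).2, ?_⟩
  have h2 := congrArg norm hm
  rw [norm_mul] at h2
  have h3 : ‖x - algebraMap ℤ ℤ_[p] (res p)‖ < 1 := pp_lt p
  rw [h1]
  exact h2.trans_lt (mul_lt_one_of_nonneg_of_lt_one_left (norm_nonneg _) h3 m.2)

lemma norm_le_of {x y : ℚ_[p]} (hx : ‖x‖ ≤ 1) (h0 : x ≠ 0)
    (h : ∀ k : ℕ, ‖(p : ℚ)⁻¹ ^ k • x‖ ≤ 1 → ‖(p : ℚ)⁻¹ ^ k • y‖ ≤ 1) : ‖y‖ ≤ ‖x‖ := by
  obtain ⟨k, hk⟩ := Int.eq_ofNat_of_zero_le ((Padic.norm_le_one_iff_val_nonneg x).mp hx)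
  have h1 : ∀ z : ℚ_[p], ‖(p : ℚ)⁻¹ ^ k • z‖ = ‖x‖⁻¹ * ‖z‖ := fun z => by
    rw [Padic.norm_eq_zpow_neg_valuation h0, hk, Rat.smul_def]
    simp
  have h2 := h k (by rw [h1, inv_mul_cancel₀ (norm_ne_zero_iff.mpr h0)])
  rwa [h1, inv_mul_le_iff₀ (norm_pos_iff.mpr h0), mul_one] at h2

lemma zero_of {y : ℚ_[p]} (h : ∀ k : ℕ, ‖(p : ℚ)⁻¹ ^ k • y‖ ≤ 1) : y = 0 := by
  by_contra h0
  obtain ⟨k, hk⟩ := exists_pow_lt_of_lt_one (norm_pos_iff.mpr h0) (Padic.norm_p_lt_one (p := p))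
  have h1 := h k
  have h2 : (0 : ℝ) < p := by exact_mod_cast hp.out.pos
  rw [Rat.smul_def] at h1
  simp only [Rat.cast_pow, Rat.cast_inv, Rat.cast_natCast, norm_mul, norm_pow, norm_inv] at h1
  rw [inv_pow, inv_mul_le_iff₀ (by rw [Padic.norm_p]; positivity), mul_one] at h1
  exact hk.not_ge h1

noncomputable def Zl : Subring ℚ := (PadicInt.subring p).comap (Rat.castHom ℚ_[p])

/-- the local condition at `p` -/
noncomputable def S : Subring ℚ[X] :=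
  if p = 5 then liftsRing (Zl p).subtype else (PadicInt.subring p).comap (aeval (pp p)).toRingHom

variable {p}

lemma mem_S (h : p ≠ 5) {f : ℚ[X]} : f ∈ S p ↔ ‖aeval (pp p) f‖ ≤ 1 := by
  rw [S, if_neg h]
  rfl

lemma mem_S5 (h : p = 5) {f : ℚ[X]} : f ∈ S p ↔ ∀ n, ‖(f.coeff n : ℚ_[p])‖ ≤ 1 := by
  rw [S, if_pos h, ← lifts_iff_liftsRing, lifts_iff_coeff_lifts]
  simp only [Subring.coe_subtype, Subtype.range_coe_subtype]
  rfl

lemma C_mem {r : ℚ} (h : ‖(r : ℚ_[p])‖ ≤ 1) : C r ∈ S p := by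
  by_cases h5 : p = 5
  · refine (mem_S5 h5).mpr fun n => ?_
    rw [coeff_C]
    split_ifs
    exacts [h, by simp]
  · simpa [mem_S h5] using h

lemma X_mem : X ∈ S p := by
  by_cases h5 : p = 5
  · refine (mem_S5 h5).mpr fun n => ?_
    rw [coeff_X]
    split_ifs <;> simp
  · simpa [mem_S h5] using pp_le p

end

noncomputable def G : Subring ℚ[X] := ⨅ p : Nat.Primes, @S p ⟨p.2⟩

lemma mem_G {f : ℚ[X]} : f ∈ G ↔ ∀ (p : ℕ) [Fact p.Prime], f ∈ S p := by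
  rw [G, Subring.mem_iInf]
  exact ⟨fun h p hp => h ⟨p, hp.out⟩, fun h p => @h p ⟨p.2⟩⟩

lemma div_iff (p : ℕ) [hp : Fact p.Prime] (k : ℕ) (f : G) :
    (∃ z : G, p ^ k • z = f) ↔ (p : ℚ)⁻¹ ^ k • f.1 ∈ S p := by
  constructor
  · rintro ⟨z, rfl⟩
    rw [AddSubmonoidClass.coe_nsmul, smul_comm, pow_inv_smul hp.out.ne_zero]
    exact mem_G.mp z.2 p
  · intro h
    refine ⟨⟨_, mem_G.mpr fun q hq => ?_⟩, Subtype.ext (pow_inv_smul hp.out.ne_zero k _)⟩
    by_cases h1 : q = p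
    · subst h1
      exact h
    · rw [smul_eq_C_mul, C_pow]
      refine mul_mem (pow_mem (C_mem ?_) _) (mem_G.mp f.2 q)
      simp [Padic.norm_natCast_eq_one_iff.mpr ((Nat.coprime_primes hq.out hp.out).mpr h1)]

lemma div_iff' (p : ℕ) [hp : Fact p.Prime] (h : p ≠ 5) (k : ℕ) (f : G) :
    (∃ z : G, p ^ k • z = f) ↔ ‖(p : ℚ)⁻¹ ^ k • aeval (pp p) f.1‖ ≤ 1 := by
  rw [div_iff, mem_S h, map_smul]

lemma eq_zero (f : G) (h : ∀ k, ∃ z : G, 2 ^ k • z = f) : f = 0 := by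
  by_contra h0
  exact ev_ne 2 (fun h => h0 (Subtype.ext h)) (zero_of 2 fun k => (div_iff' 2 (by omega) k f).mp (h k))

lemma endo (φ : G →+ G) (f : G) : φ f = φ 1 * f := by
  let F : G →+ G := φ - AddMonoidHom.mulLeft (φ 1)
  have h1 : F 1 = 0 := by simp [F]
  refine sub_eq_zero.mp (eq_zero (F f) fun k => ?_)
  let x : ℤ_[2] := ⟨_, (mem_S (by omega)).mp (mem_G.mp f.2 2)⟩
  obtain ⟨w, hw⟩ := Ideal.mem_span_singleton.mp (PadicInt.appr_spec k x)
  obtain ⟨z, hz⟩ := (div_iff' 2 (by omega) k (f - x.appr k • 1)).mpr (by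
    have : aeval (pp 2) (f - x.appr k • 1).1 = 2 ^ k • (w : ℚ_[2]) := by
      have h2 : ((2 : ℤ_[2]) : ℚ_[2]) = 2 := rfl
      simpa [x, h2] using congrArg Subtype.val hw
    rw [this, smul_comm, pow_inv_smul two_ne_zero]
    exact w.2)
  exact ⟨F z, by rw [← map_nsmul, hz, map_sub, map_nsmul, h1, smul_zero, sub_zero]⟩

lemma large (f : ℚ[X]) : ∃ (N : ℕ) (H : ℤ[X]), H.natDegree = f.natDegree ∧
    ∀ (p : ℕ) [Fact p.Prime], N < p → ‖aeval (pp p) f‖ = ‖aeval (pp p) H‖ := by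
  obtain ⟨b, hb, h⟩ := IsLocalization.integerNormalization_spec (nonZeroDivisors ℤ) f
  have hb0 : b ≠ 0 := nonZeroDivisors.ne_zero hb
  refine ⟨b.natAbs, IsLocalization.integerNormalization (nonZeroDivisors ℤ) f, ?_,
    fun p hp h1 => ?_⟩
  · rw [← natDegree_map_eq_of_injective (algebraMap ℤ ℚ).injective_int, h,
      ← Int.cast_smul_eq_zsmul ℚ, natDegree_smul _ (by exact_mod_cast hb0)]
  · rw [← aeval_map_algebraMap ℚ _ (IsLocalization.integerNormalization _ f), h, map_zsmul, zsmul_eq_mul, norm_mul]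
    have : ¬ ‖(b : ℚ_[p])‖ < 1 := fun h2 => (Nat.le_of_dvd (Int.natAbs_pos.mpr hb0)
      (Int.natCast_dvd.mp (Padic.norm_intCast_lt_one_iff.mp h2))).not_gt h1
    rw [le_antisymm (Padic.norm_int_le_one b) (not_lt.mp this), one_mul]

lemma dvd_of (f g : G) (hg : g ≠ 0)
    (h : ∀ p : ℕ, p.Prime → ∀ k, (∃ z : G, p ^ k • z = g) → ∃ z : G, p ^ k • z = f) :
    g.1 ∣ f.1 := by
  classical
  have hg' : g.1 ≠ 0 := fun h => hg (Subtype.ext h)
  obtain ⟨u, v, huv⟩ := isCoprime_div_gcd_div_gcd (p := f.1) hg'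
  have hd : gcd f.1 g.1 ≠ 0 := gcd_ne_zero_of_right hg'
  have e1 := EuclideanDomain.mul_div_cancel' hd (gcd_dvd_left f.1 g.1)
  have e2 := EuclideanDomain.mul_div_cancel' hd (gcd_dvd_right f.1 g.1)
  generalize gcd f.1 g.1 = d at *
  generalize f.1 / d = f1 at *
  generalize g.1 / d = g1 at *
  rcases Nat.eq_zero_or_pos g1.natDegree with h0 | h0
  · rw [← e1, ← e2]
    refine mul_dvd_mul_left _ (IsUnit.dvd (isUnit_iff_degree_eq_zero.mpr ?_))
    rw [degree_eq_natDegree (right_ne_zero_of_mul (e2 ▸ hg')), h0]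
    rfl
  exfalso
  obtain ⟨N1, U, -, hU⟩ := large u
  obtain ⟨N2, V, -, hV⟩ := large v
  obtain ⟨N3, H, h1, hH⟩ := large g1
  obtain ⟨p, hp, h2, h3⟩ := ex_res.choose_spec H (h1 ▸ h0) (N1 + N2 + N3 + 5)
  have hp' := Fact.mk hp
  have h4 : ‖aeval (pp p) g1‖ < 1 := by
    rw [hH p (by omega), ← sub_add_cancel (aeval (pp p) H) (H.eval (res p) : ℤ)]
    exact (Padic.nonarchimedean _ _).trans_lt
      (max_lt (ev_int p H).2 (Padic.norm_intCast_lt_one_iff.mpr h3))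
  have h5 : ‖aeval (pp p) f1‖ ≤ ‖aeval (pp p) g1‖ := by
    have := norm_le_of p ((mem_S (by omega)).mp (mem_G.mp g.2 p)) (ev_ne p hg') fun k hk =>
      (div_iff' p (by omega) k f).mp (h p hp k ((div_iff' p (by omega) k g).mpr hk))
    rw [← e1, ← e2, map_mul, map_mul, norm_mul, norm_mul] at this
    exact le_of_mul_le_mul_left this (norm_pos_iff.mpr (ev_ne p hd))
  have h6 := congrArg (fun x => ‖aeval (pp p) x‖) huv
  simp only [map_add, map_mul, map_one, norm_one] at h6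
  refine h6.not_lt ((Padic.nonarchimedean _ _).trans_lt (max_lt ?_ ?_)) <;> rw [norm_mul]
  · exact mul_lt_one_of_nonneg_of_lt_one_right (hU p (by omega) ▸ (ev_int p U).1)
      (norm_nonneg _) (h5.trans_lt h4)
  · exact mul_lt_one_of_nonneg_of_lt_one_right (hV p (by omega) ▸ (ev_int p V).1)
      (norm_nonneg _) h4

lemma den_of (f g : G) (hg : g ≠ 0) (c : ℚ) (hc : f.1 = c • g.1)
    (h : ∀ p : ℕ, p.Prime → ∀ k, (∃ z : G, p ^ k • z = g) → ∃ z : G, p ^ k • z = f) :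
    c.den = 1 := by
  have hg' : g.1 ≠ 0 := fun h => hg (Subtype.ext h)
  by_contra h0
  have hp := Fact.mk (Nat.minFac_prime h0)
  refine Rat.padicValuation_le_one_iff.mp
    ((Padic.norm_rat_le_one_iff_padicValuation_le_one c.den.minFac).mp ?_) (Nat.minFac_dvd _)
  generalize c.den.minFac = p at *
  have key : ∀ x : ℚ_[p], x ≠ 0 → ‖c • x‖ ≤ ‖x‖ → ‖(c : ℚ_[p])‖ ≤ 1 := fun x hx h => by
    rwa [Rat.smul_def, norm_mul, mul_le_iff_le_one_left (norm_pos_iff.mpr hx)] at h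
  by_cases h5 : p = 5
  · obtain ⟨n, hn, h1⟩ := g.1.support.exists_max_image (fun n => ‖(g.1.coeff n : ℚ_[p])‖)
      (support_nonempty.mpr hg')
    have h2 : (g.1.coeff n : ℚ_[p]) ≠ 0 := by exact_mod_cast mem_support_iff.mp hn
    refine key _ h2 (norm_le_of p ((mem_S5 h5).mp (mem_G.mp g.2 p) n) h2 fun k hk => ?_)
    have h3 := (mem_S5 h5).mp ((div_iff p k f).mp (h p hp.out k ((div_iff p k g).mpr
      ((mem_S5 h5).mpr fun m => ?_)))) n
    · simpa [hc, Rat.smul_def] using h3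
    · refine le_trans ?_ hk
      rw [coeff_smul, smul_eq_mul, Rat.cast_mul, Rat.smul_def, norm_mul, norm_mul]
      gcongr
      by_cases h4 : m ∈ g.1.support
      · exact h1 m h4
      · rw [notMem_support_iff.mp h4, Rat.cast_zero, norm_zero]
        exact norm_nonneg _
  · refine key _ (ev_ne p hg') (norm_le_of p ((mem_S h5).mp (mem_G.mp g.2 p)) (ev_ne p hg')
      fun k hk => ?_)
    rw [← map_smul, ← hc]
    exact (div_iff' p h5 k f).mp (h p hp.out k ((div_iff' p h5 k g).mpr hk))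

theorem main (f g : G)
    (h : ∀ p : ℕ, p.Prime → ∀ k, (∃ z : G, p ^ k • z = f) ↔ ∃ z : G, p ^ k • z = g) :
    g = f ∨ g = -f := by
  by_cases hf : f = 0
  · exact Or.inl (hf ▸ eq_zero g fun k => (h 2 Nat.prime_two k).mp ⟨0, by simp [hf]⟩)
  have hg : g ≠ 0 := fun hg => hf (eq_zero f fun k => (h 2 Nat.prime_two k).mpr ⟨0, by simp [hg]⟩)
  obtain ⟨u, hu⟩ := associated_of_dvd_dvd (dvd_of g f hf fun p hp k => (h p hp k).mp)
    (dvd_of f g hg fun p hp k => (h p hp k).mpr)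
  obtain ⟨c, hc, h1⟩ := Polynomial.isUnit_iff.mp u.isUnit
  have h2 : g.1 = c • f.1 := by rw [← hu, ← h1, smul_eq_C_mul, mul_comm]
  have h3 := den_of g f hf c h2 fun p hp k => (h p hp k).mp
  have h4 := den_of f g hg c⁻¹ (by rw [h2, inv_smul_smul₀ hc.ne_zero]) fun p hp k => (h p hp k).mpr
  rw [Rat.den_inv_of_ne_zero hc.ne_zero] at h4
  rw [← c.num_div_den, h3] at h2
  rcases Int.natAbs_eq_iff.mp h4 with h5 | h5
  · exact Or.inl (Subtype.ext (by simpa [h5] using h2))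
  · exact Or.inr (Subtype.ext (by simpa [h5] using h2))

lemma mat (η : G × G →+ G × G) (x : G × G) : η x =
    ((η (1, 0)).1 * x.1 + (η (0, 1)).1 * x.2, (η (1, 0)).2 * x.1 + (η (0, 1)).2 * x.2) := by
  conv_lhs => rw [← Prod.fst_add_snd x, map_add]
  exact Prod.ext (congrArg₂ (· + ·)
      (endo ((AddMonoidHom.fst _ _).comp (η.comp (AddMonoidHom.inl _ _))) _)
      (endo ((AddMonoidHom.fst _ _).comp (η.comp (AddMonoidHom.inr _ _))) _))
    (congrArg₂ (· + ·)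
      (endo ((AddMonoidHom.snd _ _).comp (η.comp (AddMonoidHom.inl _ _))) _)
      (endo ((AddMonoidHom.snd _ _).comp (η.comp (AddMonoidHom.inr _ _))) _))

noncomputable def t : G := ⟨X, mem_G.mpr fun _ _ => X_mem⟩

instance : Fact (Nat.Prime 5) := ⟨by norm_num⟩

theorem no_aut (η : G × G ≃+ G × G) : η (5, t) ≠ (5, 2 * t) := by
  intro h
  have h1 := mat η (η.symm (1, 0))
  have h2 := mat η (η.symm (0, 1))
  have h3 := mat η (5, t)
  simp only [AddMonoidHom.coe_coe, AddEquiv.apply_symm_apply, h, Prod.mk.injEq] at h1 h2 h3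
  generalize η (1, 0) = a at *
  generalize η (0, 1) = b at *
  generalize η.symm (1, 0) = a' at *
  generalize η.symm (0, 1) = b' at *
  have h4 : (a'.1 * b'.2 - b'.1 * a'.2) * (a.1 * b.2 - b.1 * a.2) = 1 := by
    linear_combination (-(a.2 * b'.1 + b.2 * b'.2)) * h1.1 - h2.2 +
      (a.2 * a'.1 + b.2 * a'.2) * h2.1
  have h5 := main 1 (a.1 * b.2 - b.1 * a.2) fun p hp k =>
    ⟨fun ⟨z, hz⟩ => ⟨z * _, by rw [← smul_mul_assoc, hz, one_mul]⟩,
      fun ⟨z, hz⟩ => ⟨_ * z, by rw [← mul_smul_comm, hz, h4]⟩⟩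
  have e1 := congrArg (fun x : G => x.1.coeff 0) h3.1
  have e2 := congrArg (fun x : G => x.1.coeff 0) h3.2
  have e3 := congrArg (fun x : G => x.1.coeff 1) h3.2
  have c5 : (5 : G).1 = C 5 := rfl
  have c2 : (2 : G).1 = C 2 := rfl
  simp [t, c5, c2, coeff_X] at e1 e2 e3
  have e4 := (mem_S5 rfl).mp (mem_G.mp a.2.2 5) 1
  have e5 : ∀ z : ℤ, a.2.1.coeff 1 * 5 = z → (5 : ℤ) ∣ z := fun z hz => by
    refine (Padic.norm_intCast_lt_one_iff (p := 5)).mp ?_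
    rw [← Rat.cast_intCast, ← hz, Rat.cast_mul, norm_mul]
    exact mul_lt_one_of_nonneg_of_lt_one_right e4 (norm_nonneg _)
      (by simpa using Padic.norm_p_lt_one (p := 5))
  rcases h5 with h5 | h5 <;> have e6 := congrArg (fun x : G => x.1.coeff 0) h5 <;>
    simp [e1, e2] at e6
  · exact absurd (e5 1 (by push_cast; linarith)) (by decide)
  · exact absurd (e5 3 (by push_cast; linarith)) (by decide)

end Pool.Agent.H19.Kry
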