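import Mathlib

set_option autoImplicit false
set_option linter.unusedSectionVars false
set_option linter.unusedVariables false

namespace Pool.Agent.H19.LCAEnt

open Filter Topology MeasureTheory
open scoped Pointwise ENNReal

section defs
variable {G : Type*} [AddCommGroup G]

/-- `T_n(φ,C) = C + φ C + ⋯ + φⁿ⁻¹ C`. -/
def T (φ : G →+ G) (C : Set G) (n : ℕ) : Set G := ∑ i ∈ Finset.range n, φ^[i] '' C

/-- The restriction of `φ` to an invariant subgroup. -/
def res (φ : G →+ G) (K : AddSubgroup G) (h : ∀ x ∈ K, φ x ∈ K) : K →+ K :=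
  (φ.comp K.subtype).codRestrict K fun x => h x x.2

/-- `H_A(φ,C) = limsup log μ(T_n(φ,C)) / n`. -/
noncomputable def HA [MeasurableSpace G] (μ : Measure G) (φ : G →+ G) (C : Set G) : EReal :=
  limsup (fun n : ℕ => ((Real.log (μ.real (T φ C n)) / n : ℝ) : EReal)) atTop

/-- The algebraic entropy `h_A(φ)`: the supremum over compact neighbourhoods of `0`. -/
noncomputable def hA [TopologicalSpace G] [MeasurableSpace G] (μ : Measure G) (φ : G →+ G) :
    EReal :=
  ⨆ (C : Set G) (_ : IsCompact C ∧ C ∈ 𝓝 0), HA μ φ C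

lemma T_succ (φ : G →+ G) (C : Set G) (n : ℕ) : T φ C (n + 1) = φ '' T φ C n + C := by
  simp only [T, Finset.sum_range_succ', Set.image_finsetSum, ← Set.image_comp,
    ← Function.iterate_succ']
  simp

lemma T_zero (φ : G →+ G) (C : Set G) : T φ C 0 = {0} := rfl

lemma T_image {K : Type*} [AddCommGroup K] {φ : G →+ G} {ψ : K →+ K} (ι : K →+ G)
    (h : ∀ x, ι (ψ x) = φ (ι x)) (C : Set K) (n : ℕ) : ι '' T ψ C n = T φ (ι '' C) n := by
  induction n with
  | zero => simp [T_zero]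
  | succ n ih =>
    rw [T_succ, T_succ, Set.image_add, ← ih, Set.image_image, Set.image_image]
    simp only [h]

lemma T_add_sub (φ : G →+ G) (C : Set G) {V : Set G} (hV : 0 ∈ V) (n : ℕ) :
    T φ C (n + 1) + V ⊆ T φ (C + V) (n + 1) := by
  have : ∀ n, T φ C n ⊆ T φ (C + V) n := fun n =>
    Set.finsetSum_subset_finsetSum _ _ _ fun i _ => Set.image_mono (Set.subset_add_left _ hV)
  rw [T_succ, T_succ, add_assoc]
  exact Set.add_subset_add_right (Set.image_mono (this n))

lemma T_sub (φ : G →+ G) {C F : Set G} (h0 : 0 ∈ C) (h : φ '' C + C ⊆ F + C) (n : ℕ) :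
    T φ C n ⊆ T φ F n + C := by
  induction n with
  | zero => simpa [T_zero] using h0
  | succ n ih =>
    rw [T_succ, T_succ, add_assoc]
    refine (Set.add_subset_add_right (Set.image_mono ih)).trans ?_
    rw [Set.image_add, add_assoc]
    exact Set.add_subset_add_left h

variable [TopologicalSpace G] [IsTopologicalAddGroup G]

lemma T_compact {φ : G →+ G} (hφ : Continuous φ) {C : Set G} (hC : IsCompact C) (n : ℕ) :
    IsCompact (T φ C n) := by
  induction n with
  | zero => exact isCompact_singleton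
  | succ n ih => exact T_succ φ C n ▸ (ih.image hφ).add hC

lemma add_nhds {C V : Set G} (hC : 0 ∈ C) (hV : V ∈ 𝓝 0) : C + V ∈ 𝓝 0 :=
  mem_of_superset hV (Set.subset_add_right _ hC)

lemma T_nhds (φ : G →+ G) {C : Set G} (hC : C ∈ 𝓝 0) (n : ℕ) : T φ C (n + 1) ∈ 𝓝 0 := by
  have : ∀ n, 0 ∈ T φ C n := fun n => by
    induction n with
    | zero => rfl
    | succ n ih => exact T_succ φ C n ▸ ⟨0, ⟨0, ih, map_zero _⟩, 0, mem_of_mem_nhds hC, add_zero _⟩
  exact T_succ φ C n ▸ add_nhds ⟨0, this n, map_zero _⟩ hC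

variable [T2Space G] [MeasurableSpace G] [BorelSpace G] (μ : Measure G) [μ.IsAddHaarMeasure]

lemma real_pos {C : Set G} (h1 : IsCompact C) (h2 : C ∈ 𝓝 0) : 0 < μ.real C :=
  ENNReal.toReal_pos (Measure.measure_pos_of_mem_nhds μ h2).ne' h1.measure_lt_top.ne

lemma cover_le (S : Finset G) {D : Set G} (hD : IsCompact D) :
    μ.real (S + D) ≤ S.card * μ.real D := by
  rw [← Set.iUnion_add_left_image]
  refine (measureReal_biUnion_finset_le S _).trans (le_of_eq ?_)
  simp [measureReal_def]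

lemma pack {Y V : Set G} (hY : IsCompact Y) (h1 : IsCompact V) (h2 : V ∈ 𝓝 0) :
    ∃ S : Finset G, ↑S ⊆ Y ∧ S.card * μ.real V ≤ μ.real (Y + V) ∧ Y ⊆ S + (V - V) := by
  classical
  let P : Finset G → Prop := fun S => ↑S ⊆ Y ∧ (S : Set G).PairwiseDisjoint fun s => s +ᵥ V
  have hP : ∀ S, P S → S.card * μ.real V ≤ μ.real (Y + V) := by
    rintro S ⟨h3, h4⟩
    have := measureReal_biUnion_finset (μ := μ) h4 (fun s _ => (h1.vadd s).measurableSet)
      fun s _ => (h1.vadd s).measure_lt_top.ne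
    simp only [measureReal_def, measure_vadd, Finset.sum_const, nsmul_eq_mul] at this
    rw [measureReal_def, ← this]
    refine measureReal_mono (Set.iUnion₂_subset fun s hs => ?_) (hY.add h1).measure_lt_top.ne
    exact Set.vadd_set_subset_add (h3 hs)
  obtain ⟨S, hS, h3⟩ := Set.Finite.exists_maximalFor' Finset.card {S | P S}
    ((Set.finite_Iic ⌊μ.real (Y + V) / μ.real V⌋₊).subset (by
      rintro _ ⟨S, hS, rfl⟩
      exact Nat.le_floor ((le_div_iff₀ (real_pos μ h1 h2)).mpr (hP S hS))))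
    ⟨∅, by simp, by simp⟩
  refine ⟨S, hS.1, hP S hS, fun y hy => ?_⟩
  by_contra h4
  have h5 : ∀ s ∈ S, Disjoint (y +ᵥ V) (s +ᵥ V) := fun s hs => Set.disjoint_left.mpr (by
    rintro _ ⟨a, ha, rfl⟩ ⟨b, hb, h⟩
    refine h4 ⟨s, hs, b - a, Set.sub_mem_sub hb ha, ?_⟩
    simp only [vadd_eq_add] at h
    simp only [← add_sub_assoc, h, add_sub_cancel_right])
  have h6 : y ∉ S := fun h => (Set.disjoint_left.mp (h5 y h))
    (Set.vadd_mem_vadd_set (mem_of_mem_nhds h2)) (Set.vadd_mem_vadd_set (mem_of_mem_nhds h2))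
  have h7 := h3 (j := insert y S) ⟨by rw [Finset.coe_insert]; exact Set.insert_subset hy hS.1, by
    rw [Finset.coe_insert]
    exact hS.2.insert_of_notMem h6 h5⟩
  rw [Finset.card_insert_of_notMem h6] at h7
  omega

end defs

lemma cmp {a b : ℕ → ℝ} {c : ℝ} (ha : ∀ n, 0 < a (n + 1)) (hb : ∀ n, 0 < b (n + 1))
    (h : ∀ n, a (n + 1) ≤ c * b (n + 1)) :
    limsup (fun n : ℕ => ((Real.log (a n) / n : ℝ) : EReal)) atTop ≤
      limsup (fun n : ℕ => ((Real.log (b n) / n : ℝ) : EReal)) atTop := by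
  refine EReal.le_of_forall_lt_iff_le.mp fun r hr => ?_
  obtain ⟨s, h1, h2⟩ := EReal.lt_iff_exists_real_btwn.mp hr
  have h3 := (tendsto_const_div_atTop_nhds_zero_nat (Real.log c)).eventually_lt_const
    (sub_pos.mpr (EReal.coe_lt_coe_iff.mp h2))
  refine limsup_le_of_le (h := ?_)
  filter_upwards [eventually_lt_of_limsup_lt h1, h3, eventually_gt_atTop 0] with n h4 h5 h6
  obtain ⟨n, rfl⟩ := Nat.exists_eq_succ_of_ne_zero h6.ne'
  have hc : 0 < c := (mul_pos_iff_of_pos_right (hb n)).mp ((ha n).trans_le (h n))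
  have h7 := Real.log_le_log (ha n) (h n)
  rw [Real.log_mul hc.ne' (hb n).ne'] at h7
  have h8 := div_le_div_of_nonneg_right h7 (Nat.cast_nonneg (α := ℝ) n.succ)
  rw [add_div] at h8
  rw [EReal.coe_lt_coe_iff] at h4
  exact EReal.coe_le_coe_iff.mpr (by linarith)

variable {G : Type*} [AddCommGroup G] [TopologicalSpace G] [IsTopologicalAddGroup G]
  [LocallyCompactSpace G] [T2Space G] [MeasurableSpace G] [BorelSpace G] (μ : Measure G)
  [μ.IsAddHaarMeasure] {φ : G →+ G} (hφ : Continuous φ) (K : AddSubgroup G)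
  (hK : IsClosed (K : Set G)) (h : ∀ x ∈ K, φ x ∈ K) (ν : Measure K) [ν.IsAddHaarMeasure]
include hφ hK

lemma res_cont : Continuous (res φ K h) := (hφ.comp continuous_subtype_val).subtype_mk _

theorem res_le : hA ν (res φ K h) ≤ hA μ φ := by
  classical
  refine iSup₂_le fun C hC => ?_
  obtain ⟨V, h1, h2⟩ := exists_compact_mem_nhds (0 : G)
  have h3 : IsCompact (K.subtype '' C) := hC.1.image continuous_subtype_val
  have h4 : K.subtype '' C + V ∈ 𝓝 0 := add_nhds ⟨0, mem_of_mem_nhds hC.2, rfl⟩ h2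
  have h5 : IsCompact (K.subtype ⁻¹' (V - V)) :=
    hK.isClosedEmbedding_subtypeVal.isCompact_preimage (sub_eq_add_neg V V ▸ h1.add h1.neg)
  refine le_iSup₂_of_le _ ⟨h3.add h1, h4⟩ (cmp (c := ν.real (K.subtype ⁻¹' (V - V)) / μ.real V)
    (fun n => real_pos ν (T_compact (res_cont hφ K hK h) hC.1 _) (T_nhds _ hC.2 n))
    (fun n => real_pos μ (T_compact hφ (h3.add h1) _) (T_nhds _ h4 n)) fun n => ?_)
  obtain ⟨S, h6, h7, h8⟩ := pack μ (T_compact hφ h3 (n + 1)) h1 h2
  rw [← T_image (ψ := res φ K h) K.subtype fun _ => rfl] at h6 h8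
  obtain ⟨S, -, rfl⟩ := Finset.subset_set_image_iff.mp h6
  rw [Finset.card_image_of_injective _ K.subtype_injective] at h7
  have h9 : T (res φ K h) C (n + 1) ⊆ S + K.subtype ⁻¹' (V - V) := fun x hx => by
    obtain ⟨_, hs, v, hv, h9⟩ := h8 ⟨x, hx, rfl⟩
    obtain ⟨s, hs', rfl⟩ := Finset.mem_image.mp hs
    refine ⟨s, hs', x - s, ?_, by simp⟩
    rwa [Set.mem_preimage, map_sub, ← h9, add_sub_cancel_left]
  refine (measureReal_mono h9 (S.finite_toSet.isCompact.add h5).measure_lt_top.ne).trans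
    ((cover_le ν S h5).trans ?_)
  rw [div_mul_eq_mul_div, le_div_iff₀ (real_pos μ h1 h2), mul_right_comm, mul_comm]
  exact mul_le_mul_of_nonneg_left (h7.trans (measureReal_mono (T_add_sub φ _ (mem_of_mem_nhds h2) n)
    (T_compact hφ (h3.add h1) _).measure_lt_top.ne)) measureReal_nonneg

theorem le_res {C : Set G} (hC : IsCompact C) (hC' : C ∈ 𝓝 0) {F : Set K} (hF : F.Finite)
    (hF0 : 0 ∈ F) (hFC : φ '' C + C ⊆ K.subtype '' F + C) : HA μ φ C ≤ hA ν (res φ K h) := by
  have := hK.locallyCompactSpace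
  obtain ⟨V, h1, h2⟩ := exists_compact_mem_nhds (0 : K)
  have h3 := hF.isCompact
  have h4 : F + V ∈ 𝓝 0 := add_nhds hF0 h2
  have h5 : IsCompact (K.subtype '' (V - V) + C) :=
    ((sub_eq_add_neg V V ▸ h1.add h1.neg :).image continuous_subtype_val).add hC
  have hψ := res_cont hφ K hK h
  refine le_iSup₂_of_le _ ⟨h3.add h1, h4⟩ (cmp (c := μ.real (K.subtype '' (V - V) + C) / ν.real V)
    (fun n => real_pos μ (T_compact hφ hC _) (T_nhds _ hC' n))
    (fun n => real_pos ν (T_compact hψ (h3.add h1) _) (T_nhds _ h4 n)) fun n => ?_)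
  obtain ⟨S, h6, h7, h8⟩ := pack ν (T_compact hψ h3 (n + 1)) h1 h2
  have h9 : T φ C (n + 1) ⊆ S.map ⟨_, K.subtype_injective⟩ + (K.subtype '' (V - V) + C) := by
    refine (T_sub φ (mem_of_mem_nhds hC') hFC _).trans ?_
    rw [← T_image (ψ := res φ K h) K.subtype fun _ => rfl, ← add_assoc, Finset.coe_map]
    exact Set.add_subset_add_right ((Set.image_mono h8).trans (Set.image_add _).le)
  refine (measureReal_mono h9 ((Finset.finite_toSet _).isCompact.add h5).measure_lt_top.ne).trans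
    ((cover_le μ _ h5).trans ?_)
  rw [div_mul_eq_mul_div, le_div_iff₀ (real_pos ν h1 h2), mul_right_comm, mul_comm,
    Finset.card_map]
  exact mul_le_mul_of_nonneg_left (h7.trans (measureReal_mono (T_add_sub _ _ (mem_of_mem_nhds h2) n)
    (T_compact hψ (h3.add h1) _).measure_lt_top.ne)) measureReal_nonneg

omit hK in
lemma fin_cover {C : Set G} (hC : IsCompact C) (A : Set G)
    (hA : ∀ x, ∃ a ∈ A, x - a ∈ interior C) :
    ∃ F : Finset G, ↑F ⊆ A ∧ φ '' C + C ⊆ F + C := by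
  obtain ⟨F, h1, h2, h3⟩ := ((hC.image hφ).add hC).elim_finite_subcover_image (b := A)
    (c := fun a => (· - a) ⁻¹' interior C)
    (fun a _ => isOpen_interior.preimage (continuous_sub_right a))
    (fun x _ => by simpa using hA x)
  refine ⟨h2.toFinset, by simpa, fun x hx => ?_⟩
  obtain ⟨a, ha, h4⟩ := Set.mem_iUnion₂.mp (h3 hx)
  exact ⟨a, by simpa, x - a, interior_subset h4, by simp⟩

end Pool.Agent.H19.LCAEnt
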