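import Mathlib
import Pool.Agent.H19.ChainU

set_option autoImplicit false

namespace Pool.Agent.H19.Large

universe u

open Cardinal Ordinal Pool.Agent.H19.ChainU
open scoped Pointwise

lemma packing {G : Type u} (φ : G → Finset G) (hφ : ∀ y, (φ y).Nonempty) :
    ∃ Y : Set G, Y.PairwiseDisjoint φ ∧ ∀ g, ∃ y ∈ Y, ∃ a, a ∈ φ g ∧ a ∈ φ y := by
  obtain ⟨Y, hY⟩ := zorn_subset {Y : Set G | Y.PairwiseDisjoint φ} (fun c hc hch =>
    ⟨⋃₀ c, (hch.pairwiseDisjoint_sUnion φ).mpr fun s hs => hc hs,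
      fun s hs => Set.subset_sUnion_of_mem hs⟩)
  refine ⟨Y, hY.prop, fun g => ?_⟩
  by_contra hcon
  push Not at hcon
  have h1 : (insert g Y).PairwiseDisjoint φ :=
    hY.prop.insert fun y hy _ => Finset.disjoint_left.mpr (hcon y hy)
  have h2 : g ∈ Y := hY.le_of_ge h1 (Set.subset_insert _ _) (Set.mem_insert _ _)
  obtain ⟨a, ha⟩ := hφ g
  exact hcon g h2 a ha ha

lemma countable_case (G : Type u) [Group G] [Infinite G] : ∃ χ : G → ℕ, ∀ n,
    (∃ F : Set G, F.Finite ∧ ∀ g, ∃ f ∈ F, ∃ a, χ a = n ∧ g = f * a) ∧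
    (∃ F : Set G, F.Finite ∧ ∀ g, ∃ f ∈ F, ∃ a, χ a = n ∧ g = a * f) := by
  classical
  choose T hT using fun m : ℕ => Infinite.exists_subset_card_eq G (2 ^ (m + 1))
  let φ : ℕ → G → Finset G := fun m y =>
    if m % 2 = 0 then (T m).image (· * y) else (T m).image (y * ·)
  have hcard : ∀ m y, (φ m y).card = 2 ^ (m + 1) := fun m y => by
    simp only [φ]
    split_ifs
    · rw [Finset.card_image_of_injective _ (mul_left_injective y), hT]
    · rw [Finset.card_image_of_injective _ (mul_right_injective y), hT]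
  choose Y hY1 hY2 using fun m => packing (φ m)
    (fun y => Finset.card_pos.mp (by rw [hcard]; positivity))
  let ι := {x : ℕ × G // x.2 ∈ Y x.1}
  let t : ι → Finset G := fun x => φ x.1.1 x.1.2
  obtain ⟨r, hr1, hr2⟩ := (Finset.all_card_le_biUnion_card_iff_exists_injective t).mp (by
    intro s
    have h1 : ∀ m, ((s.filter (fun x => x.1.1 = m)).card : ℝ) ≤
        (s.biUnion t).card / 2 / 2 ^ m := fun m => by
      have h2 : ((s.filter (fun x => x.1.1 = m)).biUnion t).card ≤ (s.biUnion t).card :=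
        Finset.card_le_card (Finset.biUnion_subset_biUnion_of_subset_left _ (Finset.filter_subset _ _))
      rw [Finset.card_biUnion, Finset.sum_congr rfl (g := fun _ => 2 ^ (m + 1))] at h2
      · rw [Finset.sum_const, _root_.smul_eq_mul] at h2
        rw [div_div, le_div_iff₀ (by positivity), ← pow_succ']
        exact_mod_cast h2
      · intro x hx
        rw [hcard, (Finset.mem_filter.mp hx).2]
      · rintro ⟨⟨m1, y1⟩, h11⟩ hx ⟨⟨m2, y2⟩, h22⟩ hy hxy
        obtain rfl : m1 = m := (Finset.mem_filter.mp hx).2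
        obtain rfl : m2 = m1 := (Finset.mem_filter.mp hy).2
        exact hY1 m2 h11 h22 fun h => hxy (by subst h; rfl)
    have h3 := Finset.card_eq_sum_card_image (fun x : ι => x.1.1) s
    have h4 : (s.card : ℝ) ≤ (s.biUnion t).card := by
      rw [h3]
      push_cast
      refine (Finset.sum_le_sum fun m _ => h1 m).trans ?_
      refine ((summable_geometric_two' _).sum_le_tsum _ fun m _ => by positivity).trans ?_
      rw [tsum_geometric_two']
    exact_mod_cast h4)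
  refine ⟨Function.extend r (fun x => x.1.1 / 2) 0, fun n => ⟨?_, ?_⟩⟩
  · refine ⟨(((T (2 * n))⁻¹ * T (2 * n) * (T (2 * n))⁻¹ : Finset G) : Set G),
      Finset.finite_toSet _, fun g => ?_⟩
    obtain ⟨y, hy, a, ha1, ha2⟩ := hY2 (2 * n) g
    have ha3 := hr2 ⟨(2 * n, y), hy⟩
    simp only [t, φ, Nat.mul_mod_right, if_true, Finset.mem_image] at ha1 ha2 ha3
    obtain ⟨t1, h1, rfl⟩ := ha1
    obtain ⟨t2, h2, e2⟩ := ha2
    obtain ⟨t3, h3, e3⟩ := ha3
    refine ⟨t1⁻¹ * t2 * t3⁻¹, Finset.mem_coe.mpr (Finset.mul_mem_mul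
      (Finset.mul_mem_mul (Finset.inv_mem_inv h1) h2) (Finset.inv_mem_inv h3)),
      r ⟨(2 * n, y), hy⟩, ?_, ?_⟩
    · rw [hr1.extend_apply]; simp
    · rw [← e3, mul_assoc, inv_mul_cancel_left, mul_assoc, e2, inv_mul_cancel_left]
  · refine ⟨(((T (2 * n + 1))⁻¹ * T (2 * n + 1) * (T (2 * n + 1))⁻¹ : Finset G) : Set G),
      Finset.finite_toSet _, fun g => ?_⟩
    obtain ⟨y, hy, a, ha1, ha2⟩ := hY2 (2 * n + 1) g
    have ha3 := hr2 ⟨(2 * n + 1, y), hy⟩
    have hodd : ¬ ((2 * n + 1) % 2 = 0) := by omega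
    simp only [t, φ, hodd, if_false, Finset.mem_image] at ha1 ha2 ha3
    obtain ⟨t1, h1, rfl⟩ := ha1
    obtain ⟨t2, h2, e2⟩ := ha2
    obtain ⟨t3, h3, e3⟩ := ha3
    refine ⟨t3⁻¹ * t2 * t1⁻¹, Finset.mem_coe.mpr (Finset.mul_mem_mul
      (Finset.mul_mem_mul (Finset.inv_mem_inv h3) h2) (Finset.inv_mem_inv h1)),
      r ⟨(2 * n + 1, y), hy⟩, ?_, ?_⟩
    · rw [hr1.extend_apply]; simp only; omega
    · rw [← e3, ← mul_assoc, ← mul_assoc, mul_inv_cancel_right, e2, mul_inv_cancel_right]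

lemma assemble' {G I : Type u} [Group G] (κ : Cardinal.{u}) (χ : G → I)
    (h : ∀ i, (∃ F : Set G, #F < κ ∧ ∀ g, ∃ f ∈ F, ∃ a, χ a = i ∧ g = f * a) ∧
      (∃ F : Set G, #F < κ ∧ ∀ g, ∃ f ∈ F, ∃ a, χ a = i ∧ g = a * f)) :
    ∃ P : Set (Set G), Setoid.IsPartition P ∧ Cardinal.mk P = #I ∧ ∀ A ∈ P,
      (∃ F : Set G, Cardinal.mk F < κ ∧ F * A = Set.univ) ∧
      (∃ F : Set G, Cardinal.mk F < κ ∧ A * F = Set.univ) := by
  have hs : ∀ i, ∃ a, χ a = i := fun i => by
    obtain ⟨F, -, hF⟩ := (h i).1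
    obtain ⟨-, -, a, ha, -⟩ := hF 1
    exact ⟨a, ha⟩
  refine ⟨Set.range (fun i => χ ⁻¹' {i}), ⟨?_, fun a => ?_⟩, ?_, ?_⟩
  · rintro ⟨i, hi⟩
    obtain ⟨a, ha⟩ := hs i
    have : a ∈ χ ⁻¹' {i} := ha
    simp only at hi
    rw [hi] at this
    exact this
  · refine ⟨χ ⁻¹' {χ a}, ⟨⟨_, rfl⟩, rfl⟩, ?_⟩
    rintro _ ⟨⟨i, rfl⟩, hi⟩
    have : χ a = i := hi
    rw [this]
  · refine mk_range_eq _ fun i j hij => ?_
    obtain ⟨a, ha⟩ := hs i
    have h1 : a ∈ χ ⁻¹' {i} := ha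
    have h2 : a ∈ χ ⁻¹' {j} := hij ▸ h1
    exact ha.symm.trans h2
  · rintro _ ⟨i, rfl⟩
    obtain ⟨⟨F, h1, h2⟩, ⟨F', h3, h4⟩⟩ := h i
    refine ⟨⟨F, h1, Set.eq_univ_of_forall fun g => ?_⟩, ⟨F', h3, Set.eq_univ_of_forall fun g => ?_⟩⟩
    · obtain ⟨f, hf, a, ha, rfl⟩ := h2 g
      exact Set.mul_mem_mul hf ha
    · obtain ⟨f, hf, a, ha, rfl⟩ := h4 g
      exact Set.mul_mem_mul ha hf


lemma assemble {G I : Type u} [Group G] (κ : Cardinal.{u}) (χ : G → I) (hI : #I = κ)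
    (h : ∀ i, (∃ F : Set G, #F < κ ∧ ∀ g, ∃ f ∈ F, ∃ a, χ a = i ∧ g = f * a) ∧
      (∃ F : Set G, #F < κ ∧ ∀ g, ∃ f ∈ F, ∃ a, χ a = i ∧ g = a * f)) :
    ∃ P : Set (Set G), Setoid.IsPartition P ∧ Cardinal.mk P = κ ∧ ∀ A ∈ P,
      (∃ F : Set G, Cardinal.mk F < κ ∧ F * A = Set.univ) ∧
      (∃ F : Set G, Cardinal.mk F < κ ∧ A * F = Set.univ) := by
  obtain ⟨P, h1, h2, h3⟩ := assemble' κ χ h
  exact ⟨P, h1, h2.trans hI, h3⟩

lemma hull {X : Type u} (Op : X → X → Set X) (hOp : ∀ x y, (Op x y).Countable)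
    (μ : Cardinal.{u}) (hμ : ℵ₀ ≤ μ) (S : Set X) (hS : #S ≤ μ) :
    ∃ M : Set X, S ⊆ M ∧ #M ≤ μ ∧ ∀ x ∈ M, ∀ y ∈ M, Op x y ⊆ M := by
  let step : Set X → Set X := fun T => T ∪ ⋃ p ∈ T ×ˢ T, Op p.1 p.2
  have hstep : ∀ T : Set X, #T ≤ μ → #(step T) ≤ μ := fun T hT => by
    refine (mk_union_le _ _).trans (add_le_of_le hμ hT ?_)
    refine (mk_biUnion_le _ _).trans (mul_le_of_le hμ ?_ ?_)
    · rw [mk_setProd]; exact mul_le_of_le hμ hT hT
    · exact ciSup_le' fun p => (hOp _ _).le_aleph0.trans hμ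
  have hn : ∀ n, #(step^[n] S) ≤ μ := fun n => by
    induction n with
    | zero => exact hS
    | succ n ih => rw [Function.iterate_succ_apply']; exact hstep _ ih
  have hmono : Monotone fun n => step^[n] S := monotone_nat_of_le_succ fun n => by
    rw [Function.iterate_succ_apply']; exact Set.subset_union_left
  refine ⟨⋃ n, step^[n] S, Set.subset_iUnion (fun n => step^[n] S) 0, ?_, ?_⟩
  · have := mk_iUnion_le_lift (fun n => step^[n] S)
    simp only [Cardinal.lift_uzero, mk_nat, lift_aleph0] at this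
    exact this.trans (mul_le_of_le hμ hμ (ciSup_le' hn))
  · intro x hx y hy z hz
    obtain ⟨a, ha⟩ := Set.mem_iUnion.mp hx
    obtain ⟨b, hb⟩ := Set.mem_iUnion.mp hy
    refine Set.mem_iUnion.mpr ⟨max a b + 1, ?_⟩
    rw [Function.iterate_succ_apply']
    exact Or.inr (Set.mem_biUnion (x := (x, y))
      ⟨hmono (le_max_left a b) ha, hmono (le_max_right a b) hb⟩ hz)


inductive Gen {I : Type u} (Op : I → I → Set I) (T : Set I) : I → Prop
  | base {i} : i ∈ T → Gen Op T i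
  | step {i j k} : Gen Op T i → Gen Op T j → k ∈ Op i j → Gen Op T k

lemma Gen.mono {I : Type u} {Op : I → I → Set I} {T T' : Set I} (h : T ⊆ T') {i : I}
    (hi : Gen Op T i) : Gen Op T' i := by
  induction hi with
  | base hi => exact Gen.base (h hi)
  | step _ _ hk h1 h2 => exact Gen.step h1 h2 hk

/-- A family of countably infinite sets in which two distinct points lie in only countably many
members has an injective choice function. -/
theorem transversal {X : Type u} (I : Type u) (l : I → Set X)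
    (h1 : ∀ i, (l i).Countable) (h2 : ∀ i, (l i).Infinite)
    (h3 : ∀ p q, p ≠ q → {i | p ∈ l i ∧ q ∈ l i}.Countable) :
    ∃ c : I → X, Function.Injective c ∧ ∀ i, c i ∈ l i := by
  classical
  induction hm : #I using WellFoundedLT.induction generalizing I with
  | _ κ ih =>
  by_cases hI : #I ≤ ℵ₀
  · have : Countable I := mk_le_aleph0_iff.mp hI
    obtain ⟨e, he⟩ := exists_injective_nat I
    choose t ht1 ht2 using fun i => (h2 i).exists_subset_card_eq (e i + 1)
    obtain ⟨c, hc1, hc2⟩ := (Finset.all_card_le_biUnion_card_iff_exists_injective t).mp (by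
      intro s
      rcases s.eq_empty_or_nonempty with rfl | hs
      · simp
      · obtain ⟨i, hi, hmax⟩ := s.exists_max_image e hs
        have a1 : s.card ≤ (Finset.range (e i + 1)).card :=
          Finset.card_le_card_of_injOn e (fun j hj => by
            simpa using Nat.lt_succ_of_le (hmax j hj)) he.injOn
        rw [Finset.card_range, ← ht2 i] at a1
        exact a1.trans (Finset.card_le_card (Finset.subset_biUnion_of_mem t hi)))
    exact ⟨c, hc1, fun i => ht1 i (hc2 i)⟩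
  push Not at hI
  obtain ⟨τ, -, hτ, hc⟩ := exists_tau I
  let Op : I → I → Set I := fun i j =>
    ⋃ p ∈ l i, ⋃ q ∈ l j, {k | p ≠ q ∧ p ∈ l k ∧ q ∈ l k}
  have hOp : ∀ i j, (Op i j).Countable := fun i j =>
    (h1 i).biUnion fun p _ => (h1 j).biUnion fun q _ => by
      by_cases hpq : p = q
      · simp [hpq]
      · exact (h3 p q hpq).mono fun k hk => hk.2
  let C : Ordinal.{u} → Set I := fun α => {i | Gen Op {g | τ g < α} i}
  have Cmono : ∀ α β, α ≤ β → C α ⊆ C β := fun α β h i hi =>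
    Gen.mono (fun g hg => lt_of_lt_of_le hg h) hi
  have Ccont : ∀ α i, i ∈ C α → ∃ β < α, i ∈ C (β + 1) := by
    intro α i hi
    induction hi with
    | @base i hi => exact ⟨τ i, hi, Gen.base (show τ i < τ i + 1 from Order.lt_add_one_iff.mpr le_rfl)⟩
    | step _ _ hk a1 a2 =>
      obtain ⟨β, hβ, a1⟩ := a1
      obtain ⟨γ, hγ, a2⟩ := a2
      exact ⟨max β γ, max_lt hβ hγ,
        Gen.step (Cmono _ _ (by gcongr; exact le_max_left _ _) a1)
          (Cmono _ _ (by gcongr; exact le_max_right _ _) a2) hk⟩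
  have Ccard : ∀ α < (#I).ord, #(C α) < #I := fun α hα => by
    obtain ⟨M, m1, m2, m3⟩ := hull Op hOp (max ℵ₀ α.card) (le_max_left _ _) {g | τ g < α}
      ((hc α hα.le).le.trans (le_max_right _ _))
    have : C α ⊆ M := fun i hi => by
      induction hi with
      | base hi => exact m1 hi
      | step _ _ hk a1 a2 => exact m3 _ a1 _ a2 hk
    exact ((mk_le_mk_of_subset this).trans m2).trans_lt (max_lt hI (lt_ord.mp hα))
  let lv : I → Ordinal.{u} := fun i => sInf {α | i ∈ C (α + 1)}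
  have lv1 : ∀ i, i ∈ C (lv i + 1) := fun i => csInf_mem (s := {α | i ∈ C (α + 1)})
    ⟨τ i, Gen.base (show τ i < τ i + 1 from Order.lt_add_one_iff.mpr le_rfl)⟩
  have lv2 : ∀ i, i ∉ C (lv i) := fun i hi => by
    obtain ⟨β, hβ, h⟩ := Ccont _ _ hi
    exact absurd (csInf_le' (s := {α | i ∈ C (α + 1)}) h) (not_le.mpr hβ)
  have lv3 : ∀ i, lv i + 1 < (#I).ord := fun i =>
    (isSuccLimit_ord hI.le).add_one_lt (lt_of_le_of_lt
      (csInf_le' (s := {α | i ∈ C (α + 1)}) (Gen.base (show τ i < τ i + 1 from Order.lt_add_one_iff.mpr le_rfl))) (hτ i))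
  have layer : ∀ α, ∃ c : {i // lv i = α} → X, Function.Injective c ∧
      ∀ i : {i // lv i = α}, c i ∈ l i \ ⋃ j ∈ C α, l j := by
    intro α
    rcases isEmpty_or_nonempty {i // lv i = α} with h | ⟨⟨i0, hi0⟩⟩
    · exact ⟨isEmptyElim, fun a => isEmptyElim a, fun a => isEmptyElim a⟩
    refine ih _ ?_ _ _ (fun i => (h1 i).mono Set.sdiff_subset) (fun i => ?_) (fun p q hpq => ?_) rfl
    · rw [← hm]
      refine lt_of_le_of_lt ?_ (Ccard _ (lv3 i0))
      exact mk_le_mk_of_subset (s := {i | lv i = α}) fun i hi => by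
        have := lv1 i
        rwa [show lv i = lv i0 from hi.trans hi0.symm] at this
    · have : (l i ∩ ⋃ j ∈ C α, l j).Subsingleton := by
        rintro p ⟨hp, hp'⟩ q ⟨hq, hq'⟩
        by_contra hpq
        simp only [Set.mem_iUnion] at hp' hq'
        obtain ⟨j, hj, hp'⟩ := hp'
        obtain ⟨k, hk, hq'⟩ := hq'
        apply lv2 i
        rw [i.2]
        exact Gen.step hj hk (Set.mem_biUnion hp' (Set.mem_biUnion hq' ⟨hpq, hp, hq⟩))
      rw [← Set.sdiff_self_inter]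
      exact (h2 i).sdiff this.finite
    · refine Set.Countable.mono ?_
        ((h3 p q hpq).preimage (f := fun i : {i // lv i = α} => i.1) Subtype.val_injective)
      exact fun i hi => And.intro hi.1.1 hi.2.1
  choose c hc1 hc2 using layer
  refine ⟨fun i => c (lv i) ⟨i, rfl⟩, fun i j hij => ?_, fun i => (hc2 _ ⟨i, rfl⟩).1⟩
  have key : ∀ i j, lv i < lv j → c (lv i) ⟨i, rfl⟩ ≠ c (lv j) ⟨j, rfl⟩ := fun i j h e =>
    (hc2 _ ⟨j, rfl⟩).2 (Set.mem_biUnion (Cmono _ _ (Order.add_one_le_iff.mpr h) (lv1 i))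
      (e ▸ (hc2 _ ⟨i, rfl⟩).1))
  rcases lt_trichotomy (lv i) (lv j) with h | h | h
  · exact absurd hij (key i j h)
  · have e : ∀ α (h : lv j = α), c (lv j) ⟨j, rfl⟩ = c α ⟨j, h⟩ := by
      rintro _ rfl; rfl
    simp only at hij
    rw [e _ h.symm] at hij
    exact congrArg Subtype.val (hc1 _ hij)
  · exact absurd hij.symm (key j i h)

lemma lev_pair {G : Type u} [Group G] (τ : G → Ordinal.{u}) {a b : G}
    (ha : a ∉ H ∅ τ (τ a)) (hab : τ b < τ a) :
    lev ∅ τ (a * b⁻¹) = τ a ∧ lev ∅ τ (b * a⁻¹) = τ a ∧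
      lev ∅ τ (a⁻¹ * b) = τ a ∧ lev ∅ τ (b⁻¹ * a) = τ a := by
  have h1 : a ∈ H ∅ τ (τ a + 1) := mem_H_of_lt _ _ (Order.lt_add_one_iff.mpr le_rfl)
  have h2 : b ∈ H ∅ τ (τ a) := mem_H_of_lt _ _ hab
  have h3 : b ∈ H ∅ τ (τ a + 1) := H_mono _ _ le_self_add h2
  refine ⟨lev_eq _ _ (mul_mem h1 (inv_mem h3)) fun h => ha ?_,
    lev_eq _ _ (mul_mem h3 (inv_mem h1)) fun h => ha ?_,
    lev_eq _ _ (mul_mem (inv_mem h1) h3) fun h => ha ?_,
    lev_eq _ _ (mul_mem (inv_mem h3) h1) fun h => ha ?_⟩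
  · simpa using mul_mem h h2
  · simpa using mul_mem (inv_mem h) h2
  · simpa using mul_mem h2 (inv_mem h)
  · simpa using mul_mem h2 h

theorem uncountable_case (G : Type u) [Group G] (h0 : ℵ₀ < #G) :
    ∃ (J : Type u) (χ : G → J), #J = #G ∧ ∀ j,
      (∃ F : Set G, F.Countable ∧ ∀ g, ∃ f ∈ F, ∃ a, χ a = j ∧ g = f * a) ∧
      (∃ F : Set G, F.Countable ∧ ∀ g, ∃ f ∈ F, ∃ a, χ a = j ∧ g = a * f) := by
  classical
  obtain ⟨τ, hinj, -, -⟩ := exists_tau G
  let J : Set G := {g | g ∉ H ∅ τ (τ g)}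
  have hJ : #J = #G := by
    apply le_antisymm (mk_set_le _)
    have h1 : ∀ α, ∀ g, τ g = α → g ∈ Subgroup.closure J := by
      intro α
      induction α using WellFoundedLT.induction with
      | _ α ih =>
        rintro g rfl
        by_cases h : g ∈ H ∅ τ (τ g)
        · refine (Subgroup.closure_le _).mpr ?_ h
          rintro x (hx | hx)
          · exact hx.elim
          · exact ih _ hx x rfl
        · exact Subgroup.subset_closure h
    have h2 : #G ≤ #(Subgroup.closure J) :=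
      mk_le_of_injective (f := fun g => ⟨g, h1 _ g rfl⟩) fun a b h => congrArg Subtype.val h
    have h3 := h2.trans (card_closure_le _)
    by_contra hcon
    exact absurd h3 (not_le.mpr (max_lt h0 (not_le.mp hcon)))
  have hne : Nonempty J := mk_ne_zero_iff.mp (by rw [hJ]; exact (aleph0_pos.trans h0).ne')
  obtain ⟨e⟩ : Nonempty (J × ULift.{u} ℕ ≃ J) := Cardinal.eq.mp (by
    rw [mk_prod, Cardinal.lift_id, Cardinal.lift_id, mk_uLift, mk_nat, lift_aleph0, hJ]
    exact mul_eq_left h0.le h0.le aleph0_ne_zero)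
  let F : J → Set G := fun j => Set.range fun n => (e (j, n) : G)
  have hFc : ∀ j, (F j).Countable := fun j => Set.countable_range _
  have hFi : ∀ j, (F j).Infinite := fun j => Set.infinite_range_of_injective fun a b h => by
    simpa using e.injective (Subtype.ext h)
  let l : Bool × J × G → Set G := fun i =>
    if i.1 then (· * i.2.2) '' F i.2.1 else (i.2.2 * ·) '' F i.2.1
  have hsub : ∀ δ, {j : J | ∃ f ∈ F j, τ f = δ}.Countable := fun δ =>
    Set.Subsingleton.countable (by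
      rintro j ⟨_, ⟨n, rfl⟩, h1⟩ k ⟨_, ⟨m, rfl⟩, h2⟩
      have := e.injective (Subtype.ext (hinj (h1.trans h2.symm)))
      exact congrArg Prod.fst this)
  have hpair : ∀ j, ∀ f ∈ F j, ∀ f' ∈ F j, f ≠ f' →
      (∃ x ∈ F j, τ x = lev ∅ τ (f * f'⁻¹)) ∧ (∃ x ∈ F j, τ x = lev ∅ τ (f⁻¹ * f')) := by
    intro j f hf f' hf' hne
    have m1 : f ∈ J := by obtain ⟨n, rfl⟩ := hf; exact (e (j, n)).2
    have m2 : f' ∈ J := by obtain ⟨n, rfl⟩ := hf'; exact (e (j, n)).2
    rcases lt_or_gt_of_ne (fun h => hne (hinj h)) with h | h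
    · obtain ⟨-, a, -, b⟩ := lev_pair τ m2 h
      exact ⟨⟨f', hf', a.symm⟩, ⟨f', hf', b.symm⟩⟩
    · obtain ⟨a, -, b, -⟩ := lev_pair τ m1 h
      exact ⟨⟨f, hf, a.symm⟩, ⟨f, hf, b.symm⟩⟩
  obtain ⟨c, hc1, hc2⟩ := transversal (Bool × J × G) l
    (fun i => by simp only [l]; split_ifs <;> exact (hFc _).image _)
    (fun i => by
      simp only [l]
      split_ifs
      · exact (hFi _).image (mul_left_injective _).injOn
      · exact (hFi _).image (mul_right_injective _).injOn)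
    (fun p q hpq => by
      refine (((hsub (lev ∅ τ (p * q⁻¹))).biUnion
        (t := fun j _ => (fun f => (true, j, f⁻¹ * p)) '' F j) fun j _ => (hFc j).image _).union
        ((hsub (lev ∅ τ (p⁻¹ * q))).biUnion
        (t := fun j _ => (fun f => (false, j, p * f⁻¹)) '' F j) fun j _ => (hFc j).image _)).mono ?_
      rintro ⟨b, j, g⟩ ⟨hp, hq⟩
      cases b
      · right
        simp only [l, Bool.false_eq_true, if_false] at hp hq
        obtain ⟨f, hf, rfl⟩ := hp
        obtain ⟨f', hf', rfl⟩ := hq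
        have := (hpair j f hf f' hf' fun h => hpq (by rw [h])).2
        exact Set.mem_iUnion₂.mpr ⟨j, by simpa [mul_assoc] using this, f, hf, by simp⟩
      · left
        simp only [l, if_true] at hp hq
        obtain ⟨f, hf, rfl⟩ := hp
        obtain ⟨f', hf', rfl⟩ := hq
        have := (hpair j f hf f' hf' fun h => hpq (by rw [h])).1
        exact Set.mem_iUnion₂.mpr ⟨j, by simpa [mul_assoc] using this, f, hf, by simp⟩)
  refine ⟨J, Function.extend c (fun i => i.2.1) (fun _ => hne.some), hJ, fun j => ⟨?_, ?_⟩⟩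
  · refine ⟨(fun f => f⁻¹) '' F j, (hFc j).image _, fun g => ?_⟩
    obtain ⟨f, hf, h⟩ : c (true, j, g) ∈ (· * g) '' F j := by simpa [l] using hc2 (true, j, g)
    exact ⟨_, ⟨f, hf, rfl⟩, c (true, j, g), hc1.extend_apply _ _ _, by rw [← h]; simp⟩
  · refine ⟨(fun f => f⁻¹) '' F j, (hFc j).image _, fun g => ?_⟩
    obtain ⟨f, hf, h⟩ : c (false, j, g) ∈ (g * ·) '' F j := by simpa [l] using hc2 (false, j, g)
    exact ⟨_, ⟨f, hf, rfl⟩, c (false, j, g), hc1.extend_apply _ _ _, by rw [← h]; simp⟩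

end Pool.Agent.H19.Large
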