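import Mathlib
import Pool.Agent.H19.GS

set_option autoImplicit false
set_option maxSynthPendingDepth 3

namespace Pool.Agent.H19.GS

universe u v

variable {F : Type u} [Field F] {R : Type u} [CommRing R] [Algebra F R]

def VR (R : Type u) [CommRing R] [Algebra F R] (f : ℕ → T F) : Submodule R (T F →ₗ[F] R) where
  carrier := {φ | Good f φ}
  add_mem' := fun {a b} ha hb n hn p q => by simp [ha n hn, hb n hn]
  zero_mem' := fun _ _ _ _ => rfl
  smul_mem' := fun c a ha n hn p q => by simp [ha n hn]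

variable {f : ℕ → T F}

noncomputable def sig0 (t : T F) : Module.End R (VR R f) where
  toFun φ := ⟨φ.1 ∘ₗ LinearMap.mulRight F t, fun n hn p q => by
    simpa [mul_assoc] using φ.2 n hn p (q * t)⟩
  map_add' _ _ := rfl
  map_smul' _ _ := rfl

lemma End_ext {a b : Module.End R (VR R f)} (h : ∀ φ p, (a φ).1 p = (b φ).1 p) : a = b :=
  LinearMap.ext fun φ => Subtype.ext (LinearMap.ext (h φ))

lemma sig0_apply (t : T F) (φ : VR R f) (p : T F) : (sig0 t φ).1 p = φ.1 (p * t) := rfl

noncomputable def sig (R : Type u) [CommRing R] [Algebra F R] (f : ℕ → T F) :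
    T F →ₐ[F] Module.End R (VR R f) :=
  AlgHom.ofLinearMap
    { toFun := sig0
      map_add' := fun a b => End_ext fun φ p => by
        simp [sig0_apply, mul_add]
      map_smul' := fun c a => End_ext fun φ p => by
        simp [sig0_apply] }
    (End_ext fun φ p => by simp [sig0_apply])
    (fun a b => End_ext fun φ p => by simp [sig0_apply, mul_assoc])

lemma sig_apply (t : T F) (φ : VR R f) (p : T F) : (sig R f t φ).1 p = φ.1 (p * t) := rfl

noncomputable def EE (γ : VR R f) (p q : T F) : Module.End R (VR R f) where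
  toFun φ := φ.1 p • sig R f q γ
  map_add' a b := by simp [add_smul]
  map_smul' c a := by simp [mul_smul]

lemma EE_apply (γ : VR R f) (p q : T F) (φ : VR R f) : EE γ p q φ = φ.1 p • sig R f q γ := rfl

noncomputable def SS (γ : VR R f) : Submodule R (Module.End R (VR R f)) :=
  Submodule.span R (Set.range fun x : T F × T F => EE γ x.1 x.2)

lemma EE_mem (γ : VR R f) (p q : T F) : EE γ p q ∈ SS γ := Submodule.subset_span ⟨(p, q), rfl⟩

lemma SS_left {γ : VR R f} (t : T F) {s : Module.End R (VR R f)} (hs : s ∈ SS γ) :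
    sig R f t * s ∈ SS γ := by
  induction hs using Submodule.span_induction with
  | mem x hx =>
    obtain ⟨⟨p, q⟩, rfl⟩ := hx
    have : sig R f t * EE γ p q = EE γ p (t * q) := LinearMap.ext fun φ => by
      simp [EE_apply]
    exact this ▸ EE_mem γ _ _
  | zero => simp
  | add x y _ _ hx hy => rw [mul_add]; exact add_mem hx hy
  | smul c x _ hx => rw [mul_smul_comm]; exact Submodule.smul_mem _ _ hx

lemma SS_right {γ : VR R f} (t : T F) {s : Module.End R (VR R f)} (hs : s ∈ SS γ) :
    s * sig R f t ∈ SS γ := by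
  induction hs using Submodule.span_induction with
  | mem x hx =>
    obtain ⟨⟨p, q⟩, rfl⟩ := hx
    have : EE γ p q * sig R f t = EE γ (p * t) q := LinearMap.ext fun φ => by
      simp [EE_apply, sig_apply]
    exact this ▸ EE_mem γ _ _
  | zero => simp
  | add x y _ _ hx hy => rw [add_mul]; exact add_mem hx hy
  | smul c x _ hx => rw [smul_mul_assoc]; exact Submodule.smul_mem _ _ hx

lemma SS_mul {γ : VR R f} {s s' : Module.End R (VR R f)} (hs : s ∈ SS γ) (hs' : s' ∈ SS γ) :
    s * s' ∈ SS γ := by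
  induction hs using Submodule.span_induction with
  | mem x hx =>
    obtain ⟨⟨p, q⟩, rfl⟩ := hx
    induction hs' using Submodule.span_induction with
    | mem x hx =>
      obtain ⟨⟨p', q'⟩, rfl⟩ := hx
      have : EE γ p q * EE γ p' q' = γ.1 (p * q') • EE γ p' q := LinearMap.ext fun φ => by
        simp [EE_apply, sig_apply, smul_smul, mul_comm]
      exact this ▸ Submodule.smul_mem _ _ (EE_mem γ _ _)
    | zero => simp
    | add x y _ _ hx hy => rw [mul_add]; exact add_mem hx hy
    | smul c x _ hx => rw [mul_smul_comm]; exact Submodule.smul_mem _ _ hx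
  | zero => simp
  | add x y _ _ hx hy => rw [add_mul]; exact add_mem hx hy
  | smul c x _ hx => rw [smul_mul_assoc]; exact Submodule.smul_mem _ _ hx

lemma SS_nil {γ : VR R f} (hγ : ∀ t, IsNilpotent (γ.1 t)) {s : Module.End R (VR R f)}
    (hs : s ∈ SS γ) : IsNilpotent s := by
  obtain ⟨n, a, g, rfl⟩ := Submodule.mem_span_set'.mp hs
  choose x hx using fun i => (g i).2
  simp only [← hx]
  set s : Module.End R (VR R f) := ∑ i, a i • EE γ (x i).1 (x i).2 with hsdef
  let N : Ideal R := Ideal.span (Set.range fun ij : Fin n × Fin n => γ.1 ((x ij.1).1 * (x ij.2).2))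
  let W : Submodule R (VR R f) := Submodule.span R (Set.range fun j => sig R f (x j).2 γ)
  obtain ⟨m, hm⟩ : IsNilpotent N :=
    (Ideal.FG.isNilpotent_iff_le_nilradical (Submodule.fg_span (Set.finite_range _))).mpr
      (Ideal.span_le.mpr (by rintro _ ⟨ij, rfl⟩; exact hγ _))
  have h1 : ∀ φ, s φ ∈ W := fun φ => by
    simp only [hsdef, LinearMap.sum_apply, LinearMap.smul_apply, EE_apply]
    exact Submodule.sum_mem _ fun i _ => Submodule.smul_mem _ _
      (Submodule.smul_mem _ _ (Submodule.subset_span ⟨i, rfl⟩))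
  have h2 : W.map s ≤ N • W := by
    rw [Submodule.map_span_le]
    rintro _ ⟨j, rfl⟩
    simp only [hsdef, LinearMap.sum_apply, LinearMap.smul_apply, EE_apply, sig_apply]
    exact Submodule.sum_mem _ fun i _ => Submodule.smul_mem _ _
      (Submodule.smul_mem_smul (Ideal.subset_span ⟨(i, j), rfl⟩) (Submodule.subset_span ⟨i, rfl⟩))
  have h3 : ∀ k φ, (s ^ (k + 1)) φ ∈ N ^ k • W := by
    intro k φ
    induction k with
    | zero => simpa using h1 φ
    | succ k ih =>
      rw [pow_succ' s, Module.End.mul_apply]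
      have h4 : (N ^ k • W).map s ≤ N ^ (k + 1) • W := by
        rw [Submodule.map_smul'', pow_succ, mul_smul]
        exact Submodule.smul_mono le_rfl h2
      exact h4 ⟨_, ih, rfl⟩
  refine ⟨m + 1, LinearMap.ext fun φ => ?_⟩
  have := h3 m φ
  rw [hm] at this
  simpa using this

lemma aux_sub {A : Type*} [Ring A] (a b s t : A) :
    a * b - s * t = (a - s) * (b - t) + s * (b - t) + (a - s) * t := by noncomm_ring

noncomputable def DD (γ : VR R f) : NonUnitalSubalgebra F (Module.End R (VR R f)) where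
  carrier := {z | ∃ D t, t ∈ Rg F 1 D ∧ z - sig R f t ∈ SS γ}
  add_mem' := by
    rintro a b ⟨D, t, h1, h2⟩ ⟨D', t', h3, h4⟩
    refine ⟨D + D', t + t', add_mem (Rg_mono le_rfl (by omega) h1) (Rg_mono le_rfl (by omega) h3),
      ?_⟩
    have := add_mem h2 h4
    rwa [map_add, ← sub_add_sub_comm]
  zero_mem' := ⟨0, 0, zero_mem _, by simp⟩
  mul_mem' := by
    rintro a b ⟨D, t, h1, h2⟩ ⟨D', t', h3, h4⟩
    refine ⟨D + D', t * t', Rg_mono (by omega) le_rfl (Rg_mul h1 h3), ?_⟩
    rw [map_mul, aux_sub]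
    exact add_mem (add_mem (SS_mul h2 h4) (SS_left t h4)) (SS_right t' h2)
  smul_mem' := by
    rintro c a ⟨D, t, h1, h2⟩
    refine ⟨D, c • t, Submodule.smul_mem _ _ h1, ?_⟩
    rw [map_smul, ← smul_sub]
    exact Submodule.smul_of_tower_mem _ c h2

lemma DD_nil {γ : VR R f} (hγ : ∀ t, IsNilpotent (γ.1 t))
    (hf : ∀ (D : ℕ) (t : T F), t ∈ Rg F 1 D → ∃ (N : ℕ) (s : Finset ℕ), (∀ m ∈ s, 2 ≤ m) ∧
      t ^ N = ∑ m ∈ s, f m) {z : Module.End R (VR R f)} (hz : z ∈ DD γ) : IsNilpotent z := by
  obtain ⟨D, t, h1, h2⟩ := hz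
  obtain ⟨N, s, h3, h4⟩ := hf D t h1
  have h5 : ∀ k, z ^ k - sig R f t ^ k ∈ SS γ := fun k => by
    induction k with
    | zero => simp
    | succ k ih =>
      have := add_mem (add_mem (SS_mul ih h2) (SS_left (t ^ k) h2)) (SS_right t ih)
      rw [pow_succ, pow_succ, aux_sub]
      rwa [map_pow] at this
  have h6 : sig R f t ^ N = 0 := by
    rw [← map_pow, h4, map_sum]
    refine Finset.sum_eq_zero fun m hm => End_ext fun φ p => ?_
    simpa [sig_apply] using φ.2 m (h3 m hm) p 1
  have := h5 N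
  rw [h6, sub_zero] at this
  exact (SS_nil hγ this).of_pow

open Polynomial in
lemma exists_R (F : Type u) [Field F] : ∃ (R : Type u) (_ : CommRing R) (_ : Algebra F R)
    (τ : ℕ → R), ∀ n, IsNilpotent (τ n) ∧ τ n ^ n ≠ 0 := by
  refine ⟨∀ n : ℕ, AdjoinRoot ((X : F[X]) ^ (n + 1)), inferInstance, inferInstance,
    fun n => Pi.single n (AdjoinRoot.root _), fun n => ⟨⟨n + 1, ?_⟩, fun h => ?_⟩⟩
  · funext m
    by_cases h : m = n
    · subst h
      simp only [Pi.pow_apply, Pi.single_eq_same, Pi.zero_apply]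
      rw [← AdjoinRoot.mk_X, ← map_pow, AdjoinRoot.mk_self]
    · simp [Pi.single_eq_of_ne h]
  · have := congrFun h n
    simp only [Pi.pow_apply, Pi.single_eq_same, Pi.zero_apply] at this
    rw [← AdjoinRoot.mk_X, ← map_pow, AdjoinRoot.mk_eq_zero] at this
    have h2 := natDegree_le_of_dvd this (pow_ne_zero _ X_ne_zero)
    simp at h2

/-- For a countable field and any countable magma with a prescribed exponent function there is a
countable nil algebra which is not a multiplicative image respecting the exponents. -/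
theorem core (F : Type u) [Field F] [Countable F] (U : Type v) [Mul U] [Countable U] [Nonempty U]
    (D : U → ℕ) : ∃ (A : Type u) (_ : Ring A) (_ : Algebra F A) (C : NonUnitalSubalgebra F A),
      Countable C ∧ (∀ z ∈ C, IsNilpotent z) ∧
      ∀ ψ : U → C, Function.Surjective ψ → (∀ a b, ψ (a * b) = ψ a * ψ b) →
        ∃ a, (ψ a : A) ^ (D a) ≠ 0 := by
  obtain ⟨R, _, _, τ, hτ⟩ := exists_R F
  obtain ⟨f, hf1, hf2⟩ := exists_rel (F := F)
  choose lam hlam wd hwd1 hwd2 using gs hf1
  obtain ⟨e, he⟩ := exists_surjective_nat ((Fin 3 → U) × U)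
  let el : ℕ → U := fun n => (wd n).toList.foldl (fun acc a => acc * (e n).1 a) (e n).2
  let γ0 : T F →ₗ[F] R := lin fun w => lam w.length (o F w) • τ (D (el w.length) + 1)
  have hγ0 : ∀ m, ∀ t ∈ Rg F m m, γ0 t = lam m t • τ (D (el m) + 1) := fun m t ht =>
    eq_on (φ := γ0) (ψ := (lam m).smulRight (τ (D (el m) + 1))) (fun w h1 h2 => by
      obtain rfl : w.length = m := le_antisymm h2 h1
      simp [γ0]) ht
  let γ : VR R f := ⟨γ0, good_of_words fun m hm p q => by
    have := Rg_mul (Rg_mul (o_mem (w := p) le_rfl le_rfl) (hf1 m)) (o_mem (w := q) le_rfl le_rfl)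
    rw [hγ0 _ _ this, (hlam _).1 m hm, zero_smul]⟩
  have hγ : ∀ t, IsNilpotent (γ.1 t) := fun t => by
    have : ((nilradical R).restrictScalars F).mkQ ∘ₗ γ0 = 0 := ext_o fun w => by
      simp only [γ0, LinearMap.comp_apply, lin_o, LinearMap.zero_apply, Submodule.mkQ_apply,
        Submodule.Quotient.mk_eq_zero]
      exact Submodule.smul_mem _ _ (hτ _).1
    exact mem_nilradical.mp (by simpa using LinearMap.congr_fun this t)
  let gens : Set (Module.End R (VR R f)) :=
    insert (EE γ 1 1) (Set.range fun x => sig R f (o F (FreeMonoid.of x)))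
  have hfin : gens.Finite := (Set.finite_range _).insert _
  refine ⟨Module.End R (VR R f), inferInstance, inferInstance, NonUnitalAlgebra.adjoin F gens,
    ?_, fun z hz => DD_nil hγ hf2 (NonUnitalAlgebra.adjoin_le ?_ hz), fun ψ hψ hmul => ?_⟩
  · have h1 := Algebra.cardinalMk_adjoin_le F gens
    have h2 : Countable (Algebra.adjoin F gens) := Cardinal.mk_le_aleph0_iff.mp (h1.trans
      (sup_le (sup_le Cardinal.mk_le_aleph0 hfin.lt_aleph0.le) le_rfl))
    have h3 : NonUnitalAlgebra.adjoin F gens ≤ (Algebra.adjoin F gens).toNonUnitalSubalgebra :=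
      NonUnitalAlgebra.adjoin_le Algebra.subset_adjoin
    exact Function.Injective.countable (f := fun z : NonUnitalAlgebra.adjoin F gens =>
      (⟨z.1, h3 z.2⟩ : Algebra.adjoin F gens)) fun a b h => Subtype.ext (by simpa using h)
  · rintro _ (rfl | ⟨x, rfl⟩)
    · exact ⟨0, 0, zero_mem _, by simpa using EE_mem γ 1 1⟩
    · exact ⟨1, _, o_mem (w := FreeMonoid.of x) le_rfl le_rfl, by simp⟩
  · obtain ⟨η, hη⟩ := hψ ⟨EE γ 1 1, NonUnitalAlgebra.subset_adjoin F (Or.inl rfl)⟩
    choose ξ hξ using fun x => hψ ⟨sig R f (o F (FreeMonoid.of x)),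
      NonUnitalAlgebra.subset_adjoin F (Or.inr ⟨x, rfl⟩)⟩
    obtain ⟨n, hn⟩ := he (ξ, η)
    have h1 : ∀ (l : List (Fin 3)) (a : U), (ψ (l.foldl (fun acc a => acc * ξ a) a) :
        Module.End R (VR R f)) = ψ a * sig R f (o F (FreeMonoid.ofList l)) := by
      intro l
      induction l with
      | nil => simp
      | cons x l ih =>
        intro a
        rw [List.foldl_cons, ih, hmul, FreeMonoid.ofList_cons, map_mul, map_mul, ← mul_assoc, hξ]
        rfl
    have h2 : (ψ (el n) : Module.End R (VR R f)) = EE γ (o F (wd n)) 1 := by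
      simp only [el, hn]
      rw [h1, hη]
      exact LinearMap.ext fun φ => by simp [EE_apply, sig_apply]
    have h3 : γ.1 (o F (wd n)) = τ (D (el n) + 1) := by
      have := hγ0 n _ (o_mem (hwd1 n).ge (hwd1 n).le)
      rw [hwd2, one_smul] at this
      exact this
    have h4 : ∀ k, (EE γ (o F (wd n)) 1 ^ k) γ = τ (D (el n) + 1) ^ k • γ := fun k => by
      induction k with
      | zero => simp
      | succ k ih =>
        rw [pow_succ', Module.End.mul_apply, ih, map_smul, EE_apply, h3, map_one,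
          Module.End.one_apply, smul_smul, pow_succ]
    refine ⟨el n, fun h => (hτ (D (el n) + 1)).2 ?_⟩
    have h5 := h4 (D (el n))
    rw [← h2, h] at h5
    have h6 := congrArg (fun φ : VR R f => φ.1 (o F (wd n))) h5
    simp only [LinearMap.zero_apply, Submodule.coe_zero, Submodule.coe_smul, LinearMap.smul_apply,
      h3, smul_eq_mul] at h6
    rw [pow_succ, ← h6]

end Pool.Agent.H19.GS
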