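import Mathlib

set_option autoImplicit false

namespace Pool.Agent.H19.NilRep

abbrev W := List (Fin 3)

section gen
variable (R : Type) [Field R]

def sh (u : W) : Module.End R (W → R) := LinearMap.funLeft R R (fun w => w ++ u)

def pre (u : W) : Module.End R (W → R) := LinearMap.funLeft R R (fun w => u ++ w)

noncomputable def op (b : W →₀ ℤ) : Module.End R (W → R) := ∑ x ∈ b.support, b x • sh R x

variable {R}

@[simp] theorem sh_apply (u : W) (f : W → R) (w : W) : sh R u f w = f (w ++ u) := rfl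

@[simp] theorem pre_apply (u : W) (f : W → R) (w : W) : pre R u f w = f (u ++ w) := rfl

theorem op_eq (b : W →₀ ℤ) (f : W → R) :
    op R b f = ∑ x ∈ b.support, (b x : R) • sh R x f := by
  simp [op, Int.cast_smul_eq_zsmul]

theorem op_apply (b : W →₀ ℤ) (f : W → R) (w : W) :
    op R b f w = ∑ x ∈ b.support, (b x : R) * f (w ++ x) := by
  simp [op_eq]

theorem pre_op (b : W →₀ ℤ) (u : W) (s : ℕ) (f : W → R) :
    pre R u ((op R b ^ s) f) = (op R b ^ s) (pre R u f) := by
  induction s with
  | zero => rfl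
  | succ s ih =>
    rw [pow_succ', Module.End.mul_apply, Module.End.mul_apply, ← ih]
    ext w
    simp [op_apply]

def tens (L : ℕ) (f g : W → R) : W → R := fun w => f (w.take L) * g (w.drop L)

def Supp (L : ℕ) (f : W → R) : Prop := ∀ w, w.length ≠ L → f w = 0

theorem Supp.tens {L m : ℕ} {f g : W → R} (hf : Supp L f) (hg : Supp m g) :
    Supp (L + m) (tens L f g) := by
  intro w hw
  by_cases h : L ≤ w.length
  · simp [NilRep.tens, hg (w.drop L) (by simp; omega)]
  · simp [NilRep.tens, hf (w.take L) (by simp; omega)]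

end gen

abbrev F := W → ℚ

def res (L : ℕ) : Module.End ℚ F where
  toFun h := fun w => if w.length = L then h w else 0
  map_add' a b := by ext w; by_cases h : w.length = L <;> simp [h]
  map_smul' a b := by ext w; by_cases h : w.length = L <;> simp [h]

def trunc (L : ℕ) : Module.End ℚ F where
  toFun h := fun w => if w.length < L then h w else 0
  map_add' a b := by ext w; by_cases h : w.length < L <;> simp [h]
  map_smul' a b := by ext w; by_cases h : w.length < L <;> simp [h]

theorem res_apply (L : ℕ) (h : F) (w : W) : res L h w = if w.length = L then h w else 0 := rfl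

theorem trunc_apply (L : ℕ) (h : F) (w : W) :
    trunc L h w = if w.length < L then h w else 0 := rfl

def AA (L : ℕ) (U : Submodule ℚ F) : Submodule ℚ F := ⨅ u, U.comap (res L ∘ₗ sh ℚ u)

def Good (L : ℕ) (U : Submodule ℚ F) : Submodule ℚ F :=
  ⨅ u : W, ⨅ _ : L ∣ u.length, (AA L U).comap (pre ℚ u)

theorem mem_AA {L : ℕ} {U : Submodule ℚ F} {h : F} :
    h ∈ AA L U ↔ ∀ u, res L (sh ℚ u h) ∈ U := by simp [AA]

theorem mem_Good {L : ℕ} {U : Submodule ℚ F} {h : F} :
    h ∈ Good L U ↔ ∀ u : W, L ∣ u.length → pre ℚ u h ∈ AA L U := by simp [Good]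

theorem AA_sh {L : ℕ} {U : Submodule ℚ F} {h : F} (hh : h ∈ AA L U) (x : W) :
    sh ℚ x h ∈ AA L U := by
  rw [mem_AA] at *
  intro u
  have : sh ℚ u (sh ℚ x h) = sh ℚ (u ++ x) h := by ext; simp
  rw [this]; exact hh _

theorem Good_sh {L : ℕ} {U : Submodule ℚ F} {h : F} (hh : h ∈ Good L U) (x : W) :
    sh ℚ x h ∈ Good L U := by
  rw [mem_Good] at *
  intro u hu
  have : pre ℚ u (sh ℚ x h) = sh ℚ x (pre ℚ u h) := by ext; simp
  rw [this]; exact AA_sh (hh u hu) x

theorem op_mem {S : Submodule ℚ F} (hS : ∀ h ∈ S, ∀ x, sh ℚ x h ∈ S) (b : W →₀ ℤ) (s : ℕ)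
    {h : F} (hh : h ∈ S) : (op ℚ b ^ s) h ∈ S := by
  induction s with
  | zero => exact hh
  | succ s ih =>
    rw [pow_succ', Module.End.mul_apply, op_eq]
    exact S.sum_mem fun x _ => S.smul_mem _ (hS _ ih x)

section nil
variable {b : W →₀ ℤ} {D L : ℕ} {U : Submodule ℚ F}

theorem van (hb : ∀ x ∈ b.support, 0 < x.length) {N : ℕ} {f : F}
    (hf : ∀ w, N ≤ w.length → f w = 0) (s : ℕ) :
    ∀ w, N ≤ w.length + s → (op ℚ b ^ s) f w = 0 := by
  induction s with
  | zero => exact hf
  | succ s ih =>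
    intro w hw
    rw [pow_succ', Module.End.mul_apply, op_apply]
    refine Finset.sum_eq_zero fun x hx => ?_
    rw [ih _ (by have := hb x hx; simp; omega), mul_zero]

theorem bdry {E : Submodule ℚ F} (hE : ∀ φ ∈ U, ∀ q : W, q.length ≤ D → sh ℚ q φ ∈ E)
    (x : W) : x.length ≤ D → ∀ h ∈ AA L U, trunc L (sh ℚ x (h - trunc L h)) ∈ E := by
  induction x using List.reverseRecOn with
  | nil =>
    intro _ h _
    have : trunc L (sh ℚ [] (h - trunc L h)) = 0 := by
      ext w; simp only [trunc_apply, sh_apply, Pi.sub_apply, List.append_nil]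
      split_ifs <;> simp
    rw [this]; exact E.zero_mem
  | append_singleton y i ih =>
    intro hx h hh
    have : trunc L (sh ℚ (y ++ [i]) (h - trunc L h)) =
        trunc L (sh ℚ y (sh ℚ [i] h - trunc L (sh ℚ [i] h))) +
          sh ℚ (y ++ [i]) (res L (sh ℚ [] h)) := by
      ext w
      simp only [trunc_apply, res_apply, sh_apply, Pi.sub_apply, Pi.add_apply, List.append_nil,
        List.length_append, List.length_singleton, List.append_assoc]
      split_ifs <;> first | omega | simp
    rw [this]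
    exact E.add_mem (ih (by simp at hx; omega) _ (AA_sh hh _)) (hE _ (mem_AA.1 hh _) _ hx)

noncomputable def EE (b : W →₀ ℤ) (D L j : ℕ) : Submodule ℚ F :=
  ⨅ s : ℕ, ⨅ _ : s + j ≤ L, ⨅ q : W, ⨅ _ : q.length ≤ D,
    LinearMap.ker (LinearMap.proj q ∘ₗ (op ℚ b ^ s))

theorem mem_EE {j : ℕ} {e : F} : e ∈ EE b D L j ↔
    ∀ s, s + j ≤ L → ∀ q : W, q.length ≤ D → (op ℚ b ^ s) e q = 0 := by simp [EE]

theorem stepA (hb : ∀ x ∈ b.support, 0 < x.length ∧ x.length ≤ D) (hDL : D < L)
    (hk : ∀ φ ∈ U, ∀ q : W, q.length ≤ D → sh ℚ q φ ∈ EE b D L 0) {g : F} (hg : g ∈ AA L U)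
    (q : W) (hq : q.length ≤ D) : (op ℚ b ^ L) g q = 0 := by
  have key : ∀ j, trunc L ((op ℚ b ^ j) g) - (op ℚ b ^ j) (trunc L g) ∈ EE b D L j := by
    intro j
    induction j with
    | zero => simp
    | succ j ih =>
      have hh := op_mem (fun h hh x => AA_sh hh x) b j hg
      rw [pow_succ', Module.End.mul_apply, Module.End.mul_apply]
      generalize (op ℚ b ^ j) g = h at *
      generalize (op ℚ b ^ j) (trunc L g) = h' at *
      have e1 : trunc L (op ℚ b (trunc L h)) = op ℚ b (trunc L h) := by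
        ext w
        rw [trunc_apply]
        split_ifs with hw
        · rfl
        · exact (van (fun x hx => (hb x hx).1) (N := L) (fun w hw => by
            rw [trunc_apply, if_neg (by omega)]) 1 w (by omega)).symm
      have e2 : trunc L (op ℚ b h) - op ℚ b h' =
          op ℚ b (trunc L h - h') + trunc L (op ℚ b (h - trunc L h)) := by
        simp only [map_sub, e1]; abel
      rw [e2]
      refine Submodule.add_mem _ ?_ ?_
      · rw [mem_EE] at *
        intro s hs q hq
        exact ih (s + 1) (by omega) q hq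
      · rw [op_eq, map_sum]
        refine Submodule.sum_mem _ fun x hx => ?_
        rw [map_smul]
        refine Submodule.smul_mem _ _ (bdry (U := U) (D := D) ?_ x (hb x hx).2 h hh)
        intro φ hφ q hq
        have := hk φ hφ q hq
        rw [mem_EE] at *
        intro s hs
        exact this s (by omega)
  have h1 := mem_EE.1 (key L) 0 (by omega) q hq
  have h2 := van (fun x hx => (hb x hx).1) (N := L) (f := trunc L g) (fun w hw => by
    rw [trunc_apply, if_neg (by omega)]) L q (by omega)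
  simp only [pow_zero, Module.End.one_apply, Pi.sub_apply, h2, trunc_apply] at h1
  rw [if_pos (by omega)] at h1
  simpa using h1

theorem stepB (hb : ∀ x ∈ b.support, 0 < x.length ∧ x.length ≤ D) (hDL : D < L)
    (hk : ∀ φ ∈ U, ∀ q : W, q.length ≤ D → sh ℚ q φ ∈ EE b D L 0) {f : F} (hf : f ∈ Good L U) :
    (op ℚ b ^ (L + L)) f = 0 := by
  have key : ∀ c, L ∣ c → ∀ k, ∀ w : W, w.length ≤ c + D → c ≤ w.length + k →
      (op ℚ b ^ (L + k)) f w = 0 := by
    intro c hc
    have base : ∀ k, ∀ w : W, w.length ≤ c + D → c ≤ w.length →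
        (op ℚ b ^ (L + k)) f w = 0 := by
      intro k w h1 h2
      have h3 := op_mem (fun h hh x => Good_sh hh x) b k hf
      have h4 := stepA hb hDL hk (mem_Good.1 h3 (w.take c) (by simpa [h2] using hc)) (w.drop c)
        (by simp; omega)
      rw [← pre_op, pre_apply, List.take_append_drop] at h4
      rw [pow_add]; exact h4
    intro k
    induction k with
    | zero => exact base 0
    | succ k ih =>
      intro w h1 h2
      by_cases h : c ≤ w.length
      · exact base _ w h1 h
      · rw [← add_assoc, pow_succ', Module.End.mul_apply, op_apply]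
        refine Finset.sum_eq_zero fun x hx => ?_
        have := hb x hx
        rw [ih _ (by simp; omega) (by simp; omega), mul_zero]
  ext w
  have h1 := Nat.div_add_mod w.length L
  have h2 := Nat.mod_lt w.length (show 0 < L by omega)
  exact key (L * (w.length / L) + L) ((dvd_mul_right _ _).add dvd_rfl) L w (by omega) (by omega)

end nil

theorem Good_tens {L Λ : ℕ} {U : Submodule ℚ F} (hd : L ∣ Λ) {f g : F} (hf : f ∈ Good L U)
    (hg : g ∈ Good L U) : tens Λ f g ∈ Good L U := by
  rw [mem_Good] at *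
  intro w₁ h1
  rw [mem_AA]
  intro u
  by_cases h : Λ ≤ w₁.length
  · have : res L (sh ℚ u (pre ℚ w₁ (tens Λ f g))) =
        f (w₁.take Λ) • res L (sh ℚ u (pre ℚ (w₁.drop Λ) g)) := by
      ext w
      simp only [res_apply, sh_apply, pre_apply, tens, Pi.smul_apply, smul_eq_mul]
      rw [List.take_append_of_le_length h, List.drop_append_of_le_length h]
      split_ifs <;> simp
    rw [this]
    exact U.smul_mem _ (mem_AA.1 (hg _ (by simpa using Nat.dvd_sub h1 hd)) u)
  · have h2 : L ≤ Λ - w₁.length := Nat.le_of_dvd (by omega) (Nat.dvd_sub hd h1)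
    have : res L (sh ℚ u (pre ℚ w₁ (tens Λ f g))) = g (u.drop (Λ - w₁.length - L)) •
        res L (sh ℚ (u.take (Λ - w₁.length - L)) (pre ℚ w₁ f)) := by
      ext w
      simp only [res_apply, sh_apply, pre_apply, tens, Pi.smul_apply, smul_eq_mul]
      split_ifs with hw
      · rw [List.take_append, List.drop_append, List.take_append, List.drop_append, hw,
          List.take_of_length_le (by omega), List.take_of_length_le (l := w) (by omega),
          List.drop_of_length_le (by omega), List.drop_of_length_le (l := w) (by omega)]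
        simp [mul_comm]
      · simp
    rw [this]
    exact U.smul_mem _ (mem_AA.1 (hf _ h1) _)

theorem Good_of_Supp {L m : ℕ} {U : Submodule ℚ F} {f : F} (hf : Supp m f) (hm : m ≤ L)
    (h : m = L → f ∈ U) : f ∈ Good L U := by
  rw [mem_Good]
  intro w₁ _
  rw [mem_AA]
  intro u
  by_cases h0 : w₁.length + L + u.length = m
  · have e1 : w₁ = [] := List.length_eq_zero_iff.1 (by omega)
    have e2 : u = [] := List.length_eq_zero_iff.1 (by omega)
    have e3 : m = L := by omega
    subst e1 e2 e3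
    have : res m (sh ℚ [] (pre ℚ [] f)) = f := by
      ext w
      simp only [res_apply, sh_apply, pre_apply, List.nil_append, List.append_nil]
      split_ifs with hw
      · rfl
      · exact (hf w hw).symm
    rw [this]; exact h rfl
  · have : res L (sh ℚ u (pre ℚ w₁ f)) = 0 := by
      ext w
      simp only [res_apply, sh_apply, pre_apply, Pi.zero_apply]
      split_ifs with hw
      · exact hf _ (by simp; omega)
      · rfl
    rw [this]; exact U.zero_mem

section lev
variable {K : Type} [Field K] [CharZero K] (lam : Fin 3 → K)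

def ev : ℕ → (W → K) → K
  | 0, G => G []
  | n + 1, G => ∑ i, lam i * ev n (fun u => G (i :: u))

def cst (f : F) : W → K := fun w => (f w : K)

theorem ev_tens (m : ℕ) (g : W → K) (L : ℕ) :
    ∀ f : W → K, ev lam (L + m) (tens L f g) = ev lam L f * ev lam m g := by
  induction L with
  | zero =>
    intro f
    rw [zero_add]
    have : ∀ (c : K) (m : ℕ) (g : W → K), ev lam m (fun w => c * g w) = c * ev lam m g := by
      intro c m
      induction m with
      | zero => intro g; rfl
      | succ m ih => intro g; simp only [ev, ih, Finset.mul_sum, mul_left_comm]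
    exact this (f []) m g
  | succ L ih =>
    intro f
    rw [add_right_comm]
    simp only [ev, Finset.sum_mul, mul_assoc, ← ih]
    rfl

theorem ev_sum {ι : Type} (s : Finset ι) (c : ι → K) (n : ℕ) : ∀ g : ι → W → K,
    ev lam n (fun w => ∑ a ∈ s, c a * g a w) = ∑ a ∈ s, c a * ev lam n (g a) := by
  induction n with
  | zero => intro g; rfl
  | succ n ih =>
    intro g
    simp only [ev, ih, Finset.mul_sum]
    rw [Finset.sum_comm]
    simp only [mul_left_comm]

structure Lev where
  L : ℕ
  φ : Fin 3 → F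
  p : K
  pos : 0 < L
  supp : ∀ i, Supp L (φ i)
  hp : p ≠ 0
  hev : ∀ i, ev lam L (cst (φ i)) = p * lam i

variable {lam}

def Lev.tp (d : Lev lam) : W → F
  | [] => fun w => if w = [] then 1 else 0
  | i :: y => tens d.L (d.φ i) (d.tp y)

theorem Lev.tp_supp (d : Lev lam) (y : W) : Supp (y.length * d.L) (d.tp y) := by
  induction y with
  | nil =>
    intro w hw
    simp only [Lev.tp]
    rw [if_neg]
    rintro rfl
    simp at hw
  | cons i y ih =>
    rw [List.length_cons, add_mul, one_mul, add_comm]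
    exact (d.supp i).tens ih

theorem cst_tens (L : ℕ) (f g : F) : cst (K := K) (tens L f g) = tens L (cst f) (cst g) := by
  ext w; simp [cst, tens]

theorem Lev.tp_ev (d : Lev lam) (y : W) :
    ev lam (y.length * d.L) (cst (d.tp y)) = d.p ^ y.length * (y.map lam).prod := by
  induction y with
  | nil => simp [ev, cst, Lev.tp]
  | cons i y ih =>
    rw [List.length_cons, add_mul, one_mul, add_comm, Lev.tp, cst_tens, ev_tens, ih, d.hev]
    simp only [List.map_cons, List.prod_cons]
    ring

theorem Lev.tp_good (d : Lev lam) {L : ℕ} {U : Submodule ℚ F} (hL : 0 < L) (hd : L ∣ d.L)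
    (h : ∀ i, d.φ i ∈ Good L U) (y : W) : d.tp y ∈ Good L U := by
  induction y with
  | nil => exact Good_of_Supp (d.tp_supp []) (by simp) (by simp; omega)
  | cons i y ih => exact Good_tens hd (h i) ih

def Rel (b : W →₀ ℤ) (d d' : Lev lam) : Prop :=
  d.L < d'.L ∧ d.L ∣ d'.L ∧
  (∀ L U, 0 < L → L ∣ d.L → (∀ i, d.φ i ∈ Good L U) → ∀ i, d'.φ i ∈ Good L U) ∧
  (b [] = 0 → ∀ f ∈ Good d'.L (Submodule.span ℚ (Set.range d'.φ)),
    (op ℚ b ^ (d'.L + d'.L)) f = 0)

def yw (M : ℕ) (a : Fin (M + 1) × Fin (M + 1)) : W :=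
  List.replicate a.1 1 ++ List.replicate a.2 2 ++ List.replicate (2 * M - a.1 - a.2) 0

theorem yw_len (M : ℕ) (a : Fin (M + 1) × Fin (M + 1)) : (yw M a).length = 2 * M := by
  have := a.1.2; have := a.2.2
  simp [yw]; omega

def Ind (lam : Fin 3 → K) : Prop := ∀ M (γ : Fin (M + 1) × Fin (M + 1) → ℚ),
  ∑ a, (γ a : K) * ((yw M a).map lam).prod = 0 → γ = 0

theorem step (hl : Ind lam)
    (b : W →₀ ℤ) (d : Lev lam) : ∃ d', Rel b d d' := by
  let D := b.support.sup List.length
  let C := (List.finite_length_le (Fin 3) D).toFinset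
  let M := 6 * d.L * C.card ^ 2 + D + 1
  let L' := d.L + 2 * M * d.L
  let Ψ : (Fin (M + 1) × Fin (M + 1) → ℚ) →ₗ[ℚ] F :=
    Fintype.linearCombination ℚ fun a => d.tp (yw M a)
  let T : Fin 3 → F →ₗ[ℚ] F := fun i =>
    { toFun := tens d.L (d.φ i)
      map_add' := fun a b => by ext w; simp [tens, mul_add]
      map_smul' := fun a b => by ext w; simp [tens, mul_left_comm] }
  let Θ : (Fin (M + 1) × Fin (M + 1) → ℚ) →ₗ[ℚ] (Fin 3 × Fin (L' + 1) × C × C → ℚ) :=
    LinearMap.pi fun e => LinearMap.proj e.2.2.2.1 ∘ₗ (op ℚ b ^ e.2.1.1) ∘ₗ sh ℚ e.2.2.1.1 ∘ₗ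
      T e.1 ∘ₗ Ψ
  have hpos := d.pos
  have hker := LinearMap.ker_ne_bot_of_finrank_lt (f := Θ) (by
    simp only [Module.finrank_fintype_fun_eq_card, Fintype.card_prod, Fintype.card_fin,
      Fintype.card_coe]
    have h1 : L' + 1 ≤ 2 * (M + 1) * d.L := by simp only [L']; nlinarith
    have h2 : 6 * d.L * C.card ^ 2 < M + 1 := by simp only [M]; omega
    calc 3 * ((L' + 1) * (C.card * C.card)) ≤ 3 * (2 * (M + 1) * d.L * (C.card * C.card)) := by
          gcongr
      _ = (M + 1) * (6 * d.L * C.card ^ 2) := by ring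
      _ < _ := by gcongr)
  obtain ⟨γ, hγ, hγ0⟩ := (Submodule.ne_bot_iff _).1 hker
  have hΨ : Ψ γ = ∑ a, γ a • d.tp (yw M a) := Fintype.linearCombination_apply _ _ _
  have sΨ : Supp (2 * M * d.L) (Ψ γ) := by
    intro w hw
    rw [hΨ, Finset.sum_apply]
    refine Finset.sum_eq_zero fun a _ => ?_
    simp [d.tp_supp (yw M a) w (by rwa [yw_len])]
  have eΨ : ev lam (2 * M * d.L) (cst (Ψ γ)) =
      d.p ^ (2 * M) * ∑ a, (γ a : K) * ((yw M a).map lam).prod := by
    have : cst (K := K) (Ψ γ) = fun w => ∑ a, (γ a : K) * cst (d.tp (yw M a)) w := by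
      ext w; simp [hΨ, cst, Finset.sum_apply]
    rw [this, ev_sum, Finset.mul_sum]
    refine Finset.sum_congr rfl fun a _ => ?_
    have := d.tp_ev (yw M a)
    rw [yw_len] at this
    rw [this, mul_left_comm]
  have nz : ∑ a, (γ a : K) * ((yw M a).map lam).prod ≠ 0 := fun h => hγ0 (hl M γ h)
  have hML : M ≤ L' := by simp only [L']; nlinarith
  refine ⟨⟨L', fun i => tens d.L (d.φ i) (Ψ γ), d.p * ev lam (2 * M * d.L) (cst (Ψ γ)),
    by omega, fun i => (d.supp i).tens sΨ, ?_, fun i => ?_⟩, ?_, ?_, ?_, ?_⟩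
  · rw [eΨ]; exact mul_ne_zero d.hp (mul_ne_zero (pow_ne_zero _ d.hp) nz)
  · rw [cst_tens, ev_tens, d.hev]; ring
  · have : 0 < 2 * M * d.L := by positivity
    simp only [L']; omega
  · exact dvd_rfl.add (dvd_mul_left _ _)
  · intro L U hL hd h i
    refine Good_tens hd (h i) ?_
    rw [hΨ]
    exact Submodule.sum_mem _ fun a _ => Submodule.smul_mem _ _ (d.tp_good hL hd h _)
  · intro hb f hf
    refine stepB (D := D) (fun x hx => ⟨?_, Finset.le_sup (f := List.length) hx⟩) ?_ ?_ hf
    · rw [List.length_pos_iff]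
      rintro rfl
      simp [hb] at hx
    · show D < L'
      have : D < M := by simp only [M]; omega
      omega
    · intro φ hφ q hq
      refine (Submodule.span_le (p := (EE b D L' 0).comap (sh ℚ q))).2 ?_ hφ
      rintro _ ⟨i, rfl⟩
      refine mem_EE.2 fun s hs q' hq' => ?_
      exact congrFun hγ (i, ⟨s, by omega⟩, ⟨q, by simpa [C] using hq⟩,
        ⟨q', by simpa [C] using hq'⟩)

def lev0 (lam : Fin 3 → K) : Lev lam where
  L := 1
  φ i := fun w => if w = [i] then 1 else 0
  p := 1
  pos := one_pos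
  supp i w hw := if_neg (by
    rintro rfl
    simp at hw)
  hp := one_ne_zero
  hev i := by simp [ev, cst, apply_ite]

theorem tower (hl : Ind lam) :
    ∃ d : ℕ → Lev lam, (∀ m, m ≤ (d m).L) ∧ ∀ b : W →₀ ℤ, b [] = 0 → ∃ n j : ℕ, ∀ m, j ≤ m →
      ∀ u, (op ℚ b ^ n) (sh ℚ u ((d m).φ 0)) = 0 := by
  obtain ⟨e, he⟩ := exists_surjective_nat (W →₀ ℤ)
  choose nx hnx using step hl
  let d : ℕ → Lev lam := fun m => Nat.rec (lev0 lam) (fun j x => nx (e j) x) m
  have hd : ∀ j, Rel (e j) (d j) (d (j + 1)) := fun j => hnx _ _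
  refine ⟨d, fun m => ?_, fun b hb => ?_⟩
  · induction m with
    | zero => omega
    | succ m ih => exact Nat.succ_le_of_lt (ih.trans_lt (hd m).1)
  · obtain ⟨j, rfl⟩ := he b
    refine ⟨_, j + 1, fun m hm u => (hd j).2.2.2 hb _ (Good_sh ?_ u)⟩
    have : (d (j + 1)).L ∣ (d m).L ∧ ∀ i, (d m).φ i ∈
        Good (d (j + 1)).L (Submodule.span ℚ (Set.range (d (j + 1)).φ)) := by
      induction m, hm using Nat.le_induction with
      | base => exact ⟨dvd_rfl, fun i => Good_of_Supp ((d (j + 1)).supp i) le_rfl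
          fun _ => Submodule.subset_span ⟨i, rfl⟩⟩
      | succ m _ ih =>
        exact ⟨ih.1.trans (hd m).2.1, (hd m).2.2.1 _ _ (d (j + 1)).pos ih.1 ih.2⟩
    exact this.2 0

abbrev FA (K : Type) [Field K] := FreeAlgebra K (Fin 3)

noncomputable def act : FA K →ₐ[K] Module.End K (W → K) :=
  FreeAlgebra.lift K fun i => sh K [i]

noncomputable def word (x : W) : FA K := (x.map (FreeAlgebra.ι K)).prod

theorem act_word (x : W) : act (word (K := K) x) = sh K x := by
  induction x with
  | nil => ext f w; simp [word]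
  | cons i x ih =>
    have : word (K := K) (i :: x) = FreeAlgebra.ι K i * word x := by simp [word]
    rw [this, map_mul, ih]
    ext f w
    simp [act]

noncomputable def BB : Submodule ℤ (FA K) := Submodule.span ℤ (word '' {x | x ≠ []})

theorem BB_mul {a b : FA K} (ha : a ∈ BB) (hb : b ∈ BB) : a * b ∈ BB := by
  refine Submodule.span_induction₂ (p := fun a b _ _ => a * b ∈ BB) ?_ ?_ ?_ ?_ ?_ ?_ ?_ ha hb
  · rintro _ _ ⟨x, hx, rfl⟩ ⟨y, -, rfl⟩
    exact Submodule.subset_span ⟨x ++ y, by simp [show x ≠ [] from hx], by simp [word]⟩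
  · simp
  · simp
  · intro x y z _ _ _ h1 h2; rw [add_mul]; exact add_mem h1 h2
  · intro x y z _ _ _ h1 h2; rw [mul_add]; exact add_mem h1 h2
  · intro r x y _ _ h; rw [smul_mul_assoc]; exact Submodule.smul_mem _ _ h
  · intro r x y _ _ h; rw [mul_smul_comm]; exact Submodule.smul_mem _ _ h

theorem BB_op {a : FA K} (ha : a ∈ BB) : ∃ b : W →₀ ℤ, b [] = 0 ∧ act a = op K b := by
  obtain ⟨b, hb, rfl⟩ := (Finsupp.mem_span_image_iff_linearCombination ℤ).1 ha
  refine ⟨b, ?_, ?_⟩
  · by_contra h
    exact hb (Finsupp.mem_support_iff.2 h) rfl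
  · simp [Finsupp.linearCombination_apply, Finsupp.sum, op, act_word]

theorem cst_op (b : W →₀ ℤ) (n : ℕ) (f : F) :
    (op K b ^ n) (cst f) = cst ((op ℚ b ^ n) f) := by
  induction n with
  | zero => rfl
  | succ n ih =>
    rw [pow_succ', pow_succ', Module.End.mul_apply, Module.End.mul_apply, ih]
    ext w
    simp [op_apply, cst]

noncomputable def ZZ (lam : Fin 3 → K) : FA K := ∑ i, lam i • FreeAlgebra.ι K i

theorem act_ZZ (n : ℕ) (G : W → K) : ∀ w,
    act (ZZ lam ^ n) G w = ev lam n (fun u => G (w ++ u)) := by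
  induction n with
  | zero => intro w; simp [ev]
  | succ n ih =>
    intro w
    rw [pow_succ', map_mul, Module.End.mul_apply]
    have : ∀ G' : W → K, act (ZZ lam) G' w = ∑ i, lam i * G' (w ++ [i]) := fun G' => by
      simp [ZZ, act]
    simp only [this, ih, ev, List.append_assoc, List.singleton_append]

theorem ev_zero (n : ℕ) : ∀ G : W → K, (∀ w, w.length = n → G w = 0) → ev lam n G = 0 := by
  induction n with
  | zero => intro G h; exact h _ rfl
  | succ n ih =>
    intro G h
    exact Finset.sum_eq_zero fun i _ => by rw [ih _ fun w hw => h _ (by simp [hw]), mul_zero]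

theorem ideal (hl : Ind lam)
    (h0 : lam 0 ≠ 0) : ∃ I : Ideal (FA K), I ≠ ⊤ ∧ 1 - ZZ lam ∈ I ∧
      ∀ a ∈ BB, ∃ n : ℕ, ∀ t, a ^ n * t ∈ I := by
  obtain ⟨d, hd, hn⟩ := tower hl
  let ξ : ℕ → W → K := fun m =>
    act (∑ i ∈ Finset.range ((d m).L + 1), ZZ lam ^ i) (cst ((d m).φ 0))
  have sp : ∀ m w, w.length ≠ (d m).L → cst (K := K) ((d m).φ 0) w = 0 := fun m w hw => by
    simp [cst, (d m).supp 0 w hw]
  have inv : ∀ (r : FA K) (s : ℕ → W → K), (∀ w, ∀ᶠ m in Filter.atTop, s m w = 0) →
      ∀ w, ∀ᶠ m in Filter.atTop, act r (s m) w = 0 := by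
    intro r
    induction r using FreeAlgebra.induction with
    | grade0 c => intro s h w; filter_upwards [h w] with m hm; simp [Algebra.algebraMap_eq_smul_one, hm]
    | grade1 i => intro s h w; filter_upwards [h (w ++ [i])] with m hm; simp [act, hm]
    | mul a b ha hb => intro s h w; simpa using ha _ (hb s h) w
    | add a b ha hb => intro s h w; filter_upwards [ha s h w, hb s h w] with m h1 h2; simp [h1, h2]
  refine ⟨⟨⟨⟨{t | ∀ w, ∀ᶠ m in Filter.atTop, act t (ξ m) w = 0}, fun {a b} ha hb w => ?_⟩,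
    fun w => by simp⟩, fun r t ht w => ?_⟩, fun h => ?_, fun w => ?_, fun a ha => ?_⟩
  · filter_upwards [ha w, hb w] with m h1 h2; simp [h1, h2]
  · simpa using inv r _ ht w
  · obtain ⟨m, hm⟩ := (((Ideal.eq_top_iff_one _).1 h) []).exists
    simp only [ξ, map_one, Module.End.one_apply, map_sum, LinearMap.sum_apply, Finset.sum_apply,
      act_ZZ, List.nil_append] at hm
    rw [Finset.sum_range_succ, Finset.sum_eq_zero fun i hi => ev_zero _ _ fun w hw =>
      sp m w (by simp at hi; omega), zero_add, (d m).hev] at hm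
    exact mul_ne_zero (d m).hp h0 hm
  · filter_upwards [Filter.eventually_gt_atTop w.length] with m hm
    have := hd m
    simp only [ξ]
    rw [← Module.End.mul_apply, ← map_mul, mul_neg_geom_sum, map_sub, LinearMap.sub_apply,
      Pi.sub_apply, act_ZZ, ev_zero _ _ fun u hu => sp m _ (by simp; omega)]
    simpa using sp m w (by omega)
  · obtain ⟨b, hb, e⟩ := BB_op ha
    obtain ⟨n, j, h⟩ := hn b hb
    refine ⟨n, fun t w => ?_⟩
    filter_upwards [Filter.eventually_ge_atTop j] with m hm
    have inv2 : ∀ (r : FA K) (G : W → K), (∀ u, (op K b ^ n) (sh K u G) = 0) →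
        ∀ u, (op K b ^ n) (sh K u (act r G)) = 0 := by
      intro r
      induction r using FreeAlgebra.induction with
      | grade0 c => intro G h u; simp [Algebra.algebraMap_eq_smul_one, h]
      | grade1 i =>
        intro G h u
        have : sh K u (act (FreeAlgebra.ι K i) G) = sh K (u ++ [i]) G := by ext; simp [act]
        rw [this, h]
      | mul a b ha hb => intro G h u; simpa using ha _ (hb G h) u
      | add a b ha hb => intro G h u; simp [ha G h u, hb G h u]
    have h1 := inv2 t _ (inv2 (∑ i ∈ Finset.range ((d m).L + 1), ZZ lam ^ i)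
      (cst ((d m).φ 0)) fun u => by
        have : sh K u (cst ((d m).φ 0)) = cst (sh ℚ u ((d m).φ 0)) := rfl
        rw [this, cst_op, h m hm u]
        ext; simp [cst]) []
    have h2 : sh K [] = 1 := by ext; simp
    rw [map_mul, map_pow, e, Module.End.mul_apply]
    rw [h2] at h1
    exact congrFun h1 w

end lev

abbrev KK := FractionRing (MvPolynomial (Fin 2) ℚ)

noncomputable def lamK : Fin 3 → KK :=
  ![1, algebraMap (MvPolynomial (Fin 2) ℚ) _ (MvPolynomial.X 0),
    algebraMap (MvPolynomial (Fin 2) ℚ) _ (MvPolynomial.X 1)]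

theorem lamK_li : Ind lamK := by
  intro M γ h
  let v : Fin (M + 1) × Fin (M + 1) → (Fin 2 →₀ ℕ) := fun a =>
    Finsupp.single 0 a.1.1 + Finsupp.single 1 a.2.1
  have hv : Function.Injective v := by
    intro a b h
    have h0 := DFunLike.congr_fun h 0
    have h1 := DFunLike.congr_fun h 1
    simp [v] at h0 h1
    exact Prod.ext (Fin.ext h0) (Fin.ext h1)
  have h2 : ∑ a, MvPolynomial.monomial (v a) (γ a) = 0 := by
    apply IsFractionRing.injective _ KK
    rw [map_zero, map_sum, ← h]
    refine Finset.sum_congr rfl fun a _ => ?_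
    have : MvPolynomial.monomial (v a) (γ a) =
        MvPolynomial.C (γ a) * MvPolynomial.X 0 ^ a.1.1 * MvPolynomial.X 1 ^ a.2.1 := by
      rw [MvPolynomial.C_mul_X_pow_eq_monomial, ← MvPolynomial.monomial_add_single]
    rw [this, map_mul, map_mul, map_pow, map_pow]
    have e := eq_ratCast ((algebraMap (MvPolynomial (Fin 2) ℚ) KK).comp MvPolynomial.C) (γ a)
    rw [RingHom.comp_apply] at e
    simp [yw, lamK, e, mul_assoc]
  ext a
  have := congrArg (MvPolynomial.coeff (v a)) h2
  simpa [MvPolynomial.coeff_sum, MvPolynomial.coeff_monomial, hv.eq_iff] using this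

end Pool.Agent.H19.NilRep
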