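import Mathlib
import Pool.Agent.H19.NilDiag

set_option autoImplicit false

namespace Pool.Agent.H19.GS

universe u v

lemma countable_of_rank (F : Type u) [Field F] [Countable F] (U : Type v) [AddCommGroup U]
    [Module F U] (h : Module.rank F U ≤ Cardinal.aleph0) : Countable U := by
  have b := Module.Free.chooseBasis F U
  have : Countable (Module.Free.ChooseBasisIndex F U) := by
    rw [← Cardinal.mk_le_aleph0_iff, ← Module.Free.rank_eq_card_chooseBasisIndex]
    exact h
  exact b.repr.injective.countable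

def pw {B : Type v} [Mul B] (b : B) (n : ℕ) : B := (fun x => b * x)^[n] b

lemma pw_succ {B : Type v} [Mul B] (b : B) (n : ℕ) : pw b (n + 1) = b * pw b n :=
  Function.iterate_succ_apply' _ _ _

lemma pw_map {B : Type v} {A : Type u} [Mul B] [Monoid A] (ψ : B → A)
    (h : ∀ a b, ψ (a * b) = ψ a * ψ b) (b : B) (n : ℕ) : ψ (pw b n) = ψ b ^ (n + 1) := by
  induction n with
  | zero => simp [pw]
  | succ n ih => rw [pw_succ, h, ih, ← pow_succ']

lemma pw_mul {B : Type v} [Semigroup B] (b : B) (i j : ℕ) : pw b i * pw b j = pw b (i + j + 1) := by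
  induction i with
  | zero => rw [zero_add, pw_succ]; rfl
  | succ i ih => rw [pw_succ, mul_assoc, ih, ← pw_succ]; congr 1; omega

lemma fd_of_nil {F : Type u} [Field F] {B : Type v} [NonUnitalRing B] [Module F B]
    [IsScalarTower F B B] [SMulCommClass F B B] (b : B) (n : ℕ) (h : pw b n = 0) :
    FiniteDimensional F (NonUnitalAlgebra.adjoin F {b}) := by
  have h1 : ∀ k, pw b (n + k) = 0 := fun k => by
    induction k with
    | zero => exact h
    | succ k ih => rw [← add_assoc, pw_succ, ih, mul_zero]
  have hfin : (Set.range (pw b)).Finite := ((Set.finite_Iic n).image (pw b)).subset (by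
    rintro _ ⟨k, rfl⟩
    by_cases hk : k ≤ n
    · exact ⟨k, hk, rfl⟩
    · obtain ⟨c, rfl⟩ := Nat.exists_eq_add_of_le (not_le.mp hk).le
      exact ⟨n, Set.mem_Iic.mpr le_rfl, h.trans (h1 c).symm⟩)
  have : FiniteDimensional F (Submodule.span F (Set.range (pw b))) :=
    FiniteDimensional.span_of_finite F hfin
  let Q : NonUnitalSubalgebra F B := (Submodule.span F (Set.range (pw b))).toNonUnitalSubalgebra
    (fun x y hx hy => by
      induction hx using Submodule.span_induction with
      | mem x hx =>
        obtain ⟨i, rfl⟩ := hx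
        induction hy using Submodule.span_induction with
        | mem y hy =>
          obtain ⟨j, rfl⟩ := hy
          rw [pw_mul]
          exact Submodule.subset_span ⟨_, rfl⟩
        | zero => simp
        | add x y _ _ hx hy => rw [mul_add]; exact add_mem hx hy
        | smul c x _ hx => rw [mul_smul_comm]; exact Submodule.smul_mem _ _ hx
      | zero => simp
      | add x y _ _ hx hy => rw [add_mul]; exact add_mem hx hy
      | smul c x _ hx => rw [smul_mul_assoc]; exact Submodule.smul_mem _ _ hx)
  have hle : NonUnitalAlgebra.adjoin F {b} ≤ Q :=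
    NonUnitalAlgebra.adjoin_le (by rintro _ rfl; exact Submodule.subset_span ⟨0, rfl⟩)
  exact Submodule.finiteDimensional_of_le (S₁ := (NonUnitalAlgebra.adjoin F {b}).toSubmodule)
    (S₂ := Submodule.span F (Set.range (pw b))) hle

open Polynomial in
lemma pow_eq_zero_of_fd {F : Type u} [Field F] {U : Type v} [NonUnitalRing U] [Module F U]
    [IsScalarTower F U U] [SMulCommClass F U U] {A : Type u} [Ring A] [Algebra F A]
    (ψ : U →ₗ[F] A) (hψ : ∀ a b, ψ (a * b) = ψ a * ψ b) (a : U)
    [FiniteDimensional F (NonUnitalAlgebra.adjoin F {a})] (hn : IsNilpotent (ψ a)) :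
    ψ a ^ (Module.finrank F (NonUnitalAlgebra.adjoin F {a}) + 1) = 0 := by
  set d := Module.finrank F (NonUnitalAlgebra.adjoin F {a}) with hd
  have hm : ∀ k, pw a k ∈ NonUnitalAlgebra.adjoin F {a} := fun k => by
    induction k with
    | zero => exact NonUnitalAlgebra.subset_adjoin F rfl
    | succ k ih => rw [pw_succ]; exact mul_mem (NonUnitalAlgebra.subset_adjoin F rfl) ih
  have h1 : ¬ LinearIndependent F
      (fun k : Fin (d + 1) => (⟨pw a k, hm k⟩ : NonUnitalAlgebra.adjoin F {a})) := fun h => by
    have := h.fintype_card_le_finrank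
    simp only [Fintype.card_fin] at this
    omega
  obtain ⟨c, hc, i, hi⟩ := Fintype.not_linearIndependent_iff.mp h1
  have h2 : ∑ k : Fin (d + 1), c k • ψ a ^ (k.1 + 1) = 0 := by
    have := congrArg (fun x : NonUnitalAlgebra.adjoin F {a} => ψ x.1) hc
    simpa [map_sum, pw_map ψ hψ] using this
  let p : F[X] := ∑ k : Fin (d + 1), monomial (k.1 + 1) (c k)
  have hp0 : p ≠ 0 := fun h => hi (by
    have := congrArg (fun q => coeff q (i.1 + 1)) h
    simpa [p, finset_sum_coeff, coeff_monomial, Fin.val_inj] using this)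
  have hpd : p.natDegree ≤ d + 1 :=
    natDegree_sum_le_of_forall_le _ _ fun k _ => (natDegree_monomial_le _).trans (by omega)
  have hpa : aeval (ψ a) p = 0 := by
    simp only [p, map_sum, aeval_monomial, ← Algebra.smul_def]
    exact h2
  obtain ⟨N, hN⟩ := hn
  have h3 : minpoly F (ψ a) ∣ X ^ N := minpoly.dvd _ _ (by simpa using hN)
  obtain ⟨j, -, hj⟩ := (dvd_prime_pow prime_X N).mp h3
  have h4 : (X : F[X]) ^ j ∣ p := hj.symm.dvd.trans (minpoly.dvd _ _ hpa)
  have h5 := natDegree_le_of_dvd h4 hp0
  rw [natDegree_X_pow] at h5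
  obtain ⟨q, hq⟩ := hj.dvd
  have h6 : ψ a ^ j = 0 := by
    have := congrArg (aeval (ψ a)) hq
    simpa using this
  exact pow_eq_zero_of_le (h5.trans hpd) h6

/-- No countable-dimensional algebraic algebra over a countable field maps onto every
countable-dimensional nil algebra. -/
theorem no_universal (F : Type u) [Field F] [Countable F] (U : Type v) [NonUnitalRing U]
    [Module F U] [IsScalarTower F U U] [SMulCommClass F U U]
    (h1 : ∀ a : U, FiniteDimensional F (NonUnitalAlgebra.adjoin F {a}))
    (h2 : Module.rank F U ≤ Cardinal.aleph0) :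
    ∃ (B : Type u) (_ : NonUnitalRing B) (_ : Module F B) (_ : IsScalarTower F B B)
      (_ : SMulCommClass F B B), (∀ b : B, ∃ n, pw b n = 0) ∧
      Module.rank F B ≤ Cardinal.aleph0 ∧ ∀ f : U →ₙₐ[F] B, ¬ Function.Surjective f := by
  have := countable_of_rank F U h2
  obtain ⟨A, _, _, C, hC, hnil, h⟩ := core F U
    (fun a => Module.finrank F (NonUnitalAlgebra.adjoin F {a}) + 1)
  refine ⟨C, inferInstance, inferInstance, inferInstance, inferInstance, fun b => ?_,
    (rank_le_card F C).trans Cardinal.mk_le_aleph0, fun f hf => ?_⟩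
  · obtain ⟨n, hn⟩ := hnil b b.2
    refine ⟨n, Subtype.ext ?_⟩
    rw [pw_map (fun x : C => (x : A)) (fun _ _ => rfl), pow_succ, hn, zero_mul]
    rfl
  · obtain ⟨a, ha⟩ := h f hf (map_mul f)
    have := h1 a
    exact ha (pow_eq_zero_of_fd (C.toSubmodule.subtype ∘ₗ (f : U →ₗ[F] C))
      (fun a b => congrArg Subtype.val (map_mul f a b)) a (hnil _ (f a).2))

end Pool.Agent.H19.GS
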