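import Mathlib

set_option autoImplicit false

namespace Pool.Agent.H19.OnnDim

open Matrix

set_option synthInstance.maxSize 100000 in
lemma comm_aux : ∀ a b c d e f g h i : ZMod 2, ∃ A B C D E F G H I : ZMod 2,
    A * E * I - A * F * H - B * D * I + B * F * G + C * D * H - C * E * G = 1 ∧
    ¬ (A = 1 ∧ B = 0 ∧ C = 0 ∧ D = 0 ∧ E = 1 ∧ F = 0 ∧ G = 0 ∧ H = 0 ∧ I = 1) ∧
    A * a + B * d + C * g = a * A + b * D + c * G ∧ A * b + B * e + C * h = a * B + b * E + c * H ∧
    A * c + B * f + C * i = a * C + b * F + c * I ∧ D * a + E * d + F * g = d * A + e * D + f * G ∧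
    D * b + E * e + F * h = d * B + e * E + f * H ∧ D * c + E * f + F * i = d * C + e * F + f * I ∧
    G * a + H * d + I * g = g * A + h * D + i * G ∧ G * b + H * e + I * h = g * B + h * E + i * H ∧
    G * c + H * f + I * i = g * C + h * F + i * I := by
  decide +kernel

lemma comm_unit (β : Matrix (Fin 3) (Fin 3) (ZMod 2)) :
    ∃ s : Matrix (Fin 3) (Fin 3) (ZMod 2), s.det = 1 ∧ s ≠ 1 ∧ s * β = β * s := by
  obtain ⟨A, B, C, D, E, F, G, H, I, h1, h2, h3⟩ := comm_aux (β 0 0) (β 0 1) (β 0 2) (β 1 0)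
    (β 1 1) (β 1 2) (β 2 0) (β 2 1) (β 2 2)
  refine ⟨!![A, B, C; D, E, F; G, H, I], by simpa [det_fin_three] using h1, fun h => h2 ?_, ?_⟩
  · rw [← Matrix.ext_iff] at h
    simpa [Fin.forall_fin_succ, and_assoc] using h
  · rw [← Matrix.ext_iff]
    simpa [Fin.forall_fin_succ, and_assoc, Matrix.mul_apply, Fin.sum_univ_three] using h3

section rep

variable {G : Type} [Group G] [Finite G]

/-- An irreducible representation with a common eigenvector for `H` has dimension at most the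
index of `H`. -/
lemma bound {V : Type} [AddCommGroup V] [Module ℂ V] (ρ : Representation ℂ G V)
    (hirr : ∀ W : Submodule ℂ V, (∀ g v, v ∈ W → ρ g v ∈ W) → W = ⊥ ∨ W = ⊤)
    (H : Subgroup G) (v : V) (hv : v ≠ 0) (hH : ∀ h ∈ H, ∃ c : ℂ, ρ h v = c • v) :
    Module.finrank ℂ V ≤ H.index := by
  classical
  have := Fintype.ofFinite (G ⧸ H)
  let W := Submodule.span ℂ (Set.range fun c : G ⧸ H => ρ c.out v)
  have h1 : ∀ g, ρ g v ∈ W := fun g => by
    obtain ⟨h, hh⟩ := QuotientGroup.mk_out_eq_mul H g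
    obtain ⟨c, hc⟩ := hH _ (inv_mem h.2)
    have : g = (g : G ⧸ H).out * (h : G)⁻¹ := by rw [hh, mul_inv_cancel_right]
    rw [this, map_mul, Module.End.mul_apply, hc, map_smul]
    exact W.smul_mem _ (Submodule.subset_span ⟨_, rfl⟩)
  have h2 : W = ⊤ := by
    refine (hirr W fun g u hu => ?_).resolve_left fun h => hv ?_
    · refine Submodule.span_induction (p := fun u _ => ρ g u ∈ W) ?_ (by simp)
        (fun x y _ _ hx hy => by rw [map_add]; exact add_mem hx hy)
        (fun a x _ hx => by rw [map_smul]; exact W.smul_mem _ hx) hu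
      rintro _ ⟨c, rfl⟩
      rw [← Module.End.mul_apply, ← map_mul]
      exact h1 _
    · simpa [h] using h1 1
  rw [← finrank_top, ← h2, Subgroup.index, Nat.card_eq_fintype_card]
  exact finrank_range_le_card _

omit [Finite G] in
lemma common_eig {V ι : Type} [AddCommGroup V] [Module ℂ V] [FiniteDimensional ℂ V]
    (f : ι → Module.End ℂ V) (hf : ∀ i j, f i * f j = f j * f i) (U : Submodule ℂ V)
    (hU : U ≠ ⊥) (hfU : ∀ i, ∀ v ∈ U, f i v ∈ U) :
    ∃ v ∈ U, v ≠ 0 ∧ ∀ i, ∃ c : ℂ, f i v = c • v := by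
  induction h : Module.finrank ℂ U using Nat.strong_induction_on generalizing U with
  | _ n ih =>
    by_cases hs : ∀ i, ∃ c : ℂ, ∀ v ∈ U, f i v = c • v
    · obtain ⟨v, hv, h0⟩ := Submodule.exists_mem_ne_zero_of_ne_bot hU
      exact ⟨v, hv, h0, fun i => (hs i).imp fun c hc => hc v hv⟩
    · push Not at hs
      obtain ⟨i, hi⟩ := hs
      have : Nontrivial U := Submodule.nontrivial_iff_ne_bot.2 hU
      obtain ⟨c, hc⟩ := Module.End.exists_eigenvalue ((f i).restrict (hfU i))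
      obtain ⟨w, hw⟩ := hc.exists_hasEigenvector
      obtain ⟨u, hu, hu'⟩ := hi c
      have hlt : U ⊓ (f i).eigenspace c < U := lt_of_le_of_ne inf_le_left fun e =>
        hu' (Module.End.mem_eigenspace_iff.1 (e.ge hu).2)
      obtain ⟨v, hv, h0⟩ := ih _ (h ▸ Submodule.finrank_lt_finrank_of_lt hlt)
        (U ⊓ (f i).eigenspace c) ((Submodule.ne_bot_iff _).2 ⟨w.1, ⟨w.2,
          Module.End.mem_eigenspace_iff.2 (congrArg Subtype.val hw.apply_eq_smul)⟩,
          fun e => hw.2 (Subtype.ext e)⟩) (fun j v hv => ⟨hfU j v hv.1, by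
            have := Module.End.mem_eigenspace_iff.1 hv.2
            refine Module.End.mem_eigenspace_iff.2 ?_
            rw [← Module.End.mul_apply, hf, Module.End.mul_apply, this, map_smul]⟩) rfl
      exact ⟨v, hv.1, h0⟩

/-- A monomial representation that is irreducible by Clifford theory. -/
lemma exists_irr (H K : Subgroup G) [hK : K.Normal] (hKH : K ≤ H) (θ : H →* ℂˣ)
    (hθ : ∀ g : G, (∀ k (hk : k ∈ K), θ ⟨g⁻¹ * k * g, hKH (hK.conj_mem' k hk g)⟩ = θ ⟨k, hKH hk⟩) →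
      g ∈ H) :
    ∃ (V : Type) (_ : AddCommGroup V) (_ : Module ℂ V) (ρ : Representation ℂ G V),
      FiniteDimensional ℂ V ∧ Nontrivial V ∧
      (∀ W : Submodule ℂ V, (∀ g v, v ∈ W → ρ g v ∈ W) → W = ⊥ ∨ W = ⊤) ∧
      (∀ h : H, θ h ≠ 1 → ρ h ≠ 1) ∧ Module.finrank ℂ V = H.index := by
  classical
  have := Fintype.ofFinite (G ⧸ H)
  have := Fintype.ofFinite K
  let V : Submodule ℂ (G → ℂ) :=
    { carrier := {f | ∀ g (h : H), f (g * h) = ↑(θ h)⁻¹ * f g}
      add_mem' := fun ha hb g h => by simp only [Pi.add_apply, ha g h, hb g h, mul_add]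
      zero_mem' := fun g h => by simp
      smul_mem' := fun c f hf g h => by simp only [Pi.smul_apply, hf g h, smul_eq_mul]; ring }
  let ρ : Representation ℂ G V :=
    { toFun := fun x =>
        { toFun := fun f => ⟨fun g => f.1 (x⁻¹ * g), fun g h => by
            show f.1 _ = _ * f.1 _
            rw [← mul_assoc, f.2]⟩
          map_add' := fun _ _ => rfl
          map_smul' := fun _ _ => rfl }
      map_one' := by ext f g; simp
      map_mul' := fun x y => by ext f g; simp [mul_assoc] }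
  have hρ : ∀ x (f : V) g, (ρ x f).1 g = f.1 (x⁻¹ * g) := fun _ _ _ => rfl
  let e : V := ⟨fun g => if h : g ∈ H then ↑(θ ⟨g, h⟩)⁻¹ else 0, fun g h => by
    by_cases hg : g ∈ H
    · simp only [dif_pos hg, dif_pos (mul_mem hg h.2)]
      rw [show (⟨g * h, mul_mem hg h.2⟩ : H) = ⟨g, hg⟩ * h from rfl, map_mul, _root_.mul_inv_rev,
        Units.val_mul]
    · simp only [dif_neg hg, dif_neg fun hh => hg ((H.mul_mem_cancel_right h.2).1 hh), mul_zero]⟩
  have he : ∀ g, e.1 g = if h : g ∈ H then ↑(θ ⟨g, h⟩)⁻¹ else 0 := fun _ => rfl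
  have he1 : e.1 1 = 1 := by
    rw [he, dif_pos H.one_mem, show (⟨1, H.one_mem⟩ : H) = 1 from rfl, map_one]
    simp
  have ext' : ∀ f f' : V, (∀ c : G ⧸ H, f.1 c.out = f'.1 c.out) → f = f' := fun f f' h => by
    ext g
    obtain ⟨k, hk⟩ := QuotientGroup.mk_out_eq_mul H g
    have : g = (g : G ⧸ H).out * (k⁻¹ : H) := by rw [hk]; simp
    rw [this, f.2, f'.2, h]
  have hout : ∀ c c' : G ⧸ H, (ρ c.out e).1 c'.out = if c = c' then 1 else 0 := fun c c' => by
    rw [hρ]
    split_ifs with h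
    · rw [h, inv_mul_cancel, he1]
    · rw [he, dif_neg fun hh => h (by rw [← c.out_eq', ← c'.out_eq']; exact QuotientGroup.eq.2 hh)]
  have hsum : ∀ a : G ⧸ H → ℂ, ∀ c', (∑ c, a c • ρ c.out e : V).1 c'.out = a c' := fun a c' => by
    simp only [Submodule.coe_sum, Finset.sum_apply, Submodule.coe_smul, Pi.smul_apply, hout]
    simp
  let L : V →ₗ[ℂ] (G ⧸ H → ℂ) :=
    { toFun := fun f c => f.1 c.out
      map_add' := fun _ _ => rfl
      map_smul' := fun _ _ => rfl }
  have hL : Function.Bijective L := ⟨fun f f' h => ext' f f' (congrFun h), fun a =>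
    ⟨∑ c, a c • ρ c.out e, funext (hsum a)⟩⟩
  refine ⟨V, inferInstance, inferInstance, ρ, inferInstance, ⟨e, 0, fun h => ?_⟩,
    fun W hW => ?_, fun h hh h1 => hh ?_, ?_⟩
  · rw [h] at he1
    simp at he1
  · rw [or_iff_not_imp_left]
    intro h0
    obtain ⟨f0, hf0, h0⟩ := Submodule.exists_mem_ne_zero_of_ne_bot h0
    obtain ⟨g0, hg0⟩ : ∃ g, f0.1 g ≠ 0 := by
      by_contra hc
      push Not at hc
      exact h0 (Subtype.ext (funext hc))
    obtain ⟨f, hf, hf1⟩ : ∃ f ∈ W, f.1 1 ≠ 0 := ⟨ρ g0⁻¹ f0, hW _ _ hf0, by simpa [hρ] using hg0⟩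
    have hP : (∑ k : K, (↑(θ ⟨k, hKH k.2⟩)⁻¹ : ℂ) • ρ k f) = ((Fintype.card K : ℂ) * f.1 1) • e := by
      ext g
      let φ : K →* ℂ :=
        { toFun := fun k => ↑(θ ⟨k, hKH k.2⟩)⁻¹ * ↑(θ ⟨g⁻¹ * k * g, hKH (hK.conj_mem' _ k.2 g)⟩)
          map_one' := by
            simp only [OneMemClass.coe_one, mul_one, inv_mul_cancel, Units.inv_mul]
          map_mul' := fun x y => by
            rw [show (⟨(x * y : K), hKH (x * y).2⟩ : H) = ⟨x, hKH x.2⟩ * ⟨y, hKH y.2⟩ from rfl,
              show (⟨g⁻¹ * (x * y : K) * g, hKH (hK.conj_mem' _ (x * y).2 g)⟩ : H) =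
                ⟨g⁻¹ * x * g, hKH (hK.conj_mem' _ x.2 g)⟩ *
                  ⟨g⁻¹ * y * g, hKH (hK.conj_mem' _ y.2 g)⟩ from Subtype.ext (by simp [mul_assoc]),
              map_mul, map_mul, _root_.mul_inv_rev, Units.val_mul, Units.val_mul]
            ring }
      have e1 : ∀ k : K, (↑(θ ⟨k, hKH k.2⟩)⁻¹ : ℂ) * f.1 ((k : G)⁻¹ * g) = φ k * f.1 g := by
        intro k
        have := f.2 g (⟨g⁻¹ * k * g, hKH (hK.conj_mem' _ k.2 g)⟩ : H)⁻¹
        rw [map_inv, inv_inv] at this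
        rw [show (k : G)⁻¹ * g = g * ((⟨g⁻¹ * k * g, hKH (hK.conj_mem' _ k.2 g)⟩ : H)⁻¹ : H) by
          simp [mul_assoc], this, ← mul_assoc]
        rfl
      simp only [Submodule.coe_sum, Finset.sum_apply, Submodule.coe_smul, Pi.smul_apply, hρ,
        smul_eq_mul, e1, ← Finset.sum_mul, he]
      split_ifs with hg
      · have e2 : ∀ k, φ k = 1 := fun k => by
          show (↑(θ _)⁻¹ : ℂ) * ↑(θ _) = 1
          rw [show (⟨g⁻¹ * k * g, hKH (hK.conj_mem' _ k.2 g)⟩ : H) =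
            (⟨g, hg⟩ : H)⁻¹ * ⟨k, hKH k.2⟩ * ⟨g, hg⟩ from rfl, map_mul, map_mul, map_inv,
            inv_mul_cancel_comm, Units.inv_mul]
        have := f.2 1 ⟨g, hg⟩
        rw [one_mul] at this
        simp only [e2, Finset.sum_const, Finset.card_univ, nsmul_eq_mul, mul_one, this]
        ring
      · rw [sum_hom_units_eq_zero φ fun h1 => hg (hθ g fun k hk => ?_), zero_mul, mul_zero]
        have := DFunLike.congr_fun h1 ⟨k, hk⟩
        exact Units.ext (((Units.inv_mul_eq_iff_eq_mul _).1 this).trans (mul_one _))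
    have heW : e ∈ W := by
      refine (W.smul_mem_iff (mul_ne_zero (Nat.cast_ne_zero.2 (Fintype.card_ne_zero (α := K))) hf1)).1 ?_
      rw [← hP]
      exact sum_mem fun k _ => W.smul_mem _ (hW _ _ hf)
    rw [eq_top_iff]
    rintro u -
    rw [← ext' _ _ (hsum fun c => u.1 c.out)]
    exact sum_mem fun c _ => W.smul_mem _ (hW _ _ heW)
  · have := hρ h e 1
    rw [h1, Module.End.one_apply, he1, ← one_mul ((h : G)⁻¹ * 1), mul_one] at this
    have e2 := e.2 1 h⁻¹
    rw [map_inv, inv_inv, he1, mul_one] at e2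
    exact Units.ext (e2.symm.trans this.symm)
  · rw [(LinearEquiv.ofBijective L hL).finrank_eq, Module.finrank_fintype_fun_eq_card,
      Subgroup.index, Nat.card_eq_fintype_card]

end rep

end Pool.Agent.H19.OnnDim
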