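import Pool.Agent.H19.OnnAux

set_option autoImplicit false

namespace Pool.Agent.H19.OnnDim

open Matrix

/-- `O` is a ring like `ℤ/p²`. -/
structure Good (p : ℕ) {O : Type} [CommRing O] (π : O →+* ZMod p) : Prop where
  ker : ∀ x, π x = 0 → ∃ y, x = p * y
  sq : (p : O) * p = 0
  ne : (p : O) ≠ 0

variable {p : ℕ} [Fact p.Prime] {O : Type} [CommRing O] {π : O →+* ZMod p}

lemma Good.decomp (h : Good p π) (x : O) : ∃ y, x = (π x).val + p * y := by
  obtain ⟨y, hy⟩ := h.ker (x - (π x).val) (by simp)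
  exact ⟨y, by rw [← hy]; ring⟩

lemma Good.finite (h : Good p π) : Finite O := by
  refine Finite.of_surjective (fun q : ZMod p × ZMod p => (q.1.val : O) + p * q.2.val) fun x => ?_
  obtain ⟨y, hy⟩ := h.decomp x
  obtain ⟨z, hz⟩ := h.decomp y
  exact ⟨(π x, π y), by linear_combination -hy - (p : O) * hz - z * h.sq⟩

lemma Good.isUnit (h : Good p π) {x : O} (hx : π x ≠ 0) : IsUnit x := by
  obtain ⟨z, hz⟩ := h.ker (x * ((π x)⁻¹).val - 1) (by simp [hx])
  exact IsUnit.of_mul_eq_one (((π x)⁻¹).val * (1 - p * z))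
    (by linear_combination (1 - p * z) * hz - z ^ 2 * h.sq)

lemma Good.surj (h : Good p π) :
    Function.Surjective (GeneralLinearGroup.map (n := Fin 3) π) := fun A => by
  have e : (A.1.map fun a => (a.val : O)).map π = A.1 := by
    ext i j
    simp
  refine ⟨GeneralLinearGroup.mk'' (A.1.map fun a => (a.val : O)) (h.isUnit ?_), Units.ext e⟩
  rw [RingHom.map_det, RingHom.mapMatrix_apply, e]
  exact (GeneralLinearGroup.det A).ne_zero

/-- Elements of the congruence kernel. -/
def Good.u (h : Good p π) (X : Matrix (Fin 3) (Fin 3) O) : GL (Fin 3) O where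
  val := 1 + (p : O) • X
  inv := 1 - (p : O) • X
  val_inv := by simp [mul_sub, add_mul, smul_smul, h.sq]
  inv_val := by simp [sub_mul, mul_add, smul_sub, smul_smul, h.sq]

lemma Good.u_add (h : Good p π) (X Y : Matrix (Fin 3) (Fin 3) O) :
    h.u (X + Y) = h.u X * h.u Y := by
  refine Units.ext ?_
  simp [Good.u, mul_add, add_mul, smul_smul, h.sq]
  abel

lemma Good.u_conj (h : Good p π) (g : GL (Fin 3) O) (Z : Matrix (Fin 3) (Fin 3) O) :
    g⁻¹ * h.u (g.1 * Z) * g = h.u (Z * g.1) := by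
  refine Units.ext ?_
  simp [Good.u, mul_add, add_mul, ← mul_assoc]

lemma Good.mem_ker (h : Good p π) {k : GL (Fin 3) O} :
    k ∈ (GeneralLinearGroup.map (n := Fin 3) π).ker ↔ ∃ X, k = h.u X := by
  constructor
  · intro hk
    have : ∀ i j, ∃ y, (k.1 - 1) i j = p * y := fun i j => h.ker _ (by
      have := congrArg (fun g : GL (Fin 3) (ZMod p) => g.1 i j) hk
      simp only [GeneralLinearGroup.map_apply, Units.val_one] at this
      rw [Matrix.sub_apply, map_sub, this, one_apply, one_apply]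
      split_ifs <;> simp)
    choose X hX using this
    refine ⟨Matrix.of X, Units.ext (Matrix.ext fun i j => ?_)⟩
    have := hX i j
    simp only [Good.u, Matrix.add_apply, Matrix.smul_apply, of_apply, smul_eq_mul,
      Matrix.sub_apply] at this ⊢
    linear_combination this
  · rintro ⟨X, rfl⟩
    refine Units.ext (Matrix.ext fun i j => ?_)
    simp only [GeneralLinearGroup.map_apply, Units.val_one, Good.u, Matrix.add_apply,
      Matrix.smul_apply, smul_eq_mul, map_add, map_mul, map_natCast, ZMod.natCast_self, zero_mul,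
      add_zero, one_apply]
    split_ifs <;> simp

lemma card_GL (p : ℕ) [Fact p.Prime] :
    Nat.card (GL (Fin 3) (ZMod p)) = (p ^ 3 - 1) * (p ^ 3 - p) * (p ^ 3 - p ^ 2) := by
  rw [card_GL_field, Fin.prod_univ_three]
  simp

lemma small {π : O →+* ZMod 2} (h : Good 2 π) {V : Type} [AddCommGroup V] [Module ℂ V]
    [FiniteDimensional ℂ V] [Nontrivial V] (ρ : Representation ℂ (GL (Fin 3) O) V)
    (hirr : ∀ W : Submodule ℂ V, (∀ g v, v ∈ W → ρ g v ∈ W) → W = ⊥ ∨ W = ⊤) :
    Module.finrank ℂ V < 168 := by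
  classical
  have := h.finite
  obtain ⟨v, -, hv, hc⟩ := common_eig (fun X => ρ (h.u X))
    (fun X Y => by rw [← map_mul, ← map_mul, ← h.u_add, ← h.u_add, add_comm]) ⊤ top_ne_bot
    (fun _ _ _ => trivial)
  choose c hc using hc
  have hadd : ∀ X Y, c (X + Y) = c X * c Y := fun X Y => smul_left_injective ℂ hv (by
    show c (X + Y) • v = (c X * c Y) • v
    rw [← hc, h.u_add, map_mul, Module.End.mul_apply, hc, map_smul, hc, smul_smul, mul_comm])
  have h2 : ∀ X, c (X + X) = 1 := fun X => smul_left_injective ℂ hv (by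
    show c (X + X) • v = (1 : ℂ) • v
    have : h.u (X + X) = 1 := Units.ext (by
      have e : ((2 : ℕ) : O) • (X + X) = (((2 : ℕ) : O) * ((2 : ℕ) : O)) • X := by
        rw [← two_smul O X, smul_smul]
        simp
      simp only [Good.u, e, h.sq, zero_smul, add_zero, Units.val_one])
    rw [← hc, this, map_one, one_smul, Module.End.one_apply])
  have hpm : ∀ X, c X = 1 ∨ c X = -1 := fun X => mul_self_eq_one_iff.1 (by rw [← hadd, h2])
  let B : Matrix (Fin 3) (Fin 3) O →+ ZMod 2 := AddMonoidHom.mk'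
    (fun X => if c X = 1 then 0 else 1) (fun X Y => by
      rw [hadd]
      rcases hpm X with a | a <;> rcases hpm Y with b | b <;> simp only [a, b] <;> norm_num
      rfl)
  have hB : ∀ X Y, B X = B Y → c X = c Y := fun X Y e => by
    change (if c X = 1 then (0 : ZMod 2) else 1) = if c Y = 1 then 0 else 1 at e
    rcases hpm X with a | a <;> rcases hpm Y with b | b <;> simp only [a, b] at e ⊢ <;>
      norm_num at e
  have hB1 : ∀ i j (x : O), B (single i j x) = π x * B (single i j 1) := fun i j x => by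
    obtain ⟨y, hy⟩ := h.decomp x
    have e : single i j x = (π x).val • single i j (1 : O) + (single i j y + single i j y) := by
      conv_lhs => rw [hy]
      rw [smul_single, ← single_add, ← single_add]
      congr 1
      push_cast
      ring
    rw [e, map_add, map_add, CharTwo.add_self_eq_zero, add_zero, map_nsmul]
    simp
  have hB2 : ∀ X, B X = ∑ i, ∑ j, π (X i j) * B (single i j 1) := fun X => by
    conv_lhs => rw [matrix_eq_sum_single X]
    simp only [map_sum]
    exact Finset.sum_congr rfl fun i _ => Finset.sum_congr rfl fun j _ => hB1 i j _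
  obtain ⟨s0, hs1, hs2, hs3⟩ := comm_unit (Matrix.of fun i j => B (single j i 1))
  obtain ⟨s, hs⟩ := h.surj (GeneralLinearGroup.mk'' s0 (by rw [hs1]; exact isUnit_one))
  have hs' : ∀ i j, π (s.1 i j) = s0 i j := fun i j =>
    congrArg (fun g : GL (Fin 3) (ZMod 2) => g.1 i j) hs
  have key : ∀ Z, c (s.1 * Z) = c (Z * s.1) := fun Z => hB _ _ (by
    have e := fun i j => congrFun (congrFun hs3 i) j
    simp only [Matrix.mul_apply, Fin.sum_univ_three, of_apply] at e
    simp only [hB2 (s.1 * Z), hB2 (Z * s.1), Matrix.mul_apply, Fin.sum_univ_three, map_add,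
      map_mul, hs']
    linear_combination -π (Z 0 0) * e 0 0 - π (Z 0 1) * e 1 0 - π (Z 0 2) * e 2 0
      - π (Z 1 0) * e 0 1 - π (Z 1 1) * e 1 1 - π (Z 1 2) * e 2 1
      - π (Z 2 0) * e 0 2 - π (Z 2 1) * e 1 2 - π (Z 2 2) * e 2 2)
  let U : Submodule ℂ V := ⨅ X, Module.End.eigenspace (ρ (h.u X)) (c X)
  have hU : ∀ w, w ∈ U ↔ ∀ X, ρ (h.u X) w = c X • w := fun w => by
    simp only [U, Submodule.mem_iInf, Module.End.mem_eigenspace_iff]
  obtain ⟨w, hw, hw0, hw1⟩ := common_eig (fun _ : Unit => ρ s) (fun _ _ => rfl) U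
    ((Submodule.ne_bot_iff _).2 ⟨v, (hU v).2 hc, hv⟩) (fun _ w hw => (hU _).2 fun X => by
      obtain ⟨Z, rfl⟩ : ∃ Z, X = s.1 * Z := ⟨(s⁻¹).1 * X, by simp⟩
      have : h.u (s.1 * Z) * s = s * h.u (Z * s.1) := by rw [← h.u_conj]; group
      rw [← Module.End.mul_apply, ← map_mul, this, map_mul, Module.End.mul_apply, (hU w).1 hw,
        map_smul, key])
  let H : Subgroup (GL (Fin 3) O) :=
    { carrier := {g | ∃ a : ℂ, ρ g w = a • w}
      one_mem' := ⟨1, by simp⟩
      mul_mem' := by
        rintro x y ⟨a, ha⟩ ⟨b, hb⟩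
        exact ⟨b * a, by rw [map_mul, Module.End.mul_apply, hb, map_smul, ha, smul_smul]⟩
      inv_mem' := by
        rintro x ⟨a, ha⟩
        have e : a • ρ x⁻¹ w = w := by
          rw [← map_smul, ← ha, ← Module.End.mul_apply, ← map_mul, inv_mul_cancel, map_one,
            Module.End.one_apply]
        have a0 : a ≠ 0 := by
          rintro rfl
          exact hw0 (by rw [← e, zero_smul])
        exact ⟨a⁻¹, (eq_inv_smul_iff₀ a0).2 e⟩ }
  refine (bound ρ hirr H w hw0 fun g hg => hg).trans_lt ?_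
  have hlt : (GeneralLinearGroup.map (n := Fin 3) π).ker < H := by
    refine lt_of_le_of_ne (fun k hk => ?_) fun e => hs2 ?_
    · obtain ⟨X, rfl⟩ := h.mem_ker.1 hk
      exact ⟨_, (hU w).1 hw X⟩
    · have : s ∈ (GeneralLinearGroup.map (n := Fin 3) π).ker := e ▸ hw1 ()
      rw [MonoidHom.mem_ker, hs] at this
      exact congrArg Units.val this
  refine (Subgroup.index_strictAnti hlt).trans_eq ?_
  rw [Subgroup.index_ker, MonoidHom.range_eq_top.2 h.surj, Subgroup.card_top, card_GL]
  rfl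

lemma large (h : Good p π) (hp : p ≠ 2) :
    ∃ (V : Type) (_ : AddCommGroup V) (_ : Module ℂ V) (ρ : Representation ℂ (GL (Fin 3) O) V),
      FiniteDimensional ℂ V ∧ Nontrivial V ∧
      (∀ W : Submodule ℂ V, (∀ g v, v ∈ W → ρ g v ∈ W) → W = ⊥ ∨ W = ⊤) ∧
      ρ (h.u (single 1 1 1)) ≠ 1 ∧
      Module.finrank ℂ V * (p - 1) ^ 3 = (p ^ 3 - 1) * (p ^ 3 - p) * (p ^ 3 - p ^ 2) := by
  classical
  have := h.finite
  let δ : (Fin 3 → (ZMod p)ˣ) →* GL (Fin 3) (ZMod p) :=
    (Units.map (diagonalRingHom (Fin 3) (ZMod p)).toMonoidHom).comp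
      MulEquiv.piUnits.symm.toMonoidHom
  have hδ : ∀ t, (δ t).1 = diagonal fun i => (t i : ZMod p) := fun _ => rfl
  have hδi : Function.Injective δ := fun a b e => funext fun i => Units.ext (by
    have := congrArg (fun g : GL (Fin 3) (ZMod p) => g.1 i i) e
    simpa [hδ] using this)
  let H := δ.range.comap (GeneralLinearGroup.map (n := Fin 3) π)
  have hH : ∀ g : GL (Fin 3) O, g ∈ H ↔ ∀ i j, i ≠ j → π (g.1 i j) = 0 := fun g => by
    constructor
    · rintro ⟨t, ht⟩ i j hij
      have := congrArg (fun g : GL (Fin 3) (ZMod p) => g.1 i j) ht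
      simp only [hδ, GeneralLinearGroup.map_apply, diagonal_apply_ne _ hij] at this
      exact this.symm
    · intro hg
      have e : (GeneralLinearGroup.map π g).1 = diagonal fun i => π (g.1 i i) := by
        ext i j
        by_cases hij : i = j
        · rw [hij, diagonal_apply_eq]
          rfl
        · rw [diagonal_apply_ne _ hij]
          exact hg i j hij
      have d : (GeneralLinearGroup.map π g).1.det ≠ 0 :=
        (GeneralLinearGroup.det (GeneralLinearGroup.map π g)).ne_zero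
      rw [e, det_diagonal, Finset.prod_ne_zero_iff] at d
      exact ⟨fun i => Units.mk0 _ (d i (Finset.mem_univ i)), Units.ext e.symm⟩
  obtain ⟨χ, hχ⟩ := MulChar.exists_apply_ne_one_of_hasEnoughRootsOfUnity O ℂ
    (a := 1 + p) (by simpa using h.ne)
  have hmul : ∀ (a b : H) (i : Fin 3), (a * b).1.1 i i = a.1.1 i i * b.1.1 i i := fun a b i => by
    have z : ∀ j, j ≠ i → a.1.1 i j * b.1.1 j i = 0 := fun j hj => by
      obtain ⟨x, hx⟩ := h.ker _ ((hH _).1 a.2 i j hj.symm)
      obtain ⟨y, hy⟩ := h.ker _ ((hH _).1 b.2 j i hj)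
      rw [hx, hy]
      linear_combination x * y * h.sq
    show (a.1.1 * b.1.1) i i = _
    rw [Matrix.mul_apply, Finset.sum_eq_single i (fun j _ hj => z j hj) (by simp)]
  let θ0 : H →* ℂ :=
    { toFun := fun g => χ (g.1.1 1 1) * χ (g.1.1 2 2) ^ 2
      map_one' := by simp
      map_mul' := fun a b => by
        rw [hmul, hmul, map_mul, map_mul]
        ring }
  have hKH : (GeneralLinearGroup.map (n := Fin 3) π).ker ≤ H := fun k hk => by
    show _ ∈ δ.range
    rw [show GeneralLinearGroup.map π k = 1 from hk]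
    exact one_mem _
  have hl : ∀ x y : O, χ (1 + p * (x + y)) = χ (1 + p * x) * χ (1 + p * y) := fun x y => by
    rw [← map_mul]
    congr 1
    linear_combination -x * y * h.sq
  have hθ : ∀ X hX, θ0 ⟨h.u X, hX⟩ = χ (1 + p * (X 1 1 + 2 * X 2 2)) := fun X hX => by
    rw [two_mul, hl, hl, ← pow_two]
    simp [θ0, Good.u]
  obtain ⟨V, _, _, ρ, h1, h2, h3, h4, h5⟩ := exists_irr H _ hKH θ0.toHomUnits (fun g hg => by
    have k1 : ∀ Z : Matrix (Fin 3) (Fin 3) O,
        χ (1 + p * ((Z * g.1) 1 1 + 2 * (Z * g.1) 2 2)) =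
          χ (1 + p * ((g.1 * Z) 1 1 + 2 * (g.1 * Z) 2 2)) := fun Z => by
      have := congrArg Units.val (hg _ (h.mem_ker.2 ⟨g.1 * Z, rfl⟩))
      simp only [MonoidHom.coe_toHomUnits, h.u_conj] at this
      rwa [hθ, hθ] at this
    have k2 : ∀ x y : O, (∀ c, χ (1 + p * (c * x)) = χ (1 + p * (c * y))) → π (x - y) = 0 := by
      intro x y hxy
      by_contra hne
      obtain ⟨c, hc⟩ := (h.isUnit hne).exists_left_inv
      have e := hl (c * y) 1
      rw [show c * y + 1 = c * x by linear_combination -hc, hxy, mul_one] at e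
      have n0 : χ (1 + p * (c * y)) ≠ 0 := fun e0 => by
        have := hl (c * y) (-(c * y))
        rw [e0] at this
        simp at this
      exact hχ (mul_left_cancel₀ n0 (e.symm.trans (mul_one _).symm))
    have two : (2 : ZMod p) ≠ 0 := fun e => hp ((Nat.prime_dvd_prime_iff_eq Fact.out
      Nat.prime_two).1 ((ZMod.natCast_eq_zero_iff 2 p).1 (by exact_mod_cast e)))
    rw [hH]
    intro i j hij
    let b : Fin 3 → O := ![0, 1, 2]
    have k3 := k2 (b j * g.1 i j) (b i * g.1 i j) fun c => by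
      have := k1 (single j i c)
      convert this using 3 <;> fin_cases i <;> fin_cases j <;>
        simp [b, Matrix.mul_apply, single_apply] <;> ring
    rw [← sub_mul, map_mul] at k3
    refine (mul_eq_zero.1 k3).resolve_left ?_
    have e2 : π 2 = 2 := map_ofNat π 2
    fin_cases i <;> fin_cases j <;> simp [b, e2, two] at hij ⊢ <;> norm_num)
  refine ⟨V, inferInstance, inferInstance, ρ, h1, h2, h3,
    h4 ⟨_, hKH (h.mem_ker.2 ⟨_, rfl⟩)⟩ fun e => hχ ?_, ?_⟩
  · have := congrArg Units.val e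
    simp only [MonoidHom.coe_toHomUnits, Units.val_one] at this
    rw [hθ] at this
    simpa using this
  · rw [h5, Subgroup.index_comap_of_surjective _ h.surj, ← card_GL, ← δ.range.index_mul_card,
      ← Nat.card_congr (MonoidHom.ofInjective hδi).toEquiv]
    simp [Nat.totient_prime (Fact.out : p.Prime)]

lemma good_padic (p : ℕ) [Fact p.Prime] :
    ∃ π : ℤ_[p] ⧸ IsLocalRing.maximalIdeal ℤ_[p] ^ 2 →+* ZMod p, Good p π := by
  have hm := PadicInt.maximalIdeal_eq_span_p (p := p)
  have hp : (p : ℤ_[p]) ∈ IsLocalRing.maximalIdeal ℤ_[p] := hm ▸ Ideal.mem_span_singleton_self _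
  refine ⟨Ideal.Quotient.lift _ PadicInt.toZMod fun a ha => ?_, fun x hx => ?_, ?_, fun e => ?_⟩
  · rw [← RingHom.mem_ker, PadicInt.ker_toZMod]
    exact Ideal.pow_le_self two_ne_zero ha
  · obtain ⟨x, rfl⟩ := Ideal.Quotient.mk_surjective x
    rw [Ideal.Quotient.lift_mk, ← RingHom.mem_ker, PadicInt.ker_toZMod, hm,
      Ideal.mem_span_singleton] at hx
    obtain ⟨y, rfl⟩ := hx
    exact ⟨Ideal.Quotient.mk _ y, by simp⟩
  · rw [← map_natCast (Ideal.Quotient.mk _), ← map_mul, Ideal.Quotient.eq_zero_iff_mem, pow_two]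
    exact Ideal.mul_mem_mul hp hp
  · rw [← map_natCast (Ideal.Quotient.mk _), Ideal.Quotient.eq_zero_iff_mem, hm,
      Ideal.span_singleton_pow, Ideal.mem_span_singleton] at e
    obtain ⟨y, hy⟩ := e
    have : (p : ℤ_[p]) * y = 1 := mul_left_cancel₀ (Nat.cast_ne_zero.2 (Fact.out : p.Prime).ne_zero)
      (by linear_combination -hy)
    exact hp (IsUnit.of_mul_eq_one y this)

end Pool.Agent.H19.OnnDim
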