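import Mathlib

set_option autoImplicit false

namespace Pool.Agent.H19.Palin

open FreeGroup hiding map_mul map_inv map_one

section Rev
variable {α : Type*}

/-- the automorphism inverting the generators -/
def sig : FreeGroup α →* FreeGroup α := FreeGroup.lift (fun a => (of a)⁻¹)

lemma sig_single (x : α × Bool) : sig (mk [x]) = (mk [x])⁻¹ := by
  obtain ⟨a, b⟩ := x
  cases b
  · have h : (mk [(a, false)] : FreeGroup α) = (of a)⁻¹ := rfl
    rw [h, map_inv]; simp [sig]
  · have h : (mk [(a, true)] : FreeGroup α) = of a := rfl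
    rw [h]; simp [sig]

lemma mk_reverse (L : List (α × Bool)) : mk L.reverse = (sig (mk L))⁻¹ := by
  induction L with
  | nil => simp [← one_eq_mk]
  | cons x L ih =>
    have h1 : mk (x :: L) = mk [x] * mk L := by rw [mul_mk]; rfl
    rw [List.reverse_cons, ← mul_mk, ih, h1, map_mul, sig_single]
    simp

/-- reversal anti-automorphism -/
def rev (g : FreeGroup α) : FreeGroup α := (sig g)⁻¹

lemma rev_mul (g h : FreeGroup α) : rev (g * h) = rev h * rev g := by simp [rev]
lemma rev_one : rev (1 : FreeGroup α) = 1 := by simp [rev]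
lemma rev_inv (g : FreeGroup α) : rev g⁻¹ = (rev g)⁻¹ := by simp [rev]
lemma rev_of (a : α) : rev (of a) = of a := by simp [rev, sig]
lemma rev_mk (L : List (α × Bool)) : rev (mk L) = mk L.reverse := (mk_reverse L).symm
lemma rev_rev (g : FreeGroup α) : rev (rev g) = g := by
  induction g using Quot.ind with
  | mk L =>
    change rev (rev (mk L)) = mk L
    rw [rev_mk, rev_mk, List.reverse_reverse]
lemma rev_zpow (g : FreeGroup α) (n : ℤ) : rev (g ^ n) = (rev g) ^ n := by
  simp [rev]

lemma isReduced_reverse {L : List (α × Bool)} (h : IsReduced L) : IsReduced L.reverse := by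
  unfold FreeGroup.IsReduced at *
  rw [List.isChain_reverse]
  exact h.imp (fun a b hab h' => (hab h'.symm).symm)

variable [DecidableEq α]

lemma toWord_rev (g : FreeGroup α) : (rev g).toWord = g.toWord.reverse := by
  conv_lhs => rw [← mk_toWord (x := g), rev_mk, toWord_mk]
  exact (isReduced_reverse isReduced_toWord).reduce_eq

lemma pal_of_rev {g : FreeGroup α} (h : rev g = g) : g.toWord.reverse = g.toWord := by
  rw [← toWord_rev, h]

end Rev

section General
variable {G : Type*} [Group G]

/-- every element of the commutator subgroup is the value of a word whose reversal is trivial -/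
lemma comm_mem {α : Type*} (v : α → G) (S : Set G) (hS : Subgroup.closure S = ⊤)
    (h1 : ∀ x ∈ S, ∃ a, v a = x) (h2 : ∀ x ∈ S, ∀ y ∈ S, ∃ a, v a = x * y)
    (g : G) (hg : g ∈ commutator G) :
    ∃ w : FreeGroup α, FreeGroup.lift v w = g ∧ FreeGroup.lift v (rev w) = 1 := by
  let N : Subgroup G :=
    { carrier := {g | ∃ w : FreeGroup α, FreeGroup.lift v w = g ∧ FreeGroup.lift v (rev w) = 1}
      one_mem' := ⟨1, by simp, by simp [rev_one]⟩
      mul_mem' := by
        rintro a b ⟨w, rfl, hw⟩ ⟨u, rfl, hu⟩
        exact ⟨w * u, by simp, by simp [rev_mul, hw, hu]⟩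
      inv_mem' := by
        rintro a ⟨w, rfl, hw⟩
        exact ⟨w⁻¹, by simp, by simp [rev_inv, hw]⟩ }
  have hsurj : ∀ t : G, ∃ T : FreeGroup α, FreeGroup.lift v T = t := by
    intro t
    have : Subgroup.closure S ≤ (FreeGroup.lift v).range := by
      rw [Subgroup.closure_le]
      intro x hx
      obtain ⟨a, rfl⟩ := h1 x hx
      exact ⟨of a, by simp⟩
    rw [hS] at this
    exact this (Subgroup.mem_top t)
  have hN : N.Normal := ⟨by
    rintro n ⟨w, rfl, hw⟩ t
    obtain ⟨T, rfl⟩ := hsurj t
    exact ⟨T * w * T⁻¹, by simp, by simp [rev_mul, rev_inv, hw]⟩⟩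
  have hc : ∀ x ∈ S, ∀ y ∈ S, Commute (x : G ⧸ N) (y : G ⧸ N) := by
    intro x hx y hy
    obtain ⟨a, ha⟩ := h1 x hx
    obtain ⟨b, hb⟩ := h1 y hy
    obtain ⟨c, hc⟩ := h2 x hx y hy
    have : (x * y)⁻¹ * (y * x) ∈ N := by
      refine ⟨(of c)⁻¹ * of b * of a, ?_, ?_⟩
      · simp [ha, hb, hc, mul_assoc]
      · simp [rev_mul, rev_inv, rev_of, ha, hb, hc]
    have h := QuotientGroup.eq.mpr this
    simpa [Commute, SemiconjBy] using h
  have hall : ∀ x y : G, Commute (x : G ⧸ N) (y : G ⧸ N) := by
    intro x y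
    have hx : x ∈ Subgroup.closure S := hS ▸ Subgroup.mem_top x
    have hy : y ∈ Subgroup.closure S := hS ▸ Subgroup.mem_top y
    induction hx, hy using Subgroup.closure_induction₂ with
    | mem x y hx hy => exact hc x hx y hy
    | one_left => simp
    | one_right => simp
    | mul_left x y z _ _ _ h h' => simpa using h.mul_left h'
    | mul_right y z x _ _ _ h h' => simpa using h.mul_right h'
    | inv_left x y _ _ h => simpa using h.inv_left
    | inv_right x y _ _ h => simpa using h.inv_right
  have hle : commutator G ≤ N := by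
    rw [commutator_def, Subgroup.commutator_le]
    intro x _ y _
    rw [← QuotientGroup.eq_one_iff]
    have := (hall x y).commutator_eq
    simpa [commutatorElement_def] using this
  exact hle hg

/-- modulo the commutator subgroup every element is an ordered product of powers -/
lemma ab_decomp (l : List G) (g : G) (hg : g ∈ Subgroup.closure {x | x ∈ l}) :
    ∃ ps : List G, ps.length = l.length ∧ (∀ p ∈ ps, ∃ x ∈ l, ∃ n : ℤ, p = x ^ n) ∧
      Abelianization.of ps.prod = Abelianization.of g := by
  induction l generalizing g with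
  | nil =>
    refine ⟨[], rfl, by simp, ?_⟩
    simp at hg
    simp [hg]
  | cons a l ih =>
    have key : ∃ n : ℤ, ∃ h ∈ Subgroup.closure {x | x ∈ l},
        Abelianization.of g = Abelianization.of (a ^ n * h) := by
      induction hg using Subgroup.closure_induction with
      | mem x hx =>
        rcases List.mem_cons.mp hx with rfl | hx
        · exact ⟨1, 1, Subgroup.one_mem _, by simp⟩
        · exact ⟨0, x, Subgroup.subset_closure hx, by simp⟩
      | one => exact ⟨0, 1, Subgroup.one_mem _, by simp⟩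
      | mul x y _ _ hx hy =>
        obtain ⟨n, h, hh, e⟩ := hx
        obtain ⟨m, k, hk, e'⟩ := hy
        refine ⟨n + m, h * k, Subgroup.mul_mem _ hh hk, ?_⟩
        simp only [map_mul, e, e', map_zpow, zpow_add]
        exact mul_mul_mul_comm _ _ _ _
      | inv x _ hx =>
        obtain ⟨n, h, hh, e⟩ := hx
        refine ⟨-n, h⁻¹, Subgroup.inv_mem _ hh, ?_⟩
        simp only [map_mul, e, map_zpow, map_inv, zpow_neg, mul_inv]
    obtain ⟨n, h, hh, e⟩ := key
    obtain ⟨ps, hl, hp, e'⟩ := ih h hh
    refine ⟨a ^ n :: ps, by simp [hl], ?_, ?_⟩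
    · intro p hp'
      rcases List.mem_cons.mp hp' with rfl | hp'
      · exact ⟨a, by simp, n, rfl⟩
      · obtain ⟨x, hx, m, rfl⟩ := hp p hp'
        exact ⟨x, by simp [hx], m, rfl⟩
    · rw [e, List.prod_cons, map_mul, map_mul, e']

/-- main lemma -/
lemma bounded {α : Type*} (v : α → G) (S : Finset G) (hS : Subgroup.closure (S : Set G) = ⊤)
    (h1 : ∀ x ∈ S, ∃ a, v a = x) (h2 : ∀ x ∈ S, ∀ y ∈ S, ∃ a, v a = x * y) (g : G) :
    ∃ ws : List (FreeGroup α), ws.length = S.card + 1 ∧ (∀ w ∈ ws, rev w = w) ∧
      (ws.map (FreeGroup.lift v)).prod = g := by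
  have hg : g ∈ Subgroup.closure {x | x ∈ S.toList} := by
    have : {x | x ∈ S.toList} = (S : Set G) := by ext; simp
    rw [this, hS]; trivial
  obtain ⟨ps, hl, hp, e⟩ := ab_decomp S.toList g hg
  have hc : ps.prod⁻¹ * g ∈ commutator G := by
    have : Abelianization.of (ps.prod⁻¹ * g) = 1 := by simp [← e]
    rwa [← MonoidHom.mem_ker, Abelianization.ker_of] at this
  obtain ⟨w, hw, hw'⟩ := comm_mem v S hS h1 h2 _ hc
  have hex : ∃ us : List (FreeGroup α), us.length = ps.length ∧ (∀ w ∈ us, rev w = w) ∧
      (us.map (FreeGroup.lift v)).prod = ps.prod := by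
    clear e hc hw hl
    induction ps with
    | nil => exact ⟨[], rfl, by simp, rfl⟩
    | cons p ps ih =>
      obtain ⟨us, h1', h2', h3'⟩ := ih (fun q hq => hp q (List.mem_cons_of_mem _ hq))
      obtain ⟨x, hx, n, rfl⟩ := hp p List.mem_cons_self
      obtain ⟨a, rfl⟩ := h1 x (by simpa using hx)
      refine ⟨of a ^ n :: us, by simp [h1'], ?_, by simp [h3']⟩
      intro u hu
      rcases List.mem_cons.mp hu with rfl | hu
      · rw [rev_zpow, rev_of]
      · exact h2' u hu
  obtain ⟨us, h1', h2', h3'⟩ := hex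
  refine ⟨us ++ [w * rev w], by simp [h1', hl], ?_, ?_⟩
  · intro u hu
    rcases List.mem_append.mp hu with hu | hu
    · exact h2' u hu
    · rw [List.mem_singleton.mp hu, rev_mul, rev_rev]
  · simp [h3', hw, hw']

/-- formal version: reduced palindromic words over a finite generating set -/
theorem exists_finite_width (G : Type*) [Group G] (S : Finset G)
    (hS : Subgroup.closure (S : Set G) = ⊤) :
    ∃ X : Finset G, S ⊆ X ∧ ∃ N : ℕ, ∀ g : G, ∃ ws : List (List (X × Bool)), ws.length ≤ N ∧
      (∀ w ∈ ws, FreeGroup.IsReduced w ∧ w.reverse = w) ∧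
      (ws.map fun w => (w.map fun x => if x.2 then (x.1 : G) else (x.1 : G)⁻¹).prod).prod = g := by
  classical
  refine ⟨S ∪ Finset.image₂ (· * ·) S S, Finset.subset_union_left, S.card + 1, fun g => ?_⟩
  obtain ⟨ws, h1, h2, h3⟩ := bounded
    (fun x : (S ∪ Finset.image₂ (· * ·) S S : Finset G) => (x : G)) S hS
    (fun x hx => ⟨⟨x, Finset.mem_union_left _ hx⟩, rfl⟩)
    (fun x hx y hy => ⟨⟨x * y, Finset.mem_union_right _ (Finset.mem_image₂_of_mem hx hy)⟩, rfl⟩) g
  refine ⟨ws.map toWord, by simp [h1], ?_, ?_⟩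
  · intro w hw
    obtain ⟨u, hu, rfl⟩ := List.mem_map.mp hw
    exact ⟨isReduced_toWord, pal_of_rev (h2 u hu)⟩
  · rw [← h3, List.map_map]
    congr 1
    apply List.map_congr_left
    intro u _
    conv_rhs => rw [← mk_toWord (x := u), lift_mk]
    simp only [Function.comp]
    congr 1
    apply List.map_congr_left
    intro x _
    cases x.2 <;> simp

end General

section Brooks

abbrev Lt := Bool × Bool

def f (x y : Lt) : ℤ :=
  if x.2 = y.2 then (if x.1 = true ∧ y.1 = false then 1 else if x.1 = false ∧ y.1 = true then -1 else 0)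
  else 0

lemma f_swap (x y : Lt) : f y x = - f x y := by
  obtain ⟨a, b⟩ := x; obtain ⟨c, d⟩ := y
  cases a <;> cases b <;> cases c <;> cases d <;> simp [f]

lemma f_flip (x y : Lt) : f (x.1, !x.2) (y.1, !y.2) = f x y := by
  obtain ⟨a, b⟩ := x; obtain ⟨c, d⟩ := y
  cases a <;> cases b <;> cases c <;> cases d <;> simp [f]

lemma f_abs (x y : Lt) : -1 ≤ f x y ∧ f x y ≤ 1 := by
  obtain ⟨a, b⟩ := x; obtain ⟨c, d⟩ := y
  cases a <;> cases b <;> cases c <;> cases d <;> simp [f]

def cnt : List Lt → ℤ
  | x :: y :: L => f x y + cnt (y :: L)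
  | _ => 0

def jn (u v : List Lt) : ℤ :=
  match u.getLast?, v.head? with
  | some x, some y => f x y
  | _, _ => 0

lemma jn_abs (u v : List Lt) : -1 ≤ jn u v ∧ jn u v ≤ 1 := by
  unfold jn
  split
  · exact f_abs _ _
  · simp

lemma cnt_append (u v : List Lt) : cnt (u ++ v) = cnt u + cnt v + jn u v := by
  induction u with
  | nil => simp [cnt, jn]
  | cons x u ih =>
    cases u with
    | nil =>
      cases v with
      | nil => simp [cnt, jn]
      | cons y v => simp [cnt, jn]; ring
    | cons y u =>
      have : jn (x :: y :: u) v = jn (y :: u) v := by simp [jn, List.getLast?_cons_cons]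
      rw [this]
      simp only [List.cons_append, cnt] at ih ⊢
      rw [ih]; ring

lemma cnt_reverse (L : List Lt) : cnt L.reverse = - cnt L := by
  induction L with
  | nil => simp [cnt]
  | cons x L ih =>
    rw [List.reverse_cons, cnt_append, ih]
    cases L with
    | nil => simp [cnt, jn]
    | cons y L =>
      have : jn (y :: L).reverse [x] = f y x := by simp [jn]
      rw [this, f_swap]
      simp [cnt]

lemma cnt_map (L : List Lt) : cnt (L.map fun g => (g.1, !g.2)) = cnt L := by
  induction L with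
  | nil => simp [cnt]
  | cons x L ih =>
    cases L with
    | nil => simp [cnt]
    | cons y L =>
      simp only [List.map_cons, cnt] at ih ⊢
      rw [ih, f_flip]

lemma cnt_invRev (L : List Lt) : cnt (invRev L) = - cnt L := by
  rw [invRev, cnt_reverse, cnt_map]

lemma decomp (L₁ : List Lt) : ∀ L₂ : List Lt, IsReduced L₁ → IsReduced L₂ →
    ∃ u c v, L₁ = u ++ c ∧ L₂ = invRev c ++ v ∧ IsReduced (u ++ v) := by
  induction L₁ using List.reverseRecOn with
  | nil => intro L₂ _ h; exact ⟨[], [], L₂, rfl, rfl, h⟩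
  | append_singleton L x ih =>
    intro L₂ h1 h2
    cases L₂ with
    | nil => exact ⟨L ++ [x], [], [], by simp, rfl, by simpa using h1⟩
    | cons y L₂ =>
      by_cases hy : y = (x.1, !x.2)
      · obtain ⟨u, c, v, e1, e2, h⟩ := ih L₂ (List.IsChain.left_of_append h1)
          (List.IsChain.tail h2)
        refine ⟨u, c ++ [x], v, by simp [e1], ?_, h⟩
        simp [invRev, hy, e2]
      · refine ⟨L ++ [x], [], y :: L₂, by simp, rfl, ?_⟩
        unfold FreeGroup.IsReduced at *
        rw [List.isChain_append]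
        refine ⟨h1, h2, ?_⟩
        intro a ha b hb
        simp at ha hb
        subst ha hb
        intro h
        by_contra h'
        apply hy
        obtain ⟨a, b⟩ := x; obtain ⟨c, d⟩ := y
        simp at h h' ⊢
        refine ⟨h.symm, ?_⟩
        cases b <;> cases d <;> simp_all

def psi (g : FreeGroup Bool) : ℤ := cnt g.toWord

lemma psi_mul (g h : FreeGroup Bool) : psi (g * h) ≤ psi g + psi h + 3 := by
  obtain ⟨u, c, v, e1, e2, hr⟩ := decomp g.toWord h.toWord isReduced_toWord isReduced_toWord
  have e : g * h = mk (u ++ v) := by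
    rw [← mk_toWord (x := g), ← mk_toWord (x := h), e1, e2, ← mul_mk, ← mul_mk, ← mul_mk,
      ← inv_mk]
    group
  unfold psi
  rw [e, toWord_mk, hr.reduce_eq, e1, e2, cnt_append, cnt_append, cnt_append, cnt_invRev]
  have := jn_abs u v
  have := jn_abs u c
  have := jn_abs (invRev c) v
  omega

lemma psi_pal {g : FreeGroup Bool} (h : rev g = g) : psi g = 0 := by
  have := cnt_reverse g.toWord
  rw [pal_of_rev h] at this
  unfold psi; omega

lemma psi_prod (ps : List (FreeGroup Bool)) (h : ∀ p ∈ ps, rev p = p) :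
    psi ps.prod ≤ 3 * ps.length := by
  induction ps with
  | nil => simp [psi, cnt]
  | cons p ps ih =>
    have h1 := psi_mul p ps.prod
    have h2 := ih (fun q hq => h q (List.mem_cons_of_mem _ hq))
    have h3 := psi_pal (h p List.mem_cons_self)
    simp only [List.prod_cons, List.length_cons]
    push_cast
    omega

def ww : ℕ → List Lt
  | 0 => [(true, true)]
  | n + 1 => (true, true) :: (false, true) :: (true, false) :: (false, false) :: ww n

lemma ww_head (n : ℕ) : ∃ L, ww n = (true, true) :: L := by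
  cases n <;> simp [ww]

lemma ww_red (n : ℕ) : IsReduced (ww n) := by
  induction n with
  | zero => exact IsReduced.singleton
  | succ n ih =>
    obtain ⟨L, hL⟩ := ww_head n
    rw [ww, hL] 
    rw [hL] at ih
    simp only [isReduced_cons_cons]
    exact ⟨by simp, by simp, by simp, by simp, ih⟩

lemma ww_cnt (n : ℕ) : cnt (ww n) = 2 * n := by
  induction n with
  | zero => simp [ww, cnt]
  | succ n ih =>
    obtain ⟨L, hL⟩ := ww_head n
    rw [ww, hL]
    rw [hL] at ih
    simp only [cnt, ih]
    simp [f]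
    ring

lemma unbounded (N : ℕ) : ∃ g : FreeGroup Bool, ∀ ps : List (FreeGroup Bool),
    (∀ p ∈ ps, rev p = p) → ps.prod = g → N < ps.length := by
  refine ⟨mk (ww (2 * N + 1)), fun ps h e => ?_⟩
  have h1 := psi_prod ps h
  rw [e, psi, toWord_mk, (ww_red _).reduce_eq, ww_cnt] at h1
  push_cast at h1
  omega

end Brooks

end Pool.Agent.H19.Palin
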