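import Mathlib
import Pool.Agent.H19.ResSol

set_option autoImplicit false
set_option linter.unusedSectionVars false

namespace Pool.Agent.H19.ParaSol

open FreeGroup hiding map_one map_inv map_mul
open Pool.Agent.H19.ResSol
open scoped commutatorElement

section generic
variable {G H : Type} [Group G] [Group H]

def kap (g h : G) : G := g * h * g⁻¹ * h⁻¹ * h⁻¹ * g⁻¹ * h * g

def ab (a b : G) : ℕ → G × G
  | 0 => (a, b)
  | i + 1 => (kap (ab a b i).1 (ab a b i).2, kap (ab a b i).2 (ab a b i).1)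

def K (a b : G) : ℕ → G → G
  | 0, y => y
  | i + 1, y => kap (K a b i y) (ab a b i).2

def step (a b : G) (s : ℕ × Bool) (y : G) : G := K a b s.1 ((if s.2 then a * a else a) * y)

def T (a b : G) (σ : ℕ → ℕ × Bool) : ℕ → ℕ → G → G
  | _, 0, y => y
  | n, k + 1, y => step a b (σ n) (T a b σ (n + 1) k y)

def ev (a b : G) (L : List (ℕ × Bool)) (y : G) : G := L.foldr (step a b) y

lemma kap_map (f : G →* H) (g h : G) : f (kap g h) = kap (f g) (f h) := by simp [kap]

lemma ab_map (f : G →* H) (a b : G) (i : ℕ) :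
    f (ab a b i).1 = (ab (f a) (f b) i).1 ∧ f (ab a b i).2 = (ab (f a) (f b) i).2 := by
  induction i with
  | zero => exact ⟨rfl, rfl⟩
  | succ i ih => simp only [ab, kap_map, ih.1, ih.2, and_self]

lemma K_map (f : G →* H) (a b : G) (i : ℕ) (y : G) : f (K a b i y) = K (f a) (f b) i (f y) := by
  induction i with
  | zero => rfl
  | succ i ih => simp only [K, kap_map, ih, (ab_map f a b i).2]

lemma step_map (f : G →* H) (a b : G) (s : ℕ × Bool) (y : G) :
    f (step a b s y) = step (f a) (f b) s (f y) := by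
  unfold step
  rw [K_map]
  split_ifs <;> simp

lemma ev_map (f : G →* H) (a b : G) (L : List (ℕ × Bool)) (y : G) :
    f (ev a b L y) = ev (f a) (f b) L (f y) := by
  induction L with
  | nil => rfl
  | cons s L ih =>
    have : ∀ (a b : G) , ev a b (s :: L) y = step a b s (ev a b L y) := fun _ _ => rfl
    rw [this, step_map, ih]; rfl

lemma kap_mem {i : ℕ} {g h : G} (hg : g ∈ derivedSeries G i) (hh : h ∈ derivedSeries G i) :
    kap g h ∈ derivedSeries G (i + 1) := by
  have : kap g h = ⁅g, h⁆ * ⁅h⁻¹, g⁻¹⁆ := by simp only [kap, commutatorElement_def]; group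
  rw [this, derivedSeries_succ]
  exact Subgroup.mul_mem _ (Subgroup.commutator_mem_commutator hg hh)
    (Subgroup.commutator_mem_commutator (inv_mem hh) (inv_mem hg))

lemma ab_mem (a b : G) (i : ℕ) :
    (ab a b i).1 ∈ derivedSeries G i ∧ (ab a b i).2 ∈ derivedSeries G i := by
  induction i with
  | zero => simp
  | succ i ih => exact ⟨kap_mem ih.1 ih.2, kap_mem ih.2 ih.1⟩

lemma K_mem (a b : G) (i : ℕ) (y : G) : K a b i y ∈ derivedSeries G i := by
  induction i with
  | zero => simp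
  | succ i ih => exact kap_mem ih (ab_mem a b i).2

lemma step_mem (a b : G) (s : ℕ × Bool) (y : G) {j : ℕ} (h : j ≤ s.1) :
    step a b s y ∈ derivedSeries G j := derivedSeries_antitone G h (K_mem _ _ _ _)

end generic

section words
variable {ι : Type} [DecidableEq ι]

def HT (g : FreeGroup ι) (c d : ι × Bool) (n : ℕ) : Prop :=
  ∃ w, FreeGroup.IsReduced w ∧ g = mk w ∧ w.head? = some c ∧ w.getLast? = some d ∧ w.length = n

lemma HT.norm {g : FreeGroup ι} {c d : ι × Bool} {n : ℕ} (h : HT g c d n) : g.norm = n := by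
  obtain ⟨w, h1, rfl, -, -, rfl⟩ := h
  exact norm_mk h1

lemma HT.mul {g h : FreeGroup ι} {c d e f : ι × Bool} {n m : ℕ} (h1 : HT g c d n)
    (h2 : HT h e f m) (hde : d.1 = e.1 → d.2 = e.2) : HT (g * h) c f (n + m) := by
  obtain ⟨w, r1, rfl, a1, b1, rfl⟩ := h1
  obtain ⟨v, r2, rfl, a2, b2, rfl⟩ := h2
  refine ⟨w ++ v, ?_, mul_mk, by simp [List.head?_append, a1], by simp [List.getLast?_append, b2],
    by simp⟩
  unfold FreeGroup.IsReduced at *
  rw [List.isChain_append]
  refine ⟨r1, r2, ?_⟩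
  simpa [b1, a2] using hde

lemma HT.inv {g : FreeGroup ι} {c d : ι × Bool} {n : ℕ} (h : HT g c d n) :
    HT g⁻¹ (d.1, !d.2) (c.1, !c.2) n := by
  obtain ⟨w, r1, rfl, a1, b1, rfl⟩ := h
  refine ⟨invRev w, ?_, inv_mk, ?_, ?_, by simp⟩
  · rw [isReduced_iff_reduce_eq, reduce_invRev, r1.reduce_eq]
  · simp [invRev, List.head?_reverse, List.getLast?_map, b1]
  · simp [invRev, List.getLast?_reverse, List.head?_map, a1]

lemma HT.of (i : ι) : HT (of i) (i, true) (i, true) 1 :=
  ⟨[(i, true)], IsReduced.singleton, rfl, rfl, rfl, rfl⟩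

lemma HT.kap {g h : FreeGroup ι} {i j : ι} (hij : i ≠ j) {n m : ℕ}
    (h1 : HT g (i, true) (i, true) n) (h2 : HT h (j, true) (j, true) m) :
    HT (kap g h) (i, true) (i, true) (4 * n + 4 * m) := by
  have hji := hij.symm
  have := ((((((h1.mul h2 (by simp)).mul h1.inv (by simp [hji])).mul h2.inv (by simp)).mul
    h2.inv (by simp)).mul h1.inv (by simp)).mul h2 (by simp [hij])).mul h1 (by simp)
  rw [show 4 * n + 4 * m = n + m + n + m + m + n + m + n by omega]
  exact this

variable {i j : ι}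

lemma ab_HT (hij : i ≠ j) (k : ℕ) : ∃ n, HT (ab (of i) (of j) k).1 (i, true) (i, true) n ∧
    HT (ab (of i) (of j) k).2 (j, true) (j, true) n := by
  induction k with
  | zero => exact ⟨1, HT.of i, HT.of j⟩
  | succ k ih =>
    obtain ⟨n, h1, h2⟩ := ih
    exact ⟨_, h1.kap hij h2, h2.kap hij.symm h1⟩

def Good (i : ι) (Φ : FreeGroup ι → FreeGroup ι) : Prop :=
  ∃ ν : ℕ → ℕ, Function.Injective ν ∧
    ∀ y n, HT y (i, true) (i, true) n → HT (Φ y) (i, true) (i, true) (ν n)

lemma K_good (hij : i ≠ j) (k : ℕ) : Good i (K (of i) (of j) k) := by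
  induction k with
  | zero => exact ⟨id, fun _ _ h => h, fun _ _ h => h⟩
  | succ k ih =>
    obtain ⟨ν, h1, h2⟩ := ih
    obtain ⟨m, -, h3⟩ := ab_HT hij k
    refine ⟨fun n => 4 * ν n + 4 * m, fun n n' h => h1 ?_, fun y n h => (h2 y n h).kap hij h3⟩
    simp only at h
    omega

lemma step_good (hij : i ≠ j) (s : ℕ × Bool) : Good i (step (of i) (of j) s) := by
  obtain ⟨ν, h1, h2⟩ := K_good hij s.1
  unfold step
  split_ifs
  · exact ⟨fun n => ν (1 + 1 + n), fun n n' h => by simpa using h1 h,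
      fun y n h => h2 _ _ (((HT.of i).mul (HT.of i) (by simp)).mul h (by simp))⟩
  · exact ⟨fun n => ν (1 + n), fun n n' h => by simpa using h1 h,
      fun y n h => h2 _ _ ((HT.of i).mul h (by simp))⟩

lemma ev_good (hij : i ≠ j) (L : List (ℕ × Bool)) : Good i (ev (of i) (of j) L) := by
  induction L with
  | nil => exact ⟨id, fun _ _ h => h, fun _ _ h => h⟩
  | cons s L ih =>
    obtain ⟨ν, h1, h2⟩ := ih
    obtain ⟨μ, h3, h4⟩ := step_good hij s
    exact ⟨μ ∘ ν, h3.comp h1, fun y n h => h4 _ _ (h2 y n h)⟩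

lemma ev_ne (hij : i ≠ j) (L : List (ℕ × Bool)) (m : ℕ) :
    ev (of i) (of j) L (step (of i) (of j) (m, false) 1) ≠
      ev (of i) (of j) L (step (of i) (of j) (m, true) 1) := by
  obtain ⟨ν, h1, h2⟩ := ev_good hij L
  obtain ⟨μ, h3, h4⟩ := K_good hij m
  intro h
  have e1 := (h2 _ _ (h4 _ _ (HT.of i))).norm
  have e2 := (h2 _ _ (h4 _ _ ((HT.of i).mul (HT.of i) (by simp)))).norm
  simp only [step, mul_one, if_true, Bool.false_eq_true, if_false] at h
  rw [h, e2] at e1
  simpa using h3 (h1 e1)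

end words

abbrev F := FreeGroup (Fin 2)

instance (j : ℕ) : (derivedSeries F j).Normal := derivedSeries_normal F j

abbrev Q (j : ℕ) := F ⧸ derivedSeries F j

abbrev P := (j : ℕ) → Q j

def pr (j : ℕ) : F →* Q j := QuotientGroup.mk' _

lemma pr_eq_one {j : ℕ} {x : F} : pr j x = 1 ↔ x ∈ derivedSeries F j :=
  QuotientGroup.eq_one_iff x

lemma der_Q (j : ℕ) : derivedSeries (Q j) j = ⊥ := by
  rw [← map_derivedSeries_eq (f := pr j) (QuotientGroup.mk'_surjective _), Subgroup.map_eq_bot_iff]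
  intro x hx
  exact pr_eq_one.mpr hx

def diag : F →* P := MonoidHom.pi pr

def Adm (σ : ℕ → ℕ × Bool) : Prop := ∀ n, n ≤ (σ n).1

def yh (σ : ℕ → ℕ × Bool) (n : ℕ) : P := fun j => pr j (T (of 0) (of 1) σ n (j - n) 1)

lemma yh_rel {σ : ℕ → ℕ × Bool} (h : Adm σ) (n : ℕ) :
    yh σ n = step (diag (of 0)) (diag (of 1)) (σ n) (yh σ (n + 1)) := by
  funext j
  have := step_map (Pi.evalMonoidHom Q j) (diag (of 0)) (diag (of 1)) (σ n) (yh σ (n + 1))
  refine Eq.trans ?_ this.symm
  change pr j _ = step (pr j (of 0)) (pr j (of 1)) (σ n) (pr j _)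
  rw [← step_map]
  rcases le_or_gt j n with hj | hj
  · rw [Nat.sub_eq_zero_of_le hj, pr_eq_one.mpr (step_mem _ _ _ _ (hj.trans (h n)))]
    exact map_one _
  · obtain ⟨k, rfl⟩ : ∃ k, j = n + 1 + k := ⟨j - (n + 1), by omega⟩
    rw [show n + 1 + k - n = k + 1 by omega, show n + 1 + k - (n + 1) = k by omega]
    rfl

def Gam : Subgroup P :=
  Subgroup.closure (Set.range diag ∪ {p | ∃ σ n, Adm σ ∧ p = yh σ n})

def psi : F →* Gam := diag.codRestrict Gam fun x => Subgroup.subset_closure (Or.inl ⟨x, rfl⟩)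

def Y {σ : ℕ → ℕ × Bool} (h : Adm σ) (n : ℕ) : Gam :=
  ⟨yh σ n, Subgroup.subset_closure (Or.inr ⟨σ, n, h, rfl⟩)⟩

lemma Y_rel {σ : ℕ → ℕ × Bool} (h : Adm σ) (n : ℕ) :
    Y h n = step (psi (of 0)) (psi (of 1)) (σ n) (Y h (n + 1)) := by
  apply Subtype.ext
  exact (yh_rel h n).trans (step_map Gam.subtype (psi (of 0)) (psi (of 1)) (σ n) (Y h (n + 1))).symm

def co (j : ℕ) : Gam →* Q j := (Pi.evalMonoidHom Q j).comp Gam.subtype

theorem res (g : Gam) (hg : g ≠ 1) : ∃ j, co j g ≠ 1 := by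
  by_contra h
  push Not at h
  exact hg (Subtype.ext (funext h))

theorem comap_eq (j : ℕ) : (derivedSeries Gam j).comap psi = derivedSeries F j := by
  apply le_antisymm
  · intro x hx
    have := map_derivedSeries_le_derivedSeries (co j) j ⟨_, hx, rfl⟩
    rw [der_Q, Subgroup.mem_bot] at this
    exact pr_eq_one.mp this
  · intro x hx
    exact map_derivedSeries_le_derivedSeries psi j ⟨x, hx, rfl⟩

theorem surj (j : ℕ) (γ : Gam) : ∃ x : F, (psi x)⁻¹ * γ ∈ derivedSeries Gam j := by
  have := derivedSeries_normal Gam j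
  let π := QuotientGroup.mk' (derivedSeries Gam j)
  have hY : ∀ σ (h : Adm σ) (k n : ℕ), j ≤ n + k → π (Y h n) ∈ (π.comp psi).range := by
    intro σ h k
    induction k with
    | zero =>
      intro n hn
      have : π (Y h n) = 1 := (QuotientGroup.eq_one_iff _).mpr
        (Y_rel h n ▸ step_mem _ _ _ _ (le_trans (by omega) (h n)))
      rw [this]; exact one_mem _
    | succ k ih =>
      intro n hn
      obtain ⟨x, hx⟩ := ih (n + 1) (by omega)
      refine ⟨step (of 0) (of 1) (σ n) x, ?_⟩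
      rw [step_map, hx, Y_rel h n, step_map]
      rfl
  have key : ∀ p (hp : p ∈ Gam), π ⟨p, hp⟩ ∈ (π.comp psi).range := by
    intro p hp
    induction hp using Subgroup.closure_induction with
    | mem p hp =>
      rcases hp with ⟨x, rfl⟩ | ⟨σ, n, h, rfl⟩
      · exact ⟨x, rfl⟩
      · exact hY σ h j n (by omega)
    | one => exact ⟨1, rfl⟩
    | mul p q hp hq h1 h2 =>
      have := mul_mem h1 h2
      rwa [← map_mul] at this
    | inv p hp h1 =>
      have := inv_mem h1
      rwa [← map_inv] at this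
  obtain ⟨x, hx⟩ := key γ.1 γ.2
  exact ⟨x, QuotientGroup.eq.mp hx⟩

theorem countable_of_free (h : IsFreeGroup Gam) : Countable Gam := by
  classical
  obtain ⟨ι, ⟨B⟩⟩ := h.nonempty_basis
  let χ : ι → Gam →* Multiplicative ℤ := fun s =>
    (lift fun t => Multiplicative.ofAdd (if t = s then 1 else 0)).comp B.repr.toMonoidHom
  have hinj : Function.Injective fun s => (χ s (psi (of 0)), χ s (psi (of 1))) := by
    intro s t hst
    simp only [Prod.mk.injEq] at hst
    have h1 : (χ s).comp psi = (χ t).comp psi := by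
      apply FreeGroup.ext_hom
      intro i
      fin_cases i
      · exact hst.1
      · exact hst.2
    have h2 : ∀ γ, χ s γ = χ t γ := by
      intro γ
      obtain ⟨x, hx⟩ := surj 1 γ
      rw [derivedSeries_one] at hx
      have e1 := Abelianization.commutator_subset_ker (χ s) hx
      have e2 := Abelianization.commutator_subset_ker (χ t) hx
      rw [MonoidHom.mem_ker, map_mul, map_inv, inv_mul_eq_one] at e1 e2
      rw [← e1, ← e2]
      exact DFunLike.congr_fun h1 x
    have h3 := h2 (B.repr.symm (of s))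
    by_contra hne
    simp [χ, hne] at h3
  have : Countable ι := hinj.countable
  exact B.repr.injective.countable

theorem uncountable : ¬ Countable Gam := by
  intro hc
  obtain ⟨γ, hγ⟩ := exists_surjective_nat Gam
  have hstep : ∀ (L : List (ℕ × Bool)) (m n : ℕ), ∃ e : Bool, ∃ j, n + 1 ≤ j ∧
      pr j (ev (of 0) (of 1) L (step (of 0) (of 1) (m, e) 1)) ≠ co j (γ n) := by
    intro L m n
    have h1 := ev_ne (i := (0 : Fin 2)) (j := 1) (by decide) L m
    rw [Ne, ← inv_mul_eq_one] at h1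
    obtain ⟨j, hj, h2⟩ := resSol h1 (n + 1)
    rw [← pr_eq_one, map_mul, map_inv, inv_mul_eq_one] at h2
    by_contra hh
    push Not at hh
    exact h2 ((hh false j hj).trans (hh true j hj).symm)
  choose e J hJ hne using hstep
  let st : ℕ → List (ℕ × Bool) × ℕ := fun n => Nat.rec ([], 0)
    (fun n s => (s.1 ++ [(s.2, e s.1 s.2 n)], J s.1 s.2 n)) n
  have hst : ∀ n, st (n + 1) =
      ((st n).1 ++ [((st n).2, e (st n).1 (st n).2 n)], J (st n).1 (st n).2 n) := fun _ => rfl
  let σ : ℕ → ℕ × Bool := fun n => ((st n).2, e (st n).1 (st n).2 n)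
  have hσ : Adm σ := by
    intro n
    cases n with
    | zero => exact Nat.zero_le _
    | succ n => exact hJ _ _ _
  have hT : ∀ n k (y : F), T (of 0) (of 1) σ 0 (n + k) y =
      ev (of 0) (of 1) (st n).1 (T (of 0) (of 1) σ n k y) := by
    intro n
    induction n with
    | zero => intro k y; rw [zero_add]; rfl
    | succ n ih =>
      intro k y
      rw [show n + 1 + k = n + (k + 1) by omega, ih, hst]
      simp only [ev, List.foldr_append]
      rfl
  obtain ⟨n, hn⟩ := hγ (Y hσ 0)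
  apply hne (st n).1 (st n).2 n
  rw [hn]
  have hj := hJ (st n).1 (st n).2 n
  have hm : (σ (n + 1)).1 = J (st n).1 (st n).2 n := rfl
  generalize J (st n).1 (st n).2 n = j at hj hm ⊢
  obtain ⟨k, rfl⟩ : ∃ k, j = n + (k + 1) := ⟨j - (n + 1), by omega⟩
  change _ = pr _ (T (of 0) (of 1) σ 0 (n + (k + 1) - 0) 1)
  rw [Nat.sub_zero, hT, ev_map, ev_map]
  congr 1
  change _ = pr _ (step (of 0) (of 1) (σ n) (T (of 0) (of 1) σ (n + 1) k 1))
  rw [step_map, step_map]
  congr 1
  cases k with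
  | zero => rfl
  | succ k =>
    rw [map_one, eq_comm, pr_eq_one]
    exact step_mem _ _ _ _ hm.ge

end Pool.Agent.H19.ParaSol
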