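import Pool.Agent.H19.IntK

set_option autoImplicit false

namespace Pool.Agent.H19.IntK

open Polynomial TensorProduct

lemma core {S ι : Type*} [CommRing S] (R : Subring S) (Γ : ι → Type*)
    [∀ i, LinearOrderedCommGroupWithZero (Γ i)] (w : ∀ i, Valuation S (Γ i)) (π : R) (π' : S)
    (hπ : π * π' = 1) (E N k : ℕ) (hN : N ≠ 0) (mem : ∀ f, f ∈ R ↔ ∀ i, w i f ≤ 1)
    (F1 : ∀ i f, w i π < 1 → w i f = 1 → w i (1 - f ^ N) < 1)
    (F2 : ∀ i f, w i π < 1 → w i f ≠ 0 → ∃ r : ℤ, w i f ^ (E + 1) = w i π ^ r)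
    (x y : R) (F3 : ∀ i, w i π < 1 → w i π ^ k ≤ w i x ∨ w i π ^ k ≤ w i y)
    (M : Ideal R) [hM : M.IsPrime] (hπM : π ∈ M) :
    ∃ (h : S) (x' y' : R), h * x = x' ∧ h * y = y' ∧ (x' ∉ M ∨ y' ∉ M) := by
  by_contra! H
  have le : ∀ (f : R) i, w i f ≤ 1 := fun f => (mem f).mp f.2
  have inv : ∀ i, w i π' = (w i π)⁻¹ := fun i =>
    eq_inv_of_mul_eq_one_right (by rw [← map_mul, hπ, map_one])
  have pos : ∀ i, 0 < w i π := fun i => zero_lt_iff.mpr
    (left_ne_zero_of_mul_eq_one (b := w i π') (by rw [← map_mul, hπ, map_one]))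
  have G : ∀ i f (r : ℕ), w i π < 1 → w i f ^ (E + 1) < w i π ^ r →
      w i f ^ (E + 1) ≤ w i π ^ (r + 1) := fun i f r h h1 => by
    rcases eq_or_ne (w i f) 0 with h0 | h0
    · simp [h0]
    obtain ⟨s, hs⟩ := F2 i f h h0
    rw [hs, ← zpow_natCast] at h1 ⊢
    rw [zpow_lt_zpow_iff_right_of_lt_one₀ (pos i) h] at h1
    rw [zpow_le_zpow_iff_right_of_lt_one₀ (pos i) h]
    push_cast
    omega
  have dv : ∀ (ω g : R) (r : ℕ), (∀ i, w i π < 1 → w i ω = 1 → w i g ≤ w i π ^ r) →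
      (ω : S) ^ ((E + 1) * r) * g * π' ^ r ∈ R := fun ω g r h => (mem _).mpr fun i => by
    rw [map_mul, map_mul, map_pow, map_pow, inv, inv_pow, mul_inv_le_iff₀ (pow_pos (pos i) r),
      one_mul]
    rcases (le π i).eq_or_lt with h1 | h1
    · rw [h1, one_pow]
      exact mul_le_one' (pow_le_one' (le ω i) _) (le g i)
    rcases (le ω i).eq_or_lt with h2 | h2
    · simpa [h2] using h i h1 h2
    have := G i ω 0 h1 (by simpa using pow_lt_one' h2 (by omega))
    rw [pow_mul]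
    exact (mul_le_of_le_one_right' (le g i)).trans (pow_le_pow_left' (by simpa using this) r)
  have mx : ∀ i (a b : S) (c : Γ i), w i a ^ (E + 1) ≤ c → w i b ^ (E + 1) ≤ c →
      w i (a ^ E * b) ≤ c := fun i a b c ha hb => by
    rw [map_mul, map_pow]
    rcases le_total (w i a) (w i b) with h | h
    · exact le_trans (by rw [pow_succ]; gcongr) hb
    · exact le_trans (by rw [pow_succ]; gcongr) ha
  have key : ∀ r : ℕ, ∃ ω : R, ω ∉ M ∧ ∀ i, w i π < 1 → w i ω = 1 →
      w i x ^ (E + 1) ≤ w i π ^ r ∧ w i y ^ (E + 1) ≤ w i π ^ r := fun r => by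
    induction r with
    | zero => exact ⟨1, (Ideal.ne_top_iff_one M).mp hM.ne_top, fun i _ _ =>
        ⟨by simpa using pow_le_one' (le x i) _, by simpa using pow_le_one' (le y i) _⟩⟩
    | succ r ih =>
      obtain ⟨ω, h1, h2⟩ := ih
      have a1 := dv ω (x ^ E * x) r fun i h h' => mx i x x _ (h2 i h h').1 (h2 i h h').1
      have a2 := dv ω (x ^ E * y) r fun i h h' => mx i x y _ (h2 i h h').1 (h2 i h h').2
      have a3 := dv ω (y ^ E * x) r fun i h h' => mx i y x _ (h2 i h h').2 (h2 i h h').1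
      have a4 := dv ω (y ^ E * y) r fun i h h' => mx i y y _ (h2 i h h').2 (h2 i h h').2
      have b1 := (H (ω ^ ((E + 1) * r) * x ^ E * π' ^ r) ⟨_, a1⟩ ⟨_, a2⟩ (by push_cast; ring)
        (by push_cast; ring)).1
      have b2 := (H (ω ^ ((E + 1) * r) * y ^ E * π' ^ r) ⟨_, a3⟩ ⟨_, a4⟩ (by push_cast; ring)
        (by push_cast; ring)).2
      have c1 : ∀ z ∈ M, 1 - z ^ N ∉ M := fun z hz h => (Ideal.ne_top_iff_one M).mp hM.ne_top
        (by simpa using add_mem h (M.pow_mem_of_mem hz N (by omega)))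
      have c2 : ∀ i (z : R) (hz : (ω : S) ^ ((E + 1) * r) * (z ^ E * z : R) * π' ^ r ∈ R),
          w i π < 1 → w i ω = 1 → w i (1 - (⟨_, hz⟩ : R) ^ N : R) = 1 →
          w i z ^ (E + 1) ≤ w i π ^ (r + 1) := fun i z hz h h' h'' => by
        have := (le ⟨_, hz⟩ i).lt_of_ne fun e => (F1 i _ h e).ne h''
        refine G i z r h ?_
        simpa [inv, h', mul_inv_lt_iff₀ (pow_pos (pos i) r), pow_succ] using this
      refine ⟨ω * ((1 - ⟨_, a1⟩ ^ N) * (1 - ⟨_, a4⟩ ^ N)), fun h => ?_, fun i h h' => ?_⟩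
      · exact (hM.mem_or_mem h).elim h1 fun h => (hM.mem_or_mem h).elim (c1 _ b1) (c1 _ b2)
      · have c3 : ∀ a b : R, w i (a * b : R) = 1 → w i a = 1 ∧ w i b = 1 := fun a b e => by
          rw [Subring.coe_mul, map_mul] at e
          exact ⟨(le a i).antisymm (e.ge.trans (mul_le_of_le_one_right' (le b i))),
            (le b i).antisymm (e.ge.trans (mul_le_of_le_one_left' (le a i)))⟩
        exact ⟨c2 i x a1 h (c3 _ _ h').1 (c3 _ _ (c3 _ _ h').2).1,
          c2 i y a4 h (c3 _ _ h').1 (c3 _ _ (c3 _ _ h').2).2⟩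
  obtain ⟨ω, h1, h2⟩ := key (k * (E + 1) + 1)
  have h3 := dv ω 1 1 fun i h h' => by
    have := pow_lt_pow_right_of_lt_one₀ (pos i) h (Nat.lt_succ_self (k * (E + 1)))
    rw [pow_mul] at this
    rcases F3 i h with h3 | h3
    · exact absurd ((pow_le_pow_left' h3 _).trans (h2 i h h').1) this.not_ge
    · exact absurd ((pow_le_pow_left' h3 _).trans (h2 i h h').2) this.not_ge
  refine h1 (hM.mem_of_pow_mem (E + 1) ?_)
  convert M.mul_mem_left ⟨_, h3⟩ hπM
  ext
  push_cast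
  linear_combination (-(ω : S) ^ (E + 1)) * hπ

variable {D K L Γ : Type*} [CommRing D] [IsDomain D] [Field K] [Algebra D K] [IsFractionRing D K]
  [Field L] [Algebra K L] [LinearOrderedCommGroupWithZero Γ]

open IsLocalRing IsDiscreteValuationRing in
lemma loc (hD : ∀ (P : Ideal D) [P.IsMaximal], IsDiscreteValuationRing (Localization.AtPrime P))
    (v : Valuation K Γ) (hv : ∀ d, v (algebraMap D K d) ≤ 1) {p : D} (hp0 : p ≠ 0)
    (hp : v (algebraMap D K p) < 1) : ∃ (M : Ideal D) (_ : M.IsMaximal) (γ : Γ) (e : ℕ),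
      (∀ d, v (algebraMap D K d) < 1 ↔ d ∈ M) ∧ (∀ k ≠ 0, ∃ m : ℤ, v k = γ ^ m) ∧
      (haveI := hD M; addVal _ (algebraMap D (Localization.AtPrime M) p) = e) ∧
      v (algebraMap D K p) = γ ^ e ∧ ∀ k, v k ≤ 1 → ∃ d, v (k - algebraMap D K d) < 1 := by
  let P : Ideal D :=
    { carrier := {d | v (algebraMap D K d) < 1}
      add_mem' := fun h h' => by simpa using v.map_add_lt h h'
      zero_mem' := by simp
      smul_mem' := fun c d h => by simpa using (mul_le_of_le_one_left' (hv c)).trans_lt h }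
  obtain ⟨M, hM, hPM⟩ := P.exists_le_maximal ((Ideal.ne_top_iff_one P).mpr (by simp [P]))
  have := hD M
  set O := Localization.AtPrime M
  have hi := IsFractionRing.injective D K
  have hO : Function.Injective (algebraMap D O) :=
    IsLocalization.injective O M.primeCompl_le_nonZeroDivisors
  let φ : O →+* K := IsLocalization.lift (M := M.primeCompl) (g := algebraMap D K) fun y =>
    IsUnit.mk0 _ fun h => y.2 (by rw [hi (h.trans (map_zero _).symm)]; exact zero_mem _)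
  have hφ : ∀ d, φ (algebraMap D O d) = algebraMap D K d := fun d => IsLocalization.lift_eq _ d
  have h1 : ∀ o, v (φ o) ≤ 1 := fun o => by
    obtain ⟨⟨a, s⟩, h⟩ := IsLocalization.surj M.primeCompl o
    have h2 := congrArg (fun z => v (φ z)) h
    simp only [map_mul, hφ] at h2
    rw [(hv s).eq_of_not_lt fun h => s.2 (hPM h), mul_one] at h2
    exact h2 ▸ hv a
  have h2 : ∀ u : Oˣ, v (φ u) = 1 := fun u => (h1 u).antisymm (le_trans (by
    rw [← map_mul, ← map_mul]; simp) (mul_le_of_le_one_right' (h1 (u⁻¹ : Oˣ))))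
  obtain ⟨ϖ, hϖ⟩ := exists_irreducible O
  have h3 : ∀ d : D, d ≠ 0 → ∃ (j : ℕ) (u : Oˣ), algebraMap D O d = u * ϖ ^ j ∧
      v (algebraMap D K d) = v (φ ϖ) ^ j := fun d hd => by
    obtain ⟨j, u, h⟩ := eq_unit_mul_pow_irreducible ((map_ne_zero_iff _ hO).mpr hd) hϖ
    exact ⟨j, u, h, by rw [← hφ, h]; simp [h2]⟩
  obtain ⟨e, u, he, he'⟩ := h3 p hp0
  have h4 : v (φ ϖ) < 1 := (h1 ϖ).lt_of_ne fun h => by simp [he', h] at hp
  have h5 : ∀ o ∈ IsLocalRing.maximalIdeal O, v (φ o) < 1 := fun o ho => by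
    rw [hϖ.maximalIdeal_eq, Ideal.mem_span_singleton'] at ho
    obtain ⟨a, rfl⟩ := ho
    simpa using (mul_le_of_le_one_left' (h1 a)).trans_lt h4
  have h6 : v (φ ϖ) ≠ 0 := fun h => by
    rcases e with _ | e
    · simp [he'] at hp
    · simp [h, hp0] at he'
  refine ⟨M, hM, v (φ ϖ), e, fun d => ⟨fun h => hPM h, fun h => hφ d ▸ h5 _
    ((IsLocalization.AtPrime.to_map_mem_maximal_iff O M d).mpr h)⟩, fun k hk => ?_,
    addVal_def _ u hϖ e he, he', fun k hk => ?_⟩
  · obtain ⟨a, b, hb, rfl⟩ := IsFractionRing.div_surjective (A := D) k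
    obtain ⟨i, -, -, hi⟩ := h3 a (by rintro rfl; simp at hk)
    obtain ⟨j, -, -, hj⟩ := h3 b (nonZeroDivisors.ne_zero hb)
    exact ⟨i - j, by rw [map_div₀, hi, hj, zpow_sub₀ h6]; simp⟩
  obtain ⟨o, rfl⟩ : ∃ o, φ o = k := by
    obtain ⟨a, b, hb, rfl⟩ := IsFractionRing.div_surjective (A := D) k
    rcases eq_or_ne a 0 with rfl | ha
    · exact ⟨0, by simp⟩
    obtain ⟨i, u, hu, hi⟩ := h3 a ha
    obtain ⟨j, u', hu', hj⟩ := h3 b (nonZeroDivisors.ne_zero hb)
    rw [map_div₀, hi, hj, div_le_one₀ (pow_pos (zero_lt_iff.mpr h6) j),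
      pow_le_pow_iff_right_of_lt_one₀ (zero_lt_iff.mpr h6) h4] at hk
    obtain ⟨i, rfl⟩ := Nat.exists_eq_add_of_le hk
    refine ⟨u * (u'⁻¹ : Oˣ) * ϖ ^ i, eq_div_of_mul_eq (by simpa using nonZeroDivisors.ne_zero hb) ?_⟩
    rw [← hφ, ← hφ, ← map_mul, hu, hu']
    congr 1
    linear_combination (u * ϖ ^ (j + i) : O) * u'.inv_mul
  obtain ⟨d, hd⟩ := (IsLocalization.AtPrime.equivQuotMaximalIdeal M O).surjective
    (Ideal.Quotient.mk _ o)
  obtain ⟨d, rfl⟩ := Ideal.Quotient.mk_surjective d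
  exact ⟨d, by simpa [hφ] using h5 _ (Ideal.Quotient.eq.mp hd.symm)⟩

lemma two_terms (v : Valuation L Γ) {μ : K[X]} (hμ : μ ≠ 0) {z : L} (hz : z ≠ 0)
    (h : aeval z μ = 0) : ∃ i j, i < j ∧ j ≤ μ.natDegree ∧ μ.coeff i ≠ 0 ∧ μ.coeff j ≠ 0 ∧
      v (algebraMap K L (μ.coeff i)) * v z ^ i = v (algebraMap K L (μ.coeff j)) * v z ^ j := by
  obtain ⟨j, hj, h1⟩ := μ.support.exists_max_image (fun i => v (algebraMap K L (μ.coeff i) * z ^ i))
    (support_nonempty.mpr hμ)
  rw [aeval_def, eval₂_eq_sum, sum_def] at h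
  have h2 := mt (v.map_sum_eq_of_lt (f := fun i => algebraMap K L (μ.coeff i) * z ^ i) hj) (by
    rw [h, map_zero]; exact fun e => by simpa [hz, mem_support_iff.mp hj] using e.symm)
  push Not at h2
  obtain ⟨i, hi, h2⟩ := h2
  rw [Finset.mem_sdiff, Finset.mem_singleton] at hi
  have h3 := (h1 i hi.1).antisymm h2
  simp only [map_mul, map_pow] at h3
  rcases lt_or_gt_of_ne hi.2 with h4 | h4
  · exact ⟨i, j, h4, le_natDegree_of_mem_supp _ hj, mem_support_iff.mp hi.1,
      mem_support_iff.mp hj, h3⟩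
  · exact ⟨j, i, h4, le_natDegree_of_mem_supp _ hi.1, mem_support_iff.mp hj,
      mem_support_iff.mp hi.1, h3.symm⟩

lemma val_pow (v : Valuation L Γ) {γ : Γ} (hγ : ∀ k ≠ 0, ∃ m : ℤ, v (algebraMap K L k) = γ ^ m)
    (h0 : γ ≠ 0) {μ : K[X]} (hμ : μ ≠ 0) {z : L} (hz : z ≠ 0) (h : aeval z μ = 0) {n e N : ℕ}
    (hn : μ.natDegree ≤ n) (he : 0 < e) (hN : e ≤ N) :
    ∃ r : ℤ, v z ^ (n.factorial * N.factorial) = (γ ^ e) ^ r := by
  obtain ⟨i, j, hij, hj, h1, h2, h3⟩ := two_terms v hμ hz h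
  obtain ⟨a, ha⟩ := hγ _ h1
  obtain ⟨b, hb⟩ := hγ _ h2
  obtain ⟨t, rfl⟩ := Nat.exists_eq_add_of_le hij.le
  obtain ⟨c, hc⟩ := Nat.dvd_factorial (show 0 < t by omega) (show t ≤ n by omega)
  obtain ⟨c', hc'⟩ := Nat.dvd_factorial he hN
  have h4 : v z ^ t = γ ^ (a - b) := by
    rw [ha, hb, pow_add, mul_comm (v z ^ i), ← mul_assoc] at h3
    rw [zpow_sub₀ h0, mul_right_cancel₀ (pow_ne_zero _ (by simpa using hz)) h3,
      mul_div_cancel_left₀ _ (zpow_ne_zero _ h0)]
  refine ⟨(a - b) * c * c', ?_⟩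
  rw [hc, hc', mul_assoc, pow_mul, h4, ← zpow_natCast, ← zpow_natCast, ← zpow_mul, ← zpow_mul]
  congr 1
  push_cast
  ring

omit [IsDomain D] [IsFractionRing D K] in
open IsLocalRing IntermediateField in
lemma unit_pow [Algebra D L] (V : ValuationSubring L) (hv : ∀ d, algebraMap D L d ∈ V)
    (M : Ideal D) [M.IsMaximal] [Finite (D ⧸ M)]
    (hM : ∀ d, V.valuation (algebraMap D L d) < 1 ↔ d ∈ M)
    (hk : ∀ k : K, V.valuation (algebraMap K L k) ≤ 1 →
      ∃ d, V.valuation (algebraMap K L k - algebraMap D L d) < 1)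
    {μ : K[X]} (hμ : μ ≠ 0) {z : L} (hz : V.valuation z = 1) (h : aeval z μ = 0) {n Q : ℕ}
    (hn : μ.natDegree ≤ n) (hQ : Nat.card (D ⧸ M) ≤ Q) :
    V.valuation (1 - z ^ (Q ^ n).factorial) < 1 := by
  obtain ⟨j, hj, h1⟩ := μ.support.exists_max_image
    (fun i => V.valuation (algebraMap K L (μ.coeff i))) (support_nonempty.mpr hμ)
  have hc := mem_support_iff.mp hj
  choose! d hd using hk
  have h2 : ∀ i ∈ μ.support, V.valuation (algebraMap K L (μ.coeff i / μ.coeff j)) ≤ 1 :=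
    fun i hi => by
      rw [map_div₀, map_div₀]
      exact div_le_one_of_le₀ (h1 i hi) zero_le
  let ρ : D →+* V := (algebraMap D L).codRestrict V hv
  let := Ideal.Quotient.field M
  let : Algebra (D ⧸ M) (ResidueField V) := (Ideal.Quotient.lift M ((residue V).comp ρ)
    fun a ha => (residue_eq_zero_iff _).mpr ((V.valuation_lt_one_iff _).mpr
      ((hM a).mpr ha))).toAlgebra
  let z' : V := ⟨z, (V.valuation_le_one_iff z).mp hz.le⟩
  let g : (D ⧸ M)[X] := ∑ i ∈ μ.support,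
    monomial i (Ideal.Quotient.mk M (d (μ.coeff i / μ.coeff j)))
  have h3 : g ≠ 0 := fun e => by
    have := congrArg (coeff · j) e
    simp only [g, finset_sum_coeff, coeff_monomial, Finset.sum_ite_eq', hj, if_true, coeff_zero,
      Ideal.Quotient.eq_zero_iff_mem, ← hM] at this
    have := V.valuation.map_add_lt (hd _ (h2 j hj)) this
    simp [hc] at this
  have h4 : g.natDegree ≤ n := natDegree_sum_le_of_forall_le _ _ fun i hi =>
    (natDegree_monomial_le _).trans ((le_natDegree_of_mem_supp _ hi).trans hn)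
  have h5 : aeval (residue V z') g = 0 := by
    have : aeval (residue V z') g =
        residue V (∑ i ∈ μ.support, ρ (d (μ.coeff i / μ.coeff j)) * z' ^ i) := by
      simp only [g, map_sum, aeval_monomial, map_mul, map_pow]; rfl
    rw [this, residue_eq_zero_iff, V.valuation_lt_one_iff, ← Valuation.map_neg]
    convert V.valuation.map_sum_lt (s := μ.support) one_ne_zero (f := fun i =>
      (algebraMap K L (μ.coeff i / μ.coeff j) - algebraMap D L (d (μ.coeff i / μ.coeff j))) * z ^ i)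
      fun i hi => by simpa [hz] using hd _ (h2 i hi)
    rw [aeval_def, eval₂_eq_sum, sum_def] at h
    simp only [sub_mul, Finset.sum_sub_distrib, map_div₀, div_mul_eq_mul_div, ← Finset.sum_div, h]
    simp [ρ, z']
  have hi := (IsAlgebraic.isIntegral ⟨g, h3, h5⟩)
  have := adjoin.finiteDimensional hi
  have : Finite (D ⧸ M)⟮residue V z'⟯ := Module.finite_of_finite (D ⧸ M)
  have h6 : Nat.card (D ⧸ M)⟮residue V z'⟯ ≤ Q ^ n := by
    rw [Module.natCard_eq_pow_finrank (K := D ⧸ M), adjoin.finrank hi]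
    exact (Nat.pow_le_pow_left hQ _).trans (Nat.pow_le_pow_right (Nat.card_pos.trans_le hQ)
      ((natDegree_le_natDegree (minpoly.degree_le_of_ne_zero _ _ h3 h5)).trans h4))
  have h7 : AdjoinSimple.gen (D ⧸ M) (residue V z') ≠ 0 := fun e =>
    ((V.valuation_lt_one_iff z').mp ((residue_eq_zero_iff _).mp (congrArg Subtype.val e))).ne hz
  have h8 := congrArg (fun u : _ˣ => (u.1.1 : ResidueField V)) (orderOf_dvd_iff_pow_eq_one.mp
    ((orderOf_dvd_natCard (Units.mk0 _ h7)).trans (Nat.dvd_factorial Nat.card_pos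
      ((Nat.card_le_card_of_injective _ Units.val_injective).trans h6))))
  refine (V.valuation_lt_one_iff (1 - z' ^ _)).mp ((residue_eq_zero_iff _).mp ?_)
  rw [map_sub, map_pow, map_one, sub_eq_zero]
  simpa using h8.symm

lemma root_aeval {B : Type*} [Ring B] [Algebra K B] {b : B} {α : L}
    (h : aeval α (minpoly K b) = 0) {f g : K[X]} (hg : aeval (aeval b f) g = 0) :
    aeval (aeval α f) g = 0 := by
  rw [← aeval_comp] at hg ⊢
  exact aeval_eq_zero_of_dvd_aeval_eq_zero (minpoly.dvd _ _ hg) h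

omit [IsDomain D] [IsFractionRing D K] in
lemma integral_iff [IsAlgClosed L] [Algebra D L] [IsScalarTower D K L] {B : Type*} [Ring B]
    [Algebra K B] [Algebra D B] [IsScalarTower D K B] [Module.Finite K B] (b : B) (f : K[X]) :
    IsIntegral D (aeval b f) ↔ ∀ α : L, aeval α (minpoly K b) = 0 → ∀ V : ValuationSubring L,
      (∀ d, algebraMap D L d ∈ V) → aeval α f ∈ V := by
  refine ⟨fun ⟨p, hp, h⟩ α hα V hV => ?_, fun h => ?_⟩
  · have : IsIntegrallyClosedIn V.toSubring L := inferInstanceAs (IsIntegrallyClosedIn V L)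
    refine (Subring.integralClosure_le_iff (T := V.toSubring)).mpr hV ⟨p, hp, ?_⟩
    rw [← aeval_def, ← aeval_map_algebraMap K] at h ⊢
    exact root_aeval hα h
  have h1 : ∀ α : L, aeval α (minpoly K b) = 0 → IsIntegral D (aeval α f) := fun α hα => by
    by_contra h1
    obtain ⟨V, h2, h3⟩ := (integralClosure D L).toSubring
      |>.exists_le_valuationSubring_of_isIntegrallyClosedIn h1
    exact h3 (h α hα V fun d => h2 isIntegral_algebraMap)
  choose! p hp h2 using h1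
  have hm := (minpoly.monic (IsIntegral.of_finite K b)).map (algebraMap K L)
  have hr : ∀ α ∈ ((minpoly K b).map (algebraMap K L)).roots, aeval α (minpoly K b) = 0 :=
    fun α hα => by rw [aeval_def, eval₂_eq_eval_map]; exact isRoot_of_mem_roots hα
  refine ⟨_, monic_multiset_prod_of_monic _ p fun α hα => hp α (hr α hα), ?_⟩
  rw [← aeval_def, ← aeval_map_algebraMap K, ← aeval_comp]
  refine aeval_eq_zero_of_dvd_aeval_eq_zero ((map_dvd_map' (algebraMap K L)).mp ?_)
    (minpoly.aeval K b)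
  rw [Polynomial.map_multiset_prod, multiset_prod_comp, Polynomial.map_multiset_prod,
    Multiset.map_map, Multiset.map_map, Multiset.map_map]
  conv_lhs => rw [(IsAlgClosed.splits _).eq_prod_roots_of_monic hm]
  refine Multiset.prod_dvd_prod_of_dvd _ _ fun α hα => dvd_iff_isRoot.mpr ?_
  simpa [eval_map_algebraMap, aeval_comp, aeval_def (R := D)] using h2 α (hr α hα)

lemma dvd_pow_loc {M : Ideal D} [M.IsMaximal]
    [IsDiscreteValuationRing (Localization.AtPrime M)] {d p : D} (hd : d ≠ 0) (hp : p ∈ M) :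
    ∃ k, ∃ s ∉ M, d ∣ s * p ^ k := by
  set O := Localization.AtPrime M
  obtain ⟨ϖ, hϖ⟩ := IsDiscreteValuationRing.exists_irreducible O
  obtain ⟨j, u, h⟩ := IsDiscreteValuationRing.eq_unit_mul_pow_irreducible ((map_ne_zero_iff _
    (IsLocalization.injective O M.primeCompl_le_nonZeroDivisors)).mpr hd) hϖ
  have h1 := (IsLocalization.AtPrime.to_map_mem_maximal_iff O M p).mpr hp
  rw [hϖ.maximalIdeal_eq, Ideal.mem_span_singleton] at h1
  obtain ⟨s, hs, h2⟩ := (IsLocalization.algebraMap_mem_map_algebraMap_iff M.primeCompl O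
    (Ideal.span {d}) (p ^ j)).mp (by
      rw [Ideal.map_span, Set.image_singleton, Ideal.mem_span_singleton, h, map_pow]
      exact Units.mul_left_dvd.mpr (pow_dvd_pow_of_dvd h1 j))
  exact ⟨j, s, hs, Ideal.mem_span_singleton.mp h2⟩

lemma dvd_pow_unif
    (hD : ∀ (P : Ideal D) [P.IsMaximal], IsDiscreteValuationRing (Localization.AtPrime P))
    {d : D} (hd : d ≠ 0) (p : D) : ∃ k t, d ∣ (1 - t * p) * p ^ k := by
  let J : Ideal D :=
    { carrier := {s | ∃ k, d ∣ s * p ^ k}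
      add_mem' := fun ⟨k, h⟩ ⟨l, h'⟩ => ⟨k + l, by
        rw [add_mul]
        exact dvd_add (by rw [pow_add, ← mul_assoc]; exact h.mul_right _)
          (by rw [add_comm, pow_add, ← mul_assoc]; exact h'.mul_right _)⟩
      zero_mem' := ⟨0, by simp⟩
      smul_mem' := fun c s ⟨k, h⟩ => ⟨k, by rw [smul_eq_mul, mul_assoc]; exact h.mul_left _⟩ }
  have : J ⊔ Ideal.span {p} = ⊤ := by
    by_contra h
    obtain ⟨M, hM, h1⟩ := Ideal.exists_le_maximal _ h
    have := hD M
    obtain ⟨k, s, hs, h2⟩ := dvd_pow_loc hd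
      (h1 (Ideal.mem_sup_right (Ideal.mem_span_singleton_self p)))
    exact hs (h1 (Ideal.mem_sup_left ⟨k, h2⟩))
  obtain ⟨s, ⟨k, hk⟩, u, hu, h⟩ := Submodule.mem_sup.mp ((Ideal.eq_top_iff_one _).mp this)
  obtain ⟨t, rfl⟩ := Ideal.mem_span_singleton'.mp hu
  exact ⟨k, t, eq_sub_of_add_eq h ▸ hk⟩

end Pool.Agent.H19.IntK
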