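import Mathlib

set_option autoImplicit false

namespace Pool.Agent.H19.RB

open Finset

variable {F : Type} [Field F] [CharZero F] {A : Type} [Ring A] [Algebra F A]

structure Data (F A : Type) [Field F] [Ring A] [Algebra F A] where
  W : A
  c : A
  d : A
  g : ℕ
  τ : A →ₗ[F] F
  hW : ∀ x, x * W = W * x
  hc : c * c = 0
  hd : d * d = 0
  hdc : d * c = -(c * d)
  t1c : ∀ x, τ (c * x) = -τ (x * c)
  t1d : ∀ x, τ (d * x) = -τ (x * d)
  t2 : ∀ x, τ (W ^ (g + 1) * x) = 0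
  t30 : ∀ i, τ (W ^ i) = 0
  t3c : ∀ i, τ (W ^ i * c) = 0
  t3d : ∀ i, τ (W ^ i * d) = 0
  t3cd : ∀ i, τ (W ^ i * (c * d)) = if i = g then 1 else 0
  t4c : W ^ (g + 1) * c = 0
  t4 : W ^ (g + 2) = 0

namespace Data
variable (D : Data F A)

def mon : Fin 4 → A := ![1, D.c, D.d, D.c * D.d]
def E (m : Fin 4) (i : ℕ) : A := D.W ^ i * D.mon m
def dual : Fin 4 → A := ![D.c * D.d, D.d, -D.c, 1]
def co (m : Fin 4) (i : ℕ) : A →ₗ[F] F :=
  D.τ ∘ₗ LinearMap.mulRight F (D.W ^ (D.g - i) * D.dual m)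
def a (_D : Data F A) (i : ℕ) : F := ((i : F) + 1)⁻¹
def b (i : ℕ) : F := ((i : F) - D.g)⁻¹
def val (m : Fin 4) (i : ℕ) : A :=
  ![D.a i • D.E 0 (i + 1), D.b i • D.E 1 (i + 1) + (if i = D.g then (1 : F) else 0) • D.E 2 0,
    D.a i • D.E 2 (i + 1), D.b i • D.E 3 (i + 1)] m
def R : A →ₗ[F] A := ∑ m : Fin 4, ∑ i ∈ range (D.g + 1), (D.co m i).smulRight (D.val m i)
def P : A →ₗ[F] A := ∑ m : Fin 4, ∑ i ∈ range (D.g + 1), (D.co m i).smulRight (D.E m i)

omit [CharZero F] in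
theorem hWp (i : ℕ) (x : A) : x * D.W ^ i = D.W ^ i * x :=
  (Commute.pow_right (D.hW x) i)

omit [CharZero F] in
theorem mulWW (i j : ℕ) (x y : A) : D.W ^ i * x * (D.W ^ j * y) = D.W ^ (i + j) * (x * y) := by
  rw [mul_assoc, ← mul_assoc x, D.hWp j x, pow_add]; simp only [mul_assoc]

omit [CharZero F] in
theorem ccd : D.c * (D.c * D.d) = 0 := by rw [← mul_assoc, D.hc, zero_mul]
omit [CharZero F] in
theorem dcd : D.d * (D.c * D.d) = 0 := by
  rw [← mul_assoc, D.hdc, neg_mul, mul_assoc, D.hd, mul_zero, neg_zero]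
omit [CharZero F] in
theorem cdc : D.c * D.d * D.c = 0 := by rw [mul_assoc, D.hdc, mul_neg, D.ccd, neg_zero]
omit [CharZero F] in
theorem cdd : D.c * D.d * D.d = 0 := by rw [mul_assoc, D.hd, mul_zero]
omit [CharZero F] in
theorem cdcd : D.c * D.d * (D.c * D.d) = 0 := by rw [← mul_assoc, D.cdc, zero_mul]

omit [CharZero F] in
theorem co_E (m m' : Fin 4) {i : ℕ} (hi : i ≤ D.g) (j : ℕ) :
    D.co m i (D.E m' j) = if m = m' ∧ i = j then 1 else 0 := by
  have h : (j + (D.g - i) = D.g) ↔ i = j := by omega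
  simp only [co, E, LinearMap.comp_apply, LinearMap.mulRight_apply, mulWW]
  fin_cases m <;> fin_cases m' <;>
    simp [mon, dual, D.hc, D.hd, D.hdc, D.ccd, D.dcd, D.cdc, D.cdd, D.cdcd, D.t30, D.t3c, D.t3d,
      D.t3cd, h]

omit [CharZero F] in
theorem E_high (m : Fin 4) {j : ℕ} (hj : D.g + 2 ≤ j) : D.E m j = 0 := by
  obtain ⟨k, rfl⟩ := Nat.exists_eq_add_of_le hj
  rw [E, pow_add, D.t4, zero_mul, zero_mul]

omit [CharZero F] in
theorem E1_high {j : ℕ} (hj : D.g + 1 ≤ j) : D.E 1 j = 0 := by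
  obtain ⟨k, rfl⟩ := Nat.exists_eq_add_of_le hj
  rw [E, add_comm, pow_add, mul_assoc]
  exact (congrArg _ D.t4c).trans (mul_zero _)

omit [CharZero F] in
theorem E3_high {j : ℕ} (hj : D.g + 1 ≤ j) : D.E 3 j = 0 := by
  have : D.E 3 j = D.E 1 j * D.d := by simp [E, mon, mul_assoc]
  rw [this, D.E1_high hj, zero_mul]

omit [CharZero F] in
theorem sum_E (v : Fin 4 → ℕ → A) (m : Fin 4) (j : ℕ) :
    (∑ m : Fin 4, ∑ i ∈ range (D.g + 1), (D.co m i).smulRight (v m i)) (D.E m j) =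
      if j ≤ D.g then v m j else 0 := by
  simp only [LinearMap.sum_apply, LinearMap.smulRight_apply]
  have : ∀ m' : Fin 4, ∑ i ∈ range (D.g + 1), D.co m' i (D.E m j) • v m' i =
      if m' = m then (if j ≤ D.g then v m j else 0) else 0 := by
    intro m'
    rw [Finset.sum_congr rfl fun i hi => by
      rw [D.co_E m' m (Nat.lt_succ_iff.1 (mem_range.1 hi))]]
    by_cases h : m' = m
    · subst h
      simp [Nat.lt_succ_iff]
    · simp [h]
  simp [this]

omit [CharZero F] in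
theorem R_E (m : Fin 4) (j : ℕ) : D.R (D.E m j) = D.val m j := by
  rw [R, sum_E]
  split_ifs with h
  · rfl
  · have h1 : j ≠ D.g := by omega
    fin_cases m <;> simp [val, D.E_high _ (show D.g + 2 ≤ j + 1 by omega), h1]

/-- The kernel. -/
def K : Submodule F A where
  carrier := {x | ∀ j m, D.τ (x * D.E m j) = 0}
  add_mem' hx hy j m := by rw [add_mul, map_add, hx, hy, add_zero]
  zero_mem' j m := by simp
  smul_mem' r x hx j m := by rw [smul_mul_assoc, map_smul, hx, smul_zero]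

omit [CharZero F] in
theorem dual_eq (m : Fin 4) (i : ℕ) : ∃ m' : Fin 4, ∃ s : F,
    D.W ^ i * D.dual m = s • D.E m' i := by
  fin_cases m
  · exact ⟨3, 1, by simp [dual, E, mon]⟩
  · exact ⟨2, 1, by simp [dual, E, mon]⟩
  · exact ⟨1, -1, by simp [dual, E, mon]⟩
  · exact ⟨0, 1, by simp [dual, E, mon]⟩

omit [CharZero F] in
theorem mon_eq (m : Fin 4) : ∃ m' : Fin 4, ∃ s : F, D.mon m = s • D.dual m' := by
  fin_cases m
  · exact ⟨3, 1, by simp [dual, mon]⟩
  · exact ⟨2, -1, by simp [dual, mon]⟩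
  · exact ⟨1, 1, by simp [dual, mon]⟩
  · exact ⟨0, 1, by simp [dual, mon]⟩

omit [CharZero F] in
theorem co_K {x : A} (hx : x ∈ D.K) (m : Fin 4) (i : ℕ) : D.co m i x = 0 := by
  obtain ⟨m', s, h⟩ := D.dual_eq m (D.g - i)
  simp only [co, LinearMap.comp_apply, LinearMap.mulRight_apply, h, mul_smul_comm, map_smul]
  rw [hx, smul_zero]

omit [CharZero F] in
theorem R_K {x : A} (hx : x ∈ D.K) : D.R x = 0 := by
  simp [R, D.co_K hx]

omit [CharZero F] in
theorem co_P (x : A) (m : Fin 4) {i : ℕ} (hi : i ≤ D.g) : D.co m i (D.P x) = D.co m i x := by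
  simp only [P, LinearMap.sum_apply, LinearMap.smulRight_apply, map_sum, map_smul, D.co_E _ _ hi]
  rw [Finset.sum_eq_single m, Finset.sum_eq_single i]
  · simp
  · intro j _ hj; simp [hj.symm]
  · intro h; exact absurd (mem_range.2 (Nat.lt_succ_of_le hi)) h
  · intro m' _ h; simp [h.symm]
  · simp

omit [CharZero F] in
theorem sub_P_mem (x : A) : x - D.P x ∈ D.K := by
  intro j m
  by_cases hj : j ≤ D.g
  · obtain ⟨m', s, h⟩ := D.mon_eq m
    have h1 := D.co_P x m' (Nat.sub_le D.g j)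
    simp only [co, LinearMap.comp_apply, LinearMap.mulRight_apply, Nat.sub_sub_self hj] at h1
    rw [E, h, mul_smul_comm, mul_smul_comm, map_smul, sub_mul, map_sub, h1, sub_self, smul_zero]
  · obtain ⟨k, rfl⟩ := Nat.exists_eq_add_of_le (not_le.1 hj)
    rw [E, Nat.succ_eq_add_one, pow_add, mul_assoc, ← mul_assoc (x - _), D.hWp, mul_assoc, D.t2]

/-- The span of the elements `E m i`. -/
def C : Submodule F A := Submodule.span F {x | ∃ m i, x = D.E m i}

omit [CharZero F] in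
theorem E_mem (m : Fin 4) (i : ℕ) : D.E m i ∈ D.C := Submodule.subset_span ⟨m, i, rfl⟩

omit [CharZero F] in
theorem E_mul (m m' : Fin 4) (i j : ℕ) : ∃ m'' : Fin 4, ∃ s : F,
    D.E m i * D.E m' j = s • D.E m'' (i + j) := by
  simp only [E, mulWW]
  fin_cases m <;> fin_cases m' <;>
    first
    | (refine ⟨0, 0, ?_⟩; simp [mon, D.hc, D.hd, D.ccd, D.dcd, D.cdc, D.cdd, D.cdcd]; done)
    | (refine ⟨0, 1, ?_⟩; simp [mon]; done)
    | (refine ⟨1, 1, ?_⟩; simp [mon]; done)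
    | (refine ⟨2, 1, ?_⟩; simp [mon]; done)
    | (refine ⟨3, 1, ?_⟩; simp [mon]; done)
    | (refine ⟨3, -1, ?_⟩; simp [mon, D.hdc]; done)

omit [CharZero F] in
theorem K_mul_E {x : A} (hx : x ∈ D.K) (m : Fin 4) (i : ℕ) : x * D.E m i ∈ D.K := by
  intro j m'
  obtain ⟨m'', s, h⟩ := D.E_mul m m' i j
  rw [mul_assoc, h, mul_smul_comm, map_smul, hx, smul_zero]

omit [CharZero F] in
theorem E_mul_K {x : A} (hx : x ∈ D.K) (m : Fin 4) (i : ℕ) : D.E m i * x ∈ D.K := by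
  have hc : ∀ x ∈ D.K, D.c * x ∈ D.K := by
    intro x hx j m'
    have := D.K_mul_E hx m' j 0 1
    rw [mul_assoc, D.t1c]
    simpa [E, mon] using this
  have hd : ∀ x ∈ D.K, D.d * x ∈ D.K := by
    intro x hx j m'
    have := D.K_mul_E hx m' j 0 2
    rw [mul_assoc, D.t1d]
    simpa [E, mon] using this
  have hw : ∀ x ∈ D.K, D.W ^ i * x ∈ D.K := by
    intro x hx
    have := D.K_mul_E hx 0 i
    rw [← D.hWp]
    simpa [E, mon] using this
  rw [E, mul_assoc]
  apply hw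
  fin_cases m
  · simpa [mon] using hx
  · exact hc x hx
  · exact hd x hx
  · simpa [mon, mul_assoc] using hc _ (hd x hx)

omit [CharZero F] in
theorem K_mul_C {x y : A} (hx : x ∈ D.K) (hy : y ∈ D.C) : x * y ∈ D.K ∧ y * x ∈ D.K := by
  induction hy using Submodule.span_induction with
  | mem y hy => obtain ⟨m, i, rfl⟩ := hy; exact ⟨D.K_mul_E hx m i, D.E_mul_K hx m i⟩
  | zero => simp
  | add a b _ _ ha hb =>
    rw [mul_add, add_mul]; exact ⟨D.K.add_mem ha.1 hb.1, D.K.add_mem ha.2 hb.2⟩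
  | smul r a _ ha =>
    rw [mul_smul_comm, smul_mul_assoc]; exact ⟨D.K.smul_mem r ha.1, D.K.smul_mem r ha.2⟩

omit [CharZero F] in
theorem R_mem (x : A) : D.R x ∈ D.C := by
  simp only [R, LinearMap.sum_apply, LinearMap.smulRight_apply]
  refine Submodule.sum_mem _ fun m _ => Submodule.sum_mem _ fun i _ => Submodule.smul_mem _ _ ?_
  fin_cases m
  · exact Submodule.smul_mem _ _ (D.E_mem _ _)
  · exact Submodule.add_mem _ (Submodule.smul_mem _ _ (D.E_mem _ _))
      (Submodule.smul_mem _ _ (D.E_mem _ _))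
  · exact Submodule.smul_mem _ _ (D.E_mem _ _)
  · exact Submodule.smul_mem _ _ (D.E_mem _ _)

omit [CharZero F] in
theorem P_mem (x : A) : D.P x ∈ D.C := by
  simp only [P, LinearMap.sum_apply, LinearMap.smulRight_apply]
  exact Submodule.sum_mem _ fun m _ => Submodule.sum_mem _ fun i _ =>
    Submodule.smul_mem _ _ (D.E_mem _ _)

omit [CharZero F] in
theorem EE (m m' : Fin 4) (i j : ℕ) : D.E m i * D.E m' j =
    !![D.E 0 (i + j), D.E 1 (i + j), D.E 2 (i + j), D.E 3 (i + j);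
       D.E 1 (i + j), 0, D.E 3 (i + j), 0;
       D.E 2 (i + j), -D.E 3 (i + j), 0, 0;
       D.E 3 (i + j), 0, 0, 0] m m' := by
  simp only [E, mulWW]
  fin_cases m <;> fin_cases m' <;>
    simp [mon, D.hc, D.hd, D.hdc, D.ccd, D.dcd, D.cdc, D.cdd, D.cdcd]

omit [CharZero F] in
theorem E00 (i j : ℕ) : D.E 0 i * D.E 0 j = D.E 0 (i + j) := D.EE 0 0 i j
omit [CharZero F] in
theorem E01 (i j : ℕ) : D.E 0 i * D.E 1 j = D.E 1 (i + j) := D.EE 0 1 i j
omit [CharZero F] in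
theorem E02 (i j : ℕ) : D.E 0 i * D.E 2 j = D.E 2 (i + j) := D.EE 0 2 i j
omit [CharZero F] in
theorem E03 (i j : ℕ) : D.E 0 i * D.E 3 j = D.E 3 (i + j) := D.EE 0 3 i j
omit [CharZero F] in
theorem E10 (i j : ℕ) : D.E 1 i * D.E 0 j = D.E 1 (i + j) := D.EE 1 0 i j
omit [CharZero F] in
theorem E11 (i j : ℕ) : D.E 1 i * D.E 1 j = 0 := D.EE 1 1 i j
omit [CharZero F] in
theorem E12 (i j : ℕ) : D.E 1 i * D.E 2 j = D.E 3 (i + j) := D.EE 1 2 i j
omit [CharZero F] in
theorem E13 (i j : ℕ) : D.E 1 i * D.E 3 j = 0 := D.EE 1 3 i j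
omit [CharZero F] in
theorem E20 (i j : ℕ) : D.E 2 i * D.E 0 j = D.E 2 (i + j) := D.EE 2 0 i j
omit [CharZero F] in
theorem E21 (i j : ℕ) : D.E 2 i * D.E 1 j = -D.E 3 (i + j) := D.EE 2 1 i j
omit [CharZero F] in
theorem E22 (i j : ℕ) : D.E 2 i * D.E 2 j = 0 := D.EE 2 2 i j
omit [CharZero F] in
theorem E23 (i j : ℕ) : D.E 2 i * D.E 3 j = 0 := D.EE 2 3 i j
omit [CharZero F] in
theorem E30 (i j : ℕ) : D.E 3 i * D.E 0 j = D.E 3 (i + j) := D.EE 3 0 i j
omit [CharZero F] in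
theorem E31 (i j : ℕ) : D.E 3 i * D.E 1 j = 0 := D.EE 3 1 i j
omit [CharZero F] in
theorem E32 (i j : ℕ) : D.E 3 i * D.E 2 j = 0 := D.EE 3 2 i j
omit [CharZero F] in
theorem E33 (i j : ℕ) : D.E 3 i * D.E 3 j = 0 := D.EE 3 3 i j
omit [CharZero F] in
theorem R0 (i : ℕ) : D.R (D.E 0 i) = D.a i • D.E 0 (i + 1) := D.R_E 0 i
omit [CharZero F] in
theorem R1 (i : ℕ) : D.R (D.E 1 i) = D.b i • D.E 1 (i + 1) + (if i = D.g then (1 : F) else 0) • D.E 2 0 := D.R_E 1 i
omit [CharZero F] in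
theorem R2 (i : ℕ) : D.R (D.E 2 i) = D.a i • D.E 2 (i + 1) := D.R_E 2 i
omit [CharZero F] in
theorem R3 (i : ℕ) : D.R (D.E 3 i) = D.b i • D.E 3 (i + 1) := D.R_E 3 i

theorem aa (i j : ℕ) : D.a i * D.a j = (D.a i + D.a j) * D.a (i + j + 1) := by
  have h1 : (i : F) + 1 ≠ 0 := Nat.cast_add_one_ne_zero i
  have h2 : (j : F) + 1 ≠ 0 := Nat.cast_add_one_ne_zero j
  have h3 : ((i + j + 1 : ℕ) : F) + 1 ≠ 0 := Nat.cast_add_one_ne_zero _
  simp only [a]
  push_cast at h3 ⊢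
  field_simp
  ring

theorem ab (i j : ℕ) (h : i + j + 1 < D.g) :
    D.a i * D.b j = (D.a i + D.b j) * D.b (i + j + 1) := by
  have h1 : (i : F) + 1 ≠ 0 := Nat.cast_add_one_ne_zero i
  have h2 : (j : F) - D.g ≠ 0 := sub_ne_zero.2 (Nat.cast_injective.ne (by omega))
  have h3 : ((i + j + 1 : ℕ) : F) - D.g ≠ 0 := sub_ne_zero.2 (Nat.cast_injective.ne (by omega))
  simp only [a, b]
  push_cast at h3 ⊢
  field_simp
  ring

theorem ab0 (i j : ℕ) (h : i + j + 1 = D.g) : D.a i + D.b j = 0 := by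
  have h2 : (j : F) - D.g = -((i : F) + 1) := by rw [← h]; push_cast; ring
  simp only [a, b, h2, inv_neg, add_neg_cancel]

theorem ab1 (i j : ℕ) : (D.a i * D.b j) • D.E 1 (i + j + 2) =
    ((D.a i + D.b j) * D.b (i + j + 1)) • D.E 1 (i + j + 2) := by
  by_cases h : i + j + 1 < D.g
  · rw [D.ab i j h]
  · rw [D.E1_high (by omega), smul_zero, smul_zero]

theorem ab3 (i j : ℕ) : (D.a i * D.b j) • D.E 3 (i + j + 2) =
    ((D.a i + D.b j) * D.b (i + j + 1)) • D.E 3 (i + j + 2) := by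
  by_cases h : i + j + 1 < D.g
  · rw [D.ab i j h]
  · rw [D.E3_high (by omega), smul_zero, smul_zero]

theorem ab2 (i j : ℕ) : ((D.a i + D.b j) * if i + j + 1 = D.g then (1 : F) else 0) = 0 := by
  split_ifs with h
  · rw [D.ab0 i j h, zero_mul]
  · rw [mul_zero]

theorem rb_E (m m' : Fin 4) (i j : ℕ) :
    D.R (D.E m i) * D.R (D.E m' j) =
      D.R (D.R (D.E m i) * D.E m' j + D.E m i * D.R (D.E m' j)) := by
  have n1 : i + 1 + (j + 1) = i + j + 2 := by omega
  have n2 : i + 1 + j = i + j + 1 := by omega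
  have n3 : i + (j + 1) = i + j + 1 := by omega
  have n4 : i + j + 1 + 1 = i + j + 2 := by omega
  have n5 : j + i = i + j := by omega
  have h1 := D.aa i j
  have h2 := D.ab1 i j
  have h3 := D.ab3 i j
  have h4 := D.ab2 i j
  have h2' := D.ab1 j i
  have h3' := D.ab3 j i
  have h4' := D.ab2 j i
  rw [n5] at h2' h3' h4'
  have hm : ∀ m : Fin 4, m = 0 ∨ m = 1 ∨ m = 2 ∨ m = 3 := by decide
  rcases hm m with rfl | rfl | rfl | rfl <;> rcases hm m' with rfl | rfl | rfl | rfl <;>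
    simp only [E00, E01, E02, E03, E10, E11, E12, E13, E20, E21, E22, E23, E30, E31, E32, E33, R0, R1, R2, R3, mul_add, add_mul, smul_mul_assoc, mul_smul_comm, map_add, map_smul,
      map_neg, map_zero, smul_zero, add_zero, zero_add, n1, n2, n3, n4, smul_neg]
  · linear_combination (norm := module) h1 • D.E 0 (i + j + 2)
  · linear_combination (norm := module) h2 - h4 • D.E 2 0
  · linear_combination (norm := module) h1 • D.E 2 (i + j + 2)
  · linear_combination (norm := module) h3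
  · linear_combination (norm := module) h2' - h4' • D.E 2 0
  · module
  · linear_combination (norm := module) h3'
  · linear_combination (norm := module) h1 • D.E 2 (i + j + 2)
  · linear_combination (norm := module) -h3
  · linear_combination (norm := module) h3'

theorem rb_C {x y : A} (hx : x ∈ D.C) (hy : y ∈ D.C) :
    D.R x * D.R y = D.R (D.R x * y + x * D.R y) := by
  induction hx using Submodule.span_induction with
  | mem x hx =>
    obtain ⟨m, i, rfl⟩ := hx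
    induction hy using Submodule.span_induction with
    | mem y hy => obtain ⟨m', j, rfl⟩ := hy; exact D.rb_E m m' i j
    | zero => simp
    | add a b _ _ ha hb =>
      simp only [map_add, mul_add] at ha hb ⊢
      rw [ha, hb]; abel
    | smul r a _ ha =>
      simp only [map_add, map_smul, mul_smul_comm] at ha ⊢
      rw [ha, smul_add]
  | zero => simp
  | add a b _ _ ha hb =>
    simp only [map_add, add_mul] at ha hb ⊢
    rw [ha, hb]; abel
  | smul r a _ ha =>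
    simp only [map_add, map_smul, smul_mul_assoc] at ha ⊢
    rw [ha, smul_add]

theorem rb (x y : A) : D.R x * D.R y = D.R (D.R x * y + x * D.R y) := by
  have hx := D.sub_P_mem x
  have hy := D.sub_P_mem y
  have e : ∀ z, D.R (D.P z) = D.R z := fun z => by
    have := D.R_K (D.sub_P_mem z)
    rw [map_sub, sub_eq_zero] at this
    exact this.symm
  have h := D.rb_C (D.P_mem x) (D.P_mem y)
  rw [e, e] at h
  have h1 := D.R_K (D.K_mul_C hx (D.R_mem y)).1
  have h2 := D.R_K (D.K_mul_C hy (D.R_mem x)).2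
  rw [sub_mul, map_sub, sub_eq_zero] at h1
  rw [mul_sub, map_sub, sub_eq_zero] at h2
  rw [h, map_add, map_add, h1, h2]

theorem pow_c (k : ℕ) (hk : k ≤ D.g) : ∃ s : F, s ≠ 0 ∧ (D.R ^ k) (D.E 1 0) = s • D.E 1 k := by
  induction k with
  | zero => exact ⟨1, one_ne_zero, by simp⟩
  | succ k ih =>
    obtain ⟨s, hs, h⟩ := ih (by omega)
    refine ⟨s * D.b k, mul_ne_zero hs (inv_ne_zero
      (sub_ne_zero.2 (Nat.cast_injective.ne (by omega)))), ?_⟩
    rw [pow_succ', Module.End.mul_apply, h, map_smul, R1, if_neg (by omega), zero_smul, add_zero,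
      smul_smul]

theorem pow_d (k : ℕ) : ∃ s : F, s ≠ 0 ∧ (D.R ^ (D.g + 1 + k)) (D.E 1 0) = s • D.E 2 k := by
  induction k with
  | zero =>
    obtain ⟨s, hs, h⟩ := D.pow_c D.g le_rfl
    refine ⟨s, hs, ?_⟩
    rw [add_zero, pow_succ', Module.End.mul_apply, h, map_smul, R1, if_pos rfl,
      D.E1_high le_rfl, smul_zero, zero_add, one_smul]
  | succ k ih =>
    obtain ⟨s, hs, h⟩ := ih
    refine ⟨s * D.a k, mul_ne_zero hs (inv_ne_zero (Nat.cast_add_one_ne_zero k)), ?_⟩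
    rw [← add_assoc, pow_succ', Module.End.mul_apply, h, map_smul, R2, smul_smul]

theorem pow_ne (k : ℕ) (h : D.W ^ k * D.d ≠ 0) : D.R ^ (D.g + 1 + k) ≠ 0 := by
  intro h0
  obtain ⟨s, hs, h1⟩ := D.pow_d k
  rw [h0, LinearMap.zero_apply, eq_comm, smul_eq_zero] at h1
  exact h1.elim hs h

end Data

end Pool.Agent.H19.RB
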