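import Pool.Agent.H19.RBUpper
import Pool.Agent.H19.RBAbs

set_option autoImplicit false

namespace Pool.Agent.H19.RB

open ExteriorAlgebra

variable {F : Type} [Field F] {n : ℕ}

def ev (F : Type) [Field F] (n i : ℕ) : Fin n → F := fun j => if (j : ℕ) = i then 1 else 0
def e (F : Type) [Field F] (n i : ℕ) : Gr F n := ι F (ev F n i)
def Q (F : Type) [Field F] (n : ℕ) : ℕ → Gr F n
  | 0 => 1
  | m + 1 => Q F n m * e F n m
def w (F : Type) [Field F] (n : ℕ) : ℕ → Gr F n
  | 0 => 0
  | k + 1 => w F n k + e F n (2 * k) * e F n (2 * k + 1)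

theorem e_high {i : ℕ} (h : n ≤ i) : e F n i = 0 := by
  have : ev F n i = 0 := by
    funext j
    have := j.2
    simp only [ev, Pi.zero_apply]
    rw [if_neg (by omega)]
  rw [e, this, map_zero]

theorem contr_Q (j : Fin n) (m : ℕ) (h : m ≤ j) :
    CliffordAlgebra.contractRight (Q F n m) (LinearMap.proj j : (Fin n → F) →ₗ[F] F) = 0 := by
  induction m with
  | zero => exact CliffordAlgebra.contractRight_one _ _
  | succ m ih =>
    rw [Q, e, CliffordAlgebra.contractRight_mul_ι, ih (by omega)]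
    simp only [LinearMap.proj_apply, ev]
    rw [if_neg (by omega)]; simp

theorem Q_ne (m : ℕ) (h : m ≤ n) : Q F n m ≠ 0 := by
  induction m with
  | zero => exact one_ne_zero
  | succ m ih =>
    intro h0
    have := congrArg (fun x => CliffordAlgebra.contractRight x
      (LinearMap.proj (⟨m, h⟩ : Fin n) : (Fin n → F) →ₗ[F] F)) h0
    simp only [Q, e, CliffordAlgebra.contractRight_mul_ι] at this
    rw [contr_Q (⟨m, h⟩ : Fin n) m le_rfl] at this
    simp [ev] at this
    exact ih (by omega) this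

theorem even_central {k : ℕ} {y : Gr F n} (hy : y ∈ Ex F n (2 * k)) (x : Gr F n) :
    x * y = y * x := by
  induction x using ExteriorAlgebra.induction with
  | algebraMap r => exact Algebra.commutes r y
  | ι v => rw [anti v hy, pow_mul]; simp
  | mul a b ha hb => rw [mul_assoc, hb, ← mul_assoc, ha, mul_assoc]
  | add a b ha hb => rw [add_mul, mul_add, ha, hb]

theorem e_mem (i : ℕ) : e F n i ∈ Ex F n 1 := Ex_one _
theorem ee_mem (i j : ℕ) : e F n i * e F n j ∈ Ex F n (2 * 1) :=
  Ex_mul (a := 1) (b := 1) (e_mem i) (e_mem j)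
theorem e_sq (i : ℕ) : e F n i * e F n i = 0 := ι_sq_zero _
theorem e_swap (i j : ℕ) : e F n j * e F n i = -(e F n i * e F n j) :=
  eq_neg_of_add_eq_zero_left (ι_add_mul_swap _ _)

theorem ee_sq (i j : ℕ) : e F n i * e F n j * (e F n i * e F n j) = 0 := by
  rw [mul_assoc, ← mul_assoc (e F n j), e_swap i j, neg_mul, mul_assoc, e_sq]; simp

theorem w_mem (k : ℕ) : w F n k ∈ Ex F n (2 * 1) := by
  induction k with
  | zero => exact Submodule.zero_mem _
  | succ k ih => exact Submodule.add_mem _ ih (ee_mem _ _)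

theorem pow_mem_Ex {y : Gr F n} (hy : y ∈ Ex F n (2 * 1)) (i : ℕ) : y ^ i ∈ Ex F n (2 * i) := by
  induction i with
  | zero => rw [pow_zero, mul_zero]; exact Ex_zero
  | succ i ih => rw [pow_succ, mul_add]; exact Ex_mul ih hy

theorem add_pow_sq {A : Type} [Ring A] {a u : A} (h : u * a = a * u) (hu : u * u = 0) (i : ℕ) :
    (a + u) ^ (i + 1) = a ^ (i + 1) + (i + 1) • (a ^ i * u) := by
  induction i with
  | zero => simp
  | succ i ih =>
    rw [pow_succ, ih, add_mul, mul_add, mul_add, smul_mul_assoc, smul_mul_assoc, mul_assoc,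
      mul_assoc, h, hu, ← mul_assoc, ← pow_succ, ← pow_succ, succ_nsmul _ (i + 1)]
    simp only [mul_zero, smul_zero, add_zero]
    abel

theorem w_pow (k : ℕ) : w F n k ^ k = k.factorial • Q F n (2 * k) ∧ w F n k ^ (k + 1) = 0 := by
  induction k with
  | zero => simp [w, Q]
  | succ k ih =>
    have h := even_central (w_mem (F := F) (n := n) k) (e F n (2 * k) * e F n (2 * k + 1))
    constructor
    · rw [w, add_pow_sq h (ee_sq _ _), ih.2, ih.1, zero_add, smul_mul_assoc, smul_smul,
        Nat.factorial_succ, show 2 * (k + 1) = 2 * k + 1 + 1 by ring, Q, Q, mul_assoc]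
    · rw [w, add_pow_sq h (ee_sq _ _), pow_succ _ (k + 1), ih.2]; simp

theorem exists_tau {t : Gr F n} (ht : t ∈ Ex F n n) (h0 : t ≠ 0) :
    ∃ τ : Gr F n →ₗ[F] F, τ t = 1 ∧ (∀ k, k ≠ n → ∀ y ∈ Ex F n k, τ y = 0) ∧
      ∀ v y, τ (ι F v * y) = (-1) ^ (n + 1) * τ (y * ι F v) := by
  obtain ⟨f, hf⟩ := Module.Projective.exists_dual_eq_one F h0
  let τ : Gr F n →ₗ[F] F := f ∘ₗ GradedAlgebra.proj (fun i : ℕ => ⋀[F]^i (Fin n → F)) n
  have h2 : ∀ k, k ≠ n → ∀ y ∈ Ex F n k, τ y = 0 := by
    intro k hk y hy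
    simp only [τ, LinearMap.comp_apply, GradedAlgebra.proj_apply]
    rw [DirectSum.decompose_of_mem_ne (fun i : ℕ => ⋀[F]^i (Fin n → F)) hy hk, map_zero]
  refine ⟨τ, ?_, h2, fun v y => ?_⟩
  · simp only [τ, LinearMap.comp_apply, GradedAlgebra.proj_apply]
    rw [DirectSum.decompose_of_mem_same (fun i : ℕ => ⋀[F]^i (Fin n → F)) ht, hf]
  · induction y using DirectSum.Decomposition.inductionOn (fun i : ℕ => ⋀[F]^i (Fin n → F)) with
    | zero => simp
    | @homogeneous k m =>
      rw [anti v m.2, map_smul, smul_eq_mul]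
      by_cases hk : k + 1 = n
      · rw [show n + 1 = k + 2 by omega, pow_add]; simp
      · rw [h2 _ hk _ (Ex_mul m.2 (Ex_one v))]; simp
    | add a b ha hb => rw [mul_add, add_mul, map_add, map_add, ha, hb, mul_add]

variable [CharZero F]

theorem lower_aux (g ε : ℕ) (hn : n = 2 * g + 2 + ε) (z : Gr F n) (hz : z ∈ Ex F n ε)
    (hz0 : e F n (2 * g + 2) * z = 0) (hQ : Q F n (2 * g + 2) * z ≠ 0)
    (hW : (w F n g + e F n (2 * g) * e F n (2 * g + 2)) ^ (g + ε) * e F n (2 * g + 1) ≠ 0) :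
    ∃ R : Gr F n →ₗ[F] Gr F n, (∀ x y, R x * R y = R (R x * y + x * R y)) ∧
      R ^ (g + 1 + (g + ε)) ≠ 0 := by
  set c := e F n (2 * g)
  set d := e F n (2 * g + 1)
  set u := c * e F n (2 * g + 2) with hu
  have hum : u ∈ Ex F n (2 * 1) := ee_mem _ _
  have hcomm : u * w F n g = w F n g * u := even_central (w_mem g) u
  have hp := add_pow_sq hcomm (ee_sq _ _)
  have hred : ∀ i x, (w F n g + u) ^ i * x * z = w F n g ^ i * x * z := by
    intro i x
    cases i with
    | zero => simp only [pow_zero]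
    | succ i =>
      have : u * x * z = 0 := by
        rw [← even_central hum x, mul_assoc, hu, mul_assoc, hz0, mul_zero, mul_zero]
      rw [hp, add_mul, add_mul, smul_mul_assoc, smul_mul_assoc, mul_assoc _ u, mul_assoc _ (u * x),
        this, mul_zero, smul_zero, add_zero]
  have hcd : c * d ∈ Ex F n (2 * 1) := ee_mem _ _
  have ht : w F n g ^ g * (c * d) * z ∈ Ex F n n := by
    have := Ex_mul (Ex_mul (pow_mem_Ex (w_mem (F := F) (n := n) g) g) hcd) hz
    rwa [show 2 * g + 2 * 1 + ε = n by omega] at this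
  have ht0 : w F n g ^ g * (c * d) * z ≠ 0 := by
    rw [(w_pow g).1, smul_mul_assoc, smul_mul_assoc, ← mul_assoc, ← Nat.cast_smul_eq_nsmul F]
    exact smul_ne_zero (Nat.cast_ne_zero.2 (Nat.factorial_ne_zero g)) hQ
  obtain ⟨τ, h1, h2, h3⟩ := exists_tau ht ht0
  have sw : ∀ v x, τ (ι F v * x * z) = -τ (x * ι F v * z) := by
    intro v x
    rw [mul_assoc, h3, mul_assoc x (ι F v), anti v hz, mul_smul_comm, map_smul, smul_eq_mul,
      mul_assoc, show n + 1 = 2 * (g + 1) + (ε + 1) by omega, pow_add, pow_mul,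
      pow_succ _ ε]
    simp
  have hw := (w_pow (F := F) (n := n) g).2
  let D : Data F (Gr F n) :=
    { W := w F n g + u, c := c, d := d, g := g, τ := τ ∘ₗ LinearMap.mulRight F z
      hW := even_central (Submodule.add_mem _ (w_mem g) hum)
      hc := e_sq _, hd := e_sq _, hdc := e_swap _ _
      t1c := sw _, t1d := sw _
      t2 := fun x => by
        simp only [LinearMap.comp_apply, LinearMap.mulRight_apply, hred, hw]; simp
      t30 := fun i => by
        have := hred i 1
        simp only [mul_one] at this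
        simp only [LinearMap.comp_apply, LinearMap.mulRight_apply, this]
        by_cases hi : i = g + 1
        · rw [hi, hw]; simp
        · exact h2 _ (by omega) _ (Ex_mul (pow_mem_Ex (w_mem g) i) hz)
      t3c := fun i => by
        simp only [LinearMap.comp_apply, LinearMap.mulRight_apply, hred]
        exact h2 _ (by omega) _ (Ex_mul (Ex_mul (pow_mem_Ex (w_mem g) i) (e_mem _)) hz)
      t3d := fun i => by
        simp only [LinearMap.comp_apply, LinearMap.mulRight_apply, hred]
        exact h2 _ (by omega) _ (Ex_mul (Ex_mul (pow_mem_Ex (w_mem g) i) (e_mem _)) hz)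
      t3cd := fun i => by
        simp only [LinearMap.comp_apply, LinearMap.mulRight_apply, hred]
        split_ifs with hi
        · rw [hi, h1]
        · exact h2 _ (by omega) _ (Ex_mul (Ex_mul (pow_mem_Ex (w_mem g) i) hcd) hz)
      t4c := by
        have : u * c = 0 := by rw [← even_central hum c, hu, ← mul_assoc, e_sq, zero_mul]
        rw [hp, hw, zero_add, smul_mul_assoc, mul_assoc, this, mul_zero, smul_zero]
      t4 := by rw [hp, pow_succ _ (g + 1), hw]; simp }
  exact ⟨D.R, D.rb, D.pow_ne (g + ε) hW⟩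

theorem lower (hn : 1 ≤ n) : ∃ R : Gr F n →ₗ[F] Gr F n,
    (∀ x y, R x * R y = R (R x * y + x * R y)) ∧ R ^ (max n 2 - 1) ≠ 0 := by
  by_cases h1 : n = 1
  · refine ⟨(algebraMapInv (R := F) (M := Fin n → F)).toLinearMap.smulRight (e F n 0), ?_, ?_⟩
    · intro x y
      have : algebraMapInv (R := F) (e F n 0) = 0 := by simp [e, algebraMapInv]
      simp [e_sq, this]
    · rw [show max n 2 - 1 = 1 by omega, pow_one]
      intro h
      have := LinearMap.congr_fun h 1
      have h2 := Q_ne (F := F) 1 hn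
      simp [Q] at h2 this
      exact h2 this
  obtain ⟨g, hg | hg⟩ : ∃ g, n = 2 * g + 2 + 0 ∨ n = 2 * g + 2 + 1 := ⟨n / 2 - 1, by omega⟩
  · rw [show max n 2 - 1 = g + 1 + (g + 0) by omega]
    have h0 : e F n (2 * g + 2) = 0 := e_high (by omega)
    have hQ := Q_ne (F := F) (n := n) (2 * g + 2) (by omega)
    refine lower_aux g 0 hg 1 Ex_zero (by rw [h0, zero_mul]) (by rwa [mul_one]) ?_
    rw [h0, mul_zero, add_zero, add_zero, (w_pow g).1, smul_mul_assoc, ← Nat.cast_smul_eq_nsmul F]
    refine smul_ne_zero (Nat.cast_ne_zero.2 (Nat.factorial_ne_zero g)) fun h => hQ ?_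
    rw [Q, Q, mul_assoc, e_swap, mul_neg, ← mul_assoc, h, zero_mul, neg_zero]
  · rw [show max n 2 - 1 = g + 1 + (g + 1) by omega]
    have hQ := Q_ne (F := F) (n := n) (2 * g + 2 + 1) (by omega)
    refine lower_aux g 1 hg _ (e_mem _) (e_sq _) hQ ?_
    rw [add_pow_sq (even_central (w_mem g) _) (ee_sq _ _), (w_pow g).2, (w_pow g).1, zero_add,
      smul_mul_assoc, smul_mul_assoc, smul_mul_assoc, smul_smul, ← Nat.cast_smul_eq_nsmul F]
    refine smul_ne_zero (Nat.cast_ne_zero.2 (Nat.mul_ne_zero (Nat.succ_ne_zero g)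
      (Nat.factorial_ne_zero g))) fun h => hQ ?_
    rw [Q, Q, Q, mul_assoc, e_swap (2 * g + 2) (2 * g + 1), mul_neg, ← mul_assoc,
      mul_assoc (Q F n (2 * g)), h, neg_zero]

end Pool.Agent.H19.RB
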