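import Mathlib

set_option autoImplicit false

namespace Pool.Agent.H19.RB

open ExteriorAlgebra

variable {F : Type} [Field F] {n : ℕ}

abbrev Gr (F : Type) [Field F] (n : ℕ) := ExteriorAlgebra F (Fin n → F)

abbrev Ex (F : Type) [Field F] (n i : ℕ) : Submodule F (Gr F n) := ⋀[F]^i (Fin n → F)

theorem anti (v : Fin n → F) {k : ℕ} {x : Gr F n} (hx : x ∈ Ex F n k) :
    ι F v * x = (-1 : F) ^ k • (x * ι F v) := by
  induction hx using Submodule.pow_induction_on_left' with
  | algebraMap r => simp [Algebra.commutes]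
  | add x y i _ _ hx hy => rw [mul_add, add_mul, hx, hy, smul_add]
  | mem_mul m hm i x _ hx =>
    obtain ⟨w, rfl⟩ := hm
    have h : ι F v * ι F w = -(ι F w * ι F v) := eq_neg_of_add_eq_zero_left (ι_add_mul_swap v w)
    rw [← mul_assoc, h, neg_mul, mul_assoc, hx, pow_succ, mul_smul_comm, mul_assoc]
    simp

theorem Ex_mul {a b : ℕ} {x y : Gr F n} (hx : x ∈ Ex F n a) (hy : y ∈ Ex F n b) :
    x * y ∈ Ex F n (a + b) :=
  SetLike.mul_mem_graded (A := fun i : ℕ => ⋀[F]^i (Fin n → F)) hx hy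

theorem Ex_one (v : Fin n → F) : ι F v ∈ Ex F n 1 := by
  rw [Ex, exteriorPower, pow_one]; exact ⟨v, rfl⟩

theorem Ex_zero : (1 : Gr F n) ∈ Ex F n 0 := by
  rw [Ex, exteriorPower, pow_zero]; exact Submodule.one_le.1 le_rfl

theorem finrank_Ex (i : ℕ) : Module.finrank F (Ex F n i) = n.choose i := by
  rw [exteriorPower.finrank_eq]; simp

theorem Ex_high {i : ℕ} (hi : n < i) : Ex F n i = ⊥ := by
  rw [← Submodule.finrank_eq_zero, finrank_Ex, Nat.choose_eq_zero_of_lt hi]

def Fl (F : Type) [Field F] (n k : ℕ) : Submodule F (Gr F n) := ⨆ i : {i // k ≤ i}, Ex F n i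

theorem mem_Fl {k i : ℕ} (h : k ≤ i) {x : Gr F n} (hx : x ∈ Ex F n i) : x ∈ Fl F n k :=
  Submodule.mem_iSup_of_mem ⟨i, h⟩ hx

theorem Fl_mono {a b : ℕ} (h : a ≤ b) : Fl F n b ≤ Fl F n a :=
  iSup_le fun i _ hx => mem_Fl (h.trans i.2) hx

theorem Fl_mul {a b : ℕ} {x y : Gr F n} (hx : x ∈ Fl F n a) (hy : y ∈ Fl F n b) :
    x * y ∈ Fl F n (a + b) := by
  induction hx using Submodule.iSup_induction' with
  | mem i x hx =>
    induction hy using Submodule.iSup_induction' with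
    | mem j y hy => exact mem_Fl (add_le_add i.2 j.2) (Ex_mul hx hy)
    | zero => simp
    | add y z _ _ h1 h2 => rw [mul_add]; exact Submodule.add_mem _ h1 h2
  | zero => simp
  | add y z _ _ h1 h2 => rw [add_mul]; exact Submodule.add_mem _ h1 h2

theorem Fl_split {k : ℕ} {x : Gr F n} (hx : x ∈ Fl F n k) :
    ∃ y ∈ Ex F n k, ∃ z ∈ Fl F n (k + 1), x = y + z := by
  have : Fl F n k ≤ Ex F n k ⊔ Fl F n (k + 1) := by
    refine iSup_le fun i => ?_
    rcases i.2.eq_or_lt with h | h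
    · rw [← h]; exact le_sup_left
    · exact le_sup_of_le_right fun _ hx => mem_Fl h hx
  obtain ⟨y, hy, z, hz, h⟩ := Submodule.mem_sup.1 (this hx)
  exact ⟨y, hy, z, hz, h.symm⟩

theorem Fl_top (x : Gr F n) : x ∈ Fl F n 0 := by
  induction x using DirectSum.Decomposition.inductionOn (fun i : ℕ => ⋀[F]^i (Fin n → F)) with
  | zero => simp
  | homogeneous m => exact mem_Fl (Nat.zero_le _) m.2
  | add a b ha hb => exact Submodule.add_mem _ ha hb

theorem Fl_zero {k : ℕ} (hk : n < k) {x : Gr F n} (hx : x ∈ Fl F n k) : x = 0 := by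
  have : Fl F n k ≤ ⊥ := iSup_le fun i => (Ex_high (hk.trans_le i.2)).le
  exact this hx

theorem T_mem {r x : Gr F n} (hr : r ∈ Fl F n 1) {j : ℕ} (hx : x ∈ Fl F n (2 * j + 1)) :
    r * x + x * r ∈ Fl F n (2 * (j + 1) + 1) := by
  obtain ⟨r1, h1, r2, h2, rfl⟩ := Fl_split hr
  obtain ⟨x1, h3, x2, h4, rfl⟩ := Fl_split hx
  rw [Ex, exteriorPower, pow_one] at h1
  obtain ⟨v, rfl⟩ := h1
  have h5 := anti v h3
  rw [pow_succ, pow_mul] at h5
  have e : (ι F v + r2) * (x1 + x2) + (x1 + x2) * (ι F v + r2) =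
      ι F v * x2 + x2 * ι F v + r2 * (x1 + x2) + (x1 + x2) * r2 := by
    rw [add_mul (ι F v), mul_add (ι F v), h5, mul_add (x1 + x2), add_mul x1 x2 (ι F v)]
    simp only [even_two, Even.neg_pow, one_pow, mul_neg, mul_one, neg_smul, one_smul]
    abel
  rw [e]
  have hv : ι F v ∈ Fl F n 1 := mem_Fl le_rfl (Ex_one v)
  refine Submodule.add_mem _ (Submodule.add_mem _ (Submodule.add_mem _ ?_ ?_) ?_) ?_
  · exact Fl_mono (by omega) (Fl_mul hv h4)
  · exact Fl_mono (by omega) (Fl_mul h4 hv)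
  · exact Fl_mono (by omega) (Fl_mul h2 hx)
  · exact Fl_mono (by omega) (Fl_mul hx h2)

theorem pow_mem_Fl {y : Gr F n} (hy : y ∈ Fl F n 1) (k : ℕ) : y ^ k ∈ Fl F n k := by
  induction k with
  | zero => exact Fl_top _
  | succ k ih => rw [pow_succ]; exact Fl_mul ih hy

theorem split_one (x : Gr F n) : ∃ s : F, ∃ y ∈ Fl F n 1, x = s • 1 + y := by
  obtain ⟨y, hy, z, hz, h⟩ := Fl_split (Fl_top x)
  rw [Ex, exteriorPower, pow_zero, Submodule.mem_one] at hy
  obtain ⟨s, rfl⟩ := hy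
  exact ⟨s, z, hz, by rw [h, Algebra.algebraMap_eq_smul_one]⟩

variable [CharZero F] {R : Gr F n →ₗ[F] Gr F n}

omit [CharZero F] in
theorem range_mem (hR : ∀ x y, R x * R y = R (R x * y + x * R y)) (x : Gr F n) :
    R x ∈ Fl F n 1 := by
  obtain ⟨s, y, hy, h⟩ := split_one (R x)
  by_cases hs : s = 0
  · rw [h, hs, zero_smul, zero_add]; exact hy
  exfalso
  have hu : R (s⁻¹ • x) = 1 - (-(s⁻¹ • y)) := by
    rw [map_smul, h, smul_add, smul_smul, inv_mul_cancel₀ hs, one_smul, sub_neg_eq_add]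
  have hy' : -(s⁻¹ • y) ∈ Fl F n 1 := Submodule.neg_mem _ (Submodule.smul_mem _ _ hy)
  generalize -(s⁻¹ • y) = t at hu hy'
  have key : ∀ k, ∃ z, R z = 1 - t ^ k := by
    intro k
    induction k with
    | zero => exact ⟨0, by simp⟩
    | succ k ih =>
      obtain ⟨z, hz⟩ := ih
      refine ⟨s⁻¹ • x + z - (R z * (s⁻¹ • x) + z * R (s⁻¹ • x)), ?_⟩
      rw [map_sub, map_add, ← hR, hz, hu, pow_succ]
      noncomm_ring
  obtain ⟨z, hz⟩ := key (n + 1)
  rw [Fl_zero (Nat.lt_succ_self n) (pow_mem_Fl hy' _), sub_zero] at hz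
  have := hR z z
  rw [hz, one_mul, one_mul, mul_one, map_add, hz] at this
  exact one_ne_zero (left_eq_add.1 this)

/-- The operator `x ↦ r x + x r`. -/
def T (R : Gr F n →ₗ[F] Gr F n) : Gr F n →ₗ[F] Gr F n :=
  LinearMap.mulLeft F (R 1) + LinearMap.mulRight F (R 1)

omit [CharZero F] in
theorem T_R (hR : ∀ x y, R x * R y = R (R x * y + x * R y)) (k : ℕ) (x : Gr F n) :
    T R ((R ^ k) x) = (R ^ k) (T R x) + (2 * k : F) • (R ^ (k + 1)) x := by
  have h1 : ∀ x, T R (R x) = R (T R x) + (2 : F) • R (R x) := by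
    intro x
    have a := hR 1 x
    have b := hR x 1
    simp only [T, LinearMap.add_apply, LinearMap.mulLeft_apply, LinearMap.mulRight_apply, a, b,
      one_mul, mul_one, map_add, two_smul]
    abel
  induction k with
  | zero => simp
  | succ k ih =>
    rw [pow_succ', Module.End.mul_apply, h1, ih, map_add, map_smul, pow_succ' R (k + 1),
      pow_succ' R k]
    simp only [Module.End.mul_apply]
    push_cast
    module

omit [CharZero F] in
theorem T_pow_mem (hR : ∀ x y, R x * R y = R (R x * y + x * R y)) {x : Gr F n} {j : ℕ}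
    (hx : x ∈ Fl F n (2 * j + 1)) (a : ℕ) : (T R ^ a) x ∈ Fl F n (2 * (j + a) + 1) := by
  induction a with
  | zero => simpa using hx
  | succ a ih =>
    rw [pow_succ', Module.End.mul_apply]
    exact T_mem (range_mem hR 1) ih

theorem pow_mem_span (hR : ∀ x y, R x * R y = R (R x * y + x * R y)) (k : ℕ) (x : Gr F n) :
    (R ^ (k + 1)) x ∈
      Submodule.span F {y | ∃ a b, a + b = k ∧ y = (T R ^ a) (R ((T R ^ b) x))} := by
  induction k generalizing x with
  | zero => exact Submodule.subset_span ⟨0, 0, rfl, by simp⟩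
  | succ k ih =>
    have h := T_R hR (k + 1) x
    have h0 : (2 * ((k + 1 : ℕ) : F)) ≠ 0 :=
      mul_ne_zero two_ne_zero (Nat.cast_ne_zero.2 (Nat.succ_ne_zero k))
    rw [← Submodule.smul_mem_iff _ h0, ← sub_eq_iff_eq_add'.2 h]
    refine Submodule.sub_mem _ ?_ ?_
    · have : Submodule.span F {y | ∃ a b, a + b = k ∧ y = (T R ^ a) (R ((T R ^ b) x))} ≤
          (Submodule.span F {y | ∃ a b, a + b = k + 1 ∧
            y = (T R ^ a) (R ((T R ^ b) x))}).comap (T R) := by
        rw [Submodule.span_le]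
        rintro _ ⟨a, b, hab, rfl⟩
        exact Submodule.subset_span ⟨a + 1, b, by omega, by rw [pow_succ']; rfl⟩
      exact this (ih x)
    · refine Submodule.span_mono ?_ (ih (T R x))
      rintro _ ⟨a, b, hab, rfl⟩
      exact ⟨a, b + 1, by omega, by rw [pow_succ]; rfl⟩

theorem T_pow_R (hR : ∀ x y, R x * R y = R (R x * y + x * R y)) {v : Gr F n} (hv : T R v = 0)
    (a : ℕ) : ∃ s : F, s ≠ 0 ∧ (T R ^ a) (R v) = s • (R ^ (a + 1)) v := by
  induction a with
  | zero => exact ⟨1, one_ne_zero, by simp⟩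
  | succ a ih =>
    obtain ⟨s, hs, h⟩ := ih
    refine ⟨s * (2 * ((a + 1 : ℕ) : F)), mul_ne_zero hs
      (mul_ne_zero two_ne_zero (Nat.cast_ne_zero.2 (Nat.succ_ne_zero a))), ?_⟩
    rw [pow_succ', Module.End.mul_apply, h, map_smul, T_R hR, hv, map_zero, zero_add, smul_smul]

theorem pow_eq_zero_of (hR : ∀ x y, R x * R y = R (R x * y + x * R y)) {x : Gr F n} (k : ℕ)
    (h : ∀ a b, a + b = k → (T R ^ a) (R ((T R ^ b) x)) = 0) : (R ^ (k + 1)) x = 0 := by
  have : Submodule.span F {y | ∃ a b, a + b = k ∧ y = (T R ^ a) (R ((T R ^ b) x))} ≤ ⊥ := by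
    rw [Submodule.span_le]
    rintro _ ⟨a, b, hab, rfl⟩
    exact h a b hab
  exact this (pow_mem_span hR k x)

theorem upper (hR : ∀ x y, R x * R y = R (R x * y + x * R y)) : R ^ (max n 2) = 0 := by
  have t1 : ∀ a, n < 2 * a + 1 → ∀ y, (T R ^ a) (R y) = 0 := fun a ha y =>
    Fl_zero ha (by simpa using T_pow_mem hR (j := 0) (range_mem hR y) a)
  have t2 : ∀ b, ∀ x ∈ Fl F n 1, (T R ^ b) x ∈ Fl F n (2 * b + 1) := fun b x hx => by
    simpa using T_pow_mem hR (j := 0) hx b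
  have h1 : ∀ x ∈ Fl F n 1, (R ^ (n + 1)) x = 0 := by
    intro x hx
    refine pow_eq_zero_of hR n fun a b hab => ?_
    by_cases ha : n < 2 * a + 1
    · exact t1 a ha _
    · rw [Fl_zero (by omega) (t2 b x hx), map_zero, map_zero]
  have h2 : ∀ h, n = 2 * h + 1 → ∀ v ∈ Fl F n n, (T R ^ h) (R v) = 0 := by
    intro h hn v hv
    have hT : T R v = 0 :=
      Fl_zero (k := 2 * (h + 1) + 1) (by omega) (T_mem (range_mem hR 1) (by rwa [← hn]))
    obtain ⟨s, hs, he⟩ := T_pow_R hR hT h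
    have hm : (R ^ (h + 1)) v ∈ Fl F n n := by
      rw [← Submodule.smul_mem_iff _ hs, ← he]
      have := t2 h _ (range_mem hR v)
      rwa [← hn] at this
    have ex : ∀ w ∈ Fl F n n, w ∈ Ex F n n := by
      intro w hw
      obtain ⟨y, hy, z, hz, rfl⟩ := Fl_split hw
      rwa [Fl_zero (Nat.lt_succ_self n) hz, add_zero]
    by_cases hv0 : v = 0
    · simp [hv0]
    obtain ⟨γ, hγ⟩ := (finrank_eq_one_iff_of_nonzero' (K := F) (⟨v, ex v hv⟩ : Ex F n n)
      (fun h => hv0 (congrArg Subtype.val h))).1 (by rw [finrank_Ex, Nat.choose_self])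
      ⟨_, ex _ hm⟩
    have hγ' : γ • v = (R ^ (h + 1)) v := congrArg Subtype.val hγ
    have h3 := h1 v (Fl_mono (by omega) hv)
    rw [show n + 1 = (h + 1) + (h + 1) by omega, pow_add, Module.End.mul_apply, ← hγ', map_smul,
      ← hγ', smul_smul, smul_eq_zero, mul_self_eq_zero] at h3
    rw [he, ← hγ', h3.resolve_right hv0, zero_smul, smul_zero]
  obtain ⟨k, hk⟩ : ∃ k, max n 2 = k + 1 := ⟨max n 2 - 1, by omega⟩
  apply LinearMap.ext; intro x
  obtain ⟨s, y, hy, rfl⟩ := split_one x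
  rw [map_add, map_smul, hk, LinearMap.zero_apply]
  have a1 : (R ^ (k + 1)) y = 0 := by
    refine pow_eq_zero_of hR k fun a b hab => ?_
    by_cases ha : n < 2 * a + 1
    · exact t1 a ha _
    by_cases hb : n < 2 * b + 1
    · rw [Fl_zero hb (t2 b y hy), map_zero, map_zero]
    · have hn : n = 2 * a + 1 := by omega
      refine h2 a hn _ ?_
      have := t2 b y hy
      rwa [show 2 * b + 1 = n by omega] at this
  have a2 : (R ^ (k + 1)) 1 = 0 := by
    have key : ∀ j, (R ^ (j + 1)) 1 ∈ Fl F n (2 * j + 1) := by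
      intro j
      induction j with
      | zero => simpa using range_mem hR 1
      | succ j ih =>
        have h := T_R hR (j + 1) 1
        have hT : T R 1 = (2 : F) • R 1 := by simp [T, two_smul]
        have e : (R ^ (j + 1)) (R 1) = (R ^ (j + 1 + 1)) 1 := by rw [pow_succ R (j + 1)]; rfl
        rw [hT, map_smul, e, ← add_smul] at h
        have h0 : (2 + 2 * ((j + 1 : ℕ) : F)) ≠ 0 := by
          have : (2 + 2 * (j + 1) : ℕ) ≠ 0 := by omega
          exact_mod_cast this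
        rw [← Submodule.smul_mem_iff _ h0, ← h]
        exact T_mem (range_mem hR 1) ih
    exact Fl_zero (by omega) (key k)
  rw [a1, a2, smul_zero, add_zero]

end Pool.Agent.H19.RB
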