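import Mathlib

set_option autoImplicit false

namespace Pool.Agent.H19.SLTwo

open Matrix PowerSeries
open scoped PowerSeries.WithPiTopology MatrixGroups

lemma comm2 {R : Type} [CommRing R] [IsDomain R] {x y z : Matrix (Fin 2) (Fin 2) R}
    (hx : ¬(x 0 1 = 0 ∧ x 1 0 = 0 ∧ x 0 0 - x 1 1 = 0)) (hy : x * y = y * x) (hz : x * z = z * x) :
    y * z = z * y := by
  have key (u v : Matrix (Fin 2) (Fin 2) R) : u * v = v * u ↔ u 0 1 * v 1 0 = v 0 1 * u 1 0 ∧
      u 0 1 * (v 0 0 - v 1 1) = v 0 1 * (u 0 0 - u 1 1) ∧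
      u 1 0 * (v 0 0 - v 1 1) = v 1 0 * (u 0 0 - u 1 1) := by
    simp only [← Matrix.ext_iff, Fin.forall_fin_two, Matrix.mul_apply, Fin.sum_univ_two]
    refine ⟨fun ⟨⟨h1, h2⟩, h3, _⟩ => ⟨?_, ?_, ?_⟩, fun ⟨h1, h2, h3⟩ => ⟨⟨?_, ?_⟩, ?_, ?_⟩⟩
    exacts [by linear_combination h1, by linear_combination -h2, by linear_combination h3,
      by linear_combination h1, by linear_combination -h2, by linear_combination h3,
      by linear_combination -h1]
  rw [key] at hy hz ⊢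
  obtain ⟨h1, h2, h3⟩ := hy
  obtain ⟨h4, h5, h6⟩ := hz
  generalize x 0 0 - x 1 1 = a, y 0 0 - y 1 1 = b, z 0 0 - z 1 1 = c at *
  by_cases e1 : x 0 1 = 0
  · by_cases e2 : x 1 0 = 0
    · have e3 : a ≠ 0 := fun h => hx ⟨e1, e2, h⟩
      refine ⟨mul_left_cancel₀ e3 ?_, mul_left_cancel₀ e3 ?_, mul_left_cancel₀ e3 ?_⟩
      · linear_combination -(z 1 0) * h2 + y 1 0 * h5 + b * h4 - c * h1 + y 0 1 * 0
          + z 0 1 * (h3 - h3) + (b * z 0 1 - c * y 0 1) * e2
      · linear_combination -c * h2 + b * h5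
      linear_combination -c * h3 + b * h6
    refine ⟨mul_left_cancel₀ e2 ?_, mul_left_cancel₀ e2 ?_, mul_left_cancel₀ e2 ?_⟩
    · linear_combination -(z 1 0) * h1 + y 1 0 * h4
    · linear_combination y 0 1 * h6 - z 0 1 * h3 + a * (y 1 0 * 0) - c * 0 * h1
        + -(z 1 0) * h2 + y 1 0 * h5 + (b * z 1 0 - c * y 1 0) * e1
    linear_combination y 1 0 * h6 - z 1 0 * h3
  have g : y 0 1 * z 1 0 = z 0 1 * y 1 0 :=
    mul_left_cancel₀ e1 (by linear_combination y 0 1 * h4 - z 0 1 * h1)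
  refine ⟨g, mul_left_cancel₀ e1 ?_, mul_left_cancel₀ e1 ?_⟩
  · linear_combination y 0 1 * h5 - z 0 1 * h2
  linear_combination y 1 0 * h5 - z 1 0 * h2 - a * g

lemma ca {R : Type} [CommRing R] [IsDomain R] [CharP R 2] {x y z : SL(2, R)} (hx : x ≠ 1)
    (hy : x * y = y * x) (hz : x * z = z * x) : y * z = z * y := by
  refine Subtype.ext (comm2 (x := x.1) (fun ⟨h1, h2, h3⟩ => hx ?_) (congrArg Subtype.val hy)
    (congrArg Subtype.val hz))
  have h4 := x.2
  rw [det_fin_two, h1, sub_eq_zero.mp h3] at h4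
  have h5 : x.1 1 1 = 1 := by
    have : (x.1 1 1 - 1) ^ 2 = 0 := by
      linear_combination h4 + (1 - x.1 1 1) * CharTwo.two_eq_zero (R := R)
    exact sub_eq_zero.mp (pow_eq_zero_iff two_ne_zero |>.mp this)
  ext i j
  fin_cases i <;> fin_cases j <;> simp [h1, h2, h5, sub_eq_zero.mp h3]

variable (F : Type) [Field F] [Finite F] [TopologicalSpace F] [DiscreteTopology F]

instance : CompactSpace F⟦X⟧ := Pi.compactSpace

instance : TotallyDisconnectedSpace F⟦X⟧ := Pi.totallyDisconnectedSpace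

instance : CompactSpace SL(2, F⟦X⟧) :=
  haveI : CompactSpace (Matrix (Fin 2) (Fin 2) F⟦X⟧) := Pi.compactSpace
  SpecialLinearGroup.isClosedEmbedding_val.compactSpace

instance : TotallyDisconnectedSpace SL(2, F⟦X⟧) :=
  haveI : TotallyDisconnectedSpace (Matrix (Fin 2) (Fin 2) F⟦X⟧) := Pi.totallyDisconnectedSpace
  Subtype.totallyDisconnectedSpace

instance [CharP F 2] : CharP F⟦X⟧ 2 := charP_of_injective_ringHom (C_injective (R := F)) 2

omit [Finite F] in
lemma open_ker : IsOpen ((SpecialLinearGroup.map (n := Fin 2)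
    (constantCoeff (R := F))).ker : Set SL(2, F⟦X⟧)) :=
  (isOpen_discrete {1}).preimage
    (PowerSeries.WithPiTopology.continuous_constantCoeff F).specialLinearGroup_map

end Pool.Agent.H19.SLTwo
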