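import Mathlib

set_option autoImplicit false
set_option linter.unusedSectionVars false
set_option linter.unusedVariables false

namespace Pool.Agent.H19.Shearer

open Finset Filter Topology
open scoped Pointwise ENNReal Classical

section count
variable {ι β J : Type*} (y : ι → β)

/-- `z` on `S`, `y` elsewhere -/
noncomputable def pw (S : Finset ι) (z y : ι → β) : ι → β := S.piecewise z y

lemma pw_mem (S : Finset ι) (z y : ι → β) {i : ι} (h : i ∈ S) : pw S z y i = z i :=
  piecewise_eq_of_mem _ _ _ h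

lemma pw_not (S : Finset ι) (z y : ι → β) {i : ι} (h : i ∉ S) : pw S z y i = y i :=
  piecewise_eq_of_notMem _ _ _ h

/-- number of distinct restrictions to `S` -/
noncomputable def N (S : Finset ι) (Z : Finset (ι → β)) : ℕ := #(Z.image fun z => pw S z y)

lemma N_mono {S S' : Finset ι} {Z Z' : Finset (ι → β)} (h : S ⊆ S') (h' : Z ⊆ Z') :
    N y S Z ≤ N y S' Z' := by
  refine le_trans (card_le_card ?_) (card_image_le (f := fun z => pw S z y))
  rw [image_image]
  refine image_subset_iff.mpr fun z hz => mem_image.mpr ⟨z, h' hz, ?_⟩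
  exact piecewise_piecewise_of_subset_left h ..

lemma N_split (S : Finset ι) (a : ι) (ha : a ∉ S) (Z : Finset (ι → β)) :
    N y (insert a S) Z = ∑ b ∈ Z.image (· a), N y S (Z.filter (· a = b)) := by
  rw [N, card_eq_sum_card_fiberwise (f := (· a)) (t := Z.image (· a))]
  · refine sum_congr rfl fun b _ => ?_
    rw [filter_image, N, ← card_image_of_injOn (f := fun z => pw S z y), image_image]
    · congr 1
      simp only [pw_mem _ _ _ (mem_insert_self a S)]
      exact image_congr fun z _ => piecewise_piecewise_of_subset_left (subset_insert a S) ..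
    · simp only [coe_image, coe_filter]
      rintro _ ⟨z, hz, rfl⟩ _ ⟨z', hz', rfl⟩ h
      ext i
      by_cases h1 : i = a
      · rw [h1]
        exact hz.2.trans hz'.2.symm
      · by_cases h2 : i ∈ S
        · simpa [pw, h2] using congrFun h i
        · simp [pw, h1, h2]
  · intro z hz
    obtain ⟨z, hz', rfl⟩ := mem_image.mp hz
    exact mem_image.mpr ⟨z, hz', (pw_mem _ _ _ (mem_insert_self a S)).symm⟩

theorem shearer (s : Finset J) (S : J → Finset ι) (w : J → ℝ) (hw : ∀ j, 0 ≤ w j) (F : Finset ι)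
    (hcov : ∀ i ∈ F, ∑ j ∈ s with i ∈ S j, w j = 1) (Z : Finset (ι → β)) (hZ : Z.Nonempty) :
    (N y F Z : ℝ) ≤ ∏ j ∈ s, (N y (S j ∩ F) Z : ℝ) ^ w j := by
  have pos : ∀ S Z, Z.Nonempty → (1 : ℝ) ≤ N y S Z := fun S Z hZ => by
    exact_mod_cast card_pos.mpr (hZ.image _)
  induction F using Finset.induction_on generalizing Z with
  | empty =>
    refine le_trans ?_ (one_le_prod fun j _ => Real.one_le_rpow (pos _ _ hZ) (hw j))
    exact_mod_cast card_le_one.mpr (by simp [pw])
  | insert a F ha ih =>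
    set M : J → ℝ := fun j => N y (S j ∩ insert a F) Z
    have hM : ∀ j, 0 < M j := fun j => one_pos.trans_le (pos _ _ hZ)
    have h1 : ∀ b ∈ Z.image (· a), (N y F (Z.filter (· a = b)) : ℝ) ≤ (∏ j ∈ s, M j ^ w j) *
        ∑ j ∈ s with a ∈ S j, w j * (N y (S j ∩ F) (Z.filter (· a = b)) / M j) := by
      intro b hb
      obtain ⟨z, hz, hb⟩ := mem_image.mp hb
      refine (ih (fun i hi => hcov i (mem_insert_of_mem hi)) _
        ⟨z, mem_filter.mpr ⟨hz, hb⟩⟩).trans (le_trans ?_ (mul_le_mul_of_nonneg_left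
          (Real.geom_mean_le_arith_mean_weighted _ _ _ (fun j _ => hw j)
            (hcov a (mem_insert_self ..)) fun j _ => div_nonneg (by positivity) (hM j).le)
          (prod_nonneg fun j _ => Real.rpow_nonneg (hM j).le _)))
      rw [prod_filter, ← prod_mul_distrib]
      refine prod_le_prod (fun j _ => by positivity) fun j _ => ?_
      split_ifs
      · rw [← Real.mul_rpow (hM j).le (div_nonneg (by positivity) (hM j).le),
          mul_div_cancel₀ _ (hM j).ne']
      · rw [mul_one]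
        refine Real.rpow_le_rpow (by positivity) ?_ (hw j)
        simp only [M]
        exact_mod_cast N_mono y (inter_subset_inter_left (subset_insert ..)) (filter_subset ..)
    rw [N_split y F a ha, Nat.cast_sum]
    refine (sum_le_sum h1).trans (le_of_eq ?_)
    rw [← mul_sum, sum_comm, sum_congr rfl (g := w), hcov a (mem_insert_self ..), mul_one]
    intro j hj
    rw [← mul_sum, ← sum_div, ← Nat.cast_sum, ← N_split y _ a (by simp [ha]),
      ← inter_insert_of_mem (mem_filter.mp hj).2, div_self (hM j).ne', mul_one]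

end count

theorem exZ {ι A : Type*} [AddCommGroup A] (Y : ι → Set A) (hY : ∀ i, (Y i).Finite)
    (y : ι → A) (hy : ∀ i, y i ∈ Y i) (F : Finset ι) : ∃ Z : Finset (ι → A), Z.Nonempty ∧
    (∑ i ∈ F, Y i).ncard ≤ N y F Z ∧ ∀ S : Finset ι, N y S Z ≤ (∑ i ∈ S, Y i).ncard := by
  obtain ⟨_, _⟩ := exists_wellFoundedLT ι
  obtain ⟨_, -⟩ := exists_wellFoundedLT A
  let P : Set (ι → A) := {z | ∀ i, z i ∈ Y i ∧ (i ∉ F → z i = y i)}
  have hP : P.Finite := by
    refine Set.Finite.of_finite_image (f := F.restrict) ((Set.Finite.pi' fun i : F => hY i).subset ?_)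
      fun z hz z' hz' h => funext fun i => ?_
    · rintro _ ⟨z, hz, rfl⟩ i
      exact (hz i).1
    · by_cases hi : i ∈ F
      exacts [congrFun h ⟨i, hi⟩, ((hz i).2 hi).trans ((hz' i).2 hi).symm]
  let Z := hP.toFinset.filter fun z => ∀ z' ∈ P, ∑ i ∈ F, z' i = ∑ i ∈ F, z i → toLex z ≤ toLex z'
  have mZ : ∀ z, z ∈ Z ↔ z ∈ P ∧ ∀ z' ∈ P, ∑ i ∈ F, z' i = ∑ i ∈ F, z i → toLex z ≤ toLex z' :=
    fun z => by simp only [Z, mem_filter, Set.Finite.mem_toFinset]
  have h1 : ∀ z ∈ P, ∃ z' ∈ Z, ∑ i ∈ F, z' i = ∑ i ∈ F, z i := fun z hz => by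
    obtain ⟨z', h1, h2⟩ := Set.exists_min_image {z' ∈ P | ∑ i ∈ F, z' i = ∑ i ∈ F, z i} toLex
      (hP.subset fun _ h => h.1) ⟨z, hz, rfl⟩
    exact ⟨z', (mZ _).mpr ⟨h1.1, fun u hu h => h2 u ⟨hu, h.trans h1.2⟩⟩, h1.2⟩
  have sp : ∀ (S : Finset ι) (z : ι → A), ∑ i ∈ S, pw S z y i = ∑ i ∈ S, z i :=
    fun S z => sum_congr rfl fun i hi => pw_mem _ _ _ hi
  have h2 : (∑ i ∈ F, Y i).ncard ≤ N y F Z := by
    rw [N, ← Set.ncard_coe_finset]
    refine le_trans (Set.ncard_le_ncard ?_ ((finite_toSet _).image _))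
      (Set.ncard_image_le (f := fun z => ∑ i ∈ F, z i) (finite_toSet _))
    intro x hx
    obtain ⟨z, hz, rfl⟩ := (Set.mem_finsetSum _ _ _).mp hx
    obtain ⟨z', h3, h4⟩ := h1 (pw F z y) fun i => by
      by_cases hi : i ∈ F <;> simp [hi, hz, hy, pw_mem, pw_not]
    exact ⟨_, mem_image_of_mem _ h3, (sp _ _).trans (h4.trans (sp _ _))⟩
  have h3 : ∀ S : Finset ι, N y S Z ≤ (∑ i ∈ S, Y i).ncard := by
    intro S
    have key : ∀ z ∈ Z, ∀ z' ∈ Z, ∑ i ∈ S, z i = ∑ i ∈ S, z' i →
        ¬ toLex (pw S z y) < toLex (pw S z' y) := by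
      rintro z hz z' hz' h ⟨i, h4, h5⟩
      obtain ⟨hz, -⟩ := (mZ _).mp hz
      obtain ⟨hz', h6⟩ := (mZ _).mp hz'
      refine (h6 (pw S z z') (fun i => ?_) ?_).not_gt ⟨i, fun j hj => ?_, ?_⟩
      · by_cases hi : i ∈ S
        exacts [(pw_mem S z z' hi).symm ▸ hz i, (pw_not S z z' hi).symm ▸ hz' i]
      · rw [← sub_eq_zero, ← sum_sub_distrib] at h ⊢
        refine (sum_subset (subset_union_left (s₂ := S)) fun i _ h2 => ?_).trans
          ((sum_subset subset_union_right fun i _ h2 => ?_).symm.trans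
            ((sum_congr rfl fun i hi => ?_).trans h))
        · by_cases hi : i ∈ S
          · rw [pw_mem _ _ _ hi, (hz i).2 h2, (hz' i).2 h2, sub_self]
          · rw [pw_not _ _ _ hi, sub_self]
        · rw [pw_not _ _ _ h2, sub_self]
        · rw [pw_mem _ _ _ hi]
      · have : pw S z y j = pw S z' y j := h4 j hj
        change pw S z z' j = z' j
        by_cases hj : j ∈ S
        · rwa [pw_mem _ _ _ hj, pw_mem _ _ _ hj,
            ← pw_mem S z z' hj] at this
        · exact pw_not _ _ _ hj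
      · change pw S z y i < pw S z' y i at h5
        change pw S z z' i < z' i
        by_cases hj : i ∈ S
        · rwa [pw_mem _ _ _ hj, pw_mem _ _ _ hj,
            ← pw_mem S z z' hj] at h5
        · rw [pw_not _ _ _ hj, pw_not _ _ _ hj] at h5
          exact absurd h5 (lt_irrefl _)
    rw [N, ← Set.ncard_coe_finset]
    refine Set.ncard_le_ncard_of_injOn (fun z => ∑ i ∈ S, z i) ?_ ?_
      (Finset.sum_induction _ Set.Finite (fun _ _ => Set.Finite.add) Set.finite_zero
        fun i _ => hY i) <;> rw [coe_image]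
    · rintro _ ⟨z, hz, rfl⟩
      exact (Set.mem_finsetSum _ _ _).mpr ⟨_, fun {i} hi => by
        simpa [hi, pw_mem] using (((mZ z).mp hz).1 i).1, rfl⟩
    · rintro _ ⟨z, hz, rfl⟩ _ ⟨z', hz', rfl⟩ h
      replace h := (sp _ _).symm.trans (h.trans (sp _ _))
      exact toLex.injective (le_antisymm (not_lt.mp (key _ hz' _ hz h.symm))
        (not_lt.mp (key _ hz _ hz' h)))
  obtain ⟨z, hz, -⟩ := h1 y fun i => ⟨hy i, fun _ => rfl⟩
  exact ⟨Z, ⟨z, hz⟩, h2, h3⟩

theorem sumset {ι J A : Type*} [AddCommGroup A] (Y : ι → Set A) (hY : ∀ i, (Y i).Finite)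
    (hne : ∀ i, (Y i).Nonempty) (s : Finset J) (S : J → Finset ι) (w : J → ℝ) (hw : ∀ j, 0 ≤ w j)
    (F : Finset ι) (hcov : ∀ i ∈ F, ∑ j ∈ s with i ∈ S j, w j = 1) :
    ((∑ i ∈ F, Y i).ncard : ℝ) ≤ ∏ j ∈ s, ((∑ i ∈ S j, Y i).ncard : ℝ) ^ w j := by
  choose y hy using hne
  obtain ⟨Z, hZ, h2, h3⟩ := exZ Y hY y hy F
  refine (Nat.cast_le.mpr h2).trans ((shearer y s S w hw F hcov Z hZ).trans
    (prod_le_prod (fun j _ => by positivity) fun j _ => ?_))
  refine Real.rpow_le_rpow (by positivity) ?_ (hw j)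
  exact_mod_cast (N_mono y inter_subset_left le_rfl).trans (h3 _)

variable {G A : Type*} [Group G] [AddCommGroup A] [DistribMulAction G A]

/-- `log |T_F(X)|` -/
noncomputable def ell (F : Finset G) (X : Set A) : ℝ := Real.log (∑ g ∈ F, g • X).ncard

lemma ell_nonneg (F : Finset G) (X : Set A) : 0 ≤ ell F X := Real.log_natCast_nonneg _

lemma ell_le {X : Set A} (hX : X.Finite) (hne : X.Nonempty) (T : Finset G) (hT : T.Nonempty)
    (F : Finset G) : ell F X ≤ #(F / T) * (ell T X / #T) := by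
  have h0 : (#T : ℝ) ≠ 0 := by exact_mod_cast hT.card_pos.ne'
  have pos : ∀ F : Finset G, (0 : ℝ) < (∑ g ∈ F, g • X).ncard := fun F => by
    have := Finset.sum_induction (s := F) (fun g => g • X) (fun Y => Y.Finite ∧ Y.Nonempty)
      (fun _ _ h h' => ⟨h.1.add h'.1, h.2.add h'.2⟩) ⟨Set.finite_zero, Set.zero_nonempty⟩
      fun i _ => ⟨hX.smul_set, hne.smul_set⟩
    exact_mod_cast (Set.ncard_pos this.1).mpr this.2
  have h1 := sumset (fun g : G => g • X) (fun _ => hX.smul_set) (fun _ => hne.smul_set) (F / T)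
    (fun g => T.image (g * ·)) (fun _ => 1 / #T) (fun _ => by positivity) F fun i hi => by
      rw [sum_const, show #{j ∈ F / T | i ∈ T.image (j * ·)} = #T from ?_]
      · simp [h0]
      symm
      refine card_bij (fun t _ => i / t) (fun t ht => mem_filter.mpr ⟨div_mem_div hi ht,
        mem_image.mpr ⟨t, ht, div_mul_cancel i t⟩⟩) (fun a _ b _ h => div_right_injective h) ?_
      intro j hj
      obtain ⟨t, ht, rfl⟩ := mem_image.mp (mem_filter.mp hj).2
      exact ⟨t, ht, by simp⟩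
  have h2 : ∀ g : G, (∑ i ∈ T.image (g * ·), i • X).ncard = (∑ i ∈ T, i • X).ncard := fun g => by
    rw [sum_image fun _ _ _ _ h => mul_left_cancel h, ← Set.ncard_smul_set g (∑ i ∈ T, i • X),
      smul_sum]
    simp only [mul_smul]
  simp only [h2, prod_const] at h1
  refine (Real.log_le_log (pos F) h1).trans (le_of_eq ?_)
  rw [Real.log_pow, Real.log_rpow (pos T), ell]
  ring

/-- The infimum rule for algebraic entropy. -/
theorem inf_rule {ι : Type*} {l : Filter ι} [l.NeBot] {F : ι → Finset G}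
    (hne : ∀ i, (F i).Nonempty)
    (hF : ∀ g : G, Tendsto (fun i => (#((F i).image (· * g) \ F i) : ℝ) / #(F i)) l (𝓝 0))
    {X : Set A} (hX : X.Finite) (hX' : X.Nonempty) (T : Finset G) (hT : T.Nonempty) :
    limsup (fun i => ENNReal.ofReal (ell (F i) X / #(F i))) l ≤ ENNReal.ofReal (ell T X / #T) := by
  have h1 := ENNReal.tendsto_ofReal (((tendsto_finsetSum T fun t _ => hF t⁻¹).const_add 1).mul_const
    (ell T X / #T))
  simp only [sum_const_zero, add_zero, one_mul] at h1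
  rw [← h1.limsup_eq]
  refine limsup_le_limsup (Eventually.of_forall fun i => ENNReal.ofReal_le_ofReal ?_)
  have h0 : (0 : ℝ) < #(F i) := by exact_mod_cast (hne i).card_pos
  rw [div_le_iff₀ h0, mul_right_comm, add_mul, ← sum_div, div_mul_cancel₀ _ h0.ne', one_mul]
  refine (ell_le hX hX' T hT _).trans (mul_le_mul_of_nonneg_right ?_
    (div_nonneg (ell_nonneg _ _) (by positivity)))
  have : F i / T ⊆ F i ∪ T.biUnion fun t => (F i).image (· * t⁻¹) \ F i := by
    intro x hx
    obtain ⟨a, ha, t, ht, rfl⟩ := mem_div.mp hx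
    by_cases h : a / t ∈ F i
    · exact mem_union_left _ h
    · exact mem_union_right _ (mem_biUnion.mpr ⟨t, ht, mem_sdiff.mpr
        ⟨mem_image.mpr ⟨a, ha, (div_eq_mul_inv _ _).symm⟩, h⟩⟩)
  exact_mod_cast (card_le_card this).trans ((card_union_le _ _).trans
    (Nat.add_le_add_left card_biUnion_le _))

theorem sub_le {ι κ : Type*} {l : Filter ι} [l.NeBot] {F : ι → Finset G}
    (hne : ∀ i, (F i).Nonempty)
    (hF : ∀ g : G, Tendsto (fun i => (#((F i).image (· * g) \ F i) : ℝ) / #(F i)) l (𝓝 0))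
    (H : Subgroup G) {l' : Filter κ} [l'.NeBot] {E : κ → Finset H} (hE : ∀ j, (E j).Nonempty)
    {X : Set A} (hX : X.Finite) (hX' : X.Nonempty) (S : Finset G) (hS : S.Nonempty)
    (hS' : ∀ s ∈ S, ∀ t ∈ S, s * t⁻¹ ∈ H → s = t) :
    #S * limsup (fun i => ENNReal.ofReal (ell (F i) X / #(F i))) l ≤
      limsup (fun j => ENNReal.ofReal (ell (E j) (∑ s ∈ S, s • X) / #(E j))) l' := by
  refine le_limsup_of_frequently_le (Frequently.of_forall fun j => ?_)
  have inj : Set.InjOn (fun p : H × G => p.1.1 * p.2) (E j ×ˢ S : Finset _) := by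
    rintro ⟨e, s⟩ h1 ⟨f, t⟩ h2 (h : e.1 * s = f.1 * t)
    obtain rfl := hS' s (mem_product.mp h1).2 t (mem_product.mp h2).2 (by
      rw [show s * t⁻¹ = e.1⁻¹ * f.1 by rw [eq_inv_mul_iff_mul_eq, ← mul_assoc, h]; simp]
      exact mul_mem (inv_mem e.2) f.2)
    exact Prod.ext (Subtype.ext (mul_right_cancel h)) rfl
  have h1 := inf_rule hne hF hX hX' ((E j ×ˢ S).image fun p : H × G => p.1.1 * p.2)
    (((hE j).product hS).image _)
  rw [card_image_of_injOn inj, card_product, ell, sum_image inj, sum_product] at h1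
  refine (mul_le_mul_right h1 _).trans (le_of_eq ?_)
  have h0 : (#S : ℝ) ≠ 0 := by exact_mod_cast hS.card_pos.ne'
  rw [← ENNReal.ofReal_natCast, ← ENNReal.ofReal_mul (by positivity), ell]
  simp only [smul_sum, mul_smul, Subgroup.smul_def]
  congr 1
  push_cast
  field_simp

theorem vanish (H : Subgroup G) (hH : H.index = 0) {a C : ℝ≥0∞} (hC : C ≠ ⊤)
    (h : ∀ S : Finset G, S.Nonempty → (∀ s ∈ S, ∀ t ∈ S, s * t⁻¹ ∈ H → s = t) → #S * a ≤ C) :
    a = 0 := by
  have := Subgroup.index_eq_zero_iff_infinite.mp hH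
  by_contra h0
  obtain ⟨k, hk⟩ := ENNReal.exists_nat_mul_gt h0 hC
  obtain ⟨Q, hQ⟩ := Infinite.exists_subset_card_eq (G ⧸ H) (k + 1)
  have h1 := h (Q.image fun q => q.out⁻¹) ((card_pos.mp (by omega)).image _) (by
    simp only [forall_mem_image, inv_inv]
    intro q _ r _ h
    rw [show q = r from q.out_eq'.symm.trans ((QuotientGroup.eq.mpr h).trans r.out_eq')])
  rw [card_image_of_injective (f := fun q : G ⧸ H => q.out⁻¹) _
    fun _ _ h => Quotient.out_injective (inv_injective h), hQ] at h1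
  exact hk.not_ge (le_trans (by gcongr; omega) h1)

lemma sum_subgroup (X : AddSubgroup A) (hX : Finite X) (S : Finset G) :
    ∃ Y : AddSubgroup A, Finite Y ∧ (Y : Set A) = ∑ s ∈ S, s • (X : Set A) := by
  refine Finset.sum_induction _ (fun Z => ∃ Y : AddSubgroup A, Finite Y ∧ (Y : Set A) = Z) ?_
    ⟨⊥, inferInstance, rfl⟩ fun s _ => ⟨s • X, Set.Finite.smul_set (s := (X : Set A)) hX, rfl⟩
  rintro _ _ ⟨Y, hY, rfl⟩ ⟨Z, hZ, rfl⟩
  refine ⟨Y ⊔ Z, ?_, AddSubgroup.add_normal ..⟩
  have : ((Y ⊔ Z : AddSubgroup A) : Set A).Finite := by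
    rw [AddSubgroup.add_normal]
    exact Set.Finite.add hY hZ
  exact this

lemma sum_fin {X : Set A} (hX : X.Finite ∧ X.Nonempty) (S : Finset G) :
    (∑ s ∈ S, s • X).Finite ∧ (∑ s ∈ S, s • X).Nonempty :=
  Finset.sum_induction (s := S) (fun g => g • X) (fun Y => Y.Finite ∧ Y.Nonempty)
    (fun _ _ h h' => ⟨h.1.add h'.1, h.2.add h'.2⟩) ⟨Set.finite_zero, Set.zero_nonempty⟩
    fun i _ => ⟨hX.1.smul_set, hX.2.smul_set⟩

lemma of_symmDiff {ι : Type*} {l : Filter ι} {F : ι → Finset G} {g : G}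
    (hF : Tendsto (fun i => (#(symmDiff ((F i).image (· * g)) (F i)) : ℝ) / #(F i)) l (𝓝 0)) :
    Tendsto (fun i => (#((F i).image (· * g) \ F i) : ℝ) / #(F i)) l (𝓝 0) :=
  squeeze_zero (fun _ => by positivity) (fun i => by gcongr; exact le_sup_left) hF

lemma of_filter {ι : Type*} {l : Filter ι} {F : ι → Finset G} {g : G}
    (hF : Tendsto (fun i => (#{s ∈ F i | ¬ ∀ e ∈ ({g} : Finset G), s * e ∈ F i} : ℝ) / #(F i)) l
      (𝓝 0)) :
    Tendsto (fun i => (#((F i).image (· * g) \ F i) : ℝ) / #(F i)) l (𝓝 0) := by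
  refine squeeze_zero (fun _ => by positivity) (fun i => ?_) hF
  gcongr ?_ / _
  refine Nat.cast_le.mpr (le_trans (card_le_card fun x hx => ?_) (card_image_le (f := (· * g))))
  obtain ⟨h1, h2⟩ := mem_sdiff.mp hx
  obtain ⟨s, hs, rfl⟩ := mem_image.mp h1
  exact mem_image.mpr ⟨s, mem_filter.mpr ⟨hs, by simpa using h2⟩, rfl⟩

end Pool.Agent.H19.Shearer
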