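import Mathlib

set_option autoImplicit false

/-! Boundedly oscillating functions on groups with many commuting elements. -/

namespace Pool.Agent.H19.SlowOsc

open Set Cardinal

universe u

section General

variable {G : Type u} {κ : Cardinal.{u}}

lemma pick {K N : Set G} (h : #N < #K) : ∃ k ∈ K, k ∉ N := by
  by_contra! h1
  exact h.not_ge (mk_le_mk_of_subset h1)

lemma un_le (hκ : ℵ₀ ≤ κ) {A B : Set G} (h1 : #A ≤ κ) (h2 : #B ≤ κ) : #(A ∪ B : Set G) ≤ κ :=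
  (mk_union_le A B).trans (add_le_of_le hκ h1 h2)

lemma un_lt (hκ : ℵ₀ ≤ κ) {A B : Set G} (h1 : #A < κ) (h2 : #B < κ) : #(A ∪ B : Set G) < κ :=
  (mk_union_le A B).trans_lt (add_lt_of_lt hκ h1 h2)

lemma biun_le (hκ : ℵ₀ ≤ κ) {T : Set G} (hT : #T ≤ κ) (A : G → Set G) (h : ∀ t ∈ T, #(A t) ≤ κ) :
    #(⋃ t ∈ T, A t) ≤ κ :=
  have h1 : ⨆ t : T, #(A t.1) ≤ κ := ciSup_le' fun t : T => h t.1 t.2
  (mk_biUnion_le A T).trans ((mul_le_mul' hT h1).trans (mul_eq_self hκ).le)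

variable [Group G] {f : G → ℝ} {C : ℝ}

/-- `f (k * x)` is within `r` of `c` for all but at most `κ` many `k ∈ K`. -/
def Val (κ : Cardinal.{u}) (f : G → ℝ) (K : Set G) (x : G) (c r : ℝ) : Prop :=
  #{k | k ∈ K ∧ r < |f (k * x) - c|} ≤ κ

lemma tr (hf : ∀ g, #{x | C < |f (g * x) - f x|} < κ) (g x : G) :
    #{k | C < |f (g * (k * x)) - f (k * x)|} < κ :=
  (mk_preimage_of_injective (· * x) _ (mul_left_injective x)).trans_lt (hf g)

lemma L1 (hκ : ℵ₀ ≤ κ) (hf : ∀ g, #{x | C < |f (g * x) - f x|} < κ) {K T : Set G} (hT : #T ≤ κ)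
    (hc : ∀ h ∈ T, ∀ k ∈ K, Commute h k) (x : G) :
    ∃ N : Set G, #N ≤ κ ∧ ∀ k ∈ K, k ∉ N → #{h | h ∈ T ∧ 2 * C < |f (h * x) - f (k * x)|} < κ := by
  refine ⟨_, biun_le hκ hT _ fun h _ => (tr hf h x).le, fun k hk hN =>
    (mk_le_mk_of_subset fun h hh => ?_).trans_lt (tr hf k x)⟩
  have h1 : |f (h * (k * x)) - f (k * x)| ≤ C := not_lt.mp fun h1 => hN (mem_biUnion hh.1 h1)
  rw [← mul_assoc, (hc h hh.1 k hk).eq, mul_assoc] at h1
  have := abs_sub_le (f (h * x)) (f (k * (h * x))) (f (k * x))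
  rw [abs_sub_comm (f (h * x)) (f (k * (h * x)))] at this
  change C < _
  linarith [hh.2]

lemma L3 (hκ : ℵ₀ ≤ κ) (hf : ∀ g, #{x | C < |f (g * x) - f x|} < κ) {K : Set G} (hK : κ < #K)
    {x : G} {c r : ℝ} (hv : Val κ f K x c r) :
    #{h | (∀ k ∈ K, Commute h k) ∧ r + 2 * C < |f (h * x) - c|} < κ := by
  by_contra! h
  obtain ⟨T, hT, h1⟩ := le_mk_iff_exists_subset.mp h
  obtain ⟨N, hN, h2⟩ := L1 hκ hf h1.le (fun h hh => (hT hh).1) x
  obtain ⟨k, hk, h3⟩ := pick ((un_le hκ hN hv).trans_lt hK)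
  obtain ⟨t, ht, h4⟩ := pick ((h2 k hk fun h => h3 (Or.inl h)).trans_eq h1.symm)
  have h5 : |f (k * x) - c| ≤ r := not_lt.mp fun h => h3 (Or.inr ⟨hk, h⟩)
  have h6 : |f (t * x) - f (k * x)| ≤ 2 * C := not_lt.mp fun h => h4 ⟨ht, h⟩
  linarith [(hT ht).2, abs_sub_le (f (t * x)) (f (k * x)) c]

lemma L2 (hκ : ℵ₀ ≤ κ) (hf : ∀ g, #{x | C < |f (g * x) - f x|} < κ) {K : Set G} (hK : κ < #K)
    (hH : κ ≤ #{h | ∀ k ∈ K, Commute h k}) (x : G) : ∃ c, Val κ f K x c (4 * C) := by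
  obtain ⟨T, hT, h1⟩ := le_mk_iff_exists_subset.mp hH
  obtain ⟨N, hN, h2⟩ := L1 hκ hf h1.le hT x
  obtain ⟨k₀, hk₀, h3⟩ := pick (hN.trans_lt hK)
  refine ⟨f (k₀ * x), (mk_le_mk_of_subset fun k hk => by_contra fun h4 => ?_).trans hN⟩
  obtain ⟨t, ht, h5⟩ := pick ((un_lt hκ (h2 k hk.1 h4) (h2 k₀ hk₀ h3)).trans_eq h1.symm)
  have h6 : |f (t * x) - f (k * x)| ≤ 2 * C := not_lt.mp fun h => h5 (Or.inl ⟨ht, h⟩)
  have h7 : |f (t * x) - f (k₀ * x)| ≤ 2 * C := not_lt.mp fun h => h5 (Or.inr ⟨ht, h⟩)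
  rw [abs_sub_comm] at h6
  linarith [hk.2, abs_sub_le (f (k * x)) (f (t * x)) (f (k₀ * x))]

lemma conj_inj (g : G) : Function.Injective fun k => g * k * g⁻¹ := fun _ _ h => by simpa using h

lemma L4 (hκ : ℵ₀ ≤ κ) (hf : ∀ g, #{x | C < |f (g * x) - f x|} < κ) {K : Set G} {g : G} {c r : ℝ}
    (hv : Val κ f K g c r) : Val κ f {k | g * k * g⁻¹ ∈ K} 1 c (r + C) := by
  refine (mk_le_mk_of_subset fun k hk => ?_).trans
    (un_le hκ ((mk_preimage_of_injective _ _ (conj_inj g)).trans hv) (hf g).le)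
  by_contra h
  have h1 : |f (g * k * g⁻¹ * g) - c| ≤ r := not_lt.mp fun h1 => h (Or.inl ⟨hk.1, h1⟩)
  have h2 : |f (g * k) - f k| ≤ C := not_lt.mp fun h1 => h (Or.inr h1)
  have h3 := hk.2
  rw [inv_mul_cancel_right] at h1
  rw [mul_one] at h3
  rw [abs_sub_comm] at h2
  linarith [abs_sub_le (f k) (f (g * k)) c]

theorem main (hκ : ℵ₀ ≤ κ) (hC : 0 ≤ C) (hf : ∀ g, #{x | C < |f (g * x) - f x|} < κ) (K : Set G)
    (hK : κ < #K) (hH : κ ≤ #{h | ∀ k ∈ K, Commute h k})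
    (hg : ∀ g, κ < #{k | k ∈ K ∧ g * k * g⁻¹ ∈ K} ∨
      κ < #{k | k ∈ K ∧ ∀ k', g * k' * g⁻¹ ∈ K → Commute k k'}) :
    ∃ c, #{x | 16 * C < |f x - c|} < κ := by
  choose c hc using L2 hκ hf hK hH
  have h1 : ∀ g, |c g - c 1| ≤ 11 * C := by
    intro g
    have h2 := L4 hκ hf (hc g)
    rcases hg g with h | h
    · obtain ⟨k, hk, h3⟩ := pick ((un_le hκ h2 (hc 1)).trans_lt h)
      have h4 : |f (k * 1) - c g| ≤ 4 * C + C := not_lt.mp fun h => h3 (Or.inl ⟨hk.2, h⟩)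
      have h5 : |f (k * 1) - c 1| ≤ 4 * C := not_lt.mp fun h => h3 (Or.inr ⟨hk.1, h⟩)
      rw [abs_sub_comm] at h4
      linarith [abs_sub_le (c g) (f (k * 1)) (c 1)]
    · have hK' : κ < #{k | g * k * g⁻¹ ∈ K} := hK.trans_le
        (mk_le_of_injective (f := fun k => ⟨g⁻¹ * k.1 * g, by simp [mul_assoc]⟩)
          fun a b h => Subtype.ext (by simpa using h))
      obtain ⟨k, hk, h3⟩ := pick ((un_le hκ (L3 hκ hf hK' h2).le (hc 1)).trans_lt h)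
      have h4 : |f (k * 1) - c g| ≤ 4 * C + C + 2 * C := not_lt.mp fun h => h3 (Or.inl ⟨hk.2, h⟩)
      have h5 : |f (k * 1) - c 1| ≤ 4 * C := not_lt.mp fun h => h3 (Or.inr ⟨hk.1, h⟩)
      rw [abs_sub_comm] at h4
      linarith [abs_sub_le (c g) (f (k * 1)) (c 1)]
  refine ⟨c 1, ?_⟩
  by_contra! h
  obtain ⟨T, hT, h2⟩ := le_mk_iff_exists_subset.mp h
  obtain ⟨k, hk, h3⟩ := pick ((biun_le hκ h2.le _ fun z _ => hc z).trans_lt hK)
  obtain ⟨z, hz, h4⟩ := pick ((hf k).trans_eq h2.symm)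
  have h5 : |f (k * z) - c z| ≤ 4 * C := not_lt.mp fun h => h3 (mem_biUnion hz ⟨hk, h⟩)
  have h6 : |f (k * z) - f z| ≤ C := not_lt.mp h4
  have h7 : 16 * C < |f z - c 1| := hT hz
  rw [abs_sub_comm] at h6
  linarith [h1 z, abs_sub_le (f z) (f (k * z)) (c 1), abs_sub_le (f (k * z)) (c z) (c 1)]

/-- Slowly oscillating version. -/
theorem const (hf : ∀ g, ∀ ε > 0, {x | ε < |f (g * x) - f x|}.Finite) (K : Set G)
    (hK : ¬ K.Countable) (hH : {h | ∀ k ∈ K, Commute h k}.Infinite)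
    (hg : ∀ g, ¬ {k | k ∈ K ∧ g * k * g⁻¹ ∈ K}.Countable ∨
      ¬ {k | k ∈ K ∧ ∀ k', g * k' * g⁻¹ ∈ K → Commute k k'}.Countable) :
    ∃ c, Filter.Tendsto f Filter.cofinite (nhds c) := by
  have : Infinite G := infinite_univ_iff.mp (hH.mono (subset_univ _))
  have e : ∀ S : Set G, ¬ S.Countable → ℵ₀ < #S := fun S h => by
    rwa [← le_aleph0_iff_set_countable, not_le] at h
  rw [← cauchy_map_iff_exists_tendsto, Metric.cauchy_iff]
  refine ⟨inferInstance, fun ε hε => ?_⟩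
  obtain ⟨c, hc⟩ := main (C := ε / 64) le_rfl (by positivity)
    (fun g => lt_aleph0_iff_set_finite.mpr (hf g _ (by positivity))) K (e _ hK)
    (infinite_iff.mp hH.to_subtype) fun g => (hg g).imp (e _) (e _)
  refine ⟨Metric.closedBall c (ε / 4), (lt_aleph0_iff_set_finite.mp hc).subset fun x hx => ?_,
    fun a ha b hb => ?_⟩
  · have : ε / 4 < |f x - c| := by simpa [Real.dist_eq] using hx
    change 16 * (ε / 64) < |f x - c|
    linarith
  · linarith [dist_triangle_right a b c, Metric.mem_closedBall.mp ha, Metric.mem_closedBall.mp hb]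

end General

section Perm

variable {X : Type u}

/-- Permutations supported on `Δ`. -/
def Sp (Δ : Set X) : Set (Equiv.Perm X) := {σ | ∀ x ∉ Δ, σ x = x}

lemma Sp_card {Δ : Set X} (h : Δ.Infinite) : 𝔠 ≤ #(Sp Δ) := by
  classical
  have := h.to_subtype
  calc 𝔠 = 2 ^ ℵ₀ := two_power_aleph0.symm
    _ ≤ 2 ^ #Δ := power_le_power_left two_ne_zero (aleph0_le_mk Δ)
    _ = #(Equiv.Perm Δ) := mk_perm_eq_two_power.symm
    _ ≤ _ := mk_le_of_injective (f := fun σ => ⟨Equiv.Perm.ofSubtype σ, fun x hx =>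
        Equiv.Perm.ofSubtype_apply_of_not_mem σ hx⟩) fun a b h =>
          Equiv.Perm.ofSubtype_injective (congrArg Subtype.val h)

lemma Sp_comm {Δ Δ' : Set X} (h : Disjoint Δ Δ') {a b : Equiv.Perm X} (ha : a ∈ Sp Δ)
    (hb : b ∈ Sp Δ') : Commute a b :=
  Equiv.Perm.Disjoint.commute fun x => (em (x ∈ Δ)).elim
    (fun hx => Or.inr (hb x (disjoint_left.mp h hx))) fun hx => Or.inl (ha x hx)

lemma perm [Infinite X] : ∃ K : Set (Equiv.Perm X), 𝔠 ≤ #K ∧ 𝔠 ≤ #{h | ∀ k ∈ K, Commute h k} ∧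
    ∀ g, 𝔠 ≤ #{k | k ∈ K ∧ g * k * g⁻¹ ∈ K} ∨
      𝔠 ≤ #{k | k ∈ K ∧ ∀ k', g * k' * g⁻¹ ∈ K → Commute k k'} := by
  let e := Infinite.natEmbedding X
  let Δ : Set X := range fun n => e (2 * n)
  have h1 : Δ.Infinite := infinite_range_of_injective fun a b h => by simpa using h
  have h2 : Δᶜ.Infinite := infinite_of_injective_forall_mem (f := fun n => e (2 * n + 1))
    (fun a b h => by simpa using h) (by rintro n ⟨m, h⟩; have := e.injective h; omega)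
  have hc : ∀ (g k : Equiv.Perm X), g * k * g⁻¹ ∈ Sp Δ ↔ k ∈ Sp (g ⁻¹' Δ) := fun g k =>
    ⟨fun h x hx => by simpa using h (g x) hx, fun h x hx => by
      rw [Equiv.Perm.mul_apply, Equiv.Perm.mul_apply, h (g⁻¹ x) (by simpa using hx)]
      simp⟩
  refine ⟨Sp Δ, Sp_card h1, (Sp_card h2).trans (mk_le_mk_of_subset fun h hh k hk =>
    Sp_comm disjoint_compl_left hh hk), fun g => ?_⟩
  rcases infinite_union.mp (h1.mono (inter_union_sdiff Δ (g ⁻¹' Δ)).ge) with h | h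
  · exact Or.inl ((Sp_card h).trans (mk_le_mk_of_subset fun k hk =>
      ⟨fun x hx => hk x fun h => hx h.1, (hc g k).mpr fun x hx => hk x fun h => hx h.2⟩))
  · exact Or.inr ((Sp_card h).trans (mk_le_mk_of_subset fun k hk =>
      ⟨fun x hx => hk x fun h => hx h.1, fun k' hk' =>
        Sp_comm disjoint_sdiff_left hk ((hc g k').mp hk')⟩))

end Perm

end Pool.Agent.H19.SlowOsc
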