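import Mathlib

set_option autoImplicit false

namespace Pool.Agent.H19.TDPair

section alg

variable {M : Type} [Ring M] [Algebra ℂ M]

/-- The q-Weyl expression at `q = 2`. -/
def Wy (x y : M) : M := (4 : ℂ) • (x * y) - y * x - (3 : ℂ) • 1

/-- The q-Serre expression at `q = 2`. -/
def Se (x y : M) : M := (4 : ℂ) • (x * x * x * y) - (21 : ℂ) • (x * x * y * x) +
  (21 : ℂ) • (x * y * x * x) - (4 : ℂ) • (y * x * x * x)

/-- The tridiagonal expression at `q = 2`. -/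
def TD (u T : M) (e : ℂ) : M := (16 : ℂ) • (u * u * u * T) - (84 : ℂ) • (u * u * T * u) +
  (84 : ℂ) • (u * T * u * u) - (16 : ℂ) • (T * u * u * u) + (225 * e) • (u * T - T * u)

lemma td1 (x z w : M) (a b : ℂ) (h1 : Wy z w = 0) (h2 : Wy w x = 0) (h3 : Se z x = 0) :
    TD (a • z + b • w) x (a * b) = 0 := by
  have : ∀ R1 R2 S : M, R1 = Wy z w → R2 = Wy w x → S = Se z x →
      TD (a • z + b • w) x (a * b) = ((16 : ℂ) * (a ^ 0 * b ^ 3)) • (R2 * w * w) +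
      ((-20 : ℂ) * (a ^ 0 * b ^ 3)) • (w * R2 * w) +
      ((4 : ℂ) * (a ^ 0 * b ^ 3)) • (w * w * R2) +
      ((-80 : ℂ) * (a ^ 1 * b ^ 2)) • (R1 * w * x) +
      ((84 : ℂ) * (a ^ 1 * b ^ 2)) • (R1 * x * w) +
      ((-16 : ℂ) * (a ^ 1 * b ^ 2)) • (w * R1 * x) +
      ((-4 : ℂ) * (a ^ 1 * b ^ 2)) • (x * R1 * w) +
      ((-63 : ℂ) * (a ^ 1 * b ^ 2)) • (w * x * R1) +
      ((16 : ℂ) * (a ^ 1 * b ^ 2)) • (x * w * R1) +
      ((84 : ℂ) * (a ^ 1 * b ^ 2)) • (R2 * z * w) +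
      ((-84 : ℂ) * (a ^ 1 * b ^ 2)) • (z * R2 * w) +
      ((-21 : ℂ) * (a ^ 1 * b ^ 2)) • (w * R2 * z) +
      ((84 : ℂ) * (a ^ 1 * b ^ 2)) • (z * w * R2) +
      ((63 : ℂ) * (a ^ 1 * b ^ 2)) • (R1) +
      ((-63 : ℂ) * (a ^ 1 * b ^ 2)) • (R2) +
      ((-16 : ℂ) * (a ^ 2 * b ^ 1)) • (R1 * z * x) +
      ((84 : ℂ) * (a ^ 2 * b ^ 1)) • (R1 * x * z) +
      ((-80 : ℂ) * (a ^ 2 * b ^ 1)) • (z * R1 * x) +
      ((-5 : ℂ) * (a ^ 2 * b ^ 1)) • (x * R1 * z) +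
      ((21 : ℂ) * (a ^ 2 * b ^ 1)) • (z * x * R1) +
      ((-4 : ℂ) * (a ^ 2 * b ^ 1)) • (x * z * R1) +
      ((21 : ℂ) * (a ^ 2 * b ^ 1)) • (R2 * z * z) +
      ((-105 : ℂ) * (a ^ 2 * b ^ 1)) • (z * R2 * z) +
      ((84 : ℂ) * (a ^ 2 * b ^ 1)) • (z * z * R2) +
      (4 * (a ^ 3 * b ^ 0)) • S := by
    rintro _ _ _ rfl rfl rfl
    simp only [TD, Wy, Se, mul_add, add_mul, mul_sub, sub_mul, mul_smul_comm, smul_mul_assoc,
      mul_one, one_mul, mul_assoc]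
    module
  rw [this 0 0 0 h1.symm h2.symm h3.symm]
  simp

lemma td2 (y z w : M) (a b : ℂ) (h1 : Wy z w = 0) (h2 : Wy y z = 0) (h3 : Se w y = 0) :
    TD (a • z + b • w) y (a * b) = 0 := by
  have : ∀ R1 R3 S : M, R1 = Wy z w → R3 = Wy y z → S = Se w y →
      TD (a • z + b • w) y (a * b) = (4 * (a ^ 0 * b ^ 3)) • S +
      ((4 : ℂ) * (a ^ 1 * b ^ 2)) • (R1 * w * y) +
      ((-21 : ℂ) * (a ^ 1 * b ^ 2)) • (R1 * y * w) +
      ((5 : ℂ) * (a ^ 1 * b ^ 2)) • (w * R1 * y) +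
      ((80 : ℂ) * (a ^ 1 * b ^ 2)) • (y * R1 * w) +
      ((-84 : ℂ) * (a ^ 1 * b ^ 2)) • (w * y * R1) +
      ((16 : ℂ) * (a ^ 1 * b ^ 2)) • (y * w * R1) +
      ((-84 : ℂ) * (a ^ 1 * b ^ 2)) • (R3 * w * w) +
      ((105 : ℂ) * (a ^ 1 * b ^ 2)) • (w * R3 * w) +
      ((-21 : ℂ) * (a ^ 1 * b ^ 2)) • (w * w * R3) +
      ((-16 : ℂ) * (a ^ 2 * b ^ 1)) • (R1 * z * y) +
      ((63 : ℂ) * (a ^ 2 * b ^ 1)) • (R1 * y * z) +
      ((4 : ℂ) * (a ^ 2 * b ^ 1)) • (z * R1 * y) +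
      ((16 : ℂ) * (a ^ 2 * b ^ 1)) • (y * R1 * z) +
      ((-84 : ℂ) * (a ^ 2 * b ^ 1)) • (z * y * R1) +
      ((80 : ℂ) * (a ^ 2 * b ^ 1)) • (y * z * R1) +
      ((-84 : ℂ) * (a ^ 2 * b ^ 1)) • (R3 * z * w) +
      ((84 : ℂ) * (a ^ 2 * b ^ 1)) • (z * R3 * w) +
      ((21 : ℂ) * (a ^ 2 * b ^ 1)) • (w * R3 * z) +
      ((-84 : ℂ) * (a ^ 2 * b ^ 1)) • (z * w * R3) +
      ((-63 : ℂ) * (a ^ 2 * b ^ 1)) • (R1) +
      ((63 : ℂ) * (a ^ 2 * b ^ 1)) • (R3) +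
      ((-4 : ℂ) * (a ^ 3 * b ^ 0)) • (R3 * z * z) +
      ((20 : ℂ) * (a ^ 3 * b ^ 0)) • (z * R3 * z) +
      ((-16 : ℂ) * (a ^ 3 * b ^ 0)) • (z * z * R3) := by
    rintro _ _ _ rfl rfl rfl
    simp only [TD, Wy, Se, mul_add, add_mul, mul_sub, sub_mul, mul_smul_comm, smul_mul_assoc,
      mul_one, one_mul, mul_assoc]
    module
  rw [this 0 0 0 h1.symm h2.symm h3.symm]
  simp

lemma td3 (u x y : M) (a b c e : ℂ) :
    TD u (a • x + b • y + c • 1) e = a • TD u x e + b • TD u y e := by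
  simp only [TD, mul_add, add_mul, mul_smul_comm, smul_mul_assoc, mul_one, one_mul, mul_assoc]
  module

end alg

/-- The first matrix. -/
def MA : Matrix (Fin 3) (Fin 3) ℂ := !![0, 9, 0; 5, 0, 12; 0, 15, 0]

/-- The second matrix. -/
def MB : Matrix (Fin 3) (Fin 3) ℂ := !![16, 0, 0; 0, 4, 0; 0, 0, 1]

lemma core (x y z w : Matrix (Fin 3) (Fin 3) ℂ) (a b c a' b' c' : ℂ)
    (hyz : Wy y z = 0) (hzw : Wy z w = 0) (hwx : Wy w x = 0)
    (hzx : Se z x = 0) (hwy : Se w y = 0)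
    (hA : MA = a • x + b • y + c • 1) (hB : MB = a' • z + b' • w + c' • 1) : False := by
  have h1 : TD (MB - c' • 1) MA (a' * b') = 0 := by
    rw [hA, td3, hB, add_sub_cancel_right, td1 x z w a' b' hzw hwx hzx,
      td2 y z w a' b' hzw hyz hwy]
    simp
  have e1 := congrFun (congrFun h1 0) 1
  have e2 := congrFun (congrFun h1 1) 2
  simp only [TD, Matrix.add_apply, Matrix.sub_apply, Matrix.smul_apply, Matrix.mul_apply,
    Fin.sum_univ_three] at e1 e2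
  simp [MA, MB] at e1 e2
  have hc : c' = 0 := by grind
  subst hc
  have hab : a' * b' = 0 := by grind
  have ent : ∀ {P Q : Matrix (Fin 3) (Fin 3) ℂ}, P = Q → ∀ i j, P i j = Q i j :=
    fun h i j => by rw [h]
  have A := ent hA
  have B := ent hB
  have Y := ent hyz
  have Z := ent hzw
  have W := ent hwx
  simp only [Fin.forall_fin_succ, Fin.succ_zero_eq_one, Fin.succ_one_eq_two,
    IsEmpty.forall_iff, and_true] at A B Y Z W
  simp only [Wy, Matrix.add_apply, Matrix.sub_apply, Matrix.smul_apply, Matrix.mul_apply,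
    Fin.sum_univ_three] at A B Y Z W
  simp [MA, MB] at A B Y Z W
  obtain ⟨⟨A00, -, A02⟩, ⟨A10, A11, A12⟩, A20, A21, A22⟩ := id A
  obtain ⟨⟨-, A01, -⟩, -⟩ := A
  obtain ⟨⟨B00, B01, B02⟩, ⟨B10, B11, B12⟩, B20, B21, B22⟩ := B
  obtain ⟨⟨Y00, Y01, Y02⟩, ⟨Y10, Y11, Y12⟩, Y20, Y21, Y22⟩ := Y
  obtain ⟨⟨Z00, Z01, Z02⟩, ⟨Z10, Z11, Z12⟩, Z20, Z21, Z22⟩ := Z
  obtain ⟨⟨W00, W01, W02⟩, ⟨W10, W11, W12⟩, W20, W21, W22⟩ := W
  clear hyz hzw hwx hzx hwy hA hB h1 e1 e2 ent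
  rcases mul_eq_zero.1 hab with rfl | rfl
  · simp only [zero_mul, zero_add] at B00 B01 B02 B10 B11 B12 B20 B21 B22
    have hb : b' ≠ 0 := by rintro rfl; simp at B22
    have w01 : w 0 1 = 0 := by grind
    have w02 : w 0 2 = 0 := by grind
    have w10 : w 1 0 = 0 := by grind
    have w12 : w 1 2 = 0 := by grind
    have w20 : w 2 0 = 0 := by grind
    have w21 : w 2 1 = 0 := by grind
    simp only [w01, w02, w10, w12, w20, w21, mul_zero, zero_mul, add_zero, zero_add] at *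
    have z00 : 16 * z 0 0 = b' := by grind
    have z11 : 4 * z 1 1 = b' := by grind
    have z22 : z 2 2 = b' := by grind
    have z10 : z 1 0 = 0 := by grind
    have z20 : z 2 0 = 0 := by grind
    have z21 : z 2 1 = 0 := by grind
    have z02 : z 0 2 = 0 := by grind
    have x00 : 16 * x 0 0 = b' := by grind
    have x11 : 4 * x 1 1 = b' := by grind
    have x22 : x 2 2 = b' := by grind
    have x01 : x 0 1 = 0 := by grind
    have x02 : x 0 2 = 0 := by grind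
    have x12 : x 1 2 = 0 := by grind
    simp only [z10, z20, z21, z02, x01, x02, x12, mul_zero, zero_mul, add_zero, zero_add] at *
    clear Z00 Z01 Z02 Z10 Z11 Z12 Z20 Z21 Z22 W00 W01 W02 W10 W11 W12 W20 W21 W22
    clear Y00 Y10 Y11 Y20 Y21 Y22 A10 A20 A21 B00 B11 B22
    grind
  · simp only [zero_mul, add_zero] at B00 B01 B02 B10 B11 B12 B20 B21 B22
    have hb : a' ≠ 0 := by rintro rfl; simp at B22
    have z01 : z 0 1 = 0 := by grind
    have z02 : z 0 2 = 0 := by grind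
    have z10 : z 1 0 = 0 := by grind
    have z12 : z 1 2 = 0 := by grind
    have z20 : z 2 0 = 0 := by grind
    have z21 : z 2 1 = 0 := by grind
    simp only [z01, z02, z10, z12, z20, z21, mul_zero, zero_mul, add_zero, zero_add] at *
    have w00 : 16 * w 0 0 = a' := by grind
    have w11 : 4 * w 1 1 = a' := by grind
    have w22 : w 2 2 = a' := by grind
    have w01 : w 0 1 = 0 := by grind
    have w02 : w 0 2 = 0 := by grind
    have w12 : w 1 2 = 0 := by grind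
    have w20 : w 2 0 = 0 := by grind
    have y00 : 16 * y 0 0 = a' := by grind
    have y11 : 4 * y 1 1 = a' := by grind
    have y22 : y 2 2 = a' := by grind
    have y10 : y 1 0 = 0 := by grind
    have y20 : y 2 0 = 0 := by grind
    have y21 : y 2 1 = 0 := by grind
    simp only [w01, w02, w12, w20, y10, y20, y21, mul_zero, zero_mul, add_zero, zero_add] at *
    clear Z00 Z01 Z02 Z10 Z11 Z12 Z20 Z21 Z22 Y00 Y01 Y02 Y10 Y11 Y12 Y20 Y21 Y22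
    clear W00 W01 W11 W02 W12 W22 A01 A02 A12 B00 B11 B22
    grind

lemma cond (A B : Module.End ℂ (Fin 3 → ℂ)) (θ : Fin 3 → ℂ) (v : Fin 3 → Fin 3 → ℂ)
    (hθ : Function.Injective θ) (hv : ∀ i, A (v i) = θ i • v i) (h0 : ∀ i, v i ≠ 0)
    (hs : ∀ i u, A u = θ i • u → ∃ c : ℂ, u = c • v i)
    (ht : ∀ u, ∃ a b c : ℂ, u = a • v 0 + b • v 1 + c • v 2)
    (h1 : ∃ a b : ℂ, B (v 0) = a • v 0 + b • v 1) (h2 : ∃ a b : ℂ, B (v 2) = a • v 1 + b • v 2) :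
    ∃ d : ℕ, ∃ θ : Fin (d + 1) → ℂ, Function.Injective θ ∧
        (∀ i, Module.End.eigenspace A (θ i) ≠ ⊥) ∧
        (⨆ i, Module.End.eigenspace A (θ i)) = ⊤ ∧
        ∀ i : Fin (d + 1), Submodule.map B (Module.End.eigenspace A (θ i)) ≤
          ⨆ (j : Fin (d + 1)) (_ : (j : ℕ) ≤ (i : ℕ) + 1 ∧ (i : ℕ) ≤ (j : ℕ) + 1),
            Module.End.eigenspace A (θ j) := by
  have hm : ∀ i, v i ∈ Module.End.eigenspace A (θ i) := fun i =>
    Module.End.mem_eigenspace_iff.2 (hv i)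
  refine ⟨2, θ, hθ, fun i h => h0 i (by simpa [h] using hm i), ?_, fun i => ?_⟩
  · rw [eq_top_iff]
    rintro u -
    obtain ⟨a, b, c, rfl⟩ := ht u
    have := fun i => Submodule.mem_iSup_of_mem (p := fun i => Module.End.eigenspace A (θ i)) i
      (hm i)
    exact add_mem (add_mem (Submodule.smul_mem _ _ (this 0)) (Submodule.smul_mem _ _ (this 1)))
      (Submodule.smul_mem _ _ (this 2))
  · rintro _ ⟨u, hu, rfl⟩
    obtain ⟨c, rfl⟩ := hs i u (Module.End.mem_eigenspace_iff.1 hu)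
    rw [map_smul]
    refine Submodule.smul_mem _ _ ?_
    have : ∀ j : Fin 3, ((j : ℕ) ≤ (i : ℕ) + 1 ∧ (i : ℕ) ≤ (j : ℕ) + 1) → v j ∈
        ⨆ (j : Fin 3) (_ : (j : ℕ) ≤ (i : ℕ) + 1 ∧ (i : ℕ) ≤ (j : ℕ) + 1),
          Module.End.eigenspace A (θ j) := fun j hj =>
      Submodule.mem_iSup_of_mem j (Submodule.mem_iSup_of_mem hj (hm j))
    fin_cases i
    · obtain ⟨a, b, h⟩ := h1
      exact h ▸ add_mem (Submodule.smul_mem _ _ (this 0 (by simp)))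
        (Submodule.smul_mem _ _ (this 1 (by simp)))
    · obtain ⟨a, b, c, h⟩ := ht (B (v 1))
      exact h ▸ add_mem (add_mem (Submodule.smul_mem _ _ (this 0 (by simp)))
        (Submodule.smul_mem _ _ (this 1 (by simp)))) (Submodule.smul_mem _ _ (this 2 (by simp)))
    · obtain ⟨a, b, h⟩ := h2
      exact h ▸ add_mem (Submodule.smul_mem _ _ (this 1 (by simp)))
        (Submodule.smul_mem _ _ (this 2 (by simp)))

lemma A_apply (u : Fin 3 → ℂ) :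
    Matrix.toLin' MA u = ![9 * u 1, 5 * u 0 + 12 * u 2, 15 * u 1] := by
  ext i
  fin_cases i <;> simp [MA, Matrix.mulVec, dotProduct, Fin.sum_univ_three]

lemma B_apply (u : Fin 3 → ℂ) : Matrix.toLin' MB u = ![16 * u 0, 4 * u 1, u 2] := by
  ext i
  fin_cases i <;> simp [MB, Matrix.mulVec, dotProduct, Fin.sum_univ_three]

lemma ext3 {u v : Fin 3 → ℂ} : u = v ↔ u 0 = v 0 ∧ u 1 = v 1 ∧ u 2 = v 2 := by
  simp [funext_iff, Fin.forall_fin_succ]

lemma irr (W : Submodule ℂ (Fin 3 → ℂ)) (hA : ∀ v ∈ W, Matrix.toLin' MA v ∈ W)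
    (hB : ∀ v ∈ W, Matrix.toLin' MB v ∈ W) : W = ⊥ ∨ W = ⊤ := by
  have p : ∀ v ∈ W, ![v 0, 0, 0] ∈ W ∧ ![0, v 1, 0] ∈ W ∧ ![0, 0, v 2] ∈ W := fun v hv => by
    have h1 := hB v hv
    have h2 := hB _ h1
    have k : ∀ a b c : ℂ, a • v + b • Matrix.toLin' MB v +
        c • Matrix.toLin' MB (Matrix.toLin' MB v) ∈ W := fun a b c =>
      add_mem (add_mem (W.smul_mem _ hv) (W.smul_mem _ h1)) (W.smul_mem _ h2)
    refine ⟨?_, ?_, ?_⟩
    · convert k (4 / 180) (-5 / 180) (1 / 180) using 1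
      simp only [B_apply, ext3, Pi.add_apply, Pi.smul_apply]
      simp
      refine ⟨?_, ?_, ?_⟩ <;> ring
    · convert k (-16 / 36) (17 / 36) (-1 / 36) using 1
      simp only [B_apply, ext3, Pi.add_apply, Pi.smul_apply]
      simp
      refine ⟨?_, ?_, ?_⟩ <;> ring
    · convert k (64 / 45) (-20 / 45) (1 / 45) using 1
      simp only [B_apply, ext3, Pi.add_apply, Pi.smul_apply]
      simp
      refine ⟨?_, ?_, ?_⟩ <;> ring
  rw [or_iff_not_imp_left]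
  intro h
  obtain ⟨v, hv, h0⟩ := Submodule.exists_mem_ne_zero_of_ne_bot h
  obtain ⟨u, hu, h1⟩ : ∃ u ∈ W, u 1 ≠ 0 := by
    by_contra hc
    push Not at hc
    have a0 := hc _ (hA _ (p v hv).1)
    have a1 := hc _ hv
    have a2 := hc _ (hA _ (p v hv).2.2)
    rw [A_apply] at a0 a2
    simp at a0 a2
    exact h0 (ext3.2 ⟨a0, a1, a2⟩)
  have e1 := (p u hu).2.1
  have e0 := (p _ (hA _ e1)).1
  have e2 := (p _ (hA _ e1)).2.2
  rw [eq_top_iff]
  rintro t -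
  convert add_mem (add_mem (W.smul_mem (t 0 / (9 * u 1)) e0) (W.smul_mem (t 1 / u 1) e1))
    (W.smul_mem (t 2 / (15 * u 1)) e2) using 1
  simp only [A_apply, ext3, Pi.add_apply, Pi.smul_apply]
  simp [h1]

end Pool.Agent.H19.TDPair
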