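import Mathlib

open Filter Topology

namespace Pool.Agent.H19.TopRingEmb

section Abstract

variable {R : Type} [NonUnitalRing R] [TopologicalSpace R] [IsTopologicalRing R]

lemma nhds_sum (n : ℕ) (W : Set R) (hW : W ∈ 𝓝 (0 : R)) :
    ∃ W' ∈ 𝓝 (0 : R), ∀ x : ℕ → R, (∀ i < n, x i ∈ W') → ∑ i ∈ Finset.range n, x i ∈ W := by
  induction n generalizing W with
  | zero => exact ⟨Set.univ, univ_mem, fun x _ => by simpa using mem_of_mem_nhds hW⟩
  | succ n ih =>
    obtain ⟨V, hV, hVW⟩ := exists_nhds_zero_half hW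
    obtain ⟨V', hV', h⟩ := ih V hV
    refine ⟨V ∩ V', inter_mem hV hV', fun x hx => ?_⟩
    rw [Finset.sum_range_succ]
    exact hVW _ (h x fun i hi => (hx i (by omega)).2) _ (hx n (by omega)).1

theorem no_embedding {G : Type} [Group G] [TopologicalSpace G] [IsTopologicalGroup G] (g : G)
    (U0 : Set G) (hU0 : U0 ∈ 𝓝 (1 : G)) (hg : g ∉ U0)
    (H : ∀ U ∈ 𝓝 (1 : G), ∃ (N : ℕ) (t : G), t ^ N = g ∧ ∀ V ∈ 𝓝 (1 : G),
      ∃ p1 p2 p3 q1 q2 q3 c1 c2 c3 : G, p1 ∈ U ∧ p2 ∈ U ∧ p3 ∈ U ∧ q1 ∈ U ∧ q2 ∈ U ∧ q3 ∈ U ∧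
        c1 ∈ V ∧ c2 ∈ V ∧ c3 ∈ V ∧ Commute t p1 ∧ Commute t p2 ∧ Commute t p3 ∧
        p1 * q1 = 1 ∧ p1 * c1 * q1 = p2 * q2 ∧ p2 * c2 * q2 = p3 * q3 ∧ p3 * c3 * q3 = t)
    (f : G →ₙ* R) (hf : IsEmbedding f) : False := by
  have hc := hf.continuous
  rw [hf.isInducing.nhds_eq_comap, mem_comap] at hU0
  obtain ⟨T, hT, hTU⟩ := hU0
  have hW0 : {w : R | f 1 + w ∈ T} ∈ 𝓝 (0 : R) := by
    have : Tendsto (fun w : R => f 1 + w) (𝓝 0) (𝓝 (f 1)) := by
      have h1 : Continuous fun w : R => f 1 + w := by fun_prop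
      simpa using h1.tendsto 0
    exact this hT
  obtain ⟨W1, hW1, hsum3⟩ := nhds_sum 3 _ hW0
  have h3 : Tendsto (fun z : G × R × G => f z.1 * z.2.1 * f z.2.2) (𝓝 (1, 0, 1)) (𝓝 0) := by
    have h1 : Continuous fun z : G × R × G => f z.1 * z.2.1 * f z.2.2 := by fun_prop
    simpa using h1.tendsto (1, 0, 1)
  have h4 := h3 hW1
  rw [mem_map, nhds_prod_eq, nhds_prod_eq, mem_prod_iff] at h4
  obtain ⟨U1, hU1, B, hB, hUB⟩ := h4
  rw [mem_prod_iff] at hB
  obtain ⟨W2, hW2, U2, hU2, hWU⟩ := hB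
  obtain ⟨N, t, htN, H'⟩ := H (U1 ∩ U2) (inter_mem hU1 hU2)
  obtain ⟨W3, hW3, hsumN⟩ := nhds_sum N W2 hW2
  have hV : {v : G | ∀ j ∈ Finset.range N, f (t ^ j * v) - f (t ^ j) ∈ W3} ∈ 𝓝 (1 : G) := by
    have : ∀ j ∈ Finset.range N, {v : G | f (t ^ j * v) - f (t ^ j) ∈ W3} ∈ 𝓝 (1 : G) := by
      intro j _
      have h1 : Continuous fun v : G => f (t ^ j * v) - f (t ^ j) := by fun_prop
      have h2 := h1.tendsto 1
      simp only [mul_one, sub_self] at h2
      exact h2 hW3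
    exact (eventually_all_finset (Finset.range N)).2 this
  obtain ⟨p1, p2, p3, q1, q2, q3, c1, c2, c3, a1, a2, a3, b1, b2, b3, d1, d2, d3, e1, e2, e3,
    r0, r1, r2, r3⟩ := H' _ hV
  have key : ∀ p q c : G, p ∈ U1 ∩ U2 → q ∈ U1 ∩ U2 →
      (∀ j ∈ Finset.range N, f (t ^ j * c) - f (t ^ j) ∈ W3) → Commute t p →
      ∑ j ∈ Finset.range N, (f (t ^ j * (p * c * q)) - f (t ^ j * (p * q))) ∈ W1 := by
    intro p q c hp hq hc' hcm
    have e : ∑ j ∈ Finset.range N, (f (t ^ j * (p * c * q)) - f (t ^ j * (p * q)))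
        = f p * (∑ j ∈ Finset.range N, (f (t ^ j * c) - f (t ^ j))) * f q := by
      rw [Finset.mul_sum, Finset.sum_mul]
      refine Finset.sum_congr rfl fun j _ => ?_
      rw [mul_sub, sub_mul, ← map_mul, ← map_mul, ← map_mul, ← map_mul]
      have h1 := (hcm.pow_left j).eq
      congr 2
      · rw [← mul_assoc, ← mul_assoc, h1, mul_assoc p]
      · rw [← mul_assoc, h1]
    rw [e]
    have h5 : ∑ j ∈ Finset.range N, (f (t ^ j * c) - f (t ^ j)) ∈ W2 :=
      hsumN (fun j => f (t ^ j * c) - f (t ^ j)) fun i hi => hc' i (Finset.mem_range.2 hi)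
    exact hUB (Set.mk_mem_prod hp.1 (hWU (Set.mk_mem_prod h5 hq.2)))
  have s1 := key p1 q1 c1 a1 b1 d1 e1
  have s2 := key p2 q2 c2 a2 b2 d2 e2
  have s3 := key p3 q3 c3 a3 b3 d3 e3
  rw [r0, r1] at s1
  rw [r2] at s2
  rw [r3] at s3
  have := hsum3 (fun i => if i = 0 then _ else if i = 1 then _ else _) (fun i hi => by
    split_ifs
    · exact s1
    · exact s2
    · exact s3)
  simp only [Finset.sum_range_succ, Finset.sum_range_zero, zero_add, if_true, one_ne_zero,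
    if_false, OfNat.ofNat_ne_zero, OfNat.ofNat_ne_one, Set.mem_setOf_eq] at this
  rw [← Finset.sum_add_distrib, ← Finset.sum_add_distrib] at this
  have e : ∑ j ∈ Finset.range N, (f (t ^ j * (p2 * q2)) - f (t ^ j * 1)
      + (f (t ^ j * (p3 * q3)) - f (t ^ j * (p2 * q2))) + (f (t ^ j * t) - f (t ^ j * (p3 * q3))))
      = f g - f 1 := by
    rw [← htN, ← pow_zero t, ← Finset.sum_range_sub (fun j => f (t ^ j))]
    refine Finset.sum_congr rfl fun j _ => ?_
    rw [pow_zero, mul_one, pow_succ]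
    abel
  rw [e, add_sub_cancel] at this
  exact hg (hTU this)

end Abstract

/-- Increasing bijections of the line commuting with `x ↦ x + 1`. -/
def P : Subgroup (Equiv.Perm ℝ) where
  carrier := {g | StrictMono g ∧ ∀ x, g (x + 1) = g x + 1}
  mul_mem' := fun {a b} ha hb => ⟨ha.1.comp hb.1, fun x => by
    simp only [Equiv.Perm.mul_apply, hb.2, ha.2]⟩
  one_mem' := ⟨strictMono_id, fun _ => rfl⟩
  inv_mem' := fun {a} ha => ⟨fun x y h => by
    rw [← ha.1.lt_iff_lt]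
    simpa using h, fun x => by
    apply a.injective
    rw [ha.2]
    simp⟩

lemma per_int (g : P) (n : ℤ) (x : ℝ) : g.1 (x + n) = g.1 x + n := by
  induction n using Int.induction_on with
  | zero => simp
  | succ n ih => push_cast at ih ⊢; rw [← add_assoc, g.2.2, ih, add_assoc]
  | pred n ih =>
    push_cast at ih ⊢
    have := g.2.2 (x + (-n - 1))
    rw [show x + (-(n : ℝ) - 1) + 1 = x + -n by ring, ih] at this
    linarith

/-- Displacement at most `ε`. -/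
def Disp (g : P) (ε : ℝ) : Prop := ∀ x, |g.1 x - x| ≤ ε

lemma Disp.mul {g h : P} {a b : ℝ} (hg : Disp g a) (hh : Disp h b) : Disp (g * h) (a + b) := by
  intro x
  have h1 := hg (h.1 x)
  have h2 := hh x
  show |g.1 (h.1 x) - x| ≤ _
  rw [abs_le] at *
  constructor <;> linarith [h1.1, h1.2, h2.1, h2.2]

lemma Disp.inv {g : P} {a : ℝ} (hg : Disp g a) : Disp g⁻¹ a := by
  intro x
  have h1 := hg (g.1⁻¹ x)
  rw [abs_sub_comm]
  simpa using h1

lemma Disp.mono {g : P} {a b : ℝ} (hg : Disp g a) (h : a ≤ b) : Disp g b :=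
  fun x => (hg x).trans h

lemma unif (g : P) {ε : ℝ} (hε : 0 < ε) :
    ∃ δ > 0, ∀ x y, |x - y| ≤ δ → |g.1 x - g.1 y| ≤ ε := by
  have hc : Continuous g.1 := g.2.1.monotone.continuous_of_surjective g.1.surjective
  have hu := (isCompact_Icc (a := (-1 : ℝ)) (b := 2)).uniformContinuousOn_of_continuous
    hc.continuousOn
  obtain ⟨δ, hδ, h⟩ := Metric.uniformContinuousOn_iff_le.1 hu ε hε
  refine ⟨min δ 1, lt_min hδ one_pos, fun x y hxy => ?_⟩
  have h1 := Int.floor_le x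
  have h2 := Int.lt_floor_add_one x
  have h3 := abs_le.1 (hxy.trans (min_le_right _ _))
  have := h (x - ⌊x⌋) ⟨by linarith, by linarith⟩ (y - ⌊x⌋) ⟨by linarith, by linarith⟩ (by
    rw [Real.dist_eq, show x - ⌊x⌋ - (y - ⌊x⌋) = x - y by ring]
    exact hxy.trans (min_le_left _ _))
  rw [Real.dist_eq] at this
  have e1 := per_int g ⌊x⌋ (x - ⌊x⌋)
  have e2 := per_int g ⌊x⌋ (y - ⌊x⌋)
  rw [sub_add_cancel] at e1 e2
  rw [e1, e2]
  simpa using this

/-- The uniform neighbourhoods of the identity. -/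
@[reducible] def basis : GroupFilterBasis P where
  sets := {U | ∃ ε > 0, U = {g | Disp g ε}}
  nonempty := ⟨_, 1, one_pos, rfl⟩
  inter_sets := by
    rintro _ _ ⟨a, ha, rfl⟩ ⟨b, hb, rfl⟩
    exact ⟨_, ⟨min a b, lt_min ha hb, rfl⟩, fun g hg =>
      ⟨Disp.mono hg (min_le_left _ _), Disp.mono hg (min_le_right _ _)⟩⟩
  one' := by
    rintro _ ⟨a, ha, rfl⟩ x
    simpa using ha.le
  mul' := by
    rintro _ ⟨a, ha, rfl⟩
    refine ⟨_, ⟨a / 2, half_pos ha, rfl⟩, ?_⟩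
    rintro _ ⟨g, hg, h, hh, rfl⟩
    exact Disp.mono (Disp.mul hg hh) (by linarith)
  inv' := by
    rintro _ ⟨a, ha, rfl⟩
    exact ⟨_, ⟨a, ha, rfl⟩, fun g hg => Disp.inv hg⟩
  conj' := by
    rintro a _ ⟨ε, hε, rfl⟩
    obtain ⟨δ, hδ, h⟩ := unif a hε
    refine ⟨_, ⟨δ, hδ, rfl⟩, fun g hg x => ?_⟩
    have := h _ _ (hg (a.1⁻¹ x))
    simpa using this

/-- Translations. -/
def tr (w : ℝ) : P := ⟨Equiv.addRight w, fun x y h => by simpa using h, fun x => by
  simp only [Equiv.coe_addRight]; ring⟩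

@[simp] lemma tr_apply (w x : ℝ) : (tr w).1 x = x + w := rfl

lemma tr_pow (w : ℝ) (n : ℕ) : tr w ^ n = tr (n * w) := by
  induction n with
  | zero => ext x; simp
  | succ n ih =>
    rw [pow_succ, ih]
    ext x
    show x + w + n * w = x + ((n + 1 : ℕ) : ℝ) * w
    push_cast
    ring

lemma tr_comm (g : P) : Commute (tr 1) g := by
  ext x
  exact (g.2.2 x).symm

lemma disp_of_fix (g : P) (θ : ℝ) (w : ℝ) (h0 : 0 ≤ θ) (h1 : θ ≤ 1)
    (h : ∀ y, 0 ≤ y → y ≤ θ → g.1 (w + y) = w + y) : Disp g (1 - θ) := by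
  intro x
  have a1 := Int.floor_le (x - w)
  have a2 := Int.lt_floor_add_one (x - w)
  set n := ⌊x - w⌋
  have e := per_int g n (w + (x - w - n))
  rw [show w + (x - w - n) + n = x by ring] at e
  by_cases hy : x - w - n ≤ θ
  · rw [e, h _ (by linarith) hy, show w + (x - w - n) + n - x = 0 by ring, abs_zero]
    linarith
  · push Not at hy
    have b1 : g.1 (w + θ) ≤ g.1 (w + (x - w - n)) := g.2.1.monotone (by linarith)
    have b2 : g.1 (w + (x - w - n)) ≤ g.1 (w + 0 + 1) := g.2.1.monotone (by linarith)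
    rw [h θ h0 le_rfl] at b1
    rw [g.2.2, h 0 le_rfl h0] at b2
    rw [e, abs_le]
    constructor <;> linarith

/-- Periodic extension. -/
noncomputable def liftFun (e : ℝ ≃o ℝ) (x : ℝ) : ℝ := ⌊x⌋ + e (Int.fract x)

lemma lift_floor (e : ℝ ≃o ℝ) (h0 : e 0 = 0) (h1 : e 1 = 1) (x : ℝ) :
    0 ≤ e (Int.fract x) ∧ e (Int.fract x) < 1 :=
  ⟨h0 ▸ e.monotone (Int.fract_nonneg x), h1 ▸ e.strictMono (Int.fract_lt_one x)⟩

lemma lift_inv (e : ℝ ≃o ℝ) (h0 : e 0 = 0) (h1 : e 1 = 1) (x : ℝ) :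
    liftFun e.symm (liftFun e x) = x := by
  obtain ⟨a, b⟩ := lift_floor e h0 h1 x
  unfold liftFun
  rw [Int.floor_intCast_add, Int.fract_intCast_add, Int.floor_eq_zero_iff.2 ⟨a, b⟩,
    Int.fract_eq_self.2 ⟨a, b⟩]
  simp

/-- Periodic extension as a group element. -/
noncomputable def lift (e : ℝ ≃o ℝ) (h0 : e 0 = 0) (h1 : e 1 = 1) : P :=
  ⟨⟨liftFun e, liftFun e.symm, lift_inv e h0 h1,
    lift_inv e.symm (e.symm_apply_eq.2 h0.symm) (e.symm_apply_eq.2 h1.symm)⟩, fun x y hxy => by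
      show liftFun e x < liftFun e y
      obtain ⟨a, b⟩ := lift_floor e h0 h1 x
      obtain ⟨c, d⟩ := lift_floor e h0 h1 y
      unfold liftFun
      rcases (Int.floor_mono hxy.le).lt_or_eq with h | h
      · have : (⌊x⌋ : ℝ) + 1 ≤ ⌊y⌋ := by exact_mod_cast h
        linarith
      · have : Int.fract x < Int.fract y := by
          unfold Int.fract
          rw [h]
          linarith
        rw [h]
        linarith [e.strictMono this], fun x => by
      show liftFun e (x + 1) = liftFun e x + 1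
      unfold liftFun
      rw [Int.floor_add_one, Int.fract_add_one]
      push_cast
      ring⟩

lemma lift_apply (e : ℝ ≃o ℝ) (h0 : e 0 = 0) (h1 : e 1 = 1) {x : ℝ} (a : 0 ≤ x) (b : x < 1) :
    (lift e h0 h1).1 x = e x := by
  show liftFun e x = e x
  unfold liftFun
  rw [Int.floor_eq_zero_iff.2 ⟨a, b⟩, Int.fract_eq_self.2 ⟨a, b⟩]
  simp

/-- Identity up to `u`, slope `β` afterwards. -/
noncomputable def bend (u β : ℝ) (hβ : 0 < β) : ℝ ≃o ℝ :=
  StrictMono.orderIsoOfRightInverse (fun x => if x ≤ u then x else u + β * (x - u))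
    (fun x y h => by
      dsimp only
      split_ifs with h1 h2 h2
      · exact h
      · nlinarith
      · linarith
      · nlinarith)
    (fun x => if x ≤ u then x else u + β⁻¹ * (x - u))
    (fun x => by
      dsimp only
      by_cases h : x ≤ u
      · simp [h]
      · have h1 : 0 < β⁻¹ * (x - u) := mul_pos (inv_pos.2 hβ) (by linarith)
        rw [if_neg h, if_neg (by linarith)]
        field_simp
        ring)

lemma bend_le {u β : ℝ} (hβ : 0 < β) {x : ℝ} (h : x ≤ u) : bend u β hβ x = x := if_pos h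

lemma bend_ge {u β : ℝ} (hβ : 0 < β) {x : ℝ} (h : u ≤ x) : bend u β hβ x = u + β * (x - u) := by
  rcases h.lt_or_eq with h | h
  · exact if_neg (by linarith)
  · rw [bend_le hβ h.ge, h]; ring

lemma shrink (k : P) (w : ℝ) (w0 : 0 ≤ w) (w1 : w ≤ 1)
    (hk : ∀ y, 0 ≤ y → y ≤ 1 / 10 → k.1 (w + y) = w + y) (δ : ℝ) (d0 : 0 < δ) (d1 : δ < 1) :
    ∃ r : P, Disp r 2 ∧ Disp (r⁻¹ * k * r) δ := by
  have t0 : 0 < 1 - δ := by linarith
  have ha : 0 < 1 / (10 * (1 - δ)) := by positivity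
  have hb : 0 < 9 * (1 - δ) / δ := by positivity
  let e : ℝ ≃o ℝ := (OrderIso.mulLeft₀ _ ha).trans (bend (1 / 10) _ hb)
  have he : ∀ y, y ≤ 1 - δ → e y = 1 / (10 * (1 - δ)) * y := by
    intro y hy
    show bend _ _ hb (1 / (10 * (1 - δ)) * y) = _
    apply bend_le
    rw [div_mul_eq_mul_div, div_le_div_iff₀ (by positivity) (by positivity)]
    linarith
  have h0 : e 0 = 0 := by rw [he 0 t0.le, mul_zero]
  have h1 : e 1 = 1 := by
    show bend _ _ hb (1 / (10 * (1 - δ)) * 1) = _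
    rw [bend_ge]
    · field_simp
      ring
    · rw [mul_one, div_le_div_iff₀ (by positivity) (by positivity)]
      linarith
  refine ⟨tr w * lift e h0 h1, ?_, ?_⟩
  · have a1 : Disp (tr w) 1 := fun x => by simpa [abs_le] using ⟨by linarith, w1⟩
    have a2 := disp_of_fix (lift e h0 h1) 0 0 le_rfl zero_le_one fun y y0 y1 => by
      rw [le_antisymm y1 y0, add_zero, lift_apply _ _ _ le_rfl one_pos, h0]
    exact (a1.mul a2).mono (by norm_num)
  · have := disp_of_fix ((tr w * lift e h0 h1)⁻¹ * k * (tr w * lift e h0 h1)) (1 - δ) 0 t0.le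
      (by linarith) fun y y0 y1 => by
        have e1 : (tr w * lift e h0 h1).1 y = w + 1 / (10 * (1 - δ)) * y := by
          show (lift e h0 h1).1 y + w = _
          rw [lift_apply _ _ _ y0 (by linarith), he y y1, add_comm]
        rw [zero_add]
        show (tr w * lift e h0 h1).1⁻¹ (k.1 ((tr w * lift e h0 h1).1 y)) = y
        rw [e1, hk _ (by positivity) (by
          rw [div_mul_eq_mul_div, div_le_div_iff₀ (by positivity) (by positivity)]
          linarith), ← e1]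
        exact Equiv.symm_apply_apply _ _
    simpa using this

lemma factor : ∃ k1 k2 k3 : P, k1 * k2 * k3 = tr 1 ∧
    (∀ y, 0 ≤ y → y ≤ 1 / 10 → k1.1 (1 / 2 + y) = 1 / 2 + y) ∧
    (∀ y, 0 ≤ y → y ≤ 1 / 10 → k2.1 (0 + y) = 0 + y) ∧
    (∀ y, 0 ≤ y → y ≤ 1 / 10 → k3.1 (1 / 5 + y) = 1 / 5 + y) := by
  let e : ℝ ≃o ℝ := ((bend (1 / 10) 6 (by norm_num)).trans (bend (7 / 10) (1 / 6) (by norm_num))).trans
    (bend (8 / 10) (2 / 7) (by norm_num))
  have e1 : ∀ y, y ≤ 1 / 10 → e y = y := fun y hy => by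
    simp only [e, OrderIso.trans_apply]
    rw [bend_le (u := 1 / 10) _ hy, bend_le (u := 7 / 10) _ (by linarith),
      bend_le (u := 8 / 10) _ (by linarith)]
  have e2 : ∀ y, 0 ≤ y → y ≤ 1 / 10 → e (1 / 5 + y) = 7 / 10 + y := fun y y0 hy => by
    simp only [e, OrderIso.trans_apply]
    rw [bend_ge (u := 1 / 10) _ (by linarith), bend_ge (u := 7 / 10) _ (by linarith),
      bend_le _ (by linarith)]
    ring
  have h0 : e 0 = 0 := e1 0 (by norm_num)
  have h1 : e 1 = 1 := by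
    simp only [e, OrderIso.trans_apply]
    rw [bend_ge (u := 1 / 10) _ (by linarith), bend_ge (u := 7 / 10) _ (by linarith),
      bend_ge _ (by linarith)]
    norm_num
  let k := lift e h0 h1
  have f1 : ∀ y, 0 ≤ y → y ≤ 1 / 10 → k.1 y = y := fun y y0 y1 => by
    rw [lift_apply _ _ _ y0 (by linarith), e1 y y1]
  have f2 : ∀ y, 0 ≤ y → y ≤ 1 / 10 → k.1 (1 / 5 + y) = 7 / 10 + y := fun y y0 y1 => by
    rw [lift_apply _ _ _ (by linarith) (by linarith), e2 y y0 y1]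
  refine ⟨tr (1 / 2) * k * tr (-1 / 2), k, (tr (1 / 2) * k * tr (-1 / 2) * k)⁻¹ * tr 1, by group,
    fun y y0 y1 => ?_, fun y y0 y1 => by rw [zero_add, f1 y y0 y1], fun y y0 y1 => ?_⟩
  · show k.1 (1 / 2 + y + -1 / 2) + 1 / 2 = _
    rw [show 1 / 2 + y + -1 / 2 = y by ring, f1 y y0 y1, add_comm]
  · show (tr (1 / 2) * k * tr (-1 / 2) * k).1⁻¹ (1 / 5 + y + 1) = _
    rw [Equiv.Perm.inv_eq_iff_eq]
    show _ = k.1 (k.1 (1 / 5 + y) + -1 / 2) + 1 / 2
    rw [f2 y y0 y1, show 7 / 10 + y + -1 / 2 = 1 / 5 + y by ring, f2 y y0 y1]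
    ring

/-- Rescaling by `N`. -/
noncomputable def scale (N : ℕ) (hN : 0 < N) : P →* P where
  toFun g := ⟨(Equiv.mulLeft₀ (N : ℝ) (by positivity))⁻¹ * g.1 * Equiv.mulLeft₀ (N : ℝ) (by positivity),
    fun x y h => by
      have hN' : (0 : ℝ) < N := by positivity
      show (N : ℝ)⁻¹ * g.1 (N * x) < (N : ℝ)⁻¹ * g.1 (N * y)
      exact mul_lt_mul_of_pos_left (g.2.1 (mul_lt_mul_of_pos_left h hN')) (inv_pos.2 hN'),
    fun x => by
      have hN' : (0 : ℝ) < N := by positivity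
      show (N : ℝ)⁻¹ * g.1 (N * (x + 1)) = (N : ℝ)⁻¹ * g.1 (N * x) + 1
      have := per_int g N (N * x)
      push_cast at this
      rw [mul_add, mul_one, this]
      field_simp⟩
  map_one' := Subtype.ext (by simp)
  map_mul' a b := Subtype.ext (by simp [mul_assoc])

lemma scale_apply (N : ℕ) (hN : 0 < N) (g : P) (x : ℝ) :
    (scale N hN g).1 x = (N : ℝ)⁻¹ * g.1 (N * x) := rfl

lemma scale_disp (N : ℕ) (hN : 0 < N) {g : P} {a : ℝ} (h : Disp g a) :
    Disp (scale N hN g) (a / N) := by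
  intro x
  have hN' : (0 : ℝ) < N := by positivity
  have : (N : ℝ)⁻¹ * g.1 (N * x) - x = (g.1 (N * x) - N * x) / N := by field_simp
  rw [scale_apply, this, abs_div, abs_of_pos hN']
  exact div_le_div_of_nonneg_right (h _) hN'.le

theorem main {R : Type} [NonUnitalRing R] [TopologicalSpace R] [IsTopologicalRing R]
    (f : P →ₙ* R) : ¬ @IsEmbedding P R basis.topology _ f := by
  letI := basis.topology
  haveI : IsTopologicalGroup P := basis.isTopologicalGroup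
  have hb : ∀ U ∈ 𝓝 (1 : P), ∃ ε > 0, ∀ g, Disp g ε → g ∈ U := by
    intro U hU
    obtain ⟨_, ⟨ε, hε, rfl⟩, h⟩ := basis.nhds_one_hasBasis.mem_iff.1 hU
    exact ⟨ε, hε, h⟩
  refine no_embedding (tr 1) {g | Disp g (1 / 2)} (basis.mem_nhds_one ⟨_, by norm_num, rfl⟩)
    (fun h => by have := h 0; norm_num at this) (fun U hU => ?_) f
  obtain ⟨ε, hε, hεU⟩ := hb U hU
  obtain ⟨N, hN⟩ := exists_nat_gt (4 / ε)
  have hN0 : (0 : ℝ) < N := lt_trans (by positivity) hN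
  have hN1 : 0 < N := by exact_mod_cast hN0
  have hN2 : (1 : ℝ) ≤ N := by exact_mod_cast hN1
  refine ⟨N, scale N hN1 (tr 1), ?_, fun V hV => ?_⟩
  · rw [← map_pow, tr_pow]
    ext x
    rw [scale_apply]
    simp only [tr_apply]
    field_simp
  obtain ⟨δ, hδ, hδV⟩ := hb V hV
  obtain ⟨k1, k2, k3, hk, f1, f2, f3⟩ := factor
  have d0 : 0 < min δ (1 / 2) := lt_min hδ (by norm_num)
  have d1 : min δ (1 / 2) < 1 := (min_le_right _ _).trans_lt (by norm_num)
  obtain ⟨r1, a1, b1⟩ := shrink k1 _ (by norm_num) (by norm_num) f1 _ d0 d1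
  obtain ⟨r2, a2, b2⟩ := shrink k2 _ (by norm_num) (by norm_num) f2 _ d0 d1
  obtain ⟨r3, a3, b3⟩ := shrink k3 _ (by norm_num) (by norm_num) f3 _ d0 d1
  have c1 := disp_of_fix k1 (1 / 10) _ (by norm_num) (by norm_num) f1
  have c2 := disp_of_fix k2 (1 / 10) _ (by norm_num) (by norm_num) f2
  have hU : ∀ (g : P) (a : ℝ), Disp g a → a ≤ 4 → scale N hN1 g ∈ U := fun g a h h4 =>
    hεU _ ((scale_disp N hN1 h).mono (by
      rw [div_le_iff₀ hN0]
      rw [div_lt_iff₀ hε] at hN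
      linarith))
  have hV : ∀ (g : P), Disp g (min δ (1 / 2)) → scale N hN1 g ∈ V := fun g h =>
    hδV _ ((scale_disp N hN1 h).mono ((div_le_self d0.le hN2).trans (min_le_left _ _)))
  refine ⟨scale N hN1 r1, scale N hN1 (k1 * r2), scale N hN1 (k1 * k2 * r3), scale N hN1 r1⁻¹,
    scale N hN1 r2⁻¹, scale N hN1 r3⁻¹, _, _, _, hU _ _ a1 (by norm_num),
    hU _ _ (c1.mul a2) (by norm_num), hU _ _ ((c1.mul c2).mul a3) (by norm_num),
    hU _ _ a1.inv (by norm_num), hU _ _ a2.inv (by norm_num), hU _ _ a3.inv (by norm_num),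
    hV _ b1, hV _ b2, hV _ b3, (tr_comm _).map _, (tr_comm _).map _, (tr_comm _).map _,
    ?_, ?_, ?_, ?_⟩
  all_goals simp only [← map_mul]
  · simp
  · congr 1; group
  · congr 1; group
  · rw [← hk]; congr 1; group

lemma t2 : @T2Space P basis.topology := by
  letI := basis.topology
  haveI : IsTopologicalGroup P := basis.isTopologicalGroup
  rw [IsTopologicalGroup.t2Space_iff_one_closed, ← isOpen_compl_iff, isOpen_iff_mem_nhds]
  intro g hg
  obtain ⟨x, hx⟩ : ∃ x, g.1 x ≠ x := by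
    by_contra h
    push Not at h
    exact hg (Subtype.ext (Equiv.ext h))
  have h0 : 0 < |g.1 x - x| := abs_pos.2 (sub_ne_zero.2 hx)
  refine (basis.nhds_hasBasis g).mem_iff.2 ⟨_, ⟨|g.1 x - x| / 2, half_pos h0, rfl⟩, ?_⟩
  rintro _ ⟨h, hh, rfl⟩ h1
  have h2 : h = g⁻¹ := (inv_eq_of_mul_eq_one_right h1).symm
  have := (Disp.inv hh) x
  rw [h2, inv_inv] at this
  linarith

end Pool.Agent.H19.TopRingEmb
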