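import Mathlib
import Pool.Agent.H19.CE

set_option autoImplicit false
set_option linter.unusedSectionVars false
set_option linter.unusedVariables false

namespace Pool.Agent.H19.Zass

open Pool.Agent.H19.Real

section
variable {A : Type} [Ring A] [Algebra ℚ A] {R : Subring A}

lemma loc_large (hsp : ∀ a : A, ∃ N : ℕ, N ≠ 0 ∧ N • a ∈ R) (v : A) :
    ∃ N : ℕ, ∀ p : ℕ, p.Prime → N < p → v ∈ Loc R p := by
  obtain ⟨N, hN, h⟩ := hsp v
  exact ⟨N, fun p hp h1 => ⟨N, Nat.coprime_of_lt_prime hN h1 hp, h⟩⟩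

theorem real1 (hsp : ∀ a : A, ∃ N : ℕ, N ≠ 0 ∧ N • a ∈ R)
    (hsep : ∀ x : R, x ≠ 0 → ∃ ψ : R →+ ℤ, ψ x ≠ 0) (α : ℕ → A) (hα : ∀ p, α p ∈ R)
    (hα2 : ∀ p, α p * α p = 0)
    (hgen : R ≤ Subring.closure {a | a ∈ R ∧ ∀ N : ℕ, ∃ p : ℕ, p.Prime ∧ N < p ∧ α p = a}) :
    ∃ G : AddSubgroup A, (1 : A) ∈ G ∧ (∀ φ : G →+ G, ∃ c ∈ R, ∀ g, (φ g).1 = c * g.1) ∧
      Nonempty (R ≃+* AddMonoid.End G) := by
  let G : AddSubgroup A := ⨅ p : Nat.Primes,
    (Loc R p).comap (AddMonoidHom.mulRight ((p.1 : A) - α p))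
  have mG : ∀ v, v ∈ G ↔ ∀ p : ℕ, p.Prime → v * (p - α p) ∈ Loc R p := fun v => by
    simp only [G, AddSubgroup.mem_iInf]
    exact Subtype.forall
  have hG : ∀ r ∈ R, ∀ g ∈ G, r • g ∈ G := fun r hr g hg => (mG _).mpr fun p hp => by
    rw [smul_eq_mul, mul_assoc]
    exact mul_loc hr ((mG _).mp hg p hp)
  have hR : ∀ r ∈ R, r ∈ G := fun r hr => (mG _).mpr fun p hp =>
    loc_of_mem p (mul_mem hr (sub_mem (natCast_mem _ _) (hα p)))
  have hw : ∀ p : ℕ, p.Prime → ∀ r : A,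
      (p : ℚ)⁻¹ ^ 2 • (r * (p + α p)) * (p - α p) = r := by
    intro p hp r
    have : (p + α p) * (p - α p) = p ^ 2 • (1 : A) := by
      rw [add_mul, mul_sub, mul_sub, hα2, (Nat.cast_commute p (α p)).eq]
      simp [sq]
    rw [smul_mul_assoc, mul_assoc, this, mul_smul_comm, smul_comm, pow_inv_smul hp.ne_zero,
      mul_one]
  have hW : ∀ p : ℕ, p.Prime → ∀ r ∈ R, (p : ℚ)⁻¹ ^ 2 • (r * (p + α p)) ∈ G := by
    intro p hp r hr
    refine (mG _).mpr fun q hq => ?_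
    by_cases h : q = p
    · rw [h, hw p hp]
      exact loc_of_mem _ hr
    · exact loc_mul (loc_inv ((Nat.coprime_primes hq hp).mpr h) hp.ne_zero _
        (mul_mem hr (add_mem (natCast_mem _ _) (hα p)))) (sub_mem (natCast_mem _ _) (hα q))
  suffices h : ∀ φ : G →+ G, ∃ c ∈ R, ∀ g, (φ g).1 = c * g.1 from
    ⟨G, hR 1 (one_mem _), h, ⟨RingEquiv.ofBijective _
      (act_bij hG (fun c hc => by simpa using hc 1 (hR 1 (one_mem _))) h)⟩⟩
  intro φ
  have zero : ∀ (v : A) (a : A), (∀ N : ℕ, ∃ p : ℕ, p.Prime ∧ N < p ∧ α p = a) →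
      (∃ N : ℕ, ∀ p : ℕ, p.Prime → N < p → α p = a → ∃ w ∈ Loc R p, p • w = v) → v = 0 := by
    rintro v a ha ⟨N, hN⟩
    by_contra h0
    obtain ⟨D, hD⟩ := bound hsp hsep h0
    obtain ⟨p, hp, h1, h2⟩ := ha (N + D)
    obtain ⟨w, hw, h3⟩ := hN p hp (by omega) h2
    have := hD p 1 w hw (by rwa [pow_one])
    rw [pow_one] at this
    omega
  have key : ∀ s ∈ Subring.closure
      {a | a ∈ R ∧ ∀ N : ℕ, ∃ p : ℕ, p.Prime ∧ N < p ∧ α p = a}, s ∈ R ∧
      ∀ g g' : G, g.1 ∈ R → g'.1 = g.1 * s → (φ g').1 = (φ g).1 * s := by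
    intro s hs
    induction hs using Subring.closure_induction with
    | mem a ha =>
      refine ⟨ha.1, fun g g' hg h => ?_⟩
      obtain ⟨N, hN⟩ := loc_large hsp (φ g).1
      obtain ⟨M, hM⟩ := loc_large hsp (φ g').1
      have h1 : ∀ p : ℕ, p.Prime → α p = a → ∃ z ∈ Loc R p, p • p • z =
          p • p • (φ g).1 + p • ((φ g').1 - (φ g).1 * a) - (φ g').1 * a := by
        intro p hp h2
        refine ⟨_, (mG _).mp (φ ⟨_, hW p hp _ hg⟩).2 p hp, ?_⟩
        have h3 : p ^ 2 • (⟨_, hW p hp _ hg⟩ : G) = p • g + g' := by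
          apply Subtype.ext
          rw [AddSubgroup.coe_nsmul, pow_inv_smul hp.ne_zero, h2, mul_add, ← h,
            ← (Nat.cast_commute p g.1).eq, ← nsmul_eq_mul]
          rfl
        rw [smul_smul, ← sq, ← smul_mul_assoc, ← AddSubgroup.coe_nsmul, ← map_nsmul, h3, map_add,
          map_nsmul, AddSubgroup.coe_add, AddSubgroup.coe_nsmul, h2, mul_sub,
          ← (Nat.cast_commute p _).eq, ← nsmul_eq_mul, add_mul, smul_mul_assoc, smul_add, smul_sub]
        abel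
      have h2 : (φ g').1 * a = 0 := zero _ a ha.2 ⟨N + M, fun p hp h3 h4 => by
        obtain ⟨z, hz, h5⟩ := h1 p hp h4
        refine ⟨p • (φ g).1 + ((φ g').1 - (φ g).1 * a) - p • z, sub_mem (add_mem
          (nsmul_mem (hN p hp (by omega)) _) (sub_mem (hM p hp (by omega))
          (loc_mul (hN p hp (by omega)) ha.1))) (nsmul_mem hz _), ?_⟩
        rw [smul_sub, h5, smul_add]
        abel⟩
      refine sub_eq_zero.mp (zero _ a ha.2 ⟨N, fun p hp h3 h4 => ?_⟩)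
      obtain ⟨z, hz, h5⟩ := h1 p hp h4
      refine ⟨z - (φ g).1, sub_mem hz (hN p hp h3), nsmul_inj hp.ne_zero ?_⟩
      rw [smul_sub, smul_sub, h5, h2]
      abel
    | zero => exact ⟨zero_mem _, fun g g' hg h => by
        rw [show g' = 0 from Subtype.ext (by simpa using h)]; simp⟩
    | one => exact ⟨one_mem _, fun g g' hg h => by
        rw [show g' = g from Subtype.ext (by simpa using h)]; simp⟩
    | add x y _ _ hx hy =>
      refine ⟨add_mem hx.1 hy.1, fun g g' hg h => ?_⟩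
      rw [show g' = ⟨_, hR _ (mul_mem hg hx.1)⟩ + ⟨_, hR _ (mul_mem hg hy.1)⟩ from
        Subtype.ext (by simpa [mul_add] using h), map_add, AddSubgroup.coe_add,
        hx.2 g ⟨_, hR _ (mul_mem hg hx.1)⟩ hg rfl, hy.2 g ⟨_, hR _ (mul_mem hg hy.1)⟩ hg rfl,
        mul_add]
    | neg x _ hx =>
      refine ⟨neg_mem hx.1, fun g g' hg h => ?_⟩
      rw [show g' = -⟨_, hR _ (mul_mem hg hx.1)⟩ from Subtype.ext (by simpa using h), map_neg,
        AddSubgroup.coe_neg, hx.2 g _ hg rfl, mul_neg]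
    | mul x y _ _ hx hy =>
      refine ⟨mul_mem hx.1 hy.1, fun g g' hg h => ?_⟩
      rw [hy.2 ⟨_, hR _ (mul_mem hg hx.1)⟩ g' (mul_mem hg hx.1) (by rw [h, mul_assoc]),
        hx.2 g _ hg rfl, mul_assoc]
  set c := (φ ⟨1, hR 1 (one_mem _)⟩).1
  have hc : ∀ g, (φ g).1 = c * g.1 := fun g => by
    obtain ⟨N, hN, h⟩ := hsp g.1
    apply nsmul_inj hN
    rw [← AddSubgroup.coe_nsmul, ← map_nsmul, ← mul_smul_comm]
    exact (key _ (hgen h)).2 ⟨1, hR 1 (one_mem _)⟩ _ (one_mem _) (one_mul _).symm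
  refine ⟨c, mem_of_loc hsp fun p hp => ?_, hc⟩
  have := (mG _).mp (φ ⟨_, hW p hp 1 (one_mem _)⟩).2 p hp
  rwa [hc, mul_assoc, hw p hp, mul_one] at this

end

/-- coordinates `1, x, y, u, p, q` with `xy = xu = ux = p`, `yu = uy = q` -/
def T := Fin 6 → ℚ

instance : AddCommGroup T := inferInstanceAs (AddCommGroup (Fin 6 → ℚ))
instance : Module ℚ T := inferInstanceAs (Module ℚ (Fin 6 → ℚ))
instance : One T := ⟨![1, 0, 0, 0, 0, 0]⟩
instance : Mul T := ⟨fun v w => ![v 0 * w 0, v 0 * w 1 + v 1 * w 0, v 0 * w 2 + v 2 * w 0,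
  v 0 * w 3 + v 3 * w 0, v 0 * w 4 + v 4 * w 0 + v 1 * w 2 + v 1 * w 3 + v 3 * w 1,
  v 0 * w 5 + v 5 * w 0 + v 2 * w 3 + v 3 * w 2]⟩

lemma T_ext {v w : T} (h : ∀ i, v i = w i) : v = w := funext h
lemma mul_def (v w : T) : v * w = ![v 0 * w 0, v 0 * w 1 + v 1 * w 0, v 0 * w 2 + v 2 * w 0,
  v 0 * w 3 + v 3 * w 0, v 0 * w 4 + v 4 * w 0 + v 1 * w 2 + v 1 * w 3 + v 3 * w 1,
  v 0 * w 5 + v 5 * w 0 + v 2 * w 3 + v 3 * w 2] := rfl
lemma one_def : (1 : T) = ![1, 0, 0, 0, 0, 0] := rfl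
@[simp] lemma add_app (v w : T) (i : Fin 6) : (v + w) i = v i + w i := rfl
@[simp] lemma sub_app (v w : T) (i : Fin 6) : (v - w) i = v i - w i := rfl
@[simp] lemma neg_app (v : T) (i : Fin 6) : (-v) i = -v i := rfl
@[simp] lemma zero_app (i : Fin 6) : (0 : T) i = 0 := rfl
@[simp] lemma smul_app (r : ℚ) (v : T) (i : Fin 6) : (r • v) i = r * v i := rfl
@[simp] lemma nsmul_app (r : ℕ) (v : T) (i : Fin 6) : (r • v) i = r * v i := nsmul_eq_mul _ _
@[simp] lemma zsmul_app (r : ℤ) (v : T) (i : Fin 6) : (r • v) i = r * v i := zsmul_eq_mul _ _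

instance : Ring T :=
  { (inferInstance : AddCommGroup T) with
    mul := (· * ·)
    one := 1
    mul_assoc := fun a b c => T_ext fun i => by fin_cases i <;> simp [mul_def] <;> ring
    one_mul := fun a => T_ext fun i => by fin_cases i <;> simp [mul_def, one_def]
    mul_one := fun a => T_ext fun i => by fin_cases i <;> simp [mul_def, one_def]
    zero_mul := fun a => T_ext fun i => by fin_cases i <;> simp [mul_def]
    mul_zero := fun a => T_ext fun i => by fin_cases i <;> simp [mul_def]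
    left_distrib := fun a b c => T_ext fun i => by fin_cases i <;> simp [mul_def] <;> ring
    right_distrib := fun a b c => T_ext fun i => by fin_cases i <;> simp [mul_def] <;> ring }

instance : Algebra ℚ T := Algebra.ofModule
  (fun r a b => T_ext fun i => by fin_cases i <;> simp [mul_def] <;> ring)
  (fun r a b => T_ext fun i => by fin_cases i <;> simp [mul_def] <;> ring)

def R6 : Subring T where
  carrier := {v | ∀ i, v i ∈ (Int.castRingHom ℚ).range}
  zero_mem' := fun _ => zero_mem _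
  one_mem' := fun i => by fin_cases i <;> simp [one_def, -RingHom.mem_range]
  add_mem' := fun h1 h2 i => add_mem (h1 i) (h2 i)
  neg_mem' := fun h i => neg_mem (h i)
  mul_mem' := fun h1 h2 i => by
    fin_cases i <;> simp [mul_def, -RingHom.mem_range] <;> apply_rules [add_mem, mul_mem]

def e (j : Fin 6) : T := Pi.single j 1

lemma e_app (j i : Fin 6) : e j i = if i = j then 1 else 0 := Pi.single_apply ..

lemma e_mem (j : Fin 6) : e j ∈ R6 := fun i => by
  rw [e_app]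
  split_ifs
  exacts [one_mem _, zero_mem _]

lemma hsp (a : T) : ∃ N : ℕ, N ≠ 0 ∧ N • a ∈ R6 := by
  refine ⟨∏ i, (a i).den, Finset.prod_ne_zero_iff.mpr fun i _ => (a i).den_nz, fun i => ?_⟩
  obtain ⟨k, hk⟩ := Finset.dvd_prod_of_mem (fun i => (a i).den) (Finset.mem_univ i)
  refine ⟨k * (a i).num, ?_⟩
  rw [nsmul_app, hk]
  simp only [eq_intCast]
  push_cast
  rw [← Rat.den_mul_eq_num]
  ring

lemma hsep (x : R6) (hx : x ≠ 0) : ∃ ψ : R6 →+ ℤ, ψ x ≠ 0 := by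
  obtain ⟨i, hi⟩ := Function.ne_iff.mp (fun h => hx (Subtype.ext h) : (x.1 : Fin 6 → ℚ) ≠ 0)
  refine ⟨AddMonoidHom.mk' (fun v => ⌊v.1 i⌋) fun a b => ?_, ?_⟩
  · obtain ⟨z, hz⟩ := b.2 i
    change ⌊a.1 i + b.1 i⌋ = _
    rw [← hz]
    simp
  · obtain ⟨z, hz⟩ := x.2 i
    change ⌊x.1 i⌋ ≠ 0
    rw [← hz] at hi ⊢
    simpa using hi

noncomputable def al (p : ℕ) : T :=
  e (![1, 2, 3] (Fin.ofNat 3 (Nat.count Nat.Prime p)))

lemma al_hit (j : Fin 3) (N : ℕ) : ∃ p : ℕ, p.Prime ∧ N < p ∧ al p = e (![1, 2, 3] j) := by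
  refine ⟨Nat.nth Nat.Prime (3 * (N + 1) + j), Nat.prime_nth_prime _, ?_, ?_⟩
  · have : 3 * (N + 1) + j ≤ Nat.nth Nat.Prime (3 * (N + 1) + j) :=
      (Nat.nth_strictMono Nat.infinite_setOfPred_prime).id_le (3 * (N + 1) + j)
    omega
  · rw [al, Nat.count_nth_of_infinite Nat.infinite_setOfPred_prime]
    congr 2
    apply Fin.ext
    simp only [Fin.ofNat]
    omega

theorem exG : ∃ G : AddSubgroup T, (1 : T) ∈ G ∧
    (∀ φ : G →+ G, ∃ c ∈ R6, ∀ g, (φ g).1 = c * g.1) ∧ Nonempty (R6 ≃+* AddMonoid.End G) := by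
  refine real1 hsp hsep al (fun p => e_mem _) (fun p => ?_) fun v hv => ?_
  · unfold al
    generalize Fin.ofNat 3 (Nat.count Nat.Prime p) = j
    refine T_ext fun i => ?_
    fin_cases j <;> fin_cases i <;> simp [mul_def, e_app]
  · choose z hz using hv
    have h : ∀ j : Fin 3, e (![1, 2, 3] j) ∈ Subring.closure
        {a | a ∈ R6 ∧ ∀ N : ℕ, ∃ p : ℕ, p.Prime ∧ N < p ∧ al p = a} :=
      fun j => Subring.subset_closure ⟨e_mem _, al_hit j⟩
    have h1 : v = z 0 • 1 + z 1 • e 1 + z 2 • e 2 + z 3 • e 3 + z 4 • (e 1 * e 2) +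
        z 5 • (e 2 * e 3) := T_ext fun i => by
      rw [← hz]
      simp only [add_app, zsmul_app]
      fin_cases i <;> simp [mul_def, e_app, one_def]
    rw [h1]
    exact add_mem (add_mem (add_mem (add_mem (add_mem (zsmul_mem (one_mem _) _)
      (zsmul_mem (h 0) _)) (zsmul_mem (h 1) _)) (zsmul_mem (h 2) _))
      (zsmul_mem (mul_mem (h 0) (h 1)) _)) (zsmul_mem (mul_mem (h 1) (h 2)) _)

lemma cen {v : R6} (h1 : v.1 1 = 0) (h2 : v.1 2 = 0) : v ∈ Subring.center R6 :=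
  Subring.mem_center_iff.mpr fun g => Subtype.ext (T_ext fun i => by
    simp only [Subring.coe_mul]
    fin_cases i <;> simp [mul_def, h1, h2] <;> ring)

lemma ce_R6 : CE.CE R6 := by
  intro a ha
  by_cases h0 : a.1 0 = 0
  · by_cases h1 : a.1 1 = 0 ∧ a.1 2 = 0
    · exact ⟨1, one_mem _, by simpa using cen h1.1 h1.2, by simpa using ha⟩
    · refine ⟨⟨_, e_mem 3⟩, cen (by simp [e_app]) (by simp [e_app]),
        cen (by simp [mul_def, e_app]) (by simp [mul_def, e_app]), fun h => h1 ⟨?_, ?_⟩⟩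
      · simpa [mul_def, e_app] using congrArg (fun y : R6 => y.1 4) h
      · simpa [mul_def, e_app] using congrArg (fun y : R6 => y.1 5) h
  · refine ⟨⟨_, e_mem 4⟩, cen (by simp [e_app]) (by simp [e_app]),
      cen (by simp [mul_def, e_app]) (by simp [mul_def, e_app]), fun h => h0 ?_⟩
    simpa [mul_def, e_app] using congrArg (fun y : R6 => y.1 4) h

lemma noncomm : ∃ a b : R6, a * b ≠ b * a :=
  ⟨⟨_, e_mem 1⟩, ⟨_, e_mem 2⟩, fun h => by
    simpa [mul_def, e_app] using congrArg (fun y : R6 => y.1 4) h⟩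

lemma inj {c v : T} (hc : c 0 ≠ 0) (h : c * v = 0) : v = 0 := by
  have h0 : v 0 = 0 := by simpa [mul_def, hc] using congrFun h 0
  have h1 : v 1 = 0 := by simpa [mul_def, hc, h0] using congrFun h 1
  have h2 : v 2 = 0 := by simpa [mul_def, hc, h0] using congrFun h 2
  have h3 : v 3 = 0 := by simpa [mul_def, hc, h0] using congrFun h 3
  have h4 : v 4 = 0 := by simpa [mul_def, hc, h0, h1, h2, h3] using congrFun h 4
  have h5 : v 5 = 0 := by simpa [mul_def, hc, h0, h2, h3] using congrFun h 5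
  refine T_ext fun i => ?_
  fin_cases i
  exacts [h0, h1, h2, h3, h4, h5]

lemma rank_T : Module.rank ℤ T = 6 :=
  (IsFractionRing.rank_right_eq ℤ ℚ T).symm.trans (rank_fin_fun (R := ℚ) 6)

end Pool.Agent.H19.Zass
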